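import Pool.Agent.Work.MP_408f4b_gt.Q.Stmts3

set_option autoImplicit false

namespace Pool.Agent.Work.MP_408f4b_gt.Q

open MeasureTheory Set

namespace JEqn

theorem hasDeriv1 {x : ℝ → ℝ} (hx : ContDiff ℝ 2 x) (s : ℝ) : HasDerivAt x (deriv x s) s :=
  ((hx.differentiable two_ne_zero) s).hasDerivAt

theorem cd1 {x : ℝ → ℝ} (hx : ContDiff ℝ 2 x) : ContDiff ℝ 1 (deriv x) := by
  have h : ContDiff ℝ (1 + 1) x := by
    have : ((1 : WithTop ℕ∞) + 1) = 2 := by norm_num
    rw [this]; exact hx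
  exact (contDiff_succ_iff_deriv.1 h).2.2

theorem hasDeriv2 {x : ℝ → ℝ} (hx : ContDiff ℝ 2 x) (s : ℝ) :
    HasDerivAt (deriv x) (deriv (deriv x) s) s :=
  (((cd1 hx).differentiable one_ne_zero) s).hasDerivAt

theorem cont2 {x : ℝ → ℝ} (hx : ContDiff ℝ 2 x) : Continuous (deriv (deriv x)) :=
  (cd1 hx).continuous_deriv le_rfl

/-- the velocity and the acceleration are orthogonal. -/
theorem orth {a b : ℝ} {x y : ℝ → ℝ} (hab : a < b) (hx : ContDiff ℝ 2 x) (hy : ContDiff ℝ 2 y)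
    (h1 : ∀ s ∈ Icc a b, deriv x s ^ 2 + deriv y s ^ 2 = 1) :
    ∀ s ∈ Icc a b, deriv x s * deriv (deriv x) s + deriv y s * deriv (deriv y) s = 0 := by
  have hi : ∀ s ∈ Ioo a b,
      deriv x s * deriv (deriv x) s + deriv y s * deriv (deriv y) s = 0 := by
    intro s hs
    have h2 : HasDerivAt (fun t => deriv x t ^ 2 + deriv y t ^ 2)
        (2 * deriv x s * deriv (deriv x) s + 2 * deriv y s * deriv (deriv y) s) s := by
      have e1 : HasDerivAt (fun t => deriv x t ^ 2) (2 * deriv x s * deriv (deriv x) s) s := by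
        have := (hasDeriv2 hx s).fun_pow 2
        simpa using this
      have e2 : HasDerivAt (fun t => deriv y t ^ 2) (2 * deriv y s * deriv (deriv y) s) s := by
        have := (hasDeriv2 hy s).fun_pow 2
        simpa using this
      exact e1.fun_add e2
    have h3 : (fun t => deriv x t ^ 2 + deriv y t ^ 2) =ᶠ[nhds s] fun _ => 1 := by
      filter_upwards [Ioo_mem_nhds hs.1 hs.2] with t ht
      exact h1 t ⟨ht.1.le, ht.2.le⟩
    have h4 := (hasDerivAt_const s (1 : ℝ)).congr_of_eventuallyEq h3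
    have h5 := h2.unique h4
    linarith
  intro s hs
  have hc : Continuous fun s => deriv x s * deriv (deriv x) s + deriv y s * deriv (deriv y) s :=
    ((cd1 hx).continuous.mul (cont2 hx)).add ((cd1 hy).continuous.mul (cont2 hy))
  have hcl : closure (Ioo a b) ⊆
      {s | deriv x s * deriv (deriv x) s + deriv y s * deriv (deriv y) s = 0} :=
    closure_minimal hi (isClosed_eq hc continuous_const)
  rw [closure_Ioo hab.ne] at hcl
  exact hcl hs

/-- The algebra of the first equation. -/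
theorem alg1 {a b X Y p q : ℝ} (hX : X ≠ 0) (hY : Y ≠ 0) (h1 : X - Y ≠ 0) (h2 : X + Y ≠ 0)
    (h : p ^ 2 + q ^ 2 = 1) :
    (a * (p / X + q / Y) + 2 * b * (X * p - Y * q) / (X ^ 2 - Y ^ 2)) * p -
      (a * (p / Y - q / X) - 2 * b * (p * Y + q * X) / (X ^ 2 - Y ^ 2)) * q =
      a / X + b / (X - Y) + b / (X + Y) := by
  have hD : X ^ 2 - Y ^ 2 = (X - Y) * (X + Y) := by ring
  rw [hD]
  have e : (a * (p / X + q / Y) + 2 * b * (X * p - Y * q) / ((X - Y) * (X + Y))) * p -
      (a * (p / Y - q / X) - 2 * b * (p * Y + q * X) / ((X - Y) * (X + Y))) * q =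
      (a / X + b / (X - Y) + b / (X + Y)) * (p ^ 2 + q ^ 2) := by
    field_simp
    ring
  rw [e, h, mul_one]

/-- The algebra of the second equation. -/
theorem alg2 {a b X Y p q : ℝ} (hX : X ≠ 0) (hY : Y ≠ 0) (h1 : X - Y ≠ 0) (h2 : X + Y ≠ 0)
    (h : p ^ 2 + q ^ 2 = 1) :
    (a * (p / X + q / Y) + 2 * b * (X * p - Y * q) / (X ^ 2 - Y ^ 2)) * q +
      (a * (p / Y - q / X) - 2 * b * (p * Y + q * X) / (X ^ 2 - Y ^ 2)) * p =
      a / Y - b / (X - Y) + b / (X + Y) := by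
  have hD : X ^ 2 - Y ^ 2 = (X - Y) * (X + Y) := by ring
  rw [hD]
  have e : (a * (p / X + q / Y) + 2 * b * (X * p - Y * q) / ((X - Y) * (X + Y))) * q +
      (a * (p / Y - q / X) - 2 * b * (p * Y + q * X) / ((X - Y) * (X + Y))) * p =
      (a / Y - b / (X - Y) + b / (X + Y)) * (p ^ 2 + q ^ 2) := by
    field_simp
    ring
  rw [e, h, mul_one]

end JEqn

theorem prfEqn : clEqn := by
  intro a b α β x y ha hb hab hC s hs
  obtain ⟨hx, hy, hrest⟩ := hC
  obtain ⟨k, rfl⟩ : ∃ k, a = k + 1 := ⟨a - 1, by omega⟩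
  obtain ⟨l, rfl⟩ : ∃ l, b = l + 1 := ⟨b - 1, by omega⟩
  obtain ⟨hY, hXY, h1, h3⟩ := hrest s hs
  have h2 := JEqn.orth hab hx hy (fun s hs => (hrest s hs).2.2.1) s hs
  have hX : 0 < x s := hY.trans hXY
  have hX0 : x s ≠ 0 := hX.ne'
  have hY0 : y s ≠ 0 := hY.ne'
  have hm : x s - y s ≠ 0 := (sub_pos.2 hXY).ne'
  have hp : x s + y s ≠ 0 := (add_pos hX hY).ne'
  have hDp : 0 < x s ^ 2 - y s ^ 2 := by nlinarith
  have hD : x s ^ 2 - y s ^ 2 ≠ 0 := hDp.ne'
  have hA : deriv (deriv x) s = -(kq (k + 1) (l + 1) x y s) * deriv y s := by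
    linear_combination (-deriv (deriv x) s) * h1 + deriv x s * h2 - deriv y s * h3
  have hB : deriv (deriv y) s = kq (k + 1) (l + 1) x y s * deriv x s := by
    linear_combination (-deriv (deriv y) s) * h1 + deriv y s * h2 + deriv x s * h3
  have dx := JEqn.hasDeriv1 hx s
  have dy := JEqn.hasDeriv1 hy s
  have ddx := JEqn.hasDeriv2 hx s
  have ddy := JEqn.hasDeriv2 hy s
  rw [hA] at ddx
  rw [hB] at ddy
  have hkq : kq (k + 1) (l + 1) x y s = ((k + 1 : ℕ) : ℝ) * (deriv x s / y s - deriv y s / x s)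
      - 2 * ((l + 1 : ℕ) : ℝ) * (deriv x s * y s + deriv y s * x s) / (x s ^ 2 - y s ^ 2) := rfl
  have dw : HasDerivAt (wq (k + 1) (l + 1) x y) (wq (k + 1) (l + 1) x y s *
      (((k + 1 : ℕ) : ℝ) * (deriv x s / x s + deriv y s / y s)
      + 2 * ((l + 1 : ℕ) : ℝ) * (x s * deriv x s - y s * deriv y s) / (x s ^ 2 - y s ^ 2))) s := by
    have e1 : HasDerivAt (fun t => (x t * y t) ^ (k + 1))
        (((k : ℝ) + 1) * (x s * y s) ^ k * (deriv x s * y s + x s * deriv y s)) s := by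
      have := (dx.fun_mul dy).fun_pow (k + 1)
      simpa using this
    have e2 : HasDerivAt (fun t => (x t ^ 2 - y t ^ 2) ^ (l + 1))
        (((l : ℝ) + 1) * (x s ^ 2 - y s ^ 2) ^ l *
          (2 * x s * deriv x s - 2 * y s * deriv y s)) s := by
      have e3 : HasDerivAt (fun t => x t ^ 2 - y t ^ 2)
          (2 * x s * deriv x s - 2 * y s * deriv y s) s := by
        have e4 : HasDerivAt (fun t => x t ^ 2) (2 * x s * deriv x s) s := by
          have := dx.fun_pow 2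
          simpa using this
        have e5 : HasDerivAt (fun t => y t ^ 2) (2 * y s * deriv y s) s := by
          have := dy.fun_pow 2
          simpa using this
        exact e4.fun_sub e5
      have := e3.fun_pow (l + 1)
      simpa using this
    have e6 := e1.fun_mul e2
    refine HasDerivAt.congr_deriv (f := wq (k + 1) (l + 1) x y) e6 ?_
    unfold wq
    push_cast
    have hpow1 : (x s * y s) ^ (k + 1) = (x s * y s) ^ k * (x s * y s) := pow_succ _ _
    have hpow2 : (x s ^ 2 - y s ^ 2) ^ (l + 1) =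
        (x s ^ 2 - y s ^ 2) ^ l * (x s ^ 2 - y s ^ 2) := pow_succ _ _
    rw [hpow1, hpow2]
    generalize (x s * y s) ^ k = P
    generalize (x s ^ 2 - y s ^ 2) ^ l = Q
    field_simp
  have g1 : HasDerivAt (fun t => wq (k + 1) (l + 1) x y t * deriv x t)
      (wq (k + 1) (l + 1) x y s * (((k + 1 : ℕ) : ℝ) / x s + ((l + 1 : ℕ) : ℝ) / (x s - y s)
        + ((l + 1 : ℕ) : ℝ) / (x s + y s))) s := by
    refine (dw.fun_mul ddx).congr_deriv ?_
    rw [← JEqn.alg1 (a := ((k + 1 : ℕ) : ℝ)) (b := ((l + 1 : ℕ) : ℝ)) hX0 hY0 hm hp h1, hkq]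
    ring
  have g2 : HasDerivAt (fun t => wq (k + 1) (l + 1) x y t * deriv y t)
      (wq (k + 1) (l + 1) x y s * (((k + 1 : ℕ) : ℝ) / y s - ((l + 1 : ℕ) : ℝ) / (x s - y s)
        + ((l + 1 : ℕ) : ℝ) / (x s + y s))) s := by
    refine (dw.fun_mul ddy).congr_deriv ?_
    rw [← JEqn.alg2 (a := ((k + 1 : ℕ) : ℝ)) (b := ((l + 1 : ℕ) : ℝ)) hX0 hY0 hm hp h1, hkq]
    ring
  have hwpos : 0 < wq (k + 1) (l + 1) x y s := by
    unfold wq
    positivity
  refine ⟨hwpos, ddx, ddy, dw, g1, g2, ?_, ?_⟩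
  · have e : (fun t => wq (k + 1) (l + 1) x y t * (x t * deriv x t + y t * deriv y t)) =
        fun t => x t * (wq (k + 1) (l + 1) x y t * deriv x t) +
          y t * (wq (k + 1) (l + 1) x y t * deriv y t) := by
      funext t; ring
    rw [e]
    refine ((dx.fun_mul g1).fun_add (dy.fun_mul g2)).congr_deriv ?_
    generalize wq (k + 1) (l + 1) x y s = W
    push_cast
    field_simp
    linear_combination (W * (x s - y s) * (x s + y s)) * h1
  · refine ((dx.fun_mul ddy).fun_sub (dy.fun_mul ddx)).congr_deriv ?_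
    ring

end Pool.Agent.Work.MP_408f4b_gt.Q
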