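import Pool.Agent.Work.MP_408f4b_gt.Q.Stmts3

set_option autoImplicit false
set_option linter.unusedSectionVars false
set_option linter.unusedVariables false

/-!
# Poincaré inequality for functions which are even in both vectors
-/

namespace Pool.Agent.Work.MP_408f4b_gt.Q

open MeasureTheory Set Filter Topology

namespace JGee

section grad

variable {V W : Type} [NormedAddCommGroup V] [InnerProductSpace ℝ V] [CompleteSpace V]
  [NormedAddCommGroup W] [InnerProductSpace ℝ W] [CompleteSpace W]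

/-- The gradient of a composition with a linear isometry. -/
lemma inner_gradient_comp {f : V → ℝ} (T : W →ₗᵢ[ℝ] V) {u : W}
    (hf : DifferentiableAt ℝ f (T u)) (h : W) :
    inner ℝ (gradient (fun u => f (T u)) u) h = inner ℝ (gradient f (T u)) (T h) := by
  have h1 : HasFDerivAt (fun u => f (T u))
      ((fderiv ℝ f (T u)).comp T.toContinuousLinearMap) u :=
    HasFDerivAt.comp (f := fun u => T u) u (g := f) hf.hasFDerivAt
      T.toContinuousLinearMap.hasFDerivAt
  simp only [gradient]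
  rw [InnerProductSpace.toDual_symm_apply, InnerProductSpace.toDual_symm_apply, h1.fderiv]
  rfl

lemma continuous_gradient {f : V → ℝ} (hf : ContDiff ℝ 1 f) : Continuous (gradient f) :=
  (InnerProductSpace.toDual ℝ V).symm.continuous.comp (hf.continuous_fderiv one_ne_zero)

/-- A Bessel inequality. -/
lemma bessel {ι : Type} [Fintype ι] {c : ι → V} (hc : Orthonormal ℝ c) (T : W →ₗᵢ[ℝ] V)
    (G : V) (z : W) (hT : ∀ q, inner ℝ (c q) (T z) = 0) (hz : inner ℝ G (T z) = ‖z‖ ^ 2) :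
    ‖z‖ ^ 2 + ∑ q, (inner ℝ G (c q) : ℝ) ^ 2 ≤ ‖G‖ ^ 2 := by
  have h1 := hc.sum_inner_products_le (x := G - T z) (s := Finset.univ)
  have h2 : ‖G - T z‖ ^ 2 = ‖G‖ ^ 2 - ‖z‖ ^ 2 := by
    rw [norm_sub_sq_real, hz, T.norm_map]
    ring
  rw [h2] at h1
  have h3 : ∑ q, (inner ℝ G (c q) : ℝ) ^ 2 = ∑ q, ‖(inner ℝ (c q) (G - T z) : ℝ)‖ ^ 2 := by
    refine Finset.sum_congr rfl fun q _ => ?_
    rw [inner_sub_right, hT q, sub_zero, Real.norm_eq_abs, sq_abs, real_inner_comm]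
  rw [h3]
  linarith

lemma continuous_gr1 {g : V → V → ℝ} (hg : ContDiff ℝ 1 (fun z : V × V => g z.1 z.2)) :
    Continuous (fun z : V × V => gr1 g z.1 z.2) := by
  have h0 : (fun z : V × V => gr1 g z.1 z.2) = fun z : V × V =>
      (InnerProductSpace.toDual ℝ V).symm
        ((fderiv ℝ (fun z : V × V => g z.1 z.2) z).comp (ContinuousLinearMap.inl ℝ V V)) := by
    funext z
    have h1 : HasFDerivAt (fun z : V × V => g z.1 z.2)
        (fderiv ℝ (fun z : V × V => g z.1 z.2) (z.1, z.2)) (z.1, z.2) :=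
      (hg.differentiable one_ne_zero _).hasFDerivAt
    have h3 : HasFDerivAt (fun v' : V => g v' z.2) _ z.1 :=
      HasFDerivAt.comp (f := fun v' : V => (v', z.2)) z.1 (g := fun z : V × V => g z.1 z.2) h1
        (hasFDerivAt_prodMk_left z.1 z.2)
    simp only [gr1, gradient]
    rw [h3.fderiv]
  rw [h0]
  have h2 : Continuous (fun z : V × V => (fderiv ℝ (fun z : V × V => g z.1 z.2) z).comp
      (ContinuousLinearMap.inl ℝ V V)) :=
    (hg.continuous_fderiv one_ne_zero).clm_comp continuous_const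
  exact (InnerProductSpace.toDual ℝ V).symm.continuous.comp h2

lemma continuous_gr2 {g : V → V → ℝ} (hg : ContDiff ℝ 1 (fun z : V × V => g z.1 z.2)) :
    Continuous (fun z : V × V => gr2 g z.1 z.2) := by
  have h0 : (fun z : V × V => gr2 g z.1 z.2) = fun z : V × V =>
      (InnerProductSpace.toDual ℝ V).symm
        ((fderiv ℝ (fun z : V × V => g z.1 z.2) z).comp (ContinuousLinearMap.inr ℝ V V)) := by
    funext z
    have h1 : HasFDerivAt (fun z : V × V => g z.1 z.2)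
        (fderiv ℝ (fun z : V × V => g z.1 z.2) (z.1, z.2)) (z.1, z.2) :=
      (hg.differentiable one_ne_zero _).hasFDerivAt
    have h3 : HasFDerivAt (fun v' : V => g z.1 v') _ z.2 :=
      HasFDerivAt.comp (f := fun v' : V => (z.1, v')) z.2 (g := fun z : V × V => g z.1 z.2) h1
        (hasFDerivAt_prodMk_right z.1 z.2)
    simp only [gr2, gradient]
    rw [h3.fderiv]
  rw [h0]
  have h2 : Continuous (fun z : V × V => (fderiv ℝ (fun z : V × V => g z.1 z.2) z).comp
      (ContinuousLinearMap.inr ℝ V V)) :=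
    (hg.continuous_fderiv one_ne_zero).clm_comp continuous_const
  exact (InnerProductSpace.toDual ℝ V).symm.continuous.comp h2

lemma fin_sig (m : ℕ) : IsFiniteMeasure (sig m) := by
  unfold sig
  infer_instance

variable {n e : ℕ} (Φ : Frm V n e)

lemma continuous_n1 {g : V → V → ℝ} (hg : ContDiff ℝ 1 (fun z : V × V => g z.1 z.2)) :
    Continuous (fun z : V × V => Φ.n1 g z.1 z.2) := by
  have h1 := continuous_gr1 hg
  have hJ : ∀ q, Continuous (Φ.J q) := fun q => (Φ.J q).continuous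
  unfold Frm.n1
  refine ((h1.norm.pow 2).sub ((h1.inner continuous_fst).pow 2)).sub
    (continuous_finsetSum _ fun q _ => ?_)
  exact (h1.inner ((hJ q).comp continuous_snd)).pow 2

lemma continuous_n2 {g : V → V → ℝ} (hg : ContDiff ℝ 1 (fun z : V × V => g z.1 z.2)) :
    Continuous (fun z : V × V => Φ.n2 g z.1 z.2) := by
  have h1 := continuous_gr2 hg
  have hJ : ∀ q, Continuous (Φ.J q) := fun q => (Φ.J q).continuous
  unfold Frm.n2
  refine ((h1.norm.pow 2).sub ((h1.inner continuous_snd).pow 2)).sub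
    (continuous_finsetSum _ fun q _ => ?_)
  exact (h1.inner ((hJ q).comp continuous_fst)).pow 2

lemma continuous_Js (q : Fin (e + 1)) : Continuous (Φ.Js q) := by
  unfold Frm.Js
  by_cases h : q = 0
  · simp only [h, if_true]
    exact continuous_id
  · simp only [h, if_false]
    exact (Φ.J q).continuous.neg

lemma continuous_om (q : Fin (e + 1)) {g : V → V → ℝ}
    (hg : ContDiff ℝ 1 (fun z : V × V => g z.1 z.2)) :
    Continuous (fun z : V × V => Φ.om q g z.1 z.2) := by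
  have h1 := continuous_gr1 hg
  have h2 := continuous_gr2 hg
  unfold Frm.om
  exact (h1.inner ((Φ.J q).continuous.comp continuous_snd)).sub
    (h2.inner ((continuous_Js Φ q).comp continuous_fst))

lemma continuous_FF {g : V → V → ℝ} (hg : ContDiff ℝ 1 (fun z : V × V => g z.1 z.2)) :
    Continuous (fun z : V × V => Φ.n1 g z.1 z.2 + ∑ q, Φ.om q g z.1 z.2 ^ 2) :=
  (continuous_n1 Φ hg).add (continuous_finsetSum _ fun q _ => (continuous_om Φ q hg).pow 2)

lemma orthonormal_J {v : V} (hv : ‖v‖ = 1) : Orthonormal ℝ (fun q => Φ.J q v) := by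
  refine ⟨fun q => ?_, fun p q hpq => Φ.Jorth v p q hpq⟩
  rw [(Φ.J q).norm_map, hv]

/-- The even Poincaré inequality on the fibre. -/
lemma fib (hE : clESph) {g : V → V → ℝ} (hg : ContDiff ℝ 1 (fun z : V × V => g z.1 z.2))
    (hev : ∀ v w, g v (-w) = g v w) (k : Φ.G) :
    2 * ((n - (e + 1) : ℕ) : ℝ) *
      VV (n - (e + 1)) (fun u => g (Φ.A k Φ.a) (Φ.A k (Φ.ι u))) ≤
    ∫ u : Sph (n - (e + 1)), Φ.n2 g (Φ.A k Φ.a) (Φ.A k (Φ.ι u)) ∂sig (n - (e + 1)) := by
  set n' := n - (e + 1) with hn'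
  have hle := Φ.le
  have h1 : 1 ≤ n' := by omega
  have := fin_sig n'
  let T : E n' →ₗᵢ[ℝ] V := (Φ.A k).comp Φ.ι
  have hT : ∀ u, T u = Φ.A k (Φ.ι u) := fun u => rfl
  have hgv : ContDiff ℝ 1 (g (Φ.A k Φ.a)) :=
    hg.comp (f := fun w : V => (Φ.A k Φ.a, w)) (by fun_prop)
  have hgT : ContDiff ℝ 1 (fun u : E n' => g (Φ.A k Φ.a) (T u)) :=
    hgv.comp (f := fun u : E n' => T u) T.toContinuousLinearMap.contDiff
  have h2 := hE n' (fun u : E n' => g (Φ.A k Φ.a) (T u)) h1 hgT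
    (fun θ _ => by simp only [map_neg, hev])
  refine h2.trans ?_
  have hc1 : Continuous (fun θ : Sph n' =>
      ‖gradient (fun u : E n' => g (Φ.A k Φ.a) (T u)) (θ : E n')‖ ^ 2 -
      (inner ℝ (gradient (fun u : E n' => g (Φ.A k Φ.a) (T u)) (θ : E n')) (θ : E n')) ^ 2) := by
    have h3 : Continuous (fun θ : Sph n' =>
        gradient (fun u : E n' => g (Φ.A k Φ.a) (T u)) (θ : E n')) :=
      (continuous_gradient hgT).comp continuous_subtype_val
    exact (h3.norm.pow 2).sub ((h3.inner continuous_subtype_val).pow 2)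
  have hc2 : Continuous (fun u : Sph n' => Φ.n2 g (Φ.A k Φ.a) (Φ.A k (Φ.ι u))) :=
    (continuous_n2 Φ hg).comp (f := fun u : Sph n' => (Φ.A k Φ.a, Φ.A k (Φ.ι u)))
      (continuous_const.prodMk ((Φ.A k).continuous.comp
        (Φ.ι.continuous.comp continuous_subtype_val)))
  refine integral_mono (hc1.integrable_of_hasCompactSupport (HasCompactSupport.of_compactSpace _))
    (hc2.integrable_of_hasCompactSupport (HasCompactSupport.of_compactSpace _)) fun θ => ?_
  show _ ≤ Φ.n2 g (Φ.A k Φ.a) (T θ)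
  simp only [Frm.n2, gr2]
  have hd : DifferentiableAt ℝ (fun w' => g (Φ.A k Φ.a) w') (T θ) :=
    hgv.differentiable one_ne_zero _
  have h4 := inner_gradient_comp T hd
  have h5 := bessel (orthonormal_J Φ (v := Φ.A k Φ.a) (by rw [(Φ.A k).norm_map, Φ.ha])) T
    (gradient (fun w' => g (Φ.A k Φ.a) w') (T θ))
    (gradient (fun u : E n' => g (Φ.A k Φ.a) (T u)) (θ : E n'))
    (fun q => by
      rw [hT, ← Φ.comm, (Φ.A k).inner_map_map]
      exact Φ.hι _ q)
    (by rw [← h4, real_inner_self_eq_norm_sq])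
  rw [h4 (θ : E n')]
  linarith

/-- The even Poincaré inequality on the base. -/
lemma base (hE : clESph) (hD : clP2D) {g : V → V → ℝ}
    (hg : ContDiff ℝ 1 (fun z : V × V => g z.1 z.2))
    (hev : ∀ v w, g (-v) w = g v w) (hG : ContDiff ℝ 1 (Φ.P2 g))
    (hGc : Continuous (Φ.P2 (fun v w => Φ.n1 g v w + ∑ q, Φ.om q g v w ^ 2))) :
    2 * (n : ℝ) * VV n (fun u => Φ.P2 g (Φ.L u)) ≤
    ∫ u : Sph n, Φ.P2 (fun v w => Φ.n1 g v w + ∑ q, Φ.om q g v w ^ 2) (Φ.L u) ∂sig n := by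
  have hle := Φ.le
  have h1 : 1 ≤ n := by omega
  have := fin_sig n
  let T : E n →ₗᵢ[ℝ] V := Φ.L.toLinearIsometry
  have hT : ∀ u, T u = Φ.L u := fun u => rfl
  have hgT : ContDiff ℝ 1 (fun u : E n => Φ.P2 g (T u)) :=
    hG.comp (f := fun u : E n => T u) T.toContinuousLinearMap.contDiff
  have hE2 : ∀ v, Φ.P2 g (-v) = Φ.P2 g v := by
    intro v
    have h3 : ∀ z, Φ.prp (-v) z = Φ.prp v z := by
      intro z
      simp only [Frm.prp, map_neg, inner_neg_left, smul_neg, neg_smul, neg_neg]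
    simp only [Frm.P2, psi, h3, hev]
  have h2 := hE n (fun u : E n => Φ.P2 g (T u)) h1 hgT
    (fun θ _ => by simp only [map_neg, hE2])
  refine h2.trans ?_
  have hc1 : Continuous (fun θ : Sph n =>
      ‖gradient (fun u : E n => Φ.P2 g (T u)) (θ : E n)‖ ^ 2 -
      (inner ℝ (gradient (fun u : E n => Φ.P2 g (T u)) (θ : E n)) (θ : E n)) ^ 2) := by
    have h3 : Continuous (fun θ : Sph n =>
        gradient (fun u : E n => Φ.P2 g (T u)) (θ : E n)) :=
      (continuous_gradient hgT).comp continuous_subtype_val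
    exact (h3.norm.pow 2).sub ((h3.inner continuous_subtype_val).pow 2)
  have hc2 : Continuous (fun u : Sph n =>
      Φ.P2 (fun v w => Φ.n1 g v w + ∑ q, Φ.om q g v w ^ 2) (Φ.L u)) :=
    hGc.comp (Φ.L.continuous.comp continuous_subtype_val)
  refine integral_mono (hc1.integrable_of_hasCompactSupport (HasCompactSupport.of_compactSpace _))
    (hc2.integrable_of_hasCompactSupport (HasCompactSupport.of_compactSpace _)) fun θ => ?_
  have hd : DifferentiableAt ℝ (Φ.P2 g) (T θ) := hG.differentiable one_ne_zero _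
  have h4 := inner_gradient_comp T hd
  have hθ : ‖(θ : E n)‖ = 1 := by simp
  have h6 := hD V n e Φ g hg (Φ.L θ) (by rw [Φ.L.norm_map, hθ])
  refine le_trans ?_ h6
  have h7 : ‖gradient (fun u : E n => Φ.P2 g (T u)) (θ : E n)‖ ≤ ‖gradient (Φ.P2 g) (Φ.L θ)‖ := by
    by_cases h0 : ‖gradient (fun u : E n => Φ.P2 g (T u)) (θ : E n)‖ = 0
    · rw [h0]; exact norm_nonneg _
    · have h8 := h4 (gradient (fun u : E n => Φ.P2 g (T u)) (θ : E n))
      rw [real_inner_self_eq_norm_sq] at h8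
      have h9 := real_inner_le_norm (gradient (Φ.P2 g) (T θ))
        (T (gradient (fun u : E n => Φ.P2 g (T u)) (θ : E n)))
      rw [← h8, T.norm_map, sq] at h9
      exact le_of_mul_le_mul_right h9 (lt_of_le_of_ne (norm_nonneg _) (Ne.symm h0))
  have h10 := h4 (θ : E n)
  simp only [h10]
  have h11 : ‖gradient (fun u : E n => Φ.P2 g (T u)) (θ : E n)‖ ^ 2 ≤
      ‖gradient (Φ.P2 g) (Φ.L θ)‖ ^ 2 := by
    gcongr
  exact sub_le_sub_right h11 _

end grad

end JGee

open JGee in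
theorem prfGee (hA : clAv) (hP : clPair) (hF : clFib) (hU : clUnif) (hE : clESph) (hC : clP2C)
    (h2 : clP2F) (hD : clP2D) : clGee := by
  intro V _ _ _ n e Φ g hg hev1 hev2
  have hle := Φ.le
  have hn' : 1 ≤ n - (e + 1) := by omega
  have hn : 1 ≤ n := by omega
  have hgc : Continuous (fun z : V × V => g z.1 z.2) := hg.continuous
  have hg2c : Continuous (fun z : V × V => g z.1 z.2 ^ 2) := hgc.pow 2
  obtain ⟨-, hPg, -, hav, hVV⟩ := h2 V n e Φ g hgc
  obtain ⟨-, hPg2, -, hav2, -⟩ := h2 V n e Φ (fun v w => g v w ^ 2) hg2c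
  obtain ⟨-, hPn, hPnf, havn, -⟩ := h2 V n e Φ (Φ.n2 g) (continuous_n2 Φ hg)
  obtain ⟨-, hPF, -, havF, -⟩ := h2 V n e Φ
    (fun v w => Φ.n1 g v w + ∑ q, Φ.om q g v w ^ 2) (continuous_FF Φ hg)
  have hact : Continuous (fun k : Φ.G => Φ.A k Φ.a) :=
    Φ.cont.comp (f := fun k : Φ.G => (k, Φ.a)) (continuous_id.prodMk continuous_const)
  -- the first term
  have hI : ∀ φ : V → ℝ, Continuous φ → Integrable (fun k : Φ.G => φ (Φ.A k Φ.a)) Φ.μ := by
    intro φ hφ
    exact (hφ.comp hact).integrable_of_hasCompactSupport (HasCompactSupport.of_compactSpace _)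
  have h3 : ∀ k, 2 * ((n - (e + 1) : ℕ) : ℝ) *
      (Φ.P2 (fun v w => g v w ^ 2) (Φ.A k Φ.a) - Φ.P2 g (Φ.A k Φ.a) ^ 2) ≤
      Φ.P2 (Φ.n2 g) (Φ.A k Φ.a) := by
    intro k
    rw [← hVV k, hPnf k]
    have h4 := fib Φ hE hg hev2 k
    have h5 : 0 ≤ ((sig (n - (e + 1))).real univ)⁻¹ := by positivity
    have h6 := mul_le_mul_of_nonneg_left h4 h5
    refine le_trans (le_of_eq ?_) h6
    ring
  have h4 : 2 * ((n - (e + 1) : ℕ) : ℝ) * (Φ.av (fun v w => g v w ^ 2) -
      Φ.av (fun v _ => Φ.P2 g v ^ 2)) ≤ Φ.av (Φ.n2 g) := by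
    rw [hav2, havn]
    simp only [Frm.av]
    rw [← integral_sub (hI _ hPg2) (hI (fun v => Φ.P2 g v ^ 2) (hPg.pow 2)),
      ← integral_const_mul]
    refine integral_mono (((hI _ hPg2).sub (hI (fun v => Φ.P2 g v ^ 2) (hPg.pow 2))).const_mul _)
      (hI _ hPn) h3
  -- the second term
  have h5 : 2 * (n : ℝ) * (Φ.av (fun v _ => Φ.P2 g v ^ 2) - Φ.av g ^ 2) ≤
      Φ.av (fun v w => Φ.n1 g v w + ∑ q, Φ.om q g v w ^ 2) := by
    have h6 := base Φ hE hD hg hev1 (hC V n e Φ g hg) hPF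
    rw [hav, havF, hU V n e Φ (fun v => Φ.P2 g v ^ 2) (hPg.pow 2), hU V n e Φ (Φ.P2 g) hPg,
      hU V n e Φ _ hPF]
    have h7 : 0 ≤ ((sig n).real univ)⁻¹ := by positivity
    have h8 := mul_le_mul_of_nonneg_left h6 h7
    refine le_trans (le_of_eq ?_) h8
    unfold VV
    rw [div_eq_mul_inv]
    ring
  have hp' : (0 : ℝ) < 2 * ((n - (e + 1) : ℕ) : ℝ) := by
    have : (1 : ℝ) ≤ ((n - (e + 1) : ℕ) : ℝ) := by exact_mod_cast hn'
    linarith
  have hp : (0 : ℝ) < 2 * (n : ℝ) := by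
    have : (1 : ℝ) ≤ (n : ℝ) := by exact_mod_cast hn
    linarith
  have h9 : Φ.av (fun v w => g v w ^ 2) - Φ.av (fun v _ => Φ.P2 g v ^ 2) ≤
      Φ.av (Φ.n2 g) / (2 * ((n - (e + 1) : ℕ) : ℝ)) := by
    rw [le_div_iff₀ hp']
    linarith
  have h10 : Φ.av (fun v _ => Φ.P2 g v ^ 2) - Φ.av g ^ 2 ≤
      Φ.av (fun v w => Φ.n1 g v w + ∑ q, Φ.om q g v w ^ 2) / (2 * (n : ℝ)) := by
    rw [le_div_iff₀ hp]
    linarith
  linarith

end Pool.Agent.Work.MP_408f4b_gt.Q
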