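import Pool.Agent.Work.MP_408f4b_gt.I.KK
import Pool.Agent.Work.MP_408f4b_gt.I.Arms
import Pool.Agent.Work.MP_408f4b_gt.I.Pot
import Pool.Agent.Work.MP_408f4b_gt.I.Str
import Pool.Agent.Work.MP_408f4b_gt.I.Low
import Pool.Agent.Work.MP_408f4b_gt.I.SS
import Pool.Agent.Work.MP_408f4b_gt.Q.Stmts3

/-!
# A chord meets the cone at most once
-/

set_option autoImplicit false

namespace Pool.Agent.Work.MP_408f4b_gt.Q

open MeasureTheory Set Filter Topology

namespace JCross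

/-- The conclusion. -/
def Con (a b : ℕ) (L : ℝ) (x y : ℝ → ℝ) : Prop :=
  QQ a b x y 0 ≠ 0 ∧ QQ a b x y L ≠ 0 ∧
  ∀ s ∈ Icc 0 L, ∀ s' ∈ Icc 0 L, QQ a b x y s = 0 → QQ a b x y s' = 0 → s = s'

/-- The data of the nearest point. -/
def Dat (L : ℝ) (x y : ℝ → ℝ) (s₀ : ℝ) : Prop :=
  s₀ ∈ Ioo 0 L ∧ x s₀ * deriv x s₀ + y s₀ * deriv y s₀ = 0 ∧
    (∀ s ∈ Ico 0 s₀, x s * deriv x s + y s * deriv y s < 0) ∧
    (∀ s ∈ Ioc s₀ L, 0 < x s * deriv x s + y s * deriv y s)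

/-- The conclusion on the two arms. -/
def AC (φ₀ T : ℝ) (A B : ℝ → ℝ) : Prop :=
  A T ≠ φ₀ ∧ B T ≠ φ₀ ∧
  (∀ t ∈ Icc 0 T, ∀ t' ∈ Icc 0 T, A t = φ₀ → A t' = φ₀ → t = t') ∧
  (∀ t ∈ Icc 0 T, ∀ t' ∈ Icc 0 T, B t = φ₀ → B t' = φ₀ → t = t') ∧
  (∀ t ∈ Icc 0 T, ∀ t' ∈ Icc 0 T, A t = φ₀ → B t' = φ₀ → t = 0 ∧ t' = 0)

theorem ac_low {k b : ℝ → ℝ} {φ₀ d T : ℝ} {A ψA B ψB : ℝ → ℝ} (hP : Pot k b φ₀) (hd : 0 < d)
    (hT : 0 < T) (armA : Arm k d T A ψA) (armB : Arm k d T B ψB) (h0 : A 0 = B 0)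
    (hle : A 0 ≤ φ₀) (hψA : ψA 0 = Real.pi / 2) (hψB : ψB 0 = -(Real.pi / 2))
    (hne : ∀ t ∈ Ioc 0 T, A t ≠ B t) (h1 : ψA T = 0) (h2 : ψB T = 0) : AC φ₀ T A B := by
  have hArms : claimArms := prfArms prfPot (prfStr prfPot) (prfLow prfPot (prfSS prfPot))
  obtain ⟨r1, r2, r3, r4⟩ := hArms k b φ₀ d T A ψA B ψB hP hd hT armA armB h0 hle hψA hψB hne h1 h2
  have hB : ∀ t ∈ Icc 0 T, B t = φ₀ → t = 0 := by
    intro t ht h
    by_contra hn
    have h3 := r1 t ⟨lt_of_le_of_ne ht.1 (Ne.symm hn), ht.2⟩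
    rw [h] at h3
    exact lt_irrefl _ h3
  have hA0 : A 0 = φ₀ → ∀ t ∈ Icc 0 T, A t = φ₀ → t = 0 := by
    intro h t ht h'
    by_contra hn
    have h3 := r3 h t ⟨lt_of_le_of_ne ht.1 (Ne.symm hn), ht.2⟩
    rw [h'] at h3
    exact lt_irrefl _ h3
  refine ⟨r2.ne', ?_, ?_, ?_, ?_⟩
  · intro h
    have := hB T ⟨hT.le, le_rfl⟩ h
    exact hT.ne' this
  · intro t ht t' ht' e e'
    rcases ht.1.eq_or_lt with h | h
    · subst h
      exact (hA0 e t' ht' e').symm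
    · rcases ht'.1.eq_or_lt with h' | h'
      · subst h'
        exact hA0 e' t ht e
      · exact r4 t ⟨h, ht.2⟩ t' ⟨h', ht'.2⟩ e e'
  · intro t ht t' ht' e e'
    rw [hB t ht e, hB t' ht' e']
  · intro t ht t' ht' e e'
    have h3 := hB t' ht' e'
    subst h3
    exact ⟨hA0 (h0.trans e') t ht e, rfl⟩

theorem ac_all (hR : clRefl) {p q : ℕ} (hp : 2 ≤ p) (hq : 2 ≤ q) {d T : ℝ}
    {A ψA B ψB : ℝ → ℝ} (hd : 0 < d) (hT : 0 < T) (armA : Arm (kk p q) d T A ψA)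
    (armB : Arm (kk p q) d T B ψB) (h0 : A 0 = B 0) (hψA : ψA 0 = Real.pi / 2)
    (hψB : ψB 0 = -(Real.pi / 2)) (hne : ∀ t ∈ Ioc 0 T, A t ≠ B t) (h1 : ψA T = 0)
    (h2 : ψB T = 0) : AC (ang p q) T A B := by
  rcases le_total (A 0) (ang p q) with h | h
  · exact ac_low (prfKK p q hp hq).1 hd hT armA armB h0 h hψA hψB hne h1 h2
  · have ea := hR.2.1 p q hp hq
    have rA := hR.1 p q d T B ψB armB
    have rB := hR.1 p q d T A ψA armA
    have key := ac_low (prfKK q p hq hp).1 hd hT rA rB (by simp only [h0])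
      (by rw [← h0]; linarith) (by simp only [hψB, neg_neg]) (by simp only [hψA])
      (fun t ht hh => hne t ht (by linarith)) (by simp only [h2, neg_zero])
      (by simp only [h1, neg_zero])
    obtain ⟨k1, k2, k3, k4, k5⟩ := key
    refine ⟨fun e => k2 (by linarith), fun e => k1 (by linarith), ?_, ?_, ?_⟩
    · intro t ht t' ht' e e'
      exact k4 t ht t' ht' (by linarith) (by linarith)
    · intro t ht t' ht' e e'
      exact k3 t ht t' ht' (by linarith) (by linarith)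
    · intro t ht t' ht' e e'
      exact (k5 t' ht' t ht (by linarith) (by linarith)).symm

theorem rad_sq {X Y : ℝ → ℝ} (s : ℝ) : rad X Y s ^ 2 = X s ^ 2 + Y s ^ 2 := by
  unfold rad
  rw [Real.sq_sqrt (by positivity)]

theorem rad_pos {X Y : ℝ → ℝ} {s : ℝ} (hx : 0 < X s) : 0 < rad X Y s := by
  unfold rad
  exact Real.sqrt_pos.2 (by positivity)

/-- One half of the chord. -/
theorem half (hArm : clArm) {a b : ℕ} {ℓ ε : ℝ} {X Y : ℝ → ℝ} (ha : 1 ≤ a) (hb : 1 ≤ b)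
    (hℓ : 0 < ℓ) (hε : ε = 1 ∨ ε = -1) (hC : Crv a b 0 ℓ X Y)
    (h0 : X 0 * deriv X 0 + Y 0 * deriv Y 0 = 0)
    (hc : ∀ s ∈ Ioc 0 ℓ, 0 < X s * deriv X s + Y s * deriv Y s)
    (hm : 0 < ε * (X 0 * deriv Y 0 - Y 0 * deriv X 0))
    (hf : X ℓ * deriv Y ℓ - Y ℓ * deriv X ℓ = 0) (hr : rad X Y ℓ = 1) :
    ∃ φ ψ g : ℝ → ℝ, StrictMonoOn g (Icc 0 ℓ) ∧ ContinuousOn g (Icc 0 ℓ) ∧ g 0 = 0 ∧
      g ℓ = 2 * Real.log (1 / rad X Y 0) ∧ 0 < 2 * Real.log (1 / rad X Y 0) ∧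
      Arm (kk (b + 1) (a + 1)) ((a : ℝ) + b + 1 / 2) (2 * Real.log (1 / rad X Y 0)) φ ψ ∧
      ψ 0 = ε * (Real.pi / 2) ∧ ψ (2 * Real.log (1 / rad X Y 0)) = 0 ∧
      (∀ s ∈ Icc 0 ℓ, φ (g s) = 2 * Real.arctan (Y s / X s)) ∧
      ∀ s, g s = 2 * Real.log (rad X Y s / rad X Y 0) := by
  obtain ⟨φ, ψ, hT, hA, hψ0, hs⟩ := hArm a b ℓ ε X Y ha hb hℓ hε hC h0 hc hm
  rw [hr] at hT hA hs
  obtain ⟨hX, hY, hCur⟩ := hC
  have hXc : Continuous X := hX.continuous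
  have hYc : Continuous Y := hY.continuous
  have hXp : ∀ s ∈ Icc 0 ℓ, 0 < X s := fun s hs' => lt_trans (hCur s hs').1 (hCur s hs').2.1
  have hpos : ∀ s ∈ Icc 0 ℓ, 0 < rad X Y s := fun s hs' => rad_pos (hXp s hs')
  have hr0 : 0 < rad X Y 0 := hpos 0 ⟨le_refl _, hℓ.le⟩
  have hradc : Continuous (rad X Y) := by
    unfold rad
    exact Real.continuous_sqrt.comp ((hXc.pow 2).add (hYc.pow 2))
  have hmono : StrictMonoOn (fun s => X s ^ 2 + Y s ^ 2) (Icc 0 ℓ) := by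
    refine strictMonoOn_of_deriv_pos (convex_Icc 0 ℓ)
      ((hXc.pow 2).add (hYc.pow 2)).continuousOn fun s hs' => ?_
    rw [interior_Icc] at hs'
    have hdX : HasDerivAt X (deriv X s) s :=
      (hX.differentiable (by norm_num) s).hasDerivAt
    have hdY : HasDerivAt Y (deriv Y s) s :=
      (hY.differentiable (by norm_num) s).hasDerivAt
    have hd : HasDerivAt (fun s => X s ^ 2 + Y s ^ 2) (2 * X s * deriv X s + 2 * Y s * deriv Y s)
        s := by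
      refine ((hdX.fun_pow 2).fun_add (hdY.fun_pow 2)).congr_deriv ?_
      norm_num
    rw [hd.deriv]
    have := hc s ⟨hs'.1, hs'.2.le⟩
    linarith
  have hrmono : StrictMonoOn (rad X Y) (Icc 0 ℓ) := by
    intro a ha b hb hab
    have h1 := hmono ha hb hab
    unfold rad
    exact Real.sqrt_lt_sqrt (by positivity) h1
  refine ⟨φ, ψ, fun s => 2 * Real.log (rad X Y s / rad X Y 0), ?_, ?_, ?_, ?_, by linarith, hA,
    hψ0, ?_, ?_, fun s => rfl⟩
  · intro a ha b hb hab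
    have h1 := hrmono ha hb hab
    have h2 := Real.log_lt_log (div_pos (hpos a ha) hr0) (div_lt_div_of_pos_right h1 hr0)
    show 2 * Real.log (rad X Y a / rad X Y 0) < 2 * Real.log (rad X Y b / rad X Y 0)
    linarith
  · refine continuousOn_const.mul
      (ContinuousOn.log (hradc.continuousOn.div_const _) fun s hs' => ?_)
    exact (div_pos (hpos s hs') hr0).ne'
  · show 2 * Real.log (rad X Y 0 / rad X Y 0) = 0
    rw [div_self hr0.ne', Real.log_one, mul_zero]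
  · show 2 * Real.log (rad X Y ℓ / rad X Y 0) = _
    rw [hr]
  · have h1 := (hs ℓ ⟨hℓ.le, le_refl _⟩).2.2
    rw [hr, hf, one_mul] at h1
    have h2 := hA.rψ (2 * Real.log (1 / rad X Y 0)) ⟨by linarith, le_refl _⟩
    refine (Real.sin_eq_zero_iff_of_lt_of_lt ?_ ?_).1 h1
    · linarith [h2.1, Real.pi_pos]
    · linarith [h2.2, Real.pi_pos]
  · intro s hs'
    exact (hs s hs').2.1

/-- Two points with the same radius and the same angle agree. -/
theorem pt_eq {x y x' y' : ℝ} (hx : 0 < x) (hx' : 0 < x')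
    (h1 : Real.arctan (y / x) = Real.arctan (y' / x')) (h2 : x ^ 2 + y ^ 2 = x' ^ 2 + y' ^ 2) :
    x = x' ∧ y = y' := by
  have h3 := Real.arctan_injective h1
  obtain ⟨k, hk⟩ : ∃ k : ℝ, k = y / x := ⟨_, rfl⟩
  have e1 : y = k * x := by rw [hk]; field_simp
  have e2 : y' = k * x' := by rw [hk, h3]; field_simp
  rw [e1, e2] at h2
  have h4 : (x ^ 2 - x' ^ 2) * (1 + k ^ 2) = 0 := by linear_combination h2
  have h5 : x ^ 2 - x' ^ 2 = 0 := by
    rcases mul_eq_zero.1 h4 with h | h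
    · exact h
    · nlinarith [sq_nonneg k]
  have h6 : x = x' := by
    have : (x - x') * (x + x') = 0 := by linear_combination h5
    rcases mul_eq_zero.1 this with h | h
    · linarith
    · linarith
  exact ⟨h6, by rw [e1, e2, h6]⟩

theorem rad_eq_of_log {X Y X' Y' : ℝ → ℝ} {s s' r : ℝ} (hr : 0 < r) (h1 : 0 < rad X Y s)
    (h2 : 0 < rad X' Y' s') (h : 2 * Real.log (rad X Y s / r) = 2 * Real.log (rad X' Y' s' / r)) :
    X s ^ 2 + Y s ^ 2 = X' s' ^ 2 + Y' s' ^ 2 := by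
  have h' : Real.log (rad X Y s / r) = Real.log (rad X' Y' s' / r) := by linarith
  have h3 : rad X Y s / r = rad X' Y' s' / r :=
    Real.log_injOn_pos (div_pos h1 hr) (div_pos h2 hr) h'
  have h4 : rad X Y s = rad X' Y' s' := by
    rw [div_left_inj' hr.ne'] at h3
    exact h3
  rw [← rad_sq, ← rad_sq, h4]

theorem pos_case (hArm : clArm) (hR : clRefl) (hG : clAng) {a b : ℕ} {L : ℝ} {x y : ℝ → ℝ}
    {s₀ : ℝ} (ha : 1 ≤ a) (hb : 1 ≤ b) (hch : Chd a b L x y) (hDat : Dat L x y s₀)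
    (hm : 0 < x s₀ * deriv y s₀ - y s₀ * deriv x s₀) : Con a b L x y := by
  obtain ⟨hs₀, hc0, hneg, hpos⟩ := hDat
  obtain ⟨hx2, hy2, hcur⟩ := hch.curve
  have hs₀0 := hs₀.1
  have hs₀L := hs₀.2
  have hL := hch.L_pos
  have hxp : ∀ s ∈ Icc 0 L, 0 < x s := fun s hs => lt_trans (hcur s hs).1 (hcur s hs).2.1
  have dA : ∀ (f : ℝ → ℝ) (s : ℝ), deriv (fun s => f (s₀ + s)) s = deriv f (s₀ + s) := by
    intro f s
    exact deriv_comp_const_add s₀ s (f := f)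
  have dB : ∀ (f : ℝ → ℝ) (s : ℝ), deriv (fun s => f (s₀ - s)) s = -deriv f (s₀ - s) := by
    intro f s
    exact deriv_comp_const_sub s₀ s (f := f)
  have dA2 : ∀ (f : ℝ → ℝ) (s : ℝ), deriv (deriv (fun s => f (s₀ + s))) s =
      deriv (deriv f) (s₀ + s) := by
    intro f s
    have : deriv (fun s => f (s₀ + s)) = fun s => deriv f (s₀ + s) := funext (dA f)
    rw [this, dA]
  have dB2 : ∀ (f : ℝ → ℝ) (s : ℝ), deriv (deriv (fun s => f (s₀ - s))) s =
      deriv (deriv f) (s₀ - s) := by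
    intro f s
    have : deriv (fun s => f (s₀ - s)) = fun s => -deriv f (s₀ - s) := funext (dB f)
    rw [this]
    have h2 := dB (fun s => deriv f s) s
    rw [deriv.fun_neg, h2, neg_neg]
  have hrL : rad x y L = 1 := by
    unfold rad
    rw [hch.final.1, Real.sqrt_one]
  have hr0 : rad x y 0 = 1 := by
    unfold rad
    rw [hch.initial.1, Real.sqrt_one]
  obtain ⟨φA, ψA, gA, mA, cA, gA0, gAT, hT, armA, ψA0, ψAT, vA, gAe⟩ := half hArm
    (a := a) (b := b) (ℓ := L - s₀) (ε := 1)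
    (X := fun s => x (s₀ + s)) (Y := fun s => y (s₀ + s)) ha hb (by linarith) (Or.inl rfl)
    (by
      refine ⟨hx2.comp (contDiff_const.add contDiff_id), hy2.comp (contDiff_const.add contDiff_id),
        fun s hs => ?_⟩
      obtain ⟨h1, h2, h3, h4⟩ := hcur (s₀ + s) ⟨by linarith [hs.1], by linarith [hs.2]⟩
      unfold kq
      rw [dA, dA, dA2, dA2]
      exact ⟨h1, h2, h3, h4⟩)
    (by rw [dA, dA, add_zero]; exact hc0)
    (fun s hs => by
      rw [dA, dA]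
      exact hpos _ ⟨by linarith [hs.1], by linarith [hs.2]⟩)
    (by rw [dA, dA, add_zero, one_mul]; exact hm)
    (by
      rw [dA, dA, add_sub_cancel, hch.final.2.1, hch.final.2.2]
      ring)
    (by
      have : rad (fun s => x (s₀ + s)) (fun s => y (s₀ + s)) (L - s₀) = rad x y (s₀ + (L - s₀)) :=
        rfl
      rw [this, add_sub_cancel, hrL])
  obtain ⟨φB, ψB, gB, mB, cB, gB0, gBT, hT', armB, ψB0, ψBT, vB, gBe⟩ := half hArm
    (a := a) (b := b) (ℓ := s₀) (ε := -1)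
    (X := fun s => x (s₀ - s)) (Y := fun s => y (s₀ - s)) ha hb hs₀0 (Or.inr rfl)
    (by
      refine ⟨hx2.comp (contDiff_const.sub contDiff_id), hy2.comp (contDiff_const.sub contDiff_id),
        fun s hs => ?_⟩
      obtain ⟨h1, h2, h3, h4⟩ := hcur (s₀ - s) ⟨by linarith [hs.2], by linarith [hs.1]⟩
      unfold kq at h4 ⊢
      rw [dB, dB, dB2, dB2]
      refine ⟨h1, h2, by rw [neg_sq, neg_sq]; exact h3, ?_⟩
      have e1 : -(deriv x (s₀ - s)) * deriv (deriv y) (s₀ - s) -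
          -(deriv y (s₀ - s)) * deriv (deriv x) (s₀ - s) =
          -(deriv x (s₀ - s) * deriv (deriv y) (s₀ - s) -
          deriv y (s₀ - s) * deriv (deriv x) (s₀ - s)) := by ring
      rw [e1, h4]
      ring)
    (by
      rw [dB, dB, sub_zero]
      linarith)
    (fun s hs => by
      rw [dB, dB]
      have := hneg (s₀ - s) ⟨by linarith [hs.2], by linarith [hs.1]⟩
      linarith)
    (by
      rw [dB, dB, sub_zero]
      linarith)
    (by
      rw [dB, dB, sub_self, hch.initial.2.1, hch.initial.2.2]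
      ring)
    (by
      have : rad (fun s => x (s₀ - s)) (fun s => y (s₀ - s)) s₀ = rad x y (s₀ - s₀) := rfl
      rw [this, sub_self, hr0])
  have eA0 : rad (fun s => x (s₀ + s)) (fun s => y (s₀ + s)) 0 = rad x y s₀ := by
    have : rad (fun s => x (s₀ + s)) (fun s => y (s₀ + s)) 0 = rad x y (s₀ + 0) := rfl
    rw [this, add_zero]
  have eB0 : rad (fun s => x (s₀ - s)) (fun s => y (s₀ - s)) 0 = rad x y s₀ := by
    have : rad (fun s => x (s₀ - s)) (fun s => y (s₀ - s)) 0 = rad x y (s₀ - 0) := rfl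
    rw [this, sub_zero]
  rw [eA0] at gAT hT armA ψAT gAe
  rw [eB0] at gBT hT' armB ψBT gBe
  obtain ⟨T, hTe⟩ : ∃ T : ℝ, T = 2 * Real.log (1 / rad x y s₀) := ⟨_, rfl⟩
  rw [← hTe] at gAT hT armA ψAT gBT hT' armB ψBT
  rw [one_mul] at ψA0
  rw [neg_one_mul] at ψB0
  have hrs : 0 < rad x y s₀ := rad_pos (hxp s₀ ⟨hs₀0.le, hs₀L.le⟩)
  have hd : (0 : ℝ) < (a : ℝ) + b + 1 / 2 := by positivity
  have vA' : ∀ s ∈ Icc s₀ L, φA (gA (s - s₀)) = 2 * Real.arctan (y s / x s) := by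
    intro s hs
    have := vA (s - s₀) ⟨by linarith [hs.1], by linarith [hs.2]⟩
    simp only [add_sub_cancel] at this
    exact this
  have vB' : ∀ s ∈ Icc 0 s₀, φB (gB (s₀ - s)) = 2 * Real.arctan (y s / x s) := by
    intro s hs
    have := vB (s₀ - s) ⟨by linarith [hs.2], by linarith [hs.1]⟩
    simp only [sub_sub_cancel] at this
    exact this
  have hφ0 : φA 0 = 2 * Real.arctan (y s₀ / x s₀) := by
    have := vA' s₀ ⟨le_refl _, hs₀L.le⟩
    rwa [sub_self, gA0] at this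
  have hφ0' : φB 0 = 2 * Real.arctan (y s₀ / x s₀) := by
    have := vB' s₀ ⟨hs₀0.le, le_refl _⟩
    rwa [sub_self, gB0] at this
  have hne : ∀ t ∈ Ioc 0 T, φA t ≠ φB t := by
    intro t ht heq
    obtain ⟨s, hs, hst⟩ : t ∈ gA '' Icc 0 (L - s₀) := by
      have := intermediate_value_Icc (by linarith : (0 : ℝ) ≤ L - s₀) cA
      rw [gA0, gAT] at this
      exact this ⟨ht.1.le, ht.2⟩
    obtain ⟨s', hs', hst'⟩ : t ∈ gB '' Icc 0 s₀ := by
      have := intermediate_value_Icc hs₀0.le cB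
      rw [gB0, gBT] at this
      exact this ⟨ht.1.le, ht.2⟩
    have h1 := vA s hs
    have h2 := vB s' hs'
    rw [hst] at h1
    rw [hst', ← heq, h1] at h2
    have h2' : Real.arctan (y (s₀ + s) / x (s₀ + s)) = Real.arctan (y (s₀ - s') / x (s₀ - s')) := by
      linarith
    have c1 := hxp (s₀ + s) ⟨by linarith [hs.1], by linarith [hs.2]⟩
    have c2 := hxp (s₀ - s') ⟨by linarith [hs'.2], by linarith [hs'.1]⟩
    have h3 : 2 * Real.log (rad (fun s => x (s₀ + s)) (fun s => y (s₀ + s)) s / rad x y s₀) =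
        2 * Real.log (rad (fun s => x (s₀ - s)) (fun s => y (s₀ - s)) s' / rad x y s₀) := by
      rw [← gAe, ← gBe, hst, hst']
    have h4 := rad_eq_of_log hrs (rad_pos (X := fun s => x (s₀ + s)) c1)
      (rad_pos (X := fun s => x (s₀ - s)) c2) h3
    obtain ⟨h5, h6⟩ := pt_eq c1 c2 h2' h4
    have h7 := hch.injOn (x₁ := s₀ + s) ⟨by linarith [hs.1], by linarith [hs.2]⟩
      (x₂ := s₀ - s') ⟨by linarith [hs'.2], by linarith [hs'.1]⟩ (Prod.ext h5 h6)
    have h8 : s = 0 := by linarith [hs.1, hs'.1]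
    rw [h8, gA0] at hst
    linarith [ht.1]
  obtain ⟨r1, r2, r3, r4, r5⟩ := ac_all hR (p := b + 1) (q := a + 1) (by omega) (by omega) hd hT
    armA armB (hφ0.trans hφ0'.symm) ψA0 ψB0 hne ψAT ψBT
  have zero_iff : ∀ s ∈ Icc 0 L, (QQ a b x y s = 0 ↔
      2 * Real.arctan (y s / x s) = ang (b + 1) (a + 1)) := by
    intro s hs
    exact (hG a b x y s ha hb (hcur s hs).1 (hcur s hs).2.1).2.1
  have gBmem : ∀ s ∈ Icc 0 s₀, gB (s₀ - s) ∈ Icc 0 T := by
    intro s hs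
    constructor
    · rw [← gB0]
      exact mB.monotoneOn ⟨le_refl _, hs₀0.le⟩ ⟨by linarith [hs.2], by linarith [hs.1]⟩
        (by linarith [hs.2])
    · rw [← gBT]
      exact mB.monotoneOn ⟨by linarith [hs.2], by linarith [hs.1]⟩ ⟨hs₀0.le, le_refl _⟩
        (by linarith [hs.1])
  have gAmem : ∀ s ∈ Icc s₀ L, gA (s - s₀) ∈ Icc 0 T := by
    intro s hs
    constructor
    · rw [← gA0]
      exact mA.monotoneOn ⟨le_refl _, by linarith⟩ ⟨by linarith [hs.1], by linarith [hs.2]⟩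
        (by linarith [hs.1])
    · rw [← gAT]
      exact mA.monotoneOn ⟨by linarith [hs.1], by linarith [hs.2]⟩ ⟨by linarith, le_refl _⟩
        (by linarith [hs.2])
  -- the case of two points on different sides
  have mixed : ∀ s ∈ Icc 0 s₀, ∀ s' ∈ Icc s₀ L, QQ a b x y s = 0 → QQ a b x y s' = 0 →
      s = s' := by
    intro s hs s' hs' e e'
    rw [zero_iff s ⟨hs.1, by linarith [hs.2]⟩, ← vB' s hs] at e
    rw [zero_iff s' ⟨by linarith [hs'.1], hs'.2⟩, ← vA' s' hs'] at e'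
    obtain ⟨h1, h2⟩ := r5 _ (gAmem s' hs') _ (gBmem s hs) e' e
    rw [← gA0] at h1
    rw [← gB0] at h2
    have h3 := mA.injOn (x₁ := s' - s₀) ⟨by linarith [hs'.1], by linarith [hs'.2]⟩
      (x₂ := 0) ⟨le_rfl, by linarith⟩ h1
    have h4 := mB.injOn (x₁ := s₀ - s) ⟨by linarith [hs.2], by linarith [hs.1]⟩
      (x₂ := 0) ⟨le_rfl, hs₀0.le⟩ h2
    linarith
  refine ⟨?_, ?_, ?_⟩
  · intro h
    rw [zero_iff 0 ⟨le_rfl, hL.le⟩, ← vB' 0 ⟨le_rfl, hs₀0.le⟩, sub_zero, gBT] at h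
    exact r2 h
  · intro h
    rw [zero_iff L ⟨hL.le, le_rfl⟩, ← vA' L ⟨hs₀L.le, le_rfl⟩, gAT] at h
    exact r1 h
  · intro s hs s' hs' e e'
    rcases le_total s s₀ with h | h
    · rcases le_total s' s₀ with h' | h'
      · rw [zero_iff s hs, ← vB' s ⟨hs.1, h⟩] at e
        rw [zero_iff s' hs', ← vB' s' ⟨hs'.1, h'⟩] at e'
        have h1 := r4 _ (gBmem s ⟨hs.1, h⟩) _ (gBmem s' ⟨hs'.1, h'⟩) e e'
        have h2 := mB.injOn (x₁ := s₀ - s) ⟨by linarith, by linarith [hs.1]⟩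
          (x₂ := s₀ - s') ⟨by linarith, by linarith [hs'.1]⟩ h1
        linarith
      · exact mixed s ⟨hs.1, h⟩ s' ⟨h', hs'.2⟩ e e'
    · rcases le_total s' s₀ with h' | h'
      · exact (mixed s' ⟨hs'.1, h'⟩ s ⟨h, hs.2⟩ e' e).symm
      · rw [zero_iff s hs, ← vA' s ⟨h, hs.2⟩] at e
        rw [zero_iff s' hs', ← vA' s' ⟨h', hs'.2⟩] at e'
        have h1 := r3 _ (gAmem s ⟨h, hs.2⟩) _ (gAmem s' ⟨h', hs'.2⟩) e e'
        have h2 := mA.injOn (x₁ := s - s₀) ⟨by linarith, by linarith [hs.2]⟩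
          (x₂ := s' - s₀) ⟨by linarith, by linarith [hs'.2]⟩ h1
        linarith

theorem dat_rev {L : ℝ} {x y : ℝ → ℝ} {s₀ : ℝ} (h : Dat L x y s₀) :
    Dat L (fun s => x (L - s)) (fun s => y (L - s)) (L - s₀) := by
  obtain ⟨h1, h2, h3, h4⟩ := h
  refine ⟨⟨by linarith [h1.2], by linarith [h1.1]⟩, ?_, ?_, ?_⟩
  · simp only [deriv_comp_const_sub, sub_sub_cancel]
    linarith
  · intro s hs
    have := h4 (L - s) ⟨by linarith [hs.2], by linarith [hs.1]⟩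
    simp only [deriv_comp_const_sub]
    linarith
  · intro s hs
    have := h3 (L - s) ⟨by linarith [hs.2], by linarith [hs.1]⟩
    simp only [deriv_comp_const_sub]
    linarith

theorem QQ_rev (a b : ℕ) (L : ℝ) (x y : ℝ → ℝ) (s : ℝ) :
    QQ a b (fun s => x (L - s)) (fun s => y (L - s)) s = QQ a b x y (L - s) := rfl

theorem con_of_rev {a b : ℕ} {L : ℝ} {x y : ℝ → ℝ}
    (h : Con a b L (fun s => x (L - s)) (fun s => y (L - s))) : Con a b L x y := by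
  obtain ⟨h1, h2, h3⟩ := h
  simp only [QQ_rev, sub_zero, sub_self] at h1 h2 h3
  refine ⟨h2, h1, ?_⟩
  intro s hs s' hs' e e'
  have := h3 (L - s) ⟨by linarith [hs.2], by linarith [hs.1]⟩ (L - s')
    ⟨by linarith [hs'.2], by linarith [hs'.1]⟩ (by rwa [sub_sub_cancel]) (by rwa [sub_sub_cancel])
  linarith

end JCross

theorem prfCross (hA : clArm) (hN : clNear) (hR : clRefl) (hG : clAng) : clCross := by
  intro a b L x y ha hb hC
  obtain ⟨s₀, hs₀, h1, h2, h3, h4⟩ := hN a b L x y ha hb hC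
  have hD : JCross.Dat L x y s₀ := ⟨hs₀, h1, h2, h3⟩
  have hc := hC.curve.2.2 s₀ ⟨hs₀.1.le, hs₀.2.le⟩
  have hx : 0 < x s₀ := lt_trans hc.1 hc.2.1
  have hm : x s₀ * deriv y s₀ - y s₀ * deriv x s₀ ≠ 0 := by
    intro h
    rw [h] at h4
    have : 0 < x s₀ ^ 2 + y s₀ ^ 2 := by positivity
    norm_num at h4
    linarith
  rcases lt_or_gt_of_ne hm with hm | hm
  · apply JCross.con_of_rev
    refine JCross.pos_case hA hR hG ha hb (hR.2.2 a b L x y hC) (JCross.dat_rev hD) ?_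
    simp only [deriv_comp_const_sub, sub_sub_cancel]
    linarith
  · exact JCross.pos_case hA hR hG ha hb hC hD hm

end Pool.Agent.Work.MP_408f4b_gt.Q
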