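import Pool.Agent.Work.MP_408f4b_gt.Q.Stmts3

/-! Item Sig of block Q for MP_408f4b_gt: invariance of the surface measure. -/

namespace Pool.Agent.Work.MP_408f4b_gt.Q

open MeasureTheory Set Metric
open scoped Pointwise

namespace JSig

/-- The homeomorphism of the unit sphere induced by a linear isometry equivalence. -/
noncomputable def sphHomeo {n : ℕ} (e : E n ≃ₗᵢ[ℝ] E n) : Sph n ≃ₜ Sph n where
  toFun u := ⟨e u, by
    have := u.2
    rw [mem_sphere_zero_iff_norm] at this ⊢
    rw [e.norm_map, this]⟩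
  invFun u := ⟨e.symm u, by
    have := u.2
    rw [mem_sphere_zero_iff_norm] at this ⊢
    rw [e.symm.norm_map, this]⟩
  left_inv u := by
    apply Subtype.ext
    simp
  right_inv u := by
    apply Subtype.ext
    simp
  continuous_toFun := by
    refine Continuous.subtype_mk ?_ _
    exact e.continuous.comp continuous_subtype_val
  continuous_invFun := by
    refine Continuous.subtype_mk ?_ _
    exact e.symm.continuous.comp continuous_subtype_val

theorem sphHomeo_coe {n : ℕ} (e : E n ≃ₗᵢ[ℝ] E n) (u : Sph n) :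
    ((sphHomeo e u : Sph n) : E n) = e u := rfl

theorem mp {n : ℕ} (e : E n ≃ₗᵢ[ℝ] E n) :
    MeasurePreserving (sphHomeo e) (sig n) (sig n) := by
  refine ⟨(sphHomeo e).continuous.measurable, ?_⟩
  ext s hs
  rw [Measure.map_apply (sphHomeo e).continuous.measurable hs]
  have hs' : MeasurableSet ((sphHomeo e) ⁻¹' s) := (sphHomeo e).continuous.measurable hs
  unfold sig
  rw [Measure.toSphere_apply' _ hs, Measure.toSphere_apply' _ hs']
  congr 1
  have hset : (Ioo (0 : ℝ) 1 • ((↑) '' ((sphHomeo e) ⁻¹' s) : Set (E n)))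
      = e ⁻¹' (Ioo (0 : ℝ) 1 • ((↑) '' s : Set (E n))) := by
    ext x
    simp only [Set.mem_smul, Set.mem_image, Set.mem_preimage]
    constructor
    · rintro ⟨r, hr, y, ⟨u, hu, rfl⟩, rfl⟩
      exact ⟨r, hr, e u, ⟨sphHomeo e u, hu, rfl⟩, by rw [map_smul]⟩
    · rintro ⟨r, hr, y, ⟨u, hu, rfl⟩, hx⟩
      refine ⟨r, hr, e.symm u, ⟨(sphHomeo e).symm u, ?_, rfl⟩, ?_⟩
      · rw [Homeomorph.apply_symm_apply]
        exact hu
      · apply e.injective
        rw [map_smul, e.apply_symm_apply]
        exact hx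
  rw [hset]
  exact (e.measurePreserving.measure_preimage_equiv (f := e.toMeasurableEquiv) _)

end JSig

theorem prfSig : clSig := by
  intro n T F _hF
  let e : E n ≃ₗᵢ[ℝ] E n := T.toLinearIsometryEquiv rfl
  have h := (JSig.mp e).integral_comp (JSig.sphHomeo e).measurableEmbedding
    (fun u : Sph n => F u)
  have he : ∀ u : Sph n, T (u : E n) = ((JSig.sphHomeo e u : Sph n) : E n) := fun u => rfl
  simp only [he]
  exact h

end Pool.Agent.Work.MP_408f4b_gt.Q
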