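import Pool.Agent.Work.MP_408f4b_gt.Q.Stmts3

set_option autoImplicit false

/-! Item Unif of block Q for MP_408f4b_gt: the first vector of a random pair is uniformly
distributed on the sphere. -/

namespace Pool.Agent.Work.MP_408f4b_gt.Q

open MeasureTheory Set Filter Topology

namespace JUnif

theorem mass_pos (n : ℕ) (hn : 1 ≤ n) : 0 < (sig n).real univ := by
  have : Nonempty (Fin n) := ⟨⟨0, hn⟩⟩
  have hfin : IsFiniteMeasure (sig n) := by unfold sig; infer_instance
  rw [measureReal_def, ENNReal.toReal_pos_iff]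
  refine ⟨?_, measure_lt_top _ _⟩
  unfold sig
  rw [Measure.toSphere_apply_univ, finrank_euclideanSpace_fin]
  refine ENNReal.mul_pos ?_ (Metric.measure_ball_pos _ _ one_pos).ne'
  simp only [ne_eq, Nat.cast_eq_zero]
  omega

end JUnif

open JUnif in
theorem prfUnif (hA : clAv) (hP : clPair) (hS : clSig) : clUnif := by
  intro V _ _ _ n e Φ φ hφ
  have hn : 1 ≤ n := by
    have := Φ.le
    omega
  have hm := mass_pos n hn
  have hfin : IsFiniteMeasure (sig n) := by unfold sig; infer_instance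
  have key : ∀ u : Sph n, ∫ g, φ (Φ.A g (Φ.L u)) ∂Φ.μ = Φ.av (fun v _ => φ v) := by
    intro u
    obtain ⟨w, hw⟩ := (hP V n e Φ).2.2.2.2.1 (Φ.L u) (by rw [Φ.L.norm_map]; simp)
    exact ((hA V n e Φ).1 (fun v _ => φ v) (hφ.comp continuous_fst)).2 _ _ hw
  have h1 : ∫ u : Sph n, (∫ g, φ (Φ.A g (Φ.L u)) ∂Φ.μ) ∂sig n =
      (sig n).real univ * Φ.av (fun v _ => φ v) := by
    simp_rw [key]
    rw [integral_const, smul_eq_mul]
  have hc : Continuous (Function.uncurry fun (u : Sph n) (g : Φ.G) => φ (Φ.A g (Φ.L u))) := by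
    have h4 : Continuous fun z : Sph n × Φ.G => ((z.2, Φ.L z.1) : Φ.G × V) :=
      continuous_snd.prodMk (Φ.L.continuous.comp (continuous_subtype_val.comp continuous_fst))
    exact hφ.comp (Φ.cont.comp h4)
  have h2 : ∫ u : Sph n, (∫ g, φ (Φ.A g (Φ.L u)) ∂Φ.μ) ∂sig n =
      ∫ g, (∫ u : Sph n, φ (Φ.A g (Φ.L u)) ∂sig n) ∂Φ.μ :=
    integral_integral_swap
      (hc.integrable_of_hasCompactSupport (HasCompactSupport.of_compactSpace _))
  have h3 : ∀ g : Φ.G, ∫ u : Sph n, φ (Φ.A g (Φ.L u)) ∂sig n = ∫ u : Sph n, φ (Φ.L u) ∂sig n := by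
    intro g
    have h4 := hS n (Φ.L.symm.toLinearIsometry.comp ((Φ.A g).comp Φ.L.toLinearIsometry))
      (fun x => φ (Φ.L x)) (hφ.comp Φ.L.continuous)
    simpa using h4
  simp_rw [h3] at h2
  rw [h1, integral_const, probReal_univ (μ := Φ.μ), one_smul] at h2
  rw [← h2, ← mul_assoc, inv_mul_cancel₀ hm.ne', one_mul]

end Pool.Agent.Work.MP_408f4b_gt.Q
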