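import Pool.Agent.Work.MP_408f4b_gt.Q.Stmts3

set_option autoImplicit false

/-!
# Item Frm: the frames of `F^k`
-/

namespace Pool.Agent.Work.MP_408f4b_gt.Q

open MeasureTheory Set Filter Topology

namespace JFrm

section

variable {F : Type} [NormedRing F] [InnerProductSpace ℝ F] [StarRing F] [IsDA F] {k : ℕ}

theorem inner_vec (v w : Vec F k) : inner ℝ v w = ∑ i, inner ℝ (v i) (w i) :=
  PiLp.inner_apply v w

theorem rmul_add (u u' : F) (v : Vec F k) : rmul (u + u') v = rmul u v + rmul u' v := by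
  ext i
  simp [rmul, mul_add]

theorem rmul_smul (c : ℝ) (u : F) (v : Vec F k) : rmul (c • u) v = c • rmul u v := by
  ext i
  simp [rmul, IsDA.mul_smul']

/-- `u ↦ rmul u v` as a linear map -/
def rl (v : Vec F k) : F →ₗ[ℝ] Vec F k where
  toFun u := rmul u v
  map_add' u u' := rmul_add u u' v
  map_smul' c u := rmul_smul c u v

theorem all_of_basis {e : ℕ} (u : OrthonormalBasis (Fin (e + 1)) ℝ F) (v w : Vec F k)
    (h : ∀ q, inner ℝ v (rmul (u q) w) = 0) (x : F) : inner ℝ v (rmul x w) = 0 := by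
  have h1 : x = ∑ q, (u.repr x q) • u q := (u.sum_repr x).symm
  have h2 : rmul x w = ∑ q, (u.repr x q) • rmul (u q) w := by
    have : rl w x = ∑ q, (u.repr x q) • rl w (u q) := by
      conv_lhs => rw [h1]
      simp only [map_sum, map_smul]
    exact this
  rw [h2, inner_sum]
  apply Finset.sum_eq_zero
  intro q _
  rw [inner_smul_right, h q, mul_zero]

theorem rmul_one (v : Vec F k) : rmul (1 : F) v = v := by
  ext i
  simp [rmul]

theorem norm_bv {j : ℕ} (hj : j < k) : ‖bv F k j‖ = 1 := by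
  have h : ‖bv F k j‖ ^ 2 = 1 := by
    rw [PiLp.norm_sq_eq_of_L2]
    rw [Finset.sum_eq_single (⟨j, hj⟩ : Fin k)]
    · simp [bv, IsDA.norm_one']
    · intro i _ hi
      have : (i : ℕ) ≠ j := fun h => hi (Fin.ext h)
      simp [bv, this]
    · intro h
      exact absurd (Finset.mem_univ _) h
  nlinarith [norm_nonneg (bv F k j)]

theorem bv_orth (x : F) : inner ℝ (bv F k 0) (rmul x (bv F k 1)) = 0 := by
  rw [inner_vec]
  apply Finset.sum_eq_zero
  intro i _
  by_cases h : (i : ℕ) = 0
  · simp [bv, rmul, h]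
  · simp [bv, rmul, h]

theorem finrank_vec {e : ℕ} (u : OrthonormalBasis (Fin (e + 1)) ℝ F) :
    Module.finrank ℝ (Vec F k) = k * (e + 1) := by
  have h1 : Module.finrank ℝ F = e + 1 := by
    rw [Module.finrank_eq_card_basis u.toBasis, Fintype.card_fin]
  have h2 : Module.finrank ℝ (Vec F k) = Module.finrank ℝ (Fin k → F) :=
    LinearEquiv.finrank_eq (WithLp.linearEquiv 2 ℝ (Fin k → F))
  rw [h2, Module.finrank_pi_fintype]
  simp [h1]

/-- spaces of the right dimension -/
theorem ex_iso {V : Type} [NormedAddCommGroup V] [InnerProductSpace ℝ V] [FiniteDimensional ℝ V]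
    {n : ℕ} (h : Module.finrank ℝ V = n) : Nonempty (E n ≃ₗᵢ[ℝ] V) :=
  ⟨(((stdOrthonormalBasis ℝ V).reindex (finCongr h)).repr).symm⟩

theorem ex_iota {V : Type} [NormedAddCommGroup V] [InnerProductSpace ℝ V] [FiniteDimensional ℝ V]
    {n e : ℕ} (h : Module.finrank ℝ V = n) (f : Fin (e + 1) → V) (hf : Orthonormal ℝ f) :
    ∃ ι : E (n - (e + 1)) →ₗᵢ[ℝ] V, ∀ u q, inner ℝ (f q) (ι u) = 0 := by
  set K : Submodule ℝ V := Submodule.span ℝ (Set.range f) with hK
  have h1 : Module.finrank ℝ K = e + 1 := by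
    rw [hK, finrank_span_eq_card hf.linearIndependent, Fintype.card_fin]
  have h2 : Module.finrank ℝ Kᗮ = n - (e + 1) := by
    have := Submodule.finrank_add_finrank_orthogonal K
    omega
  obtain ⟨L⟩ := ex_iso h2
  refine ⟨Kᗮ.subtypeₗᵢ.comp L.toLinearIsometry, ?_⟩
  intro u q
  have h3 : (L u : V) ∈ Kᗮ := (L u).2
  have h4 : f q ∈ K := Submodule.subset_span ⟨q, rfl⟩
  exact (Submodule.mem_orthogonal K _).1 h3 _ h4

end

end JFrm

open JFrm in
theorem prfFrm (hI : clIn) (hA : clAct) (hT : clTrans) (hH : clHaar) : clFrm := by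
  intro F _ _ _ _ _ k e u hu0 hk
  obtain ⟨a1, a2, a3, a4, a5, a6, a7, a8, a9, a10, a11, a12⟩ := hA F k
  obtain ⟨hp, hinv⟩ := hH F k
  have hun : ∀ q, ‖u q‖ = 1 := fun q => u.orthonormal.1 q
  have huo : ∀ p q, p ≠ q → inner ℝ (u p) (u q) = 0 := fun p q hpq => u.orthonormal.2 hpq
  have hfd : FiniteDimensional ℝ (Vec F k) := inferInstance
  have hfr : Module.finrank ℝ (Vec F k) = k * (e + 1) := finrank_vec u
  let J : Fin (e + 1) → Vec F k →ₗᵢ[ℝ] Vec F k := fun q =>
    { toFun := fun v => rmul (u q) v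
      map_add' := fun v w => (a8 (u q) v w 0).1
      map_smul' := fun c v => (a8 (u q) v v c).2
      norm_map' := fun v => a7 (u q) (hun q) v }
  let A : Un F k → Vec F k →ₗᵢ[ℝ] Vec F k := fun g =>
    { toFun := fun v => act g v
      map_add' := fun v w => a1 g v w
      map_smul' := fun c v => a2 g c v
      norm_map' := fun v => a3 g v }
  have hJ : ∀ q v, J q v = rmul (u q) v := fun q v => rfl
  have hAa : ∀ g v, A g v = act g v := fun g v => rfl
  have hna : ‖bv F k 0‖ = 1 := norm_bv (by omega)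
  have hnb : ‖bv F k 1‖ = 1 := norm_bv (by omega)
  have hJon : Orthonormal ℝ (fun q => J q (bv F k 0)) := by
    refine ⟨fun q => ?_, fun p q hpq => ?_⟩
    · rw [LinearIsometry.norm_map, hna]
    · exact a10 (u p) (u q) (huo p q hpq) _
  obtain ⟨ι, hι⟩ := ex_iota hfr _ hJon
  obtain ⟨L⟩ := ex_iso hfr
  have hone : ∀ v : Vec F k, rmul (1 : F) v = v := rmul_one
  have key : ∀ v w : Vec F k, ‖v‖ = 1 → ‖w‖ = 1 → (∀ q, inner ℝ v (J q w) = 0) →
      ∃ B : Un F k, act B (bv F k 0) = v ∧ act B (bv F k 1) = w := by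
    intro v w hv hw hvw
    have hvw' : ∀ x : F, inner ℝ v (rmul x w) = 0 := all_of_basis u v w hvw
    have hwv : ∀ x : F, inner ℝ w (rmul x v) = 0 := by
      intro x
      have := a12 v w hvw' x 1
      rw [hone, real_inner_comm] at this
      exact this
    obtain ⟨B1, hB1, -⟩ := hT F k (bv F k 0) v hna hv
    set w1 : Vec F k := act B1⁻¹ w with hw1
    have hB1w : act B1 w1 = w := by
      rw [hw1, ← a4, mul_inv_cancel]
      have h1 := a4 B1 B1⁻¹ w
      have h2 : act (1 : Un F k) w = w := by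
        have h3 := a4 (1 : Un F k) 1 w
        rw [mul_one] at h3
        have h4 : A 1 (act 1 w) = A 1 w := by rw [hAa, hAa, ← h3]
        exact (A 1).injective h4
      exact h2
    have hnw1 : ‖w1‖ = 1 := by rw [← a3 B1 w1, hB1w, hw]
    have hin : ∀ x y : Vec F k, inner ℝ (act B1 x) (act B1 y) = inner ℝ x y := by
      intro x y
      exact (A B1).inner_map_map x y
    have o1 : ∀ x : F, inner ℝ w1 (rmul x (bv F k 0)) = 0 := by
      intro x
      rw [← hin, hB1w, a5, hB1]
      exact hwv x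
    have o2 : ∀ x : F, inner ℝ (bv F k 0) (rmul x w1) = 0 := by
      intro x
      have := a12 w1 (bv F k 0) o1 x 1
      rw [hone, real_inner_comm] at this
      exact this
    have o3 : ∀ x : F, inner ℝ (bv F k 0) (rmul x (bv F k 1)) = 0 := bv_orth
    obtain ⟨B2, hB2, hB2z⟩ := hT F k (bv F k 1) w1 hnb hnw1
    have hB2a : act B2 (bv F k 0) = bv F k 0 :=
      hB2z _ ((a11 _ _).1 o3) ((a11 _ _).1 o2)
    refine ⟨B1 * B2, ?_, ?_⟩
    · rw [a4, hB2a, hB1]
    · rw [a4, hB2, hB1w]
  refine ⟨{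
    J := J
    G := Un F k
    top := inferInstance
    cpt := inferInstance
    scd := inferInstance
    ms := inferInstance
    bor := inferInstance
    μ := hm F k
    prob := hp
    A := A
    a := bv F k 0
    b := bv F k 1
    L := L
    ι := ι
    cont := a6
    le := Nat.mul_le_mul_right _ hk
    J0 := fun v => by rw [hJ, hu0, hone]
    Jsq := fun q hq v => by
      rw [hJ, hJ]
      apply a9 (u q) _ (hun q) v
      rw [← hu0]
      exact huo q 0 hq
    Jorth := fun v p q hpq => a10 (u p) (u q) (huo p q hpq) v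
    orthC := fun v w h p q => a12 v w (all_of_basis u v w h) (u p) (u q)
    comm := fun g q v => a5 g v (u q)
    ha := hna
    hb := hnb
    hab := fun q => bv_orth (u q)
    hι := hι
    inv := ?_ }, ?_, ?_⟩
  · intro v w hv hw hvw f hf
    obtain ⟨B, hBa, hBb⟩ := key v w hv hw hvw
    have hc : Continuous (fun g : Un F k => f (act g (bv F k 0)) (act g (bv F k 1))) := by
      have h1 : Continuous (fun g : Un F k => act g (bv F k 0)) :=
        a6.comp (continuous_id.prodMk continuous_const)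
      have h2 : Continuous (fun g : Un F k => act g (bv F k 1)) :=
        a6.comp (continuous_id.prodMk continuous_const)
      exact hf.comp (h1.prodMk h2)
    have h3 := hinv B _ hc
    have h4 : ∀ g : Un F k, f (A g v) (A g w) =
        f (act (g * B) (bv F k 0)) (act (g * B) (bv F k 1)) := by
      intro g
      rw [a4, a4, hBa, hBb, hAa, hAa]
    calc ∫ g, f (A g v) (A g w) ∂hm F k
        = ∫ g, f (act (g * B) (bv F k 0)) (act (g * B) (bv F k 1)) ∂hm F k := by
          simp only [h4]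
      _ = _ := h3
  · intro q v
    rfl
  · intro f hf
    rfl

end Pool.Agent.Work.MP_408f4b_gt.Q
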