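import Pool.Agent.Work.MP_408f4b_gt.Q.Stmts3

set_option autoImplicit false

/-!
# Item In
-/

namespace Pool.Agent.Work.MP_408f4b_gt.Q

open MeasureTheory Set Filter Topology

namespace JIn

variable (F : Type) [NormedRing F] [InnerProductSpace ℝ F] [StarRing F] [IsDA F]

lemma inner_one_one : inner ℝ (1 : F) 1 = 1 := by
  rw [real_inner_self_eq_norm_sq, IsDA.norm_one', one_pow]

lemma inner_mul_left' (a b c : F) : inner ℝ (a * b) (a * c) = ‖a‖ ^ 2 * inner ℝ b c := by
  rw [real_inner_eq_norm_add_mul_self_sub_norm_mul_self_sub_norm_mul_self_div_two,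
    real_inner_eq_norm_add_mul_self_sub_norm_mul_self_sub_norm_mul_self_div_two,
    ← mul_add, IsDA.norm_mul', IsDA.norm_mul', IsDA.norm_mul']
  ring

lemma inner_mul_right' (a b c : F) : inner ℝ (b * a) (c * a) = ‖a‖ ^ 2 * inner ℝ b c := by
  rw [real_inner_eq_norm_add_mul_self_sub_norm_mul_self_sub_norm_mul_self_div_two,
    real_inner_eq_norm_add_mul_self_sub_norm_mul_self_sub_norm_mul_self_div_two,
    ← add_mul, IsDA.norm_mul', IsDA.norm_mul', IsDA.norm_mul']
  ring

lemma norm_add_one (a : F) : ‖a + 1‖ ^ 2 = ‖a‖ ^ 2 + 2 * inner ℝ a 1 + 1 := by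
  rw [norm_add_sq_real, IsDA.norm_one', one_pow]

lemma star_mul_eq (a c : F) : star a * c = (2 * inner ℝ a 1) • c - a * c := by
  rw [star_eq F a, sub_mul, IsDA.smul_mul', one_mul]

lemma mul_star_eq (a c : F) : c * star a = (2 * inner ℝ a 1) • c - c * a := by
  rw [star_eq F a, mul_sub, IsDA.mul_smul', mul_one]

lemma adj_left (a b c : F) : inner ℝ (a * b) c = inner ℝ b (star a * c) := by
  have h := inner_mul_left' F (a + 1) b c
  rw [norm_add_one, add_mul, add_mul, one_mul, one_mul, inner_add_left, inner_add_right,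
    inner_add_right, inner_mul_left'] at h
  rw [star_mul_eq, inner_sub_right, real_inner_smul_right]
  linarith

lemma adj_right (a b c : F) : inner ℝ (b * a) c = inner ℝ b (c * star a) := by
  have h := inner_mul_right' F (a + 1) b c
  rw [norm_add_one, mul_add, mul_add, mul_one, mul_one, inner_add_left, inner_add_right,
    inner_add_right, inner_mul_right'] at h
  rw [mul_star_eq, inner_sub_right, real_inner_smul_right]
  linarith

lemma inner_star (a b : F) : inner ℝ (star a) (star b) = inner ℝ a b := by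
  rw [star_eq F a, star_eq F b, inner_sub_left, inner_sub_right, inner_sub_right,
    real_inner_smul_left, real_inner_smul_left, real_inner_smul_right, real_inner_smul_right,
    inner_one_one, real_inner_comm b 1]
  ring

lemma norm_star' (a : F) : ‖star a‖ = ‖a‖ := by
  have h := inner_star F a a
  rw [real_inner_self_eq_norm_sq, real_inner_self_eq_norm_sq] at h
  exact (sq_eq_sq₀ (norm_nonneg _) (norm_nonneg _)).1 h

lemma star_smul' (r : ℝ) (a : F) : star (r • a) = r • star a := by
  rw [star_eq F, star_eq F a, real_inner_smul_left, smul_sub, smul_smul]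
  congr 2
  ring

lemma mul_star' (a : F) : a * star a = (‖a‖ ^ 2) • (1 : F) := by
  rw [← star_mul_self' F a, mul_star_eq, star_mul_eq]

lemma imag (a : F) (h : inner ℝ a 1 = 0) (h1 : ‖a‖ = 1) : a * a = -1 ∧ star a = -a := by
  have h2 : star a = -a := by
    rw [star_eq F a, h, mul_zero, zero_smul, zero_sub]
  refine ⟨?_, h2⟩
  have h3 := star_mul_self' F a
  rw [h2, h1, one_pow, one_smul, neg_mul] at h3
  rw [← h3, neg_neg]

end JIn

open JIn in
theorem prfIn : clIn := by
  intro F _ _ _ _
  refine ⟨fun a b c => ⟨inner_mul_left' F a b c, inner_mul_right' F a b c, adj_left F a b c,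
    adj_right F a b c⟩, inner_star F, norm_star' F, star_smul' F,
    fun a => ⟨mul_star' F a, star_mul_self' F a⟩, imag F, ?_⟩
  intro a ha
  have hn : ‖a‖ ^ 2 ≠ 0 := pow_ne_zero 2 (norm_ne_zero_iff.2 ha)
  refine ⟨(‖a‖ ^ 2)⁻¹ • star a, ?_, ?_, rfl⟩
  · rw [IsDA.mul_smul', mul_star', smul_smul, inv_mul_cancel₀ hn, one_smul]
  · rw [IsDA.smul_mul', star_mul_self', smul_smul, inv_mul_cancel₀ hn, one_smul]

end Pool.Agent.Work.MP_408f4b_gt.Q
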