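import Pool.Agent.Work.MP_408f4b_gt.Q.Stmts3

set_option autoImplicit false

/-!
# Identities for the profile curves
-/

namespace Pool.Agent.Work.MP_408f4b_gt.Q

open MeasureTheory Set Filter Topology

namespace JVol

theorem cd1 {x : ℝ → ℝ} (hx : ContDiff ℝ 2 x) : ContDiff ℝ 1 (deriv x) := by
  have h : ContDiff ℝ (1 + 1) x := by
    rw [show ((1 : WithTop ℕ∞) + 1) = 2 by norm_num]
    exact hx
  exact (contDiff_succ_iff_deriv.1 h).2.2

theorem ext0 (F : ℝ → ℝ) (L s₀ : ℝ) (hL : 0 < L) (hs : s₀ ∈ Icc 0 L) (hF : ContinuousAt F s₀)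
    (h0 : ∀ s ∈ Ioo 0 L, F s = 0) : F s₀ = 0 := by
  have hcl : s₀ ∈ closure (Ioo 0 L) := by
    rw [closure_Ioo hL.ne]
    exact hs
  have hne : (𝓝[Ioo 0 L] s₀).NeBot := mem_closure_iff_nhdsWithin_neBot.1 hcl
  have h1 : Tendsto F (𝓝[Ioo 0 L] s₀) (𝓝 (F s₀)) := hF.mono_left nhdsWithin_le_nhds
  have h2 : Tendsto F (𝓝[Ioo 0 L] s₀) (𝓝 0) := by
    refine tendsto_const_nhds.congr' ?_
    filter_upwards [self_mem_nhdsWithin] with s hs
    exact (h0 s hs).symm
  exact tendsto_nhds_unique h1 h2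

theorem eqn (a b : ℕ) (P : Profile a b) (s₀ : ℝ) (hs : s₀ ∈ Icc 0 P.L) (hy : 0 < P.y s₀)
    (hxy : P.y s₀ < P.x s₀) :
    deriv P.x s₀ * deriv (deriv P.y) s₀ - deriv P.y s₀ * deriv (deriv P.x) s₀ =
      kq a b P.x P.y s₀ := by
  have cx : Continuous P.x := P.x_C2.continuous
  have cy : Continuous P.y := P.y_C2.continuous
  have cx1 : Continuous (deriv P.x) := (cd1 P.x_C2).continuous
  have cy1 : Continuous (deriv P.y) := (cd1 P.y_C2).continuous
  have cx2 : Continuous (deriv (deriv P.x)) := (cd1 P.x_C2).continuous_deriv (by norm_num)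
  have cy2 : Continuous (deriv (deriv P.y)) := (cd1 P.y_C2).continuous_deriv (by norm_num)
  have hx0 : P.x s₀ ≠ 0 := by linarith [hxy, hy] |> fun h : 0 < P.x s₀ => h.ne'
  have hy0 : P.y s₀ ≠ 0 := hy.ne'
  have hd : P.x s₀ ^ 2 - P.y s₀ ^ 2 ≠ 0 := by nlinarith
  have h := ext0 (fun s => deriv P.x s * deriv (deriv P.y) s - deriv P.y s * deriv (deriv P.x) s -
    kq a b P.x P.y s) P.L s₀ P.L_pos hs ?_ ?_
  · exact sub_eq_zero.1 h
  · have c1 : ContinuousAt (fun s => deriv P.x s * deriv (deriv P.y) s -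
        deriv P.y s * deriv (deriv P.x) s) s₀ := by fun_prop
    refine c1.sub ?_
    unfold kq
    refine ContinuousAt.sub ?_ ?_
    · refine continuousAt_const.mul (ContinuousAt.sub ?_ ?_)
      · exact cx1.continuousAt.div cy.continuousAt hy0
      · exact cy1.continuousAt.div cx.continuousAt hx0
    · refine ContinuousAt.div ?_ ?_ hd
      · fun_prop
      · fun_prop
  · intro s hs'
    exact sub_eq_zero.2 (P.minimal s hs')

theorem crv (a b : ℕ) (P : Profile a b) (α : ℝ) (h0 : 0 ≤ α)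
    (hα : ∀ s ∈ Icc α P.L, 0 < P.y s ∧ P.y s < P.x s) : Crv a b α P.L P.x P.y := by
  refine ⟨P.x_C2, P.y_C2, fun s hs => ?_⟩
  have hs' : s ∈ Icc 0 P.L := ⟨h0.trans hs.1, hs.2⟩
  exact ⟨(hα s hs).1, (hα s hs).2, P.arclength s hs', eqn a b P s hs' (hα s hs).1 (hα s hs).2⟩

theorem chm (a b : ℕ) (P : Profile a b) (s : ℝ) (hs : s ∈ Ioc 0 P.L) :
    0 < P.y s ∧ P.y s < P.x s := by
  rcases eq_or_lt_of_le hs.2 with h | h
  · rw [h]
    exact ⟨P.final.1, P.final.2.1⟩
  · exact ⟨(P.interior s ⟨hs.1, h⟩).1, (P.interior s ⟨hs.1, h⟩).2.1⟩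

theorem wpos (a b : ℕ) (x y : ℝ → ℝ) (s : ℝ) (hy : 0 < y s) (hxy : y s < x s) :
    0 < wq a b x y s := by
  unfold wq
  have h1 : 0 < x s * y s := mul_pos (hy.trans hxy) hy
  have h2 : 0 < x s ^ 2 - y s ^ 2 := by nlinarith
  positivity

end JVol

open JVol in
/-- Identities for the profile curves. -/
theorem prfVol (hEq : clEqn) : clVol := by
  intro a b P ha hb
  have hw : ∀ s, P.w s = wq a b P.x P.y s := fun s => rfl
  have hw0 : P.y 0 = 0 ∨ P.y 0 = P.x 0 → P.w 0 = 0 := by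
    rintro (h | h)
    · rw [hw]
      unfold wq
      rw [h, mul_zero, zero_pow (by omega), zero_mul]
    · rw [hw]
      unfold wq
      rw [h, sub_self, zero_pow (n := b) (by omega), mul_zero]
  have hcrv : ∀ α ∈ Ioo 0 P.L, Crv a b α P.L P.x P.y := by
    intro α hα
    exact crv a b P α hα.1.le (fun s hs => chm a b P s ⟨hα.1.trans_le hs.1, hs.2⟩)
  have hwL : 0 < P.w P.L := by
    rw [hw]
    exact wpos a b P.x P.y P.L P.final.1 P.final.2.1
  refine ⟨hw, hcrv, ?_, hw0, hwL, ?_, ?_⟩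
  · intro h1 h2
    refine ⟨P.L_pos, crv a b P 0 le_rfl ?_, P.injOn, P.final.2.2, ?_⟩
    · intro s hs
      rcases eq_or_lt_of_le hs.1 with h | h
      · rw [← h]
        exact ⟨h1, h2⟩
      · exact chm a b P s ⟨h, hs.2⟩
    · rcases P.initial with h | h | h
      · exact h.2.2
      · exact absurd h.2.1 h1.ne'
      · exact absurd h.2.1 h2.ne
  · rcases P.initial with h | h | h
    · rw [hw]
      exact (wpos a b P.x P.y 0 h.1 h.2.1).le
    · exact (hw0 (Or.inl h.2.1)).ge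
    · exact (hw0 (Or.inr h.2.1)).ge
  · have cx : Continuous P.x := P.x_C2.continuous
    have cy : Continuous P.y := P.y_C2.continuous
    have cx1 : Continuous (deriv P.x) := (cd1 P.x_C2).continuous
    have cy1 : Continuous (deriv P.y) := (cd1 P.y_C2).continuous
    have cw : Continuous (wq a b P.x P.y) := by
      unfold wq
      fun_prop
    have hder : ∀ s ∈ Ioo 0 P.L, HasDerivAt (fun t => wq a b P.x P.y t *
        (P.x t * deriv P.x t + P.y t * deriv P.y t))
        ((2 * (a : ℝ) + 2 * b + 1) * wq a b P.x P.y s) s := by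
      intro s hs
      have h1 : s / 2 ∈ Ioo 0 P.L := ⟨by linarith [hs.1], by linarith [hs.1, hs.2]⟩
      exact (hEq a b (s / 2) P.L P.x P.y ha hb h1.2 (hcrv _ h1) s
        ⟨by linarith [hs.1], hs.2.le⟩).2.2.2.2.2.2.1
    have h1 := intervalIntegral.integral_eq_sub_of_hasDerivAt_of_le P.L_pos.le
      (f := fun t => wq a b P.x P.y t * (P.x t * deriv P.x t + P.y t * deriv P.y t))
      (f' := fun s => (2 * (a : ℝ) + 2 * b + 1) * wq a b P.x P.y s)
      (by fun_prop) hder (Continuous.intervalIntegrable (by fun_prop) _ _)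
    rw [intervalIntegral.integral_const_mul] at h1
    have h2 : wq a b P.x P.y P.L * (P.x P.L * deriv P.x P.L + P.y P.L * deriv P.y P.L) =
        P.w P.L := by
      rw [hw, P.final.2.2.2.1, P.final.2.2.2.2]
      have h3 := P.final.2.2.1
      have h4 : P.x P.L * P.x P.L + P.y P.L * P.y P.L = 1 := by linarith
      rw [h4, mul_one]
    have h5 : wq a b P.x P.y 0 * (P.x 0 * deriv P.x 0 + P.y 0 * deriv P.y 0) = -P.w 0 := by
      rcases P.initial with h | h | h
      · rw [hw, h.2.2.2.1, h.2.2.2.2]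
        have h3 := h.2.2.1
        have h4 : P.x 0 * -P.x 0 + P.y 0 * -P.y 0 = -1 := by linarith
        rw [h4]
        ring
      · have h6 := hw0 (Or.inl h.2.1)
        rw [h6]
        rw [hw] at h6
        rw [h6]
        ring
      · have h6 := hw0 (Or.inr h.2.1)
        rw [h6]
        rw [hw] at h6
        rw [h6]
        ring
    have h7 : ∫ s in (0 : ℝ)..P.L, P.w s = ∫ s in (0 : ℝ)..P.L, wq a b P.x P.y s := rfl
    rw [h7, h1]
    rw [h2, h5]
    ring

end Pool.Agent.Work.MP_408f4b_gt.Q
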