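import Pool.Agent.Work.MP_408f4b_gt.Q.Stmts3

set_option autoImplicit false

/-!
# Item Fib: disintegration with respect to one of the vectors of the pair
-/

namespace Pool.Agent.Work.MP_408f4b_gt.Q

open MeasureTheory Set Filter Topology

namespace JFib

theorem mass_ne {n : ℕ} (hn : 1 ≤ n) : (sig n).real univ ≠ 0 := by
  have : Nonempty (Fin n) := ⟨⟨0, hn⟩⟩
  have : Nontrivial (E n) := inferInstanceAs (Nontrivial (EuclideanSpace ℝ (Fin n)))
  have h : sig n ≠ 0 := Measure.toSphere_ne_zero _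
  have : IsFiniteMeasure (sig n) := by unfold sig; infer_instance
  have : NeZero (sig n) := ⟨h⟩
  exact measureReal_univ_ne_zero

/-- interchange of the integrals -/
theorem swap {G : Type} [TopologicalSpace G] [CompactSpace G] [SecondCountableTopology G]
    [MeasurableSpace G] [BorelSpace G] {μ : Measure G} [IsProbabilityMeasure μ] {n : ℕ}
    (hn : 1 ≤ n) (K : G → Sph n → ℝ) (hK : Continuous fun z : G × Sph n => K z.1 z.2) (c : ℝ)
    (h : ∀ u, ∫ g, K g u ∂μ = c) :
    c = ((sig n).real univ)⁻¹ * ∫ g, (∫ u, K g u ∂sig n) ∂μ := by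
  have : IsFiniteMeasure (sig n) := by unfold sig; infer_instance
  have hi : Integrable (Function.uncurry K) (μ.prod (sig n)) :=
    Continuous.integrable_of_hasCompactSupport hK (HasCompactSupport.of_compactSpace _)
  rw [integral_integral_swap hi]
  have h2 : ∫ u, (∫ g, K g u ∂μ) ∂sig n = (sig n).real univ * c := by
    rw [show (fun u => ∫ g, K g u ∂μ) = fun _ => c from funext h, integral_const, smul_eq_mul]
  rw [h2, ← mul_assoc, inv_mul_cancel₀ (mass_ne hn), one_mul]

end JFib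

open JFib in
theorem prfFib (hA : clAv) (hP : clPair) : clFib := by
  intro V _ _ _ n e Φ F hF
  have hn : 1 ≤ n - (e + 1) := by
    have := Φ.le
    omega
  obtain ⟨hA1, -, -⟩ := hA V n e Φ
  obtain ⟨-, -, -, hP4, -⟩ := hP V n e Φ
  have hc1 : Continuous fun z : Φ.G × Sph (n - (e + 1)) => Φ.A z.1 Φ.a :=
    Φ.cont.comp (continuous_fst.prodMk continuous_const)
  have hc2 : Continuous fun z : Φ.G × Sph (n - (e + 1)) => Φ.A z.1 (Φ.ι z.2) :=
    Φ.cont.comp (continuous_fst.prodMk (Φ.ι.continuous.comp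
      (continuous_subtype_val.comp continuous_snd)))
  have hu : ∀ u : Sph (n - (e + 1)), ‖(u : E (n - (e + 1)))‖ = 1 := fun u =>
    mem_sphere_zero_iff_norm.1 u.2
  constructor
  · exact swap hn (fun g u => F (Φ.A g Φ.a) (Φ.A g (Φ.ι u))) (hF.comp (hc1.prodMk hc2)) _
      fun u => (hA1 F hF).2 _ _ (hP4 u (hu u)).1
  · exact swap hn (fun g u => F (Φ.A g (Φ.ι u)) (Φ.A g Φ.a)) (hF.comp (hc2.prodMk hc1)) _
      fun u => (hA1 F hF).2 _ _ (hP4 u (hu u)).2

end Pool.Agent.Work.MP_408f4b_gt.Q
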