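import Pool.Agent.Work.MP_408f4b_gt.Q.Stmts3

set_option autoImplicit false

/-!
# Item Act
-/

namespace Pool.Agent.Work.MP_408f4b_gt.Q

open MeasureTheory Set Filter Topology

namespace JAct

variable {F : Type} [NormedRing F] [InnerProductSpace ℝ F] [StarRing F] [IsDA F] {k : ℕ}

lemma inner_eq (v w : Vec F k) : inner ℝ v w = ∑ i, inner ℝ (v i) (w i) := by
  rw [PiLp.inner_apply]

lemma norm_sq_eq (v : Vec F k) : ‖v‖ ^ 2 = ∑ i, ‖v i‖ ^ 2 := PiLp.norm_sq_eq_of_L2 _ v

lemma nsq (v : Vec F k) : ∑ i, star (v i) * v i = (‖v‖ ^ 2) • (1 : F) := by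
  rw [norm_sq_eq, Finset.sum_smul]
  exact Finset.sum_congr rfl fun i _ => star_mul_self' F (v i)

lemma act_apply (A : Un F k) (v : Vec F k) (i : Fin k) : act A v i = ∑ j, A.1 i j * v j := rfl

lemma rmul_apply (u : F) (v : Vec F k) (i : Fin k) : rmul u v i = v i * u := rfl

lemma act_mulVec (A : Un F k) (v : Vec F k) (i : Fin k) :
    act A v i = (A.1.mulVec (fun j => v j)) i := rfl

lemma norm_act (A : Un F k) (v : Vec F k) : ‖act A v‖ = ‖v‖ := by
  have hA : A.1.conjTranspose * A.1 = 1 := (Unitary.mem_iff.1 A.2).1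
  have h1 : ∑ i, star (act A v i) * act A v i = ∑ i, star (v i) * v i := by
    have h2 : (star (A.1.mulVec (fun j => v j))) ⬝ᵥ (A.1.mulVec (fun j => v j)) =
        (star (fun j => v j)) ⬝ᵥ (fun j => v j) := by
      rw [Matrix.star_mulVec, Matrix.dotProduct_mulVec, Matrix.vecMul_vecMul, hA,
        Matrix.vecMul_one]
    exact h2
  rw [nsq, nsq] at h1
  have h3 := congrArg norm h1
  rw [norm_smul, norm_smul, IsDA.norm_one', mul_one, mul_one, Real.norm_eq_abs, Real.norm_eq_abs,
    abs_of_nonneg (sq_nonneg _), abs_of_nonneg (sq_nonneg _)] at h3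
  exact (sq_eq_sq₀ (norm_nonneg _) (norm_nonneg _)).1 h3

end JAct

open JAct in
theorem prfAct (h : clIn) : clAct := by
  intro F _ _ _ _ k
  obtain ⟨h1, h2, h3, h4, h5, h6, h7⟩ := h F
  have key : ∀ (u : F) (v w : Vec F k), inner ℝ v (rmul u w) =
      inner ℝ u (∑ i, star (w i) * v i) := by
    intro u v w
    rw [inner_eq, inner_sum]
    refine Finset.sum_congr rfl fun i _ => ?_
    rw [rmul_apply, real_inner_comm]
    exact (h1 (w i) u (v i)).2.2.1
  have key2 : ∀ v w : Vec F k, (∀ u : F, inner ℝ v (rmul u w) = 0) ↔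
      ∑ i, star (w i) * v i = 0 := by
    intro v w
    constructor
    · intro hu
      have := hu (∑ i, star (w i) * v i)
      rw [key] at this
      exact inner_self_eq_zero.1 this
    · intro h0 u
      rw [key, h0, inner_zero_right]
  refine ⟨?_, ?_, norm_act, ?_, ?_, ?_, ?_, ?_, ?_, ?_, key2, ?_⟩
  · intro A v w
    ext i
    simp only [act_apply, PiLp.add_apply, mul_add, Finset.sum_add_distrib]
  · intro A c v
    ext i
    simp only [act_apply, PiLp.smul_apply, IsDA.mul_smul', Finset.smul_sum]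
  · intro A B v
    ext i
    rw [act_mulVec, act_mulVec]
    have : (fun j => act B v j) = B.1.mulVec (fun j => v j) := rfl
    rw [this, Matrix.mulVec_mulVec]
    rfl
  · intro A v u
    ext i
    simp only [act_apply, rmul_apply, Finset.sum_mul, mul_assoc]
  · refine (PiLp.continuous_toLp 2 _).comp (continuous_pi fun i => ?_)
    refine continuous_finset_sum _ fun j _ => ?_
    refine Continuous.mul ?_ ?_
    · have hc : Continuous (fun A : Un F k => A.1) := continuous_subtype_val
      exact ((continuous_apply j).comp ((continuous_apply i).comp hc)).comp continuous_fst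
    · exact (PiLp.continuous_apply 2 _ j).comp continuous_snd
  · intro u hu v
    have h8 : ‖rmul u v‖ ^ 2 = ‖v‖ ^ 2 := by
      rw [norm_sq_eq, norm_sq_eq]
      refine Finset.sum_congr rfl fun i _ => ?_
      rw [rmul_apply, IsDA.norm_mul', hu, mul_one]
    exact (sq_eq_sq₀ (norm_nonneg _) (norm_nonneg _)).1 h8
  · intro u v w c
    constructor
    · ext i
      simp only [rmul_apply, PiLp.add_apply, add_mul]
    · ext i
      simp only [rmul_apply, PiLp.smul_apply, IsDA.smul_mul']
  · intro u hu hu1 v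
    ext i
    rw [rmul_apply, rmul_apply, mul_assoc, (h6 u hu hu1).1, PiLp.neg_apply]
    simp
  · intro u u' huu v
    rw [inner_eq]
    refine Finset.sum_eq_zero fun i _ => ?_
    rw [rmul_apply, rmul_apply, (h1 (v i) u u').1, huu, mul_zero]
  · intro v w hvw u u'
    have h0 := (key2 v w).1 hvw
    rw [key]
    have : ∑ i, star (w i) * (rmul u v) i = (∑ i, star (w i) * v i) * u := by
      rw [Finset.sum_mul]
      refine Finset.sum_congr rfl fun i _ => ?_
      rw [rmul_apply, mul_assoc]
    rw [this, h0, zero_mul, inner_zero_right]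

end Pool.Agent.Work.MP_408f4b_gt.Q
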