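import Pool.Agent.Work.MP_408f4b_gt.Q.Stmts3

set_option autoImplicit false

namespace Pool.Agent.Work.MP_408f4b_gt.Q

open MeasureTheory Set Filter Topology

namespace JAv

variable {V : Type} [NormedAddCommGroup V] [InnerProductSpace ℝ V] [CompleteSpace V] {n e : ℕ}

theorem cont_pair (Φ : Frm V n e) (v w : V) :
    Continuous fun g : Φ.G => ((Φ.A g v, Φ.A g w) : V × V) :=
  (Φ.cont.comp (continuous_id.prodMk continuous_const)).prodMk
    (Φ.cont.comp (continuous_id.prodMk continuous_const))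

theorem cont_param (Φ : Frm V n e) {X : Type} [TopologicalSpace X] {F : X → V → V → ℝ}
    (hF : Continuous (fun z : X × V × V => F z.1 z.2.1 z.2.2)) :
    Continuous fun z : X × Φ.G => F z.1 (Φ.A z.2 Φ.a) (Φ.A z.2 Φ.b) := by
  have h1 : Continuous fun z : X × Φ.G => ((z.1, (Φ.A z.2 Φ.a, Φ.A z.2 Φ.b)) : X × V × V) :=
    continuous_fst.prodMk ((cont_pair Φ Φ.a Φ.b).comp continuous_snd)
  exact hF.comp h1

theorem int_of_cont (Φ : Frm V n e) {f : Φ.G → ℝ} (hf : Continuous f) : Integrable f Φ.μ :=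
  hf.integrable_of_hasCompactSupport (HasCompactSupport.of_compactSpace f)

theorem cont_int (Φ : Frm V n e) : Continuous fun φ : C(Φ.G, ℝ) => ∫ g, φ g ∂Φ.μ := by
  rw [Metric.continuous_iff]
  intro φ ε hε
  refine ⟨ε, hε, fun ψ hψ => ?_⟩
  rw [Real.dist_eq, ← integral_sub (int_of_cont Φ ψ.continuous) (int_of_cont Φ φ.continuous)]
  have h1 : ‖∫ g, (ψ g - φ g) ∂Φ.μ‖ ≤ dist ψ φ * (Φ.μ.real Set.univ) := by
    refine norm_integral_le_of_norm_le_const (Eventually.of_forall fun g => ?_)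
    have h2 := ContinuousMap.dist_apply_le_dist (f := ψ) (g := φ) g
    rw [Real.dist_eq] at h2
    rw [Real.norm_eq_abs]
    exact h2
  rw [probReal_univ, mul_one] at h1
  exact lt_of_le_of_lt h1 hψ

end JAv

open JAv in
theorem prfAv : clAv := by
  intro V _ _ _ n e Φ
  refine ⟨fun F hF => ⟨hF.comp (cont_pair Φ Φ.a Φ.b), fun v w h => Φ.inv v w h.1 h.2.1 h.2.2 F hF⟩,
    ?_, ?_⟩
  · intro X _ _ F hF
    have h1 := cont_param Φ hF
    let f : C(X × Φ.G, ℝ) := ⟨_, h1⟩
    exact (cont_int Φ).comp f.curry.continuous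
  · intro F F' hF hF' hd s
    have h1 := cont_param Φ hF
    have h2 := cont_param Φ hF'
    have hfix : ∀ t : ℝ, Continuous fun g : Φ.G => F t (Φ.A g Φ.a) (Φ.A g Φ.b) := fun t =>
      h1.comp (continuous_const.prodMk continuous_id)
    have hfix' : ∀ t : ℝ, Continuous fun g : Φ.G => F' t (Φ.A g Φ.a) (Φ.A g Φ.b) := fun t =>
      h2.comp (continuous_const.prodMk continuous_id)
    obtain ⟨C, hC⟩ := ((isCompact_closedBall s 1).prod (isCompact_univ (X := Φ.G))).exists_bound_of_continuousOn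
      h2.continuousOn
    refine (hasDerivAt_integral_of_dominated_loc_of_deriv_le (μ := Φ.μ)
      (F := fun t g => F t (Φ.A g Φ.a) (Φ.A g Φ.b))
      (F' := fun t g => F' t (Φ.A g Φ.a) (Φ.A g Φ.b)) (bound := fun _ => C)
      (Metric.closedBall_mem_nhds s one_pos)
      (Eventually.of_forall fun t => (hfix t).aestronglyMeasurable)
      (int_of_cont Φ (hfix s)) (hfix' s).aestronglyMeasurable
      (Eventually.of_forall fun g t ht => hC (t, g) ⟨ht, mem_univ g⟩)
      (integrable_const C)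
      (Eventually.of_forall fun g t _ => hd t (Φ.A g Φ.a) (Φ.A g Φ.b))).2

end Pool.Agent.Work.MP_408f4b_gt.Q
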