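import Pool.Agent.Work.MP_408f4b_gt.Q.Stmts3

set_option autoImplicit false

/-!
# Item Bas
-/

namespace Pool.Agent.Work.MP_408f4b_gt.Q

open MeasureTheory Set Filter Topology

theorem prfBas : clBas := by
  intro F _ _ _ _
  have hfd : FiniteDimensional ℝ F := IsDA.finite
  have h1 : (1 : F) ≠ 0 := by
    intro h
    have h2 := IsDA.norm_one' (F := F)
    rw [h, norm_zero] at h2
    exact zero_ne_one h2
  have hpos : 0 < Module.finrank ℝ F := Module.finrank_pos_iff_exists_ne_zero.2 ⟨1, h1⟩
  obtain ⟨e, he⟩ : ∃ e : ℕ, e + 1 = Module.finrank ℝ F := ⟨Module.finrank ℝ F - 1, by omega⟩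
  refine ⟨e, he, ?_⟩
  have hcard : Module.finrank ℝ F = Fintype.card (Fin (e + 1)) := by
    rw [Fintype.card_fin, he]
  have hon : Orthonormal ℝ (({0} : Set (Fin (e + 1))).restrict fun _ => (1 : F)) := by
    constructor
    · intro i
      exact IsDA.norm_one'
    · intro i j hij
      exact absurd (Subsingleton.elim i j) hij
  obtain ⟨b, hb⟩ := hon.exists_orthonormalBasis_extension_of_card_eq hcard
  exact ⟨b, hb 0 (Set.mem_singleton 0)⟩

end Pool.Agent.Work.MP_408f4b_gt.Q
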