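import Pool.Agent.Work.MP_408f4b_gt.Q.Stmts3

set_option autoImplicit false

/-!
# Gaussian Poincaré inequalities in dimension one

With `ψ = t` (general functions) or `ψ = t² - 1` (even functions) and `g = f - c` vanishing at the
zeros of `ψ`, the function `ρ (g'² - λ g²) - (ρ g² ψ'/ψ)' = ρ (g' - g ψ'/ψ)²` is nonnegative.
-/

namespace Pool.Agent.Work.MP_408f4b_gt.Q

open MeasureTheory Set Filter Topology

namespace JE1

/-- the Gaussian density -/
noncomputable def rho (t : ℝ) : ℝ := (Real.sqrt (2 * Real.pi))⁻¹ * Real.exp (-(1 / 2) * t ^ 2)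

theorem pdf_eq (t : ℝ) : ProbabilityTheory.gaussianPDFReal 0 1 t = rho t := by
  rw [ProbabilityTheory.gaussianPDFReal, rho]
  simp only [NNReal.coe_one, mul_one, sub_zero]
  congr 2
  ring

theorem int_eq (φ : ℝ → ℝ) :
    ∫ t, φ t ∂(ProbabilityTheory.gaussianReal 0 1) = ∫ t, rho t * φ t := by
  rw [ProbabilityTheory.integral_gaussianReal_eq_integral_smul (by norm_num)]
  simp only [pdf_eq, smul_eq_mul]

theorem c_pos : 0 < (Real.sqrt (2 * Real.pi))⁻¹ := by
  have := Real.pi_pos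
  positivity

theorem rho_pos (t : ℝ) : 0 < rho t := mul_pos c_pos (Real.exp_pos _)

theorem rho_neg (t : ℝ) : rho (-t) = rho t := by
  unfold rho
  rw [neg_sq]

theorem rho_deriv (t : ℝ) : HasDerivAt rho (-t * rho t) t := by
  have h1 : HasDerivAt (fun t : ℝ => -(1 / 2) * t ^ 2) (-(1 / 2) * (2 * t)) t := by
    have := (hasDerivAt_pow 2 t).const_mul (-(1 / 2) : ℝ)
    simpa using this
  have h2 : HasDerivAt rho _ t := (h1.exp).const_mul (Real.sqrt (2 * Real.pi))⁻¹
  refine h2.congr_deriv ?_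
  rw [rho]
  ring

theorem rho_cont : Continuous rho := by
  rw [continuous_iff_continuousAt]
  exact fun t => (rho_deriv t).continuousAt

theorem rho_int : Integrable rho := by
  unfold rho
  exact (integrable_exp_neg_mul_sq (by norm_num : (0 : ℝ) < 1 / 2)).const_mul _

theorem rho_int4 : Integrable (fun t => rho t * t ^ 4) := by
  have h := (integrable_rpow_mul_exp_neg_mul_sq (by norm_num : (0 : ℝ) < 1 / 2)
    (by norm_num : (-1 : ℝ) < ((4 : ℕ) : ℝ))).const_mul (Real.sqrt (2 * Real.pi))⁻¹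
  refine h.congr (ae_of_all _ fun t => ?_)
  show (Real.sqrt (2 * Real.pi))⁻¹ * (t ^ ((4 : ℕ) : ℝ) * Real.exp (-(1 / 2) * t ^ 2)) =
    rho t * t ^ 4
  rw [Real.rpow_natCast, rho]
  ring

/-- domination -/
theorem dom {K : ℝ} {φ : ℝ → ℝ} (hm : Continuous φ) (h : ∀ t, |φ t| ≤ K * (1 + t ^ 4)) :
    Integrable (fun t => rho t * φ t) := by
  have h1 : Integrable (fun t => K * (rho t + rho t * t ^ 4)) :=
    (rho_int.add rho_int4).const_mul K
  refine h1.mono' (rho_cont.mul hm).aestronglyMeasurable (ae_of_all _ fun t => ?_)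
  rw [Real.norm_eq_abs, abs_mul, abs_of_pos (rho_pos t)]
  calc rho t * |φ t| ≤ rho t * (K * (1 + t ^ 4)) :=
        mul_le_mul_of_nonneg_left (h t) (rho_pos t).le
    _ = _ := by ring

/-- the data of the ground state substitution -/
structure Dat (g g' ψ ψ' ψ'' : ℝ → ℝ) (lam z : ℝ) : Prop where
  z0 : 0 ≤ z
  hg : ∀ t, HasDerivAt g (g' t) t
  cg' : Continuous g'
  hψ : ∀ t, HasDerivAt ψ (ψ' t) t
  hψ' : ∀ t, HasDerivAt ψ' (ψ'' t) t
  hL : ∀ t, t * ψ' t - ψ'' t = lam * ψ t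
  hne : ∀ t, 0 ≤ t → t ≠ z → ψ t ≠ 0
  hz : ψ z = 0
  hz' : ψ' z ≠ 0
  gz : g z = 0
  g0 : g 0 ^ 2 * ψ' 0 = 0
  pos : ∀ t, z < t → 0 ≤ ψ' t / ψ t

/-- the boundary term -/
noncomputable def FF (g ψ ψ' : ℝ → ℝ) (t : ℝ) : ℝ := rho t * g t ^ 2 * ψ' t / ψ t

section
variable {g g' ψ ψ' ψ'' : ℝ → ℝ} {lam z : ℝ}

theorem cont_z (h : Dat g g' ψ ψ' ψ'' lam z) : ContinuousAt (FF g ψ ψ') z := by
  rw [continuousAt_iff_punctured_nhds]
  have hF : FF g ψ ψ' z = 0 := by
    unfold FF
    rw [h.gz]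
    ring
  rw [hF]
  have h1 : Tendsto (slope g z) (𝓝[≠] z) (𝓝 (g' z)) := (hasDerivAt_iff_tendsto_slope.1 (h.hg z))
  have h2 : Tendsto (slope ψ z) (𝓝[≠] z) (𝓝 (ψ' z)) := (hasDerivAt_iff_tendsto_slope.1 (h.hψ z))
  have h3 : Tendsto g (𝓝[≠] z) (𝓝 (g z)) := (h.hg z).continuousAt.continuousWithinAt
  have h4 : Tendsto ψ' (𝓝[≠] z) (𝓝 (ψ' z)) := (h.hψ' z).continuousAt.continuousWithinAt
  have h5 : Tendsto rho (𝓝[≠] z) (𝓝 (rho z)) := rho_cont.continuousAt.continuousWithinAt
  have h6 := ((h5.mul h3).mul (h1.mul h4)).div h2 h.hz'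
  have e : rho z * g z * (g' z * ψ' z) / ψ' z = 0 := by
    rw [h.gz]
    ring
  rw [e] at h6
  refine h6.congr' ?_
  filter_upwards [self_mem_nhdsWithin] with t ht
  have ht' : t - z ≠ 0 := sub_ne_zero.2 ht
  simp only [Pi.div_apply, slope_def_field, FF, h.gz, h.hz, sub_zero]
  by_cases hψ : ψ t = 0
  · rw [hψ]
    simp
  · field_simp

theorem derF (h : Dat g g' ψ ψ' ψ'' lam z) {t : ℝ} (ht : ψ t ≠ 0) :
    HasDerivAt (FF g ψ ψ') (rho t * (g' t ^ 2 - lam * g t ^ 2) -
      rho t * (g' t - g t * ψ' t / ψ t) ^ 2) t := by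
  have h1 := (((rho_deriv t).mul ((h.hg t).pow 2)).mul (h.hψ' t)).div (h.hψ t) ht
  refine h1.congr_deriv ?_
  have e : ψ'' t = t * ψ' t - lam * ψ t := by
    have := h.hL t
    linarith
  simp only [Pi.pow_apply, Pi.mul_apply]
  rw [e]
  field_simp
  ring

theorem part (h : Dat g g' ψ ψ' ψ'' lam z) {t : ℝ} (ht : z ≤ t) :
    0 ≤ ∫ s in (0 : ℝ)..t, rho s * (g' s ^ 2 - lam * g s ^ 2) := by
  have hgc : Continuous g := continuous_iff_continuousAt.2 fun t => (h.hg t).continuousAt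
  have huc : Continuous (fun s => rho s * (g' s ^ 2 - lam * g s ^ 2)) :=
    rho_cont.mul ((h.cg'.pow 2).sub (continuous_const.mul (hgc.pow 2)))
  set G : ℝ → ℝ := fun t => (∫ s in (0 : ℝ)..t, rho s * (g' s ^ 2 - lam * g s ^ 2)) -
    FF g ψ ψ' t with hG
  have hi : ∀ t, HasDerivAt (fun t => ∫ s in (0 : ℝ)..t, rho s * (g' s ^ 2 - lam * g s ^ 2))
      (rho t * (g' t ^ 2 - lam * g t ^ 2)) t := fun t =>
    (huc.integral_hasStrictDerivAt 0 t).hasDerivAt
  have hd : ∀ t, 0 ≤ t → t ≠ z → HasDerivAt G (rho t * (g' t - g t * ψ' t / ψ t) ^ 2) t := by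
    intro t h0 h1
    refine ((hi t).sub (derF h (h.hne t h0 h1))).congr_deriv ?_
    ring
  have hc : ∀ t, 0 ≤ t → ContinuousAt G t := by
    intro t h0
    by_cases h1 : t = z
    · rw [h1]
      exact (hi z).continuousAt.sub (cont_z h)
    · exact (hd t h0 h1).continuousAt
  have hn : ∀ t, 0 ≤ rho t * (g' t - g t * ψ' t / ψ t) ^ 2 := fun t =>
    mul_nonneg (rho_pos t).le (sq_nonneg _)
  have m1 : MonotoneOn G (Icc 0 z) := by
    refine monotoneOn_of_deriv_nonneg (convex_Icc 0 z)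
      (fun t ht => (hc t ht.1).continuousWithinAt) ?_ ?_
    · rw [interior_Icc]
      exact fun t ht => (hd t ht.1.le ht.2.ne).differentiableAt.differentiableWithinAt
    · rw [interior_Icc]
      intro t ht
      rw [(hd t ht.1.le ht.2.ne).deriv]
      exact hn t
  have m2 : MonotoneOn G (Ici z) := by
    refine monotoneOn_of_deriv_nonneg (convex_Ici z)
      (fun t ht => (hc t (h.z0.trans ht)).continuousWithinAt) ?_ ?_
    · rw [interior_Ici]
      exact fun t ht => (hd t (h.z0.trans (le_of_lt ht))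
        (ne_of_gt ht)).differentiableAt.differentiableWithinAt
    · rw [interior_Ici]
      intro t ht
      rw [(hd t (h.z0.trans (le_of_lt ht)) (ne_of_gt ht)).deriv]
      exact hn t
  have h0 : G 0 = 0 := by
    rw [hG]
    simp only [intervalIntegral.integral_same, zero_sub, neg_eq_zero]
    unfold FF
    rw [mul_assoc, h.g0]
    ring
  have h1 : G 0 ≤ G z := m1 ⟨le_rfl, h.z0⟩ ⟨h.z0, le_rfl⟩ h.z0
  have h2 : G z ≤ G t := m2 (mem_Ici.2 le_rfl) ht ht
  have h3 : 0 ≤ FF g ψ ψ' t := by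
    rcases ht.eq_or_lt with h4 | h4
    · unfold FF
      rw [← h4, h.gz]
      simp
    · unfold FF
      rw [mul_div_assoc]
      exact mul_nonneg (mul_nonneg (rho_pos t).le (sq_nonneg _)) (h.pos t h4)
  have h4 : G t = (∫ s in (0 : ℝ)..t, rho s * (g' s ^ 2 - lam * g s ^ 2)) - FF g ψ ψ' t := rfl
  linarith

theorem whole (h : Dat g g' ψ ψ' ψ'' lam z)
    (h' : Dat (fun t => g (-t)) (fun t => -g' (-t)) ψ ψ' ψ'' lam z)
    (hi : Integrable (fun s => rho s * (g' s ^ 2 - lam * g s ^ 2))) :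
    0 ≤ ∫ s, rho s * (g' s ^ 2 - lam * g s ^ 2) := by
  have hlim := intervalIntegral_tendsto_integral hi tendsto_neg_atTop_atBot
    (tendsto_id (α := ℝ) (x := atTop))
  refine ge_of_tendsto hlim ?_
  filter_upwards [eventually_ge_atTop z] with t ht
  have h1 := part h ht
  have h2 := part h' ht
  have e : ∫ s in (0 : ℝ)..t, rho s * ((-g' (-s)) ^ 2 - lam * g (-s) ^ 2) =
      ∫ s in (-t)..0, rho s * (g' s ^ 2 - lam * g s ^ 2) := by
    have h3 := intervalIntegral.integral_comp_neg (a := 0) (b := t)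
      (fun s => rho s * (g' s ^ 2 - lam * g s ^ 2))
    rw [neg_zero] at h3
    rw [← h3]
    refine intervalIntegral.integral_congr fun s _ => ?_
    show rho s * ((-g' (-s)) ^ 2 - lam * g (-s) ^ 2) =
      rho (-s) * (g' (-s) ^ 2 - lam * g (-s) ^ 2)
    rw [rho_neg, neg_sq]
  rw [e] at h2
  have hgc : Continuous g := continuous_iff_continuousAt.2 fun t => (h.hg t).continuousAt
  have huc : Continuous (fun s => rho s * (g' s ^ 2 - lam * g s ^ 2)) :=
    rho_cont.mul ((h.cg'.pow 2).sub (continuous_const.mul (hgc.pow 2)))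
  rw [id, ← intervalIntegral.integral_add_adjacent_intervals (b := 0)
    (huc.intervalIntegrable _ _) (huc.intervalIntegrable _ _)]
  linarith

end

section
variable {f : ℝ → ℝ} {C : ℝ}

theorem growth (hf : ContDiff ℝ 1 f) (hb : ∀ t, |deriv f t| ≤ C * (1 + |t|)) (t : ℝ) :
    |f t| ≤ (|f 0| + 2 * C) * (1 + t ^ 2) := by
  have hC : 0 ≤ C := by
    have := (abs_nonneg _).trans (hb 0)
    simpa using this
  have hd : Differentiable ℝ f := hf.differentiable (by norm_num)
  have h := Convex.norm_image_sub_le_of_norm_deriv_le (f := f) (C := C * (1 + |t|))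
    (s := Icc (-|t|) |t|) (x := 0) (y := t) (fun x _ => hd x) (fun x hx => by
      rw [Real.norm_eq_abs]
      refine (hb x).trans (mul_le_mul_of_nonneg_left ?_ hC)
      have : |x| ≤ |t| := abs_le.2 hx
      linarith) (convex_Icc _ _) ⟨by simp, abs_nonneg t⟩ ⟨neg_abs_le t, le_abs_self t⟩
  rw [sub_zero, Real.norm_eq_abs, Real.norm_eq_abs] at h
  have h1 : |f t| ≤ |f 0| + |f t - f 0| := by
    have := abs_add_le (f 0) (f t - f 0)
    rwa [add_sub_cancel] at this
  have h2 : |t| ≤ 1 + t ^ 2 := by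
    rw [← sq_abs t]
    nlinarith [sq_nonneg (|t| - 1), abs_nonneg t]
  have h3 : |t| * |t| = t ^ 2 := by rw [← sq, sq_abs]
  have h4 : C * (1 + |t|) * |t| ≤ 2 * C * (1 + t ^ 2) := by
    have h5 : (1 + |t|) * |t| ≤ 2 * (1 + t ^ 2) := by nlinarith
    have := mul_le_mul_of_nonneg_left h5 hC
    linarith
  have h6 : |f 0| ≤ |f 0| * (1 + t ^ 2) := by
    have := mul_nonneg (abs_nonneg (f 0)) (sq_nonneg t)
    linarith
  linarith

theorem main (hf : ContDiff ℝ 1 f) (hb : ∀ t, |deriv f t| ≤ C * (1 + |t|)) (c lam : ℝ)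
    (hl : 0 ≤ lam)
    (H : Integrable (fun s => rho s * (deriv f s ^ 2 - lam * (f s - c) ^ 2)) →
      0 ≤ ∫ s, rho s * (deriv f s ^ 2 - lam * (f s - c) ^ 2)) :
    lam * (∫ t, f t ^ 2 ∂(ProbabilityTheory.gaussianReal 0 1) -
      (∫ t, f t ∂(ProbabilityTheory.gaussianReal 0 1)) ^ 2) ≤
      ∫ t, deriv f t ^ 2 ∂(ProbabilityTheory.gaussianReal 0 1) := by
  have hC : 0 ≤ C := by
    have := (abs_nonneg _).trans (hb 0)
    simpa using this
  have hfc : Continuous f := hf.continuous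
  have hdc : Continuous (deriv f) := hf.continuous_deriv (by norm_num)
  have hg := growth hf hb
  have hone : ∫ t, rho t * 1 = 1 := by
    have h1 := int_eq (fun _ => (1 : ℝ))
    rw [← h1]
    simp
  have hK : ∀ t : ℝ, t ^ 2 ≤ 1 + t ^ 4 := fun t => by nlinarith [sq_nonneg (t ^ 2 - 1)]
  obtain ⟨K, hKd⟩ : ∃ K, K = |f 0| + 2 * C := ⟨_, rfl⟩
  rw [← hKd] at hg
  have hK0 : 0 ≤ K := by
    rw [hKd]
    positivity
  have i1 : Integrable (fun t => rho t * f t) := by
    refine dom (K := 2 * K) hfc fun t => (hg t).trans ?_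
    have := mul_le_mul_of_nonneg_left (hK t) hK0
    nlinarith [mul_nonneg hK0 (by positivity : (0 : ℝ) ≤ t ^ 4)]
  have i2 : Integrable (fun t => rho t * f t ^ 2) := by
    refine dom (K := 2 * K ^ 2) (hfc.pow 2) fun t => ?_
    rw [abs_of_nonneg (sq_nonneg _), ← sq_abs]
    have h1 : |f t| ^ 2 ≤ (K * (1 + t ^ 2)) ^ 2 := pow_le_pow_left₀ (abs_nonneg _) (hg t) 2
    have h2 : (1 + t ^ 2) ^ 2 ≤ 2 * (1 + t ^ 4) := by nlinarith [sq_nonneg (t ^ 2 - 1)]
    have h3 := mul_le_mul_of_nonneg_left h2 (sq_nonneg K)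
    calc |f t| ^ 2 ≤ (K * (1 + t ^ 2)) ^ 2 := h1
      _ = K ^ 2 * (1 + t ^ 2) ^ 2 := by ring
      _ ≤ _ := h3
      _ = _ := by ring
  have i3 : Integrable (fun t => rho t * deriv f t ^ 2) := by
    refine dom (K := 4 * C ^ 2) (hdc.pow 2) fun t => ?_
    rw [abs_of_nonneg (sq_nonneg _), ← sq_abs]
    have h1 : |deriv f t| ^ 2 ≤ (C * (1 + |t|)) ^ 2 := pow_le_pow_left₀ (abs_nonneg _) (hb t) 2
    have h2 : (1 + |t|) ^ 2 ≤ 4 * (1 + t ^ 4) := by
      have h3 := hK t
      have h4 : |t| ^ 2 = t ^ 2 := sq_abs t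
      nlinarith [sq_nonneg (|t| - 1), (by positivity : (0 : ℝ) ≤ t ^ 4)]
    have h3 := mul_le_mul_of_nonneg_left h2 (sq_nonneg C)
    calc |deriv f t| ^ 2 ≤ (C * (1 + |t|)) ^ 2 := h1
      _ = C ^ 2 * (1 + |t|) ^ 2 := by ring
      _ ≤ _ := h3
      _ = _ := by ring
  have i0 : Integrable (fun t => rho t * 1) := by simpa using rho_int
  have e : (fun s => rho s * (deriv f s ^ 2 - lam * (f s - c) ^ 2)) = fun s =>
      rho s * deriv f s ^ 2 - lam * (rho s * f s ^ 2 - 2 * c * (rho s * f s) +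
        c ^ 2 * (rho s * 1)) := by
    funext s
    ring
  have j1 : Integrable (fun s => 2 * c * (rho s * f s)) := i1.const_mul _
  have j2 : Integrable (fun s => c ^ 2 * (rho s * 1)) := i0.const_mul _
  have j3 : Integrable (fun s => rho s * f s ^ 2 - 2 * c * (rho s * f s)) := i2.sub j1
  have i4 : Integrable (fun s => rho s * f s ^ 2 - 2 * c * (rho s * f s) + c ^ 2 * (rho s * 1)) :=
    j3.add j2
  have i5 : Integrable (fun s => lam * (rho s * f s ^ 2 - 2 * c * (rho s * f s) +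
      c ^ 2 * (rho s * 1))) := i4.const_mul lam
  have hi : Integrable (fun s => rho s * (deriv f s ^ 2 - lam * (f s - c) ^ 2)) := by
    rw [e]
    exact i3.sub i5
  have h := H hi
  rw [e, integral_sub i3 i5, integral_const_mul, integral_add j3 j2, integral_sub i2 j1,
    integral_const_mul, integral_const_mul, hone] at h
  rw [int_eq, int_eq, int_eq]
  have h7 := mul_nonneg hl (sq_nonneg ((∫ t, rho t * f t) - c))
  nlinarith

end

end JE1

open JE1 in
theorem prfE1 : clE1 := by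
  intro f C hf hb
  have hd : ∀ t, HasDerivAt f (deriv f t) t := fun t =>
    (hf.differentiable (by norm_num) t).hasDerivAt
  have hdc : Continuous (deriv f) := hf.continuous_deriv (by norm_num)
  have hd' : ∀ t, HasDerivAt (fun t => f (-t)) (-deriv f (-t)) t := by
    intro t
    have h1 := (hd (-t)).comp t (hasDerivAt_neg t)
    refine h1.congr_deriv ?_
    ring
  have hdc' : Continuous (fun t => -deriv f (-t)) := (hdc.comp continuous_neg).neg
  constructor
  · have h := main hf hb (f 0) 1 zero_le_one fun hi => by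
      refine whole (ψ := fun t => t) (ψ' := fun _ => 1) (ψ'' := fun _ => 0) (z := 0) (g := fun t => f t - f 0)
        (g' := deriv f) (lam := 1) ?_ ?_ hi
      · exact ⟨le_rfl, fun t => (hd t).sub_const _, hdc, fun t => hasDerivAt_id' t,
          fun t => hasDerivAt_const t _, fun t => by ring, fun t _ ht => ht, rfl, one_ne_zero,
          by simp, by simp, fun t ht => by positivity⟩
      · exact ⟨le_rfl, fun t => (hd' t).sub_const _, hdc', fun t => hasDerivAt_id' t,
          fun t => hasDerivAt_const t _, fun t => by ring, fun t _ ht => ht, rfl, one_ne_zero,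
          by simp, by simp, fun t ht => by positivity⟩
    rwa [one_mul] at h
  · intro hev
    have hψ : ∀ t : ℝ, HasDerivAt (fun t : ℝ => t ^ 2 - 1) (2 * t) t := by
      intro t
      have := (hasDerivAt_pow 2 t).sub_const (1 : ℝ)
      simpa using this
    have hψ' : ∀ t : ℝ, HasDerivAt (fun t : ℝ => 2 * t) 2 t := by
      intro t
      have := (hasDerivAt_id' t).const_mul (2 : ℝ)
      simpa using this
    have hne : ∀ t : ℝ, 0 ≤ t → t ≠ 1 → t ^ 2 - 1 ≠ 0 := by
      intro t h0 h1 h2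
      have h3 : (t - 1) * (t + 1) = 0 := by linarith [h2, (by ring : (t - 1) * (t + 1) = t ^ 2 - 1)]
      rcases mul_eq_zero.1 h3 with h4 | h4
      · exact h1 (by linarith)
      · linarith
    have hpos : ∀ t : ℝ, 1 < t → 0 ≤ 2 * t / (t ^ 2 - 1) := by
      intro t ht
      have : 0 < t ^ 2 - 1 := by nlinarith
      positivity
    refine main hf hb (f 1) 2 zero_le_two fun hi => ?_
    refine whole (ψ := fun t => t ^ 2 - 1) (ψ' := fun t => 2 * t) (ψ'' := fun _ => 2) (z := 1) (g := fun t => f t - f 1)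
      (g' := deriv f) (lam := 2) ?_ ?_ hi
    · exact ⟨zero_le_one, fun t => (hd t).sub_const _, hdc, hψ, hψ', fun t => by ring, hne,
        by norm_num, by norm_num, by simp, by simp, hpos⟩
    · exact ⟨zero_le_one, fun t => (hd' t).sub_const _, hdc', hψ, hψ', fun t => by ring, hne,
        by norm_num, by norm_num, by simp [hev 1], by simp, hpos⟩

end Pool.Agent.Work.MP_408f4b_gt.Q
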