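import Pool.Agent.Work.MP_408f4b_gt.I.Upd
import Pool.Agent.Work.MP_408f4b_gt.Q.Stmts3

/-! MP_408f4b_gt, block Q, item EN: Gaussian Poincare inequality for even functions. -/

set_option autoImplicit false

namespace Pool.Agent.Work.MP_408f4b_gt.Q

open MeasureTheory ProbabilityTheory

namespace JEN

/-- partial derivative -/
noncomputable def pd {n : ℕ} (F : (Fin n → ℝ) → ℝ) (i : Fin n) (z : Fin n → ℝ) : ℝ :=
  fderiv ℝ F z (Pi.single i 1)

/-- the product Gaussian -/
noncomputable abbrev gm (n : ℕ) : Measure (Fin n → ℝ) :=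
  Measure.pi fun _ : Fin n => gaussianReal 0 1

theorem mp_neg : MeasurePreserving (fun t : ℝ => -t) (gaussianReal 0 1) (gaussianReal 0 1) := by
  refine ⟨measurable_neg, ?_⟩
  have h := gaussianReal_map_neg (μ := 0) (v := 1)
  rw [neg_zero] at h
  exact h

theorem flp_upd {n : ℕ} (i : Fin n) (z : Fin n → ℝ) (t : ℝ) :
    flp i (Function.update z i t) = Function.update z i (-t) := by
  unfold flp
  rw [Function.update_self, Function.update_idem]

theorem mp_flp {n : ℕ} (i : Fin n) : MeasurePreserving (flp i) (gm n) (gm n) := by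
  have h := measurePreserving_pi (fun _ : Fin n => gaussianReal 0 1)
    (fun _ : Fin n => gaussianReal 0 1)
    (f := fun j : Fin n => if j = i then (fun t : ℝ => -t) else (fun t : ℝ => t))
    (fun j => by
      by_cases h : j = i
      · simp only [if_pos h]
        exact mp_neg
      · simp only [if_neg h]
        exact MeasurePreserving.id _)
  have e : (fun (a : Fin n → ℝ) (j : Fin n) =>
      (if j = i then (fun t : ℝ => -t) else (fun t : ℝ => t)) (a j)) = flp i := by
    funext a j
    by_cases h : j = i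
    · subst h
      simp [flp]
    · simp [flp, h]
  rwa [e] at h

theorem flp_flp {n : ℕ} (i : Fin n) (z : Fin n → ℝ) : flp i (flp i z) = z := by
  unfold flp
  rw [Function.update_self, Function.update_idem, neg_neg, Function.update_eq_self]

theorem me_flp {n : ℕ} (i : Fin n) : MeasurableEmbedding (flp i) := by
  have hm : Measurable (flp i) := (mp_flp i).measurable
  exact (MeasurableEquiv.mk ⟨flp i, flp i, flp_flp i, flp_flp i⟩ hm hm).measurableEmbedding

theorem int_flp {n : ℕ} (i : Fin n) (g : (Fin n → ℝ) → ℝ) :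
    ∫ z, g (flp i z) ∂(gm n) = ∫ z, g z ∂(gm n) :=
  (mp_flp i).integral_comp (me_flp i) g

theorem integrable_flp {n : ℕ} (i : Fin n) (g : (Fin n → ℝ) → ℝ) (h : Integrable g (gm n)) :
    Integrable (fun z => g (flp i z)) (gm n) :=
  (mp_flp i).integrable_comp_of_integrable h

theorem hd_upd {n : ℕ} (F : (Fin n → ℝ) → ℝ) (hF : ContDiff ℝ 1 F) (i : Fin n)
    (z : Fin n → ℝ) (t : ℝ) :
    HasDerivAt (fun s => F (Function.update z i s)) (pd F i (Function.update z i t)) t := by
  have h1 : HasFDerivAt F (fderiv ℝ F (Function.update z i t)) (Function.update z i t) :=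
    (hF.differentiable (by norm_num)).differentiableAt.hasFDerivAt
  exact h1.comp_hasDerivAt t (hasDerivAt_update z i t)

theorem cd_flp {n : ℕ} (i : Fin n) : ContDiff ℝ 1 (flp i) := by
  rw [contDiff_pi]
  intro j
  by_cases h : j = i
  · subst h
    have e : (fun z : Fin n → ℝ => flp j z j) = fun z => -(z j) := by
      funext z
      simp [flp]
    rw [e]
    exact (contDiff_apply ℝ ℝ j).neg
  · have e : (fun z : Fin n → ℝ => flp i z j) = fun z => z j := by
      funext z
      simp [flp, h]
    rw [e]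
    exact contDiff_apply ℝ ℝ j

theorem pd_flp {n : ℕ} (F : (Fin n → ℝ) → ℝ) (hF : ContDiff ℝ 1 F) (i : Fin n)
    (z : Fin n → ℝ) : pd (fun z => F (flp i z)) i z = -pd F i (flp i z) := by
  have h1 := hd_upd (fun z => F (flp i z)) (hF.comp (cd_flp i)) i z (z i)
  rw [Function.update_eq_self] at h1
  have h2 : HasDerivAt (fun s => F (Function.update z i (-s)))
      (pd F i (Function.update z i (-(z i))) * (-1)) (z i) :=
    (hd_upd F hF i z (-(z i))).comp (z i) (hasDerivAt_neg (z i))
  have e : (fun s => F (flp i (Function.update z i s))) =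
      fun s => F (Function.update z i (-s)) := by
    funext s
    rw [flp_upd]
  have h3 := h1
  simp only [flp_upd] at h3
  have h4 := h3.unique h2
  rw [h4]
  unfold flp
  ring

theorem pd_cont {n : ℕ} (F : (Fin n → ℝ) → ℝ) (hF : ContDiff ℝ 1 F) (i : Fin n) :
    Continuous (pd F i) :=
  (hF.continuous_fderiv (by norm_num)).clm_apply continuous_const

/-- the odd part -/
noncomputable def Od {n : ℕ} (F : (Fin n → ℝ) → ℝ) (i : Fin n) (z : Fin n → ℝ) : ℝ :=
  (F z - F (flp i z)) / 2

/-- the derivative of the odd part -/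
noncomputable def Dd {n : ℕ} (F : (Fin n → ℝ) → ℝ) (i : Fin n) (z : Fin n → ℝ) : ℝ :=
  (pd F i z + pd F i (flp i z)) / 2

theorem od_hd {n : ℕ} (F : (Fin n → ℝ) → ℝ) (hF : ContDiff ℝ 1 F) (i : Fin n)
    (z : Fin n → ℝ) (t : ℝ) :
    HasDerivAt (fun s => Od F i (Function.update z i s)) (Dd F i (Function.update z i t)) t := by
  have h1 := hd_upd F hF i z t
  have h2 : HasDerivAt (fun s => F (Function.update z i (-s)))
      (pd F i (Function.update z i (-t)) * (-1)) t :=
    (hd_upd F hF i z (-t)).comp t (hasDerivAt_neg t)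
  have h3 := (h1.sub h2).div_const 2
  have e1 : (fun s => Od F i (Function.update z i s)) =
      fun s => (F (Function.update z i s) - F (Function.update z i (-s))) / 2 := by
    funext s
    unfold Od
    rw [flp_upd]
  have e2 : Dd F i (Function.update z i t) =
      (pd F i (Function.update z i t) - pd F i (Function.update z i (-t)) * (-1)) / 2 := by
    unfold Dd
    rw [flp_upd]
    ring
  rw [e1, e2]
  exact h3

theorem flp_cont {n : ℕ} (i : Fin n) : Continuous (flp i) := (cd_flp (n := n) i).continuous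

theorem Od_cont {n : ℕ} (F : (Fin n → ℝ) → ℝ) (hF : ContDiff ℝ 1 F) (i : Fin n) :
    Continuous (Od F i) :=
  (hF.continuous.sub (hF.continuous.comp (flp_cont i))).div_const 2

theorem Dd_cont {n : ℕ} (F : (Fin n → ℝ) → ℝ) (hF : ContDiff ℝ 1 F) (i : Fin n) :
    Continuous (Dd F i) :=
  ((pd_cont F hF i).add ((pd_cont F hF i).comp (flp_cont i))).div_const 2

theorem upd_cont {n : ℕ} (z : Fin n → ℝ) (i : Fin n) :
    Continuous (fun t : ℝ => Function.update z i t) :=
  continuous_const.update i continuous_id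

theorem one_dim (h1 : clE1) {n : ℕ} (F : (Fin n → ℝ) → ℝ) (C : ℝ) (hF : ContDiff ℝ 1 F)
    (i : Fin n) (hC : ∀ z, |pd F i z| ≤ C * (1 + ∑ j, |z j|)) (z : Fin n → ℝ) :
    ∫ t, Od F i (Function.update z i t) ^ 2 ∂(gaussianReal 0 1) ≤
      ∫ t, Dd F i (Function.update z i t) ^ 2 ∂(gaussianReal 0 1) := by
  have hd : deriv (fun s => Od F i (Function.update z i s)) =
      fun t => Dd F i (Function.update z i t) := by
    funext t
    exact (od_hd F hF i z t).deriv
  have hC0 : 0 ≤ C := by
    have h := hC 0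
    have h2 : (1 + ∑ j : Fin n, |(0 : Fin n → ℝ) j|) = 1 := by simp
    rw [h2, mul_one] at h
    exact (abs_nonneg _).trans h
  have hsum : ∀ t : ℝ, ∑ j, |Function.update z i t j| ≤ ∑ j, |z j| + |t| := by
    intro t
    have h3 : ∑ j, |Function.update z i t j| ≤ ∑ j, (|z j| + if j = i then |t| else 0) := by
      refine Finset.sum_le_sum fun j _ => ?_
      by_cases h : j = i
      · subst h
        rw [Function.update_self, if_pos rfl]
        linarith [abs_nonneg (z j)]
      · rw [Function.update_of_ne h, if_neg h, add_zero]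
    rw [Finset.sum_add_distrib, Finset.sum_ite_eq' Finset.univ i (fun _ => |t|),
      if_pos (Finset.mem_univ i)] at h3
    exact h3
  have hs0 : 0 ≤ ∑ j, |z j| := Finset.sum_nonneg fun j _ => abs_nonneg _
  have hb : ∀ t : ℝ, |pd F i (Function.update z i t)| ≤
      (C * (1 + ∑ j, |z j|)) * (1 + |t|) := by
    intro t
    refine (hC _).trans ?_
    have h4 := hsum t
    have h5 : 1 + ∑ j, |Function.update z i t j| ≤ (1 + ∑ j, |z j|) * (1 + |t|) := by
      nlinarith [abs_nonneg t, mul_nonneg hs0 (abs_nonneg t)]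
    calc C * (1 + ∑ j, |Function.update z i t j|)
        ≤ C * ((1 + ∑ j, |z j|) * (1 + |t|)) := mul_le_mul_of_nonneg_left h5 hC0
      _ = (C * (1 + ∑ j, |z j|)) * (1 + |t|) := by ring
  have hg : ContDiff ℝ 1 (fun s => Od F i (Function.update z i s)) := by
    rw [contDiff_one_iff_deriv]
    refine ⟨fun t => (od_hd F hF i z t).differentiableAt, ?_⟩
    rw [hd]
    exact (Dd_cont F hF i).comp (upd_cont z i)
  have hgr : ∀ t, |deriv (fun s => Od F i (Function.update z i s)) t| ≤
      (C * (1 + ∑ j, |z j|)) * (1 + |t|) := by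
    intro t
    rw [hd]
    show |(pd F i (Function.update z i t) + pd F i (flp i (Function.update z i t))) / 2| ≤ _
    rw [flp_upd]
    have h6 := hb t
    have h7 := hb (-t)
    rw [abs_neg] at h7
    rw [abs_div, abs_two]
    have h8 := abs_add_le (pd F i (Function.update z i t)) (pd F i (Function.update z i (-t)))
    linarith
  have h9 := (h1 _ _ hg hgr).1
  have hodd : ∫ t, Od F i (Function.update z i t) ∂(gaussianReal 0 1) = 0 := by
    have h10 : ∫ t, Od F i (Function.update z i (-t)) ∂(gaussianReal 0 1) =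
        ∫ t, Od F i (Function.update z i t) ∂(gaussianReal 0 1) :=
      mp_neg.integral_comp (MeasurableEquiv.neg ℝ).measurableEmbedding
        (fun t => Od F i (Function.update z i t))
    have h11 : (fun t : ℝ => Od F i (Function.update z i (-t))) =
        fun t => -Od F i (Function.update z i t) := by
      funext t
      unfold Od
      rw [flp_upd, flp_upd, neg_neg]
      ring
    rw [h11, integral_neg] at h10
    linarith
  rw [hodd, hd] at h9
  have e0 : ∀ a : ℝ, a - 0 ^ 2 = a := by intro a; ring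
  rw [e0] at h9
  exact h9

theorem resample {n : ℕ} (i : Fin n) (g : (Fin n → ℝ) → ℝ) (hg : Continuous g)
    (hi : Integrable g (gm n)) :
    Integrable (fun z => ∫ t, g (Function.update z i t) ∂(gaussianReal 0 1)) (gm n) ∧
    ∫ z, (∫ t, g (Function.update z i t) ∂(gaussianReal 0 1)) ∂(gm n) = ∫ z, g z ∂(gm n) := by
  have h := prfUpd n i (gaussianReal 0 1) inferInstance
  have h1 : Integrable (fun z : (Fin n → ℝ) × ℝ => g (Function.update z.1 i z.2))
      ((gm n).prod (gaussianReal 0 1)) := h.integrable_comp_of_integrable hi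
  refine ⟨h1.integral_prod_left, ?_⟩
  rw [← integral_prod (fun z : (Fin n → ℝ) × ℝ => g (Function.update z.1 i z.2)) h1]
  have h2 : Measure.map (fun z : (Fin n → ℝ) × ℝ => Function.update z.1 i z.2)
      ((gm n).prod (gaussianReal 0 1)) = gm n := h.map_eq
  conv_rhs => rw [← h2]
  rw [integral_map h.measurable.aemeasurable hg.aestronglyMeasurable]

theorem step (h1 : clE1) {n : ℕ} (F : (Fin n → ℝ) → ℝ) (C : ℝ) (hF : ContDiff ℝ 1 F)
    (i : Fin n) (hC : ∀ z, |pd F i z| ≤ C * (1 + ∑ j, |z j|))
    (hI : Integrable (fun z => F z ^ 2) (gm n)) (hD : Integrable (fun z => pd F i z ^ 2) (gm n)) :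
    ∫ z, ((F z - F (flp i z)) / 2) ^ 2 ∂(gm n) +
      ∫ z, (fderiv ℝ (fun z => (F z + F (flp i z)) / 2) z (Pi.single i 1)) ^ 2 ∂(gm n) ≤
      ∫ z, (fderiv ℝ F z (Pi.single i 1)) ^ 2 ∂(gm n) := by
  have hI' := integrable_flp i _ hI
  have hD' := integrable_flp i _ hD
  have hOd : Integrable (fun z => Od F i z ^ 2) (gm n) := by
    refine (hI.add hI').mono ((Od_cont F hF i).pow 2).aestronglyMeasurable
      (Filter.Eventually.of_forall fun z => ?_)
    show ‖((F z - F (flp i z)) / 2) ^ 2‖ ≤ ‖F z ^ 2 + F (flp i z) ^ 2‖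
    rw [Real.norm_of_nonneg (by positivity), Real.norm_of_nonneg (by positivity)]
    nlinarith [sq_nonneg (F z + F (flp i z)), sq_nonneg (F z), sq_nonneg (F (flp i z))]
  have hDd : Integrable (fun z => Dd F i z ^ 2) (gm n) := by
    refine (hD.add hD').mono ((Dd_cont F hF i).pow 2).aestronglyMeasurable
      (Filter.Eventually.of_forall fun z => ?_)
    show ‖((pd F i z + pd F i (flp i z)) / 2) ^ 2‖ ≤ ‖pd F i z ^ 2 + pd F i (flp i z) ^ 2‖
    rw [Real.norm_of_nonneg (by positivity), Real.norm_of_nonneg (by positivity)]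
    nlinarith [sq_nonneg (pd F i z - pd F i (flp i z)), sq_nonneg (pd F i z),
      sq_nonneg (pd F i (flp i z))]
  obtain ⟨a1, a2⟩ := resample i (fun z => Od F i z ^ 2) ((Od_cont F hF i).pow 2) hOd
  obtain ⟨b1, b2⟩ := resample i (fun z => Dd F i z ^ 2) ((Dd_cont F hF i).pow 2) hDd
  have h2 : ∫ z, Od F i z ^ 2 ∂(gm n) ≤ ∫ z, Dd F i z ^ 2 ∂(gm n) := by
    rw [← a2, ← b2]
    exact integral_mono a1 b1 (fun z => one_dim h1 F C hF i hC z)
  have h3 : ∀ z, fderiv ℝ (fun z => (F z + F (flp i z)) / 2) z (Pi.single i 1) =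
      (pd F i z - pd F i (flp i z)) / 2 := by
    intro z
    have hd1 : DifferentiableAt ℝ F z := (hF.differentiable (by norm_num)).differentiableAt
    have hd2 : DifferentiableAt ℝ (fun z => F (flp i z)) z :=
      ((hF.comp (cd_flp i)).differentiable (by norm_num)).differentiableAt
    have h4 : HasFDerivAt (fun z => (F z + F (flp i z)) / 2)
        ((1 / 2 : ℝ) • (fderiv ℝ F z + fderiv ℝ (fun z => F (flp i z)) z)) z := by
      have h5 := (hd1.hasFDerivAt.add hd2.hasFDerivAt).const_mul (1 / 2 : ℝ)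
      refine h5.congr_of_eventuallyEq (Filter.Eventually.of_forall fun w => ?_)
      show (F w + F (flp i w)) / 2 = 1 / 2 * (F w + F (flp i w))
      ring
    rw [h4.fderiv]
    have h6 := pd_flp F hF i z
    unfold pd at h6 ⊢
    simp only [smul_apply, add_apply, smul_eq_mul]
    rw [h6]
    ring
  have h7 : ∫ z, (fderiv ℝ (fun z => (F z + F (flp i z)) / 2) z (Pi.single i 1)) ^ 2 ∂(gm n) +
      ∫ z, Dd F i z ^ 2 ∂(gm n) = ∫ z, pd F i z ^ 2 ∂(gm n) := by
    have hEd : Integrable (fun z => ((pd F i z - pd F i (flp i z)) / 2) ^ 2) (gm n) := by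
      refine (hD.add hD').mono ((((pd_cont F hF i).sub
        ((pd_cont F hF i).comp (flp_cont i))).div_const 2).pow 2).aestronglyMeasurable
        (Filter.Eventually.of_forall fun z => ?_)
      show ‖((pd F i z - pd F i (flp i z)) / 2) ^ 2‖ ≤ ‖pd F i z ^ 2 + pd F i (flp i z) ^ 2‖
      rw [Real.norm_of_nonneg (by positivity), Real.norm_of_nonneg (by positivity)]
      nlinarith [sq_nonneg (pd F i z + pd F i (flp i z)), sq_nonneg (pd F i z),
        sq_nonneg (pd F i (flp i z))]
    simp only [h3]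
    rw [← integral_add hEd hDd]
    have h8 : (fun z => ((pd F i z - pd F i (flp i z)) / 2) ^ 2 + Dd F i z ^ 2) =
        fun z => (1 / 2 : ℝ) * (pd F i z ^ 2 + pd F i (flp i z) ^ 2) := by
      funext z
      unfold Dd
      ring
    rw [h8, integral_const_mul, integral_add hD hD', int_flp i (fun z => pd F i z ^ 2)]
    ring
  have h9 : ∫ z, ((F z - F (flp i z)) / 2) ^ 2 ∂(gm n) = ∫ z, Od F i z ^ 2 ∂(gm n) := rfl
  have h10 : ∫ z, (fderiv ℝ F z (Pi.single i 1)) ^ 2 ∂(gm n) = ∫ z, pd F i z ^ 2 ∂(gm n) := rfl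
  rw [h9, h10, ← h7]
  linarith

end JEN

open JEN in
theorem prfEN (h1 : clE1) (hA : clENa) (hB : clENb) : clEN := by
  intro n F C hF hev hC
  obtain ⟨hI, hD, hA3⟩ := hA n F C hF hev hC
  obtain ⟨hB1, hB2⟩ := hB n F C hF hC
  have h3 := Finset.sum_le_sum fun (i : Fin n) (_ : i ∈ Finset.univ) =>
    step h1 F C hF i (fun z => hC z i) hI (hD i)
  rw [Finset.sum_add_distrib] at h3
  rw [hB1] at hB2
  linarith

end Pool.Agent.Work.MP_408f4b_gt.Q
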