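import Pool.Agent.Work.MP_408f4b_gt.Q.Stmts3

set_option autoImplicit false

/-! Item ENa: fluctuation with respect to the signs. -/

namespace Pool.Agent.Work.MP_408f4b_gt.Q

open MeasureTheory ProbabilityTheory

namespace JENa

/-- the standard Gaussian measure -/
noncomputable abbrev gm (n : ℕ) : Measure (Fin n → ℝ) :=
  Measure.pi fun _ : Fin n => gaussianReal 0 1

theorem int_one (m : ℕ) : Integrable (fun t : ℝ => (1 + |t|) ^ m) (gaussianReal 0 1) := by
  have h1 : MemLp (fun _ : ℝ => (1 : ℝ)) m (gaussianReal 0 1) := memLp_const 1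
  have h2 : MemLp (fun t : ℝ => |t|) m (gaussianReal 0 1) :=
    (memLp_id_gaussianReal' (μ := 0) (v := 1) (m : ENNReal) (ENNReal.natCast_ne_top m)).norm
  have h3 := (h1.add h2).integrable_norm_pow'
  refine h3.congr (Filter.Eventually.of_forall fun t => ?_)
  have h4 : (0 : ℝ) ≤ 1 + |t| := by positivity
  simp only [Pi.add_apply, Real.norm_eq_abs]
  rw [abs_of_nonneg h4]

theorem int_prod (n m : ℕ) : Integrable (fun z : Fin n → ℝ => ∏ i, (1 + |z i|) ^ m) (gm n) :=
  Integrable.fintype_prod (f := fun _ t => (1 + |t|) ^ m) fun _ => int_one m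

theorem sum_le_prod_aux {n : ℕ} (z : Fin n → ℝ) (s : Finset (Fin n)) :
    1 + ∑ j ∈ s, |z j| ≤ ∏ i ∈ s, (1 + |z i|) := by
  induction s using Finset.induction_on with
  | empty => simp
  | insert a s ha ih =>
    rw [Finset.sum_insert ha, Finset.prod_insert ha]
    have h1 : 0 ≤ |z a| := abs_nonneg _
    have h2 : 0 ≤ ∑ j ∈ s, |z j| := Finset.sum_nonneg fun _ _ => abs_nonneg _
    calc 1 + (|z a| + ∑ j ∈ s, |z j|) ≤ (1 + |z a|) * (1 + ∑ j ∈ s, |z j|) := by
          nlinarith [mul_nonneg h1 h2]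
      _ ≤ (1 + |z a|) * ∏ i ∈ s, (1 + |z i|) :=
          mul_le_mul_of_nonneg_left ih (by linarith)

theorem sum_le_prod (n : ℕ) (z : Fin n → ℝ) : 1 + ∑ j, |z j| ≤ ∏ i, (1 + |z i|) :=
  sum_le_prod_aux z Finset.univ

/-- continuous functions of polynomial growth are integrable -/
theorem int_of_bound {n : ℕ} {G : (Fin n → ℝ) → ℝ} (hG : Continuous G) (K : ℝ) (m : ℕ)
    (h : ∀ z, |G z| ≤ K * (1 + ∑ j, |z j|) ^ m) : Integrable G (gm n) := by
  have h1 : Integrable (fun z : Fin n → ℝ => |K| * ∏ i, (1 + |z i|) ^ m) (gm n) :=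
    (int_prod n m).const_mul _
  refine h1.mono' hG.aestronglyMeasurable (Filter.Eventually.of_forall fun z => ?_)
  have h0 : 0 ≤ 1 + ∑ j, |z j| := by positivity
  rw [Real.norm_eq_abs]
  calc |G z| ≤ K * (1 + ∑ j, |z j|) ^ m := h z
    _ ≤ |K| * (1 + ∑ j, |z j|) ^ m :=
        mul_le_mul_of_nonneg_right (le_abs_self K) (pow_nonneg h0 _)
    _ ≤ |K| * (∏ i, (1 + |z i|)) ^ m :=
        mul_le_mul_of_nonneg_left (pow_le_pow_left₀ h0 (sum_le_prod n z) m) (abs_nonneg K)
    _ = |K| * ∏ i, (1 + |z i|) ^ m := by rw [Finset.prod_pow]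

/-- the Gaussian measure is invariant under changes of signs -/
theorem mp_sg {n : ℕ} (ε : Fin n → Bool) : MeasurePreserving (sg ε) (gm n) (gm n) := by
  have h : ∀ i : Fin n, MeasurePreserving (fun t : ℝ => if ε i then t else -t)
      (gaussianReal 0 1) (gaussianReal 0 1) := by
    intro i
    cases hi : ε i with
    | true =>
      have := MeasurePreserving.id (gaussianReal 0 1)
      simp only [if_true]
      exact this
    | false =>
      have h1 : MeasurePreserving (fun t : ℝ => -t) (gaussianReal 0 1) (gaussianReal 0 1) := by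
        refine ⟨measurable_neg, ?_⟩
        have := gaussianReal_map_neg (μ := 0) (v := 1)
        simpa using this
      simpa using h1
  exact measurePreserving_pi (fun _ => gaussianReal 0 1) (fun _ => gaussianReal 0 1) h

theorem abs_sg {n : ℕ} (ε : Fin n → Bool) (z : Fin n → ℝ) (j : Fin n) :
    |sg ε z j| = |z j| := by
  unfold sg
  split_ifs
  · rfl
  · exact abs_neg _

theorem abs_flp {n : ℕ} (i : Fin n) (z : Fin n → ℝ) (j : Fin n) :
    |flp i z j| = |z j| := by
  unfold flp
  by_cases h : j = i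
  · subst h
    rw [Function.update_self, abs_neg]
  · rw [Function.update_of_ne h]

theorem cont_sg {n : ℕ} (ε : Fin n → Bool) : Continuous (sg ε) := by
  refine continuous_pi fun i => ?_
  unfold sg
  split_ifs
  · exact continuous_apply i
  · exact (continuous_apply i).neg

theorem cont_flp {n : ℕ} (i : Fin n) : Continuous (flp i) := by
  refine continuous_pi fun j => ?_
  unfold flp
  by_cases h : j = i
  · subst h
    simp only [Function.update_self]
    exact (continuous_apply j).neg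
  · simp only [Function.update_of_ne h]
    exact continuous_apply j

theorem sg_not {n : ℕ} (ε : Fin n → Bool) (z : Fin n → ℝ) :
    sg (fun i => !(ε i)) z = -(sg ε z) := by
  funext i
  unfold sg
  cases h : ε i <;> simp [h]

theorem sg_update {n : ℕ} (ε : Fin n → Bool) (i : Fin n) (z : Fin n → ℝ) :
    sg (Function.update ε i (!(ε i))) z = flp i (sg ε z) := by
  funext j
  unfold flp
  by_cases h : j = i
  · subst h
    rw [Function.update_self]
    unfold sg
    cases h : ε j <;> simp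
  · rw [Function.update_of_ne h]
    unfold sg
    rw [Function.update_of_ne h]

/-- functions with derivative of linear growth have quadratic growth -/
theorem growth {n : ℕ} {F : (Fin n → ℝ) → ℝ} {C : ℝ} (hF : ContDiff ℝ 1 F)
    (hb : ∀ z i, |fderiv ℝ F z (Pi.single i 1)| ≤ C * (1 + ∑ j, |z j|)) (z : Fin n → ℝ) :
    |F z| ≤ (|F 0| + |C|) * (1 + ∑ j, |z j|) ^ 2 := by
  set S : ℝ := ∑ j, |z j| with hS
  have hS0 : 0 ≤ S := by positivity
  have hd : Differentiable ℝ F := hF.differentiable (by norm_num)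
  have key : ‖F ((1 : ℝ) • z) - F ((0 : ℝ) • z)‖ ≤ S * (|C| * (1 + S)) := by
    refine norm_image_sub_le_of_norm_deriv_le_segment_01' (f := fun t : ℝ => F (t • z))
      (f' := fun t : ℝ => fderiv ℝ F (t • z) z) (fun t _ => ?_) (fun t ht => ?_)
    · have h1 : HasDerivAt (fun t : ℝ => t • z) z t := by
        simpa using (hasDerivAt_id t).smul_const z
      exact ((hd (t • z)).hasFDerivAt.comp_hasDerivAt t h1).hasDerivWithinAt
    · have h2 : fderiv ℝ F (t • z) z = ∑ i, z i * fderiv ℝ F (t • z) (Pi.single i 1) := by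
        have h4 : fderiv ℝ F (t • z) z =
            fderiv ℝ F (t • z) (∑ i, Pi.single i (z i) : Fin n → ℝ) := by
          rw [Finset.univ_sum_single z]
        rw [h4, map_sum]
        refine Finset.sum_congr rfl fun i _ => ?_
        have h3 : (Pi.single i (z i) : Fin n → ℝ) = z i • Pi.single i (1 : ℝ) := by
          rw [← Pi.single_smul, smul_eq_mul, mul_one]
        rw [h3, map_smul, smul_eq_mul]
      rw [h2, Real.norm_eq_abs]
      calc |∑ i, z i * fderiv ℝ F (t • z) (Pi.single i 1)|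
          ≤ ∑ i, |z i * fderiv ℝ F (t • z) (Pi.single i 1)| := Finset.abs_sum_le_sum_abs _ _
        _ ≤ ∑ i, |z i| * (|C| * (1 + S)) := by
            refine Finset.sum_le_sum fun i _ => ?_
            rw [abs_mul]
            refine mul_le_mul_of_nonneg_left ?_ (abs_nonneg _)
            have h5 : ∑ j, |(t • z) j| ≤ S := by
              rw [hS]
              refine Finset.sum_le_sum fun j _ => ?_
              rw [Pi.smul_apply, smul_eq_mul, abs_mul, abs_of_nonneg ht.1]
              exact mul_le_of_le_one_left (abs_nonneg _) ht.2.le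
            have h6 : 0 ≤ 1 + ∑ j, |(t • z) j| := by positivity
            calc |fderiv ℝ F (t • z) (Pi.single i 1)|
                ≤ C * (1 + ∑ j, |(t • z) j|) := hb _ _
              _ ≤ |C| * (1 + ∑ j, |(t • z) j|) :=
                  mul_le_mul_of_nonneg_right (le_abs_self C) h6
              _ ≤ |C| * (1 + S) :=
                  mul_le_mul_of_nonneg_left (by linarith) (abs_nonneg C)
        _ = S * (|C| * (1 + S)) := by
            rw [hS, Finset.sum_mul]
  rw [one_smul, zero_smul, Real.norm_eq_abs] at key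
  have h7 : |F z| ≤ |F 0| + S * (|C| * (1 + S)) := by
    have := abs_sub_abs_le_abs_sub (F z) (F 0)
    linarith
  have h8 : |F 0| ≤ |F 0| * (1 + S) ^ 2 := by
    have h9 : (1 : ℝ) ≤ (1 + S) ^ 2 := one_le_pow₀ (by linarith)
    exact le_mul_of_one_le_right (abs_nonneg _) h9
  have h10 : S * (|C| * (1 + S)) ≤ |C| * (1 + S) ^ 2 := by
    have h11 : 0 ≤ |C| * (1 + S) := by positivity
    nlinarith
  calc |F z| ≤ |F 0| + S * (|C| * (1 + S)) := h7
    _ ≤ |F 0| * (1 + S) ^ 2 + |C| * (1 + S) ^ 2 := add_le_add h8 h10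
    _ = (|F 0| + |C|) * (1 + S) ^ 2 := by ring

theorem sq_bound {n : ℕ} {G : (Fin n → ℝ) → ℝ} {K : ℝ} {m : ℕ}
    (h : ∀ z, |G z| ≤ K * (1 + ∑ j, |z j|) ^ m) (z : Fin n → ℝ) :
    |G z ^ 2| ≤ K ^ 2 * (1 + ∑ j, |z j|) ^ (m * 2) := by
  rw [abs_pow, pow_mul, ← mul_pow]
  exact pow_le_pow_left₀ (abs_nonneg _) (h z) 2

end JENa

open JENa

theorem prfENa (h1 : clE1) (hC : clCube) : clENa := by
  clear h1
  intro n F C hF heven hb
  have hFc : Continuous F := hF.continuous
  have hgr := growth hF hb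
  obtain ⟨K, hK⟩ : ∃ K, K = |F 0| + |C| := ⟨_, rfl⟩
  rw [← hK] at hgr
  have iF : Integrable (fun z => F z ^ 2) (gm n) :=
    int_of_bound (hFc.pow 2) _ _ (sq_bound hgr)
  have iD : ∀ i, Integrable (fun z => fderiv ℝ F z (Pi.single i 1) ^ 2) (gm n) := by
    intro i
    have hc : Continuous (fun z => fderiv ℝ F z (Pi.single i 1)) :=
      (hF.continuous_fderiv (by norm_num)).clm_apply continuous_const
    exact int_of_bound (hc.pow 2) _ _ (sq_bound (m := 1) fun z => by
      rw [pow_one]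
      exact hb z i)
  refine ⟨iF, iD, ?_⟩
  -- integrability of the other functions
  have habs : ∀ ε : Fin n → Bool, ∀ z : Fin n → ℝ, ∑ j, |sg ε z j| = ∑ j, |z j| :=
    fun ε z => Finset.sum_congr rfl fun j _ => abs_sg ε z j
  have habs' : ∀ (i : Fin n) (z : Fin n → ℝ), ∑ j, |flp i z j| = ∑ j, |z j| :=
    fun i z => Finset.sum_congr rfl fun j _ => abs_flp i z j
  have iE : ∀ i, Integrable (fun z => (F z - F (flp i z)) ^ 2) (gm n) := by
    intro i
    refine int_of_bound ((hFc.sub (hFc.comp (cont_flp i))).pow 2) ((K + K) ^ 2) (2 * 2)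
      (sq_bound fun z => ?_)
    have e1 := hgr z
    have e2 := hgr (flp i z)
    rw [habs'] at e2
    calc |F z - F (flp i z)| ≤ |F z| + |F (flp i z)| := abs_sub _ _
      _ ≤ K * (1 + ∑ j, |z j|) ^ 2 + K * (1 + ∑ j, |z j|) ^ 2 := add_le_add e1 e2
      _ = (K + K) * (1 + ∑ j, |z j|) ^ 2 := by ring
  have i2 : (0 : ℝ) < 2 ^ n := by positivity
  have cG : Continuous (Gb F) := by
    unfold Gb
    exact (continuous_finsetSum _ fun ε _ => hFc.comp (cont_sg ε)).div_const _
  have iG : Integrable (fun z => Gb F z ^ 2) (gm n) := by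
    refine int_of_bound (cG.pow 2) (K ^ 2) (2 * 2) (sq_bound fun z => ?_)
    unfold Gb
    rw [abs_div, abs_of_pos i2, div_le_iff₀ i2]
    calc |∑ ε : Fin n → Bool, F (sg ε z)| ≤ ∑ ε : Fin n → Bool, |F (sg ε z)| :=
          Finset.abs_sum_le_sum_abs _ _
      _ ≤ ∑ _ε : Fin n → Bool, K * (1 + ∑ j, |z j|) ^ 2 := by
          refine Finset.sum_le_sum fun ε _ => ?_
          have := hgr (sg ε z)
          rwa [habs] at this
      _ = K * (1 + ∑ j, |z j|) ^ 2 * 2 ^ n := by
          rw [Finset.sum_const, nsmul_eq_mul, Finset.card_univ, Fintype.card_fun,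
            Fintype.card_bool, Fintype.card_fin]
          push_cast
          ring
  -- the pointwise inequality
  have hpt : ∀ z : Fin n → ℝ,
      8 * (∑ ε : Fin n → Bool, F (sg ε z) ^ 2 - 2 ^ n * Gb F z ^ 2) ≤
        ∑ i, ∑ ε : Fin n → Bool, (F (sg ε z) - F (flp i (sg ε z))) ^ 2 := by
    intro z
    have h := hC n (fun ε => F (sg ε z)) (fun ε => by
      change F (sg (fun i => !(ε i)) z) = F (sg ε z)
      rw [sg_not, heven])
    simp only [sg_update] at h
    have e : (∑ ε : Fin n → Bool, F (sg ε z)) ^ 2 / 2 ^ n = 2 ^ n * Gb F z ^ 2 := by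
      unfold Gb
      field_simp
    rwa [e] at h
  -- integrals over the sign changes
  have tF : ∀ ε : Fin n → Bool, Integrable (fun z => F (sg ε z) ^ 2) (gm n) ∧
      ∫ z, F (sg ε z) ^ 2 ∂(gm n) = ∫ z, F z ^ 2 ∂(gm n) := by
    intro ε
    refine ⟨(mp_sg ε).integrable_comp_of_integrable iF, ?_⟩
    have h := integral_map (μ := gm n) (φ := sg ε) (cont_sg ε).aemeasurable
      (f := fun z => F z ^ 2) (hFc.pow 2).aestronglyMeasurable
    rw [(mp_sg ε).map_eq] at h
    exact h.symm
  have tE : ∀ (i : Fin n) (ε : Fin n → Bool),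
      Integrable (fun z => (F (sg ε z) - F (flp i (sg ε z))) ^ 2) (gm n) ∧
      ∫ z, (F (sg ε z) - F (flp i (sg ε z))) ^ 2 ∂(gm n) =
        ∫ z, (F z - F (flp i z)) ^ 2 ∂(gm n) := by
    intro i ε
    refine ⟨(mp_sg ε).integrable_comp_of_integrable (iE i), ?_⟩
    have h := integral_map (μ := gm n) (φ := sg ε) (cont_sg ε).aemeasurable
      (f := fun z => (F z - F (flp i z)) ^ 2)
      ((hFc.sub (hFc.comp (cont_flp i))).pow 2).aestronglyMeasurable
    rw [(mp_sg ε).map_eq] at h
    exact h.symm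
  have hcard : ((Finset.univ : Finset (Fin n → Bool)).card : ℝ) = 2 ^ n := by
    rw [Finset.card_univ, Fintype.card_fun, Fintype.card_bool, Fintype.card_fin]
    push_cast
    rfl
  have hL : ∫ z, 8 * (∑ ε : Fin n → Bool, F (sg ε z) ^ 2 - 2 ^ n * Gb F z ^ 2) ∂(gm n) =
      8 * (2 ^ n * ∫ z, F z ^ 2 ∂(gm n) - 2 ^ n * ∫ z, Gb F z ^ 2 ∂(gm n)) := by
    rw [integral_const_mul, integral_sub (integrable_finsetSum _ fun ε _ => (tF ε).1)
      (iG.const_mul _), integral_const_mul, integral_finsetSum _ fun ε _ => (tF ε).1,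
      Finset.sum_congr rfl fun ε _ => (tF ε).2, Finset.sum_const, nsmul_eq_mul, hcard]
  have hR : ∫ z, ∑ i, ∑ ε : Fin n → Bool, (F (sg ε z) - F (flp i (sg ε z))) ^ 2 ∂(gm n) =
      ∑ i, 2 ^ n * ∫ z, (F z - F (flp i z)) ^ 2 ∂(gm n) := by
    rw [integral_finsetSum _ fun i _ => integrable_finsetSum _ fun ε _ => (tE i ε).1]
    refine Finset.sum_congr rfl fun i _ => ?_
    rw [integral_finsetSum _ fun ε _ => (tE i ε).1,
      Finset.sum_congr rfl fun ε _ => (tE i ε).2, Finset.sum_const, nsmul_eq_mul, hcard]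
  have hint : ∫ z, 8 * (∑ ε : Fin n → Bool, F (sg ε z) ^ 2 - 2 ^ n * Gb F z ^ 2) ∂(gm n) ≤
      ∫ z, ∑ i, ∑ ε : Fin n → Bool, (F (sg ε z) - F (flp i (sg ε z))) ^ 2 ∂(gm n) :=
    integral_mono
      (((integrable_finsetSum _ fun ε _ => (tF ε).1).sub (iG.const_mul _)).const_mul 8)
      (integrable_finsetSum _ fun i _ => integrable_finsetSum _ fun ε _ => (tE i ε).1) hpt
  rw [hL, hR] at hint
  have hq : ∀ i : Fin n, ∫ z, ((F z - F (flp i z)) / 2) ^ 2 ∂(gm n) =
      (∫ z, (F z - F (flp i z)) ^ 2 ∂(gm n)) / 4 := by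
    intro i
    rw [← integral_div]
    refine integral_congr_ae (Filter.Eventually.of_forall fun z => ?_)
    simp only
    ring
  rw [Finset.sum_congr rfl fun i _ => hq i, ← Finset.sum_div]
  rw [← Finset.mul_sum, ← mul_sub, ← mul_assoc, mul_comm (8 : ℝ), mul_assoc] at hint
  have := le_of_mul_le_mul_left hint i2
  linarith

end Pool.Agent.Work.MP_408f4b_gt.Q
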