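import Pool.Agent.Work.MP_408f4b_gt.I.ES
import Pool.Agent.Work.MP_408f4b_gt.I.Upd
import Pool.Agent.Work.MP_408f4b_gt.Q.Stmts3

/-!
# Gaussian Poincare inequality, second part: the average over the changes of signs
-/

set_option autoImplicit false

namespace Pool.Agent.Work.MP_408f4b_gt.Q

open MeasureTheory Set Filter Topology ProbabilityTheory

namespace JENb

/-! ### The weight -/

/-- The weight. -/
noncomputable def gr {n : ℕ} (z : Fin n → ℝ) : ℝ := 1 + ∑ j, |z j|

/-- The Gaussian measure. -/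
noncomputable abbrev gm (n : ℕ) : Measure (Fin n → ℝ) := Measure.pi fun _ : Fin n => gaussianReal 0 1

theorem one_le_gr {n : ℕ} (z : Fin n → ℝ) : 1 ≤ gr z := by
  unfold gr
  have h : 0 ≤ ∑ j, |z j| := Finset.sum_nonneg fun j _ => abs_nonneg _
  linarith

theorem norm_le_gr {n : ℕ} (z : Fin n → ℝ) : ‖z‖ ≤ gr z := by
  rw [pi_norm_le_iff_of_nonneg (by linarith [one_le_gr z])]
  intro j
  rw [Real.norm_eq_abs]
  have h : |z j| ≤ ∑ k, |z k| :=
    Finset.single_le_sum (f := fun k => |z k|) (fun k _ => abs_nonneg _) (Finset.mem_univ j)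
  unfold gr
  linarith

theorem gr_sg {n : ℕ} (ε : Fin n → Bool) (z : Fin n → ℝ) : gr (sg ε z) = gr z := by
  unfold gr sg
  congr 1
  refine Finset.sum_congr rfl fun j _ => ?_
  split_ifs
  · rfl
  · exact abs_neg _

theorem gr_smul {n : ℕ} (z : Fin n → ℝ) {s : ℝ} (h0 : 0 ≤ s) (h1 : s ≤ 1) :
    gr (s • z) ≤ gr z := by
  unfold gr
  have h : ∑ j, |(s • z) j| ≤ ∑ j, |z j| := by
    refine Finset.sum_le_sum fun j _ => ?_
    rw [Pi.smul_apply, smul_eq_mul, abs_mul, abs_of_nonneg h0]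
    exact mul_le_of_le_one_left (abs_nonneg _) h1
  linarith

theorem gr_upd {n : ℕ} (z : Fin n → ℝ) (i : Fin n) (t : ℝ) :
    gr (Function.update z i t) ≤ gr z * (1 + |t|) := by
  have h : ∑ j, |Function.update z i t j| ≤ ∑ j, |z j| + |t| := by
    have h1 : ∑ j, |Function.update z i t j| ≤ ∑ j, (|z j| + if j = i then |t| else 0) := by
      refine Finset.sum_le_sum fun j _ => ?_
      by_cases hj : j = i
      · subst hj
        rw [Function.update_self, if_pos rfl]
        linarith [abs_nonneg (z j)]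
      · rw [Function.update_of_ne hj, if_neg hj, add_zero]
    refine h1.trans (le_of_eq ?_)
    rw [Finset.sum_add_distrib, Finset.sum_ite_eq' Finset.univ i, if_pos (Finset.mem_univ i)]
  have h2 := one_le_gr z
  have h3 : |t| ≤ gr z * |t| := le_mul_of_one_le_left (abs_nonneg _) h2
  unfold gr at *
  linarith

theorem meas_gr (n : ℕ) : Continuous (gr : (Fin n → ℝ) → ℝ) := by
  unfold gr
  fun_prop

theorem memLp_coord {n : ℕ} (i : Fin n) (k : ℕ) :
    MemLp (fun z : Fin n → ℝ => |z i|) k (gm n) := by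
  have h1 : MemLp (id : ℝ → ℝ) (k : ENNReal) (gaussianReal 0 1) := by
    have h := memLp_id_gaussianReal (μ := 0) (v := 1) (k : NNReal)
    simpa using h
  have h2 : MeasurePreserving (fun z : Fin n → ℝ => z i) (gm n) (gaussianReal 0 1) :=
    measurePreserving_eval (fun _ : Fin n => gaussianReal 0 1) i
  have h3 : MemLp ((id : ℝ → ℝ) ∘ fun z : Fin n → ℝ => z i) (k : ENNReal) (gm n) :=
    h1.comp_measurePreserving h2
  exact h3.norm

theorem memLp_gr (n k : ℕ) : MemLp (gr : (Fin n → ℝ) → ℝ) k (gm n) := by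
  have h1 : MemLp (fun z : Fin n → ℝ => ∑ j, |z j|) (k : ENNReal) (gm n) :=
    memLp_finsetSum _ fun j _ => memLp_coord j k
  exact (memLp_const (1 : ℝ)).add h1

theorem int_gr (n k : ℕ) : Integrable (fun z : Fin n → ℝ => gr z ^ k) (gm n) := by
  have h := (memLp_gr n k).integrable_norm_pow'
  refine h.congr (Eventually.of_forall fun z => ?_)
  show ‖gr z‖ ^ k = gr z ^ k
  rw [Real.norm_of_nonneg (by linarith [one_le_gr z])]

/-! ### Changes of signs -/

/-- The change of signs as a continuous linear map. -/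
noncomputable def sgL {n : ℕ} (ε : Fin n → Bool) : (Fin n → ℝ) →L[ℝ] (Fin n → ℝ) :=
  ContinuousLinearMap.pi fun i =>
    if ε i then ContinuousLinearMap.proj i else -ContinuousLinearMap.proj i

theorem sgL_apply {n : ℕ} (ε : Fin n → Bool) (z : Fin n → ℝ) : sgL ε z = sg ε z := by
  funext i
  unfold sgL sg
  rw [ContinuousLinearMap.pi_apply]
  split_ifs
  · rfl
  · rfl

theorem sg_single {n : ℕ} (ε : Fin n → Bool) (i : Fin n) :
    sg ε (Pi.single i (1 : ℝ)) = (if ε i then (1 : ℝ) else -1) • (Pi.single i (1 : ℝ)) := by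
  funext j
  unfold sg
  rw [Pi.smul_apply, smul_eq_mul]
  by_cases hj : j = i
  · subst hj
    rw [Pi.single_eq_same]
    split_ifs <;> norm_num
  · rw [Pi.single_eq_of_ne hj]
    split_ifs <;> norm_num

/-- The signs for the change of one coordinate. -/
def one {n : ℕ} (i : Fin n) : Fin n → Bool := Function.update (fun _ => true) i false

theorem sg_one {n : ℕ} (i : Fin n) (z : Fin n → ℝ) : sg (one i) z = flp i z := by
  funext j
  unfold sg one flp
  by_cases hj : j = i
  · subst hj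
    rw [Function.update_self, Function.update_self]
    rfl
  · rw [Function.update_of_ne hj, Function.update_of_ne hj]
    rfl

theorem mp_sg {n : ℕ} (ε : Fin n → Bool) : MeasurePreserving (sg ε) (gm n) (gm n) := by
  have h : ∀ i : Fin n, MeasurePreserving (fun t : ℝ => if ε i then t else -t)
      (gaussianReal 0 1) (gaussianReal 0 1) := by
    intro i
    by_cases hi : ε i = true
    · simp only [hi, if_true]
      exact MeasurePreserving.id _
    · simp only [hi]
      refine ⟨measurable_neg, ?_⟩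
      have h := gaussianReal_map_neg (μ := 0) (v := 1)
      rw [neg_zero] at h
      exact h
  exact measurePreserving_pi (fun _ : Fin n => gaussianReal 0 1)
    (fun _ : Fin n => gaussianReal 0 1) h

theorem cont_sg {n : ℕ} (ε : Fin n → Bool) : Continuous (sg ε) := by
  have h := (sgL ε).continuous
  have e : (⇑(sgL ε) : (Fin n → ℝ) → (Fin n → ℝ)) = sg ε := funext (sgL_apply ε)
  rwa [e] at h

theorem int_sg {n : ℕ} (ε : Fin n → Bool) {f : (Fin n → ℝ) → ℝ} (hf : Continuous f) :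
    ∫ z, f (sg ε z) ∂(gm n) = ∫ z, f z ∂(gm n) := by
  have h := (mp_sg ε).map_eq
  have h2 := integral_map (μ := gm n) (cont_sg ε).measurable.aemeasurable
    (f := f) hf.aestronglyMeasurable
  rw [h] at h2
  exact h2.symm

theorem integrable_sg {n : ℕ} (ε : Fin n → Bool) {f : (Fin n → ℝ) → ℝ}
    (hf : Integrable f (gm n)) : Integrable (fun z => f (sg ε z)) (gm n) :=
  (mp_sg ε).integrable_comp_of_integrable hf

theorem fderiv_sg {n : ℕ} (ε : Fin n → Bool) {F : (Fin n → ℝ) → ℝ} (hF : ContDiff ℝ 1 F)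
    (z : Fin n → ℝ) :
    HasFDerivAt (fun z => F (sg ε z)) ((fderiv ℝ F (sg ε z)).comp (sgL ε)) z := by
  have h1 : HasFDerivAt F (fderiv ℝ F (sg ε z)) (sg ε z) :=
    (hF.differentiable one_ne_zero _).hasFDerivAt
  have h2 : HasFDerivAt (sg ε) (sgL ε) z := by
    have h := (sgL ε).hasFDerivAt (x := z)
    have e : (⇑(sgL ε) : (Fin n → ℝ) → (Fin n → ℝ)) = sg ε := funext (sgL_apply ε)
    rwa [e] at h
  exact h1.comp z h2

theorem cd_sg {n : ℕ} (ε : Fin n → Bool) {F : (Fin n → ℝ) → ℝ} (hF : ContDiff ℝ 1 F) :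
    ContDiff ℝ 1 (fun z => F (sg ε z)) := by
  have h := hF.comp (sgL ε).contDiff
  have e : F ∘ (sgL ε) = fun z => F (sg ε z) := by
    funext z
    show F (sgL ε z) = F (sg ε z)
    rw [sgL_apply]
  rwa [e] at h

/-! ### Growth -/

/-- Continuously differentiable functions with partial derivatives of linear growth. -/
def Good {n : ℕ} (C : ℝ) (F : (Fin n → ℝ) → ℝ) : Prop :=
  ContDiff ℝ 1 F ∧ ∀ z i, |fderiv ℝ F z (Pi.single i 1)| ≤ C * gr z

theorem norm_fderiv_le {n : ℕ} {C : ℝ} {F : (Fin n → ℝ) → ℝ} (hC : 0 ≤ C) (hF : Good C F)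
    (z : Fin n → ℝ) : ‖fderiv ℝ F z‖ ≤ n * C * gr z := by
  have hg := one_le_gr z
  refine ContinuousLinearMap.opNorm_le_bound _ (by positivity) fun v => ?_
  have h1 : fderiv ℝ F z v = ∑ i, v i * fderiv ℝ F z (Pi.single i 1) := by
    conv_lhs => rw [← Finset.univ_sum_single v]
    rw [map_sum]
    refine Finset.sum_congr rfl fun i _ => ?_
    have h2 : (Pi.single i (v i) : Fin n → ℝ) = v i • (Pi.single i (1 : ℝ)) := by
      rw [← Pi.single_smul, smul_eq_mul, mul_one]
    rw [h2, map_smul, smul_eq_mul]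
  rw [h1, Real.norm_eq_abs]
  refine (Finset.abs_sum_le_sum_abs _ _).trans ?_
  have h3 : ∀ i ∈ (Finset.univ : Finset (Fin n)),
      |v i * fderiv ℝ F z (Pi.single i 1)| ≤ ‖v‖ * (C * gr z) := by
    intro i _
    rw [abs_mul]
    exact mul_le_mul (norm_le_pi_norm v i) (hF.2 z i) (abs_nonneg _) (norm_nonneg _)
  refine (Finset.sum_le_sum h3).trans (le_of_eq ?_)
  rw [Finset.sum_const, Finset.card_univ, Fintype.card_fin, nsmul_eq_mul]
  ring

theorem growth {n : ℕ} {C : ℝ} {F : (Fin n → ℝ) → ℝ} (hC : 0 ≤ C) (hF : Good C F)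
    (z : Fin n → ℝ) : |F z| ≤ (|F 0| + n * C) * gr z ^ 2 := by
  have hg := one_le_gr z
  have hconv : Convex ℝ (segment ℝ (0 : Fin n → ℝ) z) := convex_segment _ _
  have h1 : ∀ w ∈ segment ℝ (0 : Fin n → ℝ) z, ‖fderiv ℝ F w‖ ≤ n * C * gr z := by
    intro w hw
    obtain ⟨a, b, ha, hb, hab, rfl⟩ := hw
    refine (norm_fderiv_le hC hF _).trans ?_
    refine mul_le_mul_of_nonneg_left ?_ (by positivity)
    rw [smul_zero, zero_add]
    exact gr_smul z hb (by linarith)
  have h2 := hconv.norm_image_sub_le_of_norm_hasFDerivWithin_le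
    (fun w _ => ((hF.1.differentiable one_ne_zero w).hasFDerivAt).hasFDerivWithinAt) h1
    (left_mem_segment ℝ _ _) (right_mem_segment ℝ _ _)
  rw [sub_zero, Real.norm_eq_abs] at h2
  have h3 : |F z| ≤ |F 0| + |F z - F 0| := by
    have := abs_add_le (F 0) (F z - F 0)
    rwa [add_sub_cancel] at this
  have h4 : n * C * gr z * ‖z‖ ≤ n * C * gr z * gr z :=
    mul_le_mul_of_nonneg_left (norm_le_gr z) (by positivity)
  have h5 : |F 0| ≤ |F 0| * gr z ^ 2 := le_mul_of_one_le_right (abs_nonneg _) (one_le_pow₀ hg)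
  calc |F z| ≤ |F 0| + n * C * gr z * gr z := by linarith
    _ ≤ |F 0| * gr z ^ 2 + n * C * gr z * gr z := by linarith
    _ = (|F 0| + n * C) * gr z ^ 2 := by ring

theorem int_F {n : ℕ} {C : ℝ} {F : (Fin n → ℝ) → ℝ} (hC : 0 ≤ C) (hF : Good C F) :
    Integrable F (gm n) := by
  refine Integrable.mono' ((int_gr n 2).const_mul (|F 0| + n * C))
    hF.1.continuous.aestronglyMeasurable (Eventually.of_forall fun z => ?_)
  exact growth hC hF z

theorem int_F2 {n : ℕ} {C : ℝ} {F : (Fin n → ℝ) → ℝ} (hC : 0 ≤ C) (hF : Good C F) :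
    Integrable (fun z => F z ^ 2) (gm n) := by
  refine Integrable.mono' ((int_gr n 4).const_mul ((|F 0| + n * C) ^ 2))
    (hF.1.continuous.pow 2).aestronglyMeasurable (Eventually.of_forall fun z => ?_)
  rw [Real.norm_of_nonneg (sq_nonneg _), ← sq_abs]
  have h := growth hC hF z
  calc |F z| ^ 2 ≤ ((|F 0| + n * C) * gr z ^ 2) ^ 2 := by
        exact pow_le_pow_left₀ (abs_nonneg _) h 2
    _ = (|F 0| + n * C) ^ 2 * gr z ^ 4 := by ring

theorem cont_d {n : ℕ} {F : (Fin n → ℝ) → ℝ} (hF : ContDiff ℝ 1 F) (i : Fin n) :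
    Continuous fun z => fderiv ℝ F z (Pi.single i 1) :=
  (hF.continuous_fderiv one_ne_zero).clm_apply continuous_const

theorem int_d2 {n : ℕ} {C : ℝ} {F : (Fin n → ℝ) → ℝ} (hF : Good C F) (i : Fin n) :
    Integrable (fun z => fderiv ℝ F z (Pi.single i 1) ^ 2) (gm n) := by
  refine Integrable.mono' ((int_gr n 2).const_mul (C ^ 2))
    ((cont_d hF.1 i).pow 2).aestronglyMeasurable (Eventually.of_forall fun z => ?_)
  rw [Real.norm_of_nonneg (sq_nonneg _), ← sq_abs]
  calc |fderiv ℝ F z (Pi.single i 1)| ^ 2 ≤ (C * gr z) ^ 2 :=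
        pow_le_pow_left₀ (abs_nonneg _) (hF.2 z i) 2
    _ = C ^ 2 * gr z ^ 2 := by ring

/-! ### The average over the signs -/

theorem hasFDerivAt_Gb {n : ℕ} {F : (Fin n → ℝ) → ℝ} (hF : ContDiff ℝ 1 F) (z : Fin n → ℝ) :
    HasFDerivAt (Gb F) (((2 : ℝ) ^ n)⁻¹ •
      ∑ ε : Fin n → Bool, (fderiv ℝ F (sg ε z)).comp (sgL ε)) z := by
  have h1 : HasFDerivAt (fun z => ∑ ε : Fin n → Bool, F (sg ε z))
      (∑ ε : Fin n → Bool, (fderiv ℝ F (sg ε z)).comp (sgL ε)) z :=
    HasFDerivAt.fun_sum fun ε _ => fderiv_sg ε hF z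
  have h2 := h1.const_smul (((2 : ℝ) ^ n)⁻¹)
  have e : Gb F = fun z => (((2 : ℝ) ^ n)⁻¹) • ∑ ε : Fin n → Bool, F (sg ε z) := by
    funext z
    unfold Gb
    rw [smul_eq_mul, div_eq_inv_mul]
  rw [e]
  exact h2

theorem fderiv_Gb {n : ℕ} {F : (Fin n → ℝ) → ℝ} (hF : ContDiff ℝ 1 F) (z : Fin n → ℝ)
    (i : Fin n) : fderiv ℝ (Gb F) z (Pi.single i 1) =
      (∑ ε : Fin n → Bool, (if ε i then (1 : ℝ) else -1) *
        fderiv ℝ F (sg ε z) (Pi.single i 1)) / 2 ^ n := by
  rw [(hasFDerivAt_Gb hF z).fderiv, smul_apply,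
    sum_apply, smul_eq_mul, div_eq_inv_mul]
  congr 1
  refine Finset.sum_congr rfl fun ε _ => ?_
  rw [ContinuousLinearMap.comp_apply, sgL_apply, sg_single, map_smul, smul_eq_mul]

theorem abs_sgn (b : Bool) : |(if b then (1 : ℝ) else -1)| = 1 := by
  cases b <;> simp

theorem cd_Gb {n : ℕ} {F : (Fin n → ℝ) → ℝ} (hF : ContDiff ℝ 1 F) : ContDiff ℝ 1 (Gb F) := by
  unfold Gb
  exact (ContDiff.sum fun ε _ => cd_sg ε hF).div_const _

theorem good_Gb {n : ℕ} {C : ℝ} {F : (Fin n → ℝ) → ℝ} (hF : Good C F) : Good C (Gb F) := by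
  refine ⟨cd_Gb hF.1, fun z i => ?_⟩
  rw [fderiv_Gb hF.1, abs_div, abs_of_pos (by positivity : (0 : ℝ) < 2 ^ n),
    div_le_iff₀ (by positivity)]
  refine (Finset.abs_sum_le_sum_abs _ _).trans ?_
  have h : ∀ ε ∈ (Finset.univ : Finset (Fin n → Bool)), |(if ε i then (1 : ℝ) else -1) *
      fderiv ℝ F (sg ε z) (Pi.single i 1)| ≤ C * gr z := by
    intro ε _
    rw [abs_mul, abs_sgn, one_mul, ← gr_sg ε z]
    exact hF.2 _ _
  refine (Finset.sum_le_sum h).trans (le_of_eq ?_)
  rw [Finset.sum_const, Finset.card_univ, Fintype.card_fun, Fintype.card_bool, Fintype.card_fin,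
    nsmul_eq_mul]
  push_cast
  ring

/-- The average over the change of one sign. -/
noncomputable def Ei {n : ℕ} (F : (Fin n → ℝ) → ℝ) (i : Fin n) (z : Fin n → ℝ) : ℝ :=
  (F z + F (flp i z)) / 2

theorem good_Ei {n : ℕ} {C : ℝ} {F : (Fin n → ℝ) → ℝ} (hF : Good C F) (i : Fin n) :
    ContDiff ℝ 1 (Ei F i) ∧ ∀ z, |fderiv ℝ (Ei F i) z (Pi.single i 1)| ≤ C * gr z := by
  have e : Ei F i = fun z => (F z + F (sg (one i) z)) / 2 := by
    funext z
    unfold Ei
    rw [sg_one]
  refine ⟨?_, fun z => ?_⟩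
  · rw [e]
    exact (hF.1.add (cd_sg (one i) hF.1)).div_const _
  · have h1 : HasFDerivAt F (fderiv ℝ F z) z :=
      (hF.1.differentiable one_ne_zero _).hasFDerivAt
    have h2 := (h1.add (fderiv_sg (one i) hF.1 z)).const_smul ((2 : ℝ)⁻¹)
    have e2 : Ei F i = fun z => (2 : ℝ)⁻¹ • (F z + F (sg (one i) z)) := by
      rw [e]
      funext z
      rw [smul_eq_mul, div_eq_inv_mul]
    have h3 : HasFDerivAt (Ei F i) ((2 : ℝ)⁻¹ • (fderiv ℝ F z +
        (fderiv ℝ F (sg (one i) z)).comp (sgL (one i)))) z := by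
      rw [e2]
      exact h2
    rw [h3.fderiv, smul_apply, add_apply,
      ContinuousLinearMap.comp_apply, sgL_apply, sg_single, map_smul, smul_eq_mul, smul_eq_mul,
      abs_mul]
    have h4 := hF.2 z i
    have h5 := hF.2 (sg (one i) z) i
    rw [gr_sg] at h5
    have h6 : |fderiv ℝ F z (Pi.single i 1) + (if one i i = true then (1 : ℝ) else -1) *
        fderiv ℝ F (sg (one i) z) (Pi.single i 1)| ≤ C * gr z + C * gr z := by
      refine (abs_add_le _ _).trans (add_le_add h4 ?_)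
      rw [abs_mul, abs_sgn, one_mul]
      exact h5
    rw [abs_of_pos (by norm_num : (0 : ℝ) < (2 : ℝ)⁻¹)]
    linarith

/-- The involution of the signs. -/
def inv {n : ℕ} (i : Fin n) (ε : Fin n → Bool) : Fin n → Bool := Function.update ε i (!(ε i))

theorem inv_inv {n : ℕ} (i : Fin n) (ε : Fin n → Bool) : inv i (inv i ε) = ε := by
  unfold inv
  funext j
  by_cases hj : j = i
  · subst hj
    simp
  · rw [Function.update_of_ne hj, Function.update_of_ne hj]

theorem flp_sg {n : ℕ} (i : Fin n) (ε : Fin n → Bool) (z : Fin n → ℝ) :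
    flp i (sg ε z) = sg (inv i ε) z := by
  unfold flp sg inv
  funext j
  by_cases hj : j = i
  · subst hj
    rw [Function.update_self, Function.update_self]
    cases h : ε j <;> simp
  · rw [Function.update_of_ne hj, Function.update_of_ne hj]

theorem sg_flp {n : ℕ} (i : Fin n) (ε : Fin n → Bool) (z : Fin n → ℝ) :
    sg ε (flp i z) = sg (inv i ε) z := by
  unfold flp sg inv
  funext j
  by_cases hj : j = i
  · subst hj
    rw [Function.update_self, Function.update_self]
    cases h : ε j <;> simp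
  · rw [Function.update_of_ne hj, Function.update_of_ne hj]

theorem sum_inv {n : ℕ} (i : Fin n) (φ : (Fin n → Bool) → ℝ) :
    ∑ ε, φ (inv i ε) = ∑ ε, φ ε :=
  Equiv.sum_comp (Function.Involutive.toPerm (inv i) (inv_inv i)) φ

theorem Gb_flp {n : ℕ} (F : (Fin n → ℝ) → ℝ) (i : Fin n) (z : Fin n → ℝ) :
    Gb F (flp i z) = Gb F z := by
  unfold Gb
  congr 1
  simp only [sg_flp]
  exact sum_inv i fun ε => F (sg ε z)

theorem Gb_Ei {n : ℕ} (F : (Fin n → ℝ) → ℝ) (i : Fin n) : Gb (Ei F i) = Gb F := by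
  funext z
  unfold Gb Ei
  congr 1
  simp only [flp_sg]
  rw [← Finset.sum_div, Finset.sum_add_distrib, sum_inv i fun ε => F (sg ε z)]
  ring

theorem int_Gb {n : ℕ} {C : ℝ} {F : (Fin n → ℝ) → ℝ} (hC : 0 ≤ C) (hF : Good C F) :
    ∫ z, Gb F z ∂(gm n) = ∫ z, F z ∂(gm n) := by
  unfold Gb
  rw [integral_div, integral_finsetSum _ fun ε _ => integrable_sg ε (int_F hC hF)]
  simp only [int_sg _ hF.1.continuous]
  rw [Finset.sum_const, Finset.card_univ, Fintype.card_fun, Fintype.card_bool, Fintype.card_fin,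
    nsmul_eq_mul]
  push_cast
  field_simp

/-- The derivative of the average. -/
theorem int_dG {n : ℕ} {C : ℝ} {F : (Fin n → ℝ) → ℝ} (hF : Good C F) (i : Fin n) :
    ∫ z, fderiv ℝ (Gb F) z (Pi.single i 1) ^ 2 ∂(gm n) ≤
      ∫ z, fderiv ℝ (Ei F i) z (Pi.single i 1) ^ 2 ∂(gm n) := by
  obtain ⟨hE1, hE2⟩ := good_Ei hF i
  have hc : Continuous fun z => fderiv ℝ (Ei F i) z (Pi.single i 1) ^ 2 :=
    (cont_d hE1 i).pow 2
  have hI : Integrable (fun z => fderiv ℝ (Ei F i) z (Pi.single i 1) ^ 2) (gm n) := by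
    refine Integrable.mono' ((int_gr n 2).const_mul (C ^ 2)) hc.aestronglyMeasurable
      (Eventually.of_forall fun z => ?_)
    rw [Real.norm_of_nonneg (sq_nonneg _), ← sq_abs]
    calc |fderiv ℝ (Ei F i) z (Pi.single i 1)| ^ 2 ≤ (C * gr z) ^ 2 :=
          pow_le_pow_left₀ (abs_nonneg _) (hE2 z) 2
      _ = C ^ 2 * gr z ^ 2 := by ring
  have hp : ∀ z, fderiv ℝ (Gb F) z (Pi.single i 1) ^ 2 ≤
      (∑ ε : Fin n → Bool, fderiv ℝ (Ei F i) (sg ε z) (Pi.single i 1) ^ 2) / 2 ^ n := by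
    intro z
    rw [← Gb_Ei F i, fderiv_Gb hE1, div_pow]
    have h1 := sq_sum_le_card_mul_sum_sq (s := (Finset.univ : Finset (Fin n → Bool)))
      (f := fun ε => (if ε i then (1 : ℝ) else -1) *
        fderiv ℝ (Ei F i) (sg ε z) (Pi.single i 1))
    rw [Finset.card_univ, Fintype.card_fun, Fintype.card_bool, Fintype.card_fin] at h1
    push_cast at h1
    have h2 : ∀ ε : Fin n → Bool, ((if ε i then (1 : ℝ) else -1) *
        fderiv ℝ (Ei F i) (sg ε z) (Pi.single i 1)) ^ 2 =
        fderiv ℝ (Ei F i) (sg ε z) (Pi.single i 1) ^ 2 := by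
      intro ε
      rw [mul_pow, ← sq_abs (if ε i then (1 : ℝ) else -1), abs_sgn]
      ring
    simp only [h2] at h1
    rw [div_le_div_iff₀ (by positivity) (by positivity)]
    have h3 : (0 : ℝ) < 2 ^ n := by positivity
    nlinarith [mul_le_mul_of_nonneg_right h1 h3.le]
  have hS : Integrable (fun z => (∑ ε : Fin n → Bool,
      fderiv ℝ (Ei F i) (sg ε z) (Pi.single i 1) ^ 2) / 2 ^ n) (gm n) :=
    (integrable_finsetSum _ fun ε _ => integrable_sg ε hI).div_const _
  refine (integral_mono (int_d2 (good_Gb hF) i) hS hp).trans (le_of_eq ?_)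
  rw [integral_div, integral_finsetSum _ fun ε _ => integrable_sg ε hI]
  have h4 : ∀ ε : Fin n → Bool, ∫ z, fderiv ℝ (Ei F i) (sg ε z) (Pi.single i 1) ^ 2 ∂(gm n) =
      ∫ z, fderiv ℝ (Ei F i) z (Pi.single i 1) ^ 2 ∂(gm n) := fun ε => int_sg ε hc
  simp only [h4]
  rw [Finset.sum_const, Finset.card_univ, Fintype.card_fun, Fintype.card_bool, Fintype.card_fin,
    nsmul_eq_mul]
  push_cast
  field_simp

/-! ### The variance in one direction -/

theorem upd_neg {n : ℕ} (z : Fin n → ℝ) (i : Fin n) (t : ℝ) :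
    Function.update z i (-t) = flp i (Function.update z i t) := by
  unfold flp
  rw [Function.update_self, Function.update_idem]

theorem hasDeriv_upd {n : ℕ} {G : (Fin n → ℝ) → ℝ} (hG : ContDiff ℝ 1 G) (z : Fin n → ℝ)
    (i : Fin n) (t : ℝ) : HasDerivAt (fun t => G (Function.update z i t))
      (fderiv ℝ G (Function.update z i t) (Pi.single i 1)) t := by
  have h1 : HasFDerivAt G (fderiv ℝ G (Function.update z i t)) (Function.update z i t) :=
    (hG.differentiable one_ne_zero _).hasFDerivAt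
  exact h1.comp_hasDerivAt t (hasDerivAt_update z i t)

theorem var_le (h1 : clE1) {n : ℕ} {C : ℝ} {G : (Fin n → ℝ) → ℝ} (hG : Good C G)
    (i : Fin n) (hev : ∀ z, G (flp i z) = G z) (hC : 0 ≤ C) (z : Fin n → ℝ) :
    2 * (∫ t, G (Function.update z i t) ^ 2 ∂(gaussianReal 0 1) -
      (∫ t, G (Function.update z i t) ∂(gaussianReal 0 1)) ^ 2) ≤
    ∫ t, fderiv ℝ G (Function.update z i t) (Pi.single i 1) ^ 2 ∂(gaussianReal 0 1) := by
  have hd : ∀ t, deriv (fun t => G (Function.update z i t)) t =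
      fderiv ℝ G (Function.update z i t) (Pi.single i 1) := fun t =>
    (hasDeriv_upd hG.1 z i t).deriv
  have hcd : ContDiff ℝ 1 (fun t => G (Function.update z i t)) :=
    hG.1.comp (contDiff_update 1 z i)
  have hb : ∀ t, |deriv (fun t => G (Function.update z i t)) t| ≤ C * gr z * (1 + |t|) := by
    intro t
    rw [hd t]
    refine (hG.2 _ _).trans ?_
    rw [mul_assoc]
    exact mul_le_mul_of_nonneg_left (gr_upd z i t) hC
  have h2 := (h1 (fun t => G (Function.update z i t)) (C * gr z) hcd hb).2 (fun t => by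
    show G (Function.update z i (-t)) = G (Function.update z i t)
    rw [upd_neg, hev])
  simp only [hd] at h2
  exact h2

theorem dir_le (h1 : clE1) {n : ℕ} {C : ℝ} {G : (Fin n → ℝ) → ℝ} (hG : Good C G)
    (i : Fin n) (hev : ∀ z, G (flp i z) = G z) (hC : 0 ≤ C) :
    2 * ∫ z, (∫ t, G (Function.update z i t) ^ 2 ∂(gaussianReal 0 1) -
      (∫ t, G (Function.update z i t) ∂(gaussianReal 0 1)) ^ 2) ∂(gm n) ≤
    ∫ z, fderiv ℝ G z (Pi.single i 1) ^ 2 ∂(gm n) := by
  have hm := prfUpd n i (gaussianReal 0 1) inferInstance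
  have hI := int_d2 hG i
  have hc : Continuous fun z => fderiv ℝ G z (Pi.single i 1) ^ 2 := (cont_d hG.1 i).pow 2
  have hJ : Integrable (fun p : (Fin n → ℝ) × ℝ =>
      fderiv ℝ G (Function.update p.1 i p.2) (Pi.single i 1) ^ 2)
      ((gm n).prod (gaussianReal 0 1)) := hm.integrable_comp_of_integrable hI
  have e1 : ∫ z, fderiv ℝ G z (Pi.single i 1) ^ 2 ∂(gm n) =
      ∫ z, ∫ t, fderiv ℝ G (Function.update z i t) (Pi.single i 1) ^ 2 ∂(gaussianReal 0 1)
        ∂(gm n) := by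
    rw [← integral_prod _ hJ]
    have h2 := integral_map (μ := (gm n).prod (gaussianReal 0 1)) hm.measurable.aemeasurable
      (f := fun z => fderiv ℝ G z (Pi.single i 1) ^ 2) hc.aestronglyMeasurable
    rw [hm.map_eq] at h2
    exact h2
  rw [e1, ← integral_const_mul]
  have hH := IES.HH_int (μ := gaussianReal 0 1) hG.1.continuous.measurable (int_F2 hC hG) i
  exact integral_mono (hH.const_mul 2) hJ.integral_prod_left fun z => var_le h1 hG i hev hC z

end JENb

open JENb in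
theorem prfENb (h1 : clE1) : clENb := by
  intro n F C hF hb
  have hC : 0 ≤ |C| := abs_nonneg C
  have hG : Good |C| F := by
    refine ⟨hF, fun z i => (hb z i).trans ?_⟩
    have h := one_le_gr z
    unfold gr at h
    exact mul_le_mul_of_nonneg_right (le_abs_self C) (by linarith)
  have hGb := good_Gb hG
  refine ⟨int_Gb hC hG, ?_⟩
  have hES := prfES n (gaussianReal 0 1) inferInstance (Gb F) hGb.1.continuous.measurable
    (int_F2 hC hGb)
  calc 2 * (∫ z, Gb F z ^ 2 ∂(Measure.pi fun _ : Fin n => gaussianReal 0 1) -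
      (∫ z, Gb F z ∂(Measure.pi fun _ : Fin n => gaussianReal 0 1)) ^ 2)
      ≤ 2 * ∑ i, ∫ x, (∫ t, Gb F (Function.update x i t) ^ 2 ∂(gaussianReal 0 1) -
      (∫ t, Gb F (Function.update x i t) ∂(gaussianReal 0 1)) ^ 2)
        ∂(Measure.pi fun _ : Fin n => gaussianReal 0 1) := by linarith
    _ = ∑ i, 2 * ∫ x, (∫ t, Gb F (Function.update x i t) ^ 2 ∂(gaussianReal 0 1) -
      (∫ t, Gb F (Function.update x i t) ∂(gaussianReal 0 1)) ^ 2)
        ∂(Measure.pi fun _ : Fin n => gaussianReal 0 1) := by rw [Finset.mul_sum]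
    _ ≤ ∑ i, ∫ z, (fderiv ℝ (fun z => (F z + F (flp i z)) / 2) z (Pi.single i 1)) ^ 2
      ∂(Measure.pi fun _ : Fin n => gaussianReal 0 1) := by
        refine Finset.sum_le_sum fun i _ => ?_
        exact (dir_le h1 hGb i (Gb_flp F i) hC).trans (int_dG hG i)

end Pool.Agent.Work.MP_408f4b_gt.Q
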