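import Pool.Agent.Work.MP_408f4b_gt.I.Poin
import Pool.Agent.Work.MP_408f4b_gt.Q.Stmts3

set_option autoImplicit false

/-!
# The spectral gap of the even functions on the sphere, from the Gaussian Poincaré inequality for
even functions
-/

namespace Pool.Agent.Work.MP_408f4b_gt.Q

open MeasureTheory Set Filter Topology ProbabilityTheory

namespace JESph

open IPoin

variable {n : ℕ}

/-- The extension of `g - m`, homogeneous of degree two. -/
noncomputable def GG (g : E n → ℝ) (m : ℝ) (x : E n) : ℝ := ‖x‖ * FF g m x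

/-- The gradient of the extension. -/
noncomputable def DG (g : E n → ℝ) (m : ℝ) (θ : E n) : E n :=
  (2 * (g θ - m) - inner ℝ (gradient g θ) θ) • θ + gradient g θ

/-- The square of the gradient of the extension, on the sphere. -/
noncomputable def HH4 (g : E n → ℝ) (m : ℝ) (x : E n) : ℝ :=
  4 * (g x - m) ^ 2 + (‖gradient g x‖ ^ 2 - (inner ℝ (gradient g x) x) ^ 2)

lemma unit_norm {x : E n} (hx : x ≠ 0) : ‖‖x‖⁻¹ • x‖ = 1 := by
  rw [norm_smul, norm_inv, norm_norm, inv_mul_cancel₀ (norm_ne_zero_iff.2 hx)]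

lemma contDiffAt_GG {g : E n → ℝ} (hg : ContDiff ℝ 1 g) (m : ℝ) {x : E n} (hx : x ≠ 0) :
    ContDiffAt ℝ 1 (GG g m) x := by
  have h1 : ContDiffAt ℝ 1 (fun x : E n => ‖x‖) x := contDiffAt_norm ℝ hx
  have h2 : ContDiffAt ℝ 1 (FF g m) x :=
    (contDiffOn_FF hg m).contDiffAt (isOpen_ne.mem_nhds hx)
  exact h1.mul h2

lemma hasGradientAt_GG {g : E n → ℝ} (hg : ContDiff ℝ 1 g) (m : ℝ) {x : E n} (hx : x ≠ 0) :
    HasGradientAt (GG g m) (‖x‖ • DG g m (‖x‖⁻¹ • x)) x := by
  have hn : ‖x‖ ≠ 0 := norm_ne_zero_iff.2 hx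
  have h1 := hasFDerivAt_nrm hx
  have h2 : DifferentiableAt ℝ (FF g m) x :=
    ((contDiffOn_FF hg m).contDiffAt (isOpen_ne.mem_nhds hx)).differentiableAt one_ne_zero
  have h3 := h1.mul h2.hasFDerivAt
  rw [hasGradientAt_iff_hasFDerivAt]
  refine h3.congr_fderiv ?_
  ext v
  have h4 : fderiv ℝ (FF g m) x v = inner ℝ (gradient (FF g m) x) v := by
    rw [inner_gradient_left]
  have h5 : FF g m x = ‖x‖ * (g (‖x‖⁻¹ • x) - m) := rfl
  simp only [_root_.add_apply, _root_.smul_apply, smul_eq_mul,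
    innerSL_apply_apply, InnerProductSpace.toDual_apply_apply]
  rw [h4, gradient_FF hg m hx, h5]
  unfold DG
  generalize hθ : ‖x‖⁻¹ • x = θ
  have h6 : ‖x‖⁻¹ * inner ℝ x v = inner ℝ θ v := by
    rw [← hθ, real_inner_smul_left]
  rw [h6]
  simp only [inner_add_left, real_inner_smul_left]
  ring

lemma exists_bd {g : E n → ℝ} (hg : ContDiff ℝ 1 g) (m : ℝ) :
    ∃ C : ℝ, 0 ≤ C ∧ ∀ x : E n, ‖x‖ = 1 → ‖DG g m x‖ ≤ C ∧ |g x - m| ≤ C := by
  have h1 : Continuous (DG g m) := by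
    have h2 := continuous_gradient hg
    have h3 := hg.continuous
    unfold DG
    fun_prop
  obtain ⟨M, hM⟩ := (isCompact_sphere (0 : E n) 1).exists_bound_of_continuousOn h1.continuousOn
  obtain ⟨M', hM'⟩ := (isCompact_sphere (0 : E n) 1).exists_bound_of_continuousOn
    (f := fun x => g x - m) (hg.continuous.sub continuous_const).continuousOn
  refine ⟨max |M| |M'|, (abs_nonneg _).trans (le_max_left _ _), fun x hx => ?_⟩
  have hx' : x ∈ Metric.sphere (0 : E n) 1 := by simpa using hx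
  refine ⟨((hM x hx').trans (le_abs_self M)).trans (le_max_left _ _), ?_⟩
  have := hM' x hx'
  rw [Real.norm_eq_abs] at this
  exact (this.trans (le_abs_self M')).trans (le_max_right _ _)

lemma GG_zero (g : E n → ℝ) (m : ℝ) : GG g m 0 = 0 := by
  unfold GG
  simp

lemma GG_eq (g : E n → ℝ) (m : ℝ) (x : E n) : GG g m x = ‖x‖ ^ 2 * (g (‖x‖⁻¹ • x) - m) := by
  unfold GG FF
  ring

lemma hasFDerivAt_GG_zero {g : E n → ℝ} (hg : ContDiff ℝ 1 g) (m : ℝ) :
    HasFDerivAt (GG g m) (0 : E n →L[ℝ] ℝ) 0 := by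
  obtain ⟨C, hC0, hC⟩ := exists_bd hg m
  rw [hasFDerivAt_iff_isLittleO_nhds_zero]
  have h1 : ∀ h : E n, ‖GG g m (0 + h) - GG g m 0 - (0 : E n →L[ℝ] ℝ) h‖ ≤ C * ‖‖h‖ ^ 2‖ := by
    intro h
    rw [zero_add, GG_zero, sub_zero, _root_.zero_apply, sub_zero, GG_eq,
      Real.norm_eq_abs, Real.norm_eq_abs, abs_mul, mul_comm]
    by_cases hh : h = 0
    · simp [hh]
    · exact mul_le_mul_of_nonneg_right (hC _ (unit_norm hh)).2 (abs_nonneg _)
  refine Asymptotics.IsBigO.trans_isLittleO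
    (Asymptotics.IsBigO.of_bound C (Eventually.of_forall h1)) ?_
  have h2 : (fun h : E n => ‖h‖ ^ 2) = fun h => ‖h‖ * ‖h‖ := by
    funext h
    ring
  rw [h2]
  have h3 : (fun h : E n => ‖h‖) =o[𝓝 0] (fun _ : E n => (1 : ℝ)) := by
    rw [Asymptotics.isLittleO_one_iff]
    have : Continuous (fun h : E n => ‖h‖) := continuous_norm
    have h := this.tendsto 0
    simpa using h
  have h4 := h3.mul_isBigO (Asymptotics.isBigO_refl (fun h : E n => ‖h‖) (𝓝 0))
  refine (h4.trans_isBigO ?_)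
  refine Asymptotics.IsBigO.of_bound 1 (Eventually.of_forall fun h => ?_)
  simp

lemma fderiv_bd {g : E n → ℝ} (hg : ContDiff ℝ 1 g) (m : ℝ) :
    ∃ C : ℝ, 0 ≤ C ∧ ∀ x : E n, ‖fderiv ℝ (GG g m) x‖ ≤ C * ‖x‖ := by
  obtain ⟨C, hC0, hC⟩ := exists_bd hg m
  refine ⟨C, hC0, fun x => ?_⟩
  by_cases hx : x = 0
  · subst hx
    rw [(hasFDerivAt_GG_zero hg m).fderiv]
    simp
  · have h1 := (hasGradientAt_GG hg m hx).hasFDerivAt.fderiv
    rw [h1, LinearIsometryEquiv.norm_map, norm_smul, norm_norm, mul_comm]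
    exact mul_le_mul_of_nonneg_right (hC _ (unit_norm hx)).1 (norm_nonneg x)

lemma contDiff_GG {g : E n → ℝ} (hg : ContDiff ℝ 1 g) (m : ℝ) : ContDiff ℝ 1 (GG g m) := by
  obtain ⟨C, hC0, hC⟩ := fderiv_bd hg m
  rw [contDiff_one_iff_fderiv]
  refine ⟨fun x => ?_, ?_⟩
  · by_cases hx : x = 0
    · subst hx
      exact (hasFDerivAt_GG_zero hg m).differentiableAt
    · exact (contDiffAt_GG hg m hx).differentiableAt one_ne_zero
  · rw [continuous_iff_continuousAt]
    intro x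
    by_cases hx : x = 0
    · subst hx
      rw [ContinuousAt, (hasFDerivAt_GG_zero hg m).fderiv]
      have h1 : Tendsto (fun x : E n => C * ‖x‖) (𝓝 0) (𝓝 0) := by
        have : Continuous (fun x : E n => C * ‖x‖) := by fun_prop
        have h := this.tendsto 0
        simpa using h
      exact squeeze_zero_norm hC h1
    · exact (contDiffAt_GG hg m hx).continuousAt_fderiv one_ne_zero

lemma nsq_gradient_GG {g : E n → ℝ} (hg : ContDiff ℝ 1 g) (m : ℝ) {x : E n} (hx : x ≠ 0) :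
    ‖gradient (GG g m) x‖ ^ 2 = ‖x‖ ^ 2 * HH4 g m (‖x‖⁻¹ • x) := by
  have hu := unit_norm hx
  rw [(hasGradientAt_GG hg m hx).gradient, norm_smul, norm_norm, mul_pow]
  unfold HH4 DG
  generalize ‖x‖⁻¹ • x = θ at *
  generalize gradient g θ = a
  rw [norm_add_sq_real, norm_smul, hu, mul_one, Real.norm_eq_abs, sq_abs, real_inner_smul_left,
    real_inner_comm a θ]
  ring

lemma nsq_gradient_GG_all {g : E n → ℝ} (hg : ContDiff ℝ 1 g) (m : ℝ) (x : E n) :
    ‖gradient (GG g m) x‖ ^ 2 = ‖x‖ ^ 2 * HH4 g m (‖x‖⁻¹ • x) := by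
  by_cases hx : x = 0
  · subst hx
    have h1 : HasGradientAt (GG g m) (0 : E n) 0 := by
      rw [hasGradientAt_iff_hasFDerivAt, map_zero]
      exact hasFDerivAt_GG_zero hg m
    rw [h1.gradient]
    simp
  · exact nsq_gradient_GG hg m hx

lemma continuous_HH4 {g : E n → ℝ} (hg : ContDiff ℝ 1 g) (m : ℝ) : Continuous (HH4 g m) := by
  have h1 := continuous_gradient hg
  have h2 := hg.continuous
  unfold HH4
  fun_prop

lemma norm_grad (F : E n → ℝ) (x : E n) :
    ‖gradient F x‖ ^ 2 = ∑ i, (fderiv ℝ F x (EuclideanSpace.single i (1 : ℝ))) ^ 2 := by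
  rw [EuclideanSpace.real_norm_sq_eq]
  refine Finset.sum_congr rfl fun i _ => ?_
  have h1 : (gradient F x) i = inner ℝ (gradient F x) (EuclideanSpace.single i (1 : ℝ)) := by
    rw [EuclideanSpace.inner_single_right]
    simp
  rw [h1, inner_gradient_left]

lemma norm_le_sum (z : Fin n → ℝ) : ‖(WithLp.toLp 2 z : E n)‖ ≤ ∑ j, |z j| := by
  have h1 : ‖(WithLp.toLp 2 z : E n)‖ ^ 2 ≤ (∑ j, |z j|) ^ 2 := by
    rw [EuclideanSpace.real_norm_sq_eq]
    have h2 : ∀ j, (WithLp.toLp 2 z : E n) j ^ 2 = |z j| ^ 2 := by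
      intro j
      simp
    rw [Finset.sum_congr rfl fun j _ => h2 j]
    exact Finset.sum_sq_le_sq_sum_of_nonneg fun j _ => abs_nonneg _
  exact le_of_sq_le_sq h1 (Finset.sum_nonneg fun j _ => abs_nonneg _)

end JESph

open JESph IPoin in
theorem prfESph (hE : clEN) (hP : clPolar) : clESph := by
  intro n g hn hg hev
  have : IsFiniteMeasure (sig n) := by unfold sig; infer_instance
  obtain ⟨c, hc, hpol⟩ := hP n hn
  set S : ℝ := (sig n).real univ with hS
  have hcS : c * S = 1 := by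
    have := (hpol (fun _ => 1) continuousOn_const).2.2.2.2
    exact this
  have hS0 : S ≠ 0 := by
    intro h
    rw [h, mul_zero] at hcS
    exact zero_ne_one hcS
  set m : ℝ := (∫ θ : Sph n, g θ ∂sig n) / S with hm
  have hgc : Continuous fun θ : Sph n => g θ := hg.continuous.comp continuous_subtype_val
  have hgi := integrable_sph hgc
  have hgi2 : Integrable (fun θ : Sph n => g θ ^ 2) (sig n) := integrable_sph (hgc.pow 2)
  have hmS : m * S = ∫ θ : Sph n, g θ ∂sig n := by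
    rw [hm]
    field_simp
  have hmean : ∫ θ : Sph n, (g θ - m) ∂sig n = 0 := by
    rw [integral_sub hgi (integrable_const _), integral_const, smul_eq_mul, ← hS, ← hmS]
    ring
  have hVV : VV n (fun θ => g θ) = ∫ θ : Sph n, (g θ - m) ^ 2 ∂sig n := by
    have e1 : ∀ θ : Sph n, (g θ - m) ^ 2 = g θ ^ 2 - 2 * m * g θ + m ^ 2 := fun θ => by ring
    have e2 : ∫ θ : Sph n, (g θ - m) ^ 2 ∂sig n =
        ∫ θ : Sph n, g θ ^ 2 ∂sig n - 2 * m * ∫ θ : Sph n, g θ ∂sig n + S * m ^ 2 := by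
      have a1 : ∫ θ : Sph n, (g θ ^ 2 - 2 * m * g θ) ∂sig n =
          ∫ θ : Sph n, g θ ^ 2 ∂sig n - 2 * m * ∫ θ : Sph n, g θ ∂sig n := by
        rw [integral_sub hgi2 (hgi.const_mul _), integral_const_mul]
      have a2 : ∫ θ : Sph n, (g θ ^ 2 - 2 * m * g θ + m ^ 2) ∂sig n =
          ∫ θ : Sph n, (g θ ^ 2 - 2 * m * g θ) ∂sig n + ∫ _ : Sph n, m ^ 2 ∂sig n :=
        integral_add (hgi2.sub (hgi.const_mul _)) (integrable_const _)
      rw [integral_congr_ae (Eventually.of_forall e1), a2, a1, integral_const, smul_eq_mul]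
    rw [e2]
    unfold VV
    rw [← hS, ← hmS]
    field_simp
    ring
  -- the extension
  obtain ⟨C, hC0, hC⟩ := fderiv_bd hg m
  have hGc := contDiff_GG hg m
  have hto : ContDiff ℝ 1 (fun z : Fin n → ℝ => (WithLp.toLp 2 z : E n)) := by
    exact (PiLp.continuousLinearEquiv 2 ℝ (fun _ : Fin n => ℝ)).symm.contDiff
  have htod : ∀ z : Fin n → ℝ, HasFDerivAt (fun z : Fin n → ℝ => (WithLp.toLp 2 z : E n))
      ((PiLp.continuousLinearEquiv 2 ℝ (fun _ : Fin n => ℝ)).symm : (Fin n → ℝ) →L[ℝ] E n) z :=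
    fun z => (PiLp.continuousLinearEquiv 2 ℝ (fun _ : Fin n => ℝ)).symm.hasFDerivAt
  have hFd : ∀ (z : Fin n → ℝ) (i : Fin n),
      fderiv ℝ (fun z : Fin n → ℝ => GG g m (WithLp.toLp 2 z)) z (Pi.single i 1) =
        fderiv ℝ (GG g m) (WithLp.toLp 2 z) (EuclideanSpace.single i (1 : ℝ)) := by
    intro z i
    have h1 : HasFDerivAt (fun z : Fin n → ℝ => GG g m (WithLp.toLp 2 z)) _ z :=
      ((hGc.differentiable one_ne_zero _).hasFDerivAt).comp z (htod z)
    rw [h1.fderiv]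
    rfl
  have hGev : ∀ x : E n, GG g m (-x) = GG g m x := by
    intro x
    by_cases hx : x = 0
    · subst hx
      simp
    · rw [GG_eq, GG_eq, norm_neg, smul_neg, hev _ (unit_norm hx)]
  have key := hE n (fun z : Fin n → ℝ => GG g m (WithLp.toLp 2 z)) C (hGc.comp hto)
    (fun z => by
      have : (WithLp.toLp 2 (-z) : E n) = -(WithLp.toLp 2 z) := rfl
      rw [this]
      exact hGev _)
    (fun z i => by
      rw [hFd z i]
      have h1 := (fderiv ℝ (GG g m) (WithLp.toLp 2 z : E n)).le_opNorm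
        (EuclideanSpace.single i (1 : ℝ))
      rw [Real.norm_eq_abs] at h1
      refine h1.trans ?_
      have h2 : ‖(EuclideanSpace.single i (1 : ℝ) : E n)‖ = 1 := by simp
      rw [h2, mul_one]
      refine (hC _).trans (mul_le_mul_of_nonneg_left ?_ hC0)
      exact (norm_le_sum z).trans (by linarith))
  -- back to the Gaussian measure of the Euclidean space
  set μ : Measure (Fin n → ℝ) := Measure.pi fun _ : Fin n => gaussianReal 0 1 with hμ
  have htom : Measurable (fun x : Fin n → ℝ => (WithLp.toLp 2 x : E n)) := hto.continuous.measurable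
  have hstd : stdGaussian (E n) = μ.map (fun x : Fin n → ℝ => (WithLp.toLp 2 x : E n)) :=
    map_pi_eq_stdGaussian.symm
  have hmap : ∀ G : E n → ℝ, Measurable G →
      ∫ x, G x ∂(stdGaussian (E n)) = ∫ x, G (WithLp.toLp 2 x) ∂μ := by
    intro G hGm
    rw [hstd, integral_map htom.aemeasurable hGm.aestronglyMeasurable]
  have hGm : Measurable (GG g m) := hGc.continuous.measurable
  have i1 := hpol (fun x => (g x - m) ^ 2)
    ((hg.continuous.sub continuous_const).pow 2).continuousOn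
  have i2 := hpol (fun x => g x - m) (hg.continuous.sub continuous_const).continuousOn
  have i3 := hpol (HH4 g m) (continuous_HH4 hg m).continuousOn
  have j1 : ∫ z, GG g m (WithLp.toLp 2 z) ^ 2 ∂μ =
      n * (n + 2) * (c * ∫ θ : Sph n, (g θ - m) ^ 2 ∂sig n) := by
    rw [← hmap _ (hGm.pow_const 2), ← i1.2.1]
    congr 1
    funext x
    rw [GG_eq]
    ring
  have j2 : ∫ z, GG g m (WithLp.toLp 2 z) ∂μ = 0 := by
    rw [← hmap _ hGm]
    have h1 : ∫ x, GG g m x ∂(stdGaussian (E n)) = n * (c * ∫ θ : Sph n, (g θ - m) ∂sig n) := by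
      rw [← i2.1]
      congr 1
      funext x
      rw [GG_eq]
    rw [h1, hmean, mul_zero, mul_zero]
  have hDc : ∀ i : Fin n, Continuous (fun x : E n => fderiv ℝ (GG g m) x
      (EuclideanSpace.single i (1 : ℝ))) := fun i =>
    (hGc.continuous_fderiv one_ne_zero).clm_apply continuous_const
  have hint : ∀ i : Fin n, Integrable (fun x : E n => (fderiv ℝ (GG g m) x
      (EuclideanSpace.single i (1 : ℝ))) ^ 2) (stdGaussian (E n)) := by
    intro i
    refine (i3.2.2.1).mono' ((hDc i).pow 2).aestronglyMeasurable (Eventually.of_forall fun x => ?_)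
    rw [Real.norm_eq_abs, abs_of_nonneg (sq_nonneg _), ← nsq_gradient_GG_all hg m x, norm_grad]
    exact Finset.single_le_sum (f := fun i => (fderiv ℝ (GG g m) x
      (EuclideanSpace.single i (1 : ℝ))) ^ 2) (fun i _ => sq_nonneg _) (Finset.mem_univ i)
  have j3 : ∑ i, ∫ z, (fderiv ℝ (fun z : Fin n → ℝ => GG g m (WithLp.toLp 2 z)) z
      (Pi.single i 1)) ^ 2 ∂μ = n * (c * ∫ θ : Sph n, HH4 g m θ ∂sig n) := by
    have h1 : ∀ i : Fin n, ∫ z, (fderiv ℝ (fun z : Fin n → ℝ => GG g m (WithLp.toLp 2 z)) z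
        (Pi.single i 1)) ^ 2 ∂μ = ∫ x, (fderiv ℝ (GG g m) x
        (EuclideanSpace.single i (1 : ℝ))) ^ 2 ∂(stdGaussian (E n)) := by
      intro i
      rw [hmap _ ((hDc i).measurable.pow_const 2)]
      congr 1
      funext z
      rw [hFd z i]
    rw [Finset.sum_congr rfl fun i _ => h1 i, ← integral_finsetSum _ (fun i _ => hint i), ← i3.1]
    congr 1
    funext x
    rw [← nsq_gradient_GG_all hg m x, norm_grad]
  rw [j1, j2, j3] at key
  have hG1 : Continuous fun θ : Sph n =>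
      ‖gradient g (θ : E n)‖ ^ 2 - (inner ℝ (gradient g (θ : E n)) (θ : E n)) ^ 2 := by
    have h1 : Continuous fun θ : Sph n => gradient g (θ : E n) :=
      (continuous_gradient hg).comp continuous_subtype_val
    have h2 : Continuous fun θ : Sph n => (θ : E n) := continuous_subtype_val
    exact (h1.norm.pow 2).sub ((h1.inner h2).pow 2)
  have hG2 := integrable_sph hG1
  have hG3 : Integrable (fun θ : Sph n => 4 * (g θ - m) ^ 2) (sig n) :=
    integrable_sph (((hgc.sub continuous_const).pow 2).const_mul 4)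
  have j4 : ∫ θ : Sph n, HH4 g m θ ∂sig n = 4 * ∫ θ : Sph n, (g θ - m) ^ 2 ∂sig n +
      ∫ θ : Sph n, (‖gradient g (θ : E n)‖ ^ 2 - (inner ℝ (gradient g (θ : E n)) (θ : E n)) ^ 2)
        ∂sig n := by
    rw [← integral_const_mul, ← integral_add hG3 hG2]
    rfl
  rw [j4] at key
  rw [hVV]
  have hn0 : (0 : ℝ) < n := by exact_mod_cast hn
  have hcn : 0 < (n : ℝ) * c := mul_pos hn0 hc
  have hfin : (n : ℝ) * c * (2 * n * ∫ θ : Sph n, (g θ - m) ^ 2 ∂sig n) ≤
      (n : ℝ) * c * ∫ θ : Sph n, (‖gradient g (θ : E n)‖ ^ 2 -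
        (inner ℝ (gradient g (θ : E n)) (θ : E n)) ^ 2) ∂sig n := by
    nlinarith [key]
  exact le_of_mul_le_mul_left hfin hcn

end Pool.Agent.Work.MP_408f4b_gt.Q
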