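import Pool.Agent.Work.MP_408f4b_gt.Q.Stmts3

set_option autoImplicit false

/-!
# Item Haar
-/

namespace Pool.Agent.Work.MP_408f4b_gt.Q

open MeasureTheory Set Filter Topology

theorem prfHaar : clHaar := by
  intro F _ _ _ _ _ k
  have hp : IsProbabilityMeasure (hm F k) := by
    refine ⟨?_⟩
    have h1 := Measure.haarMeasure_self (K₀ := (⊤ : TopologicalSpace.PositiveCompacts (Un F k)))
    exact h1
  have hH : (hm F k).IsHaarMeasure := by unfold hm; infer_instance
  refine ⟨hp, fun B φ hφ => ?_⟩
  have hc : Continuous (fun A : Un F k => A * B) := continuous_mul_right B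
  have hB : Measure.map (fun A : Un F k => A * B) (hm F k) = hm F k := by
    have h1 : IsProbabilityMeasure (Measure.map (fun A : Un F k => A * B) (hm F k)) :=
      Measure.isProbabilityMeasure_map hc.measurable.aemeasurable
    have h2 : (Measure.map (fun A : Un F k => A * B) (hm F k)).IsHaarMeasure :=
      Measure.isHaarMeasure_map_mul_right (hm F k) B
    exact Measure.isHaarMeasure_eq_of_isProbabilityMeasure _ _
  have h3 : ∫ A, φ A ∂(Measure.map (fun A : Un F k => A * B) (hm F k)) =
      ∫ A, φ (A * B) ∂hm F k :=
    integral_map hc.measurable.aemeasurable hφ.aestronglyMeasurable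
  rw [← h3, hB]

end Pool.Agent.Work.MP_408f4b_gt.Q
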