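import Pool.Agent.Work.MP_408f4b_gt.Q.Stmts3

/-! Item InvF: the inequality for the invariant functions. -/

set_option autoImplicit false

namespace Pool.Agent.Work.MP_408f4b_gt.Q

open MeasureTheory Set

namespace JInvF

/-- the pointwise inequality -/
theorem pw (k w c : ℝ) (hw : 0 < w) : 2 * c * k - c ^ 2 * w⁻¹ ≤ k ^ 2 * w := by
  have h1 : k ^ 2 * w - (2 * c * k - c ^ 2 * w⁻¹) = (k - c / w) ^ 2 * w := by
    field_simp
    ring
  have h2 : 0 ≤ (k - c / w) ^ 2 * w := mul_nonneg (sq_nonneg _) hw.le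
  linarith

/-- the algebra at the end -/
theorem fin (a b w v c I J : ℝ) (hw : 0 < w) (hv : 0 < v) (h1 : c = b * v) (h2 : c = -(a * w))
    (hJ : 2 * c * (b - a) - c ^ 2 * J ≤ I) (hI : J ≤ w⁻¹ + v⁻¹) :
    b ^ 2 * v + a ^ 2 * w ≤ I := by
  have h3 : c ^ 2 * J ≤ c ^ 2 * (w⁻¹ + v⁻¹) := mul_le_mul_of_nonneg_left hI (sq_nonneg c)
  have h4 : c ^ 2 * v⁻¹ = b ^ 2 * v := by
    rw [h1]
    field_simp
  have h5 : c ^ 2 * w⁻¹ = a ^ 2 * w := by
    rw [h2]
    field_simp
  have h6 : 2 * c * (b - a) = 2 * (b ^ 2 * v) + 2 * (a ^ 2 * w) := by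
    have e1 : c * b = b ^ 2 * v := by rw [h1]; ring
    have e2 : c * a = -(a ^ 2 * w) := by rw [h2]; ring
    linear_combination 2 * e1 - 2 * e2
  rw [mul_add] at h3
  linarith

end JInvF

theorem prfInvF : clInvF := by
  intro L w K K' hL hwc hwp hint hK hK' h0
  have hu : uIcc (0 : ℝ) L = Icc 0 L := uIcc_of_le hL.le
  have hKi : IntervalIntegrable K' volume 0 L := by
    refine ContinuousOn.intervalIntegrable ?_
    rw [hu]
    exact hK'
  have hwi : IntervalIntegrable (fun s => (w s)⁻¹) volume 0 L := by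
    refine ContinuousOn.intervalIntegrable ?_
    rw [hu]
    exact hwc.inv₀ fun s hs => (hwp s hs).ne'
  have hsq : IntervalIntegrable (fun s => K' s ^ 2 * w s) volume 0 L := by
    refine ContinuousOn.intervalIntegrable ?_
    rw [hu]
    exact (hK'.pow 2).mul hwc
  have hFT : ∫ s in (0 : ℝ)..L, K' s = K L - K 0 := by
    refine intervalIntegral.integral_eq_sub_of_hasDerivAt ?_ hKi
    intro s hs
    rw [hu] at hs
    exact hK s hs
  set c : ℝ := K L * w L with hc
  have hmono : ∫ s in (0 : ℝ)..L, (2 * c * K' s - c ^ 2 * (w s)⁻¹) ≤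
      ∫ s in (0 : ℝ)..L, K' s ^ 2 * w s := by
    refine intervalIntegral.integral_mono_on hL.le ?_ hsq ?_
    · exact (hKi.const_mul _).sub (hwi.const_mul _)
    · intro s hs
      exact JInvF.pw (K' s) (w s) c (hwp s hs)
  rw [intervalIntegral.integral_sub (hKi.const_mul _) (hwi.const_mul _),
    intervalIntegral.integral_const_mul, intervalIntegral.integral_const_mul, hFT] at hmono
  exact JInvF.fin (K 0) (K L) (w 0) (w L) c _ _
    (hwp 0 ⟨le_rfl, hL.le⟩) (hwp L ⟨hL.le, le_rfl⟩) hc (by rw [hc]; linarith) hmono hint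

end Pool.Agent.Work.MP_408f4b_gt.Q
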