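import Pool.Agent.Work.MP_408f4b_gt.Q.Stmts3

set_option autoImplicit false

/-!
# Item P2C
-/

namespace Pool.Agent.Work.MP_408f4b_gt.Q

open MeasureTheory Set Filter Topology

namespace JP2C

lemma finite_sig (n : ℕ) : IsFiniteMeasure (sig n) := by
  unfold sig; infer_instance

variable {V : Type} [NormedAddCommGroup V] [InnerProductSpace ℝ V] [FiniteDimensional ℝ V]

/-- Integration over the sphere of a continuously differentiable function. -/
lemma contDiff_int (n : ℕ) (k : V × E n → ℝ) (hk : ContDiff ℝ 1 k) :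
    ContDiff ℝ 1 (fun v => ∫ u : Sph n, k (v, (u : E n)) ∂sig n) := by
  have hfin := finite_sig n
  have hpV : ProperSpace V := FiniteDimensional.proper ℝ V
  have hdk : Continuous (fderiv ℝ k) := hk.continuous_fderiv one_ne_zero
  set Dk : V → Sph n → (V →L[ℝ] ℝ) := fun v u =>
    (fderiv ℝ k (v, (u : E n))).comp (ContinuousLinearMap.inl ℝ V (E n)) with hDk
  have hDc : Continuous (fun z : V × Sph n => Dk z.1 z.2) := by
    have h1 : Continuous (fun z : V × Sph n => fderiv ℝ k (z.1, (z.2 : E n))) :=
      hdk.comp (continuous_fst.prodMk (continuous_subtype_val.comp continuous_snd))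
    exact h1.clm_comp continuous_const
  have hD : ∀ (v : V) (u : Sph n), HasFDerivAt (fun v => k (v, (u : E n))) (Dk v u) v := by
    intro v u
    have h1 : HasFDerivAt k (fderiv ℝ k (v, (u : E n))) (v, (u : E n)) :=
      (hk.differentiable one_ne_zero (v, (u : E n))).hasFDerivAt
    exact h1.comp v (hasFDerivAt_prodMk_left v (u : E n))
  have hkc : ∀ v, Continuous (fun u : Sph n => k (v, (u : E n))) := fun v =>
    hk.continuous.comp (continuous_const.prodMk continuous_subtype_val)
  have hmain : ∀ v, HasFDerivAt (fun v => ∫ u : Sph n, k (v, (u : E n)) ∂sig n)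
      (∫ u : Sph n, Dk v u ∂sig n) v := by
    intro v
    have hcomp : IsCompact (Metric.closedBall v 1 ×ˢ (univ : Set (Sph n))) :=
      (isCompact_closedBall v 1).prod isCompact_univ
    obtain ⟨C, hC⟩ := hcomp.exists_bound_of_continuousOn hDc.continuousOn
    refine hasFDerivAt_integral_of_dominated_of_fderiv_le (bound := fun _ => C)
      (Metric.closedBall_mem_nhds v one_pos) ?_ ?_ ?_ ?_ ?_ ?_
    · exact Eventually.of_forall fun v => (hkc v).aestronglyMeasurable
    · exact (hkc v).integrable_of_hasCompactSupport (HasCompactSupport.of_compactSpace _)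
    · exact (hDc.comp (Continuous.prodMk_right v)).aestronglyMeasurable
    · exact Eventually.of_forall fun u v' hv' => hC (v', u) ⟨hv', mem_univ _⟩
    · exact integrable_const C
    · exact Eventually.of_forall fun u v' _ => hD v' u
  rw [contDiff_one_iff_fderiv]
  refine ⟨fun v => (hmain v).differentiableAt, ?_⟩
  have h2 : fderiv ℝ (fun v => ∫ u : Sph n, k (v, (u : E n)) ∂sig n) =
      fun v => ∫ u : Sph n, Dk v u ∂sig n := funext fun v => (hmain v).fderiv
  rw [h2]
  have h3 := continuous_parametric_integral_of_continuous (μ := sig n) (f := Dk) hDc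
    (s := (univ : Set (Sph n))) isCompact_univ
  simpa only [Measure.restrict_univ] using h3

end JP2C

open JP2C in
theorem prfP2C (hψ : clPsi) : clP2C := by
  intro V _ _ _ n e Φ g hg
  have hfd : FiniteDimensional ℝ V := Φ.L.toLinearEquiv.finiteDimensional
  have h1 : ContDiff ℝ 1 (fun z : V × V => psi g z.1 z.2) := hψ V g hg
  have h2 : ContDiff ℝ 1 (fun z : V × E n => (z.1, Φ.prp z.1 (Φ.L z.2))) := by
    refine contDiff_fst.prodMk ?_
    unfold Frm.prp
    have hL : ContDiff ℝ 1 (fun z : V × E n => Φ.L z.2) :=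
      Φ.L.toContinuousLinearEquiv.contDiff.comp contDiff_snd
    have hJ : ∀ q, ContDiff ℝ 1 (fun z : V × E n => Φ.J q z.1) := fun q =>
      (Φ.J q).contDiff.comp contDiff_fst
    refine hL.sub (ContDiff.sum fun q _ => ?_)
    exact ((hJ q).inner ℝ hL).smul (hJ q)
  have h3 : ContDiff ℝ 1 (fun z : V × E n => psi g z.1 (Φ.prp z.1 (Φ.L z.2))) := h1.comp h2
  exact contDiff_const.mul (contDiff_int n _ h3)

end Pool.Agent.Work.MP_408f4b_gt.Q
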