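import Pool.Agent.Work.MP_408f4b_gt.Q.Stmts3

set_option autoImplicit false

/-!
# Item P2D: the gradient of `P2 g`
-/

namespace Pool.Agent.Work.MP_408f4b_gt.Q

open MeasureTheory Set Filter Topology

namespace JP2D

section alg

variable {V : Type} [NormedAddCommGroup V] [InnerProductSpace ℝ V] {n e : ℕ} (Φ : Frm V n e)

theorem inner_JJ (v : V) (hv : ‖v‖ = 1) (p q : Fin (e + 1)) :
    inner ℝ (Φ.J p v) (Φ.J q v) = if p = q then (1 : ℝ) else 0 := by
  split_ifs with h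
  · subst h
    rw [real_inner_self_eq_norm_sq, LinearIsometry.norm_map, hv, one_pow]
  · exact Φ.Jorth v p q h

/-- the sign -/
def sgq {e : ℕ} (q : Fin (e + 1)) : ℝ := if q = 0 then 1 else -1

theorem Js_eq (q : Fin (e + 1)) (v : V) : Φ.Js q v = sgq q • Φ.J q v := by
  unfold Frm.Js sgq
  split_ifs with h
  · subst h; rw [Φ.J0, one_smul]
  · rw [neg_smul, one_smul]

theorem norm_sub_sum (w z : V) (hw : ‖w‖ = 1) (c : Fin (e + 1) → ℝ) :
    ‖z - ∑ q, c q • Φ.J q w‖ ^ 2 =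
      ‖z‖ ^ 2 - 2 * ∑ q, c q * inner ℝ z (Φ.J q w) + ∑ q, c q ^ 2 := by
  rw [norm_sub_sq_real]
  have h1 : inner ℝ z (∑ q, c q • Φ.J q w) = ∑ q, c q * inner ℝ z (Φ.J q w) := by
    rw [inner_sum]
    simp_rw [inner_smul_right]
  have h2 : ‖∑ q, c q • Φ.J q w‖ ^ 2 = ∑ q, c q ^ 2 := by
    rw [← real_inner_self_eq_norm_sq, sum_inner]
    refine Finset.sum_congr rfl fun p _ => ?_
    rw [real_inner_smul_left, inner_sum]
    simp_rw [real_inner_smul_right, inner_JJ Φ w hw]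
    simp only [mul_ite, mul_one, mul_zero, Finset.sum_ite_eq, Finset.mem_univ, if_true]
    ring
  rw [h1, h2]

theorem prp_norm (v z : V) (hv : ‖v‖ = 1) :
    ‖Φ.prp v z‖ ^ 2 = ‖z‖ ^ 2 - ∑ q, (inner ℝ (Φ.J q v) z : ℝ) ^ 2 := by
  unfold Frm.prp
  rw [norm_sub_sum Φ v z hv]
  have h1 : ∀ q, inner ℝ z (Φ.J q v) = inner ℝ (Φ.J q v) z := fun q => real_inner_comm _ _
  simp_rw [h1]
  have h2 : ∑ q, (inner ℝ (Φ.J q v) z : ℝ) * inner ℝ (Φ.J q v) z =
      ∑ q, (inner ℝ (Φ.J q v) z : ℝ) ^ 2 := Finset.sum_congr rfl fun q _ => (sq _).symm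
  rw [h2]
  ring

theorem prp_orth (v z : V) (hv : ‖v‖ = 1) (p : Fin (e + 1)) :
    inner ℝ (Φ.J p v) (Φ.prp v z) = (0 : ℝ) := by
  unfold Frm.prp
  rw [inner_sub_right, inner_sum]
  simp_rw [real_inner_smul_right, inner_JJ Φ v hv]
  simp only [mul_ite, mul_one, mul_zero, Finset.sum_ite_eq, Finset.mem_univ, if_true, sub_self]

theorem prp_zero (v : V) : Φ.prp v 0 = 0 := by
  unfold Frm.prp
  simp

theorem pair_of (hJ : ∀ (q : Fin (e + 1)) (v w : V), inner ℝ (Φ.J q v) w = inner ℝ v (Φ.Js q w))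
    (v y : V) (hv : ‖v‖ = 1) (hy : y ≠ 0) (ho : ∀ p, inner ℝ (Φ.J p v) y = (0 : ℝ)) :
    Φ.Pair v (‖y‖⁻¹ • y) := by
  refine ⟨hv, ?_, fun q => ?_⟩
  · rw [norm_smul, norm_inv, norm_norm, inv_mul_cancel₀ (norm_ne_zero_iff.2 hy)]
  · have h1 := hJ q v y
    rw [ho q, Js_eq, real_inner_smul_right] at h1
    have h2 : sgq q ≠ 0 := by unfold sgq; split_ifs <;> norm_num
    have h3 : inner ℝ v (Φ.J q y) = (0 : ℝ) := by
      rcases mul_eq_zero.1 h1.symm with h | h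
      · exact absurd h h2
      · exact h
    rw [map_smul, real_inner_smul_right, h3, mul_zero]

end alg

section alg2

variable {V : Type} [NormedAddCommGroup V] [InnerProductSpace ℝ V] [CompleteSpace V] {n e : ℕ}
  (Φ : Frm V n e)

/-- the vector field -/
noncomputable def Y (g : V → V → ℝ) (v w : V) : V :=
  gr1 g v w - ∑ q, (inner ℝ (gr2 g v w) (Φ.J q v) : ℝ) • Φ.Js q w

theorem Y_eq (g : V → V → ℝ) (v w : V) :
    Y Φ g v w = gr1 g v w - ∑ q, (inner ℝ (gr2 g v w) (Φ.Js q v) : ℝ) • Φ.J q w := by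
  unfold Y
  congr 1
  refine Finset.sum_congr rfl fun q _ => ?_
  rw [Js_eq, Js_eq, real_inner_smul_right, smul_smul]
  congr 1
  ring

theorem Y_sq (g : V → V → ℝ) (v w : V) (h : Φ.Pair v w) :
    ‖Y Φ g v w‖ ^ 2 - (inner ℝ (Y Φ g v w) v) ^ 2 = Φ.n1 g v w + ∑ q, Φ.om q g v w ^ 2 := by
  obtain ⟨hv, hw, ho⟩ := h
  rw [Y_eq, norm_sub_sum Φ w _ hw]
  have h1 : inner ℝ (gr1 g v w - ∑ q, (inner ℝ (gr2 g v w) (Φ.Js q v) : ℝ) • Φ.J q w) v =
      inner ℝ (gr1 g v w) v := by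
    rw [inner_sub_left, sum_inner]
    have h2 : ∀ q, inner ℝ ((inner ℝ (gr2 g v w) (Φ.Js q v) : ℝ) • Φ.J q w) v = (0 : ℝ) := by
      intro q
      rw [real_inner_smul_left, real_inner_comm v (Φ.J q w), ho q, mul_zero]
    simp [h2]
  rw [h1]
  unfold Frm.n1 Frm.om
  have h3 : ∑ q, (inner ℝ (gr1 g v w) (Φ.J q w) - inner ℝ (gr2 g v w) (Φ.Js q v) : ℝ) ^ 2 =
      ∑ q, (inner ℝ (gr1 g v w) (Φ.J q w) : ℝ) ^ 2
      - 2 * ∑ q, (inner ℝ (gr2 g v w) (Φ.Js q v) : ℝ) * inner ℝ (gr1 g v w) (Φ.J q w)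
      + ∑ q, (inner ℝ (gr2 g v w) (Φ.Js q v) : ℝ) ^ 2 := by
    rw [Finset.mul_sum, ← Finset.sum_sub_distrib, ← Finset.sum_add_distrib]
    refine Finset.sum_congr rfl fun q _ => ?_
    ring
  rw [h3]
  ring

theorem Y_le (g : V → V → ℝ) (v w h : V) (hvw : Φ.Pair v w) (hh : inner ℝ v h = (0 : ℝ)) :
    2 * inner ℝ (Y Φ g v w) h ≤ (Φ.n1 g v w + ∑ q, Φ.om q g v w ^ 2) + ‖h‖ ^ 2 := by
  rw [← Y_sq Φ g v w hvw]
  have h0 : 0 ≤ ‖(Y Φ g v w - (inner ℝ (Y Φ g v w) v : ℝ) • v) - h‖ ^ 2 := sq_nonneg _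
  rw [norm_sub_sq_real, norm_sub_sq_real, inner_sub_left, real_inner_smul_left, hh,
    real_inner_smul_right, norm_smul, hvw.1, mul_one, Real.norm_eq_abs, sq_abs] at h0
  nlinarith [h0]

theorem gr1_eq (g : V → V → ℝ) (hg : ContDiff ℝ 1 (fun z : V × V => g z.1 z.2)) (v w : V) :
    gr1 g v w = (InnerProductSpace.toDual ℝ V).symm
      ((fderiv ℝ (fun z : V × V => g z.1 z.2) (v, w)).comp (ContinuousLinearMap.inl ℝ V V)) := by
  unfold gr1 gradient
  congr 1
  have h1 : HasFDerivAt (fun z : V × V => g z.1 z.2)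
      (fderiv ℝ (fun z : V × V => g z.1 z.2) (v, w)) (v, w) :=
    (hg.differentiable (by norm_num) _).hasFDerivAt
  have h2 : HasFDerivAt (fun v' : V => (v', w)) (ContinuousLinearMap.inl ℝ V V) v :=
    hasFDerivAt_prodMk_left v w
  exact (HasFDerivAt.comp (g := fun z : V × V => g z.1 z.2) v h1 h2).fderiv

theorem gr2_eq (g : V → V → ℝ) (hg : ContDiff ℝ 1 (fun z : V × V => g z.1 z.2)) (v w : V) :
    gr2 g v w = (InnerProductSpace.toDual ℝ V).symm
      ((fderiv ℝ (fun z : V × V => g z.1 z.2) (v, w)).comp (ContinuousLinearMap.inr ℝ V V)) := by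
  unfold gr2 gradient
  congr 1
  have h1 : HasFDerivAt (fun z : V × V => g z.1 z.2)
      (fderiv ℝ (fun z : V × V => g z.1 z.2) (v, w)) (v, w) :=
    (hg.differentiable (by norm_num) _).hasFDerivAt
  have h2 : HasFDerivAt (fun w' : V => (v, w')) (ContinuousLinearMap.inr ℝ V V) w :=
    hasFDerivAt_prodMk_right v w
  exact (HasFDerivAt.comp (g := fun z : V × V => g z.1 z.2) w h1 h2).fderiv

theorem gr1_cont (g : V → V → ℝ) (hg : ContDiff ℝ 1 (fun z : V × V => g z.1 z.2)) (v : V) :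
    Continuous (fun w => gr1 g v w) := by
  have h1 : (fun w => gr1 g v w) = fun w => (InnerProductSpace.toDual ℝ V).symm
      ((fderiv ℝ (fun z : V × V => g z.1 z.2) (v, w)).comp (ContinuousLinearMap.inl ℝ V V)) :=
    funext fun w => gr1_eq g hg v w
  rw [h1]
  refine (LinearIsometryEquiv.continuous _).comp ?_
  have h2 : Continuous (fun w => fderiv ℝ (fun z : V × V => g z.1 z.2) (v, w)) :=
    (hg.continuous_fderiv (by norm_num)).comp (by fun_prop)
  exact h2.clm_comp continuous_const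

theorem gr2_cont (g : V → V → ℝ) (hg : ContDiff ℝ 1 (fun z : V × V => g z.1 z.2)) (v : V) :
    Continuous (fun w => gr2 g v w) := by
  have h1 : (fun w => gr2 g v w) = fun w => (InnerProductSpace.toDual ℝ V).symm
      ((fderiv ℝ (fun z : V × V => g z.1 z.2) (v, w)).comp (ContinuousLinearMap.inr ℝ V V)) :=
    funext fun w => gr2_eq g hg v w
  rw [h1]
  refine (LinearIsometryEquiv.continuous _).comp ?_
  have h2 : Continuous (fun w => fderiv ℝ (fun z : V × V => g z.1 z.2) (v, w)) :=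
    (hg.continuous_fderiv (by norm_num)).comp (by fun_prop)
  exact h2.clm_comp continuous_const

theorem Y_cont (g : V → V → ℝ) (hg : ContDiff ℝ 1 (fun z : V × V => g z.1 z.2)) (v : V) :
    Continuous (fun w => Y Φ g v w) := by
  have h1 : (fun w => Y Φ g v w) = fun w =>
      gr1 g v w - ∑ q, (inner ℝ (gr2 g v w) (Φ.Js q v) : ℝ) • Φ.J q w :=
    funext fun w => Y_eq Φ g v w
  rw [h1]
  refine (gr1_cont g hg v).sub (continuous_finsetSum _ fun q _ => ?_)
  exact ((gr2_cont g hg v).inner continuous_const).smul (Φ.J q).continuous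

theorem N_cont (g : V → V → ℝ) (hg : ContDiff ℝ 1 (fun z : V × V => g z.1 z.2)) (v : V) :
    Continuous (fun w => Φ.n1 g v w + ∑ q, Φ.om q g v w ^ 2) := by
  unfold Frm.n1 Frm.om
  have h1 := gr1_cont g hg v
  have h2 := gr2_cont g hg v
  refine Continuous.add (((h1.norm.pow 2).sub ((h1.inner continuous_const).pow 2)).sub
    (continuous_finsetSum _ fun q _ => (h1.inner (Φ.J q).continuous).pow 2))
    (continuous_finsetSum _ fun q _ => ?_)
  exact ((h1.inner (Φ.J q).continuous).sub (h2.inner continuous_const)).pow 2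

end alg2

section analysis

variable {V : Type} [NormedAddCommGroup V] [InnerProductSpace ℝ V]

theorem cont_psi [ProperSpace V] (F : V → ℝ) (hF : Continuous F) :
    Continuous (fun y : V => ‖y‖ ^ 2 * F (‖y‖⁻¹ • y)) := by
  rw [continuous_iff_continuousAt]
  intro y
  by_cases hy : y = 0
  · subst hy
    obtain ⟨M, hM⟩ := (isCompact_closedBall (0 : V) 1).exists_bound_of_continuousOn
      hF.continuousOn
    have hb : ∀ y : V, ‖F (‖y‖⁻¹ • y)‖ ≤ M := by
      intro y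
      refine hM _ ?_
      rw [mem_closedBall_zero_iff, norm_smul, norm_inv, norm_norm]
      exact inv_mul_le_one
    have h0 : ‖(0 : V)‖ ^ 2 * F (‖(0 : V)‖⁻¹ • (0 : V)) = 0 := by simp
    show Tendsto _ _ (𝓝 (‖(0 : V)‖ ^ 2 * F (‖(0 : V)‖⁻¹ • (0 : V))))
    rw [h0]
    refine squeeze_zero_norm (a := fun y => ‖y‖ ^ 2 * M) ?_ ?_
    · intro y
      rw [norm_mul, norm_pow, norm_norm]
      exact mul_le_mul_of_nonneg_left (hb y) (by positivity)
    · have h1 : Continuous (fun y : V => ‖y‖ ^ 2 * M) := by fun_prop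
      have h2 := h1.tendsto 0
      simpa using h2
  · have h1 : ‖y‖ ≠ 0 := norm_ne_zero_iff.2 hy
    exact (continuousAt_id.norm.pow 2).mul
      (hF.continuousAt.comp ((continuousAt_id.norm.inv₀ h1).smul continuousAt_id))

theorem finsig (n : ℕ) : IsFiniteMeasure (sig n) := by
  unfold sig
  infer_instance

attribute [local instance] finsig

theorem integrable_sph {n : ℕ} (F : Sph n → ℝ) (hF : Continuous F) : Integrable F (sig n) :=
  hF.integrable_of_hasCompactSupport (HasCompactSupport.of_compactSpace F)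

theorem prp_cont {n e : ℕ} (Φ : Frm V n e) (v : V) : Continuous (Φ.prp v) := by
  unfold Frm.prp
  fun_prop

end analysis

section main0

variable {V : Type} [NormedAddCommGroup V] [InnerProductSpace ℝ V] {n e : ℕ} (Φ : Frm V n e)

include Φ in
theorem proper : ProperSpace V := by
  have : FiniteDimensional ℝ V := LinearEquiv.finiteDimensional Φ.L.toLinearEquiv
  exact FiniteDimensional.proper ℝ V

theorem int_inner (hS : clSig) (x x' : V) (h : ‖x‖ = ‖x'‖) :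
    ∫ u : Sph n, (inner ℝ x (Φ.L u) : ℝ) ^ 2 ∂sig n =
      ∫ u : Sph n, (inner ℝ x' (Φ.L u) : ℝ) ^ 2 ∂sig n := by
  set p := Φ.L.symm x with hp
  set p' := Φ.L.symm x' with hp'
  have hn : ‖p‖ = ‖p'‖ := by rw [hp, hp', LinearIsometryEquiv.norm_map,
    LinearIsometryEquiv.norm_map, h]
  have h1 : ∀ (z : V) (u : E n), (inner ℝ z (Φ.L u) : ℝ) = inner ℝ (Φ.L.symm z) u := by
    intro z u
    rw [← LinearIsometryEquiv.inner_map_map Φ.L (Φ.L.symm z) u,
      LinearIsometryEquiv.apply_symm_apply]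
  set T : E n ≃ₗᵢ[ℝ] E n := (Submodule.span ℝ {p - p'})ᗮ.reflection with hT
  have hTp : T p = p' := Submodule.reflection_sub hn
  have h2 := hS n T.toLinearIsometry (fun θ => (inner ℝ p' θ : ℝ) ^ 2) (by fun_prop)
  have h3 : ∀ θ : E n, (inner ℝ p' (T θ) : ℝ) = inner ℝ p θ := by
    intro θ
    rw [← hTp, LinearIsometryEquiv.inner_map_map]
  simp only [h1]
  rw [← hp, ← hp', ← h2]
  refine integral_congr_ae (Eventually.of_forall fun u => ?_)
  show (inner ℝ p (u : E n) : ℝ) ^ 2 = (inner ℝ p' (T (u : E n)) : ℝ) ^ 2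
  rw [h3]

end main0

section main

variable {V : Type} [NormedAddCommGroup V] [InnerProductSpace ℝ V] [CompleteSpace V] {n e : ℕ}
  (Φ : Frm V n e)

omit [CompleteSpace V] in
theorem int_prp (hS : clSig) (v : V) (hv : ‖v‖ = 1) :
    ∫ u : Sph n, ‖Φ.prp v (Φ.L u)‖ ^ 2 ∂sig n = Φ.cc := by
  have key : ∀ x : V, ‖x‖ = 1 → ∫ u : Sph n, ‖Φ.prp x (Φ.L u)‖ ^ 2 ∂sig n =
      ∫ u : Sph n, ‖Φ.L (u : E n)‖ ^ 2 ∂sig n -
        ∑ q, ∫ u : Sph n, (inner ℝ (Φ.J q x) (Φ.L u) : ℝ) ^ 2 ∂sig n := by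
    intro x hx
    simp_rw [prp_norm Φ x _ hx]
    rw [integral_sub, integral_finsetSum]
    · intro q _
      refine integrable_sph _ ?_
      fun_prop
    · refine integrable_sph _ ?_
      fun_prop
    · refine integrable_sph _ ?_
      fun_prop
  unfold Frm.cc
  rw [key v hv, key Φ.a Φ.ha]
  congr 1
  refine Finset.sum_congr rfl fun q _ => ?_
  refine int_inner Φ hS _ _ ?_
  rw [LinearIsometry.norm_map, LinearIsometry.norm_map, hv, Φ.ha]

omit [CompleteSpace V] in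
theorem P2_le (hJ : ∀ (q : Fin (e + 1)) (v w : V), inner ℝ (Φ.J q v) w = inner ℝ v (Φ.Js q w))
    (hS : clSig) (v : V) (hv : ‖v‖ = 1) (F N : V → V → ℝ) (c : ℝ) (hc : 0 ≤ c)
    (hF : Continuous (F v)) (hN : Continuous (N v))
    (h : ∀ w, Φ.Pair v w → 2 * F v w ≤ N v w + c) : 2 * Φ.P2 F v ≤ Φ.P2 N v + c := by
  have := proper Φ
  have hcc : 0 ≤ Φ.cc := integral_nonneg fun u => by positivity
  have hL : Continuous (fun u : Sph n => Φ.prp v (Φ.L u)) :=
    (prp_cont Φ v).comp (Φ.L.continuous.comp continuous_subtype_val)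
  have iF : Integrable (fun u : Sph n => psi F v (Φ.prp v (Φ.L u))) (sig n) :=
    integrable_sph _ ((cont_psi (F v) hF).comp hL)
  have iN : Integrable (fun u : Sph n => psi N v (Φ.prp v (Φ.L u))) (sig n) :=
    integrable_sph _ ((cont_psi (N v) hN).comp hL)
  have iP : Integrable (fun u : Sph n => ‖Φ.prp v (Φ.L u)‖ ^ 2) (sig n) :=
    integrable_sph _ (hL.norm.pow 2)
  have h1 : 2 * ∫ u : Sph n, psi F v (Φ.prp v (Φ.L u)) ∂sig n ≤
      ∫ u : Sph n, psi N v (Φ.prp v (Φ.L u)) ∂sig n + c * Φ.cc := by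
    rw [← int_prp Φ hS v hv, ← integral_const_mul, ← integral_const_mul, ← integral_add iN
      (iP.const_mul c)]
    refine integral_mono (iF.const_mul 2) (iN.add (iP.const_mul c)) fun u => ?_
    show 2 * psi F v (Φ.prp v (Φ.L u)) ≤
      psi N v (Φ.prp v (Φ.L u)) + c * ‖Φ.prp v (Φ.L u)‖ ^ 2
    unfold psi
    by_cases hy : Φ.prp v (Φ.L (u : E n)) = 0
    · rw [hy]
      simp
    · have h2 := h _ (pair_of Φ hJ v _ hv hy (prp_orth Φ v _ hv))
      have h3 : 0 ≤ ‖Φ.prp v (Φ.L (u : E n))‖ ^ 2 := by positivity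
      nlinarith [mul_le_mul_of_nonneg_left h2 h3]
  unfold Frm.P2
  have h4 : 0 ≤ Φ.cc⁻¹ := inv_nonneg.2 hcc
  have h5 := mul_le_mul_of_nonneg_left h1 h4
  have h6 : Φ.cc⁻¹ * Φ.cc ≤ 1 := inv_mul_le_one
  have h7 : Φ.cc⁻¹ * (c * Φ.cc) ≤ c := by
    have := mul_le_mul_of_nonneg_left h6 hc
    nlinarith
  nlinarith

end main

end JP2D

theorem prfP2D (hP : clPair) (hS : clSig) (hE : clP2E) : clP2D := by
  intro V _ _ _ n e Φ g hg v hv
  have hJ := (hP V n e Φ).1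
  set Gr := gradient (Φ.P2 g) v with hGr
  set h := Gr - (inner ℝ Gr v : ℝ) • v with hh
  have h1 : inner ℝ v h = (0 : ℝ) := by
    rw [hh, inner_sub_right, real_inner_smul_right, real_inner_self_eq_norm_sq, hv,
      real_inner_comm]
    ring
  have h2 : inner ℝ Gr h = ‖h‖ ^ 2 := by
    have h3 : Gr = h + (inner ℝ Gr v : ℝ) • v := by rw [hh]; abel
    have h4 : inner ℝ Gr h = inner ℝ (h + (inner ℝ Gr v : ℝ) • v) h := by rw [← h3]
    rw [h4, inner_add_left, real_inner_smul_left, h1, mul_zero, add_zero,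
      real_inner_self_eq_norm_sq]
  have h3 : ‖h‖ ^ 2 = ‖Gr‖ ^ 2 - (inner ℝ Gr v) ^ 2 := by
    rw [← h2, hh, inner_sub_right, real_inner_smul_right, real_inner_self_eq_norm_sq]
    ring
  have h4 := hE V n e Φ g hg v h hv h1
  rw [← hGr, h2] at h4
  have h5 := JP2D.P2_le Φ hJ hS v hv (fun v w => inner ℝ (JP2D.Y Φ g v w) h)
    (fun v w => Φ.n1 g v w + ∑ q, Φ.om q g v w ^ 2) (‖h‖ ^ 2) (by positivity)
    ((JP2D.Y_cont Φ g hg v).inner continuous_const) (JP2D.N_cont Φ g hg v)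
    (fun w hw => JP2D.Y_le Φ g v w h hw h1)
  rw [← h3]
  have h6 : Φ.P2 (fun v w => inner ℝ (JP2D.Y Φ g v w) h) v = ‖h‖ ^ 2 := h4.symm
  rw [h6] at h5
  linarith

end Pool.Agent.Work.MP_408f4b_gt.Q
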