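import Pool.Agent.Work.MP_408f4b_gt.Q.Stmts3

set_option autoImplicit false

/-!
# Item P2E: the derivative of `P2 g`
-/

namespace Pool.Agent.Work.MP_408f4b_gt.Q

open MeasureTheory Set Filter Topology

namespace JP2E

lemma finite_sig (n : ℕ) : IsFiniteMeasure (sig n) := by
  unfold sig; infer_instance

attribute [local instance] finite_sig

lemma integrable_sph {W : Type} [NormedAddCommGroup W] {n : ℕ} (F : Sph n → W)
    (hF : Continuous F) : Integrable F (sig n) :=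
  hF.integrable_of_hasCompactSupport (HasCompactSupport.of_compactSpace F)

section int

variable {V : Type} [NormedAddCommGroup V] [InnerProductSpace ℝ V] [FiniteDimensional ℝ V]

/-- Differentiation under the integral over the sphere. -/
lemma fderiv_int (n : ℕ) (k : V × E n → ℝ) (hk : ContDiff ℝ 1 k) (v h : V) :
    DifferentiableAt ℝ (fun v => ∫ u : Sph n, k (v, (u : E n)) ∂sig n) v ∧
    fderiv ℝ (fun v => ∫ u : Sph n, k (v, (u : E n)) ∂sig n) v h =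
      ∫ u : Sph n, fderiv ℝ k (v, (u : E n)) (h, 0) ∂sig n := by
  have hpV : ProperSpace V := FiniteDimensional.proper ℝ V
  have hdk : Continuous (fderiv ℝ k) := hk.continuous_fderiv one_ne_zero
  set Dk : V → Sph n → (V →L[ℝ] ℝ) := fun v u =>
    (fderiv ℝ k (v, (u : E n))).comp (ContinuousLinearMap.inl ℝ V (E n)) with hDk
  have hDc : Continuous (fun z : V × Sph n => Dk z.1 z.2) := by
    have h1 : Continuous (fun z : V × Sph n => fderiv ℝ k (z.1, (z.2 : E n))) :=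
      hdk.comp (continuous_fst.prodMk (continuous_subtype_val.comp continuous_snd))
    exact h1.clm_comp continuous_const
  have hD : ∀ (v : V) (u : Sph n), HasFDerivAt (fun v => k (v, (u : E n))) (Dk v u) v := by
    intro v u
    have h1 : HasFDerivAt k (fderiv ℝ k (v, (u : E n))) (v, (u : E n)) :=
      (hk.differentiable one_ne_zero (v, (u : E n))).hasFDerivAt
    exact h1.comp v (hasFDerivAt_prodMk_left v (u : E n))
  have hkc : ∀ v, Continuous (fun u : Sph n => k (v, (u : E n))) := fun v =>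
    hk.continuous.comp (continuous_const.prodMk continuous_subtype_val)
  have hDi : Integrable (Dk v) (sig n) := integrable_sph _ (hDc.comp (Continuous.prodMk_right v))
  have hmain : HasFDerivAt (fun v => ∫ u : Sph n, k (v, (u : E n)) ∂sig n)
      (∫ u : Sph n, Dk v u ∂sig n) v := by
    have hcomp : IsCompact (Metric.closedBall v 1 ×ˢ (univ : Set (Sph n))) :=
      (isCompact_closedBall v 1).prod isCompact_univ
    obtain ⟨C, hC⟩ := hcomp.exists_bound_of_continuousOn hDc.continuousOn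
    refine hasFDerivAt_integral_of_dominated_of_fderiv_le (bound := fun _ => C)
      (Metric.closedBall_mem_nhds v one_pos) ?_ ?_ ?_ ?_ ?_ ?_
    · exact Eventually.of_forall fun v => (hkc v).aestronglyMeasurable
    · exact integrable_sph _ (hkc v)
    · exact (hDc.comp (Continuous.prodMk_right v)).aestronglyMeasurable
    · exact Eventually.of_forall fun u v' hv' => hC (v', u) ⟨hv', mem_univ _⟩
    · exact integrable_const C
    · exact Eventually.of_forall fun u v' _ => hD v' u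
  refine ⟨hmain.differentiableAt, ?_⟩
  rw [hmain.fderiv, ContinuousLinearMap.integral_apply hDi]
  refine integral_congr_ae (Eventually.of_forall fun u => ?_)
  simp [hDk]

end int

section alg

variable {V : Type} [NormedAddCommGroup V] [InnerProductSpace ℝ V] {n e : ℕ} (Φ : Frm V n e)

theorem inner_JJ (v : V) (hv : ‖v‖ = 1) (p q : Fin (e + 1)) :
    inner ℝ (Φ.J p v) (Φ.J q v) = if p = q then (1 : ℝ) else 0 := by
  split_ifs with h
  · subst h
    rw [real_inner_self_eq_norm_sq, LinearIsometry.norm_map, hv, one_pow]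
  · exact Φ.Jorth v p q h

/-- the sign -/
def sgq {e : ℕ} (q : Fin (e + 1)) : ℝ := if q = 0 then 1 else -1

theorem Js_eq (q : Fin (e + 1)) (v : V) : Φ.Js q v = sgq q • Φ.J q v := by
  unfold Frm.Js sgq
  split_ifs with h
  · subst h; rw [Φ.J0, one_smul]
  · rw [neg_smul, one_smul]

theorem prp_orth (v z : V) (hv : ‖v‖ = 1) (p : Fin (e + 1)) :
    inner ℝ (Φ.J p v) (Φ.prp v z) = (0 : ℝ) := by
  unfold Frm.prp
  rw [inner_sub_right, inner_sum]
  simp_rw [real_inner_smul_right, inner_JJ Φ v hv]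
  simp only [mul_ite, mul_one, mul_zero, Finset.sum_ite_eq, Finset.mem_univ, if_true, sub_self]

theorem prp_of_orth (v y : V) (h : ∀ p, inner ℝ (Φ.J p v) y = (0 : ℝ)) : Φ.prp v y = y := by
  unfold Frm.prp
  simp [h]

theorem prp_add (v x y : V) : Φ.prp v (x + y) = Φ.prp v x + Φ.prp v y := by
  unfold Frm.prp
  simp only [inner_add_right, add_smul, Finset.sum_add_distrib]
  abel

theorem prp_smul (v x : V) (c : ℝ) : Φ.prp v (c • x) = c • Φ.prp v x := by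
  unfold Frm.prp
  simp only [real_inner_smul_right, mul_smul, smul_sub, Finset.smul_sum]

theorem prp_eq (v z : V) : z = Φ.prp v z + ∑ q, (inner ℝ (Φ.J q v) z : ℝ) • Φ.J q v := by
  unfold Frm.prp
  abel

/-- the orthogonal complement of the line of `v` is invariant -/
theorem orthJ (v x : V) (h : ∀ q, inner ℝ (Φ.J q v) x = (0 : ℝ)) (p q : Fin (e + 1)) :
    inner ℝ (Φ.J p v) (Φ.J q x) = (0 : ℝ) := by
  rw [real_inner_comm]
  exact Φ.orthC x v (fun q => by rw [real_inner_comm]; exact h q) q p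

theorem orthJJ (hJ : ∀ (q : Fin (e + 1)) (v w : V), inner ℝ (Φ.J q v) w = inner ℝ v (Φ.Js q w))
    (v x : V) (h : ∀ q, inner ℝ (Φ.J q v) x = (0 : ℝ)) (p q : Fin (e + 1)) :
    inner ℝ (Φ.J q (Φ.J p v)) x = (0 : ℝ) := by
  rw [hJ, Js_eq, real_inner_smul_right, orthJ Φ v x h p q, mul_zero]

/-- the projection depends only on the line -/
theorem prp_congr (v w z : V) (hv : ‖v‖ = 1) (hw : ‖w‖ = 1)
    (h1 : ∀ x, (∀ q, inner ℝ (Φ.J q v) x = (0 : ℝ)) → ∀ q, inner ℝ (Φ.J q w) x = (0 : ℝ))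
    (h2 : ∀ x, (∀ q, inner ℝ (Φ.J q w) x = (0 : ℝ)) → ∀ q, inner ℝ (Φ.J q v) x = (0 : ℝ)) :
    Φ.prp w z = Φ.prp v z := by
  have hv' := prp_orth Φ v z hv
  have hw' := prp_orth Φ w z hw
  have hv'' := h1 _ hv'
  have hw'' := h2 _ hw'
  set d := Φ.prp w z - Φ.prp v z with hd
  have hd1 : ∀ q, inner ℝ (Φ.J q v) d = (0 : ℝ) := fun q => by
    rw [hd, inner_sub_right, hw'' q, hv' q, sub_zero]
  have hd2 : ∀ q, inner ℝ (Φ.J q w) d = (0 : ℝ) := fun q => by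
    rw [hd, inner_sub_right, hw' q, hv'' q, sub_zero]
  have h3 : d = ∑ q, (inner ℝ (Φ.J q v) z : ℝ) • Φ.J q v -
      ∑ q, (inner ℝ (Φ.J q w) z : ℝ) • Φ.J q w := by
    rw [hd]
    unfold Frm.prp
    abel
  have h4 : inner ℝ d d = (0 : ℝ) := by
    have h5 := congrArg (fun x => (inner ℝ x d : ℝ)) h3
    simp only [inner_sub_left, sum_inner, real_inner_smul_left, hd1, hd2, mul_zero,
      Finset.sum_const_zero, sub_zero] at h5
    exact h5
  exact sub_eq_zero.1 (inner_self_eq_zero.1 h4)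

theorem orth_rot (hJ : ∀ (q : Fin (e + 1)) (v w : V), inner ℝ (Φ.J q v) w = inner ℝ v (Φ.Js q w))
    (v x : V) (p : Fin (e + 1)) (c s : ℝ) (h : ∀ q, inner ℝ (Φ.J q v) x = (0 : ℝ))
    (q : Fin (e + 1)) : inner ℝ (Φ.J q (c • v + s • Φ.J p v)) x = (0 : ℝ) := by
  rw [map_add, map_smul, map_smul, inner_add_left, real_inner_smul_left, real_inner_smul_left, h q,
    orthJJ Φ hJ v x h p q]
  ring

theorem norm_rot (v : V) (hv : ‖v‖ = 1) (p : Fin (e + 1)) (hp : p ≠ 0) (t : ℝ) :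
    ‖Real.cos t • v + Real.sin t • Φ.J p v‖ = 1 := by
  have h0 : inner ℝ v (Φ.J p v) = (0 : ℝ) := by
    have := Φ.Jorth v 0 p (Ne.symm hp)
    rwa [Φ.J0] at this
  have h1 : ‖Real.cos t • v + Real.sin t • Φ.J p v‖ ^ 2 = 1 := by
    rw [norm_add_sq_real, real_inner_smul_left, real_inner_smul_right, h0, norm_smul, norm_smul,
      LinearIsometry.norm_map, hv, Real.norm_eq_abs, Real.norm_eq_abs, mul_one, mul_one, sq_abs,
      sq_abs]
    linarith [Real.cos_sq_add_sin_sq t]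
  have h2 : 0 ≤ ‖Real.cos t • v + Real.sin t • Φ.J p v‖ := norm_nonneg _
  nlinarith

theorem prp_rot (hJ : ∀ (q : Fin (e + 1)) (v w : V), inner ℝ (Φ.J q v) w = inner ℝ v (Φ.Js q w))
    (v z : V) (hv : ‖v‖ = 1) (p : Fin (e + 1)) (hp : p ≠ 0) (t : ℝ) :
    Φ.prp (Real.cos t • v + Real.sin t • Φ.J p v) z = Φ.prp v z := by
  set w := Real.cos t • v + Real.sin t • Φ.J p v with hw
  have hvw : v = Real.cos t • w + (-Real.sin t) • Φ.J p w := by
    rw [hw, map_add, map_smul, map_smul, Φ.Jsq p hp v]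
    have h1 := Real.cos_sq_add_sin_sq t
    have h2 : (Real.cos t ^ 2 + Real.sin t ^ 2) • v = v := by rw [h1, one_smul]
    conv_lhs => rw [← h2]
    module
  refine prp_congr Φ v w z hv (norm_rot Φ v hv p hp t) (fun x hx q => ?_) (fun x hx q => ?_)
  · exact orth_rot Φ hJ v x p _ _ hx q
  · rw [hvw]
    exact orth_rot Φ hJ w x p _ _ hx q

/-- The reflection. -/
noncomputable def refl (v : V) (hv : ‖v‖ = 1) : E n →ₗᵢ[ℝ] E n where
  toFun θ := Φ.L.symm ((2 : ℝ) • Φ.prp v (Φ.L θ) - Φ.L θ)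
  map_add' x y := by
    rw [← map_add]
    congr 1
    rw [map_add, prp_add]
    module
  map_smul' c x := by
    rw [RingHom.id_apply, ← map_smul]
    congr 1
    rw [map_smul, prp_smul]
    module
  norm_map' x := by
    show ‖Φ.L.symm ((2 : ℝ) • Φ.prp v (Φ.L x) - Φ.L x)‖ = ‖x‖
    rw [LinearIsometryEquiv.norm_map, ← LinearIsometryEquiv.norm_map Φ.L x]
    set z := Φ.L x
    have h1 : inner ℝ (Φ.prp v z) z = ‖Φ.prp v z‖ ^ 2 := by
      have h2 : ∀ q, inner ℝ (Φ.prp v z) ((inner ℝ (Φ.J q v) z : ℝ) • Φ.J q v) = (0 : ℝ) := by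
        intro q
        rw [real_inner_smul_right, real_inner_comm (Φ.J q v) (Φ.prp v z), prp_orth Φ v z hv q,
          mul_zero]
      have h5 := congrArg (fun x => (inner ℝ (Φ.prp v z) x : ℝ)) (prp_eq Φ v z)
      simp only [inner_add_right, inner_sum, real_inner_self_eq_norm_sq, h2,
        Finset.sum_const_zero, add_zero] at h5
      exact h5
    have h3 : ‖(2 : ℝ) • Φ.prp v z - z‖ ^ 2 = ‖z‖ ^ 2 := by
      rw [norm_sub_sq_real, real_inner_smul_left, h1, norm_smul, Real.norm_eq_abs, abs_two]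
      ring
    exact (sq_eq_sq₀ (norm_nonneg _) (norm_nonneg _)).1 h3

theorem L_refl (v : V) (hv : ‖v‖ = 1) (θ : E n) :
    Φ.L (refl Φ v hv θ) = (2 : ℝ) • Φ.prp v (Φ.L θ) - Φ.L θ := by
  show Φ.L (Φ.L.symm ((2 : ℝ) • Φ.prp v (Φ.L θ) - Φ.L θ)) = _
  rw [LinearIsometryEquiv.apply_symm_apply]

theorem prp_refl (v : V) (hv : ‖v‖ = 1) (θ : E n) :
    Φ.prp v (Φ.L (refl Φ v hv θ)) = Φ.prp v (Φ.L θ) := by
  rw [L_refl, sub_eq_add_neg, prp_add, prp_smul, prp_of_orth Φ v _ (prp_orth Φ v _ hv),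
    ← neg_one_smul ℝ (Φ.L θ), prp_smul]
  module

theorem inner_refl (v : V) (hv : ‖v‖ = 1) (θ : E n) (q : Fin (e + 1)) :
    inner ℝ (Φ.J q v) (Φ.L (refl Φ v hv θ)) = -(inner ℝ (Φ.J q v) (Φ.L θ) : ℝ) := by
  rw [L_refl, inner_sub_right, real_inner_smul_right, prp_orth Φ v _ hv q]
  ring

end alg

section der

variable {V : Type} [NormedAddCommGroup V] [InnerProductSpace ℝ V] [CompleteSpace V]

theorem inner_grad (f : V → ℝ) (x h : V) : inner ℝ (gradient f x) h = fderiv ℝ f x h := by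
  unfold gradient
  exact InnerProductSpace.toDual_symm_apply

theorem psi_d1 (g : V → V → ℝ) (hg : ContDiff ℝ 1 (fun z : V × V => g z.1 z.2))
    (hΨ : ContDiff ℝ 1 (fun z : V × V => psi g z.1 z.2)) (v y h : V) :
    fderiv ℝ (fun z : V × V => psi g z.1 z.2) (v, y) (h, 0) =
      ‖y‖ ^ 2 * inner ℝ (gr1 g v (‖y‖⁻¹ • y)) h := by
  have h1 : HasFDerivAt (fun v' => psi g v' y)
      ((fderiv ℝ (fun z : V × V => psi g z.1 z.2) (v, y)).comp
        (ContinuousLinearMap.inl ℝ V V)) v := by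
    have a1 : HasFDerivAt (fun z : V × V => psi g z.1 z.2)
        (fderiv ℝ (fun z : V × V => psi g z.1 z.2) (v, y)) (v, y) :=
      (hΨ.differentiable one_ne_zero (v, y)).hasFDerivAt
    have a2 : HasFDerivAt (fun v' : V => (v', y)) (ContinuousLinearMap.inl ℝ V V) v :=
      hasFDerivAt_prodMk_left v y
    exact HasFDerivAt.comp (g := fun z : V × V => psi g z.1 z.2) v a1 a2
  have h2 : HasFDerivAt (fun v' => g v' (‖y‖⁻¹ • y))
      (fderiv ℝ (fun v' => g v' (‖y‖⁻¹ • y)) v) v := by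
    have h0 : HasFDerivAt (fun v' => g v' (‖y‖⁻¹ • y))
        ((fderiv ℝ (fun z : V × V => g z.1 z.2) (v, ‖y‖⁻¹ • y)).comp
          (ContinuousLinearMap.inl ℝ V V)) v := by
      have a1 : HasFDerivAt (fun z : V × V => g z.1 z.2)
          (fderiv ℝ (fun z : V × V => g z.1 z.2) (v, ‖y‖⁻¹ • y)) (v, ‖y‖⁻¹ • y) :=
        (hg.differentiable one_ne_zero (v, ‖y‖⁻¹ • y)).hasFDerivAt
      have a2 : HasFDerivAt (fun v' : V => (v', ‖y‖⁻¹ • y)) (ContinuousLinearMap.inl ℝ V V) v :=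
        hasFDerivAt_prodMk_left v (‖y‖⁻¹ • y)
      exact HasFDerivAt.comp (g := fun z : V × V => g z.1 z.2) v a1 a2
    exact h0.differentiableAt.hasFDerivAt
  have h3 : HasFDerivAt (fun v' => psi g v' y)
      (‖y‖ ^ 2 • fderiv ℝ (fun v' => g v' (‖y‖⁻¹ • y)) v) v := h2.const_mul (‖y‖ ^ 2)
  have h4 := congrArg (fun l : V →L[ℝ] ℝ => l h) (h1.unique h3)
  simp only [ContinuousLinearMap.comp_apply, ContinuousLinearMap.inl_apply,
    smul_apply, smul_eq_mul] at h4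
  rw [h4]
  unfold gr1
  rw [inner_grad]

theorem psi_d2 (g : V → V → ℝ) (hg : ContDiff ℝ 1 (fun z : V × V => g z.1 z.2))
    (hΨ : ContDiff ℝ 1 (fun z : V × V => psi g z.1 z.2)) (v y w : V) (hy : y ≠ 0)
    (hw : ‖w‖ = 1) (hyw : inner ℝ w y = (0 : ℝ)) :
    fderiv ℝ (fun z : V × V => psi g z.1 z.2) (v, y) (0, w) =
      ‖y‖ * inner ℝ (gr2 g v (‖y‖⁻¹ • y)) w := by
  have hy' : ‖y‖ ≠ 0 := norm_ne_zero_iff.2 hy
  set γ : ℝ → V := fun s => Real.cos s • y + (Real.sin s * ‖y‖) • w with hγ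
  have hγ0 : γ 0 = y := by simp [hγ]
  have hγn : ∀ s, ‖γ s‖ = ‖y‖ := by
    intro s
    have h1 : ‖γ s‖ ^ 2 = ‖y‖ ^ 2 := by
      rw [hγ]
      show ‖Real.cos s • y + (Real.sin s * ‖y‖) • w‖ ^ 2 = ‖y‖ ^ 2
      rw [norm_add_sq_real, real_inner_smul_left, real_inner_smul_right, real_inner_comm, hyw,
        norm_smul, norm_smul, hw, Real.norm_eq_abs, Real.norm_eq_abs, mul_one, mul_pow, sq_abs,
        sq_abs, mul_pow]
      have := Real.cos_sq_add_sin_sq s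
      linear_combination ‖y‖ ^ 2 * this
    exact (sq_eq_sq₀ (norm_nonneg _) (norm_nonneg _)).1 h1
  have hγd : HasDerivAt γ (‖y‖ • w) 0 := by
    have h1 : HasDerivAt γ ((-Real.sin 0) • y + (Real.cos 0 * ‖y‖) • w) 0 :=
      ((Real.hasDerivAt_cos 0).smul_const y).add
        (((Real.hasDerivAt_sin 0).mul_const ‖y‖).smul_const w)
    simpa using h1
  have h1 : HasDerivAt (fun s => psi g v (γ s))
      (fderiv ℝ (fun z : V × V => psi g z.1 z.2) (v, y) (0, ‖y‖ • w)) 0 := by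
    have h0 : HasFDerivAt (fun z : V × V => psi g z.1 z.2)
        (fderiv ℝ (fun z : V × V => psi g z.1 z.2) (v, y)) ((fun s => (v, γ s)) (0 : ℝ)) := by
      show HasFDerivAt _ _ (v, γ 0)
      rw [hγ0]
      exact (hΨ.differentiable one_ne_zero (v, y)).hasFDerivAt
    exact h0.comp_hasDerivAt (0 : ℝ) ((hasDerivAt_const (0 : ℝ) v).prodMk hγd)
  have h2 : HasDerivAt (fun s => psi g v (γ s))
      (‖y‖ ^ 2 * fderiv ℝ (fun w' => g v w') (‖y‖⁻¹ • y) (‖y‖⁻¹ • ‖y‖ • w)) 0 := by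
    have h0 : HasFDerivAt (fun w' => g v w')
        ((fderiv ℝ (fun z : V × V => g z.1 z.2) (v, ‖y‖⁻¹ • y)).comp
          (ContinuousLinearMap.inr ℝ V V)) (‖y‖⁻¹ • y) := by
      have a1 : HasFDerivAt (fun z : V × V => g z.1 z.2)
          (fderiv ℝ (fun z : V × V => g z.1 z.2) (v, ‖y‖⁻¹ • y)) (v, ‖y‖⁻¹ • y) :=
        (hg.differentiable one_ne_zero (v, ‖y‖⁻¹ • y)).hasFDerivAt
      have a2 : HasFDerivAt (fun w' : V => (v, w')) (ContinuousLinearMap.inr ℝ V V)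
          (‖y‖⁻¹ • y) := hasFDerivAt_prodMk_right v (‖y‖⁻¹ • y)
      exact HasFDerivAt.comp (g := fun z : V × V => g z.1 z.2) (‖y‖⁻¹ • y) a1 a2
    have h3 : HasFDerivAt (fun w' => g v w') (fderiv ℝ (fun w' => g v w') (‖y‖⁻¹ • y))
        ((fun s => ‖y‖⁻¹ • γ s) (0 : ℝ)) := by
      show HasFDerivAt _ _ (‖y‖⁻¹ • γ 0)
      rw [hγ0]
      exact h0.differentiableAt.hasFDerivAt
    have h4 : HasDerivAt (fun s => ‖y‖ ^ 2 * g v (‖y‖⁻¹ • γ s))
        (‖y‖ ^ 2 * fderiv ℝ (fun w' => g v w') (‖y‖⁻¹ • y) (‖y‖⁻¹ • ‖y‖ • w)) 0 :=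
      (h3.comp_hasDerivAt (0 : ℝ) (hγd.const_smul (‖y‖⁻¹))).const_mul (‖y‖ ^ 2)
    have h5 : (fun s => psi g v (γ s)) = fun s => ‖y‖ ^ 2 * g v (‖y‖⁻¹ • γ s) := by
      funext s
      unfold psi
      rw [hγn s]
    rw [h5]
    exact h4
  have h3 := h1.unique h2
  have h4 : ((0 : V), ‖y‖ • w) = ‖y‖ • ((0 : V), w) := by
    rw [Prod.smul_mk, smul_zero]
  rw [h4, map_smul, smul_eq_mul, smul_smul, inv_mul_cancel₀ hy', one_smul] at h3
  unfold gr2
  rw [inner_grad]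
  have h5 : ‖y‖ * fderiv ℝ (fun z : V × V => psi g z.1 z.2) (v, y) (0, w) =
      ‖y‖ * (‖y‖ * fderiv ℝ (fun w' => g v w') (‖y‖⁻¹ • y) w) := by
    rw [h3]; ring
  exact mul_left_cancel₀ hy' h5

omit [CompleteSpace V] in
/-- The derivative of `psi g v (prp v (L u))` with respect to `v`. -/
theorem dK {n e : ℕ} (Φ : Frm V n e) (g : V → V → ℝ)
    (hΨ : ContDiff ℝ 1 (fun z : V × V => psi g z.1 z.2))
    (hK : ContDiff ℝ 1 (fun z : V × E n => psi g z.1 (Φ.prp z.1 (Φ.L z.2)))) (v h : V) (u : E n) :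
    fderiv ℝ (fun z : V × E n => psi g z.1 (Φ.prp z.1 (Φ.L z.2))) (v, u) (h, 0) =
      fderiv ℝ (fun z : V × V => psi g z.1 z.2) (v, Φ.prp v (Φ.L u))
        (h, -∑ q, ((inner ℝ (Φ.J q h) (Φ.L u) : ℝ) • Φ.J q v +
          (inner ℝ (Φ.J q v) (Φ.L u) : ℝ) • Φ.J q h)) := by
  have hc : HasDerivAt (fun t : ℝ => v + t • h) h 0 := by
    have := ((hasDerivAt_id (0 : ℝ)).smul_const h).const_add v
    simpa using this
  have hc0 : v + (0 : ℝ) • h = v := by simp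
  have h1 : HasDerivAt (fun t : ℝ => psi g (v + t • h) (Φ.prp (v + t • h) (Φ.L u)))
      (fderiv ℝ (fun z : V × E n => psi g z.1 (Φ.prp z.1 (Φ.L z.2))) (v, u) (h, 0)) 0 := by
    have h0 : HasFDerivAt (fun z : V × E n => psi g z.1 (Φ.prp z.1 (Φ.L z.2)))
        (fderiv ℝ (fun z : V × E n => psi g z.1 (Φ.prp z.1 (Φ.L z.2))) (v, u))
        ((fun t : ℝ => (v + t • h, u)) (0 : ℝ)) := by
      show HasFDerivAt _ _ (v + (0 : ℝ) • h, u)
      rw [hc0]
      exact (hK.differentiable one_ne_zero (v, u)).hasFDerivAt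
    exact h0.comp_hasDerivAt (0 : ℝ) (hc.prodMk (hasDerivAt_const (0 : ℝ) u))
  have hp : HasDerivAt (fun t : ℝ => Φ.prp (v + t • h) (Φ.L u))
      (-∑ q, ((inner ℝ (Φ.J q h) (Φ.L u) : ℝ) • Φ.J q v +
          (inner ℝ (Φ.J q v) (Φ.L u) : ℝ) • Φ.J q h)) 0 := by
    unfold Frm.prp
    refine HasDerivAt.const_sub _ (HasDerivAt.fun_sum fun q _ => ?_)
    have a1 : HasDerivAt (fun t : ℝ => Φ.J q (v + t • h)) (Φ.J q h) 0 := by
      have := ((hasDerivAt_id (0 : ℝ)).smul_const (Φ.J q h)).const_add (Φ.J q v)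
      simpa [map_add, map_smul] using this
    have a2 : HasDerivAt (fun t : ℝ => (inner ℝ (Φ.J q (v + t • h)) (Φ.L u) : ℝ))
        (inner ℝ (Φ.J q h) (Φ.L u)) 0 := by
      have := a1.inner ℝ (hasDerivAt_const (0 : ℝ) (Φ.L u))
      simpa using this
    have a3 := a2.smul a1
    simp only [hc0] at a3
    rw [add_comm]
    exact a3
  have h2 : HasDerivAt (fun t : ℝ => psi g (v + t • h) (Φ.prp (v + t • h) (Φ.L u)))
      (fderiv ℝ (fun z : V × V => psi g z.1 z.2) (v, Φ.prp v (Φ.L u))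
        (h, -∑ q, ((inner ℝ (Φ.J q h) (Φ.L u) : ℝ) • Φ.J q v +
          (inner ℝ (Φ.J q v) (Φ.L u) : ℝ) • Φ.J q h))) 0 := by
    have h0 : HasFDerivAt (fun z : V × V => psi g z.1 z.2)
        (fderiv ℝ (fun z : V × V => psi g z.1 z.2) (v, Φ.prp v (Φ.L u)))
        ((fun t : ℝ => (v + t • h, Φ.prp (v + t • h) (Φ.L u))) (0 : ℝ)) := by
      show HasFDerivAt _ _ (v + (0 : ℝ) • h, Φ.prp (v + (0 : ℝ) • h) (Φ.L u))
      rw [hc0]
      exact (hΨ.differentiable one_ne_zero _).hasFDerivAt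
    exact h0.comp_hasDerivAt (0 : ℝ) (hc.prodMk hp)
  exact h1.unique h2

omit [CompleteSpace V] in
/-- The derivative in the direction `J p v`. -/
theorem dKJ {n e : ℕ} (Φ : Frm V n e)
    (hJ : ∀ (q : Fin (e + 1)) (v w : V), inner ℝ (Φ.J q v) w = inner ℝ v (Φ.Js q w))
    (g : V → V → ℝ) (hΨ : ContDiff ℝ 1 (fun z : V × V => psi g z.1 z.2))
    (hK : ContDiff ℝ 1 (fun z : V × E n => psi g z.1 (Φ.prp z.1 (Φ.L z.2)))) (v : V)
    (hv : ‖v‖ = 1) (u : E n) (p : Fin (e + 1)) (hp : p ≠ 0) :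
    fderiv ℝ (fun z : V × E n => psi g z.1 (Φ.prp z.1 (Φ.L z.2))) (v, u) (Φ.J p v, 0) =
      fderiv ℝ (fun z : V × V => psi g z.1 z.2) (v, Φ.prp v (Φ.L u)) (Φ.J p v, 0) := by
  have hc : HasDerivAt (fun t : ℝ => Real.cos t • v + Real.sin t • Φ.J p v) (Φ.J p v) 0 := by
    have h1 : HasDerivAt (fun t : ℝ => Real.cos t • v + Real.sin t • Φ.J p v)
        ((-Real.sin 0) • v + (Real.cos 0) • Φ.J p v) 0 :=
      ((Real.hasDerivAt_cos 0).smul_const v).add ((Real.hasDerivAt_sin 0).smul_const (Φ.J p v))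
    simpa using h1
  have hc0 : Real.cos 0 • v + Real.sin 0 • Φ.J p v = v := by simp
  have h1 : HasDerivAt (fun t : ℝ => psi g (Real.cos t • v + Real.sin t • Φ.J p v)
        (Φ.prp (Real.cos t • v + Real.sin t • Φ.J p v) (Φ.L u)))
      (fderiv ℝ (fun z : V × E n => psi g z.1 (Φ.prp z.1 (Φ.L z.2))) (v, u) (Φ.J p v, 0)) 0 := by
    have h0 : HasFDerivAt (fun z : V × E n => psi g z.1 (Φ.prp z.1 (Φ.L z.2)))
        (fderiv ℝ (fun z : V × E n => psi g z.1 (Φ.prp z.1 (Φ.L z.2))) (v, u))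
        ((fun t : ℝ => (Real.cos t • v + Real.sin t • Φ.J p v, u)) (0 : ℝ)) := by
      show HasFDerivAt _ _ (Real.cos 0 • v + Real.sin 0 • Φ.J p v, u)
      rw [hc0]
      exact (hK.differentiable one_ne_zero (v, u)).hasFDerivAt
    exact h0.comp_hasDerivAt (0 : ℝ) (hc.prodMk (hasDerivAt_const (0 : ℝ) u))
  have h2 : HasDerivAt (fun t : ℝ => psi g (Real.cos t • v + Real.sin t • Φ.J p v)
        (Φ.prp v (Φ.L u)))
      (fderiv ℝ (fun z : V × V => psi g z.1 z.2) (v, Φ.prp v (Φ.L u)) (Φ.J p v, 0)) 0 := by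
    have h0 : HasFDerivAt (fun z : V × V => psi g z.1 z.2)
        (fderiv ℝ (fun z : V × V => psi g z.1 z.2) (v, Φ.prp v (Φ.L u)))
        ((fun t : ℝ => (Real.cos t • v + Real.sin t • Φ.J p v, Φ.prp v (Φ.L u))) (0 : ℝ)) := by
      show HasFDerivAt _ _ (Real.cos 0 • v + Real.sin 0 • Φ.J p v, Φ.prp v (Φ.L u))
      rw [hc0]
      exact (hΨ.differentiable one_ne_zero _).hasFDerivAt
    exact h0.comp_hasDerivAt (0 : ℝ) (hc.prodMk (hasDerivAt_const (0 : ℝ) (Φ.prp v (Φ.L u))))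
  have h3 : (fun t : ℝ => psi g (Real.cos t • v + Real.sin t • Φ.J p v)
        (Φ.prp (Real.cos t • v + Real.sin t • Φ.J p v) (Φ.L u))) =
      fun t : ℝ => psi g (Real.cos t • v + Real.sin t • Φ.J p v) (Φ.prp v (Φ.L u)) := by
    funext t
    rw [prp_rot Φ hJ v (Φ.L u) hv p hp t]
  rw [h3] at h1
  exact h1.unique h2

end der

section fin

variable {V : Type} [NormedAddCommGroup V] [InnerProductSpace ℝ V] [CompleteSpace V] {n e : ℕ}
  (Φ : Frm V n e)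

/-- The pointwise identity for the directions orthogonal to the line of `v`. -/
theorem ptA (hJ : ∀ (q : Fin (e + 1)) (v w : V), inner ℝ (Φ.J q v) w = inner ℝ v (Φ.Js q w))
    (g : V → V → ℝ) (hg : ContDiff ℝ 1 (fun z : V × V => g z.1 z.2))
    (hΨ : ContDiff ℝ 1 (fun z : V × V => psi g z.1 z.2))
    (hK : ContDiff ℝ 1 (fun z : V × E n => psi g z.1 (Φ.prp z.1 (Φ.L z.2)))) (v h : V)
    (hv : ‖v‖ = 1) (hh : ∀ q, inner ℝ (Φ.J q v) h = (0 : ℝ)) (u : E n) :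
    fderiv ℝ (fun z : V × E n => psi g z.1 (Φ.prp z.1 (Φ.L z.2))) (v, u) (h, 0) =
      psi (fun v w => inner ℝ
        (gr1 g v w - ∑ q, (inner ℝ (gr2 g v w) (Φ.J q v) : ℝ) • Φ.Js q w) h) v
          (Φ.prp v (Φ.L u)) +
      fderiv ℝ (fun z : V × V => psi g z.1 z.2) (v, Φ.prp v (Φ.L u))
        (0, -∑ q, (inner ℝ (Φ.J q v) (Φ.L u) : ℝ) • Φ.J q h) := by
  rw [dK Φ g hΨ hK v h u]
  set y := Φ.prp v (Φ.L u) with hy
  have hyo : ∀ q, inner ℝ (Φ.J q v) y = (0 : ℝ) := prp_orth Φ v _ hv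
  have h1 : ∀ q, (inner ℝ (Φ.J q h) (Φ.L u) : ℝ) = inner ℝ (Φ.J q h) y := by
    intro q
    have h2 := congrArg (fun x => (inner ℝ (Φ.J q h) x : ℝ)) (prp_eq Φ v (Φ.L u))
    simp only [inner_add_right, inner_sum, real_inner_smul_right] at h2
    rw [h2, ← hy]
    have h3 : ∀ p, (inner ℝ (Φ.J q h) (Φ.J p v) : ℝ) = 0 := fun p => by
      rw [real_inner_comm]
      exact orthJ Φ v h hh p q
    simp [h3]
  simp only [h1]
  have h2 : ((h, -∑ q, ((inner ℝ (Φ.J q h) y : ℝ) • Φ.J q v +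
      (inner ℝ (Φ.J q v) (Φ.L u) : ℝ) • Φ.J q h)) : V × V) =
      ((h, 0) : V × V) - (∑ q, (inner ℝ (Φ.J q h) y : ℝ) • ((0, Φ.J q v) : V × V)) +
        ((0, -∑ q, (inner ℝ (Φ.J q v) (Φ.L u) : ℝ) • Φ.J q h) : V × V) := by
    refine Prod.ext ?_ ?_
    · simp [Prod.fst_sum]
    · simp [Prod.snd_sum, Finset.sum_add_distrib]
      abel
  rw [h2, map_add, map_sub, map_sum]
  congr 1
  rw [psi_d1 g hg hΨ v y h]
  show _ = ‖y‖ ^ 2 * inner ℝ (gr1 g v (‖y‖⁻¹ • y) -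
    ∑ q, (inner ℝ (gr2 g v (‖y‖⁻¹ • y)) (Φ.J q v) : ℝ) • Φ.Js q (‖y‖⁻¹ • y)) h
  rw [inner_sub_left, sum_inner, mul_sub, Finset.mul_sum]
  congr 1
  refine Finset.sum_congr rfl fun q _ => ?_
  rw [map_smul, smul_eq_mul, real_inner_smul_left]
  by_cases h0 : y = 0
  · rw [h0]; simp
  · have hy' : ‖y‖ ≠ 0 := norm_ne_zero_iff.2 h0
    rw [psi_d2 g hg hΨ v y (Φ.J q v) h0 (by rw [LinearIsometry.norm_map, hv]) (hyo q)]
    have h3 : (inner ℝ (Φ.Js q (‖y‖⁻¹ • y)) h : ℝ) = ‖y‖⁻¹ * inner ℝ (Φ.J q h) y := by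
      rw [real_inner_comm, ← hJ, real_inner_smul_right]
    rw [h3]
    field_simp

/-- The pointwise identity for the directions in the line of `v`. -/
theorem ptB (hJ : ∀ (q : Fin (e + 1)) (v w : V), inner ℝ (Φ.J q v) w = inner ℝ v (Φ.Js q w))
    (g : V → V → ℝ) (hg : ContDiff ℝ 1 (fun z : V × V => g z.1 z.2))
    (hΨ : ContDiff ℝ 1 (fun z : V × V => psi g z.1 z.2))
    (hK : ContDiff ℝ 1 (fun z : V × E n => psi g z.1 (Φ.prp z.1 (Φ.L z.2)))) (v : V)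
    (hv : ‖v‖ = 1) (p : Fin (e + 1)) (hp : p ≠ 0) (u : E n) :
    fderiv ℝ (fun z : V × E n => psi g z.1 (Φ.prp z.1 (Φ.L z.2))) (v, u) (Φ.J p v, 0) =
      psi (fun v' w => inner ℝ
        (gr1 g v' w - ∑ q, (inner ℝ (gr2 g v' w) (Φ.J q v') : ℝ) • Φ.Js q w) (Φ.J p v)) v
          (Φ.prp v (Φ.L u)) := by
  rw [dKJ Φ hJ g hΨ hK v hv u p hp]
  set y := Φ.prp v (Φ.L u) with hy
  have hyo : ∀ q, inner ℝ (Φ.J q v) y = (0 : ℝ) := prp_orth Φ v _ hv
  rw [psi_d1 g hg hΨ v y (Φ.J p v)]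
  show _ = ‖y‖ ^ 2 * inner ℝ (gr1 g v (‖y‖⁻¹ • y) -
    ∑ q, (inner ℝ (gr2 g v (‖y‖⁻¹ • y)) (Φ.J q v) : ℝ) • Φ.Js q (‖y‖⁻¹ • y)) (Φ.J p v)
  rw [inner_sub_left, sum_inner]
  have h3 : ∀ q, (inner ℝ (Φ.Js q (‖y‖⁻¹ • y)) (Φ.J p v) : ℝ) = 0 := by
    intro q
    rw [Js_eq, map_smul, real_inner_smul_left, real_inner_smul_left, real_inner_comm,
      orthJ Φ v y hyo p q, mul_zero, mul_zero]
  simp [real_inner_smul_left, h3]

/-- The pointwise identity. -/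
theorem pt (hJ : ∀ (q : Fin (e + 1)) (v w : V), inner ℝ (Φ.J q v) w = inner ℝ v (Φ.Js q w))
    (g : V → V → ℝ) (hg : ContDiff ℝ 1 (fun z : V × V => g z.1 z.2))
    (hΨ : ContDiff ℝ 1 (fun z : V × V => psi g z.1 z.2))
    (hK : ContDiff ℝ 1 (fun z : V × E n => psi g z.1 (Φ.prp z.1 (Φ.L z.2)))) (v h : V)
    (hv : ‖v‖ = 1) (hvh : inner ℝ v h = (0 : ℝ)) (u : E n) :
    psi (fun v w => inner ℝ
        (gr1 g v w - ∑ q, (inner ℝ (gr2 g v w) (Φ.J q v) : ℝ) • Φ.Js q w) h) v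
          (Φ.prp v (Φ.L u)) =
      fderiv ℝ (fun z : V × E n => psi g z.1 (Φ.prp z.1 (Φ.L z.2))) (v, u) (h, 0) -
      fderiv ℝ (fun z : V × V => psi g z.1 z.2) (v, Φ.prp v (Φ.L u))
        (0, -∑ q, (inner ℝ (Φ.J q v) (Φ.L u) : ℝ) • Φ.J q (Φ.prp v h)) := by
  have hA := ptA Φ hJ g hg hΨ hK v (Φ.prp v h) hv (prp_orth Φ v h hv) u
  have hB : ∀ p, (inner ℝ (Φ.J p v) h : ℝ) *
      fderiv ℝ (fun z : V × E n => psi g z.1 (Φ.prp z.1 (Φ.L z.2))) (v, u) (Φ.J p v, 0) =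
      (inner ℝ (Φ.J p v) h : ℝ) * psi (fun v' w => inner ℝ
        (gr1 g v' w - ∑ q, (inner ℝ (gr2 g v' w) (Φ.J q v') : ℝ) • Φ.Js q w) (Φ.J p v)) v
          (Φ.prp v (Φ.L u)) := by
    intro p
    by_cases hp : p = 0
    · subst hp
      rw [Φ.J0, hvh, zero_mul, zero_mul]
    · rw [ptB Φ hJ g hg hΨ hK v hv p hp u]
  have h1 : ((h, 0) : V × E n) = ((Φ.prp v h, 0) : V × E n) +
      ∑ p, (inner ℝ (Φ.J p v) h : ℝ) • ((Φ.J p v, 0) : V × E n) := by
    refine Prod.ext ?_ ?_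
    · simp only [Prod.fst_add, Prod.fst_sum, Prod.smul_fst]
      exact prp_eq Φ v h
    · simp [Prod.snd_sum]
  have h2 : fderiv ℝ (fun z : V × E n => psi g z.1 (Φ.prp z.1 (Φ.L z.2))) (v, u) (h, 0) =
      fderiv ℝ (fun z : V × E n => psi g z.1 (Φ.prp z.1 (Φ.L z.2))) (v, u) (Φ.prp v h, 0) +
      ∑ p, (inner ℝ (Φ.J p v) h : ℝ) *
        fderiv ℝ (fun z : V × E n => psi g z.1 (Φ.prp z.1 (Φ.L z.2))) (v, u) (Φ.J p v, 0) := by
    rw [h1, map_add, map_sum]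
    simp only [map_smul, smul_eq_mul]
  obtain ⟨X, c, hX⟩ : ∃ (X : V) (c : ℝ), ∀ k : V, psi (fun v w => inner ℝ
        (gr1 g v w - ∑ q, (inner ℝ (gr2 g v w) (Φ.J q v) : ℝ) • Φ.Js q w) k) v
          (Φ.prp v (Φ.L u)) = c * inner ℝ X k :=
    ⟨gr1 g v (‖Φ.prp v (Φ.L u)‖⁻¹ • Φ.prp v (Φ.L u)) -
      ∑ q, (inner ℝ (gr2 g v (‖Φ.prp v (Φ.L u)‖⁻¹ • Φ.prp v (Φ.L u))) (Φ.J q v) : ℝ) •
        Φ.Js q (‖Φ.prp v (Φ.L u)‖⁻¹ • Φ.prp v (Φ.L u)), ‖Φ.prp v (Φ.L u)‖ ^ 2, fun k => rfl⟩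
  rw [hX] at hA
  rw [hX, h2, hA]
  have h4 := congrArg (fun x => (inner ℝ X x : ℝ)) (prp_eq Φ v h)
  simp only [inner_add_right, inner_sum, real_inner_smul_right] at h4
  have h5 : ∑ p, (inner ℝ (Φ.J p v) h : ℝ) *
        fderiv ℝ (fun z : V × E n => psi g z.1 (Φ.prp z.1 (Φ.L z.2))) (v, u) (Φ.J p v, 0) =
      c * ∑ p, (inner ℝ (Φ.J p v) h : ℝ) * inner ℝ X (Φ.J p v) := by
    rw [Finset.mul_sum]
    refine Finset.sum_congr rfl fun p _ => ?_
    rw [hB p, hX]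
    ring
  rw [h5, h4]
  ring

end fin

end JP2E

open JP2E in
theorem prfP2E (hP : clPair) (hψ : clPsi) (hC : clP2C) (hS : clSig) : clP2E := by
  intro V _ _ _ n e Φ g hg v h hv hvh
  have _hC := hC
  have hJ := (hP V n e Φ).1
  have hfd : FiniteDimensional ℝ V := Φ.L.toLinearEquiv.finiteDimensional
  have hΨ : ContDiff ℝ 1 (fun z : V × V => psi g z.1 z.2) := hψ V g hg
  have h2 : ContDiff ℝ 1 (fun z : V × E n => (z.1, Φ.prp z.1 (Φ.L z.2))) := by
    refine contDiff_fst.prodMk ?_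
    unfold Frm.prp
    have hL : ContDiff ℝ 1 (fun z : V × E n => Φ.L z.2) :=
      Φ.L.toContinuousLinearEquiv.contDiff.comp contDiff_snd
    have hJ : ∀ q, ContDiff ℝ 1 (fun z : V × E n => Φ.J q z.1) := fun q =>
      (Φ.J q).contDiff.comp contDiff_fst
    refine hL.sub (ContDiff.sum fun q _ => ?_)
    exact ((hJ q).inner ℝ hL).smul (hJ q)
  have hK : ContDiff ℝ 1 (fun z : V × E n => psi g z.1 (Φ.prp z.1 (Φ.L z.2))) := hΨ.comp h2
  have hprp : Continuous (fun u : E n => Φ.prp v (Φ.L u)) := by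
    unfold Frm.prp
    fun_prop
  -- the odd part
  set F : E n → ℝ := fun u => fderiv ℝ (fun z : V × V => psi g z.1 z.2) (v, Φ.prp v (Φ.L u))
        (0, -∑ q, (inner ℝ (Φ.J q v) (Φ.L u) : ℝ) • Φ.J q (Φ.prp v h)) with hF
  have hFc : Continuous F := by
    have a1 : Continuous (fun u : E n => fderiv ℝ (fun z : V × V => psi g z.1 z.2)
        (v, Φ.prp v (Φ.L u))) :=
      (hΨ.continuous_fderiv one_ne_zero).comp (continuous_const.prodMk hprp)
    refine a1.clm_apply ?_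
    refine continuous_const.prodMk ?_
    fun_prop
  have hF0 : ∫ u : Sph n, F (u : E n) ∂sig n = 0 := by
    have b1 := hS n (refl Φ v hv) F hFc
    have b2 : ∀ u : E n, F (refl Φ v hv u) = -F u := by
      intro u
      simp only [hF]
      rw [prp_refl Φ v hv u, ← map_neg]
      congr 1
      simp only [inner_refl Φ v hv u]
      refine Prod.ext ?_ ?_
      · simp
      · simp
    simp only [b2] at b1
    rw [integral_neg] at b1
    linarith
  have hint := fderiv_int n (fun z : V × E n => psi g z.1 (Φ.prp z.1 (Φ.L z.2))) hK v h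
  have hKc : Continuous (fun u : E n =>
      fderiv ℝ (fun z : V × E n => psi g z.1 (Φ.prp z.1 (Φ.L z.2))) (v, u) (h, 0)) := by
    have a1 : Continuous (fun u : E n =>
        fderiv ℝ (fun z : V × E n => psi g z.1 (Φ.prp z.1 (Φ.L z.2))) (v, u)) :=
      (hK.continuous_fderiv one_ne_zero).comp (Continuous.prodMk_right v)
    exact a1.clm_apply continuous_const
  have hR : ∫ u : Sph n, psi (fun v w => inner ℝ
        (gr1 g v w - ∑ q, (inner ℝ (gr2 g v w) (Φ.J q v) : ℝ) • Φ.Js q w) h) v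
          (Φ.prp v (Φ.L u)) ∂sig n = ∫ u : Sph n, fderiv ℝ (fun z : V × E n =>
            psi g z.1 (Φ.prp z.1 (Φ.L z.2))) (v, (u : E n)) (h, 0) ∂sig n := by
    have c1 : ∀ u : Sph n, psi (fun v w => inner ℝ
        (gr1 g v w - ∑ q, (inner ℝ (gr2 g v w) (Φ.J q v) : ℝ) • Φ.Js q w) h) v
          (Φ.prp v (Φ.L u)) = fderiv ℝ (fun z : V × E n =>
            psi g z.1 (Φ.prp z.1 (Φ.L z.2))) (v, (u : E n)) (h, 0) - F (u : E n) := fun u =>
      pt Φ hJ g hg hΨ hK v h hv hvh (u : E n)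
    simp only [c1]
    have i1 : Integrable (fun u : Sph n => fderiv ℝ (fun z : V × E n =>
        psi g z.1 (Φ.prp z.1 (Φ.L z.2))) (v, (u : E n)) (h, 0)) (sig n) :=
      integrable_sph _ (hKc.comp continuous_subtype_val)
    have i2 : Integrable (fun u : Sph n => F (u : E n)) (sig n) :=
      integrable_sph _ (hFc.comp continuous_subtype_val)
    rw [integral_sub i1 i2, hF0, sub_zero]
  rw [inner_grad]
  have hd : DifferentiableAt ℝ (fun v => ∫ u : Sph n, psi g v (Φ.prp v (Φ.L u)) ∂sig n) v :=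
    hint.1
  have hfin : fderiv ℝ (Φ.P2 g) v h = Φ.cc⁻¹ *
      fderiv ℝ (fun v => ∫ u : Sph n, psi g v (Φ.prp v (Φ.L u)) ∂sig n) v h := by
    have d1 : Φ.P2 g = fun v => Φ.cc⁻¹ * ∫ u : Sph n, psi g v (Φ.prp v (Φ.L u)) ∂sig n := rfl
    rw [d1, fderiv_const_mul hd]
    rfl
  rw [hfin, hint.2, ← hR]
  rfl

end Pool.Agent.Work.MP_408f4b_gt.Q
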