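import Pool.Agent.Work.MP_408f4b_gt.Q.Stmts3

set_option autoImplicit false

/-! MP_408f4b_gt, block Q, item P2F. -/

namespace Pool.Agent.Work.MP_408f4b_gt.Q

open MeasureTheory Set Filter Topology ProbabilityTheory

namespace JP2F

instance finSig (n : ℕ) : IsFiniteMeasure (sig n) :=
  inferInstanceAs (IsFiniteMeasure (volume : Measure (E n)).toSphere)

section psi

variable {V : Type} [NormedAddCommGroup V] [InnerProductSpace ℝ V] [FiniteDimensional ℝ V]

theorem psi_cont (F : V → V → ℝ) (hF : Continuous (fun z : V × V => F z.1 z.2)) :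
    Continuous (fun z : V × V => psi F z.1 z.2) := by
  have hp : ProperSpace V := FiniteDimensional.proper ℝ V
  rw [continuous_iff_continuousAt]
  rintro ⟨v, y⟩
  by_cases hy : y = 0
  · subst hy
    have hK : IsCompact (Metric.closedBall v 1 ×ˢ Metric.closedBall (0 : V) 1) :=
      (isCompact_closedBall v 1).prod (isCompact_closedBall 0 1)
    obtain ⟨C, hC⟩ := hK.exists_bound_of_continuousOn hF.continuousOn
    have h0 : psi F v 0 = 0 := by simp [psi]
    unfold ContinuousAt
    change Tendsto (fun z : V × V => psi F z.1 z.2) (𝓝 (v, 0)) (𝓝 (psi F v 0))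
    rw [h0]
    have hb : ∀ᶠ z : V × V in 𝓝 (v, 0), ‖psi F z.1 z.2‖ ≤ ‖z.2‖ ^ 2 * C := by
      have h1 : ∀ᶠ z : V × V in 𝓝 (v, 0), z.1 ∈ Metric.closedBall v 1 :=
        (continuous_fst.tendsto (v, (0 : V))).eventually (Metric.closedBall_mem_nhds v one_pos)
      filter_upwards [h1] with z hz
      unfold psi
      rw [norm_mul, norm_pow, norm_norm]
      refine mul_le_mul_of_nonneg_left ?_ (sq_nonneg _)
      refine hC (z.1, ‖z.2‖⁻¹ • z.2) ⟨hz, ?_⟩
      rw [mem_closedBall_zero_iff, norm_smul, norm_inv, norm_norm]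
      exact inv_mul_le_one
    refine squeeze_zero_norm' hb ?_
    have : Continuous (fun z : V × V => ‖z.2‖ ^ 2 * C) := by fun_prop
    have h2 := this.tendsto (v, (0 : V))
    simpa using h2
  · have h1 : ContinuousAt (fun z : V × V => ‖z.2‖⁻¹) (v, y) :=
      ContinuousAt.inv₀ (by fun_prop) (by simpa using hy)
    have h2 : ContinuousAt (fun z : V × V => (z.1, ‖z.2‖⁻¹ • z.2)) (v, y) :=
      ContinuousAt.prodMk (by fun_prop) (h1.smul (by fun_prop))
    have h3 : ContinuousAt (fun z : V × V => F z.1 (‖z.2‖⁻¹ • z.2)) (v, y) :=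
      ContinuousAt.comp (g := fun z : V × V => F z.1 z.2) hF.continuousAt h2
    exact ContinuousAt.mul (by fun_prop) h3

theorem psi_hom (F : V → V → ℝ) (v : V) (r : ℝ) (w : V) (hr : 0 ≤ r) :
    psi F v (r • w) = r ^ 2 * psi F v w := by
  unfold psi
  rcases hr.eq_or_lt with h | h
  · rw [← h]; simp
  · rw [norm_smul, Real.norm_eq_abs, abs_of_pos h, mul_pow, mul_inv, smul_smul]
    have : r⁻¹ * ‖w‖⁻¹ * r = ‖w‖⁻¹ := by field_simp
    rw [this]
    ring

theorem psi_unit (F : V → V → ℝ) (v w : V) (hw : ‖w‖ = 1) : psi F v w = F v w := by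
  unfold psi; rw [hw]; simp

end psi

section key

variable {V : Type} [NormedAddCommGroup V] [InnerProductSpace ℝ V] [CompleteSpace V] {n e : ℕ}

theorem prp_eq (Φ : Frm V n e) (v : V) (hv : ‖v‖ = 1) (j : E (n - (e + 1)) →ₗᵢ[ℝ] V)
    (hj : ∀ u q, inner ℝ (Φ.J q v) (j u) = 0)
    (hs : ∀ w, (∀ q, inner ℝ (Φ.J q v) w = 0) → ∃ u, j u = w) (z : V) :
    Φ.prp v z = j (ContinuousLinearMap.adjoint j.toContinuousLinearMap z) := by
  have h1 : ∀ p, inner ℝ (Φ.J p v) (Φ.prp v z) = 0 := by
    intro p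
    unfold Frm.prp
    rw [inner_sub_right, inner_sum, Finset.sum_eq_single p]
    · rw [real_inner_smul_right, real_inner_self_eq_norm_sq, LinearIsometry.norm_map, hv]
      ring
    · intro q _ hq
      rw [real_inner_smul_right, Φ.Jorth v p q (Ne.symm hq), mul_zero]
    · intro h; exact absurd (Finset.mem_univ p) h
  obtain ⟨u, hu⟩ := hs _ h1
  have h2 : ContinuousLinearMap.adjoint j.toContinuousLinearMap z = u := by
    refine ext_inner_right ℝ fun t => ?_
    rw [ContinuousLinearMap.adjoint_inner_left]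
    have h3 : z = j u + ∑ q, (inner ℝ (Φ.J q v) z : ℝ) • Φ.J q v := by
      rw [hu]; unfold Frm.prp; abel
    change inner ℝ z (j t) = inner ℝ u t
    conv_lhs => rw [h3]
    rw [inner_add_left, sum_inner, Finset.sum_eq_zero, add_zero, LinearIsometry.inner_map_map]
    intro q _
    rw [real_inner_smul_left, hj t q, mul_zero]
  rw [h2, hu]

/-- the projection of the standard Gaussian measure -/
theorem gauss_map {n' : ℕ} (L : E n ≃ₗᵢ[ℝ] V) (j : E n' →ₗᵢ[ℝ] V) :
    (stdGaussian (E n)).map (fun x => ContinuousLinearMap.adjoint j.toContinuousLinearMap (L x)) =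
      stdGaussian (E n') := by
  have hc : Continuous (fun x : E n =>
      ContinuousLinearMap.adjoint j.toContinuousLinearMap (L x)) := by
    fun_prop
  have : IsProbabilityMeasure ((stdGaussian (E n)).map
      (fun x => ContinuousLinearMap.adjoint j.toContinuousLinearMap (L x))) :=
    Measure.isProbabilityMeasure_map hc.measurable.aemeasurable
  apply Measure.ext_of_charFun
  ext t
  rw [charFun_stdGaussian, charFun_apply, integral_map hc.measurable.aemeasurable
    (Continuous.aestronglyMeasurable (by fun_prop))]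
  have h : ∀ x : E n, inner ℝ (ContinuousLinearMap.adjoint j.toContinuousLinearMap (L x)) t =
      inner ℝ x (L.symm (j t)) := by
    intro x
    rw [ContinuousLinearMap.adjoint_inner_left]
    change inner ℝ (L x) (j t) = _
    conv_lhs => rw [← L.apply_symm_apply (j t)]
    rw [LinearIsometryEquiv.inner_map_map]
  simp only [h]
  rw [← charFun_apply, charFun_stdGaussian, LinearIsometryEquiv.norm_map, LinearIsometry.norm_map]

theorem key (hPo : clPolar) (Φ : Frm V n e) : ∃ c c' : ℝ, 0 < c ∧ 0 < c' ∧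
    c' * (sig (n - (e + 1))).real univ = 1 ∧
    ∀ (v : V) (j : E (n - (e + 1)) →ₗᵢ[ℝ] V), ‖v‖ = 1 →
      (∀ u q, inner ℝ (Φ.J q v) (j u) = 0) →
      (∀ w, (∀ q, inner ℝ (Φ.J q v) w = 0) → ∃ u, j u = w) →
      ∀ k : V → ℝ, Continuous k → (∀ (r : ℝ) w, 0 ≤ r → k (r • w) = r ^ 2 * k w) →
      (n : ℝ) * (c * ∫ u : Sph n, k (Φ.prp v (Φ.L u)) ∂sig n) =
        ((n - (e + 1) : ℕ) : ℝ) * (c' * ∫ u : Sph (n - (e + 1)), k (j u) ∂sig (n - (e + 1))) := by
  have hle := Φ.le
  obtain ⟨c, hc, H⟩ := hPo n (by omega)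
  obtain ⟨c', hc', H'⟩ := hPo (n - (e + 1)) (by omega)
  refine ⟨c, c', hc, hc', (H' (fun _ => 0) continuousOn_const).2.2.2.2, ?_⟩
  intro v j hv hj hs k hk hhom
  have hk0 : k 0 = 0 := by simpa using hhom 0 0 le_rfl
  have hpe := prp_eq Φ v hv j hj hs
  have hcont : Continuous (fun x : E n => k (Φ.prp v (Φ.L x))) := by
    have : (fun x : E n => k (Φ.prp v (Φ.L x))) = fun x : E n =>
        k (j (ContinuousLinearMap.adjoint j.toContinuousLinearMap (Φ.L x))) := by
      funext x; rw [hpe]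
    rw [this]
    have h1 : Continuous (fun x : E n =>
      j (ContinuousLinearMap.adjoint j.toContinuousLinearMap (Φ.L x))) := by fun_prop
    exact hk.comp h1
  have hcont' : Continuous (fun x : E (n - (e + 1)) => k (j x)) := hk.comp j.continuous
  have e1 := (H (fun x => k (Φ.prp v (Φ.L x))) hcont.continuousOn).1
  have e2 := (H' (fun x => k (j x)) hcont'.continuousOn).1
  rw [← e1, ← e2]
  have s1 : ∀ x : E n, ‖x‖ ^ 2 * k (Φ.prp v (Φ.L (‖x‖⁻¹ • x))) =
      k (j (ContinuousLinearMap.adjoint j.toContinuousLinearMap (Φ.L x))) := by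
    intro x
    rw [hpe, map_smul, map_smul, map_smul, hhom _ _ (inv_nonneg.2 (norm_nonneg x))]
    by_cases hx : x = 0
    · subst hx; simp [hk0]
    · have : ‖x‖ ≠ 0 := norm_ne_zero_iff.2 hx
      field_simp
  have s2 : ∀ x : E (n - (e + 1)), ‖x‖ ^ 2 * k (j (‖x‖⁻¹ • x)) = k (j x) := by
    intro x
    rw [map_smul, hhom _ _ (inv_nonneg.2 (norm_nonneg x))]
    by_cases hx : x = 0
    · subst hx; simp [hk0]
    · have : ‖x‖ ≠ 0 := norm_ne_zero_iff.2 hx
      field_simp
  simp only [s1, s2]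
  rw [← gauss_map Φ.L j, integral_map]
  · exact (Continuous.measurable (by fun_prop)).aemeasurable
  · exact hcont'.aestronglyMeasurable

end key

end JP2F

open JP2F in
theorem prfP2F (_ : clAv) (hP : clPair) (hF : clFib) (hPo : clPolar) : clP2F := by
  intro V _ _ _ n e Φ F hFc
  have hfd : FiniteDimensional ℝ V := Φ.L.toLinearEquiv.finiteDimensional
  have hprop : ProperSpace V := FiniteDimensional.proper ℝ V
  have hle := Φ.le
  obtain ⟨c, c', hc, hc', hcs, K⟩ := key hPo Φ
  obtain ⟨_, _, _, _, _, _, hsur, hex⟩ := hP V n e Φ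
  set n' := n - (e + 1) with hn'
  have hn'pos : (0 : ℝ) < (n' : ℝ) := by
    have : 0 < n' := by omega
    exact_mod_cast this
  have hnpos : (0 : ℝ) < (n : ℝ) := by
    have : 0 < n := by omega
    exact_mod_cast this
  have hsig : ((sig n').real univ)⁻¹ = c' := (eq_inv_of_mul_eq_one_left hcs).symm
  -- the frames at the points `A g a`
  have KG : ∀ (g : Φ.G) (k : V → ℝ), Continuous k →
      (∀ (r : ℝ) w, 0 ≤ r → k (r • w) = r ^ 2 * k w) →
      (n : ℝ) * (c * ∫ u : Sph n, k (Φ.prp (Φ.A g Φ.a) (Φ.L u)) ∂sig n) =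
        (n' : ℝ) * (c' * ∫ u : Sph n', k (Φ.A g (Φ.ι u)) ∂sig n') := by
    intro g k hk hhom
    refine K (Φ.A g Φ.a) ((Φ.A g).comp Φ.ι) ?_ ?_ ?_ k hk hhom
    · rw [LinearIsometry.norm_map]; exact Φ.ha
    · intro u q
      rw [← Φ.comm]
      change inner ℝ (Φ.A g (Φ.J q Φ.a)) (Φ.A g (Φ.ι u)) = 0
      rw [LinearIsometry.inner_map_map]
      exact Φ.hι u q
    · intro w hw
      obtain ⟨w', rfl⟩ := hsur g w
      obtain ⟨u, hu⟩ := hex w' (fun q => by
        have := hw q
        rwa [← Φ.comm, LinearIsometry.inner_map_map] at this)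
      exact ⟨u, by rw [← hu]; rfl⟩
  have hsqh : ∀ (r : ℝ) (w : V), 0 ≤ r → ‖r • w‖ ^ 2 = r ^ 2 * ‖w‖ ^ 2 := by
    intro r w hr
    rw [norm_smul, Real.norm_eq_abs, abs_of_nonneg hr]; ring
  -- the constant
  have hcc : (n : ℝ) * (c * Φ.cc) = n' := by
    have h1 := K Φ.a Φ.ι Φ.ha Φ.hι hex (fun w => ‖w‖ ^ 2) (by fun_prop) hsqh
    have h2 : ∀ u : Sph n', ‖Φ.ι (u : E n')‖ ^ 2 = (1 : ℝ) := by
      intro u
      rw [LinearIsometry.norm_map, norm_eq_of_mem_sphere u]; norm_num
    simp only [h2] at h1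
    rw [integral_const, smul_eq_mul, mul_one, hcs, mul_one] at h1
    exact h1
  have hccpos : 0 < Φ.cc := by
    have h1 : 0 < (n : ℝ) * c := mul_pos hnpos hc
    have h2 : ((n : ℝ) * c) * Φ.cc = n' := by rw [mul_assoc]; exact hcc
    by_contra h
    rw [not_lt] at h
    nlinarith
  have P2form : ∀ (F : V → V → ℝ), Continuous (fun z : V × V => F z.1 z.2) → ∀ g,
      Φ.P2 F (Φ.A g Φ.a) = ((sig n').real univ)⁻¹ *
        ∫ u : Sph n', F (Φ.A g Φ.a) (Φ.A g (Φ.ι u)) ∂sig n' := by
    intro F hFc g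
    have hpc := psi_cont F hFc
    have h1 := KG g (fun w => psi F (Φ.A g Φ.a) w)
      (hpc.comp (Continuous.prodMk continuous_const continuous_id))
      (fun r w hr => psi_hom F _ r w hr)
    have h2 : ∀ u : Sph n', psi F (Φ.A g Φ.a) (Φ.A g (Φ.ι (u : E n'))) =
        F (Φ.A g Φ.a) (Φ.A g (Φ.ι (u : E n'))) := by
      intro u
      refine psi_unit F _ _ ?_
      rw [LinearIsometry.norm_map, LinearIsometry.norm_map, norm_eq_of_mem_sphere u]
    simp only [h2] at h1
    unfold Frm.P2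
    rw [hsig]
    have h3 : ((n : ℝ) * c) * Φ.cc = n' := by rw [mul_assoc]; exact hcc
    have h4 : (n : ℝ) * c ≠ 0 := (mul_pos hnpos hc).ne'
    have h5 : ((n : ℝ) * c) * (∫ u : Sph n, psi F (Φ.A g Φ.a) (Φ.prp (Φ.A g Φ.a) (Φ.L u)) ∂sig n) =
        ((n : ℝ) * c) * (Φ.cc * (c' * ∫ u : Sph n', F (Φ.A g Φ.a) (Φ.A g (Φ.ι u)) ∂sig n')) := by
      linear_combination h1 -
        (c' * ∫ u : Sph n', F (Φ.A g Φ.a) (Φ.A g (Φ.ι u)) ∂sig n') * h3
    have h6 := mul_left_cancel₀ h4 h5
    rw [h6, ← mul_assoc, inv_mul_cancel₀ hccpos.ne', one_mul]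
  have P2cont : Continuous (Φ.P2 F) := by
    unfold Frm.P2
    refine continuous_const.mul ?_
    have hpc := psi_cont F hFc
    have hcont : Continuous (Function.uncurry (fun (v : V) (u : Sph n) =>
        psi F v (Φ.prp v (Φ.L u)))) := by
      refine hpc.comp (Continuous.prodMk continuous_fst ?_)
      have hu : Continuous (fun p : V × Sph n => Φ.L (p.2 : E n)) :=
        Φ.L.continuous.comp (continuous_subtype_val.comp continuous_snd)
      refine hu.sub (continuous_finset_sum _ fun q _ => ?_)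
      have hJ : Continuous (fun p : V × Sph n => Φ.J q p.1) :=
        (Φ.J q).continuous.comp continuous_fst
      exact (hJ.inner hu).smul hJ
    have h := continuous_parametric_integral_of_continuous (μ := sig n) hcont
      (isCompact_univ (X := Sph n))
    simpa only [Measure.restrict_univ] using h
  refine ⟨hccpos, P2cont, P2form F hFc, ?_, ?_⟩
  · rw [(hF V n e Φ F hFc).1]
    unfold Frm.av
    rw [← integral_const_mul]
    refine integral_congr_ae (Eventually.of_forall fun g => ?_)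
    exact (P2form F hFc g).symm
  · intro g
    rw [P2form F hFc g, P2form (fun v w => F v w ^ 2) (by fun_prop) g]
    unfold VV
    ring

end Pool.Agent.Work.MP_408f4b_gt.Q
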