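import Pool.Agent.Work.MP_408f4b_gt.Q.Stmts3

set_option autoImplicit false

/-!
# Item Pair: elementary facts on pairs
-/

namespace Pool.Agent.Work.MP_408f4b_gt.Q

open MeasureTheory Set Filter Topology

namespace JPair

variable {V : Type} [NormedAddCommGroup V] [InnerProductSpace ℝ V] {n e : ℕ}
  (Φ : Frm V n e)

theorem Js_eq (q : Fin (e + 1)) : ∃ ε : ℝ, ε * ε = 1 ∧ ∀ v, Φ.Js q v = ε • Φ.J q v := by
  by_cases h : q = 0
  · refine ⟨1, by norm_num, fun v => ?_⟩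
    rw [Frm.Js, if_pos h, h, Φ.J0, one_smul]
  · refine ⟨-1, by norm_num, fun v => ?_⟩
    rw [Frm.Js, if_neg h, neg_one_smul]

theorem adj (q : Fin (e + 1)) (v w : V) : inner ℝ (Φ.J q v) w = inner ℝ v (Φ.Js q w) := by
  by_cases h : q = 0
  · rw [Frm.Js, if_pos h, h, Φ.J0]
  · rw [Frm.Js, if_neg h, inner_neg_right, ← (Φ.J q).inner_map_map, Φ.Jsq q h, inner_neg_left]

theorem J_Js (q : Fin (e + 1)) (v : V) : Φ.J q (Φ.Js q v) = v := by
  by_cases h : q = 0
  · rw [Frm.Js, if_pos h, h, Φ.J0]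
  · rw [Frm.Js, if_neg h, map_neg, Φ.Jsq q h, neg_neg]

theorem Js_J (q : Fin (e + 1)) (v : V) : Φ.Js q (Φ.J q v) = v := by
  by_cases h : q = 0
  · rw [Frm.Js, if_pos h, h, Φ.J0]
  · rw [Frm.Js, if_neg h, Φ.Jsq q h, neg_neg]

theorem norm_Js (q : Fin (e + 1)) (v : V) : ‖Φ.Js q v‖ = ‖v‖ := by
  rw [← (Φ.J q).norm_map, J_Js]

/-- orthogonality is symmetric -/
theorem osym {v w : V} (h : ∀ q, inner ℝ v (Φ.J q w) = 0) (q : Fin (e + 1)) :
    inner ℝ (Φ.J q v) w = 0 := by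
  obtain ⟨ε, _, h1⟩ := Js_eq Φ q
  rw [adj, h1, inner_smul_right, h q, mul_zero]

theorem osym' {v w : V} (h : ∀ q, inner ℝ (Φ.J q v) w = 0) (q : Fin (e + 1)) :
    inner ℝ v (Φ.J q w) = 0 := by
  obtain ⟨ε, h0, h1⟩ := Js_eq Φ q
  have h2 := h q
  rw [adj, h1, inner_smul_right] at h2
  have h3 : ε ≠ 0 := by
    intro h4
    rw [h4, mul_zero] at h0
    exact zero_ne_one h0
  exact (mul_eq_zero.1 h2).resolve_left h3

theorem psym {v w : V} (h : Φ.Pair v w) : Φ.Pair w v := by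
  obtain ⟨h1, h2, h3⟩ := h
  refine ⟨h2, h1, fun q => ?_⟩
  rw [real_inner_comm]
  exact osym Φ h3 q

theorem pJ {v w : V} (h : Φ.Pair v w) (q : Fin (e + 1)) : Φ.Pair (Φ.J q v) w := by
  obtain ⟨h1, h2, h3⟩ := h
  exact ⟨by rw [(Φ.J q).norm_map, h1], h2, fun p => Φ.orthC v w h3 q p⟩

theorem norm_one {x : V} (h : inner ℝ x x = (1 : ℝ)) : ‖x‖ = 1 := by
  rw [real_inner_self_eq_norm_sq] at h
  exact (pow_eq_one_iff_of_nonneg (norm_nonneg x) two_ne_zero).1 h

theorem one_inner {x : V} (h : ‖x‖ = 1) : inner ℝ x x = (1 : ℝ) := by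
  rw [real_inner_self_eq_norm_sq, h]; norm_num

theorem rot {v w : V} (h : Φ.Pair v w) (q : Fin (e + 1)) (t : ℝ) :
    Φ.Pair (Φ.rt1 q t v w) (Φ.rt2 q t v w) := by
  have hs := psym Φ h
  have hvv := one_inner h.1
  have hww := one_inner h.2.1
  have hJw : inner ℝ (Φ.J q w) (Φ.J q w) = (1 : ℝ) := by
    rw [(Φ.J q).inner_map_map]; exact hww
  have hJsv : inner ℝ (Φ.Js q v) (Φ.Js q v) = (1 : ℝ) :=
    one_inner (by rw [norm_Js]; exact h.1)
  have h1 : inner ℝ v (Φ.J q w) = (0 : ℝ) := h.2.2 q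
  have h1' : inner ℝ (Φ.J q w) v = (0 : ℝ) := by rw [real_inner_comm]; exact h1
  have h2 : inner ℝ w (Φ.Js q v) = (0 : ℝ) := by rw [← adj]; exact h1'
  have h2' : inner ℝ (Φ.Js q v) w = (0 : ℝ) := by rw [real_inner_comm]; exact h2
  have hcs := Real.cos_sq_add_sin_sq t
  refine ⟨?_, ?_, fun p => ?_⟩
  · apply norm_one
    unfold Frm.rt1
    simp only [inner_add_left, inner_add_right, real_inner_smul_left, real_inner_smul_right,
      hvv, hJw, h1, h1']
    linear_combination hcs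
  · apply norm_one
    unfold Frm.rt2
    simp only [inner_sub_left, inner_sub_right, real_inner_smul_left, real_inner_smul_right,
      hww, hJsv, h2, h2']
    linear_combination hcs
  · -- the second vector
    have h3 : ∀ r, inner ℝ w (Φ.J r (Φ.Js q v)) = (0 : ℝ) := by
      intro r
      obtain ⟨ε, _, h4⟩ := Js_eq Φ q
      rw [h4, map_smul, inner_smul_right]
      have h5 := (psym Φ (pJ Φ h q)).2.2 r
      rw [h5, mul_zero]
    have h6 : inner ℝ (Φ.J q w) (Φ.J p (Φ.Js q v)) = (0 : ℝ) := Φ.orthC w _ h3 q p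
    have h7 : inner ℝ v (Φ.J p w) = (0 : ℝ) := h.2.2 p
    unfold Frm.rt1 Frm.rt2
    rw [map_sub, map_smul, map_smul]
    simp only [inner_add_left, inner_sub_right, real_inner_smul_left, real_inner_smul_right,
      h6, h7]
    by_cases hpq : p = q
    · subst hpq
      rw [J_Js, hvv, hJw]
      ring
    · have h8 : inner ℝ (Φ.J q w) (Φ.J p w) = (0 : ℝ) := Φ.Jorth w q p (Ne.symm hpq)
      have h9 : inner ℝ v (Φ.J p (Φ.Js q v)) = (0 : ℝ) := by
        obtain ⟨ε, _, h4⟩ := Js_eq Φ q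
        obtain ⟨ε', _, h4'⟩ := Js_eq Φ p
        rw [real_inner_comm, adj, h4, h4', real_inner_smul_left, real_inner_smul_right,
          Φ.Jorth v q p (Ne.symm hpq)]
        ring
      rw [h8, h9]
      ring

theorem phase {v w : V} (h : Φ.Pair v w) {q : Fin (e + 1)} (hq : q ≠ 0) (t : ℝ) :
    Φ.Pair (Real.cos t • v + Real.sin t • Φ.J q v) w := by
  have hvv := one_inner h.1
  have hJv : inner ℝ (Φ.J q v) (Φ.J q v) = (1 : ℝ) := by
    rw [(Φ.J q).inner_map_map]; exact hvv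
  have h1 : inner ℝ v (Φ.J q v) = (0 : ℝ) := by
    have h2 := Φ.Jorth v 0 q (Ne.symm hq)
    rwa [Φ.J0] at h2
  have h1' : inner ℝ (Φ.J q v) v = (0 : ℝ) := by rw [real_inner_comm]; exact h1
  have hcs := Real.cos_sq_add_sin_sq t
  refine ⟨?_, h.2.1, fun p => ?_⟩
  · apply norm_one
    simp only [inner_add_left, inner_add_right, real_inner_smul_left, real_inner_smul_right,
      hvv, hJv, h1, h1']
    linear_combination hcs
  · rw [inner_add_left, real_inner_smul_left, real_inner_smul_left, h.2.2 p, (pJ Φ h q).2.2 p]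
    ring

include Φ in
theorem findim : FiniteDimensional ℝ V := Φ.L.toLinearEquiv.finiteDimensional

include Φ in
theorem finrank_V : Module.finrank ℝ V = n := by
  rw [← Φ.L.toLinearEquiv.finrank_eq, finrank_euclideanSpace, Fintype.card_fin]

theorem exists_pair {v : V} (hv : ‖v‖ = 1) : ∃ w, Φ.Pair v w := by
  haveI := findim Φ
  let W : Submodule ℝ V := Submodule.span ℝ (Set.range fun q => Φ.J q v)
  have h1 : Module.finrank ℝ W ≤ e + 1 := by
    have h2 := finrank_range_le_card (R := ℝ) (fun q => Φ.J q v)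
    rwa [Fintype.card_fin] at h2
  have h3 := W.finrank_add_finrank_orthogonal
  rw [finrank_V Φ] at h3
  have h4 := Φ.le
  have h5 : Wᗮ ≠ ⊥ := by
    intro h6
    rw [h6, finrank_bot] at h3
    omega
  obtain ⟨w, hw, hw0⟩ := Submodule.exists_mem_ne_zero_of_ne_bot h5
  have h7 : ∀ q, inner ℝ (Φ.J q v) w = (0 : ℝ) := fun q =>
    (Submodule.mem_orthogonal W w).1 hw _ (Submodule.subset_span ⟨q, rfl⟩)
  have h8 : ‖w‖ ≠ 0 := norm_ne_zero_iff.2 hw0
  refine ⟨‖w‖⁻¹ • w, hv, ?_, ?_⟩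
  · rw [norm_smul, norm_inv, norm_norm, inv_mul_cancel₀ h8]
  · apply osym'
    intro q
    rw [real_inner_smul_right, h7 q, mul_zero]

theorem range_iota {v : V} (hv : ∀ q, inner ℝ (Φ.J q Φ.a) v = (0 : ℝ)) : ∃ u, Φ.ι u = v := by
  haveI := findim Φ
  let W : Submodule ℝ V := Submodule.span ℝ (Set.range fun q => Φ.J q Φ.a)
  have hon : Orthonormal ℝ (fun q => Φ.J q Φ.a) :=
    ⟨fun q => by rw [(Φ.J q).norm_map, Φ.ha], fun p q hpq => Φ.Jorth Φ.a p q hpq⟩
  have h1 : Module.finrank ℝ W = e + 1 := by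
    have h2 := finrank_span_eq_card hon.linearIndependent
    rwa [Fintype.card_fin] at h2
  have h3 := W.finrank_add_finrank_orthogonal
  rw [finrank_V Φ, h1] at h3
  have memW : ∀ x : V, (∀ q, inner ℝ (Φ.J q Φ.a) x = (0 : ℝ)) → x ∈ Wᗮ := by
    intro x hx
    rw [Submodule.mem_orthogonal]
    intro y hy
    refine Submodule.span_induction ?_ ?_ ?_ ?_ hy
    · rintro _ ⟨q, rfl⟩; exact hx q
    · exact inner_zero_left _
    · intro a b _ _ ha hb; rw [inner_add_left, ha, hb, add_zero]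
    · intro c a _ ha; rw [real_inner_smul_left, ha, mul_zero]
  have h5 : LinearMap.range Φ.ι.toLinearMap = Wᗮ := by
    apply Submodule.eq_of_le_of_finrank_eq
    · rintro _ ⟨u, rfl⟩
      exact memW _ (Φ.hι u)
    · rw [LinearMap.finrank_range_of_inj Φ.ι.injective, finrank_euclideanSpace,
        Fintype.card_fin]
      omega
  have h6 : v ∈ LinearMap.range Φ.ι.toLinearMap := by
    rw [h5]; exact memW v hv
  obtain ⟨u, hu⟩ := h6
  exact ⟨u, hu⟩

end JPair

open JPair in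
theorem prfPair : clPair := by
  intro V _ _ _ n e Φ
  refine ⟨adj Φ, fun q v => ⟨J_Js Φ q v, Js_J Φ q v, norm_Js Φ q v⟩, ?_, ?_, ?_, ?_, ?_, ?_⟩
  · intro v w h
    refine ⟨psym Φ h, ⟨by rw [norm_neg]; exact h.1, h.2.1, fun q => ?_⟩,
      ⟨h.1, by rw [norm_neg]; exact h.2.1, fun q => ?_⟩, pJ Φ h, fun g => ⟨?_, ?_, fun q => ?_⟩,
      rot Φ h, fun q hq t => phase Φ h hq t⟩
    · rw [inner_neg_left, h.2.2 q, neg_zero]
    · rw [map_neg, inner_neg_right, h.2.2 q, neg_zero]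
    · rw [(Φ.A g).norm_map]; exact h.1
    · rw [(Φ.A g).norm_map]; exact h.2.1
    · rw [← Φ.comm, (Φ.A g).inner_map_map]; exact h.2.2 q
  · intro u hu
    have h1 : Φ.Pair Φ.a (Φ.ι u) :=
      ⟨Φ.ha, by rw [Φ.ι.norm_map]; exact hu, osym' Φ (Φ.hι u)⟩
    exact ⟨h1, psym Φ h1⟩
  · intro v hv
    exact exists_pair Φ hv
  · intro v w h g q
    rw [← Φ.comm, (Φ.A g).inner_map_map]; exact h q
  · intro g
    haveI := findim Φ
    exact LinearMap.surjective_of_injective (f := (Φ.A g).toLinearMap) (Φ.A g).injective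
  · intro v hv
    exact range_iota Φ hv

end Pool.Agent.Work.MP_408f4b_gt.Q
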