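import Pool.Agent.Work.MP_408f4b_gt.I.Polar
import Pool.Agent.Work.MP_408f4b_gt.Q.Stmts3

set_option autoImplicit false

namespace Pool.Agent.Work.MP_408f4b_gt.Q

open MeasureTheory Set Filter Topology ProbabilityTheory

namespace JPolar

open IPolar

lemma mm_four (n : ℕ) (hn : 1 ≤ n) : mm n 4 = n * (n + 2) * mm n 0 := by
  rw [mm_eq, mm_eq]
  have h1 : (((n - 1 + 4 : ℕ) : ℝ) + 1) / 2 = (n : ℝ) / 2 + 1 + 1 := by
    have : n - 1 + 4 = n + 3 := by omega
    rw [this]; push_cast; ring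
  have h2 : (((n - 1 + 0 : ℕ) : ℝ) + 1) / 2 = (n : ℝ) / 2 := by
    have : n - 1 + 0 = n - 1 := by omega
    rw [this, Nat.cast_sub hn]; push_cast; ring
  have h1' : -(((n - 1 + 4 : ℕ) : ℝ) + 1) / 2 = -((n : ℝ) / 2) + (-1) + (-1) := by
    rw [neg_div, h1]; ring
  have h2' : -(((n - 1 + 0 : ℕ) : ℝ) + 1) / 2 = -((n : ℝ) / 2) := by
    rw [neg_div, h2]
  have hn0 : (n : ℝ) / 2 ≠ 0 := by positivity
  have hn1 : (n : ℝ) / 2 + 1 ≠ 0 := by positivity
  rw [h1, h2, h1', h2', Real.Gamma_add_one hn1, Real.Gamma_add_one hn0,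
    Real.rpow_add (by norm_num), Real.rpow_add (by norm_num), Real.rpow_neg_one]
  ring

lemma key (n k : ℕ) (h : E n → ℝ) (x : E n) : rho n x * (‖x‖ ^ k * h (‖x‖⁻¹ • x)) =
    CC n * (h (‖x‖⁻¹ • x) * (‖x‖ ^ k * Real.exp (-(1 / 2) * ‖x‖ ^ 2))) := by
  unfold rho
  ring

lemma hI (n : ℕ) (hn : 1 ≤ n) (h : E n → ℝ) (k : ℕ) :
    ∫ x, ‖x‖ ^ k * h (‖x‖⁻¹ • x) ∂(stdGaussian (E n)) =
      CC n * mm n k * ∫ θ : Sph n, h θ ∂sig n := by
  rw [std_integral]
  simp_rw [key n k h]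
  rw [integral_const_mul, polar_int n hn h (fun r => r ^ k * Real.exp (-(1 / 2) * r ^ 2))]
  unfold mm
  ring

lemma hJ (n : ℕ) (hn : 1 ≤ n) (h : E n → ℝ) (hh : ContinuousOn h {x | x ≠ 0}) (k : ℕ) :
    Integrable (fun x => ‖x‖ ^ k * h (‖x‖⁻¹ • x)) (stdGaussian (E n)) := by
  have hc : Continuous (fun θ : Sph n => h θ) := by
    refine hh.comp_continuous continuous_subtype_val ?_
    intro θ
    have h1 : ‖(θ : E n)‖ = 1 := by simp
    intro h0
    rw [h0, norm_zero] at h1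
    exact zero_ne_one h1
  have hint : Integrable (fun θ : Sph n => h θ) (sig n) := by
    have hfm : IsFiniteMeasure (sig n) := by unfold sig; infer_instance
    exact hc.integrable_of_hasCompactSupport (HasCompactSupport.of_compactSpace _)
  rw [std_integrable]
  simp_rw [key n k h]
  exact (polar_integrable n hn h (fun r => r ^ k * Real.exp (-(1 / 2) * r ^ 2)) hint
    (mm_integrable n k)).const_mul _

lemma mass (n : ℕ) (hn : 1 ≤ n) : CC n * mm n 0 * (sig n).real univ = 1 := by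
  have h := hI n hn (fun _ => 1) 0
  simp only [pow_zero, integral_const, smul_eq_mul, mul_one] at h
  rw [← h]
  simp

end JPolar

open JPolar IPolar in
theorem prfPolar : clPolar := by
  intro n hn
  refine ⟨CC n * mm n 0, mul_pos (CC_pos n) (mm_pos n), ?_⟩
  intro h hh
  refine ⟨?_, ?_, hJ n hn h hh 2, hJ n hn h hh 4, mass n hn⟩
  · rw [hI n hn h 2, mm_two n hn]
    ring
  · rw [hI n hn h 4, mm_four n hn]
    ring

end Pool.Agent.Work.MP_408f4b_gt.Q
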