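import Pool.Agent.Work.MP_408f4b_gt.Q.Stmts3

set_option autoImplicit false

/-!
# Reflection of arms and reversal of chords
-/

namespace Pool.Agent.Work.MP_408f4b_gt.Q

open MeasureTheory Set Filter Topology

namespace JRefl

theorem deriv_rev (L : ℝ) (x : ℝ → ℝ) (s : ℝ) :
    deriv (fun t => x (L - t)) s = -deriv x (L - s) := deriv_comp_const_sub x L s

theorem deriv2_rev (L : ℝ) (x : ℝ → ℝ) (s : ℝ) :
    deriv (deriv (fun t => x (L - t))) s = deriv (deriv x) (L - s) := by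
  have h : deriv (fun t => x (L - t)) = fun s => -deriv x (L - s) := by
    funext s
    exact deriv_rev L x s
  have h2 : deriv (fun s => -deriv x (L - s)) s = -deriv (fun s => deriv x (L - s)) s :=
    deriv.fun_neg
  rw [h, h2, deriv_comp_const_sub (deriv x) L s, neg_neg]

theorem kk_refl (p q : ℕ) (u : ℝ) : kk q p (Real.pi / 2 - u) = -kk p q u := by
  unfold kk
  rw [Real.cos_pi_div_two_sub, Real.sin_pi_div_two_sub]
  ring

theorem arm (p q : ℕ) (d T : ℝ) (φ ψ : ℝ → ℝ) (h : Arm (kk p q) d T φ ψ) :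
    Arm (kk q p) d T (fun t => Real.pi / 2 - φ t) (fun t => -ψ t) where
  cφ := continuousOn_const.sub h.cφ
  cψ := h.cψ.neg
  rφ := by
    intro t ht
    obtain ⟨h1, h2⟩ := h.rφ t ht
    exact ⟨by linarith, by linarith⟩
  rψ := by
    intro t ht
    obtain ⟨h1, h2⟩ := h.rψ t ht
    exact ⟨by linarith, by linarith⟩
  dφ := by
    intro t ht
    have h1 := (h.dφ t ht).const_sub (Real.pi / 2)
    rw [Real.tan_neg]
    exact h1
  dψ := by
    intro t ht
    have h1 := (h.dψ t ht).neg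
    rw [Real.tan_neg, kk_refl]
    have h2 : -kk p q (φ t) - d * -Real.tan (ψ t) = -(kk p q (φ t) - d * Real.tan (ψ t)) := by
      ring
    rw [h2]
    exact h1

theorem ang_refl (p q : ℕ) (hp : 2 ≤ p) (hq : 2 ≤ q) : ang p q = Real.pi / 2 - ang q p := by
  have h1 : (2 : ℝ) ≤ p := by exact_mod_cast hp
  have h2 : (2 : ℝ) ≤ q := by exact_mod_cast hq
  have h3 : 0 < ((p : ℝ) - 1) / ((q : ℝ) - 1) := div_pos (by linarith) (by linarith)
  unfold ang
  rw [← Real.arctan_inv_of_pos (Real.sqrt_pos.2 h3), ← Real.sqrt_inv, inv_div]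

theorem kq_rev (a b : ℕ) (L : ℝ) (x y : ℝ → ℝ) (s : ℝ) :
    kq a b (fun t => x (L - t)) (fun t => y (L - t)) s = -kq a b x y (L - s) := by
  unfold kq
  rw [deriv_rev, deriv_rev]
  ring

theorem crv_rev {a b : ℕ} {L : ℝ} {x y : ℝ → ℝ} (h : Crv a b 0 L x y) :
    Crv a b 0 L (fun s => x (L - s)) (fun s => y (L - s)) := by
  refine ⟨h.1.comp (contDiff_const.sub contDiff_id), h.2.1.comp (contDiff_const.sub contDiff_id),
    fun s hs => ?_⟩
  obtain ⟨h1, h2, h3, h4⟩ := h.2.2 (L - s) ⟨by linarith [hs.2], by linarith [hs.1]⟩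
  refine ⟨h1, h2, ?_, ?_⟩
  · rw [deriv_rev, deriv_rev, neg_sq, neg_sq]
    exact h3
  · rw [kq_rev, deriv_rev, deriv_rev, deriv2_rev, deriv2_rev]
    linarith

theorem chd_rev {a b : ℕ} {L : ℝ} {x y : ℝ → ℝ} (h : Chd a b L x y) :
    Chd a b L (fun s => x (L - s)) (fun s => y (L - s)) where
  L_pos := h.L_pos
  curve := crv_rev h.curve
  injOn := by
    intro s hs t ht hst
    have h1 : L - s ∈ Icc 0 L := ⟨by linarith [hs.2], by linarith [hs.1]⟩
    have h2 : L - t ∈ Icc 0 L := ⟨by linarith [ht.2], by linarith [ht.1]⟩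
    have h3 := h.injOn h1 h2 hst
    linarith
  final := by
    obtain ⟨h1, h2, h3⟩ := h.initial
    rw [deriv_rev, deriv_rev]
    simp only [sub_self]
    exact ⟨h1, by rw [h2, neg_neg], by rw [h3, neg_neg]⟩
  initial := by
    obtain ⟨h1, h2, h3⟩ := h.final
    rw [deriv_rev, deriv_rev]
    simp only [sub_zero]
    exact ⟨h1, by rw [h2], by rw [h3]⟩

end JRefl

/-- Reflection of arms, and reversal of chords. -/
theorem prfRefl : clRefl :=
  ⟨JRefl.arm, JRefl.ang_refl, fun _ _ _ _ _ h => JRefl.chd_rev h⟩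

end Pool.Agent.Work.MP_408f4b_gt.Q
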