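import Pool.Agent.Work.MP_408f4b_gt.Q.Stmts3

set_option autoImplicit false

/-!
# Item Sec0: the inequality of Picone from a positive supersolution
-/

namespace Pool.Agent.Work.MP_408f4b_gt.Q

open MeasureTheory Set Filter Topology

theorem prfSec0 : clSec0 := by
  intro α β w pot ρ ρ' F' hαβ hw hw0 hpot hρ0 hρ _ hF hFle u u' hu hu'
  have hG : ∀ s ∈ Icc α β, HasDerivAt
      (fun t => u t ^ 2 * (w t * ρ' t) / ρ t)
      (2 * u s * u' s * (w s * ρ' s) / ρ s + u s ^ 2 *
        (F' s / ρ s - w s * ρ' s ^ 2 / ρ s ^ 2)) s := by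
    intro s hs
    have hx0 : ρ s ≠ 0 := (hρ0 s hs).ne'
    have h1 := (((hu s hs).pow 2).mul (hF s hs)).div (hρ s hs) hx0
    refine h1.congr_deriv ?_
    simp only [Pi.mul_apply, Pi.pow_apply]
    field_simp
    push_cast
    ring
  have hcu : ContinuousOn u (Icc α β) := fun s hs => (hu s hs).continuousAt.continuousWithinAt
  have hcont : ContinuousOn
      (fun s => (u' s ^ 2 + pot s * u s ^ 2) * w s) (Icc α β) :=
    ((hu'.pow 2).add (hpot.mul (hcu.pow 2))).mul hw
  have key := intervalIntegral.sub_le_integral_of_hasDeriv_right_of_le hαβ.le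
    (fun s hs => (hG s hs).continuousAt.continuousWithinAt)
    (fun s hs => (hG s (Ioo_subset_Icc_self hs)).hasDerivWithinAt)
    (hcont.integrableOn_Icc) (fun s hs => by
      have hs' := Ioo_subset_Icc_self hs
      have hρs := hρ0 s hs'
      have hx0 : ρ s ≠ 0 := hρs.ne'
      have h2 : (u' s ^ 2 + pot s * u s ^ 2) * w s -
          (2 * u s * u' s * (w s * ρ' s) / ρ s + u s ^ 2 *
        (F' s / ρ s - w s * ρ' s ^ 2 / ρ s ^ 2)) =
          w s * (u' s - u s * ρ' s / ρ s) ^ 2 +
            u s ^ 2 * ((w s * pot s * ρ s - F' s) / ρ s) := by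
        field_simp
        ring
      have h3 : 0 ≤ w s * (u' s - u s * ρ' s / ρ s) ^ 2 :=
        mul_nonneg (hw0 s hs').le (sq_nonneg _)
      have h4 : 0 ≤ u s ^ 2 * ((w s * pot s * ρ s - F' s) / ρ s) :=
        mul_nonneg (sq_nonneg _) (div_nonneg (by linarith [hFle s hs']) hρs.le)
      linarith)
  refine le_trans (le_of_eq ?_) key
  ring

end Pool.Agent.Work.MP_408f4b_gt.Q
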