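import Pool.Agent.Work.MP_408f4b_gt.Q.Stmts3

set_option autoImplicit false

/-!
# The action of `U(k)` is transitive on the unit vectors (item Trans)
-/

namespace Pool.Agent.Work.MP_408f4b_gt.Q

open Matrix

namespace JTrans

section alg

variable {F : Type} [Ring F] [StarRing F] {k : ℕ}

/-- The pairing. -/
def ip (x y : Fin k → F) : F := ∑ i, star (x i) * y i

/-- The rank one matrix `x p y*`. -/
def rk (x : Fin k → F) (p : F) (y : Fin k → F) : Matrix (Fin k) (Fin k) F :=
  fun i j => x i * p * star (y j)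

theorem star_rk (x : Fin k → F) (p : F) (y : Fin k → F) : star (rk x p y) = rk y (star p) x := by
  ext i j
  simp [rk, Matrix.star_apply, mul_assoc]

theorem rk_mul (x : Fin k → F) (p : F) (y z : Fin k → F) (q : F) (w : Fin k → F) :
    rk x p y * rk z q w = rk x (p * ip y z * q) w := by
  ext i j
  rw [Matrix.mul_apply]
  simp only [rk, ip, Finset.mul_sum, Finset.sum_mul, mul_assoc]

theorem rk_add (x : Fin k → F) (p q : F) (y : Fin k → F) :
    rk x p y + rk x q y = rk x (p + q) y := by
  ext i j
  simp [rk, mul_add, add_mul]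

theorem rk_zero (x y : Fin k → F) : rk x 0 y = 0 := by
  ext i j
  simp [rk]

theorem star_ip (x y : Fin k → F) : star (ip x y) = ip y x := by
  simp [ip, star_sum]

theorem mem_unitary (x : Fin k → F) (p : F) (h1 : p + star p + star p * ip x x * p = 0)
    (h2 : p + star p + p * ip x x * star p = 0) :
    1 + rk x p x ∈ unitary (Matrix (Fin k) (Fin k) F) := by
  rw [Unitary.mem_iff]
  have hs : star (1 + rk x p x) = 1 + rk x (star p) x := by
    rw [star_add, star_one, star_rk]
  constructor
  · rw [hs, add_mul, mul_add, mul_add, one_mul, mul_one, one_mul, rk_mul]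
    have : rk x p x + (rk x (star p) x + rk x (star p * ip x x * p) x) = 0 := by
      rw [rk_add, rk_add, ← add_assoc, h1, rk_zero]
    rw [add_assoc, this, add_zero]
  · rw [hs, add_mul, mul_add, mul_add, one_mul, mul_one, one_mul, rk_mul]
    have : rk x (star p) x + (rk x p x + rk x (p * ip x x * star p) x) = 0 := by
      rw [rk_add, rk_add, ← add_assoc, add_comm (star p) p, h2, rk_zero]
    rw [add_assoc, this, add_zero]

theorem sum_rk (x : Fin k → F) (p : F) (z : Fin k → F) (i : Fin k) :
    ∑ j, (1 + rk x p x) i j * z j = z i + x i * p * ip x z := by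
  simp only [Matrix.add_apply, add_mul, Finset.sum_add_distrib]
  congr 1
  · simp [Matrix.one_apply]
  · simp only [rk, ip, Finset.mul_sum, mul_assoc]

end alg

section main

variable {F : Type} [NormedRing F] [InnerProductSpace ℝ F] [StarRing F] [IsDA F] {k : ℕ}

theorem ip_self (x : Vec F k) : ip (fun i => x i) (fun i => x i) = (‖x‖ ^ 2) • (1 : F) := by
  rw [PiLp.norm_sq_eq_of_L2, Finset.sum_smul]
  exact Finset.sum_congr rfl fun i _ => star_mul_self' F (x i)

omit [InnerProductSpace ℝ F] [IsDA F] in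
theorem act_rk (x : Fin k → F) (p : F) (h : 1 + rk x p x ∈ unitary (Matrix (Fin k) (Fin k) F))
    (z : Vec F k) (i : Fin k) :
    act (⟨1 + rk x p x, h⟩ : Un F k) z i = z i + x i * p * ip x (fun i => z i) := by
  exact sum_rk x p (fun i => z i) i

theorem smul_one_mul (r : ℝ) (a : F) : (r • (1 : F)) * a = r • a := by
  rw [IsDA.smul_mul', one_mul]

theorem mul_smul_one (r : ℝ) (a : F) : a * (r • (1 : F)) = r • a := by
  rw [IsDA.mul_smul', mul_one]

theorem one_ne : (1 : F) ≠ 0 := by
  intro h
  have h1 : ‖(1 : F)‖ = 1 := IsDA.norm_one'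
  rw [h, norm_zero] at h1
  exact zero_ne_one h1

theorem smul_one_inj {r s : ℝ} (h : r • (1 : F) = s • (1 : F)) : r = s :=
  smul_left_injective ℝ (one_ne (F := F)) h

/-- The phase. -/
theorem phase (h : clIn) (c : F) : ∃ (q : F) (r : ℝ), star q * q = 1 ∧ q * star q = 1 ∧
    star q * c = r • (1 : F) := by
  obtain ⟨-, -, -, h4, h5, -, -⟩ := h F
  by_cases hc : c = 0
  · exact ⟨1, 0, by simp, by simp, by simp [hc]⟩
  · have hn : ‖c‖ ≠ 0 := norm_ne_zero_iff.2 hc
    refine ⟨‖c‖⁻¹ • c, ‖c‖, ?_, ?_, ?_⟩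
    · rw [h4, IsDA.smul_mul', IsDA.mul_smul', (h5 c).2, smul_smul, smul_smul]
      have : ‖c‖⁻¹ * ‖c‖⁻¹ * ‖c‖ ^ 2 = 1 := by field_simp
      rw [this, one_smul]
    · rw [h4, IsDA.smul_mul', IsDA.mul_smul', (h5 c).1, smul_smul, smul_smul]
      have : ‖c‖⁻¹ * ‖c‖⁻¹ * ‖c‖ ^ 2 = 1 := by field_simp
      rw [this, one_smul]
    · rw [h4, IsDA.smul_mul', (h5 c).2, smul_smul]
      have : ‖c‖⁻¹ * ‖c‖ ^ 2 = ‖c‖ := by field_simp
      rw [this]

theorem refl (h : clIn) (x y : Vec F k) (hx : ‖x‖ = 1) (hy : ‖y‖ = 1) (r : ℝ)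
    (hr : ip (fun i => x i) (fun i => y i) = r • (1 : F)) :
    ∃ A : Un F k, act A x = y ∧ ∀ z : Vec F k, ip (fun i => x i) (fun i => z i) = 0 →
      ip (fun i => y i) (fun i => z i) = 0 → act A z = z := by
  obtain ⟨-, -, -, h4, h5, -, -⟩ := h F
  have hst : ∀ r : ℝ, star (r • (1 : F)) = r • (1 : F) := fun r => by rw [h4, star_one]
  by_cases hxy : x = y
  · subst hxy
    have h1 : ∀ z : Vec F k, act (1 : Un F k) z = z := by
      intro z
      apply PiLp.ext
      intro i
      change ∑ j, (1 : Matrix (Fin k) (Fin k) F) i j * z j = z i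
      simp [Matrix.one_apply]
    exact ⟨1, h1 x, fun z _ _ => h1 z⟩
  · set g : Vec F k := x - y with hg
    have hg0 : g ≠ 0 := sub_ne_zero.2 hxy
    have hgn : ‖g‖ ≠ 0 := norm_ne_zero_iff.2 hg0
    have hsub : ∀ z : Vec F k, ip (fun i => g i) (fun i => z i)
        = ip (fun i => x i) (fun i => z i) - ip (fun i => y i) (fun i => z i) := by
      intro z
      simp [ip, hg, sub_mul, Finset.sum_sub_distrib]
    have hsub2 : ∀ z : Vec F k, ip (fun i => z i) (fun i => g i)
        = ip (fun i => z i) (fun i => x i) - ip (fun i => z i) (fun i => y i) := by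
      intro z
      simp [ip, hg, mul_sub, Finset.sum_sub_distrib]
    have hxx : ip (fun i => x i) (fun i => x i) = (1 : F) := by
      rw [ip_self, hx]; simp
    have hyy : ip (fun i => y i) (fun i => y i) = (1 : F) := by
      rw [ip_self, hy]; simp
    have hyx : ip (fun i => y i) (fun i => x i) = r • (1 : F) := by
      rw [← star_ip, hr, hst]
    have hgx : ip (fun i => g i) (fun i => x i) = (1 - r) • (1 : F) := by
      rw [hsub, hxx, hyx, sub_smul, one_smul]
    have hgg : ip (fun i => g i) (fun i => g i) = (2 - 2 * r) • (1 : F) := by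
      rw [hsub, hsub2, hsub2, hxx, hyy, hyx, hr]
      module
    have hgg2 := ip_self g
    rw [hgg] at hgg2
    have hn : 2 - 2 * r = ‖g‖ ^ 2 := smul_one_inj hgg2
    have hn0 : 2 - 2 * r ≠ 0 := by rw [hn]; exact pow_ne_zero 2 hgn
    set c : ℝ := -2 / (2 - 2 * r) with hc
    have hc1 : c + c + c * (2 - 2 * r) * c = 0 := by
      rw [hc]; field_simp; ring
    have hc2 : c * (1 - r) = -1 := by
      rw [hc]
      have : 1 - r ≠ 0 := by intro h0; apply hn0; linarith
      field_simp
    have hp : ∀ a : ℝ, a = 0 → a • (1 : F) = 0 := fun a ha => by rw [ha, zero_smul]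
    have hmem : 1 + rk (fun i => g i) (c • (1 : F)) (fun i => g i)
        ∈ unitary (Matrix (Fin k) (Fin k) F) := by
      apply mem_unitary
      · rw [hst, hgg, smul_one_mul, mul_smul_one, smul_smul, smul_smul, ← add_smul, ← add_smul]
        apply hp
        linarith [hc1, mul_comm c ((2 - 2 * r) * c), mul_comm c (2 - 2 * r)]
      · rw [hst, hgg, smul_one_mul, mul_smul_one, smul_smul, smul_smul, ← add_smul, ← add_smul]
        apply hp
        linarith [hc1, mul_comm c ((2 - 2 * r) * c), mul_comm c (2 - 2 * r)]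
    refine ⟨⟨_, hmem⟩, ?_, ?_⟩
    · apply PiLp.ext
      intro i
      rw [act_rk, hgx, mul_smul_one, mul_smul_one, smul_smul, mul_comm, hc2, hg]
      simp
    · intro z hz1 hz2
      apply PiLp.ext
      intro i
      rw [act_rk, hsub, hz1, hz2]
      simp

end main

end JTrans

open JTrans in
/-- The action of `U(k)` is transitive on the unit vectors, by an element which fixes the
vectors orthogonal to both. -/
theorem prfTrans (h : clIn) (hA : clAct) : clTrans := by
  intro F _ _ _ _ k x y hx hy
  obtain ⟨q, r, hq1, hq2, hr⟩ := phase h (ip (fun i => x i) (fun i => y i))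
  obtain ⟨-, -, hnorm, hmul, -⟩ := hA F k
  have hxx : ip (fun i => x i) (fun i => x i) = (1 : F) := by
    rw [ip_self, hx]; simp
  have hmem : 1 + rk (fun i => x i) (q - 1) (fun i => x i)
      ∈ unitary (Matrix (Fin k) (Fin k) F) := by
    apply mem_unitary
    · rw [hxx, star_sub, star_one, mul_one]
      have : (star q - 1) * (q - 1) = star q * q - star q - q + 1 := by noncomm_ring
      rw [this, hq1]
      abel
    · rw [hxx, star_sub, star_one, mul_one]
      have : (q - 1) * (star q - 1) = q * star q - star q - q + 1 := by noncomm_ring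
      rw [this, hq2]
      abel
  set S : Un F k := ⟨_, hmem⟩ with hS
  have hSx : ∀ i, act S x i = x i * q := by
    intro i
    rw [hS, act_rk, hxx, mul_one, mul_sub, mul_one]
    abel
  have hn : ‖act S x‖ = 1 := by rw [hnorm, hx]
  have hpair : ∀ z : Vec F k, ip (fun i => act S x i) (fun i => z i)
      = star q * ip (fun i => x i) (fun i => z i) := by
    intro z
    simp only [hSx, ip, Finset.mul_sum, star_mul, mul_assoc]
  obtain ⟨H, hH1, hH2⟩ := refl h (act S x) y hn hy r (by rw [hpair, hr])
  refine ⟨H * S, by rw [hmul, hH1], ?_⟩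
  intro z hz1 hz2
  have hSz : act S z = z := by
    apply PiLp.ext
    intro i
    have hz : ip (fun i => x i) (fun i => z i) = 0 := hz1
    rw [hS, act_rk, hz]
    simp
  rw [hmul, hSz]
  apply hH2 z _ hz2
  rw [hpair]
  have hz : ip (fun i => x i) (fun i => z i) = 0 := hz1
  rw [hz, mul_zero]

end Pool.Agent.Work.MP_408f4b_gt.Q
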