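import Pool.Agent.Work.MP_408f4b_gt.Q.Stmts3

set_option autoImplicit false

namespace Pool.Agent.Work.MP_408f4b_gt.Q

open MeasureTheory Set Filter Topology

namespace JAvC1

section diffInt

variable {X Y G : Type} [NormedAddCommGroup X] [NormedSpace ℝ X] [FiniteDimensional ℝ X]
  [NormedAddCommGroup Y] [NormedSpace ℝ Y]
  [TopologicalSpace G] [CompactSpace G] [MeasurableSpace G]
  [BorelSpace G] (μ : Measure G) [IsProbabilityMeasure μ]

/-- Differentiation under the integral over a compact group. -/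
theorem hasFD (H : X × Y → ℝ) (hH : ContDiff ℝ 1 H) (p : G → Y) (hp : Continuous p) (x : X) :
    HasFDerivAt (fun x => ∫ g, H (x, p g) ∂μ)
      (∫ g, (fderiv ℝ H (x, p g)).comp (ContinuousLinearMap.inl ℝ X Y) ∂μ) x := by
  have hc : Continuous (fun z : X × G => (fderiv ℝ H (z.1, p z.2)).comp
      (ContinuousLinearMap.inl ℝ X Y)) := by
    have h1 : Continuous (fun z : X × G => fderiv ℝ H (z.1, p z.2)) :=
      (hH.continuous_fderiv (by norm_num)).comp
        (continuous_fst.prodMk (hp.comp continuous_snd))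
    exact h1.clm_comp continuous_const
  have hpr : ProperSpace X := FiniteDimensional.proper ℝ X
  obtain ⟨C, hC⟩ := ((isCompact_closedBall x (1 : ℝ)).prod
    (isCompact_univ : IsCompact (univ : Set G))).exists_bound_of_continuousOn hc.continuousOn
  have hHc : Continuous H := hH.continuous
  have hF : ∀ y : X, Continuous (fun g => H (y, p g)) := fun y =>
    hHc.comp (continuous_const.prodMk hp)
  refine hasFDerivAt_integral_of_dominated_of_fderiv_le (s := Metric.ball x 1)
    (bound := fun _ => C) (F := fun x g => H (x, p g))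
    (F' := fun x g => (fderiv ℝ H (x, p g)).comp (ContinuousLinearMap.inl ℝ X Y))
    (Metric.ball_mem_nhds x one_pos) ?_ ?_ ?_ ?_ ?_ ?_
  · exact Filter.Eventually.of_forall fun y => (hF y).aestronglyMeasurable
  · exact (hF x).integrable_of_hasCompactSupport (HasCompactSupport.of_compactSpace _)
  · exact (hc.comp (continuous_const.prodMk continuous_id)).aestronglyMeasurable
  · exact Filter.Eventually.of_forall fun g y hy =>
      hC (y, g) ⟨Metric.ball_subset_closedBall hy, mem_univ _⟩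
  · exact integrable_const C
  · refine Filter.Eventually.of_forall fun g y _ => ?_
    have h1 : HasFDerivAt H (fderiv ℝ H (y, p g)) (y, p g) :=
      ((hH.differentiable (by norm_num)) (y, p g)).hasFDerivAt
    have h2 : HasFDerivAt (fun y : X => (y, p g)) (ContinuousLinearMap.inl ℝ X Y) y :=
      hasFDerivAt_prodMk_left y (p g)
    exact h1.comp y h2

theorem contD (H : X × Y → ℝ) (hH : ContDiff ℝ 1 H) (p : G → Y) (hp : Continuous p) :
    ContDiff ℝ 1 (fun x => ∫ g, H (x, p g) ∂μ) := by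
  rw [contDiff_one_iff_fderiv]
  have h0 := hasFD μ H hH p hp
  refine ⟨fun x => (h0 x).differentiableAt, ?_⟩
  have h1 : fderiv ℝ (fun x => ∫ g, H (x, p g) ∂μ) = fun x =>
      ∫ g, (fderiv ℝ H (x, p g)).comp (ContinuousLinearMap.inl ℝ X Y) ∂μ :=
    funext fun x => (h0 x).fderiv
  rw [h1]
  have hc : Continuous (fun z : X × G => (fderiv ℝ H (z.1, p z.2)).comp
      (ContinuousLinearMap.inl ℝ X Y)) := by
    have h1 : Continuous (fun z : X × G => fderiv ℝ H (z.1, p z.2)) :=
      (hH.continuous_fderiv (by norm_num)).comp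
        (continuous_fst.prodMk (hp.comp continuous_snd))
    exact h1.clm_comp continuous_const
  have hpr : ProperSpace X := FiniteDimensional.proper ℝ X
  have h2 := continuous_parametric_integral_of_continuous (μ := μ)
    (f := fun (x : X) (g : G) => (fderiv ℝ H (x, p g)).comp (ContinuousLinearMap.inl ℝ X Y))
    hc (isCompact_univ : IsCompact (univ : Set G))
  simpa using h2

end diffInt

variable {V W : Type} [NormedAddCommGroup V] [InnerProductSpace ℝ V] [CompleteSpace V]
  [NormedAddCommGroup W] [InnerProductSpace ℝ W] [CompleteSpace W] {m n e : ℕ}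

theorem inner_gr (f : V → ℝ) (x h : V) : inner ℝ (gradient f x) h = fderiv ℝ f x h := by
  rw [gradient]
  exact InnerProductSpace.toDual_symm_apply

/-- The derivative with respect to a rotation. -/
theorem om_eq (Φ : Frm V m e) (q : Fin (e + 1)) (g : V → V → ℝ) (D : V × V →L[ℝ] ℝ) (r r' : V)
    (hg : HasFDerivAt (fun z : V × V => g z.1 z.2) D (r, r')) :
    Φ.om q g r r' = D (Φ.J q r', -Φ.Js q r) := by
  unfold Frm.om gr1 gr2
  rw [inner_gr, inner_gr]
  have hl : HasFDerivAt (fun x : V => (x, r')) (ContinuousLinearMap.inl ℝ V V) r :=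
    hasFDerivAt_prodMk_left r r'
  have hr : HasFDerivAt (fun x : V => (r, x)) (ContinuousLinearMap.inr ℝ V V) r' :=
    hasFDerivAt_prodMk_right r r'
  have h1 : HasFDerivAt (fun v' => g v' r') (D.comp (ContinuousLinearMap.inl ℝ V V)) r :=
    HasFDerivAt.comp (g := fun z : V × V => g z.1 z.2) (f := fun x : V => (x, r')) r hg hl
  have h2 : HasFDerivAt (fun w' => g r w') (D.comp (ContinuousLinearMap.inr ℝ V V)) r' :=
    HasFDerivAt.comp (g := fun z : V × V => g z.1 z.2) (f := fun x : V => (r, x)) r' hg hr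
  rw [h1.fderiv, h2.fderiv]
  simp only [ContinuousLinearMap.comp_apply, ContinuousLinearMap.inl_apply,
    ContinuousLinearMap.inr_apply]
  rw [← map_sub]
  simp

/-- The function of the pairs. -/
def H4 (U : V → V → W → W → ℝ) : (V × V) × (W × W) → ℝ := fun z => U z.1.1 z.1.2 z.2.1 z.2.2

theorem H4_c1 (U : V → V → W → W → ℝ)
    (hU : ContDiff ℝ 1 (fun z : V × V × W × W => U z.1 z.2.1 z.2.2.1 z.2.2.2)) :
    ContDiff ℝ 1 (H4 U) := by
  have h1 : ContDiff ℝ 1 (fun z : (V × V) × (W × W) =>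
      ((z.1.1, z.1.2, z.2.1, z.2.2) : V × V × W × W)) := by
    fun_prop
  exact hU.comp h1

theorem contA (Ψ : Frm W n e) (v : W) : Continuous (fun g : Ψ.G => Ψ.A g v) :=
  Ψ.cont.comp (continuous_id.prodMk continuous_const)

theorem pair_ab (Ψ : Frm W n e) : Ψ.Pair Ψ.a Ψ.b := ⟨Ψ.ha, Ψ.hb, Ψ.hab⟩

end JAvC1

open JAvC1 in
theorem prfAvC1 (hA : clAv) (hP : clPair) (hD : clDR) : clAvC1 := by
  intro V W _ _ _ _ _ _ m n e Φ Ψ U hU
  have hfV : FiniteDimensional ℝ V := Φ.L.toLinearEquiv.finiteDimensional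
  have hH := H4_c1 U hU.c1
  have hp : Continuous (fun g : Ψ.G => ((Ψ.A g Ψ.a, Ψ.A g Ψ.b) : W × W)) :=
    (contA Ψ Ψ.a).prodMk (contA Ψ Ψ.b)
  have hK : ContDiff ℝ 1 (fun z : V × V => Ψ.av (U z.1 z.2)) :=
    contD Ψ.μ (H4 U) hH _ hp
  have hKd : ∀ z : V × V, HasFDerivAt (fun z : V × V => Ψ.av (U z.1 z.2))
      (∫ g, (fderiv ℝ (H4 U) (z, (Ψ.A g Ψ.a, Ψ.A g Ψ.b))).comp
        (ContinuousLinearMap.inl ℝ (V × V) (W × W)) ∂Ψ.μ) z :=
    fun z => hasFD Ψ.μ (H4 U) hH _ hp z
  have hcW : ∀ (r r' : V), Continuous (fun z : W × W => U r r' z.1 z.2) := by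
    intro r r'
    have h1 : Continuous (fun z : W × W => (((r, r'), (z.1, z.2)) : (V × V) × (W × W))) := by
      fun_prop
    exact hH.continuous.comp h1
  have hAv := (hA W n e Ψ).1
  have hPr := (hP W n e Ψ).2.2.1
  have hab := pair_ab Ψ
  refine ⟨hK, ?_, ?_, ?_, ?_, ?_⟩
  · have h1 : ContDiff ℝ 1 (fun z : V × V × W × W => ((z.1, z.2.1) : V × V)) := by fun_prop
    exact hK.comp h1
  · intro q r r' v v'
    have h1 : dR Φ q (pA Ψ U) r r' v v' = _ := om_eq Φ q
      (fun ρ ρ' => pA Ψ U ρ ρ' v v') _ r r' (hKd (r, r'))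
    rw [h1]
    have hc : Continuous (fun g : Ψ.G => (fderiv ℝ (H4 U) ((r, r'), (Ψ.A g Ψ.a, Ψ.A g Ψ.b))).comp
        (ContinuousLinearMap.inl ℝ (V × V) (W × W))) := by
      have h1 : Continuous (fun g : Ψ.G => fderiv ℝ (H4 U) ((r, r'), (Ψ.A g Ψ.a, Ψ.A g Ψ.b))) :=
        (hH.continuous_fderiv (by norm_num)).comp (continuous_const.prodMk hp)
      exact h1.clm_comp continuous_const
    rw [ContinuousLinearMap.integral_apply
      (hc.integrable_of_hasCompactSupport (HasCompactSupport.of_compactSpace _))]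
    unfold Frm.av
    refine integral_congr_ae (Filter.Eventually.of_forall fun g => ?_)
    have h2 : HasFDerivAt (fun z : V × V => U z.1 z.2 (Ψ.A g Ψ.a) (Ψ.A g Ψ.b))
        ((fderiv ℝ (H4 U) ((r, r'), (Ψ.A g Ψ.a, Ψ.A g Ψ.b))).comp
        (ContinuousLinearMap.inl ℝ (V × V) (W × W))) (r, r') := by
      have h3 : HasFDerivAt (H4 U) (fderiv ℝ (H4 U) ((r, r'), (Ψ.A g Ψ.a, Ψ.A g Ψ.b)))
          ((r, r'), (Ψ.A g Ψ.a, Ψ.A g Ψ.b)) :=
        ((hH.differentiable (by norm_num)) _).hasFDerivAt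
      have h4 : HasFDerivAt (fun z : V × V => (z, ((Ψ.A g Ψ.a, Ψ.A g Ψ.b) : W × W)))
          (ContinuousLinearMap.inl ℝ (V × V) (W × W)) (r, r') :=
        hasFDerivAt_prodMk_left (r, r') ((Ψ.A g Ψ.a, Ψ.A g Ψ.b) : W × W)
      exact h3.comp (r, r') h4
    exact (om_eq Φ q (fun ρ ρ' => U ρ ρ' (Ψ.A g Ψ.a) (Ψ.A g Ψ.b)) _ r r' h2).symm
  · intro q r r' v v'
    have h1 : HasFDerivAt (fun z : W × W => pA Ψ U r r' z.1 z.2) (0 : W × W →L[ℝ] ℝ) (v, v') :=
      hasFDerivAt_const _ _
    have h2 := om_eq Ψ q (pA Ψ U r r') _ v v' h1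
    exact h2.trans (by simp)
  · intro r r'
    constructor
    · rw [← (hAv (U (-r) r') (hcW _ _)).2 (-Ψ.a) Ψ.b (hPr _ _ hab).2.1]
      unfold Frm.av
      refine integral_congr_ae (Filter.Eventually.of_forall fun g => ?_)
      simp only [map_neg]
      exact hU.neg1 r r' _ _
    · rw [← (hAv (U r (-r')) (hcW _ _)).2 Ψ.a (-Ψ.b) (hPr _ _ hab).2.2.1]
      unfold Frm.av
      refine integral_congr_ae (Filter.Eventually.of_forall fun g => ?_)
      simp only [map_neg]
      exact hU.neg2 r r' _ _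
  · intro q hq t r r'
    constructor
    · rw [← (hAv (U (Real.cos t • r + Real.sin t • Φ.J q r) r') (hcW _ _)).2
        (Real.cos t • Ψ.a + Real.sin t • Ψ.J q Ψ.a) Ψ.b
        ((hPr _ _ hab).2.2.2.2.2.2 q hq t)]
      unfold Frm.av
      refine integral_congr_ae (Filter.Eventually.of_forall fun g => ?_)
      simp only [map_add, map_smul, Ψ.comm]
      exact hU.ph1 q hq t r r' _ _
    · have hba := (hPr _ _ hab).1
      have h3 := (hPr _ _ hba).2.2.2.2.2.2 q hq t
      rw [← (hAv (U r (Real.cos t • r' + Real.sin t • Φ.J q r')) (hcW _ _)).2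
        Ψ.a (Real.cos t • Ψ.b + Real.sin t • Ψ.J q Ψ.b) (hPr _ _ h3).1]
      unfold Frm.av
      refine integral_congr_ae (Filter.Eventually.of_forall fun g => ?_)
      simp only [map_add, map_smul, Ψ.comm]
      exact hU.ph2 q hq t r r' _ _

end Pool.Agent.Work.MP_408f4b_gt.Q
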