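import Pool.Agent.Work.MP_408f4b_gt.Q.Stmts3

set_option autoImplicit false

namespace Pool.Agent.Work.MP_408f4b_gt.Q

open MeasureTheory Set Filter Topology

theorem prfBt (hPa : clPars) (hTC : clTCl) : clBt := by
  intro V W M _ _ _ _ _ _ _ _ _ m n e Φ Ψ T f κ s x y hf hy hyx hxy hx' hy'
  have hCl := (hTC V W M m n e Φ Ψ T f hf).1 (x s) (y s)
  have hCo : Co (T.U f (x s) (y s)) := hCl.c1.continuous
  have h := (hPa V W m n e Φ Ψ (T.U f (x s) (y s)) hCo).1
  unfold Bt
  have hx0 : x s ≠ 0 := by linarith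
  have hy0 : y s ≠ 0 := hy.ne'
  have hd : x s - y s ≠ 0 := by linarith
  have e1 : deriv x s / x s = κ := by rw [hx']; field_simp
  have e2 : deriv y s / y s = κ := by rw [hy']; field_simp
  have e3 : (x s * deriv x s + y s * deriv y s) / (x s ^ 2 + y s ^ 2) = κ := by
    rw [hxy, hx', hy', div_one]
    linear_combination κ * hxy
  have e4 : (deriv x s - deriv y s) / (x s - y s) = κ := by
    rw [hx', hy', ← mul_sub, mul_div_assoc, div_self hd, mul_one]
  rw [e1, e2, e3, e4, h]
  ring

end Pool.Agent.Work.MP_408f4b_gt.Q
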