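import Pool.Agent.Work.MP_408f4b_gt.Q.Stmts3

set_option autoImplicit false
set_option linter.unusedSectionVars false

/-!
# Closure properties of the class Cl
-/

namespace Pool.Agent.Work.MP_408f4b_gt.Q

namespace JCl

variable {V W : Type} [NormedAddCommGroup V] [InnerProductSpace ℝ V] [CompleteSpace V]
  [NormedAddCommGroup W] [InnerProductSpace ℝ W] [CompleteSpace W] {m n e : ℕ}
  {Φ : Frm V m e} {Ψ : Frm W n e} {U U₂ : V → V → W → W → ℝ}

theorem neg_ph (q : Fin (e + 1)) (t : ℝ) (v : W) :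
    -(Real.cos t • v + Real.sin t • Ψ.J q v) =
      Real.cos t • (-v) + Real.sin t • Ψ.J q (-v) := by
  rw [map_neg, smul_neg, smul_neg, neg_add]

theorem lin (h : Cl Φ Ψ U) (h₂ : Cl Φ Ψ U₂) (c d : ℝ) :
    Cl Φ Ψ (fun r r' v v' => c * U r r' v v' + d * U₂ r r' v v') where
  c1 := (contDiff_const.mul h.c1).add (contDiff_const.mul h₂.c1)
  neg1 r r' v v' := by rw [h.neg1, h₂.neg1]
  neg2 r r' v v' := by rw [h.neg2, h₂.neg2]
  ph1 q hq t r r' v v' := by rw [h.ph1 q hq, h₂.ph1 q hq]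
  ph2 q hq t r r' v v' := by rw [h.ph2 q hq, h₂.ph2 q hq]

theorem cs1 (h : Cl Φ Ψ U) : Cl Φ Ψ (s1 U) where
  c1 := by
    have h1 : ContDiff ℝ 1 (fun z : V × V × W × W => (z.1, z.2.1, -z.2.2.1, z.2.2.2)) :=
      contDiff_fst.prodMk ((contDiff_fst.comp contDiff_snd).prodMk
        (((contDiff_fst.comp (contDiff_snd.comp contDiff_snd)).neg).prodMk
          (contDiff_snd.comp (contDiff_snd.comp contDiff_snd))))
    exact h.c1.comp h1
  neg1 r r' v v' := h.neg1 r r' (-v) v'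
  neg2 r r' v v' := h.neg2 r r' (-v) v'
  ph1 q hq t r r' v v' := by
    unfold s1
    rw [neg_ph, h.ph1 q hq]
  ph2 q hq t r r' v v' := h.ph2 q hq t r r' (-v) v'

theorem csw (h : Cl Φ Ψ U) : Cl Φ Ψ (sw U) where
  c1 := by
    have h1 : ContDiff ℝ 1 (fun z : V × V × W × W => (z.2.1, z.1, z.2.2.2, z.2.2.1)) :=
      (contDiff_fst.comp contDiff_snd).prodMk (contDiff_fst.prodMk
        ((contDiff_snd.comp (contDiff_snd.comp contDiff_snd)).prodMk
          (contDiff_fst.comp (contDiff_snd.comp contDiff_snd))))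
    exact h.c1.comp h1
  neg1 r r' v v' := h.neg2 r' r v' v
  neg2 r r' v v' := h.neg1 r' r v' v
  ph1 q hq t r r' v v' := h.ph2 q hq t r' r v' v
  ph2 q hq t r r' v v' := h.ph1 q hq t r' r v' v

theorem cs2 (h : Cl Φ Ψ U) : Cl Φ Ψ (s2 U) := csw (cs1 (csw h))

theorem four (h : Cl Φ Ψ U) (a b c d : ℝ) : Cl Φ Ψ (fun r r' v v' =>
    1 * (a * U r r' v v' + b * s1 U r r' v v') +
      1 * (c * s2 U r r' v v' + d * s1 (s2 U) r r' v v')) :=
  lin (lin h (cs1 h) a b) (lin (cs2 h) (cs1 (cs2 h)) c d) 1 1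

theorem congr {U' : V → V → W → W → ℝ} (h : Cl Φ Ψ U)
    (he : ∀ r r' v v', U' r r' v v' = U r r' v v') : Cl Φ Ψ U' := by
  have : U' = U := by
    funext r r' v v'
    exact he r r' v v'
  rw [this]
  exact h

end JCl

theorem prfCl : clCl := by
  intro V W _ _ _ _ _ _ m n e Φ Ψ U h
  refine ⟨fun U₂ h₂ c d => JCl.lin h h₂ c d, JCl.cs1 h, JCl.cs2 h, JCl.csw h, ?_, ?_, ?_, ?_, ?_,
    ?_⟩
  · refine JCl.congr (JCl.four h (1 / 2) 0 0 (1 / 2)) fun r r' v v' => ?_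
    simp only [s1, s2]
    ring
  · refine JCl.congr (JCl.four h (1 / 2) 0 0 (-(1 / 2))) fun r r' v v' => ?_
    simp only [s1, s2]
    ring
  · refine JCl.congr (JCl.four h (1 / 4) (1 / 4) (1 / 4) (1 / 4)) fun r r' v v' => ?_
    simp only [s1, s2, pEE]
    ring
  · refine JCl.congr (JCl.four h (1 / 4) (-(1 / 4)) (-(1 / 4)) (1 / 4)) fun r r' v v' => ?_
    simp only [s1, s2, pOO]
    ring
  · refine JCl.congr (JCl.four h (1 / 4) (-(1 / 4)) (1 / 4) (-(1 / 4))) fun r r' v v' => ?_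
    simp only [s1, s2, pOE]
    ring
  · refine JCl.congr (JCl.four h (1 / 4) (1 / 4) (-(1 / 4)) (-(1 / 4))) fun r r' v v' => ?_
    simp only [s1, s2, pEO]
    ring

end Pool.Agent.Work.MP_408f4b_gt.Q
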