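import Pool.Agent.Work.MP_408f4b_gt.Q.Stmts3

set_option autoImplicit false

namespace Pool.Agent.Work.MP_408f4b_gt.Q

namespace JCube

/-- Sum of squares. -/
noncomputable def Qs (n : ℕ) (φ : (Fin n → Bool) → ℝ) : ℝ := ∑ ε, φ ε ^ 2

/-- Sum. -/
noncomputable def S (n : ℕ) (φ : (Fin n → Bool) → ℝ) : ℝ := ∑ ε, φ ε

/-- Energy. -/
noncomputable def E (n : ℕ) (φ : (Fin n → Bool) → ℝ) : ℝ :=
  ∑ i, ∑ ε, (φ ε - φ (Function.update ε i (!(ε i)))) ^ 2

/-- Negation of all bits. -/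
def ng {n : ℕ} (ε : Fin n → Bool) : Fin n → Bool := fun i => !(ε i)

theorem ng_ng {n : ℕ} (ε : Fin n → Bool) : ng (ng ε) = ε := by
  funext i; simp [ng]

/-- The negation as an equivalence. -/
def ngE (n : ℕ) : (Fin n → Bool) ≃ (Fin n → Bool) := ⟨ng, ng, ng_ng, ng_ng⟩

theorem sum_ng {n : ℕ} (f : (Fin n → Bool) → ℝ) : ∑ ε, f (ng ε) = ∑ ε, f ε :=
  (ngE n).sum_comp f

theorem sum_cons {n : ℕ} (f : (Fin (n + 1) → Bool) → ℝ) :
    ∑ ε, f ε = (∑ ε : Fin n → Bool, f (Fin.cons true ε)) +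
      ∑ ε : Fin n → Bool, f (Fin.cons false ε) := by
  rw [← (Fin.consEquiv (fun _ : Fin (n + 1) => Bool)).sum_comp f, Fintype.sum_prod_type,
    Fintype.sum_bool]
  rfl

theorem E_succ {n : ℕ} (φ : (Fin (n + 1) → Bool) → ℝ) :
    E (n + 1) φ = E n (fun ε => φ (Fin.cons true ε)) + E n (fun ε => φ (Fin.cons false ε)) +
      2 * ∑ ε : Fin n → Bool, (φ (Fin.cons true ε) - φ (Fin.cons false ε)) ^ 2 := by
  unfold E
  rw [Fin.sum_univ_succ]
  have h0 : ∑ ε : Fin (n + 1) → Bool, (φ ε - φ (Function.update ε 0 (!(ε 0)))) ^ 2 =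
      2 * ∑ ε : Fin n → Bool, (φ (Fin.cons true ε) - φ (Fin.cons false ε)) ^ 2 := by
    rw [sum_cons, two_mul]
    congr 1
    · refine Finset.sum_congr rfl fun ε _ => ?_
      simp only [Fin.cons_zero, Fin.update_cons_zero, Bool.not_true]
    · refine Finset.sum_congr rfl fun ε _ => ?_
      simp only [Fin.cons_zero, Fin.update_cons_zero, Bool.not_false]
      ring
  have h1 : ∀ i : Fin n, ∑ ε : Fin (n + 1) → Bool,
      (φ ε - φ (Function.update ε i.succ (!(ε i.succ)))) ^ 2 =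
      (∑ ε : Fin n → Bool, (φ (Fin.cons true ε) -
        φ (Fin.cons true (Function.update ε i (!(ε i))))) ^ 2) +
      ∑ ε : Fin n → Bool, (φ (Fin.cons false ε) -
        φ (Fin.cons false (Function.update ε i (!(ε i))))) ^ 2 := by
    intro i
    rw [sum_cons]
    simp only [Fin.cons_succ, Fin.cons_update]
  rw [h0, Finset.sum_congr rfl fun i _ => h1 i, Finset.sum_add_distrib]
  ring

theorem general (n : ℕ) : ∀ φ : (Fin n → Bool) → ℝ, 4 * (Qs n φ - S n φ ^ 2 / 2 ^ n) ≤ E n φ := by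
  induction n with
  | zero =>
    intro φ
    simp [Qs, S, E]
  | succ n ih =>
    intro φ
    have h1 := ih (fun ε => φ (Fin.cons true ε))
    have h0 := ih (fun ε => φ (Fin.cons false ε))
    rw [E_succ]
    have hQ : Qs (n + 1) φ = Qs n (fun ε => φ (Fin.cons true ε)) +
        Qs n (fun ε => φ (Fin.cons false ε)) := sum_cons _
    have hS : S (n + 1) φ = S n (fun ε => φ (Fin.cons true ε)) +
        S n (fun ε => φ (Fin.cons false ε)) := sum_cons _
    have hcs : (S n (fun ε => φ (Fin.cons true ε)) - S n (fun ε => φ (Fin.cons false ε))) ^ 2 ≤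
        2 ^ n * ∑ ε : Fin n → Bool, (φ (Fin.cons true ε) - φ (Fin.cons false ε)) ^ 2 := by
      unfold S
      rw [← Finset.sum_sub_distrib]
      refine (sq_sum_le_card_mul_sum_sq).trans (le_of_eq ?_)
      simp
    rw [hQ, hS]
    set q1 := Qs n (fun ε => φ (Fin.cons true ε))
    set q0 := Qs n (fun ε => φ (Fin.cons false ε))
    set s1 := S n (fun ε => φ (Fin.cons true ε))
    set s0 := S n (fun ε => φ (Fin.cons false ε))
    set W := ∑ ε : Fin n → Bool, (φ (Fin.cons true ε) - φ (Fin.cons false ε)) ^ 2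
    have hp : (0 : ℝ) < 2 ^ n := by positivity
    have e1 : (s1 - s0) ^ 2 / 2 ^ n ≤ W := by
      rw [div_le_iff₀ hp, mul_comm]; exact hcs
    have e2 : 4 * (q1 + q0 - (s1 + s0) ^ 2 / 2 ^ (n + 1)) =
        4 * (q1 - s1 ^ 2 / 2 ^ n) + 4 * (q0 - s0 ^ 2 / 2 ^ n) + 2 * ((s1 - s0) ^ 2 / 2 ^ n) := by
      rw [pow_succ]
      field_simp
      ring
    rw [e2]
    linarith

theorem ng_update {n : ℕ} (ε : Fin n → Bool) (i : Fin n) :
    ng (Function.update ε i (!(ε i))) = Function.update (ng ε) i (!(ng ε i)) := by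
  funext j
  by_cases h : j = i
  · subst h; simp [ng]
  · simp [ng, Function.update_of_ne h]

theorem E_ng {n : ℕ} (ψ : (Fin n → Bool) → ℝ) : E n (fun ε => ψ (ng ε)) = E n ψ := by
  unfold E
  refine Finset.sum_congr rfl fun i _ => ?_
  rw [← sum_ng (fun ε => (ψ ε - ψ (Function.update ε i (!(ε i)))) ^ 2)]
  refine Finset.sum_congr rfl fun ε _ => ?_
  show (ψ (ng ε) - ψ (ng (Function.update ε i (!(ε i))))) ^ 2 = _
  rw [ng_update]

theorem Qs_par {n : ℕ} (f g : (Fin n → Bool) → ℝ) :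
    Qs n (fun ε => (f ε + g ε) / 2) + Qs n (fun ε => (f ε - g ε) / 2) = (Qs n f + Qs n g) / 2 := by
  unfold Qs
  rw [← Finset.sum_add_distrib, ← Finset.sum_add_distrib, Finset.sum_div]
  exact Finset.sum_congr rfl fun ε _ => by ring

theorem E_par {n : ℕ} (f g : (Fin n → Bool) → ℝ) :
    E n (fun ε => (f ε + g ε) / 2) + E n (fun ε => (f ε - g ε) / 2) = (E n f + E n g) / 2 := by
  unfold E
  rw [← Finset.sum_add_distrib, ← Finset.sum_add_distrib, Finset.sum_div]
  refine Finset.sum_congr rfl fun i _ => ?_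
  rw [← Finset.sum_add_distrib, ← Finset.sum_add_distrib, Finset.sum_div]
  exact Finset.sum_congr rfl fun ε _ => by ring

theorem even (n : ℕ) : ∀ φ : (Fin n → Bool) → ℝ, (∀ ε, φ (ng ε) = φ ε) →
    8 * (Qs n φ - S n φ ^ 2 / 2 ^ n) ≤ E n φ := by
  induction n with
  | zero =>
    intro φ _
    simp [Qs, S, E]
  | succ n ih =>
    intro φ hφ
    set ψ : (Fin n → Bool) → ℝ := fun ε => φ (Fin.cons true ε) with hψ
    have h0 : (fun ε : Fin n → Bool => φ (Fin.cons false ε)) = fun ε => ψ (ng ε) := by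
      funext ε
      rw [hψ]
      simp only
      rw [← hφ (Fin.cons false ε)]
      congr 1
      funext j
      refine Fin.cases ?_ (fun j => ?_) j
      · simp [ng]
      · simp [ng]
    have hE : E (n + 1) φ = E n ψ + E n (fun ε => ψ (ng ε)) +
        2 * ∑ ε : Fin n → Bool, (ψ ε - ψ (ng ε)) ^ 2 := by
      rw [E_succ, h0]
      congr 2
      refine Finset.sum_congr rfl fun ε _ => ?_
      rw [show φ (Fin.cons false ε) = ψ (ng ε) from congrFun h0 ε]
    have hQ : Qs (n + 1) φ = Qs n ψ + Qs n (fun ε => ψ (ng ε)) := by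
      rw [← h0]; exact sum_cons _
    have hS : S (n + 1) φ = S n ψ + S n (fun ε => ψ (ng ε)) := by
      rw [← h0]; exact sum_cons _
    have hQn : Qs n (fun ε => ψ (ng ε)) = Qs n ψ := sum_ng (fun ε => ψ ε ^ 2)
    have hSn : S n (fun ε => ψ (ng ε)) = S n ψ := sum_ng ψ
    have hQp := Qs_par ψ (fun ε => ψ (ng ε))
    have hEp := E_par ψ (fun ε => ψ (ng ε))
    rw [hQn] at hQp
    rw [E_ng] at hEp
    set e : (Fin n → Bool) → ℝ := fun ε => (ψ ε + ψ (ng ε)) / 2 with he
    set o : (Fin n → Bool) → ℝ := fun ε => (ψ ε - ψ (ng ε)) / 2 with ho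
    have hSe : S n e = S n ψ := by
      have : S n e = (S n ψ + S n (fun ε => ψ (ng ε))) / 2 := by
        unfold S
        rw [← Finset.sum_add_distrib, Finset.sum_div]
      rw [this, hSn]; ring
    have hSo : S n o = 0 := by
      have : S n o = (S n ψ - S n (fun ε => ψ (ng ε))) / 2 := by
        unfold S
        rw [← Finset.sum_sub_distrib, Finset.sum_div]
      rw [this, hSn]; ring
    have hee := ih e (fun ε => by simp only [he, ng_ng]; ring)
    have hoo := general n o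
    have hW : ∑ ε : Fin n → Bool, (ψ ε - ψ (ng ε)) ^ 2 = 4 * Qs n o := by
      unfold Qs
      rw [Finset.mul_sum]
      exact Finset.sum_congr rfl fun ε _ => by simp only [ho]; ring
    rw [hE, hQ, hS, hQn, hSn, E_ng, hW]
    rw [hSe] at hee
    rw [hSo] at hoo
    have e2 : 8 * (Qs n ψ + Qs n ψ - (S n ψ + S n ψ) ^ 2 / 2 ^ (n + 1)) =
        16 * (Qs n ψ - S n ψ ^ 2 / 2 ^ n) := by
      rw [pow_succ]
      field_simp
      ring
    rw [e2]
    have h1 : (0 : ℝ) ^ 2 / 2 ^ n = 0 := by simp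
    rw [h1] at hoo
    linarith

end JCube

theorem prfCube : clCube := by
  intro n φ h
  exact JCube.even n φ h

end Pool.Agent.Work.MP_408f4b_gt.Q
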