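import Pool.Agent.Work.MP_408f4b_gt.Q.Stmts3

set_option autoImplicit false
set_option linter.unusedSectionVars false

/-!
# Derivatives of functions of two pairs
-/

namespace Pool.Agent.Work.MP_408f4b_gt.Q

open MeasureTheory Set Filter Topology

namespace JDR

section lin

variable {V W : Type} [NormedAddCommGroup V] [InnerProductSpace ℝ V]
  [NormedAddCommGroup W] [InnerProductSpace ℝ W]

/-- the function of one variable -/
def FU (U : V → V → W → W → ℝ) (z : V × V × W × W) : ℝ := U z.1 z.2.1 z.2.2.1 z.2.2.2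

def i1 : V →L[ℝ] V × V × W × W := ContinuousLinearMap.inl ℝ V (V × W × W)

def i2 : V →L[ℝ] V × V × W × W :=
  (ContinuousLinearMap.inr ℝ V (V × W × W)).comp (ContinuousLinearMap.inl ℝ V (W × W))

def i3 : W →L[ℝ] V × V × W × W :=
  (ContinuousLinearMap.inr ℝ V (V × W × W)).comp
    ((ContinuousLinearMap.inr ℝ V (W × W)).comp (ContinuousLinearMap.inl ℝ W W))

def i4 : W →L[ℝ] V × V × W × W :=
  (ContinuousLinearMap.inr ℝ V (V × W × W)).comp
    ((ContinuousLinearMap.inr ℝ V (W × W)).comp (ContinuousLinearMap.inr ℝ W W))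

theorem i1_apply (h : V) : (i1 h : V × V × W × W) = (h, 0, 0, 0) := rfl
theorem i2_apply (h : V) : (i2 h : V × V × W × W) = (0, h, 0, 0) := rfl
theorem i3_apply (h : W) : (i3 h : V × V × W × W) = (0, 0, h, 0) := rfl
theorem i4_apply (h : W) : (i4 h : V × V × W × W) = (0, 0, 0, h) := rfl

end lin

section grad

variable {H E : Type} [NormedAddCommGroup H] [InnerProductSpace ℝ H] [CompleteSpace H]
  [NormedAddCommGroup E] [NormedSpace ℝ E]

/-- partial gradient in the direction of `i` -/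
noncomputable def pg (F : E → ℝ) (i : H →L[ℝ] E) (z : E) : H :=
  (InnerProductSpace.toDual ℝ H).symm ((fderiv ℝ F z).comp i)

theorem inner_pg (F : E → ℝ) (i : H →L[ℝ] E) (z : E) (h : H) :
    inner ℝ (pg F i z) h = fderiv ℝ F z (i h) := by
  unfold pg
  rw [InnerProductSpace.toDual_symm_apply]
  rfl

theorem continuous_pg {F : E → ℝ} (hF : ContDiff ℝ 1 F) (i : H →L[ℝ] E) :
    Continuous (pg F i) := by
  have h1 : Continuous (fderiv ℝ F) := hF.continuous_fderiv (by norm_num)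
  exact (InnerProductSpace.toDual ℝ H).symm.continuous.comp (h1.clm_comp continuous_const)

theorem gradient_eq_pg {F : E → ℝ} (hF : ContDiff ℝ 1 F) (i : H →L[ℝ] E) (c : H → E) (x : H)
    (hc : HasFDerivAt c i x) : gradient (fun y => F (c y)) x = pg F i (c x) := by
  have h1 : HasFDerivAt F (fderiv ℝ F (c x)) (c x) :=
    (hF.differentiable (by norm_num)).differentiableAt.hasFDerivAt
  have h2 : HasFDerivAt (fun y => F (c y)) ((fderiv ℝ F (c x)).comp i) x := h1.comp x hc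
  unfold gradient pg
  rw [h2.fderiv]

end grad

section main

variable {V W : Type} [NormedAddCommGroup V] [InnerProductSpace ℝ V] [CompleteSpace V]
  [NormedAddCommGroup W] [InnerProductSpace ℝ W] [CompleteSpace W]
  {U : V → V → W → W → ℝ}

theorem gR1 (hU : C1 U) (r r' : V) (v v' : W) :
    gr1 (fun ρ ρ' => U ρ ρ' v v') r r' = pg (FU U) i1 (r, r', v, v') := by
  have hc : HasFDerivAt (fun x : V => ((x, r', v, v') : V × V × W × W)) i1 r := by
    have h := (i1 : V →L[ℝ] V × V × W × W).hasFDerivAt (x := r) |>.add_const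
      ((0, r', v, v') : V × V × W × W)
    refine h.congr_of_eventuallyEq (Filter.Eventually.of_forall fun x => ?_)
    simp [i1_apply]
  exact gradient_eq_pg (F := FU U) hU i1 _ r hc

theorem gR2 (hU : C1 U) (r r' : V) (v v' : W) :
    gr2 (fun ρ ρ' => U ρ ρ' v v') r r' = pg (FU U) i2 (r, r', v, v') := by
  have hc : HasFDerivAt (fun x : V => ((r, x, v, v') : V × V × W × W)) i2 r' := by
    have h := (i2 : V →L[ℝ] V × V × W × W).hasFDerivAt (x := r') |>.add_const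
      ((r, 0, v, v') : V × V × W × W)
    refine h.congr_of_eventuallyEq (Filter.Eventually.of_forall fun x => ?_)
    simp [i2_apply]
  exact gradient_eq_pg (F := FU U) hU i2 _ r' hc

theorem gW1 (hU : C1 U) (r r' : V) (v v' : W) :
    gr1 (U r r') v v' = pg (FU U) i3 (r, r', v, v') := by
  have hc : HasFDerivAt (fun x : W => ((r, r', x, v') : V × V × W × W)) i3 v := by
    have h := (i3 : W →L[ℝ] V × V × W × W).hasFDerivAt (x := v) |>.add_const
      ((r, r', 0, v') : V × V × W × W)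
    refine h.congr_of_eventuallyEq (Filter.Eventually.of_forall fun x => ?_)
    simp [i3_apply]
  exact gradient_eq_pg (F := FU U) hU i3 _ v hc

theorem gW2 (hU : C1 U) (r r' : V) (v v' : W) :
    gr2 (U r r') v v' = pg (FU U) i4 (r, r', v, v') := by
  have hc : HasFDerivAt (fun x : W => ((r, r', v, x) : V × V × W × W)) i4 v' := by
    have h := (i4 : W →L[ℝ] V × V × W × W).hasFDerivAt (x := v') |>.add_const
      ((r, r', v, 0) : V × V × W × W)
    refine h.congr_of_eventuallyEq (Filter.Eventually.of_forall fun x => ?_)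
    simp [i4_apply]
  exact gradient_eq_pg (F := FU U) hU i4 _ v' hc

end main

section frame

variable {V : Type} [NormedAddCommGroup V] [InnerProductSpace ℝ V] [CompleteSpace V] {n e : ℕ}
  (Φ : Frm V n e)

theorem continuous_Js (q : Fin (e + 1)) : Continuous (Φ.Js q) := by
  unfold Frm.Js
  by_cases h : q = 0
  · simp only [h, if_true]
    exact continuous_id
  · simp only [h, if_false]
    exact (Φ.J q).continuous.neg

theorem Js_add (q : Fin (e + 1)) (v w : V) : Φ.Js q (v + w) = Φ.Js q v + Φ.Js q w := by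
  unfold Frm.Js
  split_ifs
  · rfl
  · rw [map_add, neg_add]

theorem Js_smul (q : Fin (e + 1)) (c : ℝ) (v : V) : Φ.Js q (c • v) = c • Φ.Js q v := by
  unfold Frm.Js
  split_ifs
  · rfl
  · rw [map_smul, smul_neg]

/-- the quadratic form in `n1` -/
noncomputable def nf (v w x : V) : ℝ :=
  ‖x‖ ^ 2 - (inner ℝ x v) ^ 2 - ∑ q, (inner ℝ x (Φ.J q w)) ^ 2

theorem n1_eq (g : V → V → ℝ) (v w : V) : Φ.n1 g v w = nf Φ v w (gr1 g v w) := rfl

theorem n2_eq (g : V → V → ℝ) (v w : V) : Φ.n2 g v w = nf Φ w v (gr2 g v w) := rfl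

theorem nf_par (v w x y : V) :
    nf Φ v w (x + y) + nf Φ v w (x - y) = 2 * nf Φ v w x + 2 * nf Φ v w y := by
  unfold nf
  have h1 := parallelogram_law_with_norm ℝ x y
  have h2 : ∑ q, (inner ℝ (x + y) (Φ.J q w)) ^ 2 + ∑ q, (inner ℝ (x - y) (Φ.J q w)) ^ 2 =
      2 * ∑ q, (inner ℝ x (Φ.J q w)) ^ 2 + 2 * ∑ q, (inner ℝ y (Φ.J q w)) ^ 2 := by
    rw [← Finset.sum_add_distrib, Finset.mul_sum, Finset.mul_sum, ← Finset.sum_add_distrib]
    refine Finset.sum_congr rfl fun q _ => ?_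
    rw [inner_add_left, inner_sub_left]
    ring
  have h3 : (inner ℝ (x + y) v) ^ 2 + (inner ℝ (x - y) v) ^ 2 =
      2 * (inner ℝ x v) ^ 2 + 2 * (inner ℝ y v) ^ 2 := by
    rw [inner_add_left, inner_sub_left]
    ring
  have h1' : ‖x + y‖ ^ 2 + ‖x - y‖ ^ 2 = 2 * ‖x‖ ^ 2 + 2 * ‖y‖ ^ 2 := by nlinarith [h1]
  linarith

theorem nf_smul (v w x : V) (c : ℝ) : nf Φ v w (c • x) = c ^ 2 * nf Φ v w x := by
  unfold nf
  have h2 : ∑ q, (inner ℝ (c • x) (Φ.J q w)) ^ 2 = c ^ 2 * ∑ q, (inner ℝ x (Φ.J q w)) ^ 2 := by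
    rw [Finset.mul_sum]
    refine Finset.sum_congr rfl fun q _ => ?_
    rw [real_inner_smul_left]
    ring
  rw [h2, real_inner_smul_left, norm_smul, mul_pow, Real.norm_eq_abs, sq_abs]
  ring

theorem gr_const (v w : V) : gr1 (fun _ _ : V => (0 : ℝ)) v w = 0 ∧
    gr2 (fun _ _ : V => (0 : ℝ)) v w = 0 := by
  unfold gr1 gr2
  simp [gradient]

include Φ in
/-- linearity of the gradients -/
theorem gr_lin (hD : clDer) {g h : V → V → ℝ} (hg : ContDiff ℝ 1 (fun z : V × V => g z.1 z.2))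
    (hh : ContDiff ℝ 1 (fun z : V × V => h z.1 z.2)) (v w : V) :
    (gr1 (fun v w => g v w + h v w) v w = gr1 g v w + gr1 h v w ∧
    gr2 (fun v w => g v w + h v w) v w = gr2 g v w + gr2 h v w) ∧
    (gr1 (fun v w => g v w - h v w) v w = gr1 g v w - gr1 h v w ∧
    gr2 (fun v w => g v w - h v w) v w = gr2 g v w - gr2 h v w) ∧
    ∀ c : ℝ, gr1 (fun v w => c * g v w) v w = c • gr1 g v w ∧
      gr2 (fun v w => c * g v w) v w = c • gr2 g v w := by
  have hd := (hD V n e Φ g hg).2.2.2.2.2.2.2.2.2 h hh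
  refine ⟨?_, ?_, ?_⟩
  · have h1 := hd 1 v w
    simpa only [one_mul, one_smul] using h1
  · have h1 := hd (-1) v w
    simpa only [neg_mul, one_mul, neg_smul, one_smul, ← sub_eq_add_neg] using h1
  · intro c
    have h1 := (hD V n e Φ (fun _ _ => 0) contDiff_const).2.2.2.2.2.2.2.2.2 g hg c v w
    rw [(gr_const v w).1, (gr_const v w).2] at h1
    simpa only [zero_add] using h1

theorem om_lin (hD : clDer) {g h : V → V → ℝ} (hg : ContDiff ℝ 1 (fun z : V × V => g z.1 z.2))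
    (hh : ContDiff ℝ 1 (fun z : V × V => h z.1 z.2)) (q : Fin (e + 1)) (v w : V) :
    Φ.om q (fun v w => g v w + h v w) v w = Φ.om q g v w + Φ.om q h v w ∧
    Φ.om q (fun v w => g v w - h v w) v w = Φ.om q g v w - Φ.om q h v w ∧
    (∀ c : ℝ, Φ.om q (fun v w => c * g v w) v w = c * Φ.om q g v w) ∧
    ∀ c : ℝ, Φ.om q (fun v w => g v w + c * h v w) v w = Φ.om q g v w + c * Φ.om q h v w := by
  obtain ⟨⟨a1, a2⟩, ⟨b1, b2⟩, c1⟩ := gr_lin Φ hD hg hh v w
  have hd := (hD V n e Φ g hg).2.2.2.2.2.2.2.2.2 h hh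
  unfold Frm.om
  refine ⟨?_, ?_, ?_, ?_⟩
  · rw [a1, a2, inner_add_left, inner_add_left]
    ring
  · rw [b1, b2, inner_sub_left, inner_sub_left]
    ring
  · intro c
    rw [(c1 c).1, (c1 c).2, real_inner_smul_left, real_inner_smul_left]
    ring
  · intro c
    rw [(hd c v w).1, (hd c v w).2, inner_add_left, inner_add_left, real_inner_smul_left,
      real_inner_smul_left]
    ring

end frame

section two

variable {V W : Type} [NormedAddCommGroup V] [InnerProductSpace ℝ V] [CompleteSpace V]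
  [NormedAddCommGroup W] [InnerProductSpace ℝ W] [CompleteSpace W] {m n e : ℕ}
  (Φ : Frm V m e) (Ψ : Frm W n e) {U U₂ : V → V → W → W → ℝ}

theorem c1V (hU : C1 U) (v v' : W) : ContDiff ℝ 1 (fun z : V × V => U z.1 z.2 v v') := by
  have h : ContDiff ℝ 1 (fun z : V × V => ((z.1, z.2, v, v') : V × V × W × W)) := by fun_prop
  exact ContDiff.comp (g := FU U) hU h

theorem c1W (hU : C1 U) (r r' : V) : ContDiff ℝ 1 (fun z : W × W => U r r' z.1 z.2) := by
  have h : ContDiff ℝ 1 (fun z : W × W => ((r, r', z.1, z.2) : V × V × W × W)) := by fun_prop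
  exact ContDiff.comp (g := FU U) hU h

theorem dR_eq (hU : C1 U) (q : Fin (e + 1)) (r r' : V) (v v' : W) :
    dR Φ q U r r' v v' = inner ℝ (pg (FU U) i1 (r, r', v, v')) (Φ.J q r') -
      inner ℝ (pg (FU U) i2 (r, r', v, v')) (Φ.Js q r) := by
  unfold dR Frm.om
  rw [gR1 hU, gR2 hU]

theorem dW_eq (hU : C1 U) (q : Fin (e + 1)) (r r' : V) (v v' : W) :
    dW Ψ q U r r' v v' = inner ℝ (pg (FU U) i3 (r, r', v, v')) (Ψ.J q v') -
      inner ℝ (pg (FU U) i4 (r, r', v, v')) (Ψ.Js q v) := by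
  unfold dW Frm.om
  rw [gW1 hU, gW2 hU]

theorem co_dR (hU : C1 U) (q : Fin (e + 1)) : Co (dR Φ q U) := by
  unfold Co
  have h : (fun z : V × V × W × W => dR Φ q U z.1 z.2.1 z.2.2.1 z.2.2.2) = fun z =>
      inner ℝ (pg (FU U) i1 z) (Φ.J q z.2.1) - inner ℝ (pg (FU U) i2 z) (Φ.Js q z.1) := by
    funext z
    exact dR_eq Φ hU q _ _ _ _
  rw [h]
  have h1 := continuous_pg (F := FU U) hU (i1 : V →L[ℝ] V × V × W × W)
  have h2 := continuous_pg (F := FU U) hU (i2 : V →L[ℝ] V × V × W × W)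
  exact (h1.inner ((Φ.J q).continuous.comp (by fun_prop))).sub
    (h2.inner ((continuous_Js Φ q).comp (by fun_prop)))

theorem co_dW (hU : C1 U) (q : Fin (e + 1)) : Co (dW Ψ q U) := by
  unfold Co
  have h : (fun z : V × V × W × W => dW Ψ q U z.1 z.2.1 z.2.2.1 z.2.2.2) = fun z =>
      inner ℝ (pg (FU U) i3 z) (Ψ.J q z.2.2.2) - inner ℝ (pg (FU U) i4 z) (Ψ.Js q z.2.2.1) := by
    funext z
    exact dW_eq Ψ hU q _ _ _ _
  rw [h]
  have h1 := continuous_pg (F := FU U) hU (i3 : W →L[ℝ] V × V × W × W)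
  have h2 := continuous_pg (F := FU U) hU (i4 : W →L[ℝ] V × V × W × W)
  exact (h1.inner ((Ψ.J q).continuous.comp (by fun_prop))).sub
    (h2.inner ((continuous_Js Ψ q).comp (by fun_prop)))

theorem continuous_nf {X : Type} [TopologicalSpace X] {a b c : X → W} (ha : Continuous a)
    (hb : Continuous b) (hc : Continuous c) : Continuous fun z => nf Ψ (a z) (b z) (c z) := by
  unfold nf
  refine ((hc.norm.pow 2).sub ((hc.inner ha).pow 2)).sub ?_
  exact continuous_finsetSum _ fun q _ => (hc.inner ((Ψ.J q).continuous.comp hb)).pow 2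

theorem co_n1 (hU : C1 U) : Co (fun r r' v v' => Ψ.n1 (U r r') v v') := by
  unfold Co
  have h : (fun z : V × V × W × W => Ψ.n1 (U z.1 z.2.1) z.2.2.1 z.2.2.2) = fun z =>
      nf Ψ z.2.2.1 z.2.2.2 (pg (FU U) i3 z) := by
    funext z
    rw [n1_eq, gW1 hU]
  rw [h]
  exact continuous_nf Ψ (by fun_prop) (by fun_prop)
    (continuous_pg (F := FU U) hU (i3 : W →L[ℝ] V × V × W × W))

theorem co_n2 (hU : C1 U) : Co (fun r r' v v' => Ψ.n2 (U r r') v v') := by
  unfold Co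
  have h : (fun z : V × V × W × W => Ψ.n2 (U z.1 z.2.1) z.2.2.1 z.2.2.2) = fun z =>
      nf Ψ z.2.2.2 z.2.2.1 (pg (FU U) i4 z) := by
    funext z
    rw [n2_eq, gW2 hU]
  rw [h]
  exact continuous_nf Ψ (by fun_prop) (by fun_prop)
    (continuous_pg (F := FU U) hU (i4 : W →L[ℝ] V × V × W × W))

theorem co_eD (hU : C1 U) (x y : ℝ) : Co (eD Φ Ψ x y U) := by
  unfold Co eD
  have h1 := co_n1 Ψ hU
  have h2 := co_n2 Ψ hU
  have h3 := fun q => co_dR Φ hU q
  have h4 := fun q => co_dW Ψ hU q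
  unfold Co at h1 h2 h3 h4
  refine ((h1.div_const _).add (h2.div_const _)).add ?_
  exact continuous_finsetSum _ fun q _ => ((((h3 q).add (h4 q)).pow 2).div_const _).add
    ((((h3 q).sub (h4 q)).pow 2).div_const _)

theorem curve (hP : clPair) (q : Fin (e + 1)) (r r' : V) (t : ℝ) :
    HasDerivAt (fun t => Φ.rt1 q t r r') (Φ.J q (Φ.rt2 q t r r')) t ∧
    HasDerivAt (fun t => Φ.rt2 q t r r') (-Φ.Js q (Φ.rt1 q t r r')) t := by
  have hJ := (hP V m e Φ).2.1 q
  constructor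
  · have h1 : HasDerivAt (fun t => Φ.rt1 q t r r')
        (-Real.sin t • r + Real.cos t • Φ.J q r') t := by
      unfold Frm.rt1
      exact ((Real.hasDerivAt_cos t).smul_const r).add
        ((Real.hasDerivAt_sin t).smul_const (Φ.J q r'))
    refine h1.congr_deriv ?_
    unfold Frm.rt2
    rw [map_sub, map_smul, map_smul, (hJ r).1]
    rw [neg_smul]
    abel
  · have h1 : HasDerivAt (fun t => Φ.rt2 q t r r')
        (-Real.sin t • r' - Real.cos t • Φ.Js q r) t := by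
      unfold Frm.rt2
      exact ((Real.hasDerivAt_cos t).smul_const r').sub
        ((Real.hasDerivAt_sin t).smul_const (Φ.Js q r))
    refine h1.congr_deriv ?_
    unfold Frm.rt1
    rw [Js_add, Js_smul, Js_smul, (hJ r').2.1]
    rw [neg_smul]
    abel

theorem deriv_rot (hP : clPair) (hU : C1 U) (q : Fin (e + 1)) (κ : ℝ) (r r' : V) (v v' : W)
    (t : ℝ) : HasDerivAt (fun t => U (Φ.rt1 q t r r') (Φ.rt2 q t r r') (Ψ.rt1 q (κ * t) v v')
        (Ψ.rt2 q (κ * t) v v'))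
      (dR Φ q U (Φ.rt1 q t r r') (Φ.rt2 q t r r') (Ψ.rt1 q (κ * t) v v') (Ψ.rt2 q (κ * t) v v') +
        κ * dW Ψ q U (Φ.rt1 q t r r') (Φ.rt2 q t r r') (Ψ.rt1 q (κ * t) v v')
          (Ψ.rt2 q (κ * t) v v')) t := by
  obtain ⟨a1, a2⟩ := curve Φ hP q r r' t
  obtain ⟨b1, b2⟩ := curve Ψ hP q v v' (κ * t)
  have hk : HasDerivAt (fun t : ℝ => κ * t) κ t := by
    simpa using (hasDerivAt_id t).const_mul κ
  have b1' := b1.scomp t hk
  have b2' := b2.scomp t hk
  have hc : HasDerivAt (fun t => ((Φ.rt1 q t r r', Φ.rt2 q t r r', Ψ.rt1 q (κ * t) v v',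
      Ψ.rt2 q (κ * t) v v') : V × V × W × W))
      (Φ.J q (Φ.rt2 q t r r'), -Φ.Js q (Φ.rt1 q t r r'), κ • Ψ.J q (Ψ.rt2 q (κ * t) v v'),
        κ • -Ψ.Js q (Ψ.rt1 q (κ * t) v v')) t :=
    a1.prodMk (a2.prodMk (b1'.prodMk b2'))
  have hF : HasFDerivAt (FU U) (fderiv ℝ (FU U) (Φ.rt1 q t r r', Φ.rt2 q t r r',
      Ψ.rt1 q (κ * t) v v', Ψ.rt2 q (κ * t) v v')) (Φ.rt1 q t r r', Φ.rt2 q t r r',
      Ψ.rt1 q (κ * t) v v', Ψ.rt2 q (κ * t) v v') :=
    (ContDiff.differentiable (f := FU U) hU (by norm_num)).differentiableAt.hasFDerivAt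
  have h := hF.comp_hasDerivAt t hc
  refine HasDerivAt.congr_deriv (f := fun t => U (Φ.rt1 q t r r') (Φ.rt2 q t r r')
    (Ψ.rt1 q (κ * t) v v') (Ψ.rt2 q (κ * t) v v')) h ?_
  rw [dR_eq Φ hU, dW_eq Ψ hU, inner_pg, inner_pg, inner_pg, inner_pg, i1_apply, i2_apply, i3_apply,
    i4_apply]
  have key : ∀ (D : V × V × W × W →L[ℝ] ℝ) (a b : V) (c d : W), D (a, -b, κ • c, κ • -d) =
      D (a, 0, 0, 0) - D (0, b, 0, 0) + κ * (D (0, 0, c, 0) - D (0, 0, 0, d)) := by
    intro D a b c d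
    have h0 : ((a, -b, κ • c, κ • -d) : V × V × W × W) =
        (a, 0, 0, 0) - (0, b, 0, 0) + κ • ((0, 0, c, 0) - (0, 0, 0, d)) := by
      simp
    rw [h0, map_add, map_sub, map_smul, map_sub, smul_eq_mul]
  exact key _ _ _ _ _

end two

end JDR

open JDR in
theorem prfDR (hP : clPair) (hD : clDer) : clDR := by
  intro V W _ _ _ _ _ _ m n e Φ Ψ U U₂ hU hU₂
  refine ⟨fun q => ⟨co_dR Φ hU q, co_dW Ψ hU q⟩, co_n1 Ψ hU, co_n2 Ψ hU, co_eD Φ Ψ hU,
    deriv_rot Φ Ψ hP hU, ?_, ?_, ?_, ?_⟩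
  · intro q c r r' v v'
    exact ⟨(om_lin Φ hD (g := fun ρ ρ' => U ρ ρ' v v') (h := fun ρ ρ' => U₂ ρ ρ' v v')
      (c1V hU v v') (c1V hU₂ v v') q r r').2.2.2 c,
      (om_lin Ψ hD (c1W hU r r') (c1W hU₂ r r') q v v').2.2.2 c⟩
  · intro r r' v v'
    obtain ⟨⟨a1, a2⟩, ⟨b1, b2⟩, c1⟩ := gr_lin Ψ hD (c1W hU r r') (c1W hU₂ r r') v v'
    refine ⟨?_, ?_, ?_⟩
    · rw [n1_eq, n1_eq, n1_eq, n1_eq, a1, b1, nf_par]
    · rw [n2_eq, n2_eq, n2_eq, n2_eq, a2, b2, nf_par]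
    · intro c
      rw [n1_eq, n1_eq, n2_eq, n2_eq, (c1 c).1, (c1 c).2, nf_smul, nf_smul]
      exact ⟨rfl, rfl⟩
  · intro x y r r' v v'
    obtain ⟨⟨a1, a2⟩, ⟨b1, b2⟩, c1⟩ := gr_lin Ψ hD (c1W hU r r') (c1W hU₂ r r') v v'
    have hR := fun q => om_lin Φ hD (g := fun ρ ρ' => U ρ ρ' v v')
      (h := fun ρ ρ' => U₂ ρ ρ' v v') (c1V hU v v') (c1V hU₂ v v') q r r'
    have hW := fun q => om_lin Ψ hD (c1W hU r r') (c1W hU₂ r r') q v v'
    refine ⟨?_, ?_, ?_⟩
    · unfold eD dR dW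
      have e1 : Ψ.n1 (fun v v' => U r r' v v' + U₂ r r' v v') v v' +
          Ψ.n1 (fun v v' => U r r' v v' - U₂ r r' v v') v v' =
          2 * Ψ.n1 (U r r') v v' + 2 * Ψ.n1 (U₂ r r') v v' := by
        rw [n1_eq, n1_eq, n1_eq, n1_eq, a1, b1, nf_par]
      have e2 : Ψ.n2 (fun v v' => U r r' v v' + U₂ r r' v v') v v' +
          Ψ.n2 (fun v v' => U r r' v v' - U₂ r r' v v') v v' =
          2 * Ψ.n2 (U r r') v v' + 2 * Ψ.n2 (U₂ r r') v v' := by
        rw [n2_eq, n2_eq, n2_eq, n2_eq, a2, b2, nf_par]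
      have e3 : ∀ (A B A' B' C D C' D' : ℝ) (S S' S₁ S₂ : ℝ),
          A + B = 2 * A' + 2 * B' → C + D = 2 * C' + 2 * D' → S + S' = 2 * S₁ + 2 * S₂ →
          (A / x ^ 2 + C / y ^ 2 + S) + (B / x ^ 2 + D / y ^ 2 + S') =
          2 * (A' / x ^ 2 + C' / y ^ 2 + S₁) + 2 * (B' / x ^ 2 + D' / y ^ 2 + S₂) := by
        intro A B A' B' C D C' D' S S' S₁ S₂ h1 h2 h3
        have h4 : A / x ^ 2 + B / x ^ 2 = 2 * (A' / x ^ 2) + 2 * (B' / x ^ 2) := by
          rw [← add_div, h1]; ring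
        have h5 : C / y ^ 2 + D / y ^ 2 = 2 * (C' / y ^ 2) + 2 * (D' / y ^ 2) := by
          rw [← add_div, h2]; ring
        linarith
      refine e3 _ _ _ _ _ _ _ _ _ _ _ _ e1 e2 ?_
      rw [← Finset.sum_add_distrib, Finset.mul_sum, Finset.mul_sum, ← Finset.sum_add_distrib]
      refine Finset.sum_congr rfl fun q _ => ?_
      rw [(hR q).1, (hR q).2.1, (hW q).1, (hW q).2.1]
      ring
    · intro c
      unfold eD dR dW
      rw [n1_eq, n1_eq, n2_eq, n2_eq, (c1 c).1, (c1 c).2, nf_smul, nf_smul]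
      have e4 : ∀ (A B S S' : ℝ), S = c ^ 2 * S' →
          c ^ 2 * A / x ^ 2 + c ^ 2 * B / y ^ 2 + S = c ^ 2 * (A / x ^ 2 + B / y ^ 2 + S') := by
        intro A B S S' h
        rw [h]; ring
      refine e4 _ _ _ _ ?_
      rw [Finset.mul_sum]
      refine Finset.sum_congr rfl fun q _ => ?_
      rw [(hR q).2.2.1 c, (hW q).2.2.1 c]
      ring
    · have hgW : ContDiff ℝ 1 (fun z : W × W => U r r' z.1 z.2) := c1W hU r r'
      have hgW' : ContDiff ℝ 1 (fun z : W × W => U r r' z.1 (-z.2)) :=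
        hgW.comp (contDiff_fst.prodMk contDiff_snd.neg)
      have d1 := (hD W n e Ψ (fun v w => U r r' v (-w)) hgW').2.2.2.2.2.2.2.2.1 v v'
      have d2 := (hD W n e Ψ (U r r') hgW).2.2.2.2.2.2.2.2.1 (-v) v'
      unfold eD dR dW
      rw [d1.1, d1.2.1, d2.2.2.2.1, d2.2.2.2.2.1]
      congr 1
      refine Finset.sum_congr rfl fun q _ => ?_
      rw [d1.2.2.1 q, d2.2.2.2.2.2 q, neg_neg]
  · intro x y r r' v v' hvv
    obtain ⟨h1, h2⟩ := (hD W n e Ψ (U r r') (c1W hU r r')).2.2.2.2.2.1 v v' hvv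
    unfold eD
    refine add_nonneg (add_nonneg (div_nonneg h1 (sq_nonneg _)) (div_nonneg h2 (sq_nonneg _))) ?_
    exact Finset.sum_nonneg fun q _ => by positivity

end Pool.Agent.Work.MP_408f4b_gt.Q
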