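import Pool.Agent.Work.MP_408f4b_gt.Q.Stmts3

set_option autoImplicit false

/-!
# Derivatives of functions of pairs
-/

namespace Pool.Agent.Work.MP_408f4b_gt.Q

open MeasureTheory Set Filter Topology

namespace JDer

section one

variable {V : Type} [NormedAddCommGroup V] [InnerProductSpace ℝ V] [CompleteSpace V]

theorem part1 {g : V → V → ℝ} (hg : ContDiff ℝ 1 (fun z : V × V => g z.1 z.2)) (v w : V) :
    HasFDerivAt (fun v' => g v' w) ((fderiv ℝ (fun z : V × V => g z.1 z.2) (v, w)).comp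
      (ContinuousLinearMap.inl ℝ V V)) v := by
  have h1 : HasFDerivAt (fun z : V × V => g z.1 z.2)
      (fderiv ℝ (fun z : V × V => g z.1 z.2) (v, w)) (v, w) :=
    (hg.differentiable (by norm_num) (v, w)).hasFDerivAt
  have h2 : HasFDerivAt (fun v' : V => (v', w)) (ContinuousLinearMap.inl ℝ V V) v :=
    hasFDerivAt_prodMk_left v w
  exact h1.comp v h2

theorem part2 {g : V → V → ℝ} (hg : ContDiff ℝ 1 (fun z : V × V => g z.1 z.2)) (v w : V) :
    HasFDerivAt (fun w' => g v w') ((fderiv ℝ (fun z : V × V => g z.1 z.2) (v, w)).comp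
      (ContinuousLinearMap.inr ℝ V V)) w := by
  have h1 : HasFDerivAt (fun z : V × V => g z.1 z.2)
      (fderiv ℝ (fun z : V × V => g z.1 z.2) (v, w)) (v, w) :=
    (hg.differentiable (by norm_num) (v, w)).hasFDerivAt
  have h2 : HasFDerivAt (fun w' : V => (v, w')) (ContinuousLinearMap.inr ℝ V V) w :=
    hasFDerivAt_prodMk_right v w
  exact h1.comp w h2

theorem gr1_eq {g : V → V → ℝ} (hg : ContDiff ℝ 1 (fun z : V × V => g z.1 z.2)) (v w : V) :
    gr1 g v w = (InnerProductSpace.toDual ℝ V).symm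
      ((fderiv ℝ (fun z : V × V => g z.1 z.2) (v, w)).comp (ContinuousLinearMap.inl ℝ V V)) := by
  unfold gr1 gradient
  rw [(part1 hg v w).fderiv]

theorem gr2_eq {g : V → V → ℝ} (hg : ContDiff ℝ 1 (fun z : V × V => g z.1 z.2)) (v w : V) :
    gr2 g v w = (InnerProductSpace.toDual ℝ V).symm
      ((fderiv ℝ (fun z : V × V => g z.1 z.2) (v, w)).comp (ContinuousLinearMap.inr ℝ V V)) := by
  unfold gr2 gradient
  rw [(part2 hg v w).fderiv]

theorem inner_gr {g : V → V → ℝ} (hg : ContDiff ℝ 1 (fun z : V × V => g z.1 z.2)) (v w h h' : V) :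
    fderiv ℝ (fun z : V × V => g z.1 z.2) (v, w) (h, h') =
      inner ℝ (gr1 g v w) h + inner ℝ (gr2 g v w) h' := by
  rw [gr1_eq hg, gr2_eq hg, InnerProductSpace.toDual_symm_apply,
    InnerProductSpace.toDual_symm_apply]
  simp only [ContinuousLinearMap.comp_apply, ContinuousLinearMap.inl_apply,
    ContinuousLinearMap.inr_apply]
  rw [← map_add]
  simp

theorem cont1 {g : V → V → ℝ} (hg : ContDiff ℝ 1 (fun z : V × V => g z.1 z.2)) :
    Continuous (fun z : V × V => gr1 g z.1 z.2) := by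
  have h : (fun z : V × V => gr1 g z.1 z.2) = fun z => (InnerProductSpace.toDual ℝ V).symm
      ((fderiv ℝ (fun z : V × V => g z.1 z.2) z).comp (ContinuousLinearMap.inl ℝ V V)) := by
    funext z
    exact gr1_eq hg z.1 z.2
  rw [h]
  exact (InnerProductSpace.toDual ℝ V).symm.continuous.comp
    ((hg.continuous_fderiv (by norm_num)).clm_comp continuous_const)

theorem cont2 {g : V → V → ℝ} (hg : ContDiff ℝ 1 (fun z : V × V => g z.1 z.2)) :
    Continuous (fun z : V × V => gr2 g z.1 z.2) := by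
  have h : (fun z : V × V => gr2 g z.1 z.2) = fun z => (InnerProductSpace.toDual ℝ V).symm
      ((fderiv ℝ (fun z : V × V => g z.1 z.2) z).comp (ContinuousLinearMap.inr ℝ V V)) := by
    funext z
    exact gr2_eq hg z.1 z.2
  rw [h]
  exact (InnerProductSpace.toDual ℝ V).symm.continuous.comp
    ((hg.continuous_fderiv (by norm_num)).clm_comp continuous_const)

theorem grad_neg (f : V → ℝ) (v : V) : gradient (fun x => f (-x)) v = -gradient f (-v) := by
  have h : fderiv ℝ (fun x => f (-x)) v = -fderiv ℝ f (-v) := by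
    have h1 := (ContinuousLinearEquiv.neg ℝ : V ≃L[ℝ] V).comp_right_fderiv (f := f) (x := v)
    have h2 : (f ∘ (ContinuousLinearEquiv.neg ℝ : V ≃L[ℝ] V)) = fun x => f (-x) := by
      funext x
      simp
    rw [h2] at h1
    rw [h1]
    ext y
    simp
  unfold gradient
  rw [h, map_neg]

theorem gr1_neg (g : V → V → ℝ) (v w : V) : gr1 (fun v w => g (-v) w) v w = -gr1 g (-v) w :=
  grad_neg (fun v' => g v' w) v

theorem gr2_neg (g : V → V → ℝ) (v w : V) : gr2 (fun v w => g v (-w)) v w = -gr2 g v (-w) :=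
  grad_neg (fun w' => g v w') w

theorem lin1 {g h : V → V → ℝ} (hg : ContDiff ℝ 1 (fun z : V × V => g z.1 z.2))
    (hh : ContDiff ℝ 1 (fun z : V × V => h z.1 z.2)) (c : ℝ) (v w : V) :
    gr1 (fun v w => g v w + c * h v w) v w = gr1 g v w + c • gr1 h v w := by
  have h1 := part1 hg v w
  have h2 := part1 hh v w
  have h3 := h1.add (h2.const_mul c)
  have h4 : fderiv ℝ (fun v' => g v' w + c * h v' w) v = _ := h3.fderiv
  rw [gr1_eq hg, gr1_eq hh]
  unfold gr1 gradient
  rw [h4, map_add]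
  simp

theorem lin2 {g h : V → V → ℝ} (hg : ContDiff ℝ 1 (fun z : V × V => g z.1 z.2))
    (hh : ContDiff ℝ 1 (fun z : V × V => h z.1 z.2)) (c : ℝ) (v w : V) :
    gr2 (fun v w => g v w + c * h v w) v w = gr2 g v w + c • gr2 h v w := by
  have h1 := part2 hg v w
  have h2 := part2 hh v w
  have h3 := h1.add (h2.const_mul c)
  have h4 : fderiv ℝ (fun w' => g v w' + c * h v w') w = _ := h3.fderiv
  rw [gr2_eq hg, gr2_eq hh]
  unfold gr2 gradient
  rw [h4, map_add]
  simp

end one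

section two

variable {V : Type} [NormedAddCommGroup V] [InnerProductSpace ℝ V] [CompleteSpace V] {n e : ℕ}
  (Φ : Frm V n e)

theorem Js_add (q : Fin (e + 1)) (v w : V) : Φ.Js q (v + w) = Φ.Js q v + Φ.Js q w := by
  unfold Frm.Js
  split_ifs
  · rfl
  · rw [map_add, neg_add]

theorem Js_smul (q : Fin (e + 1)) (c : ℝ) (v : V) : Φ.Js q (c • v) = c • Φ.Js q v := by
  unfold Frm.Js
  split_ifs
  · rfl
  · rw [map_smul, smul_neg]

theorem Js_neg (q : Fin (e + 1)) (v : V) : Φ.Js q (-v) = -Φ.Js q v := by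
  unfold Frm.Js
  split_ifs
  · rfl
  · rw [map_neg]

theorem Js_cont (q : Fin (e + 1)) : Continuous (Φ.Js q) := by
  unfold Frm.Js
  split_ifs
  · exact continuous_id
  · exact (Φ.J q).continuous.neg

theorem Js_A (q : Fin (e + 1)) (g : Φ.G) (v : V) : Φ.A g (Φ.Js q v) = Φ.Js q (Φ.A g v) := by
  unfold Frm.Js
  split_ifs
  · rfl
  · rw [map_neg, Φ.comm]

theorem bessel (v w x : V) (h : Φ.Pair v w) :
    0 ≤ ‖x‖ ^ 2 - (inner ℝ x v) ^ 2 - ∑ q, (inner ℝ x (Φ.J q w)) ^ 2 := by
  obtain ⟨hv, hw, ho⟩ := h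
  let f : Option (Fin (e + 1)) → V := fun o => o.elim v (fun q => Φ.J q w)
  have hf : Orthonormal ℝ f := by
    constructor
    · rintro (_ | q)
      · exact hv
      · change ‖Φ.J q w‖ = 1
        rw [(Φ.J q).norm_map, hw]
    · rintro (_ | p) (_ | q) hpq
      · exact absurd rfl hpq
      · exact ho q
      · change inner ℝ (Φ.J p w) v = 0
        rw [real_inner_comm]
        exact ho p
      · exact Φ.Jorth w p q (fun h => hpq (by rw [h]))
  have h1 := hf.sum_inner_products_le (x := x) (s := Finset.univ)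
  rw [Fintype.sum_option] at h1
  have h2 : ‖inner ℝ (f none) x‖ ^ 2 = (inner ℝ x v) ^ 2 := by
    change ‖inner ℝ v x‖ ^ 2 = _
    rw [Real.norm_eq_abs, sq_abs, real_inner_comm]
  have h3 : ∀ q : Fin (e + 1), ‖inner ℝ (f (some q)) x‖ ^ 2 = (inner ℝ x (Φ.J q w)) ^ 2 := by
    intro q
    change ‖inner ℝ (Φ.J q w) x‖ ^ 2 = _
    rw [Real.norm_eq_abs, sq_abs, real_inner_comm]
  simp only [h2, h3] at h1
  linarith

theorem der {g : V → V → ℝ} (hg : ContDiff ℝ 1 (fun z : V × V => g z.1 z.2))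
    (hJ : ∀ (q : Fin (e + 1)) (v : V), Φ.J q (Φ.Js q v) = v ∧ Φ.Js q (Φ.J q v) = v)
    (q : Fin (e + 1)) (v w : V) (t : ℝ) :
    HasDerivAt (fun t => g (Φ.rt1 q t v w) (Φ.rt2 q t v w))
      (Φ.om q g (Φ.rt1 q t v w) (Φ.rt2 q t v w)) t := by
  have h1 : HasDerivAt (fun t => Φ.rt1 q t v w) (Φ.J q (Φ.rt2 q t v w)) t := by
    have h := ((Real.hasDerivAt_cos t).smul_const v).add
      ((Real.hasDerivAt_sin t).smul_const (Φ.J q w))
    have h' : Φ.J q (Φ.rt2 q t v w) = (-Real.sin t) • v + Real.cos t • Φ.J q w := by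
      unfold Frm.rt2
      rw [map_sub, map_smul, map_smul, (hJ q v).1, neg_smul]
      abel
    rw [h']
    exact h
  have h2 : HasDerivAt (fun t => Φ.rt2 q t v w) (-Φ.Js q (Φ.rt1 q t v w)) t := by
    have h := ((Real.hasDerivAt_cos t).smul_const w).sub
      ((Real.hasDerivAt_sin t).smul_const (Φ.Js q v))
    have h' : -Φ.Js q (Φ.rt1 q t v w) = (-Real.sin t) • w - Real.cos t • Φ.Js q v := by
      unfold Frm.rt1
      rw [Js_add, Js_smul, Js_smul, (hJ q w).2, neg_smul]
      abel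
    rw [h']
    exact h
  have h3 : HasFDerivAt (fun z : V × V => g z.1 z.2)
      (fderiv ℝ (fun z : V × V => g z.1 z.2) (Φ.rt1 q t v w, Φ.rt2 q t v w))
      (Φ.rt1 q t v w, Φ.rt2 q t v w) :=
    (hg.differentiable (by norm_num) _).hasFDerivAt
  have h4 := h3.comp_hasDerivAt t (h1.prodMk h2)
  rw [inner_gr hg] at h4
  unfold Frm.om
  rw [inner_neg_right, ← sub_eq_add_neg] at h4
  exact h4

end two

end JDer

open JDer in
/-- Derivatives of functions of pairs. -/
theorem prfDer (hP : clPair) (hA : clAv) : clDer := by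
  intro V _ _ _ n e Φ g hg
  obtain ⟨-, hJ, hpair, -⟩ := hP V n e Φ
  obtain ⟨hA1, -, hA3⟩ := hA V n e Φ
  have c1 := cont1 hg
  have c2 := cont2 hg
  have hJc : ∀ q, Continuous (Φ.J q) := fun q => (Φ.J q).continuous
  have hJsc : ∀ q, Continuous (Φ.Js q) := Js_cont Φ
  have cn1 : Continuous (fun z : V × V => Φ.n1 g z.1 z.2) := by
    unfold Frm.n1
    refine ((c1.norm.pow 2).sub ((c1.inner continuous_fst).pow 2)).sub
      (continuous_finsetSum _ fun q _ => ?_)
    exact (c1.inner ((hJc q).comp continuous_snd)).pow 2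
  have cn2 : Continuous (fun z : V × V => Φ.n2 g z.1 z.2) := by
    unfold Frm.n2
    refine ((c2.norm.pow 2).sub ((c2.inner continuous_snd).pow 2)).sub
      (continuous_finsetSum _ fun q _ => ?_)
    exact (c2.inner ((hJc q).comp continuous_fst)).pow 2
  have com : ∀ q, Continuous (fun z : V × V => Φ.om q g z.1 z.2) := by
    intro q
    unfold Frm.om
    exact (c1.inner ((hJc q).comp continuous_snd)).sub (c2.inner ((hJsc q).comp continuous_fst))
  have hder := der Φ hg (fun q v => ⟨(hJ q v).1, (hJ q v).2.1⟩)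
  have crt : ∀ q, Continuous (fun z : ℝ × V × V =>
      ((Φ.rt1 q z.1 z.2.1 z.2.2, Φ.rt2 q z.1 z.2.1 z.2.2) : V × V)) := by
    intro q
    have hJ1 := hJc q
    have hJ2 := hJsc q
    unfold Frm.rt1 Frm.rt2
    fun_prop
  refine ⟨c1, c2, cn1, cn2, com, ?_, hder, ?_, ?_, ?_⟩
  · intro v w h
    exact ⟨bessel Φ v w _ h, bessel Φ w v _ (hpair v w h).1⟩
  · intro q
    have h1 := hA3 (fun t v w => g (Φ.rt1 q t v w) (Φ.rt2 q t v w))
      (fun t v w => Φ.om q g (Φ.rt1 q t v w) (Φ.rt2 q t v w))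
      (hg.continuous.comp (crt q)) ((com q).comp (crt q)) (fun s v w => hder q v w s) 0
    have h2 : (fun t => Φ.av ((fun t v w => g (Φ.rt1 q t v w) (Φ.rt2 q t v w)) t)) =
        fun _ => Φ.av g := by
      funext t
      have hab : Φ.Pair Φ.a Φ.b := ⟨Φ.ha, Φ.hb, Φ.hab⟩
      rw [← (hA1 g hg.continuous).2 _ _ ((hpair _ _ hab).2.2.2.2.2.1 q t)]
      unfold Frm.av
      refine integral_congr_ae (Filter.Eventually.of_forall fun x => ?_)
      simp only [Frm.rt1, Frm.rt2, map_add, map_sub, map_smul, Φ.comm, Js_A]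
    have h3 : (fun v w => Φ.om q g (Φ.rt1 q 0 v w) (Φ.rt2 q 0 v w)) = Φ.om q g := by
      funext v w
      simp [Frm.rt1, Frm.rt2]
    rw [h2] at h1
    have h4 := h1.unique (hasDerivAt_const (0 : ℝ) (Φ.av g))
    rw [← h3]
    exact h4
  · intro v w
    refine ⟨?_, ?_, ?_, ?_, ?_, ?_⟩
    · unfold Frm.n1
      rw [gr1_neg]
      simp
    · have h : gr2 (fun v w => g (-v) w) v w = gr2 g (-v) w := rfl
      unfold Frm.n2
      rw [h]
      simp
    · intro q
      have h : gr2 (fun v w => g (-v) w) v w = gr2 g (-v) w := rfl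
      unfold Frm.om
      rw [h, gr1_neg, Js_neg, inner_neg_left, inner_neg_right]
      ring
    · have h : gr1 (fun v w => g v (-w)) v w = gr1 g v (-w) := rfl
      unfold Frm.n1
      rw [h]
      simp
    · unfold Frm.n2
      rw [gr2_neg]
      simp
    · intro q
      have h : gr1 (fun v w => g v (-w)) v w = gr1 g v (-w) := rfl
      unfold Frm.om
      rw [h, gr2_neg, map_neg, inner_neg_left, inner_neg_right]
      ring
  · intro h hh c v w
    exact ⟨lin1 hg hh c v w, lin2 hg hh c v w⟩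

end Pool.Agent.Work.MP_408f4b_gt.Q
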