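import Pool.Agent.Work.MP_408f4b_gt.Q.Stmts3

set_option autoImplicit false
set_option linter.unusedSectionVars false

namespace Pool.Agent.Work.MP_408f4b_gt.Q

open MeasureTheory Set Filter Topology

namespace JEv

theorem intg {X : Type} [TopologicalSpace X] [CompactSpace X] [MeasurableSpace X]
    [OpensMeasurableSpace X] (μ : Measure X) [IsFiniteMeasure μ] {f : X → ℝ}
    (hf : Continuous f) : Integrable f μ := by
  obtain ⟨C, hC⟩ := isCompact_univ.exists_bound_of_continuousOn hf.continuousOn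
  exact Integrable.of_bound hf.aestronglyMeasurable C
    (Filter.Eventually.of_forall fun x => hC x (mem_univ x))

section

variable {V W : Type} [NormedAddCommGroup V] [InnerProductSpace ℝ V] [CompleteSpace V]
  [NormedAddCommGroup W] [InnerProductSpace ℝ W] [CompleteSpace W] {m n e : ℕ}

theorem contA {X : Type} [TopologicalSpace X] (Φ : Frm V m e) (v : V) {g : X → Φ.G}
    (hg : Continuous g) : Continuous (fun x => Φ.A (g x) v) :=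
  Φ.cont.comp (hg.prodMk continuous_const)

theorem contK (Φ : Frm V m e) (Ψ : Frm W n e) {U : V → V → W → W → ℝ} (hU : Co U) (r r' : V)
    (v v' : W) : Continuous (fun z : Φ.G × Ψ.G =>
      U (Φ.A z.1 r) (Φ.A z.1 r') (Ψ.A z.2 v) (Ψ.A z.2 v')) := by
  have h := (contA Φ r (continuous_fst (X := Φ.G) (Y := Ψ.G))).prodMk
    ((contA Φ r' (continuous_fst (X := Φ.G) (Y := Ψ.G))).prodMk
      ((contA Ψ v (continuous_snd (X := Φ.G) (Y := Ψ.G))).prodMk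
        (contA Ψ v' (continuous_snd (X := Φ.G) (Y := Ψ.G)))))
  exact Continuous.comp hU h

theorem contUr {U : V → V → W → W → ℝ} (hU : Co U) (r r' : V) :
    Continuous (fun z : W × W => U r r' z.1 z.2) := by
  have h : Continuous (fun z : W × W => ((r, r', z.1, z.2) : V × V × W × W)) := by fun_prop
  exact Continuous.comp hU h

theorem contP {U : V → V → W → W → ℝ} (hU : Co U) :
    Continuous (fun z : (V × V) × W × W => U z.1.1 z.1.2 z.2.1 z.2.2) := by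
  have h : Continuous (fun z : (V × V) × W × W =>
    ((z.1.1, z.1.2, z.2.1, z.2.2) : V × V × W × W)) := by fun_prop
  exact Continuous.comp hU h

theorem contAv (hA : clAv) (Ψ : Frm W n e) {U : V → V → W → W → ℝ} (hU : Co U) :
    Continuous (fun z : V × V => Ψ.av (U z.1 z.2)) :=
  (hA W n e Ψ).2.1 (V × V) (fun p => U p.1 p.2) (contP hU)

theorem prodForm (Φ : Frm V m e) (Ψ : Frm W n e) {U : V → V → W → W → ℝ} (hU : Co U) :
    Ev Φ Ψ U = ∫ z, U (Φ.A z.1 Φ.a) (Φ.A z.1 Φ.b) (Ψ.A z.2 Ψ.a) (Ψ.A z.2 Ψ.b)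
      ∂(Φ.μ.prod Ψ.μ) := by
  rw [integral_prod _ (intg _ (contK Φ Ψ hU Φ.a Φ.b Ψ.a Ψ.b))]
  rfl

theorem evSub (hA : clAv) (Φ : Frm V m e) (Ψ : Frm W n e) {U : V → V → W → W → ℝ} (hU : Co U)
    {r r' : V} {v v' : W} (h : Φ.Pair r r') (h' : Ψ.Pair v v') :
    ∫ R, ∫ S, U (Φ.A R r) (Φ.A R r') (Ψ.A S v) (Ψ.A S v') ∂Ψ.μ ∂Φ.μ = Ev Φ Ψ U := by
  have h1 : ∀ R, ∫ S, U (Φ.A R r) (Φ.A R r') (Ψ.A S v) (Ψ.A S v') ∂Ψ.μ =
      Ψ.av (U (Φ.A R r) (Φ.A R r')) := fun R =>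
    ((hA W n e Ψ).1 (U (Φ.A R r) (Φ.A R r')) (contUr hU _ _)).2 v v' h'
  simp only [h1]
  exact ((hA V m e Φ).1 (fun r r' => Ψ.av (U r r')) (contAv hA Ψ hU)).2 r r' h

theorem js (Φ : Frm V m e) (g : Φ.G) (q : Fin (e + 1)) (v : V) :
    Φ.Js q (Φ.A g v) = Φ.A g (Φ.Js q v) := by
  unfold Frm.Js
  split_ifs with h
  · rfl
  · rw [map_neg, Φ.comm]

theorem rt1 (Φ : Frm V m e) (g : Φ.G) (q : Fin (e + 1)) (t : ℝ) (v w : V) :
    Φ.rt1 q t (Φ.A g v) (Φ.A g w) = Φ.A g (Φ.rt1 q t v w) := by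
  unfold Frm.rt1
  rw [map_add, map_smul, map_smul, Φ.comm]

theorem rt2 (Φ : Frm V m e) (g : Φ.G) (q : Fin (e + 1)) (t : ℝ) (v w : V) :
    Φ.rt2 q t (Φ.A g v) (Φ.A g w) = Φ.A g (Φ.rt2 q t v w) := by
  unfold Frm.rt2
  rw [map_sub, map_smul, map_smul, js]

theorem pairAB (Φ : Frm V m e) : Φ.Pair Φ.a Φ.b := ⟨Φ.ha, Φ.hb, Φ.hab⟩

end

end JEv

open JEv in
theorem prfEv (hA : clAv) (hP : clPair) : clEv := by
  intro V W _ _ _ _ _ _ m n e Φ Ψ U U₂ hU hU₂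
  have pΦ := pairAB Φ
  have pΨ := pairAB Ψ
  obtain ⟨_, _, p3, _⟩ := hP V m e Φ
  obtain ⟨_, _, q3, _⟩ := hP W n e Ψ
  have lin : ∀ c d : ℝ, Ev Φ Ψ (fun r r' v v' => c * U r r' v v' + d * U₂ r r' v v') =
      c * Ev Φ Ψ U + d * Ev Φ Ψ U₂ := by
    intro c d
    have hc : Co (fun r r' v v' => c * U r r' v v' + d * U₂ r r' v v') :=
      (Continuous.mul continuous_const hU).add (Continuous.mul continuous_const hU₂)
    rw [prodForm Φ Ψ hU, prodForm Φ Ψ hU₂, prodForm Φ Ψ hc,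
      integral_add ((intg _ (contK Φ Ψ hU _ _ _ _)).const_mul c)
        ((intg _ (contK Φ Ψ hU₂ _ _ _ _)).const_mul d), integral_const_mul, integral_const_mul]
  have mono : ∀ U U₂ : V → V → W → W → ℝ, Co U → Co U₂ →
      (∀ r r' v v', Φ.Pair r r' → Ψ.Pair v v' → U r r' v v' ≤ U₂ r r' v v') →
      Ev Φ Ψ U ≤ Ev Φ Ψ U₂ := by
    intro U U₂ hU hU₂ h
    rw [prodForm Φ Ψ hU, prodForm Φ Ψ hU₂]
    exact integral_mono (intg _ (contK Φ Ψ hU _ _ _ _)) (intg _ (contK Φ Ψ hU₂ _ _ _ _))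
      (fun z => h _ _ _ _ ((p3 _ _ pΦ).2.2.2.2.1 z.1) ((q3 _ _ pΨ).2.2.2.2.1 z.2))
  refine ⟨contK Φ Ψ hU _ _ _ _, prodForm Φ Ψ hU, contAv hA Ψ hU, rfl, ?_, ?_, ?_, ?_, ?_, ?_,
    lin, mono U U₂ hU hU₂, ?_, ?_, ?_, ?_⟩
  · exact integral_integral_swap (f := fun R S =>
      U (Φ.A R Φ.a) (Φ.A R Φ.b) (Ψ.A S Ψ.a) (Ψ.A S Ψ.b)) (intg _ (contK Φ Ψ hU _ _ _ _))
  · exact evSub hA Φ Ψ hU (p3 _ _ pΦ).1 pΨ
  · exact evSub hA Φ Ψ hU pΦ (q3 _ _ pΨ).1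
  · have h := evSub hA Φ Ψ hU pΦ (q3 _ _ pΨ).2.1
    simp only [map_neg] at h
    exact h
  · have h := evSub hA Φ Ψ hU pΦ (q3 _ _ pΨ).2.2.1
    simp only [map_neg] at h
    exact h
  · intro q t t'
    have h := evSub hA Φ Ψ hU ((p3 _ _ pΦ).2.2.2.2.2.1 q t) ((q3 _ _ pΨ).2.2.2.2.2.1 q t')
    simp only [← rt1, ← rt2] at h
    exact h
  · intro h
    exact le_antisymm (mono U U₂ hU hU₂ fun r r' v v' h1 h2 => (h r r' v v' h1 h2).le)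
      (mono U₂ U hU₂ hU fun r r' v v' h1 h2 => (h r r' v v' h1 h2).ge)
  · intro c
    show ∫ _, ∫ _, c ∂Ψ.μ ∂Φ.μ = c
    simp
  · intro φ
    show ∫ R, ∫ _, φ (Φ.A R Φ.a) (Φ.A R Φ.b) ∂Ψ.μ ∂Φ.μ = ∫ R, φ (Φ.A R Φ.a) (Φ.A R Φ.b) ∂Φ.μ
    simp
  · intro φ
    show ∫ _, Ψ.av φ ∂Φ.μ = Ψ.av φ
    simp

end Pool.Agent.Work.MP_408f4b_gt.Q
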