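import Pool.Agent.Work.MP_408f4b_gt.Q.Stmts3

/-! Item EvenP: the even part. -/

set_option autoImplicit false
set_option linter.unusedVariables false
set_option linter.unusedSectionVars false

namespace Pool.Agent.Work.MP_408f4b_gt.Q

open MeasureTheory Set Filter Topology

namespace JEvenP

/-- the arithmetic at the end -/
theorem arith {x y a c nn I N1 N2 M S G P Q V : ℝ} (hy : 0 < y) (hxy : y < x) (hN1 : 0 ≤ N1)
    (hG : 0 ≤ G) (h1 : I = 1 / x ^ 2 * N1 + 1 / y ^ 2 * N2 + M)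
    (h2 : S / (x ^ 2 + y ^ 2) + 2 * c / (x - y) ^ 2 * V ≤ M) (h3 : a * P + G ≤ N2)
    (h4 : nn * Q ≤ N1 + 2 * G + S) :
    a / y ^ 2 * P + nn / (x ^ 2 + y ^ 2) * Q + 2 * c / (x - y) ^ 2 * V ≤ I := by
  have hx : 0 < x := hy.trans hxy
  have hx2 : 0 < x ^ 2 := pow_pos hx 2
  have hy2 : 0 < y ^ 2 := pow_pos hy 2
  have hs : 0 < x ^ 2 + y ^ 2 := add_pos hx2 hy2
  have e1 : N1 / (x ^ 2 + y ^ 2) ≤ 1 / x ^ 2 * N1 := by
    rw [one_div, inv_mul_eq_div]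
    exact div_le_div_of_nonneg_left hN1 hx2 (by linarith)
  have e2 : 2 * G / (x ^ 2 + y ^ 2) ≤ 1 / y ^ 2 * G := by
    rw [div_le_iff₀ hs, one_div, inv_mul_eq_div, div_mul_eq_mul_div, le_div_iff₀ hy2]
    have : 2 * y ^ 2 ≤ x ^ 2 + y ^ 2 := by nlinarith
    nlinarith [mul_le_mul_of_nonneg_left this hG]
  have e3 : 1 / y ^ 2 * (a * P + G) ≤ 1 / y ^ 2 * N2 :=
    mul_le_mul_of_nonneg_left h3 (by positivity)
  have e4 : nn * Q / (x ^ 2 + y ^ 2) ≤ (N1 + 2 * G + S) / (x ^ 2 + y ^ 2) :=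
    div_le_div_of_nonneg_right h4 hs.le
  have e5 : (N1 + 2 * G + S) / (x ^ 2 + y ^ 2) =
      N1 / (x ^ 2 + y ^ 2) + 2 * G / (x ^ 2 + y ^ 2) + S / (x ^ 2 + y ^ 2) := by ring
  have e6 : 1 / y ^ 2 * (a * P + G) = a / y ^ 2 * P + 1 / y ^ 2 * G := by ring
  have e7 : nn / (x ^ 2 + y ^ 2) * Q = nn * Q / (x ^ 2 + y ^ 2) := by ring
  rw [e7, h1]
  rw [e6] at e3
  rw [e5] at e4
  linarith

section two

variable {V W : Type} [NormedAddCommGroup V] [InnerProductSpace ℝ V] [CompleteSpace V]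
  [NormedAddCommGroup W] [InnerProductSpace ℝ W] [CompleteSpace W] {m n e : ℕ}
  (Φ : Frm V m e) (Ψ : Frm W n e)

theorem cd_slice {U : V → V → W → W → ℝ}
    (hU : ContDiff ℝ 1 (fun z : V × V × W × W => U z.1 z.2.1 z.2.2.1 z.2.2.2)) (r r' : V) :
    ContDiff ℝ 1 (fun z : W × W => U r r' z.1 z.2) :=
  hU.comp (contDiff_const.prodMk (contDiff_const.prodMk (contDiff_fst.prodMk contDiff_snd)))

theorem cd_flip {U : V → V → W → W → ℝ}
    (hU : ContDiff ℝ 1 (fun z : V × V × W × W => U z.1 z.2.1 z.2.2.1 z.2.2.2)) :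
    ContDiff ℝ 1 (fun z : V × V × W × W =>
      (U z.1 z.2.1 z.2.2.1 z.2.2.2 + U z.1 z.2.1 z.2.2.1 (-z.2.2.2)) / 2) := by
  have h : ContDiff ℝ 1 (fun z : V × V × W × W => (z.1, z.2.1, z.2.2.1, -z.2.2.2)) := by
    fun_prop
  exact (hU.add (hU.comp h)).div_const 2

end two

end JEvenP

open JEvenP in
theorem prfEvenP (hE : clEv) (hP : clPair) (hDe : clDer) (hD : clDR) (hN : clN12) (hS : clSubA)
    (hG : clGW) : clEvenP := by
  intro V W _ _ _ _ _ _ n e Φ Ψ U x y hU hn hy hxy hev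
  have hC1 : C1 U := hU.c1
  have hCo : Co U := hU.c1.continuous
  obtain ⟨d1, d2, d3, -⟩ := hD V W _ n e Φ Ψ U U hC1 hC1
  -- the function `G`
  set G : V → V → W → W → ℝ := fun r r' v v' => (U r r' v v' + U r r' v (-v')) / 2 with hGd
  have hC1G : C1 G := cd_flip hU.c1
  obtain ⟨-, -, g3, -⟩ := hD V W _ n e Φ Ψ G G hC1G hC1G
  -- the mixed part
  set Mx : V → V → W → W → ℝ := fun r r' v v' => ∑ q, ((dR Φ q U r r' v v' + dW Ψ q U r r' v v') ^ 2 /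
      (2 * (x - y) ^ 2) + (dR Φ q U r r' v v' - dW Ψ q U r r' v v') ^ 2 / (2 * (x + y) ^ 2))
    with hMx
  have hMxc : Co Mx := by
    refine continuous_finsetSum _ (fun q _ => ?_)
    have a1 : Continuous (fun z : V × V × W × W => dR Φ q U z.1 z.2.1 z.2.2.1 z.2.2.2) := (d1 q).1
    have a2 : Continuous (fun z : V × V × W × W => dW Ψ q U z.1 z.2.1 z.2.2.1 z.2.2.2) := (d1 q).2
    exact (((a1.add a2).pow 2).div_const _).add (((a1.sub a2).pow 2).div_const _)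
  have lin : ∀ A B : V → V → W → W → ℝ, Co A → Co B → ∀ c d : ℝ,
      Ev Φ Ψ (fun r r' v v' => c * A r r' v v' + d * B r r' v v') =
        c * Ev Φ Ψ A + d * Ev Φ Ψ B := by
    intro A B hA hB
    obtain ⟨-, -, -, -, -, -, -, -, -, -, h, -⟩ := hE V W _ n e Φ Ψ A B hA hB
    exact h
  have hzero : Ev Φ Ψ (fun _ _ _ _ => (0 : ℝ)) = 0 := by
    obtain ⟨-, -, -, -, -, -, -, -, -, -, -, -, -, h, -⟩ := hE V W _ n e Φ Ψ U U hCo hCo
    exact h 0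
  have nonneg : ∀ A : V → V → W → W → ℝ, Co A →
      (∀ r r' v v', Φ.Pair r r' → Ψ.Pair v v' → 0 ≤ A r r' v v') → 0 ≤ Ev Φ Ψ A := by
    intro A hA h0
    obtain ⟨-, -, -, -, -, -, -, -, -, -, -, h, -⟩ :=
      hE V W _ n e Φ Ψ (fun _ _ _ _ => (0 : ℝ)) A continuous_const hA
    have h1 := h h0
    rwa [hzero] at h1
  have h1 : Ev Φ Ψ (eD Φ Ψ x y U) =
      1 / x ^ 2 * Ev Φ Ψ (fun r r' v v' => Ψ.n1 (U r r') v v') +
        1 / y ^ 2 * Ev Φ Ψ (fun r r' v v' => Ψ.n2 (U r r') v v') + Ev Φ Ψ Mx := by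
    have k1 := lin _ _ d2 d3 (1 / x ^ 2) (1 / y ^ 2)
    have k2 : Co (fun r r' v v' => 1 / x ^ 2 * Ψ.n1 (U r r') v v' +
        1 / y ^ 2 * Ψ.n2 (U r r') v v') := by
      have a1 : Continuous (fun z : V × V × W × W => Ψ.n1 (U z.1 z.2.1) z.2.2.1 z.2.2.2) := d2
      have a2 : Continuous (fun z : V × V × W × W => Ψ.n2 (U z.1 z.2.1) z.2.2.1 z.2.2.2) := d3
      exact (continuous_const.mul a1).add (continuous_const.mul a2)
    have k3 := lin _ _ k2 hMxc 1 1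
    have k4 : eD Φ Ψ x y U = fun r r' v v' => 1 * (1 / x ^ 2 * Ψ.n1 (U r r') v v' +
        1 / y ^ 2 * Ψ.n2 (U r r') v v') + 1 * Mx r r' v v' := by
      funext r r' v v'
      show Ψ.n1 (U r r') v v' / x ^ 2 + Ψ.n2 (U r r') v v' / y ^ 2 + Mx r r' v v' = _
      ring
    rw [k4, k3, k1]
    ring
  have hN1 : 0 ≤ Ev Φ Ψ (fun r r' v v' => Ψ.n1 (U r r') v v') := by
    refine nonneg _ d2 (fun r r' v v' _ hp => ?_)
    obtain ⟨-, -, -, -, -, h, -⟩ := hDe W n e Ψ (U r r') (cd_slice hU.c1 r r')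
    exact (h v v' hp).1
  have hN2 : 0 ≤ Ev Φ Ψ (fun r r' v v' => Ψ.n2 (G r r') v v') := by
    refine nonneg _ g3 (fun r r' v v' _ hp => ?_)
    obtain ⟨-, -, -, -, -, h, -⟩ := hDe W n e Ψ (G r r') (cd_slice hC1G r r')
    exact (h v v' hp).2
  have hOO : (fun r r' v v' => ((U r r' v v' - U r r' v (-v')) / 2) ^ 2) =
      fun r r' v v' => pOO U r r' v v' ^ 2 := by
    funext r r' v v'
    have i1 := hev r r' v v'
    have i2 := hev r r' v (-v')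
    rw [neg_neg] at i2
    rw [pOO, i1, i2]
    ring
  have h3 := (hN V W _ n e Φ Ψ U hU hn).2
  rw [hOO] at h3
  exact arith hy hxy hN1 hN2 h1 (hS V W n e Φ Ψ U x y hU hy hxy) h3
    (hG V W _ n e Φ Ψ U hU hev)

end Pool.Agent.Work.MP_408f4b_gt.Q
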