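import Pool.Agent.Work.MP_408f4b_gt.Q.Stmts3

set_option autoImplicit false

/-!
# The inequality on the orbits
-/

namespace Pool.Agent.Work.MP_408f4b_gt.Q

open MeasureTheory Set Filter Topology

namespace JFix

section

variable {V W : Type} [NormedAddCommGroup V] [InnerProductSpace ℝ V] [CompleteSpace V]
  [NormedAddCommGroup W] [InnerProductSpace ℝ W] [CompleteSpace W] {m n e : ℕ}
  (Φ : Frm V m e) (Ψ : Frm W n e)

/-- The even part has the same average. -/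
theorem ev_sym (hE : clEv) {G : V → V → W → W → ℝ} (hG : Co G) :
    Ev Φ Ψ (fun r r' v v' => (G r r' v v' + G r r' (-v) (-v')) / 2) = Ev Φ Ψ G := by
  have hG2 : Co (s2 G) := by
    unfold Co s2
    exact hG.comp (f := fun z : V × V × W × W => (z.1, z.2.1, z.2.2.1, -z.2.2.2)) (by fun_prop)
  have hG1 : Co (s1 (s2 G)) := by
    unfold Co s1
    exact hG2.comp (f := fun z : V × V × W × W => (z.1, z.2.1, -z.2.2.1, z.2.2.2)) (by fun_prop)
  obtain ⟨_, _, _, _, _, _, _, _, h1, _⟩ := hE V W m n e Φ Ψ G G hG hG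
  obtain ⟨_, _, _, _, _, _, _, h2, _, _⟩ := hE V W m n e Φ Ψ (s2 G) G hG2 hG
  obtain ⟨_, _, _, _, _, _, _, _, _, _, h3, _⟩ := hE V W m n e Φ Ψ G (s1 (s2 G)) hG hG1
  have h4 := h3 (1 / 2) (1 / 2)
  have h5 : (fun r r' v v' => (G r r' v v' + G r r' (-v) (-v')) / 2) =
      fun r r' v v' => 1 / 2 * G r r' v v' + 1 / 2 * s1 (s2 G) r r' v v' := by
    funext r r' v v'
    unfold s1 s2
    ring
  rw [h5, h4, h2, h1]
  ring

/-- The same for functions of one pair. -/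
theorem av_sym (hE : clEv) (Φ : Frm V m e) {U : V → V → W → W → ℝ} (hU : Co U) (r r' : V) :
    Ψ.av (fun v v' => (U r r' v v' + U r r' (-v) (-v')) / 2) = Ψ.av (U r r') := by
  have hG : Co (fun (_ _ : V) (v v' : W) => U r r' v v') := by
    unfold Co
    exact hU.comp (f := fun z : V × V × W × W => (r, r', z.2.2.1, z.2.2.2)) (by fun_prop)
  obtain ⟨_, _, _, _, _, _, _, _, _, _, _, _, _, _, _, h1⟩ :=
    hE V W m n e Φ Ψ _ _ hG hG
  have h2 := ev_sym Φ Ψ hE hG
  rw [h1 (fun v v' => (U r r' v v' + U r r' (-v) (-v')) / 2), h1 (fun v v' => U r r' v v')] at h2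
  exact h2

end

end JFix

theorem prfFix (hA : clAv) (hP : clPair) (hE : clEv) (hD : clDR) (hC : clCl) (hO : clOddP)
    (hV : clEvenP) : clFix := by
  intro V W _ _ _ _ _ _ n e Φ Ψ U x y hU hn hy hyx
  obtain ⟨_, _, _, _, hUe, hUo, _⟩ := hC V W _ n e Φ Ψ U hU
  set Ue : V → V → W → W → ℝ := fun r r' v v' => (U r r' v v' + U r r' (-v) (-v')) / 2 with hUe'
  set Uo : V → V → W → W → ℝ := fun r r' v v' => (U r r' v v' - U r r' (-v) (-v')) / 2 with hUo'
  have hCo : Co U := hU.c1.continuous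
  have h1 := hO V W _ n e Φ Ψ Uo x y hUo hn hy hyx (by
    intro r r' v v'
    simp only [hUo', neg_neg]
    ring)
  have h2 := hV V W n e Φ Ψ Ue x y hUe hn hy hyx (by
    intro r r' v v'
    simp only [hUe', neg_neg]
    ring)
  have e1 : pOE Uo = pOE U := by
    funext r r' v v'
    simp only [pOE, hUo', neg_neg]
    ring
  have e2 : pEO Uo = pEO U := by
    funext r r' v v'
    simp only [pEO, hUo', neg_neg]
    ring
  have e3 : pOO Ue = pOO U := by
    funext r r' v v'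
    simp only [pOO, hUe', neg_neg]
    ring
  have e4 : pEE Ue = pEE U := by
    funext r r' v v'
    simp only [pEE, hUe', neg_neg]
    ring
  have e5 : Ev Φ Ψ Ue = Ev Φ Ψ U := JFix.ev_sym Φ Ψ hE hCo
  have e6 : pA Ψ Ue = pA Ψ U := by
    funext r r' v v'
    exact JFix.av_sym Ψ hE Φ hCo r r'
  rw [e1, e2] at h1
  rw [e3, e4, e5, e6] at h2
  obtain ⟨_, _, _, hc, _⟩ := hD V W _ n e Φ Ψ U U hU.c1 hU.c1
  obtain ⟨_, _, _, hce, _, _, _, h8, _⟩ := hD V W _ n e Φ Ψ Ue Uo hUe.c1 hUo.c1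
  obtain ⟨_, _, _, hco, _⟩ := hD V W _ n e Φ Ψ Uo Ue hUo.c1 hUe.c1
  obtain ⟨_, _, _, _, _, _, _, h9, _⟩ := hD V W _ n e Φ Ψ U U hU.c1 hU.c1
  have e7 : (fun r r' v v' => Ue r r' v v' + Uo r r' v v') = U := by
    funext r r' v v'
    simp only [hUe', hUo']
    ring
  have e8 : (fun r r' v v' => Ue r r' v v' - Uo r r' v v') =
      fun r r' v v' => U r r' (-v) (-v') := by
    funext r r' v v'
    simp only [hUe', hUo']
    ring
  have e9 : (fun r r' v v' => (eD Φ Ψ x y U r r' v v' + eD Φ Ψ x y U r r' (-v) (-v')) / 2) =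
      fun r r' v v' => 1 * eD Φ Ψ x y Ue r r' v v' + 1 * eD Φ Ψ x y Uo r r' v v' := by
    funext r r' v v'
    have g1 := (h8 x y r r' v v').1
    rw [e7, e8] at g1
    rw [(h9 x y r r' v v').2.2] at g1
    rw [g1]
    ring
  have e10 := JFix.ev_sym Φ Ψ hE (hc x y)
  rw [e9] at e10
  obtain ⟨_, _, _, _, _, _, _, _, _, _, h3, _⟩ :=
    hE V W _ n e Φ Ψ _ _ (hce x y) (hco x y)
  rw [h3 1 1] at e10
  linarith

end Pool.Agent.Work.MP_408f4b_gt.Q
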