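import Pool.Agent.Work.MP_408f4b_gt.Q.Stmts3

/-! Item Fub: Fubini, continuity and differentiability with respect to a parameter. -/

set_option autoImplicit false

namespace Pool.Agent.Work.MP_408f4b_gt.Q

open MeasureTheory Set Filter Topology

namespace JFub

set_option linter.unusedSectionVars false

section gen

variable {X : Type} [TopologicalSpace X] [CompactSpace X] [SecondCountableTopology X]
  [MeasurableSpace X] [OpensMeasurableSpace X] (μ : Measure X) [IsProbabilityMeasure μ]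

theorem cont {k : ℝ → X → ℝ} (hk : Continuous (Function.uncurry k)) :
    Continuous (fun s => ∫ x, k s x ∂μ) := by
  have h := continuous_parametric_integral_of_continuous (μ := μ) hk isCompact_univ
  simpa only [Measure.restrict_univ] using h

theorem swap {k : ℝ → X → ℝ} (hk : Continuous (Function.uncurry k)) (α β : ℝ) :
    ∫ s in α..β, (∫ x, k s x ∂μ) = ∫ x, (∫ s in α..β, k s x) ∂μ := by
  apply intervalIntegral_integral_swap
  obtain ⟨C, hC⟩ := (isCompact_uIcc.prod isCompact_univ :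
    IsCompact (uIcc α β ×ˢ (univ : Set X))).exists_bound_of_continuousOn hk.continuousOn
  have h2 : IntegrableOn (Function.uncurry k) (uIoc α β ×ˢ (univ : Set X))
      ((volume : Measure ℝ).prod μ) := by
    refine Measure.integrableOn_of_bounded (M := C) ?_ hk.aestronglyMeasurable ?_
    · rw [Measure.prod_prod, measure_univ, mul_one]
      exact ((measure_mono uIoc_subset_uIcc).trans_lt isCompact_uIcc.measure_lt_top).ne
    · refine (ae_restrict_iff' (measurableSet_uIoc.prod MeasurableSet.univ)).2 ?_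
      exact Eventually.of_forall fun z hz => hC z ⟨uIoc_subset_uIcc hz.1, mem_univ _⟩
  rwa [IntegrableOn, ← Measure.prod_restrict, Measure.restrict_univ] at h2

theorem der {k k' : ℝ → X → ℝ} (hk : Continuous (Function.uncurry k))
    (hk' : Continuous (Function.uncurry k'))
    (hd : ∀ s x, HasDerivAt (fun t => k t x) (k' s x) s) (s : ℝ) :
    HasDerivAt (fun t => ∫ x, k t x ∂μ) (∫ x, k' s x ∂μ) s := by
  obtain ⟨C, hC⟩ := (isCompact_Icc.prod isCompact_univ :
    IsCompact (Icc (s - 1) (s + 1) ×ˢ (univ : Set X))).exists_bound_of_continuousOn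
      hk'.continuousOn
  have hc : ∀ t, Continuous (k t) := fun t => hk.comp (continuous_const.prodMk continuous_id)
  have hc' : ∀ t, Continuous (k' t) := fun t => hk'.comp (continuous_const.prodMk continuous_id)
  refine (hasDerivAt_integral_of_dominated_loc_of_deriv_le (μ := μ) (F := k) (F' := k')
    (s := Icc (s - 1) (s + 1)) (bound := fun _ => C)
    (Icc_mem_nhds (by linarith) (by linarith)) ?_ ?_ ?_ ?_ ?_ ?_).2
  · exact Eventually.of_forall fun t => (hc t).aestronglyMeasurable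
  · exact (hc s).integrable_of_hasCompactSupport (HasCompactSupport.of_compactSpace _)
  · exact (hc' s).aestronglyMeasurable
  · exact Eventually.of_forall fun x t ht => hC (t, x) ⟨ht, mem_univ _⟩
  · exact integrable_const C
  · exact Eventually.of_forall fun x t _ => hd t x

end gen

section two

variable {V W : Type} [NormedAddCommGroup V] [InnerProductSpace ℝ V] [CompleteSpace V]
  [NormedAddCommGroup W] [InnerProductSpace ℝ W] [CompleteSpace W] {m n e : ℕ}
  (Φ : Frm V m e) (Ψ : Frm W n e)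

/-- The integrand as a function on the product of the groups. -/
noncomputable def kf (U : V → V → W → W → ℝ) (z : Φ.G × Ψ.G) : ℝ :=
  U (Φ.A z.1 Φ.a) (Φ.A z.1 Φ.b) (Ψ.A z.2 Ψ.a) (Ψ.A z.2 Ψ.b)

theorem kf_cont {h : ℝ → V → V → W → W → ℝ} (hh : Cop h) :
    Continuous (Function.uncurry fun s z => kf Φ Ψ (h s) z) := by
  have h1 : ∀ v : V, Continuous (fun p : ℝ × Φ.G × Ψ.G => Φ.A p.2.1 v) := fun v =>
    Φ.cont.comp ((continuous_fst.comp continuous_snd).prodMk continuous_const)
  have h2 : ∀ v : W, Continuous (fun p : ℝ × Φ.G × Ψ.G => Ψ.A p.2.2 v) := fun v =>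
    Ψ.cont.comp ((continuous_snd.comp continuous_snd).prodMk continuous_const)
  exact hh.comp (continuous_fst.prodMk ((h1 Φ.a).prodMk ((h1 Φ.b).prodMk
    ((h2 Ψ.a).prodMk (h2 Ψ.b)))))

theorem ev_eq {U : V → V → W → W → ℝ} (hU : Continuous (kf Φ Ψ U)) :
    Ev Φ Ψ U = ∫ z, kf Φ Ψ U z ∂(Φ.μ.prod Ψ.μ) := by
  rw [integral_prod _ (hU.integrable_of_hasCompactSupport (HasCompactSupport.of_compactSpace _))]
  rfl

theorem kf_cont' {h : ℝ → V → V → W → W → ℝ} (hh : Cop h) (s : ℝ) :
    Continuous (kf Φ Ψ (h s)) :=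
  (kf_cont Φ Ψ hh).comp (continuous_const.prodMk continuous_id)

end two

end JFub

open JFub in
theorem prfFub : clFub := by
  intro V W _ _ _ _ _ _ m n e Φ Ψ h h' hh hh'
  have e1 : (fun s => Ev Φ Ψ (h s)) = fun s => ∫ z, kf Φ Ψ (h s) z ∂(Φ.μ.prod Ψ.μ) :=
    funext fun s => ev_eq Φ Ψ (kf_cont' Φ Ψ hh s)
  refine ⟨?_, fun α β => ?_, fun hd s => ?_⟩
  · rw [e1]
    exact cont _ (kf_cont Φ Ψ hh)
  · have e2 : ∀ s, Ev Φ Ψ (h s) = ∫ z, kf Φ Ψ (h s) z ∂(Φ.μ.prod Ψ.μ) := fun s => congrFun e1 s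
    simp_rw [e2]
    rw [swap _ (kf_cont Φ Ψ hh)]
    have h4 : Continuous (Function.uncurry fun (z : Φ.G × Ψ.G) (s : ℝ) => kf Φ Ψ (h s) z) :=
      (kf_cont Φ Ψ hh).comp (continuous_snd.prodMk continuous_fst)
    have h3 : Continuous (fun z : Φ.G × Ψ.G => ∫ s in α..β, kf Φ Ψ (h s) z) :=
      intervalIntegral.continuous_parametric_intervalIntegral_of_continuous' h4 α β
    exact (ev_eq Φ Ψ (U := fun r r' v v' => ∫ s in α..β, h s r r' v v') h3).symm
  · rw [e1, ev_eq Φ Ψ (kf_cont' Φ Ψ hh' s)]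
    exact der _ (kf_cont Φ Ψ hh) (kf_cont Φ Ψ hh') (fun t z => hd t _ _ _ _) s

end Pool.Agent.Work.MP_408f4b_gt.Q
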