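import Pool.Agent.Work.MP_408f4b_gt.Q.Stmts3

set_option autoImplicit false
set_option linter.unusedVariables false
set_option linter.unusedSectionVars false

/-!
# Item GW: the part which is even in both vectors
-/

namespace Pool.Agent.Work.MP_408f4b_gt.Q

open MeasureTheory Set Filter Topology

namespace JGW

section one

variable {V : Type} [NormedAddCommGroup V] [InnerProductSpace ℝ V] [CompleteSpace V] {n e : ℕ}
  (Φ : Frm V n e)

theorem base : Φ.Pair Φ.a Φ.b := ⟨Φ.ha, Φ.hb, Φ.hab⟩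

theorem integ (hA : clAv) {F : V → V → ℝ} (hF : Continuous fun z : V × V => F z.1 z.2) :
    Integrable (fun g => F (Φ.A g Φ.a) (Φ.A g Φ.b)) Φ.μ :=
  (((hA V n e Φ).1 F hF).1).integrable_of_hasCompactSupport (HasCompactSupport.of_compactSpace _)

theorem av_add (hA : clAv) {F H : V → V → ℝ} (hF : Continuous fun z : V × V => F z.1 z.2)
    (hH : Continuous fun z : V × V => H z.1 z.2) :
    Φ.av (fun v w => F v w + H v w) = Φ.av F + Φ.av H :=
  integral_add (integ Φ hA hF) (integ Φ hA hH)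

theorem av_mul (c : ℝ) (F : V → V → ℝ) : Φ.av (fun v w => c * F v w) = c * Φ.av F :=
  integral_const_mul c _

theorem av_const (c : ℝ) : Φ.av (fun _ _ => c) = c := by
  simp [Frm.av]

theorem av_mono (hA : clAv) (hP : clPair) {F H : V → V → ℝ}
    (hF : Continuous fun z : V × V => F z.1 z.2) (hH : Continuous fun z : V × V => H z.1 z.2)
    (h : ∀ v w, Φ.Pair v w → F v w ≤ H v w) : Φ.av F ≤ Φ.av H :=
  integral_mono (integ Φ hA hF) (integ Φ hA hH) fun g => by
    obtain ⟨-, -, h3, -⟩ := hP V n e Φ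
    obtain ⟨-, -, -, -, h4, -⟩ := h3 _ _ (base Φ)
    exact h _ _ (h4 g)

theorem av_nonneg (hA : clAv) (hP : clPair) {F : V → V → ℝ}
    (hF : Continuous fun z : V × V => F z.1 z.2)
    (h : ∀ v w, Φ.Pair v w → 0 ≤ F v w) : 0 ≤ Φ.av F := by
  have h1 := av_mono Φ hA hP (F := fun _ _ => (0 : ℝ)) continuous_const hF h
  rwa [av_const] at h1

theorem av_flip (hA : clAv) (hP : clPair) {F : V → V → ℝ}
    (hF : Continuous fun z : V × V => F z.1 z.2) :
    Φ.av (fun v w => F v (-w)) = Φ.av F := by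
  obtain ⟨-, -, h3, -⟩ := hP V n e Φ
  obtain ⟨-, -, h4, -⟩ := h3 _ _ (base Φ)
  have h5 := ((hA V n e Φ).1 F hF).2 _ _ h4
  rw [← h5]
  unfold Frm.av
  simp only [map_neg]

/-- the arithmetic -/
theorem arith {X A B : ℝ} (hX : X ≤ A / (2 * ((n - (e + 1) : ℕ) : ℝ)) + B / (2 * (n : ℝ)))
    (hle : 2 * (e + 1) ≤ n) (hA : 0 ≤ A) (hB : 0 ≤ B) : (2 * (n : ℝ) - 1) * X ≤ 2 * A + B := by
  have hn : (2 : ℝ) ≤ n := by
    have : 2 ≤ n := by omega
    exact_mod_cast this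
  have hk : (n : ℝ) ≤ 2 * ((n - (e + 1) : ℕ) : ℝ) := by
    have : n ≤ 2 * (n - (e + 1)) := by omega
    exact_mod_cast this
  have hk0 : 0 < 2 * ((n - (e + 1) : ℕ) : ℝ) := by linarith
  have h1 : (2 * (n : ℝ) - 1) * X ≤
      (2 * (n : ℝ) - 1) * (A / (2 * ((n - (e + 1) : ℕ) : ℝ)) + B / (2 * (n : ℝ))) :=
    mul_le_mul_of_nonneg_left hX (by linarith)
  have h2 : (2 * (n : ℝ) - 1) * (A / (2 * ((n - (e + 1) : ℕ) : ℝ))) ≤ 2 * A := by
    rw [← mul_div_assoc, div_le_iff₀ hk0]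
    have : (2 * (n : ℝ) - 1) * A ≤ 2 * (2 * ((n - (e + 1) : ℕ) : ℝ)) * A :=
      mul_le_mul_of_nonneg_right (by linarith) hA
    linarith
  have h3 : (2 * (n : ℝ) - 1) * (B / (2 * (n : ℝ))) ≤ B := by
    rw [← mul_div_assoc, div_le_iff₀ (by linarith)]
    nlinarith
  rw [mul_add] at h1
  linarith

/-- the inequality on a fibre -/
theorem fib (hA : clAv) (hP : clPair) (hDe : clDer) (hG : clGee) {g : V → V → ℝ}
    (hg : ContDiff ℝ 1 (fun z : V × V => g z.1 z.2)) (h1 : ∀ v w, g (-v) w = g v w)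
    (h2 : ∀ v w, g v (-w) = g v w) (c : ℝ) (hc : c = Φ.av g) :
    (2 * (n : ℝ) - 1) * Φ.av (fun v w => (g v w - c) ^ 2) ≤
      Φ.av (Φ.n1 g) + 2 * Φ.av (Φ.n2 g) + Φ.av (fun v w => ∑ q, Φ.om q g v w ^ 2) := by
  obtain ⟨-, -, d3, d4, d5, d6, -⟩ := hDe V n e Φ g hg
  have hgc : Continuous fun z : V × V => g z.1 z.2 := hg.continuous
  have cS : Continuous fun z : V × V => ∑ q, Φ.om q g z.1 z.2 ^ 2 :=
    continuous_finsetSum _ fun q _ => (d5 q).pow 2
  have e1 : Φ.av (fun v w => (g v w - c) ^ 2) = Φ.av (fun v w => g v w ^ 2) - Φ.av g ^ 2 := by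
    have e2 : (fun v w => (g v w - c) ^ 2) =
        fun v w => g v w ^ 2 + ((-(2 * c)) * g v w + c ^ 2) := by
      funext v w
      ring
    rw [e2, av_add Φ hA (hgc.pow 2) ((continuous_const.mul hgc).add continuous_const),
      av_add Φ hA (continuous_const.mul hgc) continuous_const, av_mul, av_const, ← hc]
    ring
  have e3 : Φ.av (fun v w => Φ.n1 g v w + ∑ q, Φ.om q g v w ^ 2) =
      Φ.av (Φ.n1 g) + Φ.av (fun v w => ∑ q, Φ.om q g v w ^ 2) := av_add Φ hA d3 cS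
  have p1 : 0 ≤ Φ.av (Φ.n2 g) := av_nonneg Φ hA hP d4 fun v w h => (d6 v w h).2
  have p2 : 0 ≤ Φ.av (fun v w => Φ.n1 g v w + ∑ q, Φ.om q g v w ^ 2) :=
    av_nonneg Φ hA hP (d3.add cS) fun v w h =>
      add_nonneg (d6 v w h).1 (Finset.sum_nonneg fun q _ => sq_nonneg _)
  have h3 := arith (hG V n e Φ g hg h1 h2) Φ.le p1 p2
  rw [e1]
  rw [e3] at h3
  linarith

end one

section two

variable {V W : Type} [NormedAddCommGroup V] [InnerProductSpace ℝ V] [CompleteSpace V]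
  [NormedAddCommGroup W] [InnerProductSpace ℝ W] [CompleteSpace W] {m n e : ℕ}
  (Φ : Frm V m e) (Ψ : Frm W n e)

theorem cd_slice {U : V → V → W → W → ℝ} (hU : C1 U) (r r' : V) :
    ContDiff ℝ 1 (fun z : W × W => U r r' z.1 z.2) :=
  ContDiff.comp (g := fun z : V × V × W × W => U z.1 z.2.1 z.2.2.1 z.2.2.2) hU
    (contDiff_const.prodMk (contDiff_const.prodMk (contDiff_fst.prodMk contDiff_snd)))

theorem cd_s1 {U : V → V → W → W → ℝ} (hU : C1 U) : C1 (s1 U) := by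
  have h : ContDiff ℝ 1 (fun z : V × V × W × W => (z.1, z.2.1, -z.2.2.1, z.2.2.2)) := by
    fun_prop
  exact ContDiff.comp (g := fun z : V × V × W × W => U z.1 z.2.1 z.2.2.1 z.2.2.2) hU h

theorem cd_lin {U U₂ : V → V → W → W → ℝ} (hU : C1 U) (hU₂ : C1 U₂) (c : ℝ) :
    C1 (fun r r' v v' => U r r' v v' + c * U₂ r r' v v') :=
  ContDiff.add hU (contDiff_const.mul hU₂)

theorem co_s1 {U : V → V → W → W → ℝ} (hU : Co U) : Co (s1 U) := by
  have h : Continuous (fun z : V × V × W × W => (z.1, z.2.1, -z.2.2.1, z.2.2.2)) := by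
    fun_prop
  exact Continuous.comp (g := fun z : V × V × W × W => U z.1 z.2.1 z.2.2.1 z.2.2.2) hU h

/-- comparison with the average over the change of sign -/
theorem comp_s1 (hE : clEv) {A B : V → V → W → W → ℝ} (hA : Co A) (hB : Co B)
    (h : ∀ r r' v v', Φ.Pair r r' → Ψ.Pair v v' →
      B r r' v v' ≤ 1 / 2 * A r r' v v' + 1 / 2 * A r r' (-v) v') :
    Ev Φ Ψ B ≤ Ev Φ Ψ A := by
  have hs := co_s1 hA
  have hm : Co (fun r r' v v' => 1 / 2 * A r r' v v' + 1 / 2 * s1 A r r' v v') :=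
    Continuous.add (continuous_const.mul hA) (continuous_const.mul hs)
  obtain ⟨-, -, -, -, -, -, -, h1, -, -, h2, -⟩ := hE V W m n e Φ Ψ A (s1 A) hA hs
  obtain ⟨-, -, -, -, -, -, -, -, -, -, -, h3, -⟩ := hE V W m n e Φ Ψ B _ hB hm
  have h4 := h3 h
  rw [h2, h1] at h4
  linarith

end two

end JGW

open JGW in
theorem prfGW (hA : clAv) (hP : clPair) (hDe : clDer) (hE : clEv) (hD : clDR) (hC : clCl)
    (hG : clGee) : clGW := by
  intro V W _ _ _ _ _ _ m n e Φ Ψ U hU hev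
  have hC1 : C1 U := hU.c1
  have hCo : Co U := hU.c1.continuous
  have hs1 : C1 (s1 U) := cd_s1 hC1
  have hS : C1 (fun r r' v v' => U r r' v v' + s1 U r r' v v') := ContDiff.add hC1 hs1
  have hM : C1 (fun r r' v v' => U r r' v v' + (-1) * s1 U r r' v v') := cd_lin hC1 hs1 (-1)
  -- the even part
  set G : V → V → W → W → ℝ := fun r r' v v' => (U r r' v v' + U r r' v (-v')) / 2 with hGd
  have hflip : ∀ r r' v v', U r r' (-v) v' = U r r' v (-v') := by
    intro r r' v v'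
    have h := hev r r' v (-v')
    rwa [neg_neg] at h
  have hG1 : G = fun r r' v v' => 1 / 2 * (U r r' v v' + s1 U r r' v v') := by
    funext r r' v v'
    show (U r r' v v' + U r r' v (-v')) / 2 = 1 / 2 * (U r r' v v' + U r r' (-v) v')
    rw [hflip]
    ring
  have hG2 : G = fun r r' v v' => U r r' v v' +
      (-1 / 2) * (U r r' v v' + (-1) * s1 U r r' v v') := by
    rw [hG1]
    funext r r' v v'
    ring
  have hC1G : C1 G := by
    rw [hG2]
    exact cd_lin hC1 hM (-1 / 2)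
  have hEE : pEE U = G := by
    funext r r' v v'
    show (U r r' v v' + U r r' (-v) v' + U r r' v (-v') + U r r' (-v) (-v')) / 4 =
      (U r r' v v' + U r r' v (-v')) / 2
    rw [hflip, hev]
    ring
  obtain ⟨dd, dn1, -⟩ := hD V W m n e Φ Ψ U U hC1 hC1
  obtain ⟨gd, gn1, gn2, -⟩ := hD V W m n e Φ Ψ G G hC1G hC1G
  -- comparison of the terms
  have cS : Co (fun r r' v v' => ∑ q, dW Ψ q U r r' v v' ^ 2) := by
    refine continuous_finsetSum _ (fun q _ => ?_)
    have a2 : Continuous (fun z : V × V × W × W => dW Ψ q U z.1 z.2.1 z.2.2.1 z.2.2.2) := (dd q).2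
    exact a2.pow 2
  have cSG : Co (fun r r' v v' => ∑ q, dW Ψ q G r r' v v' ^ 2) := by
    refine continuous_finsetSum _ (fun q _ => ?_)
    have a2 : Continuous (fun z : V × V × W × W => dW Ψ q G z.1 z.2.1 z.2.2.1 z.2.2.2) := (gd q).2
    exact a2.pow 2
  have k1 : Ev Φ Ψ (fun r r' v v' => ∑ q, dW Ψ q G r r' v v' ^ 2) ≤
      Ev Φ Ψ (fun r r' v v' => ∑ q, dW Ψ q U r r' v v' ^ 2) := by
    refine comp_s1 Φ Ψ hE cS cSG (fun r r' v v' _ _ => ?_)
    rw [Finset.mul_sum, Finset.mul_sum, ← Finset.sum_add_distrib]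
    refine Finset.sum_le_sum (fun q _ => ?_)
    obtain ⟨-, -, -, -, -, l1, -⟩ := hD V W m n e Φ Ψ U _ hC1 hM
    obtain ⟨-, -, -, -, -, l2, -⟩ := hD V W m n e Φ Ψ U (s1 U) hC1 hs1
    have l3 : dW Ψ q (s1 U) r r' v v' = -dW Ψ q U r r' (-v) v' := by
      obtain ⟨-, -, -, -, -, -, -, -, h9, -⟩ := hDe W n e Ψ (U r r') (cd_slice hC1 r r')
      exact (h9 v v').2.2.1 q
    have l4 : dW Ψ q G r r' v v' = (dW Ψ q U r r' v v' - dW Ψ q U r r' (-v) v') / 2 := by
      rw [hG2, (l1 q (-1 / 2) r r' v v').2, (l2 q (-1) r r' v v').2, l3]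
      ring
    rw [l4]
    nlinarith [sq_nonneg (dW Ψ q U r r' v v' + dW Ψ q U r r' (-v) v')]
  have k2 : Ev Φ Ψ (fun r r' v v' => Ψ.n1 (G r r') v v') ≤
      Ev Φ Ψ (fun r r' v v' => Ψ.n1 (U r r') v v') := by
    refine comp_s1 Φ Ψ hE dn1 gn1 (fun r r' v v' _ hp => ?_)
    obtain ⟨-, -, -, -, -, -, l1, -⟩ := hD V W m n e Φ Ψ U (s1 U) hC1 hs1
    obtain ⟨-, -, -, -, -, -, l2, -⟩ := hD V W m n e Φ Ψ _ U hS hC1
    have l3 : Ψ.n1 (s1 U r r') v v' = Ψ.n1 (U r r') (-v) v' := by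
      obtain ⟨-, -, -, -, -, -, -, -, h9, -⟩ := hDe W n e Ψ (U r r') (cd_slice hC1 r r')
      exact (h9 v v').1
    have hD1 : C1 (fun r r' v v' => U r r' v v' - s1 U r r' v v') := ContDiff.sub hC1 hs1
    have l4 : 0 ≤ Ψ.n1 (fun v v' => U r r' v v' - s1 U r r' v v') v v' := by
      obtain ⟨-, -, -, -, -, h6, -⟩ := hDe W n e Ψ
        (fun v v' => U r r' v v' - s1 U r r' v v') (cd_slice hD1 r r')
      exact (h6 v v' hp).1
    have l5 := (l1 r r' v v').1
    have l6 := ((l2 r r' v v').2.2 (1 / 2)).1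
    have l7 : Ψ.n1 (G r r') v v' =
        (1 / 2) ^ 2 * Ψ.n1 (fun v v' => U r r' v v' + s1 U r r' v v') v v' := by
      rw [hG1]
      exact l6
    rw [l3] at l5
    rw [l7]
    linarith
  -- continuity of the square
  have hPA : ∀ r r' v v', pA Ψ U r r' v v' = Ψ.av (G r r') := by
    intro r r' v v'
    show Ψ.av (U r r') = Ψ.av (fun v v' => (U r r' v v' + U r r' v (-v')) / 2)
    have hc : Continuous (fun z : W × W => U r r' z.1 z.2) := (cd_slice hC1 r r').continuous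
    have hc2 : Continuous (fun z : W × W => U r r' z.1 (-z.2)) :=
      Continuous.comp (g := fun z : W × W => U r r' z.1 z.2) hc
        (continuous_fst.prodMk continuous_snd.neg)
    have e1 : (fun v v' => (U r r' v v' + U r r' v (-v')) / 2) =
        fun v v' => 1 / 2 * U r r' v v' + 1 / 2 * U r r' v (-v') := by
      funext v v'
      ring
    rw [e1, av_add Ψ hA (continuous_const.mul hc) (continuous_const.mul hc2), av_mul, av_mul,
      av_flip Ψ hA hP hc]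
    ring
  have cA : Continuous (fun z : V × V => Ψ.av (G z.1 z.2)) := by
    obtain ⟨-, -, h, -⟩ := hE V W m n e Φ Ψ G G hC1G.continuous hC1G.continuous
    exact h
  have cP : Co (fun r r' v v' => (pEE U r r' v v' - pA Ψ U r r' v v') ^ 2) := by
    have h1 : Continuous (fun z : V × V × W × W => G z.1 z.2.1 z.2.2.1 z.2.2.2) :=
      hC1G.continuous
    have h2 : Continuous (fun z : V × V × W × W => Ψ.av (G z.1 z.2.1)) :=
      cA.comp (continuous_fst.prodMk (continuous_fst.comp continuous_snd))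
    have h3 : (fun z : V × V × W × W =>
        (pEE U z.1 z.2.1 z.2.2.1 z.2.2.2 - pA Ψ U z.1 z.2.1 z.2.2.1 z.2.2.2) ^ 2) =
        fun z => (G z.1 z.2.1 z.2.2.1 z.2.2.2 - Ψ.av (G z.1 z.2.1)) ^ 2 := by
      funext z
      rw [hEE, hPA]
    show Continuous (fun z : V × V × W × W =>
        (pEE U z.1 z.2.1 z.2.2.1 z.2.2.2 - pA Ψ U z.1 z.2.1 z.2.2.1 z.2.2.2) ^ 2)
    rw [h3]
    exact (h1.sub h2).pow 2
  -- the inequality on the fibres
  have hfib : ∀ r r', (2 * (n : ℝ) - 1) *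
      Ψ.av (fun v v' => (pEE U r r' v v' - pA Ψ U r r' v v') ^ 2) ≤
      (Ψ.av (fun v v' => Ψ.n1 (G r r') v v') + 2 * Ψ.av (fun v v' => Ψ.n2 (G r r') v v')) +
        Ψ.av (fun v v' => ∑ q, dW Ψ q G r r' v v' ^ 2) := by
    intro r r'
    have h1 : (fun v v' => (pEE U r r' v v' - pA Ψ U r r' v v') ^ 2) =
        fun v v' => (G r r' v v' - Ψ.av (G r r')) ^ 2 := by
      funext v v'
      rw [hEE, hPA]
    rw [h1]
    refine fib Ψ hA hP hDe hG (cd_slice hC1G r r') (fun v w => ?_) (fun v w => ?_) _ rfl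
    · show (U r r' (-v) w + U r r' (-v) (-w)) / 2 = (U r r' v w + U r r' v (-w)) / 2
      rw [hflip, hev]
      ring
    · show (U r r' v (-w) + U r r' v (- -w)) / 2 = (U r r' v w + U r r' v (-w)) / 2
      rw [neg_neg]
      ring
  have cont : ∀ A : V → V → W → W → ℝ, Co A →
      Continuous (fun z : V × V => Ψ.av (A z.1 z.2)) ∧
      Ev Φ Ψ A = Φ.av (fun r r' => Ψ.av (A r r')) := by
    intro A hA'
    obtain ⟨-, -, h, h', -⟩ := hE V W m n e Φ Ψ A A hA' hA'
    exact ⟨h, h'⟩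
  obtain ⟨cP1, cP2⟩ := cont _ cP
  obtain ⟨cN1, cN2⟩ := cont _ gn1
  obtain ⟨cM1, cM2⟩ := cont _ gn2
  obtain ⟨cS1, cS2⟩ := cont _ cSG
  have hfin := av_mono Φ hA hP (continuous_const.mul cP1)
    ((cN1.add (continuous_const.mul cM1)).add cS1) (fun r r' _ => hfib r r')
  rw [av_mul, av_add Φ hA (cN1.add (continuous_const.mul cM1)) cS1,
    av_add Φ hA cN1 (continuous_const.mul cM1), av_mul, ← cP2, ← cN2, ← cM2, ← cS2] at hfin
  linarith

end Pool.Agent.Work.MP_408f4b_gt.Q
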