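import Pool.Agent.Work.MP_408f4b_gt.Q.Stmts3

set_option autoImplicit false

/-!
# Integration of the one dimensional inequalities
-/

namespace Pool.Agent.Work.MP_408f4b_gt.Q

open MeasureTheory Set Filter Topology

namespace JInt

/-- Continuous extension of a function on an interval. -/
noncomputable def ext (α β : ℝ) (p : ℝ → ℝ) (s : ℝ) : ℝ := p (max α (min s β))

lemma ext_cont {α β : ℝ} (h : α < β) {p : ℝ → ℝ} (hp : ContinuousOn p (Icc α β)) :
    Continuous (ext α β p) :=
  hp.comp_continuous (f := fun s => max α (min s β)) (by fun_prop)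
    (fun s => ⟨le_max_left _ _, max_le h.le (min_le_right _ _)⟩)

lemma ext_eq {α β : ℝ} (p : ℝ → ℝ) {s : ℝ} (hs : s ∈ Icc α β) : ext α β p s = p s := by
  unfold ext
  rw [min_eq_left hs.2, max_eq_right hs.1]

section

variable {V W : Type} [NormedAddCommGroup V] [NormedAddCommGroup W]

lemma co_of_cop {h : ℝ → V → V → W → W → ℝ} (hh : Cop h) (s : ℝ) : Co (h s) := by
  have h1 : Continuous (fun z : V × V × W × W => (s, z.1, z.2.1, z.2.2.1, z.2.2.2)) := by fun_prop
  exact Continuous.comp hh h1

lemma co_lin {U U₂ : V → V → W → W → ℝ} (h : Co U) (h₂ : Co U₂) (c d : ℝ) :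
    Co (fun r r' v v' => c * U r r' v v' + d * U₂ r r' v v') := by
  have h1 : Continuous (fun z : V × V × W × W => c * U z.1 z.2.1 z.2.2.1 z.2.2.2) :=
    continuous_const.mul h
  have h2 : Continuous (fun z : V × V × W × W => d * U₂ z.1 z.2.1 z.2.2.1 z.2.2.2) :=
    continuous_const.mul h₂
  exact h1.add h2

lemma cont_of_cop {h : ℝ → V → V → W → W → ℝ} (hh : Cop h) (r r' : V) (v v' : W) :
    Continuous (fun s => h s r r' v v') := by
  have h1 : Continuous (fun s : ℝ => (s, r, r', v, v')) := by fun_prop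
  exact Continuous.comp hh h1

lemma co_int {h : ℝ → V → V → W → W → ℝ} (hh : Cop h) (α β : ℝ) :
    Co (fun r r' v v' => ∫ s in α..β, h s r r' v v') := by
  have h1 : Continuous (fun z : (V × V × W × W) × ℝ =>
      (z.2, z.1.1, z.1.2.1, z.1.2.2.1, z.1.2.2.2)) := by fun_prop
  have h2 : Continuous (Function.uncurry
      (fun (z : V × V × W × W) (s : ℝ) => h s z.1 z.2.1 z.2.2.1 z.2.2.2)) :=
    Continuous.comp hh h1
  exact intervalIntegral.continuous_parametric_intervalIntegral_of_continuous' h2 α β

end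

section

variable {V W : Type} [NormedAddCommGroup V] [InnerProductSpace ℝ V] [CompleteSpace V]
  [NormedAddCommGroup W] [InnerProductSpace ℝ W] [CompleteSpace W] {m n e : ℕ}
  (Φ : Frm V m e) (Ψ : Frm W n e)

lemma key (hE : clEv) (hF : clFub) {α β : ℝ} (G : ℝ → V → V → W → W → ℝ) (hG : Cop G)
    (L : V → V → W → W → ℝ) (hL : Co L)
    (h : ∀ r r' v v', L r r' v v' ≤ ∫ s in α..β, G s r r' v v') :
    Ev Φ Ψ L ≤ ∫ s in α..β, Ev Φ Ψ (G s) := by
  rw [(hF V W m n e Φ Ψ G G hG hG).2.1 α β]
  obtain ⟨_, _, _, _, _, _, _, _, _, _, _, hmono, _⟩ := hE V W m n e Φ Ψ L _ hL (co_int hG α β)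
  exact hmono (fun r r' v v' _ _ => h r r' v v')

lemma ev_lin (hE : clEv) {U U₂ : V → V → W → W → ℝ} (h : Co U) (h₂ : Co U₂) (c d : ℝ) :
    Ev Φ Ψ (fun r r' v v' => c * U r r' v v' + d * U₂ r r' v v') =
      c * Ev Φ Ψ U + d * Ev Φ Ψ U₂ := by
  obtain ⟨_, _, _, _, _, _, _, _, _, _, hl, _⟩ := hE V W m n e Φ Ψ U U₂ h h₂
  exact hl c d

end

end JInt

open JInt in
theorem prfInt (hE : clEv) (hF : clFub) : clInt := by
  intro V W _ _ _ _ _ _ m n e Φ Ψ α β w hαβ hw h h' hh hh' hd
  have hwe := ext_cont hαβ hw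
  have huI : uIcc α β = Icc α β := uIcc_of_le hαβ.le
  constructor
  · intro pot cα cβ hpot hI
    have hpe := ext_cont hαβ hpot
    set G : ℝ → V → V → W → W → ℝ := fun s r r' v v' =>
      (h' s r r' v v' ^ 2 + ext α β pot s * h s r r' v v' ^ 2) * ext α β w s with hGdef
    have hG : Cop G := by
      unfold Cop at hh hh' ⊢
      simp only [hGdef]
      have e1 : Continuous (fun z : ℝ × V × V × W × W => ext α β pot z.1) := hpe.comp continuous_fst
      have e2 : Continuous (fun z : ℝ × V × V × W × W => ext α β w z.1) := hwe.comp continuous_fst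
      exact ((hh'.pow 2).add (e1.mul (hh.pow 2))).mul e2
    have hα2 : Co (fun r r' v v' => h α r r' v v' ^ 2) := Continuous.pow (co_of_cop hh α) 2
    have hβ2 : Co (fun r r' v v' => h β r r' v v' ^ 2) := Continuous.pow (co_of_cop hh β) 2
    have hk := key Φ Ψ hE hF (α := α) (β := β) G hG
      (fun r r' v v' => cβ * h β r r' v v' ^ 2 + (-cα) * h α r r' v v' ^ 2)
      (co_lin hβ2 hα2 cβ (-cα)) (by
        intro r r' v v'
        have h1 := hI (fun s => h s r r' v v') (fun s => h' s r r' v v')
          (fun s _ => hd s r r' v v') (cont_of_cop hh' r r' v v').continuousOn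
        have h2 : ∫ s in α..β, G s r r' v v' =
            ∫ s in α..β, (h' s r r' v v' ^ 2 + pot s * h s r r' v v' ^ 2) * w s := by
          refine intervalIntegral.integral_congr ?_
          intro s hs
          rw [huI] at hs
          simp only [hGdef, ext_eq _ hs]
        rw [h2]
        linarith)
    rw [ev_lin Φ Ψ hE hβ2 hα2] at hk
    have h3 : ∫ s in α..β, Ev Φ Ψ (G s) =
        ∫ s in α..β, (Ev Φ Ψ (fun r r' v v' => h' s r r' v v' ^ 2) +
          pot s * Ev Φ Ψ (fun r r' v v' => h s r r' v v' ^ 2)) * w s := by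
      refine intervalIntegral.integral_congr ?_
      intro s hs
      rw [huI] at hs
      have hc' : Co (fun r r' v v' => h' s r r' v v' ^ 2) := Continuous.pow (co_of_cop hh' s) 2
      have hc : Co (fun r r' v v' => h s r r' v v' ^ 2) := Continuous.pow (co_of_cop hh s) 2
      have h4 : G s = fun r r' v v' => w s * h' s r r' v v' ^ 2 +
          (pot s * w s) * h s r r' v v' ^ 2 := by
        funext r r' v v'
        simp only [hGdef, ext_eq _ hs]
        ring
      show Ev Φ Ψ (G s) = _
      rw [h4, ev_lin Φ Ψ hE hc' hc]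
      ring
    rw [h3] at hk
    linarith
  · intro k k' hk0 hk' hdk p11 p12 p22 cα dα cβ dβ hp11 hp12 hp22 hI
    have hpe11 := ext_cont hαβ hp11
    have hpe12 := ext_cont hαβ hp12
    have hpe22 := ext_cont hαβ hp22
    set G : ℝ → V → V → W → W → ℝ := fun s r r' v v' =>
      (h' s r r' v v' ^ 2 + k' s r r' v v' ^ 2 + ext α β p11 s * h s r r' v v' ^ 2 +
        2 * ext α β p12 s * (h s r r' v v' * k s r r' v v') +
        ext α β p22 s * k s r r' v v' ^ 2) * ext α β w s with hGdef
    have hG : Cop G := by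
      unfold Cop at hh hh' hk0 hk' ⊢
      simp only [hGdef]
      have e1 : Continuous (fun z : ℝ × V × V × W × W => ext α β p11 z.1) :=
        hpe11.comp continuous_fst
      have e2 : Continuous (fun z : ℝ × V × V × W × W => ext α β p12 z.1) :=
        hpe12.comp continuous_fst
      have e3 : Continuous (fun z : ℝ × V × V × W × W => ext α β p22 z.1) :=
        hpe22.comp continuous_fst
      have e4 : Continuous (fun z : ℝ × V × V × W × W => ext α β w z.1) :=
        hwe.comp continuous_fst
      exact (((((hh'.pow 2).add (hk'.pow 2)).add (e1.mul (hh.pow 2))).add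
        ((continuous_const.mul e2).mul (hh.mul hk0))).add (e3.mul (hk0.pow 2))).mul e4
    have hα2 : Co (fun r r' v v' => h α r r' v v' ^ 2) := Continuous.pow (co_of_cop hh α) 2
    have hβ2 : Co (fun r r' v v' => h β r r' v v' ^ 2) := Continuous.pow (co_of_cop hh β) 2
    have kα2 : Co (fun r r' v v' => k α r r' v v' ^ 2) := Continuous.pow (co_of_cop hk0 α) 2
    have kβ2 : Co (fun r r' v v' => k β r r' v v' ^ 2) := Continuous.pow (co_of_cop hk0 β) 2
    have c1 : Co (fun r r' v v' => cβ * h β r r' v v' ^ 2 + dβ * k β r r' v v' ^ 2) :=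
      (Continuous.mul continuous_const hβ2).add (Continuous.mul continuous_const kβ2)
    have c2 : Co (fun r r' v v' => cα * h α r r' v v' ^ 2 + dα * k α r r' v v' ^ 2) :=
      (Continuous.mul continuous_const hα2).add (Continuous.mul continuous_const kα2)
    have hk := key Φ Ψ hE hF (α := α) (β := β) G hG
      (fun r r' v v' => 1 * (cβ * h β r r' v v' ^ 2 + dβ * k β r r' v v' ^ 2) +
        (-1) * (cα * h α r r' v v' ^ 2 + dα * k α r r' v v' ^ 2))
      (co_lin c1 c2 1 (-1)) (by
        intro r r' v v'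
        have h1 := hI (fun s => h s r r' v v') (fun s => h' s r r' v v')
          (fun s => k s r r' v v') (fun s => k' s r r' v v')
          (fun s _ => hd s r r' v v') (cont_of_cop hh' r r' v v').continuousOn
          (fun s _ => hdk s r r' v v') (cont_of_cop hk' r r' v v').continuousOn
        have h2 : ∫ s in α..β, G s r r' v v' =
            ∫ s in α..β, (h' s r r' v v' ^ 2 + k' s r r' v v' ^ 2 + p11 s * h s r r' v v' ^ 2 +
              2 * p12 s * (h s r r' v v' * k s r r' v v') +
              p22 s * k s r r' v v' ^ 2) * w s := by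
          refine intervalIntegral.integral_congr ?_
          intro s hs
          rw [huI] at hs
          simp only [hGdef, ext_eq _ hs]
        rw [h2]
        linarith)
    rw [ev_lin Φ Ψ hE c1 c2, ev_lin Φ Ψ hE hβ2 kβ2, ev_lin Φ Ψ hE hα2 kα2] at hk
    have h3 : ∫ s in α..β, Ev Φ Ψ (G s) =
        ∫ s in α..β, (Ev Φ Ψ (fun r r' v v' => h' s r r' v v' ^ 2) +
          Ev Φ Ψ (fun r r' v v' => k' s r r' v v' ^ 2) +
          Ev Φ Ψ (fun r r' v v' => p11 s * h s r r' v v' ^ 2 +
            2 * p12 s * (h s r r' v v' * k s r r' v v') + p22 s * k s r r' v v' ^ 2)) * w s := by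
      refine intervalIntegral.integral_congr ?_
      intro s hs
      rw [huI] at hs
      have hch' : Co (fun r r' v v' => h' s r r' v v' ^ 2) := Continuous.pow (co_of_cop hh' s) 2
      have hck' : Co (fun r r' v v' => k' s r r' v v' ^ 2) := Continuous.pow (co_of_cop hk' s) 2
      have hch : Co (fun r r' v v' => h s r r' v v' ^ 2) := Continuous.pow (co_of_cop hh s) 2
      have hck : Co (fun r r' v v' => k s r r' v v' ^ 2) := Continuous.pow (co_of_cop hk0 s) 2
      have hchk : Co (fun r r' v v' => h s r r' v v' * k s r r' v v') :=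
        Continuous.mul (co_of_cop hh s) (co_of_cop hk0 s)
      have hq : Co (fun r r' v v' => p11 s * h s r r' v v' ^ 2 +
            2 * p12 s * (h s r r' v v' * k s r r' v v') + p22 s * k s r r' v v' ^ 2) :=
        ((Continuous.mul continuous_const hch).add (Continuous.mul continuous_const hchk)).add
          (Continuous.mul continuous_const hck)
      have hs2 : Co (fun r r' v v' => w s * h' s r r' v v' ^ 2 + w s * k' s r r' v v' ^ 2) :=
        (Continuous.mul continuous_const hch').add (Continuous.mul continuous_const hck')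
      have h4 : G s = fun r r' v v' =>
          1 * (w s * h' s r r' v v' ^ 2 + w s * k' s r r' v v' ^ 2) +
          w s * (p11 s * h s r r' v v' ^ 2 +
            2 * p12 s * (h s r r' v v' * k s r r' v v') + p22 s * k s r r' v v' ^ 2) := by
        funext r r' v v'
        simp only [hGdef, ext_eq _ hs]
        ring
      show Ev Φ Ψ (G s) = _
      rw [h4, ev_lin Φ Ψ hE hs2 hq, ev_lin Φ Ψ hE hch' hck']
      ring
    rw [h3] at hk
    linarith

end Pool.Agent.Work.MP_408f4b_gt.Q
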