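import Pool.Agent.Work.MP_408f4b_gt.Q.Stmts3

set_option autoImplicit false

/-!
# The sector of the invariant functions
-/

namespace Pool.Agent.Work.MP_408f4b_gt.Q

open MeasureTheory Set Filter Topology

namespace JInv

lemma cont_QQ {a b : ℕ} {x y : ℝ → ℝ} (hx : Continuous x) (hy : Continuous y) :
    Continuous (QQ a b x y) := by
  have : QQ a b x y = fun s => a * (x s ^ 2 - y s ^ 2) ^ 2 - 4 * b * (x s * y s) ^ 2 := rfl
  rw [this]
  fun_prop

lemma cont_wq {a b : ℕ} {x y : ℝ → ℝ} (hx : Continuous x) (hy : Continuous y) :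
    Continuous (wq a b x y) := by
  have : wq a b x y = fun s => (x s * y s) ^ a * (x s ^ 2 - y s ^ 2) ^ b := rfl
  rw [this]
  fun_prop

lemma wq_pos {a b : ℕ} {x y : ℝ → ℝ} {s : ℝ} (hy : 0 < y s) (hxy : y s < x s) :
    0 < wq a b x y s := by
  have h1 : 0 < x s := hy.trans hxy
  have h2 : 0 < x s ^ 2 - y s ^ 2 := by nlinarith
  exact mul_pos (pow_pos (mul_pos h1 hy) _) (pow_pos h2 _)

/-- A continuous function without zeros on a preconnected set has a constant sign. -/
lemma sign_const {f : ℝ → ℝ} (hf : Continuous f) {S : Set ℝ} (hS : IsPreconnected S)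
    (hne : ∀ s ∈ S, f s ≠ 0) : (∀ s ∈ S, 0 < f s) ∨ ∀ s ∈ S, f s < 0 := by
  by_contra hcon
  push Not at hcon
  obtain ⟨⟨a, ha, hfa⟩, b, hb, hfb⟩ := hcon
  have := hS.intermediate_value ha hb hf.continuousOn
  obtain ⟨c, hc, hfc⟩ := this ⟨hfa, hfb⟩
  exact hne c hc hfc

lemma half (hSu : clSuper) {a b : ℕ} {L : ℝ} {x y : ℝ → ℝ} {s₁ : ℝ}
    (ha : 1 ≤ a) (hb : 1 ≤ b) (h : Chd a b L x y) (h0 : 0 ≤ s₁) (h1 : s₁ < L)
    (hne : ∀ s ∈ Ioc s₁ L, QQ a b x y s ≠ 0) :
    ∫ s in s₁..L, (wq a b x y s)⁻¹ ≤ (wq a b x y L)⁻¹ := by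
  obtain ⟨hx, hy, hc⟩ := h.curve
  have hcD : Continuous (QQ a b x y) := cont_QQ hx.continuous hy.continuous
  have hcur : Crv a b s₁ L x y := ⟨hx, hy, fun s hs => hc s ⟨h0.trans hs.1, hs.2⟩⟩
  rcases sign_const hcD isPreconnected_Ioc hne with h2 | h2
  · exact (hSu a b s₁ L 1 x y ha hb h1 (Or.inl rfl) hcur
      (fun s hs => by rw [one_mul]; exact h2 s hs) h.final.2.1 h.final.2.2).2
  · exact (hSu a b s₁ L (-1) x y ha hb h1 (Or.inr rfl) hcur
      (fun s hs => by have := h2 s hs; linarith) h.final.2.1 h.final.2.2).2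

end JInv

open JInv in
theorem prfInv (hS : clSuper) (hC : clCross) (hR : clRefl) : clInv := by
  intro a b L x y ha hb h
  obtain ⟨hc0, hcL, hcu⟩ := hC a b L x y ha hb h
  have hL := h.L_pos
  have hwpos : ∀ s ∈ Icc 0 L, 0 < wq a b x y s := fun s hs => by
    have := h.curve.2.2 s hs
    exact wq_pos this.1 this.2.1
  have hcw : Continuous (wq a b x y) := cont_wq h.curve.1.continuous h.curve.2.1.continuous
  by_cases hz : ∃ s ∈ Icc 0 L, QQ a b x y s = 0
  · obtain ⟨s₁, hs₁, hz⟩ := hz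
    have hpos0 : 0 < s₁ := lt_of_le_of_ne hs₁.1 (fun he => hc0 (he ▸ hz))
    have hltL : s₁ < L := lt_of_le_of_ne hs₁.2 (fun he => hcL (he ▸ hz))
    have hcont : ContinuousOn (fun s => (wq a b x y s)⁻¹) (Icc 0 L) :=
      hcw.continuousOn.inv₀ (fun s hs => (hwpos s hs).ne')
    have hright := half hS ha hb h hpos0.le hltL (fun s hs he => by
      have := hcu s ⟨hpos0.le.trans hs.1.le, hs.2⟩ s₁ hs₁ he hz
      exact absurd this hs.1.ne')
    have hrev := hR.2.2 a b L x y h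
    have hleft := half hS ha hb hrev (s₁ := L - s₁) (by linarith) (by linarith)
      (fun s hs he => by
        have h1 : L - s ∈ Icc 0 L := ⟨by linarith [hs.2], by linarith [hs.1, hs₁.2]⟩
        have h2 : QQ a b x y (L - s) = 0 := he
        have := hcu (L - s) h1 s₁ hs₁ h2 hz
        linarith [hs.1])
    have hleft' : ∫ s in (0 : ℝ)..s₁, (wq a b x y s)⁻¹ ≤ (wq a b x y 0)⁻¹ := by
      have e1 : ∫ s in (L - s₁)..L, (wq a b (fun s => x (L - s)) (fun s => y (L - s)) s)⁻¹ =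
          ∫ s in (0 : ℝ)..s₁, (wq a b x y s)⁻¹ := by
        have := intervalIntegral.integral_comp_sub_left (fun s => (wq a b x y s)⁻¹) L
          (a := L - s₁) (b := L)
        simp only [sub_self, sub_sub_cancel] at this
        exact this
      have e2 : wq a b (fun s => x (L - s)) (fun s => y (L - s)) L = wq a b x y 0 := by
        unfold wq
        simp
      rw [e1, e2] at hleft
      exact hleft
    have hi1 : IntervalIntegrable (fun s => (wq a b x y s)⁻¹) volume 0 s₁ := by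
      refine ContinuousOn.intervalIntegrable ?_
      rw [uIcc_of_le hpos0.le]
      exact hcont.mono (Icc_subset_Icc le_rfl hs₁.2)
    have hi2 : IntervalIntegrable (fun s => (wq a b x y s)⁻¹) volume s₁ L := by
      refine ContinuousOn.intervalIntegrable ?_
      rw [uIcc_of_le hltL.le]
      exact hcont.mono (Icc_subset_Icc hs₁.1 le_rfl)
    rw [← intervalIntegral.integral_add_adjacent_intervals hi1 hi2]
    linarith
  · have h1 := half hS ha hb h le_rfl hL (fun s hs he => hz ⟨s, ⟨hs.1.le, hs.2⟩, he⟩)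
    have h2 : 0 < (wq a b x y 0)⁻¹ := inv_pos.2 (hwpos 0 ⟨le_rfl, hL.le⟩)
    linarith

end Pool.Agent.Work.MP_408f4b_gt.Q
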