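import Pool.Agent.Work.MP_408f4b_gt.Q.Stmts3

set_option autoImplicit false
set_option linter.unusedSectionVars false

/-!
# Item Lim: limits of the boundary terms at the walls
-/

namespace Pool.Agent.Work.MP_408f4b_gt.Q

open MeasureTheory Set Filter Topology

namespace JLim

section

variable {V W : Type} [NormedAddCommGroup V] [InnerProductSpace ℝ V] [CompleteSpace V]
  [NormedAddCommGroup W] [InnerProductSpace ℝ W] [CompleteSpace W] {m n e : ℕ}
  (Φ : Frm V m e) (Ψ : Frm W n e) (U : ℝ → V → V → W → W → ℝ)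

theorem cop_neg1 (hU : Cop U) : Cop (fun s r r' v v' => U s r r' (-v) v') := by
  have h : Continuous (fun z : ℝ × V × V × W × W => (z.1, z.2.1, z.2.2.1, -z.2.2.2.1, z.2.2.2.2)) := by
    fun_prop
  exact hU.comp h

theorem cop_neg2 (hU : Cop U) : Cop (fun s r r' v v' => U s r r' v (-v')) := by
  have h : Continuous (fun z : ℝ × V × V × W × W => (z.1, z.2.1, z.2.2.1, z.2.2.2.1, -z.2.2.2.2)) := by
    fun_prop
  exact hU.comp h

theorem cop_neg12 (hU : Cop U) : Cop (fun s r r' v v' => U s r r' (-v) (-v')) := by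
  have h : Continuous (fun z : ℝ × V × V × W × W =>
      (z.1, z.2.1, z.2.2.1, -z.2.2.2.1, -z.2.2.2.2)) := by
    fun_prop
  exact hU.comp h

theorem cop_sw (hU : Cop U) : Cop (fun s => sw (U s)) := by
  have h : Continuous (fun z : ℝ × V × V × W × W =>
      (z.1, z.2.2.1, z.2.1, z.2.2.2.2, z.2.2.2.1)) := by
    fun_prop
  exact hU.comp h

theorem cop_pOE (hU : Cop U) : Cop (fun s => pOE (U s)) := by
  have h1 : Cop U := hU
  have h2 := cop_neg1 U hU
  have h3 := cop_neg2 U hU
  have h4 := cop_neg12 U hU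
  unfold Cop at h1 h2 h3 h4 ⊢
  unfold pOE
  exact (((h1.sub h2).add h3).sub h4).div_const 4

theorem cop_pEO (hU : Cop U) : Cop (fun s => pEO (U s)) := by
  have h1 : Cop U := hU
  have h2 := cop_neg1 U hU
  have h3 := cop_neg2 U hU
  have h4 := cop_neg12 U hU
  unfold Cop at h1 h2 h3 h4 ⊢
  unfold pEO
  exact (((h1.add h2).sub h3).sub h4).div_const 4

theorem cop_pOO (hU : Cop U) : Cop (fun s => pOO (U s)) := by
  have h1 : Cop U := hU
  have h2 := cop_neg1 U hU
  have h3 := cop_neg2 U hU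
  have h4 := cop_neg12 U hU
  unfold Cop at h1 h2 h3 h4 ⊢
  unfold pOO
  exact (((h1.sub h2).sub h3).add h4).div_const 4

theorem cop_pEE (hU : Cop U) : Cop (fun s => pEE (U s)) := by
  have h1 : Cop U := hU
  have h2 := cop_neg1 U hU
  have h3 := cop_neg2 U hU
  have h4 := cop_neg12 U hU
  unfold Cop at h1 h2 h3 h4 ⊢
  unfold pEE
  exact (((h1.add h2).add h3).add h4).div_const 4

theorem cop_pA (hA : clAv) (hU : Cop U) : Cop (fun s => pA Ψ (U s)) := by
  have h1 := (hA W n e Ψ).2.1 (ℝ × V × V) (fun p => U p.1 p.2.1 p.2.2) (by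
    have h : Continuous (fun z : (ℝ × V × V) × W × W =>
      (z.1.1, z.1.2.1, z.1.2.2, z.2.1, z.2.2)) := by fun_prop
    exact hU.comp h)
  have h2 : Continuous (fun z : ℝ × V × V × W × W => (z.1, z.2.1, z.2.2.1)) := by fun_prop
  exact h1.comp h2

theorem cop_sq (h : Cop U) : Cop (fun s r r' v v' => U s r r' v v' ^ 2) := by
  unfold Cop at h ⊢
  exact h.pow 2

theorem cop_sub (U₂ : ℝ → V → V → W → W → ℝ) (h : Cop U) (h₂ : Cop U₂) :
    Cop (fun s r r' v v' => U s r r' v v' - U₂ s r r' v v') := by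
  unfold Cop at h h₂ ⊢
  exact h.sub h₂

end

end JLim

open JLim in
theorem prfLim (hA : clAv) (hE : clEv) (hF : clFub) (hPa : clPars) (hDe : clDer) (hAC : clAvC1)
    (hV : clVarR) (hTC : clTCl) (hTP : clTPt) : clLim := by
  intro V W M _ _ _ _ _ _ _ _ _ n e Φ Ψ T f x y hn hf hx hy hev hx0 hy0
  have hdx : Continuous (deriv x) := hx.continuous_deriv (by norm_num)
  have hdy : Continuous (deriv y) := hy.continuous_deriv (by norm_num)
  have hcx : Continuous x := hx.continuous
  have hcy : Continuous y := hy.continuous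
  have hxd : ∀ s, HasDerivAt x (deriv x s) s := fun s =>
    (hx.differentiable (by norm_num)).differentiableAt.hasDerivAt
  have hyd : ∀ s, HasDerivAt y (deriv y s) s := fun s =>
    (hy.differentiable (by norm_num)).differentiableAt.hasDerivAt
  have hU : Cop (fun s => T.U f (x s) (y s)) :=
    ((hTC V W M _ n e Φ Ψ T f hf).2 x (deriv x) y (deriv y) hxd hyd hdx hdy).2.1
  have hcont : ∀ h : ℝ → V → V → W → W → ℝ, Cop h → Continuous (fun s => Ev Φ Ψ (h s)) :=
    fun h hh => (hF V W _ n e Φ Ψ h h hh hh).1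
  have h1 := hcont _ (cop_sq _ (cop_pOE _ hU))
  have h2 := hcont _ (cop_sq _ (cop_sw _ (cop_pEO _ hU)))
  have h3 := hcont _ (cop_sq _ (cop_pOO _ hU))
  have h4 := hcont _ (cop_sq _ (cop_sub _ _ (cop_pEE _ hU) (cop_pA Ψ _ hA hU)))
  have h5 := hcont _ (cop_sq _ (cop_pA Ψ _ hA hU))
  have h6 := hcont _ hU
  set E1 : ℝ → ℝ := fun s => Ev Φ Ψ (fun r r' v v' => pOE (T.U f (x s) (y s)) r r' v v' ^ 2)
    with hE1
  set E2 : ℝ → ℝ := fun s => Ev Φ Ψ (fun r r' v v' => sw (pEO (T.U f (x s) (y s))) r r' v v' ^ 2)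
    with hE2
  set E3 : ℝ → ℝ := fun s => Ev Φ Ψ (fun r r' v v' => pOO (T.U f (x s) (y s)) r r' v v' ^ 2)
    with hE3
  set E4 : ℝ → ℝ := fun s => Ev Φ Ψ (fun r r' v v' =>
      (pEE (T.U f (x s) (y s)) r r' v v' - pA Ψ (T.U f (x s) (y s)) r r' v v') ^ 2)
    with hE4
  set E5 : ℝ → ℝ := fun s => Ev Φ Ψ (fun r r' v v' => pA Ψ (T.U f (x s) (y s)) r r' v v' ^ 2)
    with hE5
  set E6 : ℝ → ℝ := fun s => Ev Φ Ψ (T.U f (x s) (y s)) with hE6
  have k1 : Continuous E1 := h1
  have k2 : Continuous E2 := h2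
  have k3 : Continuous E3 := h3
  have k4 : Continuous E4 := h4
  have k5 : Continuous E5 := h5
  have k6 : Continuous E6 := h6
  obtain ⟨a, ha⟩ : ∃ a, n - (e + 1) - 1 = a + 1 := ⟨n - (e + 1) - 2, by omega⟩
  have hBt : ∀ s, Bt T f x y s = wq (a + 1) (e + 1) x y s *
    (deriv x s / x s * E1 s + deriv y s / y s * E2 s + deriv y s / y s * E3 s +
    (x s * deriv x s + y s * deriv y s) / (x s ^ 2 + y s ^ 2) * E4 s +
    (deriv x s - deriv y s) / (x s - y s) * (E5 s - E6 s ^ 2)) := by
    intro s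
    unfold Bt
    rw [ha]
  have zero : ∀ g : V → V → W → W → ℝ, (∀ r r' v v', g r r' v v' = 0) → Ev Φ Ψ g = 0 := by
    intro g hg
    have : g = fun _ _ _ _ => 0 := by
      funext r r' v v'
      exact hg r r' v v'
    rw [this]
    simp [Ev, Frm.av]
  rcases hy0 with hy0 | hy0
  · -- the wall `y = 0`
    have z2 : E2 0 = 0 := by
      apply zero
      intro r r' v v'
      have h := (hTP V W M _ n e Φ Ψ T f hf).2.2.2 (x 0)
      simp only [sw, pEO, hy0]
      rw [h r' r v' v, h r' r (-v') v, h r' r v' (-v), h r' r (-v') (-v)]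
      ring
    have z3 : E3 0 = 0 := by
      apply zero
      intro r r' v v'
      have h := (hTP V W M _ n e Φ Ψ T f hf).2.2.2 (x 0)
      simp only [pOO, hy0]
      rw [h r r' v v', h r r' (-v) v', h r r' v (-v'), h r r' (-v) (-v')]
      ring
    set G : ℝ → ℝ := fun s => wq (a + 1) (e + 1) x y s *
      (deriv x s / x s * E1 s +
      (x s * deriv x s + y s * deriv y s) / (x s ^ 2 + y s ^ 2) * E4 s +
      (deriv x s - deriv y s) / (x s - y s) * (E5 s - E6 s ^ 2)) +
      x s ^ (a + 1) * y s ^ a * (x s ^ 2 - y s ^ 2) ^ (e + 1) * deriv y s * (E2 s + E3 s) with hG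
    have hGc : ContinuousAt G 0 := by
      have q1 : x 0 ≠ 0 := hx0.ne'
      have q2 : x 0 ^ 2 + y 0 ^ 2 ≠ 0 := by rw [hy0]; positivity
      have q3 : x 0 - y 0 ≠ 0 := by rw [hy0]; simpa using hx0.ne'
      simp only [hG, wq]
      refine ContinuousAt.add (ContinuousAt.mul (by fun_prop) (ContinuousAt.add (ContinuousAt.add
        (ContinuousAt.mul ?_ k1.continuousAt) (ContinuousAt.mul ?_ k4.continuousAt))
        (ContinuousAt.mul ?_ (by fun_prop)))) (by fun_prop)
      · exact hdx.continuousAt.div hcx.continuousAt q1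
      · exact ContinuousAt.div (by fun_prop) (by fun_prop) q2
      · exact ContinuousAt.div (by fun_prop) (by fun_prop) q3
    have hG0 : G 0 = 0 := by
      simp only [hG, wq, z2, z3, hy0]
      simp
    have hT : Tendsto G (𝓝[>] 0) (𝓝 0) := by
      have := hGc.tendsto
      rw [hG0] at this
      exact this.mono_left nhdsWithin_le_nhds
    refine hT.congr' ?_
    filter_upwards [hev] with s hs
    rw [hBt s]
    have hy1 : y s ≠ 0 := hs.1.ne'
    simp only [hG, wq]
    have e1 : (x s * y s) ^ (a + 1) * (x s ^ 2 - y s ^ 2) ^ (e + 1) * (deriv y s / y s) =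
        x s ^ (a + 1) * y s ^ a * (x s ^ 2 - y s ^ 2) ^ (e + 1) * deriv y s := by
      field_simp
      ring
    rw [← e1]
    ring
  · -- the wall `x = y`
    have hy1 : 0 < y 0 := by rw [hy0]; exact hx0
    have z5 : E5 0 - E6 0 ^ 2 = 0 := by
      have c0 : Cl Φ Ψ (T.U f (x 0) (x 0)) := (hTC V W M _ n e Φ Ψ T f hf).1 _ _
      have c1 : 0 ≤ E5 0 - E6 0 ^ 2 :=
        (hPa V W _ n e Φ Ψ (T.U f (x 0) (y 0)) (by rw [hy0]; exact c0.c1.continuous)).2.1
      have c2 := hV V W n e Φ Ψ (T.U f (x 0) (y 0)) (by rw [hy0]; exact c0)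
      have c3 : Ev Φ Ψ (fun r r' v v' => ∑ q, dR Φ q (pA Ψ (T.U f (x 0) (y 0))) r r' v v' ^ 2)
          = 0 := by
        apply zero
        intro r r' v v'
        apply Finset.sum_eq_zero
        intro q _
        have d1 := (hAC V W _ n e Φ Ψ (T.U f (x 0) (x 0)) c0).2.2.1 q r r' v v'
        have d2 := (hTP V W M _ n e Φ Ψ T f hf).2.2.1 (x 0) q r r'
        have d3 : (fun v v' => dR Φ q (T.U f (x 0) (x 0)) r r' v v') =
            fun v v' => -Ψ.om q (T.U f (x 0) (x 0) r r') v v' := by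
          funext v v'
          have := d2 v v'
          have d4 : dW Ψ q (T.U f (x 0) (x 0)) r r' v v' =
            Ψ.om q (T.U f (x 0) (x 0) r r') v v' := rfl
          linarith
        have d5 : ContDiff ℝ 1 (fun z : W × W => T.U f (x 0) (x 0) r r' z.1 z.2) := by
          have : ContDiff ℝ 1 (fun z : W × W => ((r, r', z.1, z.2) : V × V × W × W)) := by
            fun_prop
          exact c0.c1.comp this
        have d6 := (hDe W n e Ψ (T.U f (x 0) (x 0) r r') d5).2.2.2.2.2.2.2.1 q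
        rw [hy0, d1, d3]
        have d7 : Ψ.av (fun v v' => -Ψ.om q (T.U f (x 0) (x 0) r r') v v') =
            -Ψ.av (Ψ.om q (T.U f (x 0) (x 0) r r')) := by
          unfold Frm.av
          rw [← integral_neg]
        rw [d7, d6]
        simp
      rw [c3] at c2
      have c4 : (0 : ℝ) < 4 * ((e : ℝ) + 1) := by positivity
      have c5 : 4 * ((e : ℝ) + 1) * (E5 0 - E6 0 ^ 2) ≤ 0 := c2
      nlinarith
    set G : ℝ → ℝ := fun s => wq (a + 1) (e + 1) x y s *
      (deriv x s / x s * E1 s + deriv y s / y s * (E2 s + E3 s) +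
      (x s * deriv x s + y s * deriv y s) / (x s ^ 2 + y s ^ 2) * E4 s) +
      (x s * y s) ^ (a + 1) * (x s + y s) ^ (e + 1) * (x s - y s) ^ e *
        (deriv x s - deriv y s) * (E5 s - E6 s ^ 2) with hG
    have hGc : ContinuousAt G 0 := by
      have q1 : x 0 ≠ 0 := hx0.ne'
      have q2 : x 0 ^ 2 + y 0 ^ 2 ≠ 0 := by positivity
      have q3 : y 0 ≠ 0 := hy1.ne'
      simp only [hG, wq]
      refine ContinuousAt.add (ContinuousAt.mul (by fun_prop) (ContinuousAt.add (ContinuousAt.add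
        (ContinuousAt.mul ?_ k1.continuousAt) (ContinuousAt.mul ?_ (by fun_prop)))
        (ContinuousAt.mul ?_ (by fun_prop)))) (by fun_prop)
      · exact hdx.continuousAt.div hcx.continuousAt q1
      · exact hdy.continuousAt.div hcy.continuousAt q3
      · exact ContinuousAt.div (by fun_prop) (by fun_prop) q2
    have hG0 : G 0 = 0 := by
      simp only [hG, wq, z5, hy0]
      simp
    have hT : Tendsto G (𝓝[>] 0) (𝓝 0) := by
      have := hGc.tendsto
      rw [hG0] at this
      exact this.mono_left nhdsWithin_le_nhds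
    refine hT.congr' ?_
    filter_upwards [hev] with s hs
    rw [hBt s]
    have hy1 : x s - y s ≠ 0 := (sub_pos.2 hs.2).ne'
    simp only [hG, wq]
    have e1 : (x s * y s) ^ (a + 1) * (x s ^ 2 - y s ^ 2) ^ (e + 1) *
        ((deriv x s - deriv y s) / (x s - y s)) =
        (x s * y s) ^ (a + 1) * (x s + y s) ^ (e + 1) * (x s - y s) ^ e *
          (deriv x s - deriv y s) := by
      have e2 : (x s ^ 2 - y s ^ 2) ^ (e + 1) = (x s + y s) ^ (e + 1) * ((x s - y s) ^ e *
          (x s - y s)) := by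
        rw [← pow_succ, ← mul_pow]
        congr 1
        ring
      rw [e2]
      field_simp
    rw [← e1]
    ring

end Pool.Agent.Work.MP_408f4b_gt.Q
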