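import Pool.Agent.Work.MP_408f4b_gt.Q.Stmts3

set_option autoImplicit false

namespace Pool.Agent.Work.MP_408f4b_gt.Q

open MeasureTheory Set Filter Topology

namespace JMain

theorem core {α β : ℝ} (hαβ : α < β) {w G I1 I2 I3 I4 I5 : ℝ → ℝ}
    (hw : ContinuousOn w (Icc α β)) (hw0 : ∀ s ∈ Icc α β, 0 ≤ w s)
    (hG : ContinuousOn G (Icc α β)) (h1 : ContinuousOn I1 (Icc α β))
    (h2 : ContinuousOn I2 (Icc α β)) (h3 : ContinuousOn I3 (Icc α β))
    (h4 : ContinuousOn I4 (Icc α β)) (h5 : ContinuousOn I5 (Icc α β))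
    (hle : ∀ s ∈ Icc α β, I1 s + I2 s + I3 s + I4 s + I5 s ≤ G s) :
    (∫ s in α..β, I1 s * w s) + (∫ s in α..β, I2 s * w s) + (∫ s in α..β, I3 s * w s)
      + (∫ s in α..β, I4 s * w s) + (∫ s in α..β, I5 s * w s) ≤ ∫ s in α..β, G s * w s := by
  have hi : ∀ F : ℝ → ℝ, ContinuousOn F (Icc α β) →
      IntervalIntegrable (fun s => F s * w s) volume α β := by
    intro F hF
    apply ContinuousOn.intervalIntegrable
    rw [uIcc_of_le hαβ.le]
    exact hF.mul hw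
  rw [← intervalIntegral.integral_add (hi _ h1) (hi _ h2),
    ← intervalIntegral.integral_add ((hi _ h1).add (hi _ h2)) (hi _ h3),
    ← intervalIntegral.integral_add (((hi _ h1).add (hi _ h2)).add (hi _ h3)) (hi _ h4),
    ← intervalIntegral.integral_add ((((hi _ h1).add (hi _ h2)).add (hi _ h3)).add (hi _ h4))
      (hi _ h5)]
  apply intervalIntegral.integral_mono_on hαβ.le
    (((((hi _ h1).add (hi _ h2)).add (hi _ h3)).add (hi _ h4)).add (hi _ h5)) (hi _ hG)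
  intro s hs
  have h6 := mul_le_mul_of_nonneg_right (hle s hs) (hw0 s hs)
  linarith [h6]

theorem pairA {V : Type} [NormedAddCommGroup V] [InnerProductSpace ℝ V] {n e : ℕ}
    (Φ : Frm V n e) (g : Φ.G) : Φ.Pair (Φ.A g Φ.a) (Φ.A g Φ.b) := by
  refine ⟨?_, ?_, ?_⟩
  · rw [LinearIsometry.norm_map]; exact Φ.ha
  · rw [LinearIsometry.norm_map]; exact Φ.hb
  · intro q
    rw [← Φ.comm, LinearIsometry.inner_map_map]
    exact Φ.hab q

section cop

variable {V W : Type} [NormedAddCommGroup V] [InnerProductSpace ℝ V] [CompleteSpace V]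
  [NormedAddCommGroup W] [InnerProductSpace ℝ W] [CompleteSpace W] {m n e : ℕ}

theorem cop_comp {h : ℝ → V → V → W → W → ℝ} (hh : Cop h)
    {F : V × V × W × W → V × V × W × W} (hF : Continuous F) :
    Cop (fun s r r' v v' => h s (F (r, r', v, v')).1 (F (r, r', v, v')).2.1
      (F (r, r', v, v')).2.2.1 (F (r, r', v, v')).2.2.2) := by
  have h1 : Continuous (fun z : ℝ × V × V × W × W => (z.1, F z.2)) := by fun_prop
  exact Continuous.comp (g := fun z : ℝ × V × V × W × W =>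
    h z.1 z.2.1 z.2.2.1 z.2.2.2.1 z.2.2.2.2) hh h1

theorem cop_s {h : ℝ → V → V → W → W → ℝ} (hh : Cop h) (s : ℝ) : Co (h s) := by
  have h1 : Continuous (fun z : V × V × W × W => (s, z)) := by fun_prop
  exact Continuous.comp (g := fun z : ℝ × V × V × W × W =>
    h z.1 z.2.1 z.2.2.1 z.2.2.2.1 z.2.2.2.2) hh h1

theorem cop_n1 {h : ℝ → V → V → W → W → ℝ} (hh : Cop h) :
    Cop (fun s r r' v v' => h s r r' (-v) v') :=
  cop_comp hh (F := fun z => (z.1, z.2.1, -z.2.2.1, z.2.2.2)) (by fun_prop)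

theorem cop_n2 {h : ℝ → V → V → W → W → ℝ} (hh : Cop h) :
    Cop (fun s r r' v v' => h s r r' v (-v')) :=
  cop_comp hh (F := fun z => (z.1, z.2.1, z.2.2.1, -z.2.2.2)) (by fun_prop)

theorem cop_n12 {h : ℝ → V → V → W → W → ℝ} (hh : Cop h) :
    Cop (fun s r r' v v' => h s r r' (-v) (-v')) :=
  cop_comp hh (F := fun z => (z.1, z.2.1, -z.2.2.1, -z.2.2.2)) (by fun_prop)

theorem cop_sw {h : ℝ → V → V → W → W → ℝ} (hh : Cop h) :
    Cop (fun s r r' v v' => h s r' r v' v) :=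
  cop_comp hh (F := fun z => (z.2.1, z.1, z.2.2.2, z.2.2.1)) (by fun_prop)

theorem cop_pOE {h : ℝ → V → V → W → W → ℝ} (hh : Cop h) : Cop (fun s => pOE (h s)) :=
  (((hh.sub (cop_n1 hh)).add (cop_n2 hh)).sub (cop_n12 hh)).div_const 4

theorem cop_pEO {h : ℝ → V → V → W → W → ℝ} (hh : Cop h) : Cop (fun s => pEO (h s)) :=
  (((hh.add (cop_n1 hh)).sub (cop_n2 hh)).sub (cop_n12 hh)).div_const 4

theorem cop_pOO {h : ℝ → V → V → W → W → ℝ} (hh : Cop h) : Cop (fun s => pOO (h s)) :=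
  (((hh.sub (cop_n1 hh)).sub (cop_n2 hh)).add (cop_n12 hh)).div_const 4

theorem cop_pEE {h : ℝ → V → V → W → W → ℝ} (hh : Cop h) : Cop (fun s => pEE (h s)) :=
  (((hh.add (cop_n1 hh)).add (cop_n2 hh)).add (cop_n12 hh)).div_const 4

theorem cop_pA (hA : clAv) (Ψ : Frm W n e) {h : ℝ → V → V → W → W → ℝ} (hh : Cop h) :
    Cop (fun s => pA Ψ (h s)) := by
  have h1 := (hA W n e Ψ).2.1 (ℝ × V × V) (fun p => h p.1 p.2.1 p.2.2) (by
    have h2 : Continuous (fun z : (ℝ × V × V) × W × W => (z.1.1, z.1.2.1, z.1.2.2, z.2.1, z.2.2)) := by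
      fun_prop
    exact Continuous.comp (g := fun z : ℝ × V × V × W × W =>
      h z.1 z.2.1 z.2.2.1 z.2.2.2.1 z.2.2.2.2) hh h2)
  have h3 : Continuous (fun z : ℝ × V × V × W × W => (z.1, z.2.1, z.2.2.1)) := by fun_prop
  exact Continuous.comp (g := fun p : ℝ × V × V => Ψ.av (h p.1 p.2.1 p.2.2)) h1 h3

end cop

end JMain

open JMain in
theorem prfMain (hEq : clEqn) (hV : clSecV) (hY : clSecY) (hR : clSecR) (hD : clSecD)
    (hE : clEv) (hF : clFub) (hPa : clPars) (hA : clAv) (hX : clFix) (hI : clInt)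
    (hTC : clTCl) (hTP : clTPt) : clMain := by
  intro V W M _ _ _ _ _ _ _ _ _ n e Φ Ψ T f α β x y hn hf hαβ hc
  obtain ⟨hx, hy, hcc⟩ := hc
  set a : ℕ := n - (e + 1) - 1 with ha
  have ha1 : 1 ≤ a := by omega
  have hb1 : 1 ≤ e + 1 := by omega
  have haR : (((n - (e + 1) : ℕ) : ℝ) - 1) = (a : ℝ) := by
    have h1 : n - (e + 1) = a + 1 := by omega
    rw [h1]; push_cast; ring
  have hnR : (2 * (n : ℝ) - 1) = 2 * (a : ℝ) + 2 * ((e + 1 : ℕ) : ℝ) + 1 := by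
    have h1 : n = a + 1 + (e + 1) := by omega
    rw [h1]; push_cast; ring
  have hcr : Crv a (e + 1) α β x y := ⟨hx, hy, hcc⟩
  have hxd : ∀ s, HasDerivAt x (deriv x s) s := fun s =>
    ((hx.differentiable (by norm_num)) s).hasDerivAt
  have hyd : ∀ s, HasDerivAt y (deriv y s) s := fun s =>
    ((hy.differentiable (by norm_num)) s).hasDerivAt
  have hxc : Continuous (deriv x) := hx.continuous_deriv (by norm_num)
  have hyc : Continuous (deriv y) := hy.continuous_deriv (by norm_num)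
  obtain ⟨hCl, hcur⟩ := hTC V W M _ n e Φ Ψ T f hf
  obtain ⟨hder, hcU, hcD, hcS⟩ := hcur x (deriv x) y (deriv y) hxd hyd hxc hyc
  set U : ℝ → V → V → W → W → ℝ := fun s => T.U f (x s) (y s) with hU
  set D : ℝ → V → V → W → W → ℝ := fun s => T.gT f (x s) (y s) (deriv x s) (deriv y s) with hDdef
  set S : ℝ → V → V → W → W → ℝ := fun s => T.gS f (x s) (y s) (deriv x s) (deriv y s) with hS
  have hder' : ∀ s r r' v v', HasDerivAt (fun t => U t r r' v v') (D s r r' v v') s := hder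
  -- the weight
  have hwcont : Continuous (wq a (e + 1) x y) := by
    unfold wq
    have := hx.continuous
    have := hy.continuous
    fun_prop
  have hw : ContinuousOn (wq a (e + 1) x y) (Icc α β) := hwcont.continuousOn
  have hwpos : ∀ s ∈ Icc α β, 0 < wq a (e + 1) x y s := fun s hs =>
    (hEq a (e + 1) α β x y ha1 hb1 hαβ hcr s hs).1
  -- the mean
  have hMd : ∀ s, HasDerivAt (fun t => Ev Φ Ψ (U t)) (Ev Φ Ψ (D s)) s :=
    (hF V W _ n e Φ Ψ U D hcU hcD).2.2 hder'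
  have hMc : Continuous (fun s => Ev Φ Ψ (U s)) := (hF V W _ n e Φ Ψ U D hcU hcD).1
  have hMc' : Continuous (fun s => Ev Φ Ψ (D s)) := (hF V W _ n e Φ Ψ D D hcD hcD).1
  -- the parts and their derivatives
  have dOE : ∀ s r r' v v', HasDerivAt (fun t => pOE (U t) r r' v v') (pOE (D s) r r' v v') s := by
    intro s r r' v v'
    exact ((((hder' s r r' v v').sub (hder' s r r' (-v) v')).add (hder' s r r' v (-v'))).sub
      (hder' s r r' (-v) (-v'))).div_const 4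
  have dEO : ∀ s r r' v v', HasDerivAt (fun t => sw (pEO (U t)) r r' v v')
      (sw (pEO (D s)) r r' v v') s := by
    intro s r r' v v'
    exact ((((hder' s r' r v' v).add (hder' s r' r (-v') v)).sub (hder' s r' r v' (-v))).sub
      (hder' s r' r (-v') (-v))).div_const 4
  have dOO : ∀ s r r' v v', HasDerivAt (fun t => pOO (U t) r r' v v') (pOO (D s) r r' v v') s := by
    intro s r r' v v'
    exact ((((hder' s r r' v v').sub (hder' s r r' (-v) v')).sub (hder' s r r' v (-v'))).add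
      (hder' s r r' (-v) (-v'))).div_const 4
  have dEE : ∀ s r r' v v', HasDerivAt (fun t => pEE (U t) r r' v v') (pEE (D s) r r' v v') s := by
    intro s r r' v v'
    exact ((((hder' s r r' v v').add (hder' s r r' (-v) v')).add (hder' s r r' v (-v'))).add
      (hder' s r r' (-v) (-v'))).div_const 4
  have dA : ∀ s r r' v v', HasDerivAt (fun t => pA Ψ (U t) r r' v v') (pA Ψ (D s) r r' v v') s := by
    intro s r r' v v'
    have h1 : ∀ h : ℝ → V → V → W → W → ℝ, Cop h →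
        Continuous (fun z : ℝ × W × W => h z.1 r r' z.2.1 z.2.2) := by
      intro h hh
      have h2 : Continuous (fun z : ℝ × W × W => (z.1, r, r', z.2.1, z.2.2)) := by fun_prop
      exact Continuous.comp (g := fun z : ℝ × V × V × W × W =>
        h z.1 z.2.1 z.2.2.1 z.2.2.2.1 z.2.2.2.2) hh h2
    exact (hA W n e Ψ).2.2 (fun t => U t r r') (fun t => D t r r') (h1 U hcU) (h1 D hcD)
      (fun t v v' => hder' t r r' v v') s
  have cOE := cop_pOE hcU
  have cOE' := cop_pOE hcD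
  have cEO : Cop (fun s => sw (pEO (U s))) := cop_sw (cop_pEO hcU)
  have cEO' : Cop (fun s => sw (pEO (D s))) := cop_sw (cop_pEO hcD)
  have cOO := cop_pOO hcU
  have cOO' := cop_pOO hcD
  have cA := cop_pA hA Ψ hcU
  have cA' := cop_pA hA Ψ hcD
  have cG : Cop (fun s r r' v v' => pEE (U s) r r' v v' - pA Ψ (U s) r r' v v') :=
    (cop_pEE hcU).sub cA
  have cG' : Cop (fun s r r' v v' => pEE (D s) r r' v v' - pA Ψ (D s) r r' v v') :=
    (cop_pEE hcD).sub cA'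
  have dG : ∀ s r r' v v', HasDerivAt (fun t => pEE (U t) r r' v v' - pA Ψ (U t) r r' v v')
      (pEE (D s) r r' v v' - pA Ψ (D s) r r' v v') s := fun s r r' v v' =>
    (dEE s r r' v v').sub (dA s r r' v v')
  have cM : Cop (fun s (r r' : V) (v v' : W) => pA Ψ (U s) r r' v v' - Ev Φ Ψ (U s)) :=
    cA.sub (hMc.comp continuous_fst)
  have cM' : Cop (fun s (r r' : V) (v v' : W) => pA Ψ (D s) r r' v v' - Ev Φ Ψ (D s)) :=
    cA'.sub (hMc'.comp continuous_fst)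
  have dM : ∀ s r r' v v', HasDerivAt (fun t => pA Ψ (U t) r r' v v' - Ev Φ Ψ (U t))
      (pA Ψ (D s) r r' v v' - Ev Φ Ψ (D s)) s := fun s r r' v v' =>
    (dA s r r' v v').sub (hMd s)
  -- squares
  have csq : ∀ h : ℝ → V → V → W → W → ℝ, Cop h →
      Cop (fun s r r' v v' => h s r r' v v' ^ 2) := fun h hh => hh.pow 2
  have Esq : ∀ h : ℝ → V → V → W → W → ℝ, Cop h →
      Continuous (fun s => Ev Φ Ψ (fun r r' v v' => h s r r' v v' ^ 2)) := fun h hh =>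
    (hF V W _ n e Φ Ψ _ _ (csq h hh) (csq h hh)).1
  -- variance of pA
  have hvar : ∀ h : ℝ → V → V → W → W → ℝ, Cop h → ∀ s,
      Ev Φ Ψ (fun r r' v v' => (pA Ψ (h s) r r' v v' - Ev Φ Ψ (h s)) ^ 2) =
      Ev Φ Ψ (fun r r' v v' => pA Ψ (h s) r r' v v' ^ 2) - Ev Φ Ψ (h s) ^ 2 := by
    intro h hh s
    obtain ⟨-, -, hm, -, -, -, -, hcA⟩ := hPa V W _ n e Φ Ψ (h s) (cop_s hh s)
    have hsq : Co (fun r r' v v' => pA Ψ (h s) r r' v v' ^ 2) := hcA.pow 2
    have hlin := (hE V W _ n e Φ Ψ _ _ hsq hcA).2.2.2.2.2.2.2.2.2.2.1 1 (-2 * Ev Φ Ψ (h s))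
    have hsum : Co (fun r r' v v' => 1 * pA Ψ (h s) r r' v v' ^ 2 +
        -2 * Ev Φ Ψ (h s) * pA Ψ (h s) r r' v v') :=
      (continuous_const.mul hsq).add (continuous_const.mul hcA)
    have hone : Co (fun (_ _ : V) (_ _ : W) => (1 : ℝ)) := continuous_const
    have hlin2 := (hE V W _ n e Φ Ψ _ _ hsum hone).2.2.2.2.2.2.2.2.2.2.1 1 (Ev Φ Ψ (h s) ^ 2)
    have hc1 := (hE V W _ n e Φ Ψ _ _ hone hone).2.2.2.2.2.2.2.2.2.2.2.2.2.1 1
    have hfun : (fun r r' v v' => (pA Ψ (h s) r r' v v' - Ev Φ Ψ (h s)) ^ 2) =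
        (fun r r' v v' => 1 * (1 * pA Ψ (h s) r r' v v' ^ 2 +
          -2 * Ev Φ Ψ (h s) * pA Ψ (h s) r r' v v') + Ev Φ Ψ (h s) ^ 2 * 1) := by
      funext r r' v v'; ring
    rw [hfun, hlin2, hlin, hc1, hm]
    ring
  -- potentials
  set p11 : ℝ → ℝ := fun s => (a : ℝ) / x s ^ 2 + ((e + 1 : ℕ) : ℝ) / (x s - y s) ^ 2 +
    ((e + 1 : ℕ) : ℝ) / (x s + y s) ^ 2 with hp11
  set p12 : ℝ → ℝ := fun s => -((e + 1 : ℕ) : ℝ) / (x s - y s) ^ 2 +
    ((e + 1 : ℕ) : ℝ) / (x s + y s) ^ 2 with hp12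
  set p22 : ℝ → ℝ := fun s => (a : ℝ) / y s ^ 2 + ((e + 1 : ℕ) : ℝ) / (x s - y s) ^ 2 +
    ((e + 1 : ℕ) : ℝ) / (x s + y s) ^ 2 with hp22
  set qY : ℝ → ℝ := fun s => (a : ℝ) / y s ^ 2 with hqY
  set qR : ℝ → ℝ := fun s => (2 * (a : ℝ) + 2 * ((e + 1 : ℕ) : ℝ) + 1) / (x s ^ 2 + y s ^ 2)
    with hqR
  set qD : ℝ → ℝ := fun s => 2 * ((e + 1 : ℕ) : ℝ) / (x s - y s) ^ 2 with hqD
  have hypos : ∀ s ∈ Icc α β, 0 < y s := fun s hs => (hcc s hs).1
  have hyx : ∀ s ∈ Icc α β, y s < x s := fun s hs => (hcc s hs).2.1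
  have nx : ∀ s ∈ Icc α β, x s ^ 2 ≠ 0 := fun s hs =>
    (pow_pos ((hypos s hs).trans (hyx s hs)) 2).ne'
  have ny : ∀ s ∈ Icc α β, y s ^ 2 ≠ 0 := fun s hs => (pow_pos (hypos s hs) 2).ne'
  have nm : ∀ s ∈ Icc α β, (x s - y s) ^ 2 ≠ 0 := fun s hs =>
    (pow_pos (sub_pos.2 (hyx s hs)) 2).ne'
  have np : ∀ s ∈ Icc α β, (x s + y s) ^ 2 ≠ 0 := fun s hs =>
    (pow_pos (add_pos ((hypos s hs).trans (hyx s hs)) (hypos s hs)) 2).ne'
  have nr : ∀ s ∈ Icc α β, x s ^ 2 + y s ^ 2 ≠ 0 := fun s hs => by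
    have h1 := hypos s hs
    positivity
  have cx : ContinuousOn x (Icc α β) := hx.continuous.continuousOn
  have cy : ContinuousOn y (Icc α β) := hy.continuous.continuousOn
  have k11 : ContinuousOn p11 (Icc α β) :=
    ((continuousOn_const.div (cx.pow 2) nx).add (continuousOn_const.div ((cx.sub cy).pow 2) nm)).add
      (continuousOn_const.div ((cx.add cy).pow 2) np)
  have k12 : ContinuousOn p12 (Icc α β) :=
    (continuousOn_const.div ((cx.sub cy).pow 2) nm).add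
      (continuousOn_const.div ((cx.add cy).pow 2) np)
  have k22 : ContinuousOn p22 (Icc α β) :=
    ((continuousOn_const.div (cy.pow 2) ny).add (continuousOn_const.div ((cx.sub cy).pow 2) nm)).add
      (continuousOn_const.div ((cx.add cy).pow 2) np)
  have kY : ContinuousOn qY (Icc α β) := continuousOn_const.div (cy.pow 2) ny
  have kR : ContinuousOn qR (Icc α β) :=
    continuousOn_const.div ((cx.pow 2).add (cy.pow 2)) nr
  have kD : ContinuousOn qD (Icc α β) := continuousOn_const.div ((cx.sub cy).pow 2) nm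
  -- the four sectors
  have sV := (hI V W _ n e Φ Ψ α β _ hαβ hw _ _ cOE cOE' dOE).2 _ _ cEO cEO' dEO p11 p12 p22
    _ _ _ _ k11 k12 k22 (hV a (e + 1) α β x y ha1 hb1 hαβ hcr)
  have sY := (hI V W _ n e Φ Ψ α β _ hαβ hw _ _ cOO cOO' dOO).1 qY _ _ kY
    (hY a (e + 1) α β x y ha1 hb1 hαβ hcr)
  have sR := (hI V W _ n e Φ Ψ α β _ hαβ hw _ _ cG cG' dG).1 qR _ _ kR
    (hR a (e + 1) α β x y ha1 hb1 hαβ hcr)
  have sD := (hI V W _ n e Φ Ψ α β _ hαβ hw _ _ cM cM' dM).1 qD _ _ kD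
    (hD a (e + 1) α β x y ha1 hb1 hαβ hcr)
  simp only [hvar U hcU, hvar D hcD] at sD
  -- the mixed term
  have cVP : ∀ s, Ev Φ Ψ (fun r r' v v' => p11 s * pOE (U s) r r' v v' ^ 2 +
        2 * p12 s * (pOE (U s) r r' v v' * sw (pEO (U s)) r r' v v') +
        p22 s * sw (pEO (U s)) r r' v v' ^ 2) =
      p11 s * Ev Φ Ψ (fun r r' v v' => pOE (U s) r r' v v' ^ 2) +
        2 * p12 s * Ev Φ Ψ (fun r r' v v' => pOE (U s) r r' v v' * sw (pEO (U s)) r r' v v') +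
        p22 s * Ev Φ Ψ (fun r r' v v' => sw (pEO (U s)) r r' v v' ^ 2) := by
    intro s
    have c1 : Co (fun r r' v v' => pOE (U s) r r' v v' ^ 2) := (cop_s cOE s).pow 2
    have c2 : Co (fun r r' v v' => pOE (U s) r r' v v' * sw (pEO (U s)) r r' v v') :=
      (cop_s cOE s).mul (cop_s cEO s)
    have c3 : Co (fun r r' v v' => sw (pEO (U s)) r r' v v' ^ 2) := (cop_s cEO s).pow 2
    have c4 : Co (fun r r' v v' => p11 s * pOE (U s) r r' v v' ^ 2 +
        2 * p12 s * (pOE (U s) r r' v v' * sw (pEO (U s)) r r' v v')) :=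
      (continuous_const.mul c1).add (continuous_const.mul c2)
    have l1 := (hE V W _ n e Φ Ψ _ _ c1 c2).2.2.2.2.2.2.2.2.2.2.1 (p11 s) (2 * p12 s)
    have l2 := (hE V W _ n e Φ Ψ _ _ c4 c3).2.2.2.2.2.2.2.2.2.2.1 1 (p22 s)
    simp only [one_mul] at l2
    rw [l2, l1]
  have cross : Continuous (fun s => Ev Φ Ψ (fun r r' v v' =>
      pOE (U s) r r' v v' * sw (pEO (U s)) r r' v v')) := by
    have h1 : Cop (fun s r r' v v' => pOE (U s) r r' v v' * sw (pEO (U s)) r r' v v') :=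
      cOE.mul cEO
    exact (hF V W _ n e Φ Ψ _ _ h1 h1).1
  -- pointwise inequality
  have key : ∀ s ∈ Icc α β,
      (Ev Φ Ψ (fun r r' v v' => pOE (D s) r r' v v' ^ 2) +
        Ev Φ Ψ (fun r r' v v' => sw (pEO (D s)) r r' v v' ^ 2) +
        Ev Φ Ψ (fun r r' v v' => p11 s * pOE (U s) r r' v v' ^ 2 +
          2 * p12 s * (pOE (U s) r r' v v' * sw (pEO (U s)) r r' v v') +
          p22 s * sw (pEO (U s)) r r' v v' ^ 2)) +
      (Ev Φ Ψ (fun r r' v v' => pOO (D s) r r' v v' ^ 2) +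
        qY s * Ev Φ Ψ (fun r r' v v' => pOO (U s) r r' v v' ^ 2)) +
      (Ev Φ Ψ (fun r r' v v' => (pEE (D s) r r' v v' - pA Ψ (D s) r r' v v') ^ 2) +
        qR s * Ev Φ Ψ (fun r r' v v' => (pEE (U s) r r' v v' - pA Ψ (U s) r r' v v') ^ 2)) +
      ((Ev Φ Ψ (fun r r' v v' => pA Ψ (D s) r r' v v' ^ 2) - Ev Φ Ψ (D s) ^ 2) +
        qD s * (Ev Φ Ψ (fun r r' v v' => pA Ψ (U s) r r' v v' ^ 2) - Ev Φ Ψ (U s) ^ 2)) +
      Ev Φ Ψ (D s) ^ 2 ≤ Ev Φ Ψ (S s) := by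
    intro s hs
    obtain ⟨h0, h1, h2, h3⟩ := hcc s hs
    have e1 := (hPa V W _ n e Φ Ψ (D s) (cop_s hcD s)).1
    have e2 := hX V W n e Φ Ψ (U s) (x s) (y s) (hCl (x s) (y s)) hn h0 h1
    have e3 : Ev Φ Ψ (S s) = Ev Φ Ψ (fun r r' v v' => D s r r' v v' ^ 2) +
        Ev Φ Ψ (eD Φ Ψ (x s) (y s) (U s)) := by
      have cS := cop_s hcS s
      have cD2 : Co (fun r r' v v' => D s r r' v v' ^ 2) := (cop_s hcD s).pow 2
      have l1 := (hE V W _ n e Φ Ψ _ _ cS cD2).2.2.2.2.2.2.2.2.2.2.1 1 (-1)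
      have e4 : Ev Φ Ψ (eD Φ Ψ (x s) (y s) (U s)) =
          Ev Φ Ψ (fun r r' v v' => 1 * S s r r' v v' + -1 * D s r r' v v' ^ 2) := by
        unfold Ev Frm.av
        congr 1
        funext R
        congr 1
        funext g
        have h5 := (hTP V W M _ n e Φ Ψ T f hf).1 (x s) (y s) (deriv x s) (deriv y s)
          (Φ.A R Φ.a) (Φ.A R Φ.b) (Ψ.A g Ψ.a) (Ψ.A g Ψ.b) h0 h1 h2 (pairA Φ R) (pairA Ψ g)
        simp only [hS, hDdef, hU]
        rw [h5]; ring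
      rw [e4, l1]; ring
    have e5 : Ev Φ Ψ (fun r r' v v' =>
        (((n - (e + 1) : ℕ) : ℝ) - 1) * (pOE (U s) r r' v v' ^ 2 / x s ^ 2) +
        (((n - (e + 1) : ℕ) : ℝ) - 1) * (sw (pEO (U s)) r r' v v' ^ 2 / y s ^ 2) +
        ((e : ℝ) + 1) * ((pOE (U s) r r' v v' - sw (pEO (U s)) r r' v v') ^ 2 / (x s - y s) ^ 2) +
        ((e : ℝ) + 1) * ((pOE (U s) r r' v v' + sw (pEO (U s)) r r' v v') ^ 2 / (x s + y s) ^ 2)) =
        Ev Φ Ψ (fun r r' v v' => p11 s * pOE (U s) r r' v v' ^ 2 +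
          2 * p12 s * (pOE (U s) r r' v v' * sw (pEO (U s)) r r' v v') +
          p22 s * sw (pEO (U s)) r r' v v' ^ 2) := by
      congr 1
      funext r r' v v'
      rw [haR]
      simp only [hp11, hp12, hp22]
      push_cast
      ring
    rw [e5, haR, hnR] at e2
    have e6 : ((e : ℝ) + 1) = ((e + 1 : ℕ) : ℝ) := by push_cast; ring
    rw [e6] at e2
    rw [e3, e1]
    simp only [hqY, hqR, hqD]
    linarith [e2]
  -- integration
  have hfin := core hαβ hw (fun s hs => (hwpos s hs).le)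
    (G := fun s => Ev Φ Ψ (S s))
    (hF V W _ n e Φ Ψ S S hcS hcS).1.continuousOn
    (I1 := fun s => Ev Φ Ψ (fun r r' v v' => pOE (D s) r r' v v' ^ 2) +
        Ev Φ Ψ (fun r r' v v' => sw (pEO (D s)) r r' v v' ^ 2) +
        Ev Φ Ψ (fun r r' v v' => p11 s * pOE (U s) r r' v v' ^ 2 +
          2 * p12 s * (pOE (U s) r r' v v' * sw (pEO (U s)) r r' v v') +
          p22 s * sw (pEO (U s)) r r' v v' ^ 2))
    (by
      simp only [cVP]
      exact ((Esq _ cOE').continuousOn.add (Esq _ cEO').continuousOn).add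
        (((k11.mul (Esq _ cOE).continuousOn).add
          ((continuousOn_const.mul k12).mul cross.continuousOn)).add
          (k22.mul (Esq _ cEO).continuousOn)))
    (I2 := fun s => Ev Φ Ψ (fun r r' v v' => pOO (D s) r r' v v' ^ 2) +
        qY s * Ev Φ Ψ (fun r r' v v' => pOO (U s) r r' v v' ^ 2))
    ((Esq _ cOO').continuousOn.add (kY.mul (Esq _ cOO).continuousOn))
    (I3 := fun s => Ev Φ Ψ (fun r r' v v' => (pEE (D s) r r' v v' - pA Ψ (D s) r r' v v') ^ 2) +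
        qR s * Ev Φ Ψ (fun r r' v v' => (pEE (U s) r r' v v' - pA Ψ (U s) r r' v v') ^ 2))
    ((Esq _ cG').continuousOn.add (kR.mul (Esq _ cG).continuousOn))
    (I4 := fun s => (Ev Φ Ψ (fun r r' v v' => pA Ψ (D s) r r' v v' ^ 2) - Ev Φ Ψ (D s) ^ 2) +
        qD s * (Ev Φ Ψ (fun r r' v v' => pA Ψ (U s) r r' v v' ^ 2) - Ev Φ Ψ (U s) ^ 2))
    (((Esq _ cA').continuousOn.sub (hMc'.continuousOn.pow 2)).add
      (kD.mul ((Esq _ cA).continuousOn.sub (hMc.continuousOn.pow 2))))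
    (I5 := fun s => Ev Φ Ψ (D s) ^ 2)
    (hMc'.continuousOn.pow 2) key
  have hBt : ∀ s, Bt T f x y s =
      (Ev Φ Ψ (fun r r' v v' => pOE (U s) r r' v v' ^ 2) * (deriv x s / x s * wq a (e + 1) x y s) +
      Ev Φ Ψ (fun r r' v v' => sw (pEO (U s)) r r' v v' ^ 2) *
        (deriv y s / y s * wq a (e + 1) x y s)) +
      Ev Φ Ψ (fun r r' v v' => pOO (U s) r r' v v' ^ 2) * (deriv y s / y s * wq a (e + 1) x y s) +
      Ev Φ Ψ (fun r r' v v' => (pEE (U s) r r' v v' - pA Ψ (U s) r r' v v') ^ 2) *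
        ((x s * deriv x s + y s * deriv y s) / (x s ^ 2 + y s ^ 2) * wq a (e + 1) x y s) +
      (Ev Φ Ψ (fun r r' v v' => pA Ψ (U s) r r' v v' ^ 2) - Ev Φ Ψ (U s) ^ 2) *
        ((deriv x s - deriv y s) / (x s - y s) * wq a (e + 1) x y s) := by
    intro s
    unfold Bt
    simp only [hU, ha]
    ring
  rw [hBt β, hBt α]
  refine le_trans ?_ hfin
  linarith [sV, sY, sR, sD]

end Pool.Agent.Work.MP_408f4b_gt.Q
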