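import Pool.Agent.Work.MP_408f4b_gt.Q.Stmts3

set_option autoImplicit false

namespace Pool.Agent.Work.MP_408f4b_gt.Q

open MeasureTheory Set Filter Topology

namespace JMom

theorem inv {n : ℕ} (hS : clSig) (T : E n ≃ₗᵢ[ℝ] E n) (x : E n) :
    ∫ u : Sph n, (inner ℝ (T x) (u : E n)) ^ 2 ∂sig n =
      ∫ u : Sph n, (inner ℝ x (u : E n)) ^ 2 ∂sig n := by
  have h := hS n T.toLinearIsometry (fun u => (inner ℝ (T x) u) ^ 2) (by fun_prop)
  rw [← h]
  refine integral_congr_ae (Eventually.of_forall fun u => ?_)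
  show (inner ℝ (T x) (T (u : E n))) ^ 2 = _
  rw [T.inner_map_map]

theorem unit_eq {n : ℕ} (hS : clSig) (x y : E n) (hx : ‖x‖ = 1) (hy : ‖y‖ = 1) :
    ∫ u : Sph n, (inner ℝ x (u : E n)) ^ 2 ∂sig n =
      ∫ u : Sph n, (inner ℝ y (u : E n)) ^ 2 ∂sig n := by
  have h := inv hS ((ℝ ∙ (y - x))ᗮ.reflection) y
  rw [Submodule.reflection_sub (by rw [hx, hy])] at h
  exact h

theorem cont_sq {n : ℕ} (x : E n) :
    Continuous (fun u : Sph n => (inner ℝ x (u : E n)) ^ 2) := by
  fun_prop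

theorem integrable_sph {n : ℕ} {f : Sph n → ℝ} (hf : Continuous f) : Integrable f (sig n) := by
  unfold sig
  exact hf.integrable_of_hasCompactSupport (HasCompactSupport.of_compactSpace f)

theorem sph {n : ℕ} (hn : 1 ≤ n) (hS : clSig) (x : E n) :
    ∫ u : Sph n, (inner ℝ x (u : E n)) ^ 2 ∂sig n = ‖x‖ ^ 2 * ((sig n).real univ / n) := by
  have i0 : Fin n := ⟨0, hn⟩
  set b := EuclideanSpace.basisFun (Fin n) ℝ with hb
  have hbn : ∀ i, ‖b i‖ = 1 := fun i => b.orthonormal.1 i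
  have hsum : ∑ i, ∫ u : Sph n, (inner ℝ (b i) (u : E n)) ^ 2 ∂sig n = (sig n).real univ := by
    rw [← integral_finset_sum]
    · have h1 : ∀ u : Sph n, ∑ i, (inner ℝ (b i) (u : E n)) ^ 2 = 1 := by
        intro u
        have h2 := b.sum_sq_norm_inner_right (u : E n)
        have h3 : ‖(u : E n)‖ = 1 := by simpa using u.2
        rw [h3] at h2
        simpa [Real.norm_eq_abs, sq_abs] using h2
      rw [integral_congr_ae (Eventually.of_forall h1)]
      simp
    · intro i _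
      exact integrable_sph (cont_sq (b i))
  have hall : ∀ i, ∫ u : Sph n, (inner ℝ (b i) (u : E n)) ^ 2 ∂sig n =
      ∫ u : Sph n, (inner ℝ (b i0) (u : E n)) ^ 2 ∂sig n := fun i =>
    unit_eq hS _ _ (hbn i) (hbn i0)
  have hn0 : (n : ℝ) ≠ 0 := by positivity
  have hval : ∫ u : Sph n, (inner ℝ (b i0) (u : E n)) ^ 2 ∂sig n = (sig n).real univ / n := by
    rw [Finset.sum_congr rfl (fun i _ => hall i)] at hsum
    simp only [Finset.sum_const, Finset.card_univ, Fintype.card_fin, nsmul_eq_mul] at hsum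
    field_simp
    linarith
  rcases eq_or_ne x 0 with rfl | hx
  · simp
  · have hx0 : ‖x‖ ≠ 0 := norm_ne_zero_iff.2 hx
    have h1 : ‖(‖x‖⁻¹ • x)‖ = 1 := by
      rw [norm_smul, norm_inv, norm_norm, inv_mul_cancel₀ hx0]
    have h2 := unit_eq hS _ _ h1 (hbn i0)
    rw [hval] at h2
    rw [← h2, ← integral_const_mul]
    refine integral_congr_ae (Eventually.of_forall fun u => ?_)
    simp only [real_inner_smul_left]
    field_simp

theorem sph_pos {n : ℕ} (hn : 1 ≤ n) : (sig n).real univ ≠ 0 := by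
  have : Nonempty (Fin n) := ⟨⟨0, hn⟩⟩
  have : Nontrivial (E n) := inferInstance
  unfold sig
  rw [Measure.real, Measure.toSphere_apply_univ]
  rw [ENNReal.toReal_mul]
  refine mul_ne_zero ?_ ?_
  · simp
    omega
  · refine (ENNReal.toReal_pos ?_ ?_).ne'
    · exact (Metric.measure_ball_pos volume _ one_pos).ne'
    · exact measure_ball_lt_top.ne

section

variable {V W M : Type} [NormedAddCommGroup V] [InnerProductSpace ℝ V] [CompleteSpace V]
  [NormedAddCommGroup W] [InnerProductSpace ℝ W] [CompleteSpace W]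
  [NormedAddCommGroup M] [InnerProductSpace ℝ M] [CompleteSpace M] {m n e : ℕ}
  {Φ : Frm V m e} {Ψ : Frm W n e}

/-- the average of the square of a linear function -/
theorem av_sq (hS : clSig) (hU : clUnif) (p p' : W) :
    Ψ.av (fun v _ => (inner ℝ p v) ^ 2 + (inner ℝ p' v) ^ 2) =
      (‖p‖ ^ 2 + ‖p'‖ ^ 2) / n := by
  have hn : 1 ≤ n := by have := Ψ.le; omega
  have key : ∀ p : W, ∫ u : Sph n, (inner ℝ p (Ψ.L (u : E n))) ^ 2 ∂sig n =
      ‖p‖ ^ 2 * ((sig n).real univ / n) := by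
    intro p
    have h := sph hn hS (Ψ.L.symm p)
    rw [Ψ.L.symm.norm_map] at h
    rw [← h]
    refine integral_congr_ae (Eventually.of_forall fun u => ?_)
    simp only
    rw [← Ψ.L.inner_map_map, Ψ.L.apply_symm_apply]
  rw [hU W n e Ψ (fun v => (inner ℝ p v) ^ 2 + (inner ℝ p' v) ^ 2) (by fun_prop)]
  rw [integral_add, key, key]
  · have h0 := sph_pos hn
    have hn0 : (n : ℝ) ≠ 0 := by positivity
    field_simp
  · exact integrable_sph (by fun_prop)
  · exact integrable_sph (by fun_prop)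

end

end JMom

open JMom in
theorem prfMom (hA : clAv) (hP : clPair) (hS : clSig) (hU : clUnif) (hE : clEv) (hB : clTB) :
    clMom := by
  intro V W M _ _ _ _ _ _ _ _ _ m n e Φ Ψ T X₀ x y
  have hBc : Continuous (fun z : V × W => T.B z.1 z.2) := (hB V W M m n e Φ Ψ T).1.continuous
  have hn : 1 ≤ n := by have := Ψ.le; omega
  have hneg : ∀ (r : V) (v : W), T.B r (-v) = -T.B r v := by
    intro r v
    have h := T.smul_r (-1) r v
    simpa using h
  have hzero : ∀ r : V, T.B r 0 = 0 := by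
    intro r
    have h := T.smul_r 0 r 0
    simpa using h
  -- the bilinear functions
  set A : V → V → W → W → ℝ := fun r _ v _ => inner ℝ X₀ (T.B r v) with hAdef
  set B' : V → V → W → W → ℝ := fun _ r' _ v' => inner ℝ X₀ (T.B r' v') with hBdef
  have cA : Co A := by
    show Continuous (fun z : V × V × W × W => inner ℝ X₀ (T.B z.1 z.2.2.1))
    exact continuous_const.inner (hBc.comp (by fun_prop : Continuous
      (fun z : V × V × W × W => (z.1, z.2.2.1))))
  have cB : Co B' := by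
    show Continuous (fun z : V × V × W × W => inner ℝ X₀ (T.B z.2.1 z.2.2.2))
    exact continuous_const.inner (hBc.comp (by fun_prop : Continuous
      (fun z : V × V × W × W => (z.2.1, z.2.2.2))))
  have cAA : Co (fun r r' v v' => A r r' v v' ^ 2) := cA.pow 2
  have cBB : Co (fun r r' v v' => B' r r' v v' ^ 2) := cB.pow 2
  have cAB : Co (fun r r' v v' => A r r' v v' * B' r r' v v') := cA.mul cB
  have hlin : ∀ (U U₂ : V → V → W → W → ℝ), Co U → Co U₂ → ∀ c d : ℝ,
      Ev Φ Ψ (fun r r' v v' => c * U r r' v v' + d * U₂ r r' v v') =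
        c * Ev Φ Ψ U + d * Ev Φ Ψ U₂ := fun U U₂ h1 h2 =>
    (hE V W m n e Φ Ψ U U₂ h1 h2).2.2.2.2.2.2.2.2.2.2.1
  have hs1 : ∀ (U : V → V → W → W → ℝ), Co U → Ev Φ Ψ (s1 U) = Ev Φ Ψ U := fun U h =>
    (hE V W m n e Φ Ψ U U h h).2.2.2.2.2.2.2.1
  have hs2 : ∀ (U : V → V → W → W → ℝ), Co U → Ev Φ Ψ (s2 U) = Ev Φ Ψ U := fun U h =>
    (hE V W m n e Φ Ψ U U h h).2.2.2.2.2.2.2.2.1
  have hx1 : ∀ (U : V → V → W → W → ℝ), Co U → Ev Φ Ψ (fun r r' v v' => U r' r v v') = Ev Φ Ψ U :=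
    fun U h => (hE V W m n e Φ Ψ U U h h).2.2.2.2.2.1
  have hx2 : ∀ (U : V → V → W → W → ℝ), Co U → Ev Φ Ψ (fun r r' v v' => U r r' v' v) = Ev Φ Ψ U :=
    fun U h => (hE V W m n e Φ Ψ U U h h).2.2.2.2.2.2.1
  have hodd : ∀ (U : V → V → W → W → ℝ), Co U → Ev Φ Ψ (fun r r' v v' => -U r r' v v') =
      -Ev Φ Ψ U := by
    intro U h
    have h1 := hlin U U h h (-1) 0
    simpa using h1
  have eA : Ev Φ Ψ A = 0 := by
    have h1 := hs1 A cA
    have h2 : s1 A = fun r r' v v' => -A r r' v v' := by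
      funext r r' v v'
      simp [s1, hAdef, hneg]
    rw [h2, hodd A cA] at h1
    linarith
  have eB : Ev Φ Ψ B' = 0 := by
    have h1 := hs2 B' cB
    have h2 : s2 B' = fun r r' v v' => -B' r r' v v' := by
      funext r r' v v'
      simp [s2, hBdef, hneg]
    rw [h2, hodd B' cB] at h1
    linarith
  have eAB : Ev Φ Ψ (fun r r' v v' => A r r' v v' * B' r r' v v') = 0 := by
    have h1 := hs1 _ cAB
    have h2 : s1 (fun r r' v v' => A r r' v v' * B' r r' v v') =
        fun r r' v v' => -(A r r' v v' * B' r r' v v') := by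
      funext r r' v v'
      simp [s1, hAdef, hBdef, hneg]
    rw [h2, hodd _ cAB] at h1
    linarith
  -- `ℓ(r', v)`
  set A' : V → V → W → W → ℝ := fun _ r' v _ => inner ℝ X₀ (T.B r' v) with hA'def
  have cA' : Co A' := by
    show Continuous (fun z : V × V × W × W => inner ℝ X₀ (T.B z.2.1 z.2.2.1))
    exact continuous_const.inner (hBc.comp (by fun_prop : Continuous
      (fun z : V × V × W × W => (z.2.1, z.2.2.1))))
  have cAA' : Co (fun r r' v v' => A' r r' v v' ^ 2) := cA'.pow 2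
  have eA' : Ev Φ Ψ (fun r r' v v' => A' r r' v v' ^ 2) =
      Ev Φ Ψ (fun r r' v v' => A r r' v v' ^ 2) := hx1 _ cAA
  have eBB : Ev Φ Ψ (fun r r' v v' => B' r r' v v' ^ 2) =
      Ev Φ Ψ (fun r r' v v' => A r r' v v' ^ 2) := by
    rw [← eA']
    exact hx2 _ cAA'
  have hsum : Ev Φ Ψ (fun r r' v v' => 1 * A r r' v v' ^ 2 + 1 * A' r r' v v' ^ 2) =
      ‖X₀‖ ^ 2 / n := by
    have hav : ∀ r r', Φ.Pair r r' → Ψ.av (fun v v' => 1 * A r r' v v' ^ 2 + 1 * A' r r' v v' ^ 2) =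
        ‖X₀‖ ^ 2 / n := by
      intro r r' hr
      obtain ⟨p, p', hp⟩ := T.surj r r' hr X₀
      have h1 : ∀ v, inner ℝ X₀ (T.B r v) = inner ℝ p v := by
        intro v
        have h := T.iso r r' hr p p' v 0
        rw [← hp, hzero, add_zero, inner_zero_right, add_zero] at h
        exact h
      have h2 : ∀ v, inner ℝ X₀ (T.B r' v) = inner ℝ p' v := by
        intro v
        have h := T.iso r r' hr p p' 0 v
        rw [← hp, hzero, zero_add, inner_zero_right, zero_add] at h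
        exact h
      have h3 : ‖X₀‖ ^ 2 = ‖p‖ ^ 2 + ‖p'‖ ^ 2 := by
        have h := T.iso r r' hr p p' p p'
        rw [← hp, real_inner_self_eq_norm_sq, real_inner_self_eq_norm_sq,
          real_inner_self_eq_norm_sq] at h
        exact h
      rw [h3, ← av_sq (Ψ := Ψ) hS hU p p']
      congr 1
      funext v v'
      simp only [hAdef, hA'def, h1, h2, one_mul]
    have hbase : Φ.Pair Φ.a Φ.b := ⟨Φ.ha, Φ.hb, Φ.hab⟩
    have hpg : ∀ g, Φ.Pair (Φ.A g Φ.a) (Φ.A g Φ.b) :=
      ((hP V m e Φ).2.2.1 Φ.a Φ.b hbase).2.2.2.2.1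
    show ∫ R, Ψ.av ((fun r r' v v' => 1 * A r r' v v' ^ 2 + 1 * A' r r' v v' ^ 2)
      (Φ.A R Φ.a) (Φ.A R Φ.b)) ∂Φ.μ = _
    rw [integral_congr_ae (Eventually.of_forall fun R => hav _ _ (hpg R))]
    simp
  rw [hlin _ _ cAA cAA' 1 1, eA', one_mul] at hsum
  refine ⟨?_, ?_⟩
  · have h1 : (fun r r' v v' => inner ℝ X₀ (T.X x y r r' v v')) =
        fun r r' v v' => x * A r r' v v' + y * B' r r' v v' := by
      funext r r' v v'
      simp only [hAdef, hBdef, Tns.X, inner_add_right, real_inner_smul_right]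
    rw [h1, hlin A B' cA cB, eA, eB]
    ring
  · have h1 : (fun r r' v v' => (inner ℝ X₀ (T.X x y r r' v v')) ^ 2) =
        fun r r' v v' => 1 * (x ^ 2 * A r r' v v' ^ 2 + y ^ 2 * B' r r' v v' ^ 2) +
          (2 * x * y) * (A r r' v v' * B' r r' v v') := by
      funext r r' v v'
      simp only [hAdef, hBdef, Tns.X, inner_add_right, real_inner_smul_right]
      ring
    have c1 : Co (fun r r' v v' => x ^ 2 * A r r' v v' ^ 2 + y ^ 2 * B' r r' v v' ^ 2) :=
      (continuous_const.mul cAA).add (continuous_const.mul cBB)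
    rw [h1, hlin _ _ c1 cAB, hlin _ _ cAA cBB, eAB, eBB]
    have hn0 : (n : ℝ) ≠ 0 := by positivity
    have h2 : Ev Φ Ψ (fun r r' v v' => A r r' v v' ^ 2) = ‖X₀‖ ^ 2 / (2 * n) := by
      field_simp
      field_simp at hsum
      linarith
    rw [h2]
    ring

end Pool.Agent.Work.MP_408f4b_gt.Q
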