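import Pool.Agent.Work.MP_408f4b_gt.Q.Stmts3

set_option autoImplicit false

/-!
# Item N12: the part of a given parity in one of the vectors
-/

namespace Pool.Agent.Work.MP_408f4b_gt.Q

open MeasureTheory Set Filter Topology

namespace JN12

section

variable {V W : Type} [NormedAddCommGroup V] [InnerProductSpace ℝ V] [CompleteSpace V]
  [NormedAddCommGroup W] [InnerProductSpace ℝ W] [CompleteSpace W] {m n e : ℕ}
  {Φ : Frm V m e} {Ψ : Frm W n e} {U U₂ : V → V → W → W → ℝ}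

theorem ev_s1 (hE : clEv) (hU : Co U) : Ev Φ Ψ (s1 U) = Ev Φ Ψ U :=
  (hE V W m n e Φ Ψ U U hU hU).2.2.2.2.2.2.2.1

theorem ev_s2 (hE : clEv) (hU : Co U) : Ev Φ Ψ (s2 U) = Ev Φ Ψ U :=
  (hE V W m n e Φ Ψ U U hU hU).2.2.2.2.2.2.2.2.1

theorem ev_lin (hE : clEv) (hU : Co U) (hU₂ : Co U₂) (c d : ℝ) :
    Ev Φ Ψ (fun r r' v v' => c * U r r' v v' + d * U₂ r r' v v') =
      c * Ev Φ Ψ U + d * Ev Φ Ψ U₂ :=
  (hE V W m n e Φ Ψ U U₂ hU hU₂).2.2.2.2.2.2.2.2.2.2.1 c d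

theorem ev_mono (hE : clEv) (hU : Co U) (hU₂ : Co U₂)
    (h : ∀ r r' v v', Φ.Pair r r' → Ψ.Pair v v' → U r r' v v' ≤ U₂ r r' v v') :
    Ev Φ Ψ U ≤ Ev Φ Ψ U₂ :=
  (hE V W m n e Φ Ψ U U₂ hU hU₂).2.2.2.2.2.2.2.2.2.2.2.1 h

theorem ev_const (hE : clEv) (c : ℝ) : Ev Φ Ψ (fun _ _ _ _ => c) = c :=
  (hE V W m n e Φ Ψ (fun _ _ _ _ => 0) (fun _ _ _ _ => 0) continuous_const
    continuous_const).2.2.2.2.2.2.2.2.2.2.2.2.2.1 c

theorem ev_fst (hE : clEv) (φ : V → V → ℝ) : Ev Φ Ψ (fun r r' _ _ => φ r r') = Φ.av φ :=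
  (hE V W m n e Φ Ψ (fun _ _ _ _ => 0) (fun _ _ _ _ => 0) continuous_const
    continuous_const).2.2.2.2.2.2.2.2.2.2.2.2.2.2.1 φ

theorem ev_eq (hE : clEv) (hU : Co U) : Ev Φ Ψ U = Φ.av (fun r r' => Ψ.av (U r r')) :=
  (hE V W m n e Φ Ψ U U hU hU).2.2.2.1

theorem co_av (hE : clEv) (Φ : Frm V m e) (Ψ : Frm W n e) (hU : Co U) :
    Co (fun (r r' : V) (_ _ : W) => Ψ.av (U r r')) := by
  have h := (hE V W m n e Φ Ψ U U hU hU).2.2.1
  exact h.comp (continuous_fst.prodMk (continuous_fst.comp continuous_snd))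

theorem ev_av_mono (hE : clEv) (hU : Co U) (hU₂ : Co U₂)
    (h : ∀ r r', Ψ.av (U r r') ≤ Ψ.av (U₂ r r')) : Ev Φ Ψ U ≤ Ev Φ Ψ U₂ := by
  have h1 : Ev Φ Ψ (fun r r' _ _ => Ψ.av (U r r')) ≤ Ev Φ Ψ (fun r r' _ _ => Ψ.av (U₂ r r')) :=
    ev_mono hE (co_av hE Φ Ψ hU) (co_av hE Φ Ψ hU₂) (fun r r' _ _ _ _ => h r r')
  rw [ev_fst hE, ev_fst hE, ← ev_eq hE hU, ← ev_eq hE hU₂] at h1
  exact h1

theorem c1_sec (hU : C1 U) (r r' : V) : ContDiff ℝ 1 (fun z : W × W => U r r' z.1 z.2) := by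
  have h : ContDiff ℝ 1 (fun z : W × W => ((r, r', z.1, z.2) : V × V × W × W)) :=
    contDiff_const.prodMk (contDiff_const.prodMk (contDiff_fst.prodMk contDiff_snd))
  exact ContDiff.comp (g := fun z : V × V × W × W => U z.1 z.2.1 z.2.2.1 z.2.2.2) hU h

theorem co_sq (hU : Co U) : Co (fun r r' v v' => U r r' v v' ^ 2) := Continuous.pow hU 2

theorem co_n1 (hD : clDR) (Φ : Frm V m e) (Ψ : Frm W n e) (hU : C1 U) :
    Co (fun r r' v v' => Ψ.n1 (U r r') v v') := (hD V W m n e Φ Ψ U U hU hU).2.1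

theorem co_n2 (hD : clDR) (Φ : Frm V m e) (Ψ : Frm W n e) (hU : C1 U) :
    Co (fun r r' v v' => Ψ.n2 (U r r') v v') := (hD V W m n e Φ Ψ U U hU hU).2.2.1

theorem par (hD : clDR) (Φ : Frm V m e) (Ψ : Frm W n e) (hU : C1 U) (hU₂ : C1 U₂) :
    ∀ (r r' : V) (v v' : W),
    Ψ.n1 (fun v v' => U r r' v v' + U₂ r r' v v') v v' +
      Ψ.n1 (fun v v' => U r r' v v' - U₂ r r' v v') v v' =
      2 * Ψ.n1 (U r r') v v' + 2 * Ψ.n1 (U₂ r r') v v' ∧
    Ψ.n2 (fun v v' => U r r' v v' + U₂ r r' v v') v v' +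
      Ψ.n2 (fun v v' => U r r' v v' - U₂ r r' v v') v v' =
      2 * Ψ.n2 (U r r') v v' + 2 * Ψ.n2 (U₂ r r') v v' ∧
    ∀ c : ℝ, Ψ.n1 (fun v v' => c * U r r' v v') v v' = c ^ 2 * Ψ.n1 (U r r') v v' ∧
      Ψ.n2 (fun v v' => c * U r r' v v') v v' = c ^ 2 * Ψ.n2 (U r r') v v' :=
  (hD V W m n e Φ Ψ U U₂ hU hU₂).2.2.2.2.2.2.1

theorem split1 (hDe : clDer) (hE : clEv) (hD : clDR) (hU : C1 U) (hs : C1 (s1 U))
    {A B : V → V → W → W → ℝ} (hA : C1 A) (hB : C1 B)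
    (hab : ∀ r r' v v', A r r' v v' + B r r' v v' = U r r' v v')
    (hab' : ∀ r r' v v', A r r' v v' - B r r' v v' = (-1) * s1 U r r' v v') :
    Ev Φ Ψ (fun r r' v v' => Ψ.n1 (U r r') v v') =
      Ev Φ Ψ (fun r r' v v' => Ψ.n1 (A r r') v v') +
        Ev Φ Ψ (fun r r' v v' => Ψ.n1 (B r r') v v') := by
  have hcU := co_n1 hD Φ Ψ hU
  have hcs : Co (s1 (fun r r' v v' => Ψ.n1 (U r r') v v')) := by
    have h1 : Continuous (fun z : V × V × W × W => ((z.1, z.2.1, -z.2.2.1, z.2.2.2) :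
        V × V × W × W)) := by fun_prop
    exact hcU.comp h1
  have hpt : ∀ r r' v v', Ψ.n1 (U r r') v v' + s1 (fun r r' v v' => Ψ.n1 (U r r') v v') r r' v v'
      = 2 * Ψ.n1 (A r r') v v' + 2 * Ψ.n1 (B r r') v v' := by
    intro r r' v v'
    have h1 := (par hD Φ Ψ hA hB r r' v v').1
    have f1 : (fun v v' => A r r' v v' + B r r' v v') = U r r' := by
      funext v v'; exact hab r r' v v'
    have f2 : (fun v v' => A r r' v v' - B r r' v v') = fun v v' => (-1) * s1 U r r' v v' := by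
      funext v v'; exact hab' r r' v v'
    rw [f1, f2, ((par hD Φ Ψ hs hs r r' v v').2.2 (-1)).1] at h1
    have h2 : Ψ.n1 (s1 U r r') v v' = Ψ.n1 (U r r') (-v) v' :=
      ((hDe W n e Ψ (U r r') (c1_sec hU r r')).2.2.2.2.2.2.2.2.1 v v').1
    rw [h2] at h1
    change Ψ.n1 (U r r') v v' + Ψ.n1 (U r r') (-v) v' = _
    linarith
  have h3 : Ev Φ Ψ (fun r r' v v' => (1 : ℝ) * Ψ.n1 (U r r') v v' +
      (1 : ℝ) * s1 (fun r r' v v' => Ψ.n1 (U r r') v v') r r' v v') =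
      Ev Φ Ψ (fun r r' v v' => (2 : ℝ) * Ψ.n1 (A r r') v v' + (2 : ℝ) * Ψ.n1 (B r r') v v') := by
    congr 1
    funext r r' v v'
    rw [one_mul, one_mul]
    exact hpt r r' v v'
  rw [ev_lin hE hcU hcs, ev_lin hE (co_n1 hD Φ Ψ hA) (co_n1 hD Φ Ψ hB), ev_s1 hE hcU] at h3
  linarith

theorem split2 (hDe : clDer) (hE : clEv) (hD : clDR) (hU : C1 U) (hs : C1 (s2 U))
    {A B : V → V → W → W → ℝ} (hA : C1 A) (hB : C1 B)
    (hab : ∀ r r' v v', A r r' v v' + B r r' v v' = U r r' v v')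
    (hab' : ∀ r r' v v', A r r' v v' - B r r' v v' = (-1) * s2 U r r' v v') :
    Ev Φ Ψ (fun r r' v v' => Ψ.n2 (U r r') v v') =
      Ev Φ Ψ (fun r r' v v' => Ψ.n2 (A r r') v v') +
        Ev Φ Ψ (fun r r' v v' => Ψ.n2 (B r r') v v') := by
  have hcU := co_n2 hD Φ Ψ hU
  have hcs : Co (s2 (fun r r' v v' => Ψ.n2 (U r r') v v')) := by
    have h1 : Continuous (fun z : V × V × W × W => ((z.1, z.2.1, z.2.2.1, -z.2.2.2) :
        V × V × W × W)) := by fun_prop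
    exact hcU.comp h1
  have hpt : ∀ r r' v v', Ψ.n2 (U r r') v v' + s2 (fun r r' v v' => Ψ.n2 (U r r') v v') r r' v v'
      = 2 * Ψ.n2 (A r r') v v' + 2 * Ψ.n2 (B r r') v v' := by
    intro r r' v v'
    have h1 := (par hD Φ Ψ hA hB r r' v v').2.1
    have f1 : (fun v v' => A r r' v v' + B r r' v v') = U r r' := by
      funext v v'; exact hab r r' v v'
    have f2 : (fun v v' => A r r' v v' - B r r' v v') = fun v v' => (-1) * s2 U r r' v v' := by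
      funext v v'; exact hab' r r' v v'
    rw [f1, f2, ((par hD Φ Ψ hs hs r r' v v').2.2 (-1)).2] at h1
    have h2 : Ψ.n2 (s2 U r r') v v' = Ψ.n2 (U r r') v (-v') :=
      ((hDe W n e Ψ (U r r') (c1_sec hU r r')).2.2.2.2.2.2.2.2.1 v v').2.2.2.2.1
    rw [h2] at h1
    change Ψ.n2 (U r r') v v' + Ψ.n2 (U r r') v (-v') = _
    linarith
  have h3 : Ev Φ Ψ (fun r r' v v' => (1 : ℝ) * Ψ.n2 (U r r') v v' +
      (1 : ℝ) * s2 (fun r r' v v' => Ψ.n2 (U r r') v v') r r' v v') =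
      Ev Φ Ψ (fun r r' v v' => (2 : ℝ) * Ψ.n2 (A r r') v v' + (2 : ℝ) * Ψ.n2 (B r r') v v') := by
    congr 1
    funext r r' v v'
    rw [one_mul, one_mul]
    exact hpt r r' v v'
  rw [ev_lin hE hcU hcs, ev_lin hE (co_n2 hD Φ Ψ hA) (co_n2 hD Φ Ψ hB), ev_s2 hE hcU] at h3
  linarith

theorem co_of_c1 (hU : C1 U) : Co U := ContDiff.continuous hU

/-- multiplication of an average by a constant -/
theorem av_smul (hE : clEv) (Φ : Frm V m e) (Ψ : Frm W n e) (hU : Co U) (c : ℝ) :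
    c * Ev Φ Ψ U = Ev Φ Ψ (fun r r' v v' => c * U r r' v v' + 0 * U r r' v v') := by
  rw [ev_lin hE hU hU]
  ring

end

end JN12

open JN12 in
theorem prfN12 (hA : clAv) (hP : clPair) (hDe : clDer) (hE : clEv) (hO : clOdd) (hD : clDR)
    (hC : clCl) : clN12 := by
  intro V W _ _ _ _ _ _ m n e Φ Ψ U hU hn
  obtain ⟨hlin, hs1, hs2, _⟩ := hC V W m n e Φ Ψ U hU
  have hU1 : C1 U := hU.c1
  have hs1' : C1 (s1 U) := hs1.c1
  have hs2' : C1 (s2 U) := hs2.c1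
  obtain ⟨A1, hA1⟩ : ∃ A1 : V → V → W → W → ℝ,
      A1 = fun r r' v v' => (1 / 2) * U r r' v v' + (-1 / 2) * s1 U r r' v v' := ⟨_, rfl⟩
  obtain ⟨B1, hB1⟩ : ∃ B1 : V → V → W → W → ℝ,
      B1 = fun r r' v v' => (1 / 2) * U r r' v v' + (1 / 2) * s1 U r r' v v' := ⟨_, rfl⟩
  obtain ⟨A2, hA2⟩ : ∃ A2 : V → V → W → W → ℝ,
      A2 = fun r r' v v' => (1 / 2) * U r r' v v' + (-1 / 2) * s2 U r r' v v' := ⟨_, rfl⟩
  obtain ⟨B2, hB2⟩ : ∃ B2 : V → V → W → W → ℝ,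
      B2 = fun r r' v v' => (1 / 2) * U r r' v v' + (1 / 2) * s2 U r r' v v' := ⟨_, rfl⟩
  have cA1 : C1 A1 := by rw [hA1]; exact (hlin (s1 U) hs1 (1 / 2) (-1 / 2)).c1
  have cB1 : C1 B1 := by rw [hB1]; exact (hlin (s1 U) hs1 (1 / 2) (1 / 2)).c1
  have cA2 : C1 A2 := by rw [hA2]; exact (hlin (s2 U) hs2 (1 / 2) (-1 / 2)).c1
  have cB2 : C1 B2 := by rw [hB2]; exact (hlin (s2 U) hs2 (1 / 2) (1 / 2)).c1
  have hsp1 := split1 (Φ := Φ) (Ψ := Ψ) hDe hE hD hU1 hs1' cA1 cB1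
    (fun r r' v v' => by rw [hA1, hB1]; ring) (fun r r' v v' => by rw [hA1, hB1]; ring)
  have hsp2 := split2 (Φ := Φ) (Ψ := Ψ) hDe hE hD hU1 hs2' cA2 cB2
    (fun r r' v v' => by rw [hA2, hB2]; ring) (fun r r' v v' => by rw [hA2, hB2]; ring)
  constructor
  · have h0 : 0 ≤ Ev Φ Ψ (fun r r' v v' => Ψ.n1 (B1 r r') v v') := by
      have h := ev_mono (Φ := Φ) (Ψ := Ψ) (U := fun _ _ _ _ => (0 : ℝ)) hE continuous_const
        (co_n1 hD Φ Ψ cB1) (fun r r' v v' _ hvv =>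
          ((hDe W n e Ψ (B1 r r') (c1_sec cB1 r r')).2.2.2.2.2.1 v v' hvv).1)
      rwa [ev_const hE] at h
    have hfun : (fun (r r' : V) (v v' : W) => ((U r r' v v' - U r r' (-v) v') / 2) ^ 2) =
        fun r r' v v' => A1 r r' v v' ^ 2 := by
      funext r r' v v'
      rw [hA1]
      change ((U r r' v v' - U r r' (-v) v') / 2) ^ 2 =
        ((1 / 2) * U r r' v v' + (-1 / 2) * U r r' (-v) v') ^ 2
      ring
    rw [hfun, hsp1, av_smul hE Φ Ψ (co_sq (co_of_c1 cA1))]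
    have h1 : Ev Φ Ψ (fun r r' v v' => (((n - (e + 1) : ℕ) : ℝ) - 1) * A1 r r' v v' ^ 2 +
        0 * A1 r r' v v' ^ 2) ≤ Ev Φ Ψ (fun r r' v v' => Ψ.n1 (A1 r r') v v') := by
      refine ev_av_mono hE ?_ (co_n1 hD Φ Ψ cA1) (fun r r' => ?_)
      · have h2 := co_sq (co_of_c1 cA1)
        unfold Co at h2 ⊢
        exact (continuous_const.mul h2).add (continuous_const.mul h2)
      · have h3 := (hO W n e Ψ (A1 r r') hn (c1_sec cA1 r r')).1 (fun v w => by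
          rw [hA1]
          change (1 / 2) * U r r' (-v) w + (-1 / 2) * U r r' (- -v) w =
            -((1 / 2) * U r r' v w + (-1 / 2) * U r r' (-v) w)
          rw [neg_neg]; ring)
        refine le_trans (le_of_eq ?_) h3
        unfold Frm.av
        rw [← integral_const_mul]
        congr 1
        funext g
        ring
    linarith
  · have hfun : (fun (r r' : V) (v v' : W) => ((U r r' v v' - U r r' v (-v')) / 2) ^ 2) =
        fun r r' v v' => A2 r r' v v' ^ 2 := by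
      funext r r' v v'
      rw [hA2]
      change ((U r r' v v' - U r r' v (-v')) / 2) ^ 2 =
        ((1 / 2) * U r r' v v' + (-1 / 2) * U r r' v (-v')) ^ 2
      ring
    have hfun2 : (fun (r r' : V) (v v' : W) =>
        Ψ.n2 (fun v v' => (U r r' v v' + U r r' v (-v')) / 2) v v') =
        fun r r' v v' => Ψ.n2 (B2 r r') v v' := by
      funext r r' v v'
      have h4 : (fun v v' => (U r r' v v' + U r r' v (-v')) / 2) = B2 r r' := by
        funext w w'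
        rw [hB2]
        change (U r r' w w' + U r r' w (-w')) / 2 =
          (1 / 2) * U r r' w w' + (1 / 2) * U r r' w (-w')
        ring
      rw [h4]
    rw [hfun, hfun2, hsp2, av_smul hE Φ Ψ (co_sq (co_of_c1 cA2))]
    have h1 : Ev Φ Ψ (fun r r' v v' => (((n - (e + 1) : ℕ) : ℝ) - 1) * A2 r r' v v' ^ 2 +
        0 * A2 r r' v v' ^ 2) ≤ Ev Φ Ψ (fun r r' v v' => Ψ.n2 (A2 r r') v v') := by
      refine ev_av_mono hE ?_ (co_n2 hD Φ Ψ cA2) (fun r r' => ?_)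
      · have h2 := co_sq (co_of_c1 cA2)
        unfold Co at h2 ⊢
        exact (continuous_const.mul h2).add (continuous_const.mul h2)
      · have h3 := (hO W n e Ψ (A2 r r') hn (c1_sec cA2 r r')).2 (fun v w => by
          rw [hA2]
          change (1 / 2) * U r r' v (-w) + (-1 / 2) * U r r' v (- -w) =
            -((1 / 2) * U r r' v w + (-1 / 2) * U r r' v (-w))
          rw [neg_neg]; ring)
        refine le_trans (le_of_eq ?_) h3
        unfold Frm.av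
        rw [← integral_const_mul]
        congr 1
        funext g
        ring
    linarith

end Pool.Agent.Work.MP_408f4b_gt.Q
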