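import Pool.Agent.Work.MP_408f4b_gt.Q.Stmts3

set_option autoImplicit false

/-!
# Item Odd: Poincare inequality for functions which are odd in one of the vectors
-/

namespace Pool.Agent.Work.MP_408f4b_gt.Q

open MeasureTheory Set Filter Topology
open scoped Pointwise

namespace JOdd

theorem sig_neg (n : ℕ) (s : Set (Sph n)) (hs : MeasurableSet s) :
    sig n ((fun θ : Sph n => -θ) ⁻¹' s) = sig n s := by
  have hm : MeasurableSet ((fun θ : Sph n => -θ) ⁻¹' s) :=
    (continuous_neg (G := Sph n)).measurable hs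
  unfold sig
  rw [Measure.toSphere_apply' _ hm, Measure.toSphere_apply' _ hs]
  congr 1
  have e : Ioo (0 : ℝ) 1 • (((↑) : Sph n → E n) '' ((fun θ : Sph n => -θ) ⁻¹' s)) =
      -(Ioo (0 : ℝ) 1 • (((↑) : Sph n → E n) '' s)) := by
    ext x
    rw [Set.mem_neg, Set.mem_smul, Set.mem_smul]
    constructor
    · rintro ⟨r, hr, y, ⟨θ, hθ, rfl⟩, rfl⟩
      refine ⟨r, hr, ((-θ : Sph n) : E n), ⟨-θ, hθ, rfl⟩, ?_⟩
      show r • (-(θ : E n)) = -(r • (θ : E n))
      rw [smul_neg]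
    · rintro ⟨r, hr, y, ⟨θ, hθ, rfl⟩, h⟩
      refine ⟨r, hr, ((-θ : Sph n) : E n), ⟨-θ, ?_, rfl⟩, ?_⟩
      · show -(-θ) ∈ s
        rw [neg_neg]; exact hθ
      · show r • (-(θ : E n)) = x
        rw [smul_neg, h, neg_neg]
  rw [e, Measure.measure_neg]

theorem int_odd (n : ℕ) (h : Sph n → ℝ) (hodd : ∀ θ, h (-θ) = -h θ) :
    ∫ θ, h θ ∂sig n = 0 := by
  have hmp : MeasurePreserving (fun θ : Sph n => -θ) (sig n) (sig n) := by
    refine ⟨(continuous_neg (G := Sph n)).measurable, ?_⟩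
    ext s hs
    rw [Measure.map_apply (continuous_neg (G := Sph n)).measurable hs]
    exact sig_neg n s hs
  have hemb : MeasurableEmbedding (fun θ : Sph n => -θ) :=
    (Homeomorph.neg (Sph n)).measurableEmbedding
  have h1 := hmp.integral_comp hemb h
  simp only [hodd, integral_neg] at h1
  linarith

variable {V : Type} [NormedAddCommGroup V] [InnerProductSpace ℝ V] [CompleteSpace V]

theorem grad_comp {N : ℕ} (j : E N →ₗᵢ[ℝ] V) (F : V → ℝ) (u : E N)
    (hF : DifferentiableAt ℝ F (j u)) (z : E N) :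
    inner ℝ (gradient (fun u => F (j u)) u) z = inner ℝ (gradient F (j u)) (j z) := by
  unfold gradient
  rw [InnerProductSpace.toDual_symm_apply, InnerProductSpace.toDual_symm_apply]
  have h1 : HasFDerivAt (fun u => F (j u)) ((fderiv ℝ F (j u)).comp
      j.toContinuousLinearMap) u :=
    HasFDerivAt.comp u hF.hasFDerivAt j.toContinuousLinearMap.hasFDerivAt
  rw [h1.fderiv]
  rfl

theorem key {N e : ℕ} (j : E N →ₗᵢ[ℝ] V) (f : Fin (e + 1) → V) (hf : Orthonormal ℝ f)
    (h1 : ∀ z q, inner ℝ (f q) (j z) = 0)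
    (h2 : ∀ v, (∀ q, inner ℝ (f q) v = 0) → ∃ u, j u = v) (G : V) (ξ : E N)
    (hξ : ∀ z, inner ℝ ξ z = inner ℝ G (j z)) :
    ‖ξ‖ ^ 2 = ‖G‖ ^ 2 - ∑ q, (inner ℝ G (f q)) ^ 2 := by
  have horth : ∀ q, inner ℝ (f q) (∑ p, (inner ℝ G (f p) : ℝ) • f p) = (inner ℝ G (f q) : ℝ) := by
    intro q
    rw [inner_sum]
    rw [Finset.sum_eq_single q]
    · rw [inner_smul_right, real_inner_self_eq_norm_sq, hf.1 q]; ring
    · intro p _ hp
      rw [inner_smul_right, hf.2 hp.symm, mul_zero]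
    · intro h; exact absurd (Finset.mem_univ q) h
  set S : V := ∑ p, (inner ℝ G (f p) : ℝ) • f p with hS
  obtain ⟨u, hu⟩ := h2 (G - S) (by
    intro q
    rw [inner_sub_right, horth q, real_inner_comm]
    ring)
  have e1 : ξ = u := by
    apply ext_inner_right ℝ
    intro z
    rw [hξ z, ← j.inner_map_map u z, hu, inner_sub_left]
    have : inner ℝ S (j z) = (0 : ℝ) := by
      rw [hS, sum_inner]
      apply Finset.sum_eq_zero
      intro p _
      rw [inner_smul_left, h1 z p]; simp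
    rw [this, sub_zero]
  have e2 : ‖ξ‖ ^ 2 = ‖G - S‖ ^ 2 := by
    rw [e1, ← hu, j.norm_map]
  have e3 : inner ℝ G S = ∑ q, (inner ℝ G (f q) : ℝ) ^ 2 := by
    rw [hS, inner_sum]
    apply Finset.sum_congr rfl
    intro q _
    rw [inner_smul_right]; ring
  have e4 : ‖S‖ ^ 2 = ∑ q, (inner ℝ G (f q) : ℝ) ^ 2 := by
    rw [← real_inner_self_eq_norm_sq]
    nth_rewrite 1 [hS]
    rw [sum_inner]
    apply Finset.sum_congr rfl
    intro q _
    rw [inner_smul_left, horth q]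
    simp [sq]
  rw [e2, norm_sub_sq_real, e3, e4]
  ring

/-- The inequality on one fibre. -/
theorem fibre (hPo : claimPoin) {N e : ℕ} (hN : 2 ≤ N) (j : E N →ₗᵢ[ℝ] V) (f : Fin (e + 1) → V)
    (hf : Orthonormal ℝ f) (h1 : ∀ z q, inner ℝ (f q) (j z) = 0)
    (h2 : ∀ v, (∀ q, inner ℝ (f q) v = 0) → ∃ u, j u = v) (F : V → ℝ) (hF : ContDiff ℝ 1 F)
    (hodd : ∀ v, F (-v) = -F v) :
    ((N : ℝ) - 1) * ∫ u : Sph N, F (j u) ^ 2 ∂sig N ≤
      ∫ u : Sph N, (‖gradient F (j u)‖ ^ 2 - (inner ℝ (gradient F (j u)) (j u)) ^ 2 -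
        ∑ q, (inner ℝ (gradient F (j u)) (f q)) ^ 2) ∂sig N := by
  have hd : Differentiable ℝ F := hF.differentiable (by norm_num)
  have hc : ContDiff ℝ 1 (fun u : E N => F (j u)) :=
    hF.comp j.toContinuousLinearMap.contDiff
  have h3 := hPo N (fun u => F (j u)) hN hc
  have h4 : ∫ θ : Sph N, F (j (θ : E N)) ∂sig N = 0 := by
    apply int_odd
    intro θ
    show F (j (-(θ : E N))) = -F (j (θ : E N))
    rw [map_neg, hodd]
  unfold VV at h3
  rw [h4] at h3
  have h5 : ∀ u : Sph N, ‖gradient (fun u => F (j u)) (u : E N)‖ ^ 2 -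
      (inner ℝ (gradient (fun u => F (j u)) (u : E N)) (u : E N)) ^ 2 =
      ‖gradient F (j u)‖ ^ 2 - (inner ℝ (gradient F (j u)) (j u)) ^ 2 -
        ∑ q, (inner ℝ (gradient F (j u)) (f q)) ^ 2 := by
    intro u
    rw [key j f hf h1 h2 (gradient F (j u)) (gradient (fun u => F (j u)) (u : E N))
      (fun z => grad_comp j F u (hd _) z), grad_comp j F u (hd _) u]
    ring
  rw [integral_congr_ae (Filter.Eventually.of_forall h5)] at h3
  refine le_trans (le_of_eq ?_) h3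
  ring

theorem cont_gr (g : V → V → ℝ) (hg : ContDiff ℝ 1 (fun z : V × V => g z.1 z.2)) :
    Continuous (fun z : V × V => gr1 g z.1 z.2) ∧ Continuous (fun z : V × V => gr2 g z.1 z.2) := by
  have hd : Differentiable ℝ (fun z : V × V => g z.1 z.2) := hg.differentiable (by norm_num)
  have hc : Continuous (fderiv ℝ (fun z : V × V => g z.1 z.2)) :=
    hg.continuous_fderiv (by norm_num)
  have e1 : ∀ z : V × V, gr1 g z.1 z.2 = (InnerProductSpace.toDual ℝ V).symm
      ((fderiv ℝ (fun z : V × V => g z.1 z.2) z).comp (ContinuousLinearMap.inl ℝ V V)) := by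
    intro z
    unfold gr1 gradient
    congr 1
    have h1 : HasFDerivAt (fun v : V => (v, z.2)) (ContinuousLinearMap.inl ℝ V V) z.1 :=
      hasFDerivAt_prodMk_left z.1 z.2
    have h2 := HasFDerivAt.comp (g := fun z : V × V => g z.1 z.2) z.1 (hd (z.1, z.2)).hasFDerivAt h1
    exact h2.fderiv
  have e2 : ∀ z : V × V, gr2 g z.1 z.2 = (InnerProductSpace.toDual ℝ V).symm
      ((fderiv ℝ (fun z : V × V => g z.1 z.2) z).comp (ContinuousLinearMap.inr ℝ V V)) := by
    intro z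
    unfold gr2 gradient
    congr 1
    have h1 : HasFDerivAt (fun v : V => (z.1, v)) (ContinuousLinearMap.inr ℝ V V) z.2 :=
      hasFDerivAt_prodMk_right z.1 z.2
    have h2 := HasFDerivAt.comp (g := fun z : V × V => g z.1 z.2) z.2 (hd (z.1, z.2)).hasFDerivAt h1
    exact h2.fderiv
  refine ⟨?_, ?_⟩
  · rw [show (fun z : V × V => gr1 g z.1 z.2) = _ from funext e1]
    exact (InnerProductSpace.toDual ℝ V).symm.continuous.comp (hc.clm_comp continuous_const)
  · rw [show (fun z : V × V => gr2 g z.1 z.2) = _ from funext e2]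
    exact (InnerProductSpace.toDual ℝ V).symm.continuous.comp (hc.clm_comp continuous_const)

theorem cont_n {n e : ℕ} (Φ : Frm V n e) (g : V → V → ℝ)
    (hg : ContDiff ℝ 1 (fun z : V × V => g z.1 z.2)) :
    Continuous (fun z : V × V => Φ.n1 g z.1 z.2) ∧ Continuous (fun z : V × V => Φ.n2 g z.1 z.2) := by
  obtain ⟨h1, h2⟩ := cont_gr g hg
  have hJ : ∀ q, Continuous (Φ.J q) := fun q => (Φ.J q).continuous
  refine ⟨?_, ?_⟩
  · unfold Frm.n1
    refine ((h1.norm.pow 2).sub ((h1.inner continuous_fst).pow 2)).sub ?_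
    exact continuous_finsetSum _ fun q _ => (h1.inner ((hJ q).comp continuous_snd)).pow 2
  · unfold Frm.n2
    refine ((h2.norm.pow 2).sub ((h2.inner continuous_snd).pow 2)).sub ?_
    exact continuous_finsetSum _ fun q _ => (h2.inner ((hJ q).comp continuous_fst)).pow 2

theorem integr {n e N : ℕ} (Φ : Frm V n e) (F : Φ.G × Sph N → ℝ) (hF : Continuous F) :
    Integrable (fun k : Φ.G => ∫ u : Sph N, F (k, u) ∂sig N) Φ.μ := by
  have hfin : IsFiniteMeasure (sig N) := by unfold sig; infer_instance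
  have hcomp : CompactSpace (Sph N) := isCompact_iff_compactSpace.1 (isCompact_sphere 0 1)
  have h1 : Integrable F (Φ.μ.prod (sig N)) := by
    obtain ⟨C, hC⟩ := (isCompact_univ (X := Φ.G × Sph N)).exists_bound_of_continuousOn
      hF.continuousOn
    refine Integrable.mono' (integrable_const C) hF.aestronglyMeasurable ?_
    exact Filter.Eventually.of_forall fun z => hC z (mem_univ z)
  exact h1.integral_prod_left

end JOdd

open JOdd in
theorem prfOdd (hA : clAv) (hP : clPair) (hF : clFib) (hPo : claimPoin) : clOdd := by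
  intro V _ _ _ n e Φ g hn hg
  obtain ⟨-, -, -, -, -, -, hsurj, hι⟩ := hP V n e Φ
  set N := n - (e + 1) with hN
  have hσ : (0 : ℝ) ≤ ((sig N).real univ)⁻¹ := inv_nonneg.2 measureReal_nonneg
  have hN1 : (0 : ℝ) ≤ (N : ℝ) - 1 := by
    have : (2 : ℝ) ≤ (N : ℝ) := by exact_mod_cast hn
    linarith
  have horth : ∀ k, Orthonormal ℝ (fun q => Φ.J q (Φ.A k Φ.a)) := by
    intro k
    refine ⟨fun q => ?_, fun p q hpq => Φ.Jorth _ p q hpq⟩
    rw [(Φ.J q).norm_map, (Φ.A k).norm_map, Φ.ha]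
  have hj1 : ∀ k z q, inner ℝ (Φ.J q (Φ.A k Φ.a)) (((Φ.A k).comp Φ.ι) z) = (0 : ℝ) := by
    intro k z q
    rw [← Φ.comm]
    show inner ℝ (Φ.A k (Φ.J q Φ.a)) (Φ.A k (Φ.ι z)) = (0 : ℝ)
    rw [(Φ.A k).inner_map_map]
    exact Φ.hι z q
  have hj2 : ∀ k v, (∀ q, inner ℝ (Φ.J q (Φ.A k Φ.a)) v = (0 : ℝ)) →
      ∃ u, ((Φ.A k).comp Φ.ι) u = v := by
    intro k v hv
    obtain ⟨v1, rfl⟩ := hsurj k v
    obtain ⟨u, hu⟩ := hι v1 (by
      intro q
      have := hv q
      rwa [← Φ.comm, (Φ.A k).inner_map_map] at this)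
    exact ⟨u, by show Φ.A k (Φ.ι u) = Φ.A k v1; rw [hu]⟩
  have cA : Continuous (fun z : Φ.G × Sph N => Φ.A z.1 (Φ.ι (z.2 : E N))) := by
    have : Continuous (fun z : Φ.G × Sph N => (z.1, Φ.ι (z.2 : E N))) :=
      continuous_fst.prodMk (Φ.ι.continuous.comp (continuous_subtype_val.comp continuous_snd))
    exact Φ.cont.comp this
  have cB : Continuous (fun z : Φ.G × Sph N => Φ.A z.1 Φ.a) := by
    have : Continuous (fun z : Φ.G × Sph N => (z.1, Φ.a)) :=
      continuous_fst.prodMk continuous_const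
    exact Φ.cont.comp this
  obtain ⟨cn1, cn2⟩ := cont_n Φ g hg
  have cg2 : Continuous (fun z : V × V => g z.1 z.2 ^ 2) := hg.continuous.pow 2
  refine ⟨fun hodd => ?_, fun hodd => ?_⟩
  · rw [(hF V n e Φ (fun v w => g v w ^ 2) cg2).2, (hF V n e Φ (Φ.n1 g) cn1).2]
    rw [← mul_assoc, mul_comm ((N : ℝ) - 1), mul_assoc]
    refine mul_le_mul_of_nonneg_left ?_ hσ
    rw [← integral_const_mul]
    refine integral_mono_of_nonneg (Filter.Eventually.of_forall fun k => ?_)
      (integr Φ (fun z : Φ.G × Sph N => Φ.n1 g (Φ.A z.1 (Φ.ι (z.2 : E N))) (Φ.A z.1 Φ.a))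
        (cn1.comp (cA.prodMk cB))) (Filter.Eventually.of_forall fun k => ?_)
    · exact mul_nonneg hN1 (integral_nonneg fun u => sq_nonneg _)
    · have h := fibre hPo (e := e) hn ((Φ.A k).comp Φ.ι) (fun q => Φ.J q (Φ.A k Φ.a)) (horth k)
        (hj1 k) (hj2 k) (fun v => g v (Φ.A k Φ.a))
        (hg.comp (contDiff_id.prodMk contDiff_const)) (fun v => hodd v _)
      exact h
  · rw [(hF V n e Φ (fun v w => g v w ^ 2) cg2).1, (hF V n e Φ (Φ.n2 g) cn2).1]
    rw [← mul_assoc, mul_comm ((N : ℝ) - 1), mul_assoc]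
    refine mul_le_mul_of_nonneg_left ?_ hσ
    rw [← integral_const_mul]
    refine integral_mono_of_nonneg (Filter.Eventually.of_forall fun k => ?_)
      (integr Φ (fun z : Φ.G × Sph N => Φ.n2 g (Φ.A z.1 Φ.a) (Φ.A z.1 (Φ.ι (z.2 : E N))))
        (cn2.comp (cB.prodMk cA))) (Filter.Eventually.of_forall fun k => ?_)
    · exact mul_nonneg hN1 (integral_nonneg fun u => sq_nonneg _)
    · have h := fibre hPo (e := e) hn ((Φ.A k).comp Φ.ι) (fun q => Φ.J q (Φ.A k Φ.a)) (horth k)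
        (hj1 k) (hj2 k) (fun v => g (Φ.A k Φ.a) v)
        (hg.comp (contDiff_const.prodMk contDiff_id)) (fun v => hodd _ v)
      exact h

end Pool.Agent.Work.MP_408f4b_gt.Q
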