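import Pool.Agent.Work.MP_408f4b_gt.Q.Stmts3

set_option autoImplicit false
set_option linter.unusedSectionVars false

/-!
# The odd part
-/

namespace Pool.Agent.Work.MP_408f4b_gt.Q

open MeasureTheory Set Filter Topology

namespace JOddP

variable {V W : Type} [NormedAddCommGroup V] [InnerProductSpace ℝ V] [CompleteSpace V]
  [NormedAddCommGroup W] [InnerProductSpace ℝ W] [CompleteSpace W] {m n e : ℕ}

/-- Bessel's inequality. -/
theorem n2_nonneg (Ψ : Frm W n e) (g : W → W → ℝ) (v w : W) (h : Ψ.Pair v w) :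
    0 ≤ Ψ.n2 g v w := by
  have h0 : ∀ q, inner ℝ (Ψ.J q v) w = 0 := by
    intro q
    have h1 := Ψ.orthC v w h.2.2 q 0
    rwa [Ψ.J0] at h1
  have horth : Orthonormal ℝ
      (fun i : Option (Fin (e + 1)) => i.elim w (fun q => Ψ.J q v)) := by
    refine ⟨?_, ?_⟩
    · rintro (_ | q)
      · exact h.2.1
      · show ‖Ψ.J q v‖ = 1
        rw [LinearIsometry.norm_map]
        exact h.1
    · rintro (_ | p) (_ | q) hpq
      · exact absurd rfl hpq
      · show inner ℝ w (Ψ.J q v) = 0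
        rw [real_inner_comm]
        exact h0 q
      · exact h0 p
      · exact Ψ.Jorth v p q (fun h1 => hpq (by rw [h1]))
  have h1 := horth.sum_inner_products_le (x := gr2 g v w) (s := Finset.univ)
  rw [Fintype.sum_option] at h1
  simp only [Option.elim, Real.norm_eq_abs, sq_abs] at h1
  unfold Frm.n2
  have h2 : inner ℝ (gr2 g v w) w = inner ℝ w (gr2 g v w) := real_inner_comm _ _
  have h3 : ∀ q, inner ℝ (gr2 g v w) (Ψ.J q v) = inner ℝ (Ψ.J q v) (gr2 g v w) :=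
    fun q => real_inner_comm _ _
  simp only [h2, h3]
  linarith

theorem co_comb {U U₂ : V → V → W → W → ℝ} (h : Co U) (h₂ : Co U₂) (c d : ℝ) :
    Co (fun r r' v v' => c * U r r' v v' + d * U₂ r r' v v') :=
  (continuous_const.mul h).add (continuous_const.mul h₂)

theorem co_sq {U : V → V → W → W → ℝ} (h : Co U) : Co (fun r r' v v' => U r r' v v' ^ 2) :=
  h.pow 2

theorem co_s1 {U : V → V → W → W → ℝ} (h : Co U) : Co (fun r r' v v' => U r r' (-v) v') := by
  have h1 : Continuous (fun z : V × V × W × W => (z.1, z.2.1, -z.2.2.1, z.2.2.2)) := by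
    fun_prop
  exact Continuous.comp (g := fun z : V × V × W × W => U z.1 z.2.1 z.2.2.1 z.2.2.2) h h1

theorem co_s2 {U : V → V → W → W → ℝ} (h : Co U) : Co (fun r r' v v' => U r r' v (-v')) := by
  have h1 : Continuous (fun z : V × V × W × W => (z.1, z.2.1, z.2.2.1, -z.2.2.2)) := by
    fun_prop
  exact Continuous.comp (g := fun z : V × V × W × W => U z.1 z.2.1 z.2.2.1 z.2.2.2) h h1

theorem co_x {U : V → V → W → W → ℝ} (h : Co U) : Co (fun r r' v v' => U r' r v v') := by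
  have h1 : Continuous (fun z : V × V × W × W => (z.2.1, z.1, z.2.2.1, z.2.2.2)) := by
    fun_prop
  exact Continuous.comp (g := fun z : V × V × W × W => U z.1 z.2.1 z.2.2.1 z.2.2.2) h h1

theorem co_sw {U : V → V → W → W → ℝ} (h : Co U) : Co (fun r r' v v' => U r' r v' v) := by
  have h1 : Continuous (fun z : V × V × W × W => (z.2.1, z.1, z.2.2.2, z.2.2.1)) := by
    fun_prop
  exact Continuous.comp (g := fun z : V × V × W × W => U z.1 z.2.1 z.2.2.1 z.2.2.2) h h1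

section ev

variable (Φ : Frm V m e) (Ψ : Frm W n e) (hE : clEv)

include hE

theorem ev_lin {U U₂ : V → V → W → W → ℝ} (h : Co U) (h₂ : Co U₂) (c d : ℝ) :
    Ev Φ Ψ (fun r r' v v' => c * U r r' v v' + d * U₂ r r' v v') =
      c * Ev Φ Ψ U + d * Ev Φ Ψ U₂ := by
  obtain ⟨-, -, -, -, -, -, -, -, -, -, h11, -⟩ := hE V W m n e Φ Ψ U U₂ h h₂
  exact h11 c d

theorem ev_const (c : ℝ) : Ev Φ Ψ (fun _ _ _ _ => c) = c := by
  obtain ⟨-, -, -, -, -, -, -, -, -, -, -, -, -, h14, -⟩ :=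
    hE V W m n e Φ Ψ (fun _ _ _ _ => (0 : ℝ)) (fun _ _ _ _ => (0 : ℝ)) continuous_const
      continuous_const
  exact h14 c

theorem ev_mono {U U₂ : V → V → W → W → ℝ} (h : Co U) (h₂ : Co U₂)
    (hle : ∀ r r' v v', Φ.Pair r r' → Ψ.Pair v v' → U r r' v v' ≤ U₂ r r' v v') :
    Ev Φ Ψ U ≤ Ev Φ Ψ U₂ := by
  obtain ⟨-, -, -, -, -, -, -, -, -, -, -, h12, -⟩ := hE V W m n e Φ Ψ U U₂ h h₂
  exact h12 hle

theorem ev_s1 {U : V → V → W → W → ℝ} (h : Co U) :
    Ev Φ Ψ (fun r r' v v' => U r r' (-v) v') = Ev Φ Ψ U := by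
  obtain ⟨-, -, -, -, -, -, -, h8, -⟩ := hE V W m n e Φ Ψ U U h h
  exact h8

theorem ev_sw {U : V → V → W → W → ℝ} (h : Co U) :
    Ev Φ Ψ (fun r r' v v' => U r' r v' v) = Ev Φ Ψ U := by
  obtain ⟨-, -, -, -, -, h6, -⟩ := hE V W m n e Φ Ψ U U h h
  obtain ⟨-, -, -, -, -, -, h7, -⟩ :=
    hE V W m n e Φ Ψ (fun r r' v v' => U r' r v v') U (co_x h) h
  rw [← h6, ← h7]

theorem ev_sum {ι : Type} (s : Finset ι) (f : ι → V → V → W → W → ℝ) (hf : ∀ i, Co (f i)) :
    Co (fun r r' v v' => ∑ i ∈ s, f i r r' v v') ∧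
      Ev Φ Ψ (fun r r' v v' => ∑ i ∈ s, f i r r' v v') = ∑ i ∈ s, Ev Φ Ψ (f i) := by
  classical
  induction s using Finset.induction_on with
  | empty =>
    simp only [Finset.sum_empty]
    exact ⟨continuous_const, ev_const Φ Ψ hE 0⟩
  | insert i s his ih =>
    have h1 : (fun r r' v v' => ∑ j ∈ insert i s, f j r r' v v') =
        fun r r' v v' => 1 * f i r r' v v' + 1 * ∑ j ∈ s, f j r r' v v' := by
      funext r r' v v'
      rw [Finset.sum_insert his, one_mul, one_mul]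
    rw [h1, ev_lin Φ Ψ hE (hf i) ih.1 1 1, ih.2, Finset.sum_insert his, one_mul, one_mul]
    exact ⟨co_comb (hf i) ih.1 1 1, rfl⟩

/-- An odd function which is symmetric or antisymmetric under the exchange of the vectors. -/
theorem ev_D {D : V → V → W → W → ℝ} (hD : Co D)
    (hodd : ∀ r r' v v', D r r' (-v) (-v') = -D r r' v v') (κ : ℝ) (hκ : κ * κ = 1)
    (hs : ∀ r r' v v', D r' r v' v = κ * D r r' v v') :
    Ev Φ Ψ (fun r r' v v' => D r r' v v' ^ 2) =
      2 * Ev Φ Ψ (fun r r' v v' => ((D r r' v v' - D r r' (-v) v') / 2) ^ 2) := by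
  have hK : Co (fun r r' v v' => D r r' v v' * D r r' (-v) v') := Continuous.mul hD (co_s1 hD)
  have h1 := ev_sw Φ Ψ hE hK
  have h2 : (fun r r' v v' => D r' r v' v * D r' r (-v') v) =
      fun r r' v v' => (-1) * (D r r' v v' * D r r' (-v) v') +
        0 * (D r r' v v' * D r r' (-v) v') := by
    funext r r' v v'
    have h3 := hodd r r' (-v) v'
    rw [neg_neg] at h3
    rw [hs r r' v v']
    have h4 : D r' r (-v') v = κ * D r r' v (-v') := hs r r' v (-v')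
    rw [h4, h3]
    have h5 : κ * D r r' v v' * (κ * -D r r' (-v) v') =
        (κ * κ) * (-(D r r' v v' * D r r' (-v) v')) := by ring
    rw [h5, hκ]
    ring
  have h3 := ev_lin Φ Ψ hE hK hK (-1) 0
  rw [h2, h3] at h1
  have h4 : (fun r r' v v' => ((D r r' v v' - D r r' (-v) v') / 2) ^ 2) =
      fun r r' v v' => (1 : ℝ) * ((1 / 4) * D r r' v v' ^ 2 + (1 / 4) * D r r' (-v) v' ^ 2) +
        (-1 / 2) * (D r r' v v' * D r r' (-v) v') := by
    funext r r' v v'
    ring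
  have h5 := ev_s1 Φ Ψ hE (co_sq hD)
  rw [h4, ev_lin Φ Ψ hE (co_comb (co_sq hD) (co_sq (co_s1 hD)) (1 / 4) (1 / 4)) hK,
    ev_lin Φ Ψ hE (co_sq hD) (co_sq (co_s1 hD)), h5]
  linarith

end ev

end JOddP

open JOddP in
theorem prfOddP (hE : clEv) (hD : clDR) (hC : clCl) (hN : clN12) (hI : clCirc) : clOddP := by
  intro V W _ _ _ _ _ _ m n e Φ Ψ U x y hU hn hy hyx hodd
  have hCo : Co U := hU.c1.continuous
  have hodd2 : ∀ r r' v v', U r r' v (-v') = -U r r' (-v) v' := by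
    intro r r' v v'
    have h1 := hodd r r' (-v) v'
    rwa [neg_neg] at h1
  obtain ⟨hdr1, hdr2, hdr3, -⟩ := hD V W m n e Φ Ψ U U hU.c1 hU.c1
  obtain ⟨hn1, hn2⟩ := hN V W m n e Φ Ψ U hU hn
  -- the two parts
  have hP : ∀ r r' v v', pOE U r r' v v' = (U r r' v v' - U r r' (-v) v') / 2 := by
    intro r r' v v'
    unfold pOE
    rw [hodd, hodd2]
    ring
  have hQ : ∀ r r' v v', sw (pEO U) r r' v v' = (U r' r v' v - U r' r v' (-v)) / 2 := by
    intro r r' v v'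
    unfold sw pEO
    have h1 : U r' r (-v') v = -U r' r v' (-v) := by
      have h2 := hodd r' r v' (-v)
      rwa [neg_neg] at h2
    rw [hodd, h1]
    ring
  have coP : Co (pOE U) := by
    have h1 : pOE U = fun r r' v v' => (1 / 2) * U r r' v v' + (-1 / 2) * U r r' (-v) v' := by
      funext r r' v v'
      rw [hP]
      ring
    rw [h1]
    exact co_comb hCo (co_s1 hCo) _ _
  have coQ0 : Co (fun r r' v v' => (U r r' v v' - U r r' v (-v')) / 2) := by
    have h1 : (fun r r' v v' => (U r r' v v' - U r r' v (-v')) / 2) =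
        fun r r' v v' => (1 / 2) * U r r' v v' + (-1 / 2) * U r r' v (-v') := by
      funext r r' v v'
      ring
    rw [h1]
    exact co_comb hCo (co_s2 hCo) _ _
  have coQ : Co (sw (pEO U)) := by
    have h1 : sw (pEO U) = fun r r' v v' => (U r' r v' v - U r' r v' (-v)) / 2 := by
      funext r r' v v'
      exact hQ r r' v v'
    rw [h1]
    exact co_sw coQ0
  -- the squares of the two parts
  have e1 : (((n - (e + 1) : ℕ) : ℝ) - 1) * Ev Φ Ψ (fun r r' v v' => pOE U r r' v v' ^ 2) ≤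
      Ev Φ Ψ (fun r r' v v' => Ψ.n1 (U r r') v v') := by
    have h1 : (fun r r' v v' => pOE U r r' v v' ^ 2) =
        fun r r' v v' => ((U r r' v v' - U r r' (-v) v') / 2) ^ 2 := by
      funext r r' v v'
      rw [hP]
    rw [h1]
    exact hn1
  have e2 : (((n - (e + 1) : ℕ) : ℝ) - 1) *
      Ev Φ Ψ (fun r r' v v' => sw (pEO U) r r' v v' ^ 2) ≤
      Ev Φ Ψ (fun r r' v v' => Ψ.n2 (U r r') v v') := by
    have h1 : (fun r r' v v' => sw (pEO U) r r' v v' ^ 2) =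
        fun r r' v v' => ((U r' r v' v - U r' r v' (-v)) / 2) ^ 2 := by
      funext r r' v v'
      rw [hQ]
    have h2 := ev_sw Φ Ψ hE (co_sq coQ0)
    have h3 : 0 ≤ Ev Φ Ψ (fun r r' v v' =>
        Ψ.n2 (fun v v' => (U r r' v v' + U r r' v (-v')) / 2) v v') := by
      have h4 : C1 (fun r r' v v' => (U r r' v v' + U r r' v (-v')) / 2) := by
        obtain ⟨-, -, hs2, -⟩ := hC V W m n e Φ Ψ U hU
        obtain ⟨hlin, -⟩ := hC V W m n e Φ Ψ U hU
        have h5 := (hlin (s2 U) hs2 (1 / 2) (1 / 2)).c1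
        have h6 : (fun r r' v v' => (U r r' v v' + U r r' v (-v')) / 2) =
            fun r r' v v' => (1 / 2) * U r r' v v' + (1 / 2) * s2 U r r' v v' := by
          funext r r' v v'
          unfold s2
          ring
        rw [h6]
        exact h5
      obtain ⟨-, -, h5, -⟩ := hD V W m n e Φ Ψ _ _ h4 h4
      have h6 := ev_mono Φ Ψ hE (U := fun _ _ _ _ => (0 : ℝ)) continuous_const h5
        (fun r r' v v' _ hp => n2_nonneg Ψ _ v v' hp)
      rwa [ev_const Φ Ψ hE] at h6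
    rw [h1, h2]
    linarith
  -- the rotations
  have coDm : Co (fun r r' v v' => U r r' v v' - U r' r v' v) := Continuous.sub hCo (co_sw hCo)
  have coDp : Co (fun r r' v v' => U r r' v v' + U r' r v' v) := Continuous.add hCo (co_sw hCo)
  have m1 := ev_D Φ Ψ hE coDm
    (by intro r r' v v'; simp only [hodd]; ring) (-1) (by norm_num)
    (by intro r r' v v'; ring)
  have m2 := ev_D Φ Ψ hE coDp
    (by intro r r' v v'; simp only [hodd]; ring) 1 (by norm_num)
    (by intro r r' v v'; ring)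
  have m1' : (fun r r' v v' => (((U r r' v v' - U r' r v' v) -
      (U r r' (-v) v' - U r' r v' (-v))) / 2) ^ 2) =
      fun r r' v v' => (pOE U r r' v v' - sw (pEO U) r r' v v') ^ 2 := by
    funext r r' v v'
    rw [hP, hQ]
    ring
  have m2' : (fun r r' v v' => (((U r r' v v' + U r' r v' v) -
      (U r r' (-v) v' + U r' r v' (-v))) / 2) ^ 2) =
      fun r r' v v' => (pOE U r r' v v' + sw (pEO U) r r' v v') ^ 2 := by
    funext r r' v v'
    rw [hP, hQ]
    ring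
  rw [m1'] at m1
  rw [m2'] at m2
  have m3 : (fun r r' v v' => (U r r' v v' - U r' r (-v') (-v)) ^ 2) =
      fun r r' v v' => (U r r' v v' + U r' r v' v) ^ 2 := by
    funext r r' v v'
    rw [hodd, sub_neg_eq_add]
  have coA : ∀ q, Co (fun r r' v v' => (dR Φ q U r r' v v' + dW Ψ q U r r' v v') ^ 2) :=
    fun q => co_sq (Continuous.add (hdr1 q).1 (hdr1 q).2)
  have coB : ∀ q, Co (fun r r' v v' => (dR Φ q U r r' v v' - dW Ψ q U r r' v v') ^ 2) :=
    fun q => co_sq (Continuous.sub (hdr1 q).1 (hdr1 q).2)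
  have coS := fun q => co_comb (coA q) (coB q) (1 / (2 * (x - y) ^ 2)) (1 / (2 * (x + y) ^ 2))
  obtain ⟨coSum, evSum⟩ := ev_sum Φ Ψ hE Finset.univ _ coS
  have f1 : eD Φ Ψ x y U = fun r r' v v' =>
      (1 : ℝ) * ((1 / x ^ 2) * Ψ.n1 (U r r') v v' + (1 / y ^ 2) * Ψ.n2 (U r r') v v') +
      (1 : ℝ) * ∑ q ∈ Finset.univ, ((1 / (2 * (x - y) ^ 2)) *
          (dR Φ q U r r' v v' + dW Ψ q U r r' v v') ^ 2 +
        (1 / (2 * (x + y) ^ 2)) * (dR Φ q U r r' v v' - dW Ψ q U r r' v v') ^ 2) := by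
    funext r r' v v'
    unfold eD
    rw [one_mul, one_mul]
    have h1 : ∀ q : Fin (e + 1), (dR Φ q U r r' v v' + dW Ψ q U r r' v v') ^ 2 /
        (2 * (x - y) ^ 2) + (dR Φ q U r r' v v' - dW Ψ q U r r' v v') ^ 2 / (2 * (x + y) ^ 2) =
        (1 / (2 * (x - y) ^ 2)) * (dR Φ q U r r' v v' + dW Ψ q U r r' v v') ^ 2 +
        (1 / (2 * (x + y) ^ 2)) * (dR Φ q U r r' v v' - dW Ψ q U r r' v v') ^ 2 :=
      fun q => by ring
    rw [Finset.sum_congr rfl (fun q _ => h1 q)]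
    ring
  have f2 := ev_lin Φ Ψ hE (co_comb hdr2 hdr3 (1 / x ^ 2) (1 / y ^ 2)) coSum 1 1
  have f3 := ev_lin Φ Ψ hE hdr2 hdr3 (1 / x ^ 2) (1 / y ^ 2)
  rw [f1, f2, f3, evSum]
  have coPm : Co (fun r r' v v' => (pOE U r r' v v' - sw (pEO U) r r' v v') ^ 2) :=
    co_sq (Continuous.sub coP coQ)
  have coPp : Co (fun r r' v v' => (pOE U r r' v v' + sw (pEO U) r r' v v') ^ 2) :=
    co_sq (Continuous.add coP coQ)
  have f4 : (fun r r' v v' =>
      (((n - (e + 1) : ℕ) : ℝ) - 1) * (pOE U r r' v v' ^ 2 / x ^ 2) +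
      (((n - (e + 1) : ℕ) : ℝ) - 1) * (sw (pEO U) r r' v v' ^ 2 / y ^ 2) +
      ((e : ℝ) + 1) * ((pOE U r r' v v' - sw (pEO U) r r' v v') ^ 2 / (x - y) ^ 2) +
      ((e : ℝ) + 1) * ((pOE U r r' v v' + sw (pEO U) r r' v v') ^ 2 / (x + y) ^ 2)) =
      fun r r' v v' =>
      (1 : ℝ) * (((((n - (e + 1) : ℕ) : ℝ) - 1) / x ^ 2) * pOE U r r' v v' ^ 2 +
        ((((n - (e + 1) : ℕ) : ℝ) - 1) / y ^ 2) * sw (pEO U) r r' v v' ^ 2) +
      (1 : ℝ) * ((((e : ℝ) + 1) / (x - y) ^ 2) *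
          (pOE U r r' v v' - sw (pEO U) r r' v v') ^ 2 +
        (((e : ℝ) + 1) / (x + y) ^ 2) * (pOE U r r' v v' + sw (pEO U) r r' v v') ^ 2) := by
    funext r r' v v'
    ring
  rw [f4, ev_lin Φ Ψ hE (co_comb (co_sq coP) (co_sq coQ) _ _) (co_comb coPm coPp _ _) 1 1,
    ev_lin Φ Ψ hE (co_sq coP) (co_sq coQ), ev_lin Φ Ψ hE coPm coPp]
  have g1 : ∀ q : Fin (e + 1), (1 / (x - y) ^ 2) *
        Ev Φ Ψ (fun r r' v v' => (pOE U r r' v v' - sw (pEO U) r r' v v') ^ 2) +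
      (1 / (x + y) ^ 2) *
        Ev Φ Ψ (fun r r' v v' => (pOE U r r' v v' + sw (pEO U) r r' v v') ^ 2) ≤
      Ev Φ Ψ (fun r r' v v' => (1 / (2 * (x - y) ^ 2)) *
          (dR Φ q U r r' v v' + dW Ψ q U r r' v v') ^ 2 +
        (1 / (2 * (x + y) ^ 2)) * (dR Φ q U r r' v v' - dW Ψ q U r r' v v') ^ 2) := by
    intro q
    obtain ⟨i1, i2⟩ := hI V W m n e Φ Ψ U hU q
    rw [m3, m2] at i2
    rw [m1] at i1
    rw [ev_lin Φ Ψ hE (coA q) (coB q)]
    have j1 : 0 ≤ 1 / (2 * (x - y) ^ 2) := by positivity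
    have j2 : 0 ≤ 1 / (2 * (x + y) ^ 2) := by positivity
    have j3 := mul_le_mul_of_nonneg_left i1 j1
    have j4 := mul_le_mul_of_nonneg_left i2 j2
    have hxy : x - y ≠ 0 := (sub_pos.2 hyx).ne'
    have hxy' : x + y ≠ 0 := by
      have : 0 < x + y := by linarith
      exact this.ne'
    have j5 : 1 / (2 * (x - y) ^ 2) *
        (2 * Ev Φ Ψ (fun r r' v v' => (pOE U r r' v v' - sw (pEO U) r r' v v') ^ 2)) =
        (1 / (x - y) ^ 2) *
        Ev Φ Ψ (fun r r' v v' => (pOE U r r' v v' - sw (pEO U) r r' v v') ^ 2) := by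
      field_simp
    have j6 : 1 / (2 * (x + y) ^ 2) *
        (2 * Ev Φ Ψ (fun r r' v v' => (pOE U r r' v v' + sw (pEO U) r r' v v') ^ 2)) =
        (1 / (x + y) ^ 2) *
        Ev Φ Ψ (fun r r' v v' => (pOE U r r' v v' + sw (pEO U) r r' v v') ^ 2) := by
      field_simp
    rw [j5] at j3
    rw [j6] at j4
    linarith
  have g2 := Finset.sum_le_sum (s := Finset.univ) (fun q (_ : q ∈ Finset.univ) => g1 q)
  rw [Finset.sum_const, Finset.card_univ, Fintype.card_fin, nsmul_eq_mul] at g2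
  push_cast at g2
  have k1 : 0 ≤ 1 / x ^ 2 := by positivity
  have k2 : 0 ≤ 1 / y ^ 2 := by positivity
  have k3 := mul_le_mul_of_nonneg_left e1 k1
  have k4 := mul_le_mul_of_nonneg_left e2 k2
  have k5 : ∀ a b c : ℝ, a / b * c = 1 / b * (a * c) := fun a b c => by ring
  rw [k5 (((n - (e + 1) : ℕ) : ℝ) - 1), k5 (((n - (e + 1) : ℕ) : ℝ) - 1), k5 ((e : ℝ) + 1),
    k5 ((e : ℝ) + 1)]
  nlinarith [g2, k3, k4]

end Pool.Agent.Work.MP_408f4b_gt.Q
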