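import Pool.Agent.Work.MP_408f4b_gt.Q.Stmts3

set_option autoImplicit false

/-!
# Curves with one boundary component
-/

namespace Pool.Agent.Work.MP_408f4b_gt.Q

open MeasureTheory Set Filter Topology

namespace JOne

theorem cont_wq {a b : ℕ} {x y : ℝ → ℝ} (hx : Continuous x) (hy : Continuous y) :
    Continuous (wq a b x y) := by
  unfold wq
  fun_prop

theorem wq_pos {a b : ℕ} {x y : ℝ → ℝ} {s : ℝ} (h1 : 0 < y s) (h2 : y s < x s) :
    0 < wq a b x y s := by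
  unfold wq
  have h3 : 0 < x s := h1.trans h2
  have h4 : 0 < x s ^ 2 - y s ^ 2 := by nlinarith
  positivity

theorem Ev_nonneg (hE : clEv) {V W : Type} [NormedAddCommGroup V] [InnerProductSpace ℝ V]
    [CompleteSpace V] [NormedAddCommGroup W] [InnerProductSpace ℝ W] [CompleteSpace W]
    {m n e : ℕ} (Φ : Frm V m e) (Ψ : Frm W n e) (U : V → V → W → W → ℝ) (hU : Co U)
    (h : ∀ r r' v v', Φ.Pair r r' → Ψ.Pair v v' → 0 ≤ U r r' v v') : 0 ≤ Ev Φ Ψ U := by
  have h0 : Co (fun (_ _ : V) (_ _ : W) => (0 : ℝ)) := continuous_const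
  obtain ⟨-, -, -, -, -, -, -, -, -, -, -, hmono, -, hconst, -, -⟩ :=
    hE V W m n e Φ Ψ (fun (_ _ : V) (_ _ : W) => (0 : ℝ)) U h0 hU
  have h1 := hmono h
  rw [hconst 0] at h1
  exact h1

theorem Co_of_Cop {V W : Type} [NormedAddCommGroup V] [NormedAddCommGroup W]
    {h : ℝ → V → V → W → W → ℝ} (hh : Cop h) (s : ℝ) : Co (h s) := by
  have h1 : Continuous (fun z : V × V × W × W => ((s, z) : ℝ × V × V × W × W)) := by
    fun_prop
  unfold Cop at hh
  unfold Co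
  exact hh.comp h1

end JOne

open JOne in
theorem prfOne (hM : clMain) (hB : clBt) (hL : clLim) (hE : clEv) (hF : clFub) (hTC : clTCl)
    (hTP : clTPt) (_hEq : clEqn) : clOne := by
  intro V W M _ _ _ _ _ _ _ _ _ n e Φ Ψ T f L x y hn hf hL0 hx hy hc hc1 hdx hdy hx0 hy0 hEv
  -- facts on the curve
  have hcur : ∀ s ∈ Ioc 0 L, 0 < y s ∧ y s < x s ∧ deriv x s ^ 2 + deriv y s ^ 2 = 1 := by
    intro s hs
    obtain ⟨-, -, h⟩ := hc (s / 2) ⟨by linarith [hs.1], by linarith [hs.1, hs.2]⟩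
    obtain ⟨h1, h2, h3, -⟩ := h s ⟨by linarith [hs.1], hs.2⟩
    exact ⟨h1, h2, h3⟩
  have hwpos : ∀ s ∈ Ioc 0 L, 0 < wq (n - (e + 1) - 1) (e + 1) x y s := fun s hs =>
    wq_pos (hcur s hs).1 (hcur s hs).2.1
  have hw0 : wq (n - (e + 1) - 1) (e + 1) x y 0 = 0 := by
    have ha : n - (e + 1) - 1 ≠ 0 := by omega
    unfold wq
    rcases hy0 with h | h
    · rw [h, mul_zero, zero_pow ha, zero_mul]
    · rw [h, sub_self, zero_pow (Nat.succ_ne_zero e), mul_zero]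
  have hwc : Continuous (wq (n - (e + 1) - 1) (e + 1) x y) := cont_wq hx.continuous hy.continuous
  have hdxc : Continuous (deriv x) := hx.continuous_deriv (by norm_num)
  have hdyc : Continuous (deriv y) := hy.continuous_deriv (by norm_num)
  have hdx' : ∀ s, HasDerivAt x (deriv x s) s := fun s =>
    (hx.differentiable (by norm_num) s).hasDerivAt
  have hdy' : ∀ s, HasDerivAt y (deriv y s) s := fun s =>
    (hy.differentiable (by norm_num) s).hasDerivAt
  obtain ⟨-, hcop⟩ := hTC V W M (2 * (e + 1)) n e Φ Ψ T f hf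
  obtain ⟨-, -, -, hgS⟩ := hcop x (deriv x) y (deriv y) hdx' hdy' hdxc hdyc
  obtain ⟨-, hgS0, -, -⟩ := hTP V W M (2 * (e + 1)) n e Φ Ψ T f hf
  -- the density
  set F : ℝ → ℝ := fun s => Ev Φ Ψ (T.gS f (x s) (y s) (deriv x s) (deriv y s)) with hFdef
  have hFc : Continuous F := (hF V W (2 * (e + 1)) n e Φ Ψ
    (fun s => T.gS f (x s) (y s) (deriv x s) (deriv y s))
    (fun s => T.gS f (x s) (y s) (deriv x s) (deriv y s)) hgS hgS).1
  have hF0 : ∀ s ∈ Ioc 0 L, 0 ≤ F s := by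
    intro s hs
    exact Ev_nonneg hE Φ Ψ _ (Co_of_Cop hgS s) fun r r' v v' hr hv =>
      hgS0 (x s) (y s) (deriv x s) (deriv y s) r r' v v' (hcur s hs).2.2 hr hv
  have hFw : Continuous fun s => F s * wq (n - (e + 1) - 1) (e + 1) x y s := hFc.mul hwc
  have hFw0 : ∀ s ∈ Icc 0 L, 0 ≤ F s * wq (n - (e + 1) - 1) (e + 1) x y s := by
    intro s hs
    rcases hs.1.eq_or_lt with h | h
    · rw [← h, hw0, mul_zero]
    · exact mul_nonneg (hF0 s ⟨h, hs.2⟩) (hwpos s ⟨h, hs.2⟩).le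
  -- the inequality on pieces
  have key : ∀ α ∈ Ioo 0 L, Bt T f x y L ≤
      (∫ s in (0 : ℝ)..L, F s * wq (n - (e + 1) - 1) (e + 1) x y s) + Bt T f x y α := by
    intro α hα
    have h1 := hM V W M n e Φ Ψ T f α L x y hn hf hα.2 (hc α hα)
    have h2 : 0 ≤ ∫ s in α..L, Ev Φ Ψ (T.gT f (x s) (y s) (deriv x s) (deriv y s)) ^ 2 *
        wq (n - (e + 1) - 1) (e + 1) x y s :=
      intervalIntegral.integral_nonneg hα.2.le fun s hs =>
        mul_nonneg (sq_nonneg _) (hwpos s ⟨hα.1.trans_le hs.1, hs.2⟩).le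
    have h3 : ∫ s in α..L, F s * wq (n - (e + 1) - 1) (e + 1) x y s ≤
        ∫ s in (0 : ℝ)..L, F s * wq (n - (e + 1) - 1) (e + 1) x y s := by
      rw [← intervalIntegral.integral_add_adjacent_intervals
        (hFw.intervalIntegrable 0 α) (hFw.intervalIntegrable α L)]
      have h6 : 0 ≤ ∫ s in (0 : ℝ)..α, F s * wq (n - (e + 1) - 1) (e + 1) x y s :=
        intervalIntegral.integral_nonneg hα.1.le fun s hs =>
          hFw0 s ⟨hs.1, hs.2.trans hα.2.le⟩
      linarith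
    linarith
  -- the limit
  have hlim : Tendsto (Bt T f x y) (𝓝[>] 0) (𝓝 0) := by
    refine hL V W M n e Φ Ψ T f x y hn hf hx hy ?_ hx0 hy0
    filter_upwards [Ioo_mem_nhdsGT hL0] with s hs
    exact ⟨(hcur s ⟨hs.1, hs.2.le⟩).1, (hcur s ⟨hs.1, hs.2.le⟩).2.1⟩
  have hlim2 : Tendsto (fun α => (∫ s in (0 : ℝ)..L, F s * wq (n - (e + 1) - 1) (e + 1) x y s) +
      Bt T f x y α) (𝓝[>] 0)
      (𝓝 ((∫ s in (0 : ℝ)..L, F s * wq (n - (e + 1) - 1) (e + 1) x y s) + 0)) :=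
    tendsto_const_nhds.add hlim
  have h := ge_of_tendsto hlim2 (by
    filter_upwards [Ioo_mem_nhdsGT hL0] with α hα
    exact key α hα)
  rw [add_zero] at h
  -- the boundary term
  have hLc := hcur L ⟨hL0, le_refl L⟩
  have hBL := hB V W M (2 * (e + 1)) n e Φ Ψ T f 1 L x y hf hLc.1 hLc.2.1 hc1
    (by rw [one_mul]; exact hdx) (by rw [one_mul]; exact hdy)
  rw [hBL, hEv] at h
  have h9 : Ev Φ Ψ (fun r r' v v' => T.U f (x L) (y L) r r' v v' ^ 2) *
      wq (n - (e + 1) - 1) (e + 1) x y L =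
      1 * (wq (n - (e + 1) - 1) (e + 1) x y L *
    (Ev Φ Ψ (fun r r' v v' => T.U f (x L) (y L) r r' v v' ^ 2) - 0 ^ 2)) := by ring
  rw [h9]
  exact h

end Pool.Agent.Work.MP_408f4b_gt.Q
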