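import Pool.Agent.Work.MP_408f4b_gt.Q.Stmts3

set_option autoImplicit false

/-!
# Decomposition into parities
-/

namespace Pool.Agent.Work.MP_408f4b_gt.Q

open MeasureTheory Set Filter Topology

namespace JPars

section

variable {V W : Type} [NormedAddCommGroup V] [NormedAddCommGroup W] {U U₂ : V → V → W → W → ℝ}

/-- the constant functions are continuous -/
lemma co_const (c : ℝ) : Co (fun (_ _ : V) (_ _ : W) => c) := continuous_const

lemma co_add (h : Co U) (h₂ : Co U₂) : Co (fun r r' v v' => U r r' v v' + U₂ r r' v v') :=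
  Continuous.add h h₂

lemma co_mul (h : Co U) (h₂ : Co U₂) : Co (fun r r' v v' => U r r' v v' * U₂ r r' v v') :=
  Continuous.mul h h₂

lemma co_cmul (c : ℝ) (h : Co U) : Co (fun r r' v v' => c * U r r' v v') :=
  Continuous.mul continuous_const h

lemma co_sub (h : Co U) (h₂ : Co U₂) : Co (fun r r' v v' => U r r' v v' - U₂ r r' v v') :=
  Continuous.sub h h₂

lemma co_sq (h : Co U) : Co (fun r r' v v' => U r r' v v' ^ 2) := Continuous.pow h 2

lemma co_s1 (h : Co U) : Co (fun r r' v v' => U r r' (-v) v') := by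
  have h1 : Continuous (fun z : V × V × W × W => (z.1, z.2.1, -z.2.2.1, z.2.2.2)) := by fun_prop
  exact Continuous.comp h h1

lemma co_s2 (h : Co U) : Co (fun r r' v v' => U r r' v (-v')) := by
  have h1 : Continuous (fun z : V × V × W × W => (z.1, z.2.1, z.2.2.1, -z.2.2.2)) := by fun_prop
  exact Continuous.comp h h1

lemma co_s12 (h : Co U) : Co (fun r r' v v' => U r r' (-v) (-v')) := by
  have h1 : Continuous (fun z : V × V × W × W => (z.1, z.2.1, -z.2.2.1, -z.2.2.2)) := by fun_prop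
  exact Continuous.comp h h1

lemma co_sw (h : Co U) : Co (sw U) := by
  have h1 : Continuous (fun z : V × V × W × W => (z.2.1, z.1, z.2.2.2, z.2.2.1)) := by fun_prop
  exact Continuous.comp h h1

lemma co_pEE (h : Co U) : Co (pEE U) :=
  (((Continuous.add h (co_s1 h)).add (co_s2 h)).add (co_s12 h)).div_const 4

lemma co_pOO (h : Co U) : Co (pOO U) :=
  (((Continuous.sub h (co_s1 h)).sub (co_s2 h)).add (co_s12 h)).div_const 4

lemma co_pOE (h : Co U) : Co (pOE U) :=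
  (((Continuous.sub h (co_s1 h)).add (co_s2 h)).sub (co_s12 h)).div_const 4

lemma co_pEO (h : Co U) : Co (pEO U) :=
  (((Continuous.add h (co_s1 h)).sub (co_s2 h)).sub (co_s12 h)).div_const 4

end

section

variable {V W : Type} [NormedAddCommGroup V] [InnerProductSpace ℝ V] [CompleteSpace V]
  [NormedAddCommGroup W] [InnerProductSpace ℝ W] [CompleteSpace W] {m n e : ℕ}
  (Φ : Frm V m e) (Ψ : Frm W n e) {U U₂ : V → V → W → W → ℝ}

lemma ev_add (hE : clEv) (h : Co U) (h₂ : Co U₂) :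
    Ev Φ Ψ (fun r r' v v' => U r r' v v' + U₂ r r' v v') = Ev Φ Ψ U + Ev Φ Ψ U₂ := by
  obtain ⟨_, _, _, _, _, _, _, _, _, _, hl, _⟩ := hE V W m n e Φ Ψ U U₂ h h₂
  simpa using hl 1 1

lemma ev_lin (hE : clEv) (h : Co U) (h₂ : Co U₂) (c d : ℝ) :
    Ev Φ Ψ (fun r r' v v' => c * U r r' v v' + d * U₂ r r' v v') =
      c * Ev Φ Ψ U + d * Ev Φ Ψ U₂ := by
  obtain ⟨_, _, _, _, _, _, _, _, _, _, hl, _⟩ := hE V W m n e Φ Ψ U U₂ h h₂
  exact hl c d

lemma ev_s1 (hE : clEv) (h : Co U) : Ev Φ Ψ (fun r r' v v' => U r r' (-v) v') = Ev Φ Ψ U := by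
  obtain ⟨_, _, _, _, _, _, _, h8, _⟩ := hE V W m n e Φ Ψ U U h h
  exact h8

lemma ev_s2 (hE : clEv) (h : Co U) : Ev Φ Ψ (fun r r' v v' => U r r' v (-v')) = Ev Φ Ψ U := by
  obtain ⟨_, _, _, _, _, _, _, _, h9, _⟩ := hE V W m n e Φ Ψ U U h h
  exact h9

lemma ev_sw (hE : clEv) (h : Co U) : Ev Φ Ψ (sw U) = Ev Φ Ψ U := by
  have h1 : Continuous (fun z : V × V × W × W => (z.1, z.2.1, z.2.2.2, z.2.2.1)) := by fun_prop
  have h2 : Co (fun r r' v v' => U r r' v' v) := Continuous.comp h h1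
  obtain ⟨_, _, _, _, _, h6, _⟩ := hE V W m n e Φ Ψ _ U h2 h
  obtain ⟨_, _, _, _, _, _, h7, _⟩ := hE V W m n e Φ Ψ U U h h
  exact h6.trans h7

lemma ev_odd1 (hE : clEv) (h : Co U) (ho : ∀ r r' v v', U r r' (-v) v' = - U r r' v v') :
    Ev Φ Ψ U = 0 := by
  have h1 := ev_s1 Φ Ψ hE h
  have h2 : Ev Φ Ψ (fun r r' v v' => U r r' (-v) v') = - Ev Φ Ψ U := by
    have h3 := ev_lin Φ Ψ hE h h (-1) 0
    have h4 : (fun (r r' : V) (v v' : W) => U r r' (-v) v') =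
        fun r r' v v' => -1 * U r r' v v' + 0 * U r r' v v' := by
      funext r r' v v'
      rw [ho]; ring
    rw [h4, h3]; ring
  linarith

lemma ev_odd2 (hE : clEv) (h : Co U) (ho : ∀ r r' v v', U r r' v (-v') = - U r r' v v') :
    Ev Φ Ψ U = 0 := by
  have h1 := ev_s2 Φ Ψ hE h
  have h2 : Ev Φ Ψ (fun r r' v v' => U r r' v (-v')) = - Ev Φ Ψ U := by
    have h3 := ev_lin Φ Ψ hE h h (-1) 0
    have h4 : (fun (r r' : V) (v v' : W) => U r r' v (-v')) =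
        fun r r' v v' => -1 * U r r' v v' + 0 * U r r' v v' := by
      funext r r' v v'
      rw [ho]; ring
    rw [h4, h3]; ring
  linarith

end

end JPars

open JPars in
theorem prfPars (hE : clEv) : clPars := by
  intro V W _ _ _ _ _ _ m n e Φ Ψ U hU
  obtain ⟨_, _, hcA, hav, _, _, _, _, _, _, _, _, _, _, hφ, _⟩ := hE V W m n e Φ Ψ U U hU hU
  have hEE := co_pEE hU
  have hOO := co_pOO hU
  have hOE := co_pOE hU
  have hEO := co_pEO hU
  have hA : Co (pA Ψ U) := by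
    have h1 : Continuous (fun z : V × V × W × W => (z.1, z.2.1)) := by fun_prop
    exact Continuous.comp (g := fun z : V × V => Ψ.av (U z.1 z.2)) hcA h1
  -- the cross terms
  set O1 : V → V → W → W → ℝ := fun r r' v v' =>
    (pEE U r r' v v' * pOO U r r' v v' + pEE U r r' v v' * pOE U r r' v v') +
      (pOO U r r' v v' * pEO U r r' v v' + pOE U r r' v v' * pEO U r r' v v') with hO1
  set O2 : V → V → W → W → ℝ := fun r r' v v' =>
    pEE U r r' v v' * pEO U r r' v v' + pOO U r r' v v' * pOE U r r' v v' with hO2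
  have hcO1 : Co O1 := co_add (co_add (co_mul hEE hOO) (co_mul hEE hOE))
    (co_add (co_mul hOO hEO) (co_mul hOE hEO))
  have hcO2 : Co O2 := co_add (co_mul hEE hEO) (co_mul hOO hOE)
  have zO1 : Ev Φ Ψ O1 = 0 := by
    refine ev_odd1 Φ Ψ hE hcO1 ?_
    intro r r' v v'
    simp only [hO1, pEE, pOO, pOE, pEO, neg_neg]
    ring
  have zO2 : Ev Φ Ψ O2 = 0 := by
    refine ev_odd2 Φ Ψ hE hcO2 ?_
    intro r r' v v'
    simp only [hO2, pEE, pOO, pOE, pEO, neg_neg]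
    ring
  have e1 : Ev Φ Ψ (fun r r' v v' => U r r' v v' ^ 2) =
      Ev Φ Ψ (fun r r' v v' => pEE U r r' v v' ^ 2) +
      Ev Φ Ψ (fun r r' v v' => pOO U r r' v v' ^ 2) +
      (Ev Φ Ψ (fun r r' v v' => pOE U r r' v v' ^ 2) +
      Ev Φ Ψ (fun r r' v v' => pEO U r r' v v' ^ 2)) := by
    have a1 := ev_add Φ Ψ hE (co_sq hEE) (co_sq hOO)
    have a2 := ev_add Φ Ψ hE (co_sq hOE) (co_sq hEO)
    have a3 := ev_add Φ Ψ hE (co_add (co_sq hEE) (co_sq hOO)) (co_add (co_sq hOE) (co_sq hEO))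
    have a4 := ev_lin Φ Ψ hE hcO1 hcO2 2 2
    have a5 := ev_add Φ Ψ hE (co_add (co_add (co_sq hEE) (co_sq hOO))
      (co_add (co_sq hOE) (co_sq hEO))) (co_add (co_cmul 2 hcO1) (co_cmul 2 hcO2))
    have a6 : (fun (r r' : V) (v v' : W) => U r r' v v' ^ 2) = fun r r' v v' =>
        ((pEE U r r' v v' ^ 2 + pOO U r r' v v' ^ 2) +
          (pOE U r r' v v' ^ 2 + pEO U r r' v v' ^ 2)) +
        (2 * O1 r r' v v' + 2 * O2 r r' v v') := by
      funext r r' v v'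
      simp only [hO1, hO2, pEE, pOO, pOE, pEO]
      ring
    rw [a6, a5, a3, a1, a2, a4, zO1, zO2]
    ring
  have e2 : Ev Φ Ψ (fun r r' v v' => sw (pEO U) r r' v v' ^ 2) =
      Ev Φ Ψ (fun r r' v v' => pEO U r r' v v' ^ 2) :=
    ev_sw Φ Ψ hE (co_sq hEO)
  -- the mean
  have e3 : Ev Φ Ψ (pA Ψ U) = Ev Φ Ψ U := (hφ _).trans hav.symm
  set F : V → V → W → W → ℝ := fun r r' v v' => U r r' v v' * pA Ψ U r r' v v' with hF
  have hcF : Co F := co_mul hU hA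
  have e4 : Ev Φ Ψ F = Ev Φ Ψ (fun r r' v v' => pA Ψ U r r' v v' ^ 2) := by
    obtain ⟨_, _, _, hav1, _⟩ := hE V W m n e Φ Ψ F F hcF hcF
    obtain ⟨_, _, _, hav2, _⟩ := hE V W m n e Φ Ψ _ _ (co_sq hA) (co_sq hA)
    rw [hav1, hav2]
    congr 1
    funext r r'
    show ∫ g, F r r' (Ψ.A g Ψ.a) (Ψ.A g Ψ.b) ∂Ψ.μ = ∫ _, (Ψ.av (U r r')) ^ 2 ∂Ψ.μ
    have h1 : ∀ g, F r r' (Ψ.A g Ψ.a) (Ψ.A g Ψ.b) =
        U r r' (Ψ.A g Ψ.a) (Ψ.A g Ψ.b) * Ψ.av (U r r') := fun g => rfl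
    simp only [h1]
    rw [integral_mul_const]
    simp only [integral_const, probReal_univ, smul_eq_mul, one_mul]
    rw [sq]
    rfl
  have e5 : Ev Φ Ψ (fun r r' v v' => pEE U r r' v v' * pA Ψ U r r' v v') = Ev Φ Ψ F := by
    have b1 : Co (fun r r' v v' => F r r' (-v) v') := co_s1 hcF
    have b2 : Co (fun r r' v v' => F r r' v (-v')) := co_s2 hcF
    have b3 : Co (fun r r' v v' => F r r' (-v) (-v')) := co_s12 hcF
    have c1 := ev_s1 Φ Ψ hE hcF
    have c2 := ev_s2 Φ Ψ hE hcF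
    have c3 : Ev Φ Ψ (fun r r' v v' => F r r' (-v) (-v')) = Ev Φ Ψ F :=
      (ev_s2 Φ Ψ hE b1).trans c1
    have a1 := ev_lin Φ Ψ hE hcF b1 (1 / 4) (1 / 4)
    have a2 := ev_lin Φ Ψ hE b2 b3 (1 / 4) (1 / 4)
    have a3 := ev_add Φ Ψ hE (co_add (co_cmul (1 / 4) hcF) (co_cmul (1 / 4) b1))
      (co_add (co_cmul (1 / 4) b2) (co_cmul (1 / 4) b3))
    have a4 : (fun (r r' : V) (v v' : W) => pEE U r r' v v' * pA Ψ U r r' v v') =
        fun r r' v v' => (1 / 4 * F r r' v v' + 1 / 4 * F r r' (-v) v') +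
          (1 / 4 * F r r' v (-v') + 1 / 4 * F r r' (-v) (-v')) := by
      funext r r' v v'
      simp only [hF, pEE, pA]
      ring
    rw [a4, a3, a1, a2, c1, c2, c3]
    ring
  have e6 : Ev Φ Ψ (fun r r' v v' => (pEE U r r' v v' - pA Ψ U r r' v v') ^ 2) =
      Ev Φ Ψ (fun r r' v v' => pEE U r r' v v' ^ 2) -
        Ev Φ Ψ (fun r r' v v' => pA Ψ U r r' v v' ^ 2) := by
    have a1 := ev_lin Φ Ψ hE (co_mul hEE hA) (co_sq hA) (-2) 1
    have a2 := ev_add Φ Ψ hE (co_sq hEE) (co_add (co_cmul (-2) (co_mul hEE hA))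
      (co_cmul 1 (co_sq hA)))
    have a3 : (fun (r r' : V) (v v' : W) => (pEE U r r' v v' - pA Ψ U r r' v v') ^ 2) =
        fun r r' v v' => pEE U r r' v v' ^ 2 +
          (-2 * (pEE U r r' v v' * pA Ψ U r r' v v') + 1 * pA Ψ U r r' v v' ^ 2) := by
      funext r r' v v'
      ring
    rw [a3, a2, a1, e5, e4]
    ring
  refine ⟨?_, ?_, e3, hOE, co_sw hEO, hOO, hEE, hA⟩
  · rw [e1, e2, e6]
    ring
  · have a0 := co_const (V := V) (W := W) (Ev Φ Ψ U)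
    have a1 := ev_lin Φ Ψ hE hA (co_const (V := V) (W := W) 1) (-2 * Ev Φ Ψ U) (Ev Φ Ψ U ^ 2)
    have a2 := ev_add Φ Ψ hE (co_sq hA) (co_add (co_cmul (-2 * Ev Φ Ψ U) hA)
      (co_cmul (Ev Φ Ψ U ^ 2) (co_const (V := V) (W := W) 1)))
    obtain ⟨_, _, _, _, _, _, _, _, _, _, _, hmono, _, hconst, _⟩ := hE V W m n e Φ Ψ
      (fun _ _ _ _ => (0 : ℝ)) (fun r r' v v' => (pA Ψ U r r' v v' - Ev Φ Ψ U) ^ 2)
      (co_const 0) (co_sq (co_sub hA a0))
    have a3 := hmono (fun r r' v v' _ _ => sq_nonneg _)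
    rw [hconst 0] at a3
    have a4 : (fun (r r' : V) (v v' : W) => (pA Ψ U r r' v v' - Ev Φ Ψ U) ^ 2) =
        fun r r' v v' => pA Ψ U r r' v v' ^ 2 +
          (-2 * Ev Φ Ψ U * pA Ψ U r r' v v' + Ev Φ Ψ U ^ 2 * 1) := by
      funext r r' v v'
      ring
    rw [a4, a2, a1, e3, hconst 1] at a3
    nlinarith

end Pool.Agent.Work.MP_408f4b_gt.Q
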