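import Pool.Agent.Work.MP_408f4b_gt.Q.Stmts3

/-! Item Psi: smoothness of the homogeneous extension. -/

set_option autoImplicit false

namespace Pool.Agent.Work.MP_408f4b_gt.Q

namespace JPsi

open Set Filter Topology

variable {V : Type} [NormedAddCommGroup V] [InnerProductSpace ℝ V]

lemma psi_smul (g : V → V → ℝ) (v y : V) {t : ℝ} (ht : 0 < t) :
    psi g v (t • y) = t ^ 2 * psi g v y := by
  unfold psi
  rw [norm_smul, Real.norm_eq_abs, abs_of_pos ht, smul_smul]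
  have : (t * ‖y‖)⁻¹ * t = ‖y‖⁻¹ := by
    rw [mul_inv, mul_comm t⁻¹, mul_assoc, inv_mul_cancel₀ ht.ne', mul_one]
  rw [this]
  ring

lemma psi_zero (g : V → V → ℝ) (v : V) : psi g v 0 = 0 := by
  simp [psi]

lemma contDiffOn_psi (g : V → V → ℝ) (hg : ContDiff ℝ 1 (fun z : V × V => g z.1 z.2)) :
    ContDiffOn ℝ 1 (fun z : V × V => psi g z.1 z.2) {z | z.2 ≠ 0} := by
  intro z hz
  apply ContDiffAt.contDiffWithinAt
  have h1 : ContDiffAt ℝ 1 (fun z : V × V => ‖z.2‖) z :=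
    (contDiffAt_norm ℝ hz).comp z contDiffAt_snd
  have h2 : ContDiffAt ℝ 1 (fun z : V × V => ‖z.2‖⁻¹) z :=
    h1.inv (norm_ne_zero_iff.mpr hz)
  have h3 : ContDiffAt ℝ 1 (fun z : V × V => (z.1, ‖z.2‖⁻¹ • z.2)) z :=
    contDiffAt_fst.prodMk (h2.smul contDiffAt_snd)
  have h4 : ContDiffAt ℝ 1 (fun z : V × V => g z.1 (‖z.2‖⁻¹ • z.2)) z := by
    show ContDiffAt ℝ 1
      ((fun z : V × V => g z.1 z.2) ∘ fun z : V × V => (z.1, ‖z.2‖⁻¹ • z.2)) z
    exact (hg.contDiffAt (x := (z.1, ‖z.2‖⁻¹ • z.2))).comp z h3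
  exact (h1.pow 2).mul h4

lemma bd {W : Type} [NormedAddCommGroup W] [NormedSpace ℝ W] {f : W → ℝ} {K : Set W}
    (hK : IsCompact K) (h : ContinuousOn (fderiv ℝ f) K) : ∃ C, ∀ x ∈ K, ‖fderiv ℝ f x‖ ≤ C :=
  hK.exists_bound_of_continuousOn h

lemma nsc {W : Type} [NormedAddCommGroup W] [NormedSpace ℝ W] (t : ℝ) (φ : W →L[ℝ] ℝ)
    (S : W →L[ℝ] W) : ‖t • φ.comp S‖ ≤ |t| * (‖φ‖ * ‖S‖) := by
  rw [norm_smul, Real.norm_eq_abs]
  exact mul_le_mul_of_nonneg_left (φ.opNorm_comp_le S) (abs_nonneg t)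

lemma cont_zero {W : Type} [NormedAddCommGroup W] [NormedSpace ℝ W] {F : W → (W →L[ℝ] ℝ)}
    {z0 : W} (h0 : F z0 = 0) {b : W → ℝ} (hb : Tendsto b (𝓝 z0) (𝓝 0))
    (h : ∀ᶠ z in 𝓝 z0, ‖F z‖ ≤ b z) : ContinuousAt F z0 := by
  unfold ContinuousAt
  rw [h0]
  exact squeeze_zero_norm' h hb

/-- The linear map that rescales the second vector. -/
noncomputable def scl (V : Type) [NormedAddCommGroup V] [InnerProductSpace ℝ V] (t : ℝ) :
    V × V →L[ℝ] V × V :=
  (ContinuousLinearMap.fst ℝ V V).prod (t • ContinuousLinearMap.snd ℝ V V)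

lemma scl_apply (t : ℝ) (z : V × V) : scl V t z = (z.1, t • z.2) := rfl

lemma norm_scl_le {t : ℝ} (ht : 0 < t) : ‖scl V t⁻¹‖ ≤ 1 + t⁻¹ := by
  refine ContinuousLinearMap.opNorm_le_bound _ (by positivity) fun z => ?_
  rw [scl_apply, Prod.norm_mk]
  have h1 := norm_fst_le z
  have h2 := norm_snd_le z
  have h3 : 0 < t⁻¹ := by positivity
  rw [norm_smul, Real.norm_eq_abs, abs_of_pos h3]
  have h4 : t⁻¹ * ‖z.2‖ ≤ t⁻¹ * ‖z‖ := mul_le_mul_of_nonneg_left h2 h3.le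
  have h5 : 0 ≤ t⁻¹ * ‖z‖ := by positivity
  have h6 := norm_nonneg z
  refine max_le ?_ ?_ <;> nlinarith

lemma fderiv_scale (g : V → V → ℝ) (hg : ContDiff ℝ 1 (fun z : V × V => g z.1 z.2))
    (z : V × V) (hz : z.2 ≠ 0) :
    ‖fderiv ℝ (fun z : V × V => psi g z.1 z.2) z‖ ≤
      (‖z.2‖ ^ 2 + ‖z.2‖) * ‖fderiv ℝ (fun z : V × V => psi g z.1 z.2) (z.1, ‖z.2‖⁻¹ • z.2)‖ := by
  set f : V × V → ℝ := fun z => psi g z.1 z.2 with hf
  set t : ℝ := ‖z.2‖ with ht
  have htp : 0 < t := norm_pos_iff.mpr hz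
  have hopen : IsOpen {z : V × V | z.2 ≠ 0} := isOpen_ne.preimage continuous_snd
  have h1 : f = fun w => t ^ 2 * f (scl V t⁻¹ w) := by
    funext w
    rw [scl_apply, hf]
    simp only
    rw [← psi_smul g w.1 _ htp, smul_inv_smul₀ htp.ne']
  have hu : (scl V t⁻¹ z).2 ≠ 0 := by
    rw [scl_apply]
    exact smul_ne_zero (inv_ne_zero htp.ne') hz
  have hd : DifferentiableAt ℝ f (scl V t⁻¹ z) :=
    ((contDiffOn_psi g hg).contDiffAt (hopen.mem_nhds hu)).differentiableAt one_ne_zero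
  have h2 : HasFDerivAt f (t ^ 2 • (fderiv ℝ f (scl V t⁻¹ z)).comp (scl V t⁻¹)) z := by
    have h3 : HasFDerivAt (fun w => f (scl V t⁻¹ w))
        ((fderiv ℝ f (scl V t⁻¹ z)).comp (scl V t⁻¹)) z :=
      hd.hasFDerivAt.comp z (scl V t⁻¹).hasFDerivAt
    have h4 := h3.const_mul (t ^ 2)
    rw [← h1] at h4
    exact h4
  rw [h2.fderiv]
  have h6 := norm_scl_le (V := V) htp
  have h7 := norm_nonneg (fderiv ℝ f (scl V t⁻¹ z))
  refine (nsc _ _ _).trans ?_
  rw [abs_of_nonneg (by positivity)]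
  calc t ^ 2 * (‖fderiv ℝ f (scl V t⁻¹ z)‖ * ‖scl V t⁻¹‖)
      ≤ t ^ 2 * (‖fderiv ℝ f (scl V t⁻¹ z)‖ * (1 + t⁻¹)) := by
        refine mul_le_mul_of_nonneg_left ?_ (by positivity)
        exact mul_le_mul_of_nonneg_left h6 h7
    _ = (t ^ 2 + t) * ‖fderiv ℝ f (scl V t⁻¹ z)‖ := by
        field_simp

end JPsi

open JPsi Set Filter Topology in
theorem prfPsi : clPsi := by
  intro V _ _ _ g hg
  set f : V × V → ℝ := fun z => psi g z.1 z.2 with hf
  have hopen : IsOpen {z : V × V | z.2 ≠ 0} := isOpen_ne.preimage continuous_snd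
  have hon : ContDiffOn ℝ 1 f {z | z.2 ≠ 0} := contDiffOn_psi g hg
  have hcf : ContinuousOn (fderiv ℝ f) {z : V × V | z.2 ≠ 0} :=
    hon.continuousOn_fderiv_of_isOpen hopen le_rfl
  have hproper : ProperSpace V := FiniteDimensional.proper_real V
  have hK : ∀ v0 : V, IsCompact (Metric.closedBall v0 1 ×ˢ Metric.sphere (0 : V) 1) := fun v0 =>
    (isCompact_closedBall v0 1).prod (isCompact_sphere 0 1)
  have hKU : ∀ v0 : V, Metric.closedBall v0 1 ×ˢ Metric.sphere (0 : V) 1 ⊆ {z | z.2 ≠ 0} := by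
    intro v0 z hz h0
    have := hz.2
    rw [h0, mem_sphere_zero_iff_norm, norm_zero] at this
    exact zero_ne_one this
  have hmem : ∀ (v0 : V) (z : V × V), dist z (v0, 0) < 1 → z.2 ≠ 0 →
      (z.1, ‖z.2‖⁻¹ • z.2) ∈ Metric.closedBall v0 1 ×ˢ Metric.sphere (0 : V) 1 := by
    intro v0 z hz h0
    refine ⟨?_, ?_⟩
    · rw [Metric.mem_closedBall]
      exact (le_max_left _ _).trans hz.le
    · rw [mem_sphere_zero_iff_norm, norm_smul, norm_inv, norm_norm]
      exact inv_mul_cancel₀ (norm_ne_zero_iff.mpr h0)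
  have hder : ∀ v0 : V, HasFDerivAt f (0 : V × V →L[ℝ] ℝ) (v0, 0) := by
    intro v0
    obtain ⟨C, hC⟩ := (hK v0).exists_bound_of_continuousOn hg.continuous.continuousOn
    have hO : f =O[𝓝 (v0, 0)] fun z => ‖z - (v0, 0)‖ ^ 2 := by
      refine Asymptotics.IsBigO.of_bound |C| ?_
      filter_upwards [Metric.ball_mem_nhds (v0, (0 : V)) one_pos] with z hz
      rw [Metric.mem_ball] at hz
      rw [norm_pow, norm_norm]
      have h1 : ‖z.2‖ ≤ ‖z - (v0, 0)‖ := by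
        have := norm_snd_le (z - (v0, 0))
        simpa using this
      by_cases h0 : z.2 = 0
      · have : f z = 0 := by rw [hf]; simp only; rw [h0, psi_zero]
        rw [this, norm_zero]; positivity
      · have h2 := hC _ (hmem v0 z hz h0)
        simp only at h2
        have h3 : ‖f z‖ = ‖z.2‖ ^ 2 * ‖g z.1 (‖z.2‖⁻¹ • z.2)‖ := by
          rw [hf]; simp only [psi]; rw [norm_mul, norm_pow, norm_norm]
        rw [h3, mul_comm]
        exact mul_le_mul (h2.trans (le_abs_self C)) (pow_le_pow_left₀ (norm_nonneg _) h1 2)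
          (by positivity) (abs_nonneg C)
    exact hO.hasFDerivAt (by norm_num)
  rw [contDiff_one_iff_fderiv]
  refine ⟨fun z => ?_, ?_⟩
  · by_cases h0 : z.2 = 0
    · have : z = (z.1, 0) := by rw [← h0]
      rw [this]
      exact (hder z.1).differentiableAt
    · exact (hon.contDiffAt (hopen.mem_nhds h0)).differentiableAt one_ne_zero
  · rw [continuous_iff_continuousAt]
    intro z
    by_cases h0 : z.2 = 0
    · obtain ⟨v0, y0⟩ := z
      simp only at h0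
      subst h0
      obtain ⟨M, hM⟩ := bd (hK v0) (hcf.mono (hKU v0))
      have hfd : ∀ v : V, fderiv ℝ f (v, 0) = 0 := fun v => (hder v).fderiv
      have hlim : Tendsto (fun z : V × V => (‖z.2‖ ^ 2 + ‖z.2‖) * |M|) (𝓝 (v0, 0)) (𝓝 0) := by
        have h1 : Continuous (fun z : V × V => (‖z.2‖ ^ 2 + ‖z.2‖) * |M|) := by fun_prop
        have h2 := h1.tendsto (v0, (0 : V))
        simpa using h2
      refine cont_zero (hfd v0) hlim ?_
      filter_upwards [Metric.ball_mem_nhds (v0, (0 : V)) one_pos] with z hz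
      rw [Metric.mem_ball] at hz
      by_cases h1 : z.2 = 0
      · have : z = (z.1, 0) := by rw [← h1]
        rw [this, hfd, norm_zero]; positivity
      · refine (fderiv_scale g hg z h1).trans ?_
        refine mul_le_mul_of_nonneg_left ((hM _ (hmem v0 z hz h1)).trans (le_abs_self M)) ?_
        positivity
    · exact hcf.continuousAt (hopen.mem_nhds h0)

end Pool.Agent.Work.MP_408f4b_gt.Q
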