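import Pool.Agent.Work.MP_408f4b_gt.Q.Stmts3

set_option autoImplicit false

namespace Pool.Agent.Work.MP_408f4b_gt.Q

open MeasureTheory Set Filter Topology

namespace JSec3

variable {a b : ℕ} {α β : ℝ} {x y : ℝ → ℝ}

theorem contW (h : clEqn) (ha : 1 ≤ a) (hb : 1 ≤ b) (hαβ : α < β) (hC : Crv a b α β x y) :
    ContinuousOn (wq a b x y) (Icc α β) := fun s hs =>
  ((h a b α β x y ha hb hαβ hC s hs).2.2.2.1).continuousAt.continuousWithinAt

theorem secY (h0 : clSec0) (h : clEqn) : clSecY := by
  intro a b α β x y ha hb hαβ hC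
  have hE := h a b α β x y ha hb hαβ hC
  have hx : Continuous x := hC.1.continuous
  have hy : Continuous y := hC.2.1.continuous
  have hw := contW h ha hb hαβ hC
  have hyp : ∀ s ∈ Icc α β, 0 < y s := fun s hs => (hC.2.2 s hs).1
  have hxy : ∀ s ∈ Icc α β, 0 < x s - y s := fun s hs => sub_pos.2 (hC.2.2 s hs).2.1
  have hxy' : ∀ s ∈ Icc α β, 0 < x s + y s := fun s hs => by
    have := hyp s hs
    have := hxy s hs
    linarith
  refine h0 α β (wq a b x y) (fun s => a / y s ^ 2) y (deriv y)
    (fun s => wq a b x y s * (a / y s - b / (x s - y s) + b / (x s + y s))) hαβ hw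
    (fun s hs => (hE s hs).1) ?_ hyp ?_ ?_ ?_ ?_
  · exact continuousOn_const.div (hy.pow 2).continuousOn (fun s hs => (pow_pos (hyp s hs) 2).ne')
  · intro s _
    exact ((hC.2.1.differentiable (by norm_num)) s).hasDerivAt
  · refine hw.mul (((continuousOn_const.div hy.continuousOn fun s hs => (hyp s hs).ne').sub
      (continuousOn_const.div (hx.sub hy).continuousOn fun s hs => (hxy s hs).ne')).add
      (continuousOn_const.div (hx.add hy).continuousOn fun s hs => (hxy' s hs).ne'))
  · intro s hs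
    exact (hE s hs).2.2.2.2.2.1
  · intro s hs
    have h1 := (hE s hs).1
    have h2 := hyp s hs
    have h3 := hxy s hs
    have h4 := hxy' s hs
    have hb0 : (0 : ℝ) ≤ b := Nat.cast_nonneg b
    have h5 : (b : ℝ) / (x s + y s) ≤ b / (x s - y s) :=
      div_le_div_of_nonneg_left hb0 h3 (by linarith)
    have h6 : (a : ℝ) / y s ^ 2 * y s = a / y s := by
      field_simp
    show wq a b x y s * (a / y s - b / (x s - y s) + b / (x s + y s)) ≤
      wq a b x y s * (a / y s ^ 2) * y s
    rw [mul_assoc, h6]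
    exact mul_le_mul_of_nonneg_left (by linarith) h1.le

theorem secD (h0 : clSec0) (h : clEqn) : clSecD := by
  intro a b α β x y ha hb hαβ hC
  have hE := h a b α β x y ha hb hαβ hC
  have hx : Continuous x := hC.1.continuous
  have hy : Continuous y := hC.2.1.continuous
  have hw := contW h ha hb hαβ hC
  have hyp : ∀ s ∈ Icc α β, 0 < y s := fun s hs => (hC.2.2 s hs).1
  have hxy : ∀ s ∈ Icc α β, 0 < x s - y s := fun s hs => sub_pos.2 (hC.2.2 s hs).2.1
  have hxp : ∀ s ∈ Icc α β, 0 < x s := fun s hs => by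
    have := hyp s hs
    have := hxy s hs
    linarith
  have hxy' : ∀ s ∈ Icc α β, 0 < x s + y s := fun s hs => by
    have := hyp s hs
    have := hxy s hs
    linarith
  refine h0 α β (wq a b x y) (fun s => 2 * b / (x s - y s) ^ 2) (fun s => x s - y s)
    (fun s => deriv x s - deriv y s)
    (fun s => wq a b x y s * (a / x s + b / (x s - y s) + b / (x s + y s)) -
      wq a b x y s * (a / y s - b / (x s - y s) + b / (x s + y s))) hαβ hw
    (fun s hs => (hE s hs).1) ?_ hxy ?_ ?_ ?_ ?_
  · exact continuousOn_const.div ((hx.sub hy).pow 2).continuousOn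
      (fun s hs => (pow_pos (hxy s hs) 2).ne')
  · intro s _
    exact ((hC.1.differentiable (by norm_num)) s).hasDerivAt.sub
      ((hC.2.1.differentiable (by norm_num)) s).hasDerivAt
  · refine (hw.mul (((continuousOn_const.div hx.continuousOn fun s hs => (hxp s hs).ne').add
      (continuousOn_const.div (hx.sub hy).continuousOn fun s hs => (hxy s hs).ne')).add
      (continuousOn_const.div (hx.add hy).continuousOn fun s hs => (hxy' s hs).ne'))).sub
      (hw.mul (((continuousOn_const.div hy.continuousOn fun s hs => (hyp s hs).ne').sub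
      (continuousOn_const.div (hx.sub hy).continuousOn fun s hs => (hxy s hs).ne')).add
      (continuousOn_const.div (hx.add hy).continuousOn fun s hs => (hxy' s hs).ne')))
  · intro s hs
    have h1 := (hE s hs).2.2.2.2.1
    have h2 := (hE s hs).2.2.2.2.2.1
    have h3 := h1.sub h2
    refine h3.congr_of_eventuallyEq (Filter.Eventually.of_forall fun t => ?_)
    simp only [Pi.sub_apply]
    ring
  · intro s hs
    have h1 := (hE s hs).1
    have h2 := hyp s hs
    have h3 := hxy s hs
    have ha0 : (0 : ℝ) ≤ a := Nat.cast_nonneg a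
    have h5 : (a : ℝ) / x s ≤ a / y s := div_le_div_of_nonneg_left ha0 h2 (by linarith)
    have h6 : 2 * (b : ℝ) / (x s - y s) ^ 2 * (x s - y s) = 2 * (b / (x s - y s)) := by
      have := h3.ne'
      field_simp
    show wq a b x y s * (a / x s + b / (x s - y s) + b / (x s + y s)) -
      wq a b x y s * (a / y s - b / (x s - y s) + b / (x s + y s)) ≤
      wq a b x y s * (2 * b / (x s - y s) ^ 2) * (x s - y s)
    rw [mul_assoc, h6, ← mul_sub]
    exact mul_le_mul_of_nonneg_left (by linarith) h1.le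

theorem secR (h0 : clSec0) (h : clEqn) : clSecR := by
  intro a b α β x y ha hb hαβ hC
  have hE := h a b α β x y ha hb hαβ hC
  have hx : Continuous x := hC.1.continuous
  have hy : Continuous y := hC.2.1.continuous
  have hx' : Continuous (deriv x) := hC.1.continuous_deriv (by norm_num)
  have hy' : Continuous (deriv y) := hC.2.1.continuous_deriv (by norm_num)
  have hw := contW h ha hb hαβ hC
  have hyp : ∀ s ∈ Icc α β, 0 < y s := fun s hs => (hC.2.2 s hs).1
  have hR : ∀ s ∈ Icc α β, 0 < x s ^ 2 + y s ^ 2 := fun s hs => by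
    have := hyp s hs
    positivity
  have hr : ∀ s ∈ Icc α β, 0 < Real.sqrt (x s ^ 2 + y s ^ 2) := fun s hs => Real.sqrt_pos.2 (hR s hs)
  have hrc : Continuous (fun s => Real.sqrt (x s ^ 2 + y s ^ 2)) :=
    ((hx.pow 2).add (hy.pow 2)).sqrt
  have hdr : ∀ s ∈ Icc α β, HasDerivAt (fun t => Real.sqrt (x t ^ 2 + y t ^ 2))
      ((x s * deriv x s + y s * deriv y s) / Real.sqrt (x s ^ 2 + y s ^ 2)) s := by
    intro s hs
    have h1 := ((hC.1.differentiable (by norm_num)) s).hasDerivAt
    have h2 := ((hC.2.1.differentiable (by norm_num)) s).hasDerivAt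
    have h3 : HasDerivAt (fun t => Real.sqrt (x t ^ 2 + y t ^ 2))
        ((((2 : ℕ) : ℝ) * x s ^ (2 - 1) * deriv x s + ((2 : ℕ) : ℝ) * y s ^ (2 - 1) * deriv y s) /
          (2 * Real.sqrt (x s ^ 2 + y s ^ 2))) s :=
      ((h1.pow 2).add (h2.pow 2)).sqrt (hR s hs).ne'
    convert h3 using 1
    have := (hr s hs).ne'
    norm_num
    field_simp
  have key := h0 α β (wq a b x y) (fun s => (2 * (a : ℝ) + 2 * b + 1) / (x s ^ 2 + y s ^ 2))
    (fun s => Real.sqrt (x s ^ 2 + y s ^ 2))
    (fun s => (x s * deriv x s + y s * deriv y s) / Real.sqrt (x s ^ 2 + y s ^ 2))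
    (fun s => ((2 * (a : ℝ) + 2 * b + 1) * wq a b x y s * Real.sqrt (x s ^ 2 + y s ^ 2) -
      wq a b x y s * (x s * deriv x s + y s * deriv y s) *
      ((x s * deriv x s + y s * deriv y s) / Real.sqrt (x s ^ 2 + y s ^ 2))) /
      Real.sqrt (x s ^ 2 + y s ^ 2) ^ 2) hαβ hw
    (fun s hs => (hE s hs).1) ?_ hr hdr ?_ ?_ ?_
  · have e : ∀ s ∈ Icc α β, (x s * deriv x s + y s * deriv y s) / Real.sqrt (x s ^ 2 + y s ^ 2) /
        Real.sqrt (x s ^ 2 + y s ^ 2) = (x s * deriv x s + y s * deriv y s) /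
        (x s ^ 2 + y s ^ 2) := by
      intro s hs
      rw [div_div, Real.mul_self_sqrt (hR s hs).le]
    simp only [e α (left_mem_Icc.2 hαβ.le), e β (right_mem_Icc.2 hαβ.le)] at key
    exact key
  · exact continuousOn_const.div ((hx.pow 2).add (hy.pow 2)).continuousOn
      (fun s hs => (hR s hs).ne')
  · have hg : Continuous (fun s => x s * deriv x s + y s * deriv y s) :=
      (hx.mul hx').add (hy.mul hy')
    exact (((continuousOn_const.mul hw).mul hrc.continuousOn).sub
      ((hw.mul hg.continuousOn).mul (hg.continuousOn.div hrc.continuousOn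
        fun s hs => (hr s hs).ne'))).div (hrc.pow 2).continuousOn
      (fun s hs => (pow_pos (hr s hs) 2).ne')
  · intro s hs
    have h1 := (hE s hs).2.2.2.2.2.2.1
    have h2 := h1.div (hdr s hs) (hr s hs).ne'
    refine h2.congr_of_eventuallyEq (Filter.Eventually.of_forall fun t => ?_)
    simp only [Pi.div_apply]
    rw [mul_div_assoc]
  · intro s hs
    have h1 := (hE s hs).1
    have h2 := hr s hs
    have h3 : Real.sqrt (x s ^ 2 + y s ^ 2) ^ 2 = x s ^ 2 + y s ^ 2 := Real.sq_sqrt (hR s hs).le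
    have h4 : 0 ≤ wq a b x y s * (x s * deriv x s + y s * deriv y s) *
        ((x s * deriv x s + y s * deriv y s) / Real.sqrt (x s ^ 2 + y s ^ 2)) := by
      have : wq a b x y s * (x s * deriv x s + y s * deriv y s) *
          ((x s * deriv x s + y s * deriv y s) / Real.sqrt (x s ^ 2 + y s ^ 2)) =
          wq a b x y s * ((x s * deriv x s + y s * deriv y s) ^ 2 /
            Real.sqrt (x s ^ 2 + y s ^ 2)) := by ring
      rw [this]
      positivity
    show ((2 * (a : ℝ) + 2 * b + 1) * wq a b x y s * Real.sqrt (x s ^ 2 + y s ^ 2) -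
      wq a b x y s * (x s * deriv x s + y s * deriv y s) *
      ((x s * deriv x s + y s * deriv y s) / Real.sqrt (x s ^ 2 + y s ^ 2))) /
      Real.sqrt (x s ^ 2 + y s ^ 2) ^ 2 ≤
      wq a b x y s * ((2 * (a : ℝ) + 2 * b + 1) / (x s ^ 2 + y s ^ 2)) *
        Real.sqrt (x s ^ 2 + y s ^ 2)
    rw [h3]
    have h5 : wq a b x y s * ((2 * (a : ℝ) + 2 * b + 1) / (x s ^ 2 + y s ^ 2)) *
        Real.sqrt (x s ^ 2 + y s ^ 2) = ((2 * (a : ℝ) + 2 * b + 1) * wq a b x y s *
        Real.sqrt (x s ^ 2 + y s ^ 2)) / (x s ^ 2 + y s ^ 2) := by ring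
    rw [h5]
    exact div_le_div_of_nonneg_right (by linarith) (hR s hs).le

end JSec3

theorem prfSec3 (h0 : clSec0) (h : clEqn) : clSecY ∧ clSecR ∧ clSecD :=
  ⟨JSec3.secY h0 h, JSec3.secR h0 h, JSec3.secD h0 h⟩

end Pool.Agent.Work.MP_408f4b_gt.Q
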