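import Pool.Agent.Work.MP_408f4b_gt.Q.Stmts3

set_option autoImplicit false

/-!
# Item SecV: the inequality of Picone for a cooperative pair
-/

namespace Pool.Agent.Work.MP_408f4b_gt.Q

open MeasureTheory Set Filter Topology

namespace JSecV

/-- The pointwise identity. -/
theorem algId (a b x y w u u' v v' x' y' : ℝ) (hx : x ≠ 0) (hy : y ≠ 0) (hm : x - y ≠ 0)
    (hp : x + y ≠ 0) :
    (u' ^ 2 + v' ^ 2 + (a / x ^ 2 + b / (x - y) ^ 2 + b / (x + y) ^ 2) * u ^ 2 +
        2 * (-b / (x - y) ^ 2 + b / (x + y) ^ 2) * (u * v) +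
        (a / y ^ 2 + b / (x - y) ^ 2 + b / (x + y) ^ 2) * v ^ 2) * w -
      ((2 * u * u' * (w * x') / x + u ^ 2 *
          (w * (a / x + b / (x - y) + b / (x + y)) / x - w * x' ^ 2 / x ^ 2)) +
        (2 * v * v' * (w * y') / y + v ^ 2 *
          (w * (a / y - b / (x - y) + b / (x + y)) / y - w * y' ^ 2 / y ^ 2))) =
      w * (u' - u * x' / x) ^ 2 + w * (v' - v * y' / y) ^ 2 +
        w * ((b / (x - y) ^ 2 - b / (x + y) ^ 2) * ((u * y - v * x) ^ 2 / (x * y))) := by
  have h1 : b / (x - y) = b / (x - y) ^ 2 * (x - y) := by field_simp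
  have h2 : b / (x + y) = b / (x + y) ^ 2 * (x + y) := by field_simp
  rw [h1, h2, neg_div]
  generalize b / (x - y) ^ 2 = P
  generalize b / (x + y) ^ 2 = Q
  field_simp
  ring

end JSecV

theorem prfSecV (h : clEqn) : clSecV := by
  intro a b α β x y ha hb hαβ hC u u' v v' hu hu' hv hv'
  have hE := h a b α β x y ha hb hαβ hC
  have hx : Continuous x := hC.1.continuous
  have hy : Continuous y := hC.2.1.continuous
  have hw : ContinuousOn (wq a b x y) (Icc α β) := fun s hs =>
    ((hE s hs).2.2.2.1).continuousAt.continuousWithinAt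
  have hyp : ∀ s ∈ Icc α β, 0 < y s := fun s hs => (hC.2.2 s hs).1
  have hxy : ∀ s ∈ Icc α β, 0 < x s - y s := fun s hs => sub_pos.2 (hC.2.2 s hs).2.1
  have hxp : ∀ s ∈ Icc α β, 0 < x s := fun s hs => by
    have := hyp s hs
    have := hxy s hs
    linarith
  have hxy' : ∀ s ∈ Icc α β, 0 < x s + y s := fun s hs => by
    have := hyp s hs
    have := hxp s hs
    linarith
  have hG : ∀ s ∈ Icc α β, HasDerivAt
      (fun t => u t ^ 2 * (wq a b x y t * deriv x t) / x t +
        v t ^ 2 * (wq a b x y t * deriv y t) / y t)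
      ((2 * u s * u' s * (wq a b x y s * deriv x s) / x s + u s ^ 2 *
          (wq a b x y s * (a / x s + b / (x s - y s) + b / (x s + y s)) / x s -
            wq a b x y s * deriv x s ^ 2 / x s ^ 2)) +
        (2 * v s * v' s * (wq a b x y s * deriv y s) / y s + v s ^ 2 *
          (wq a b x y s * (a / y s - b / (x s - y s) + b / (x s + y s)) / y s -
            wq a b x y s * deriv y s ^ 2 / y s ^ 2))) s := by
    intro s hs
    have hx0 : x s ≠ 0 := (hxp s hs).ne'
    have hy0 : y s ≠ 0 := (hyp s hs).ne'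
    have hdx := ((hC.1.differentiable (by norm_num)) s).hasDerivAt
    have hdy := ((hC.2.1.differentiable (by norm_num)) s).hasDerivAt
    have h1 := (((hu s hs).pow 2).mul (hE s hs).2.2.2.2.1).div hdx hx0
    have h2 := (((hv s hs).pow 2).mul (hE s hs).2.2.2.2.2.1).div hdy hy0
    refine (h1.add h2).congr_deriv ?_
    simp only [Pi.mul_apply, Pi.pow_apply]
    generalize (a : ℝ) / x s + b / (x s - y s) + b / (x s + y s) = P
    generalize (a : ℝ) / y s - b / (x s - y s) + b / (x s + y s) = Q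
    push_cast
    field_simp
    ring
  have hcu : ContinuousOn u (Icc α β) := fun s hs => (hu s hs).continuousAt.continuousWithinAt
  have hcv : ContinuousOn v (Icc α β) := fun s hs => (hv s hs).continuousAt.continuousWithinAt
  have hq1 : ContinuousOn (fun s => (b : ℝ) / (x s - y s) ^ 2) (Icc α β) :=
    continuousOn_const.div ((hx.sub hy).pow 2).continuousOn
      (fun s hs => (pow_pos (hxy s hs) 2).ne')
  have hq1' : ContinuousOn (fun s => (-b : ℝ) / (x s - y s) ^ 2) (Icc α β) :=
    continuousOn_const.div ((hx.sub hy).pow 2).continuousOn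
      (fun s hs => (pow_pos (hxy s hs) 2).ne')
  have hq2 : ContinuousOn (fun s => (b : ℝ) / (x s + y s) ^ 2) (Icc α β) :=
    continuousOn_const.div ((hx.add hy).pow 2).continuousOn
      (fun s hs => (pow_pos (hxy' s hs) 2).ne')
  have hq3 : ContinuousOn (fun s => (a : ℝ) / x s ^ 2) (Icc α β) :=
    continuousOn_const.div (hx.pow 2).continuousOn (fun s hs => (pow_pos (hxp s hs) 2).ne')
  have hq4 : ContinuousOn (fun s => (a : ℝ) / y s ^ 2) (Icc α β) :=
    continuousOn_const.div (hy.pow 2).continuousOn (fun s hs => (pow_pos (hyp s hs) 2).ne')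
  have hcont : ContinuousOn
      (fun s => (u' s ^ 2 + v' s ^ 2 +
        (a / x s ^ 2 + b / (x s - y s) ^ 2 + b / (x s + y s) ^ 2) * u s ^ 2 +
        2 * (-b / (x s - y s) ^ 2 + b / (x s + y s) ^ 2) * (u s * v s) +
        (a / y s ^ 2 + b / (x s - y s) ^ 2 + b / (x s + y s) ^ 2) * v s ^ 2) * wq a b x y s)
      (Icc α β) :=
    (((((hu'.pow 2).add (hv'.pow 2)).add (((hq3.add hq1).add hq2).mul (hcu.pow 2))).add
      ((continuousOn_const.mul (hq1'.add hq2)).mul (hcu.mul hcv))).add
      (((hq4.add hq1).add hq2).mul (hcv.pow 2))).mul hw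
  have key := intervalIntegral.sub_le_integral_of_hasDeriv_right_of_le hαβ.le
    (fun s hs => (hG s hs).continuousAt.continuousWithinAt)
    (fun s hs => (hG s (Ioo_subset_Icc_self hs)).hasDerivWithinAt)
    (hcont.integrableOn_Icc) (fun s hs => by
      have hs' := Ioo_subset_Icc_self hs
      have hid := JSecV.algId a b (x s) (y s) (wq a b x y s) (u s) (u' s) (v s) (v' s)
        (deriv x s) (deriv y s) (hxp s hs').ne' (hyp s hs').ne' (hxy s hs').ne' (hxy' s hs').ne'
      have hw0 := (hE s hs').1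
      have h3 : 0 ≤ wq a b x y s * (u' s - u s * deriv x s / x s) ^ 2 :=
        mul_nonneg hw0.le (sq_nonneg _)
      have h4 : 0 ≤ wq a b x y s * (v' s - v s * deriv y s / y s) ^ 2 :=
        mul_nonneg hw0.le (sq_nonneg _)
      have h5 : (b : ℝ) / (x s + y s) ^ 2 ≤ b / (x s - y s) ^ 2 := by
        refine div_le_div_of_nonneg_left (Nat.cast_nonneg b) (pow_pos (hxy s hs') 2) ?_
        have := hyp s hs'
        have := hxy s hs'
        nlinarith
      have h6 : 0 ≤ wq a b x y s * (((b : ℝ) / (x s - y s) ^ 2 - b / (x s + y s) ^ 2) *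
          ((u s * y s - v s * x s) ^ 2 / (x s * y s))) :=
        mul_nonneg hw0.le (mul_nonneg (sub_nonneg.2 h5)
          (div_nonneg (sq_nonneg _) (mul_pos (hxp s hs') (hyp s hs')).le))
      linarith)
  refine le_trans (le_of_eq ?_) key
  ring

end Pool.Agent.Work.MP_408f4b_gt.Q
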