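import Pool.Agent.Work.MP_408f4b_gt.Q.Stmts3

set_option autoImplicit false

namespace Pool.Agent.Work.MP_408f4b_gt.Q

open MeasureTheory Set Filter Topology

theorem prfStek (hB : clBas) (hF : clFrm) (hT : clTns) (hM : clThm) (hL : clLin)
    (hC : clTCl) (hE : clEv) (hTB : clTB) : clStek := by
  intro F _ _ _ _ _ k hk hk2 P
  obtain ⟨e, he, u, hu⟩ := hB F
  obtain ⟨Φ, hΦJ, hΦ⟩ := hF F 2 e u hu le_rfl
  obtain ⟨Ψ, hΨJ, hΨ⟩ := hF F k e u hu hk
  obtain ⟨T, hTt⟩ := hT F k e u hu Φ Ψ hΦJ hΨJ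
  -- averages
  have hav : ∀ U : Vec F 2 → Vec F 2 → Vec F k → Vec F k → ℝ, Co U → avg F k U = Ev Φ Ψ U := by
    intro U hU
    have h1 : Continuous (fun z : Vec F 2 × Vec F 2 => Ψ.av (U z.1 z.2)) :=
      (hE _ _ _ _ _ Φ Ψ U U hU hU).2.2.1
    have h2 := hΦ (fun r r' => Ψ.av (U r r')) h1
    show _ = Φ.av (fun r r' => Ψ.av (U r r'))
    rw [← h2]
    unfold avg
    congr 1
    funext R
    have h3 : Continuous (fun z : Vec F k × Vec F k =>
        U (act R (bv F 2 0)) (act R (bv F 2 1)) z.1 z.2) :=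
      hU.comp (f := fun z : Vec F k × Vec F k => (act R (bv F 2 0), act R (bv F 2 1), z.1, z.2))
        (by fun_prop)
    exact hΨ _ h3
  have hfin : Module.finrank ℝ F = e + 1 := he.symm
  have hk' : k * (e + 1) - (e + 1) = (e + 1) * (k - 1) := by
    obtain ⟨j, rfl⟩ : ∃ j, k = j + 1 := ⟨k - 1, by omega⟩
    simp only [Nat.add_sub_cancel]
    rw [Nat.add_mul, one_mul, Nat.add_sub_cancel, mul_comm]
  have ha : 1 ≤ Module.finrank ℝ F * (k - 1) - 1 := by omega
  have ha2 : Module.finrank ℝ F * (k - 1) - 1 + 1 = k * (e + 1) - (e + 1) := by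
    rw [hk', hfin] at *; omega
  have hcont : ∀ (f : Mt F k → ℝ), ContDiff ℝ 1 f → ∀ s, Co (T.U f (P.x s) (P.y s)) := by
    intro f hf s
    exact ((hC _ _ _ _ _ _ Φ Ψ T f hf).1 (P.x s) (P.y s)).c1.continuous
  have hpt : ∀ s r r' v v', P.pt s r r' v v' = T.X (P.x s) (P.y s) r r' v v' := by
    intro s r r' v v'
    simp only [Profile.pt, Tns.X, hTt]
  have hnu : ∀ s r r' v v', P.nu s r r' v v' = T.X (-deriv P.y s) (deriv P.x s) r r' v v' := by
    intro s r r' v v'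
    simp only [Profile.nu, Tns.X, hTt]
  have hgs : ∀ f s r r' v v', P.gradSq f s r r' v v' =
      T.gS f (P.x s) (P.y s) (deriv P.x s) (deriv P.y s) r r' v v' := by
    intro f s r r' v v'
    simp only [Profile.gradSq, Tns.gS, hpt, hnu]
  have hgs' : ∀ f s, P.gradSq f s =
      T.gS f (P.x s) (P.y s) (deriv P.x s) (deriv P.y s) := by
    intro f s; funext r r' v v'; exact hgs f s r r' v v'
  have hden : ∀ f : Mt F k → ℝ, ContDiff ℝ 1 f → P.energy f = ∫ s in (0 : ℝ)..P.L,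
      Ev Φ Ψ (T.gS f (P.x s) (P.y s) (deriv P.x s) (deriv P.y s)) * P.w s := by
    intro f hf
    unfold Profile.energy
    congr 1
    funext s
    rw [hgs']
    congr 1
    apply hav
    have h4 := ((hC _ _ _ _ _ _ Φ Ψ T f hf).2 P.x (deriv P.x) P.y (deriv P.y)
      (fun s => ((P.x_C2.differentiable (by norm_num)) s).hasDerivAt)
      (fun s => ((P.y_C2.differentiable (by norm_num)) s).hasDerivAt)
      (P.x_C2.continuous_deriv (by norm_num)) (P.y_C2.continuous_deriv (by norm_num))).2.2.2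
    exact h4.comp (f := fun z : Vec F 2 × Vec F 2 × Vec F k × Vec F k => (s, z)) (by fun_prop)
  have hbd : ∀ f : Mt F k → ℝ, Continuous f → P.bdry f =
      Ev Φ Ψ (T.U f (P.x P.L) (P.y P.L)) * P.w P.L + Ev Φ Ψ (T.U f (P.x 0) (P.y 0)) * P.w 0 := by
    intro f hf
    have hX : ∀ s, Continuous (fun z : Vec F 2 × Vec F 2 × Vec F k × Vec F k =>
        T.X (P.x s) (P.y s) z.1 z.2.1 z.2.2.1 z.2.2.2) := by
      intro s
      have h5 := (hTB _ _ _ _ _ _ Φ Ψ T).2.2.2.2.continuous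
      exact h5.comp (f := fun z : Vec F 2 × Vec F 2 × Vec F k × Vec F k =>
        ((P.x s, P.y s), z)) (by fun_prop)
    have h6 : ∀ s, avg F k (fun r r' v v' => f (P.pt s r r' v v')) =
        Ev Φ Ψ (T.U f (P.x s) (P.y s)) := by
      intro s
      have h7 : (fun r r' v v' => f (P.pt s r r' v v')) = T.U f (P.x s) (P.y s) := by
        funext r r' v v'
        rw [hpt]; rfl
      rw [h7]
      exact hav _ (hf.comp (hX s))
    unfold Profile.bdry
    rw [h6, h6]
  constructor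
  · -- 1 is attained
    set X₀ : Mt F k := WithLp.toLp 2 (fun _ => (1 : F)) with hX₀
    have hX₀n : X₀ ≠ 0 := by
      intro h
      have h8 : X₀ ((0 : Fin 2), (⟨0, by omega⟩ : Fin k)) = 0 := by rw [h]; rfl
      have h9 : X₀ ((0 : Fin 2), (⟨0, by omega⟩ : Fin k)) = (1 : F) := rfl
      have h10 : ‖(1 : F)‖ = 1 := IsDA.norm_one'
      rw [← h9, h8, norm_zero] at h10
      exact zero_ne_one h10
    set f : Mt F k → ℝ := fun X => inner ℝ X₀ X with hf
    have hfC : ContDiff ℝ 1 f := contDiff_const.inner ℝ contDiff_id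
    obtain ⟨h1, h2, h3⟩ := hL _ _ _ _ _ _ Φ Ψ T _ _ P ha ha2 hfin X₀ hX₀n f (fun _ => rfl)
    have h4 : P.bdry (fun X => f X ^ 2) =
        Ev Φ Ψ (fun r r' v v' => T.U f (P.x P.L) (P.y P.L) r r' v v' ^ 2) * P.w P.L +
        Ev Φ Ψ (fun r r' v v' => T.U f (P.x 0) (P.y 0) r r' v v' ^ 2) * P.w 0 := by
      exact hbd (fun X => f X ^ 2) (hfC.continuous.pow 2)
    refine ⟨f, hfC, ?_, ?_, ?_⟩
    · rw [hbd _ hfC.continuous]; exact h1
    · rw [h4]; exact h2.ne'
    · rw [h4, hden f hfC, h3, div_self h2.ne']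
  · rintro R ⟨f, hfC, h1, h2, rfl⟩
    have h4 : P.bdry (fun X => f X ^ 2) =
        Ev Φ Ψ (fun r r' v v' => T.U f (P.x P.L) (P.y P.L) r r' v v' ^ 2) * P.w P.L +
        Ev Φ Ψ (fun r r' v v' => T.U f (P.x 0) (P.y 0) r r' v v' ^ 2) * P.w 0 := by
      exact hbd (fun X => f X ^ 2) (hfC.continuous.pow 2)
    rw [hbd _ hfC.continuous] at h1
    have h5 := hM _ _ _ _ _ Φ Ψ T _ _ P ha ha2 hfin f hfC h1
    rw [← h4, ← hden f hfC] at h5
    have hw : ∀ s ∈ ({0, P.L} : Set ℝ), 0 ≤ P.w s := by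
      intro s hs
      have hy : ∀ s ∈ ({0, P.L} : Set ℝ), 0 ≤ P.y s ∧ P.y s ≤ P.x s := by
        intro s hs
        rcases hs with rfl | hs
        · rcases P.initial with h | h | h
          · exact ⟨h.1.le, h.2.1.le⟩
          · exact ⟨h.2.1.ge, by rw [h.2.1]; exact h.1.le⟩
          · exact ⟨by rw [h.2.1]; exact h.1.le, h.2.1.le⟩
        · rw [mem_singleton_iff] at hs
          subst hs
          exact ⟨P.final.1.le, P.final.2.1.le⟩
      obtain ⟨h6, h7⟩ := hy s hs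
      unfold Profile.w
      have h8 : 0 ≤ P.x s := h6.trans h7
      have h9 : 0 ≤ P.x s ^ 2 - P.y s ^ 2 := by nlinarith
      positivity
    have hpos : 0 ≤ P.bdry (fun X => f X ^ 2) := by
      rw [h4]
      have hE0 : ∀ U : Vec F 2 → Vec F 2 → Vec F k → Vec F k → ℝ,
          0 ≤ Ev Φ Ψ (fun r r' v v' => U r r' v v' ^ 2) := by
        intro U
        exact integral_nonneg fun R => integral_nonneg fun A => sq_nonneg _
      exact add_nonneg (mul_nonneg (hE0 _) (hw _ (Or.inr rfl)))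
        (mul_nonneg (hE0 _) (hw _ (Or.inl rfl)))
    rw [le_div_iff₀ (lt_of_le_of_ne hpos (Ne.symm h2)), one_mul]
    exact h5

end Pool.Agent.Work.MP_408f4b_gt.Q
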