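import Pool.Agent.Work.MP_408f4b_gt.Q.Stmts3

set_option autoImplicit false

namespace Pool.Agent.Work.MP_408f4b_gt.Q

open MeasureTheory Set Filter Topology

namespace JSubA

theorem pw (X Y s d : ℝ) (hX : 0 < X) (hY : 0 < Y) :
    ((s - d) / 2) ^ 2 / ((X ^ 2 + Y ^ 2) / 2) ≤ s ^ 2 / (2 * X ^ 2) + d ^ 2 / (2 * Y ^ 2) := by
  have h : s ^ 2 / (2 * X ^ 2) + d ^ 2 / (2 * Y ^ 2) - ((s - d) / 2) ^ 2 / ((X ^ 2 + Y ^ 2) / 2) =
      (s * Y ^ 2 + d * X ^ 2) ^ 2 / (2 * X ^ 2 * Y ^ 2 * (X ^ 2 + Y ^ 2)) := by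
    have h1 : X ≠ 0 := hX.ne'
    have h2 : Y ≠ 0 := hY.ne'
    have h3 : X ^ 2 + Y ^ 2 ≠ 0 := by positivity
    field_simp
    ring
  have h4 : 0 ≤ (s * Y ^ 2 + d * X ^ 2) ^ 2 / (2 * X ^ 2 * Y ^ 2 * (X ^ 2 + Y ^ 2)) := by positivity
  linarith

theorem pw2 (x y p w c : ℝ) (hy : 0 < y) (hxy : y < x) :
    1 / (x ^ 2 + y ^ 2) * w ^ 2 + ((-(1 / (2 * (x - y) ^ 2)) - 2 * (1 / (2 * (x + y) ^ 2))) * c ^ 2 +
      ((2 * (1 / (2 * (x - y) ^ 2)) + 2 * (1 / (2 * (x + y) ^ 2))) * (p * c) +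
      (2 * (1 / (2 * (x - y) ^ 2)) - 2 * (1 / (2 * (x + y) ^ 2))) * (w * c))) ≤
    (p + w) ^ 2 / (2 * (x - y) ^ 2) + (p - w) ^ 2 / (2 * (x + y) ^ 2) := by
  have hX : 0 < x - y := sub_pos.2 hxy
  have hY : 0 < x + y := by linarith
  have h1 := pw (x - y) (x + y) (p - c + w) (p - c - w) hX hY
  have h2 : ((p - c + w - (p - c - w)) / 2) ^ 2 / (((x - y) ^ 2 + (x + y) ^ 2) / 2) =
      1 / (x ^ 2 + y ^ 2) * w ^ 2 := by
    have e1 : (p - c + w - (p - c - w)) / 2 = w := by ring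
    have e2 : ((x - y) ^ 2 + (x + y) ^ 2) / 2 = x ^ 2 + y ^ 2 := by ring
    rw [e1, e2]
    ring
  rw [h2] at h1
  have h3 : 0 ≤ 1 / (2 * (x + y) ^ 2) := by positivity
  have h4 : 0 ≤ 1 / (2 * (x + y) ^ 2) * c ^ 2 := by positivity
  set A := 1 / (2 * (x - y) ^ 2) with hA
  set B := 1 / (2 * (x + y) ^ 2) with hB
  have e3 : (p - c + w) ^ 2 / (2 * (x - y) ^ 2) = A * (p - c + w) ^ 2 := by rw [hA]; ring
  have e4 : (p - c - w) ^ 2 / (2 * (x + y) ^ 2) = B * (p - c - w) ^ 2 := by rw [hB]; ring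
  have e5 : (p + w) ^ 2 / (2 * (x - y) ^ 2) = A * (p + w) ^ 2 := by rw [hA]; ring
  have e6 : (p - w) ^ 2 / (2 * (x + y) ^ 2) = B * (p - w) ^ 2 := by rw [hB]; ring
  rw [e3, e4] at h1
  rw [e5, e6]
  nlinarith [h1, h4]

variable {V W : Type} [NormedAddCommGroup V] [InnerProductSpace ℝ V] [CompleteSpace V]
  [NormedAddCommGroup W] [InnerProductSpace ℝ W] [CompleteSpace W] {m n e : ℕ}
  (Φ : Frm V m e) (Ψ : Frm W n e)

theorem ev_lin (hE : clEv) {U U₂ : V → V → W → W → ℝ} (h : Co U) (h₂ : Co U₂) (c d : ℝ) :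
    Ev Φ Ψ (fun r r' v v' => c * U r r' v v' + d * U₂ r r' v v') =
    c * Ev Φ Ψ U + d * Ev Φ Ψ U₂ :=
  (hE V W m n e Φ Ψ U U₂ h h₂).2.2.2.2.2.2.2.2.2.2.1 c d

theorem ev_mono (hE : clEv) {U U₂ : V → V → W → W → ℝ} (h : Co U) (h₂ : Co U₂)
    (hle : ∀ r r' v v', U r r' v v' ≤ U₂ r r' v v') : Ev Φ Ψ U ≤ Ev Φ Ψ U₂ :=
  (hE V W m n e Φ Ψ U U₂ h h₂).2.2.2.2.2.2.2.2.2.2.2.1 (fun r r' v v' _ _ => hle r r' v v')

omit [InnerProductSpace ℝ V] [CompleteSpace V] [InnerProductSpace ℝ W] [CompleteSpace W] in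
theorem co4 {P Q : V → V → W → W → ℝ} (hP : Co P) (hQ : Co Q) (c d : ℝ) :
    Co (fun r r' v v' => (P r r' v v' + Q r r' v v') ^ 2 / c +
      (P r r' v v' - Q r r' v v') ^ 2 / d) :=
  (((hP.add hQ).pow 2).div_const c).add (((hP.sub hQ).pow 2).div_const d)

omit [InnerProductSpace ℝ V] [CompleteSpace V] [InnerProductSpace ℝ W] [CompleteSpace W] in
theorem co_sum {ι : Type} (s : Finset ι) (G : ι → V → V → W → W → ℝ) (hG : ∀ i, Co (G i)) :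
    Co (fun r r' v v' => ∑ i ∈ s, G i r r' v v') := by
  unfold Co
  exact continuous_finsetSum s (fun i _ => hG i)

theorem ev_sum (hE : clEv) {ι : Type} (s : Finset ι) (G : ι → V → V → W → W → ℝ)
    (hG : ∀ i, Co (G i)) :
    Ev Φ Ψ (fun r r' v v' => ∑ i ∈ s, G i r r' v v') = ∑ i ∈ s, Ev Φ Ψ (G i) := by
  classical
  induction s using Finset.induction_on with
  | empty =>
    simp only [Finset.sum_empty]
    simp [Ev, Frm.av]
  | insert i s hi ih =>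
    rw [Finset.sum_insert hi, ← ih]
    have h1 := ev_lin Φ Ψ hE (hG i) (co_sum s G hG) 1 1
    simp only [one_mul] at h1
    rw [← h1]
    congr 1
    funext r r' v v'
    rw [Finset.sum_insert hi]

end JSubA

open JSubA in
theorem prfSubA (hE : clEv) (hP : clPair) (hD : clDR) (hC : clAvC1) (hDe : clDer) (hV : clVarR) :
    clSubA := by
  intro V W _ _ _ _ _ _ n e Φ Ψ U x y hU hy hxy
  obtain ⟨-, hA1, hA2, -, -, -⟩ := hC V W _ n e Φ Ψ U hU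
  obtain ⟨hco, -⟩ := hD V W _ n e Φ Ψ U U hU.c1 hU.c1
  obtain ⟨hco0, -⟩ := hD V W _ n e Φ Ψ (pA Ψ U) (pA Ψ U) hA1 hA1
  have hvar := hV V W n e Φ Ψ U hU
  have hp : ∀ q, Co (dR Φ q U) := fun q => (hco q).1
  have hw : ∀ q, Co (dW Ψ q U) := fun q => (hco q).2
  have hc : ∀ q, Co (dR Φ q (pA Ψ U)) := fun q => (hco0 q).1
  have hc2 : ∀ q, Co (fun r r' v v' => dR Φ q (pA Ψ U) r r' v v' ^ 2) := fun q => (hc q).pow 2
  have hw2 : ∀ q, Co (fun r r' v v' => dW Ψ q U r r' v v' ^ 2) := fun q => (hw q).pow 2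
  have hpc : ∀ q, Co (fun r r' v v' => dR Φ q U r r' v v' * dR Φ q (pA Ψ U) r r' v v') :=
    fun q => (hp q).mul (hc q)
  have hwc : ∀ q, Co (fun r r' v v' => dW Ψ q U r r' v v' * dR Φ q (pA Ψ U) r r' v v') :=
    fun q => (hw q).mul (hc q)
  have hp0 : ∀ q, dR Φ q (pA Ψ U) = fun r r' _ _ => Ψ.av (fun v v' => dR Φ q U r r' v v') :=
    fun q => by funext r r' v v'; exact hA2 q r r' v v'
  have eq1 : ∀ q, Ev Φ Ψ (fun r r' v v' => dR Φ q U r r' v v' * dR Φ q (pA Ψ U) r r' v v') =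
      Ev Φ Ψ (fun r r' v v' => dR Φ q (pA Ψ U) r r' v v' ^ 2) := by
    intro q
    rw [hp0 q]
    unfold Ev
    congr 1
    funext R
    unfold Frm.av
    rw [integral_mul_const]
    simp only [integral_const, probReal_univ, one_smul]
    ring
  have eq2 : ∀ q, Ev Φ Ψ (fun r r' v v' => dW Ψ q U r r' v v' * dR Φ q (pA Ψ U) r r' v v') =
      0 := by
    intro q
    rw [hp0 q]
    unfold Ev
    have : ∀ R : Φ.G, Ψ.av (fun v v' => dW Ψ q U (Φ.A R Φ.a) (Φ.A R Φ.b) v v' *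
        Ψ.av (fun v v' => dR Φ q U (Φ.A R Φ.a) (Φ.A R Φ.b) v v')) = 0 := by
      intro R
      have h1 : ContDiff ℝ 1 (fun z : W × W => U (Φ.A R Φ.a) (Φ.A R Φ.b) z.1 z.2) :=
        hU.c1.comp (contDiff_const.prodMk (contDiff_const.prodMk (contDiff_fst.prodMk contDiff_snd)))
      have h2 := (hDe W n e Ψ (U (Φ.A R Φ.a) (Φ.A R Φ.b)) h1).2.2.2.2.2.2.2.1 q
      have h3 : Ψ.av (fun v v' => dW Ψ q U (Φ.A R Φ.a) (Φ.A R Φ.b) v v' *
        Ψ.av (fun v v' => dR Φ q U (Φ.A R Φ.a) (Φ.A R Φ.b) v v')) =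
        Ψ.av (Ψ.om q (U (Φ.A R Φ.a) (Φ.A R Φ.b))) *
        Ψ.av (fun v v' => dR Φ q U (Φ.A R Φ.a) (Φ.A R Φ.b) v v') := by
        conv_lhs => unfold Frm.av
        rw [integral_mul_const]
        rfl
      rw [h3, h2, zero_mul]
    simp only [this, integral_zero]
  -- the lower function
  set A := 1 / (2 * (x - y) ^ 2) with hA
  set B := 1 / (2 * (x + y) ^ 2) with hB
  have key : ∀ q, 1 / (x ^ 2 + y ^ 2) * Ev Φ Ψ (fun r r' v v' => dW Ψ q U r r' v v' ^ 2) +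
      A * Ev Φ Ψ (fun r r' v v' => dR Φ q (pA Ψ U) r r' v v' ^ 2) ≤
      Ev Φ Ψ (fun r r' v v' => (dR Φ q U r r' v v' + dW Ψ q U r r' v v') ^ 2 /
      (2 * (x - y) ^ 2) + (dR Φ q U r r' v v' - dW Ψ q U r r' v v') ^ 2 / (2 * (x + y) ^ 2)) := by
    intro q
    have c1 : Co (fun r r' v v' =>
        (2 * A + 2 * B) * (dR Φ q U r r' v v' * dR Φ q (pA Ψ U) r r' v v') +
        (2 * A - 2 * B) * (dW Ψ q U r r' v v' * dR Φ q (pA Ψ U) r r' v v')) :=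
      (continuous_const.mul (hpc q)).add (continuous_const.mul (hwc q))
    have c2 : Co (fun r r' v v' => (-A - 2 * B) * dR Φ q (pA Ψ U) r r' v v' ^ 2 +
        1 * ((2 * A + 2 * B) * (dR Φ q U r r' v v' * dR Φ q (pA Ψ U) r r' v v') +
        (2 * A - 2 * B) * (dW Ψ q U r r' v v' * dR Φ q (pA Ψ U) r r' v v'))) :=
      (continuous_const.mul (hc2 q)).add (continuous_const.mul c1)
    have l1 := ev_lin Φ Ψ hE (hpc q) (hwc q) (2 * A + 2 * B) (2 * A - 2 * B)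
    have l2 := ev_lin Φ Ψ hE (hc2 q) c1 (-A - 2 * B) 1
    have l3 := ev_lin Φ Ψ hE (hw2 q) c2 (1 / (x ^ 2 + y ^ 2)) 1
    have c3 : Co (fun r r' v v' => 1 / (x ^ 2 + y ^ 2) * dW Ψ q U r r' v v' ^ 2 + 1 *
        ((-A - 2 * B) * dR Φ q (pA Ψ U) r r' v v' ^ 2 +
        1 * ((2 * A + 2 * B) * (dR Φ q U r r' v v' * dR Φ q (pA Ψ U) r r' v v') +
        (2 * A - 2 * B) * (dW Ψ q U r r' v v' * dR Φ q (pA Ψ U) r r' v v')))) :=
      (continuous_const.mul (hw2 q)).add (continuous_const.mul c2)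
    have c4 : Co (fun r r' v v' => (dR Φ q U r r' v v' + dW Ψ q U r r' v v') ^ 2 /
      (2 * (x - y) ^ 2) + (dR Φ q U r r' v v' - dW Ψ q U r r' v v') ^ 2 / (2 * (x + y) ^ 2)) :=
      ((((hp q).add (hw q)).pow 2).div_const _).add ((((hp q).sub (hw q)).pow 2).div_const _)
    have l4 := ev_mono Φ Ψ hE c3 c4 (fun r r' v v' => by
      have := pw2 x y (dR Φ q U r r' v v') (dW Ψ q U r r' v v') (dR Φ q (pA Ψ U) r r' v v') hy hxy
      rw [← hA, ← hB] at this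
      linarith)
    rw [l3, l2, l1, eq1 q, eq2 q] at l4
    linarith
  have s1 := ev_sum Φ Ψ hE Finset.univ (fun q r r' v v' => dW Ψ q U r r' v v' ^ 2) hw2
  have s2 := ev_sum Φ Ψ hE Finset.univ (fun q r r' v v' => dR Φ q (pA Ψ U) r r' v v' ^ 2) hc2
  have s3 := ev_sum Φ Ψ hE Finset.univ (fun q r r' v v' =>
    (dR Φ q U r r' v v' + dW Ψ q U r r' v v') ^ 2 /
      (2 * (x - y) ^ 2) + (dR Φ q U r r' v v' - dW Ψ q U r r' v v') ^ 2 / (2 * (x + y) ^ 2))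
    (fun q => co4 (hp q) (hw q) _ _)
  rw [s2] at hvar
  rw [s1, s3]
  have key2 := Finset.sum_le_sum (fun q (_ : q ∈ (Finset.univ : Finset (Fin (e + 1)))) => key q)
  rw [Finset.sum_add_distrib, ← Finset.mul_sum, ← Finset.mul_sum] at key2
  refine le_trans (add_le_add (le_of_eq ?_) ?_) key2
  · ring
  · have hA0 : 0 ≤ A := by rw [hA]; positivity
    have h5 := mul_le_mul_of_nonneg_left hvar hA0
    refine le_trans (le_of_eq ?_) h5
    rw [hA]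
    have : x - y ≠ 0 := (sub_pos.2 hxy).ne'
    field_simp
    ring

end Pool.Agent.Work.MP_408f4b_gt.Q
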