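import Pool.Agent.Work.MP_408f4b_gt.Q.Stmts3

/-! Item TCl: the class of the restrictions to the orbits. -/

set_option autoImplicit false

namespace Pool.Agent.Work.MP_408f4b_gt.Q

namespace JTCl

open Set Filter Topology

lemma cont_gradient {M : Type} [NormedAddCommGroup M] [InnerProductSpace ℝ M] [CompleteSpace M]
    {f : M → ℝ} (hf : ContDiff ℝ 1 f) : Continuous (gradient f) := by
  unfold gradient
  exact (InnerProductSpace.toDual ℝ M).symm.continuous.comp (hf.continuous_fderiv one_ne_zero)

variable {V W M : Type} [NormedAddCommGroup V] [InnerProductSpace ℝ V] [CompleteSpace V]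
  [NormedAddCommGroup W] [InnerProductSpace ℝ W] [CompleteSpace W]
  [NormedAddCommGroup M] [InnerProductSpace ℝ M] [CompleteSpace M] {m n e : ℕ}
  {Φ : Frm V m e} {Ψ : Frm W n e} (T : Tns Φ Ψ M)

lemma B_neg_neg (r : V) (v : W) : T.B (-r) (-v) = T.B r v := by
  have h1 := T.smul_l (-1) r (-v)
  have h2 := T.smul_r (-1) r v
  rw [neg_one_smul, neg_one_smul] at h1 h2
  rw [h1, h2, neg_neg]

lemma cont_X (hX : Continuous (fun z : (ℝ × ℝ) × V × V × W × W =>
    T.X z.1.1 z.1.2 z.2.1 z.2.2.1 z.2.2.2.1 z.2.2.2.2)) {x y : ℝ → ℝ} (hx : Continuous x)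
    (hy : Continuous y) :
    Continuous (fun z : ℝ × V × V × W × W =>
      T.X (x z.1) (y z.1) z.2.1 z.2.2.1 z.2.2.2.1 z.2.2.2.2) :=
  hX.comp (((hx.comp continuous_fst).prodMk (hy.comp continuous_fst)).prodMk continuous_snd)

end JTCl

open JTCl in
theorem prfTCl (_hP : clPair) (hB : clTB) : clTCl := by
  intro V W M _ _ _ _ _ _ _ _ _ m n e Φ Ψ T f hf
  obtain ⟨_, _, _, hph, hX⟩ := hB V W M m n e Φ Ψ T
  refine ⟨fun x y => ⟨?_, ?_, ?_, ?_, ?_⟩, ?_⟩
  · exact hf.comp (hX.comp ((contDiff_const (c := ((x, y) : ℝ × ℝ))).prodMk contDiff_id))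
  · intro r r' v v'
    simp only [Tns.U, Tns.X, B_neg_neg]
  · intro r r' v v'
    simp only [Tns.U, Tns.X, B_neg_neg]
  · intro q hq t r r' v v'
    simp only [Tns.U, Tns.X, hph q hq]
  · intro q hq t r r' v v'
    simp only [Tns.U, Tns.X, hph q hq]
  · intro x x' y y' hx hy hx' hy'
    have cx : Continuous x := continuous_iff_continuousAt.mpr fun s => (hx s).continuousAt
    have cy : Continuous y := continuous_iff_continuousAt.mpr fun s => (hy s).continuousAt
    have cX := cont_X T hX.continuous cx cy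
    have cG := (cont_gradient hf).comp cX
    refine ⟨fun s r r' v v' => ?_, hf.continuous.comp cX, ?_, ?_⟩
    · have h1 : HasDerivAt (fun t => T.X (x t) (y t) r r' v v') (T.X (x' s) (y' s) r r' v v') s := by
        unfold Tns.X
        exact ((hx s).smul_const _).add ((hy s).smul_const _)
      have h2 : HasGradientAt f (gradient f (T.X (x s) (y s) r r' v v'))
          (T.X (x s) (y s) r r' v v') :=
        ((hf.differentiable one_ne_zero) _).hasGradientAt
      have h3 := h2.hasFDerivAt.comp_hasDerivAt s h1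
      rw [InnerProductSpace.toDual_apply_apply] at h3
      exact h3
    · exact cG.inner (cont_X T hX.continuous hx' hy')
    · have h4 := cont_X T hX.continuous hy'.neg hx'
      exact (cG.norm.pow 2).sub ((cG.inner h4).pow 2)

end Pool.Agent.Work.MP_408f4b_gt.Q
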