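import Pool.Agent.Work.MP_408f4b_gt.Q.Stmts3

set_option autoImplicit false

/-!
# Item TPt: the gradient on the orbits
-/

namespace Pool.Agent.Work.MP_408f4b_gt.Q

open MeasureTheory Set Filter Topology

namespace JTPt

theorem gr_lin {W M : Type} [NormedAddCommGroup W] [InnerProductSpace ℝ W] [CompleteSpace W]
    [NormedAddCommGroup M] [InnerProductSpace ℝ M] [CompleteSpace M] {f : M → ℝ}
    (hf : Differentiable ℝ f) (l : W →L[ℝ] M) (c : M) (v h : W) :
    inner ℝ (gradient (fun w => f (l w + c)) v) h = inner ℝ (gradient f (l v + c)) (l h) := by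
  have h1 := (hf (l v + c)).hasFDerivAt.comp v ((l.hasFDerivAt (x := v)).add_const c)
  have h2 : fderiv ℝ (fun w => f (l w + c)) v = (fderiv ℝ f (l v + c)).comp l := h1.fderiv
  unfold gradient
  rw [InnerProductSpace.toDual_symm_apply, InnerProductSpace.toDual_symm_apply, h2]
  rfl

theorem gr_lin' {W M : Type} [NormedAddCommGroup W] [InnerProductSpace ℝ W] [CompleteSpace W]
    [NormedAddCommGroup M] [InnerProductSpace ℝ M] [CompleteSpace M] {f : M → ℝ}
    (hf : Differentiable ℝ f) (l : W →L[ℝ] M) (c : M) (v h : W) :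
    inner ℝ (gradient (fun w => f (c + l w)) v) h = inner ℝ (gradient f (c + l v)) (l h) := by
  have h1 := gr_lin hf l c v h
  simp only [add_comm _ c] at h1
  exact h1

section

variable {V W M : Type} [NormedAddCommGroup V] [InnerProductSpace ℝ V] [CompleteSpace V]
  [NormedAddCommGroup W] [InnerProductSpace ℝ W] [CompleteSpace W]
  [NormedAddCommGroup M] [InnerProductSpace ℝ M] [CompleteSpace M] {m n e : ℕ}
  {Φ : Frm V m e} {Ψ : Frm W n e} (T : Tns Φ Ψ M)

theorem B_zero_r (r : V) : T.B r 0 = 0 := by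
  have := T.smul_r 0 r 0
  simpa using this

/-- `B r` as a continuous linear map. -/
noncomputable def Br (hB : Continuous fun z : V × W => T.B z.1 z.2) (r : V) : W →L[ℝ] M where
  toFun := T.B r
  map_add' := T.add_r r
  map_smul' := fun c v => T.smul_r c r v
  cont := hB.comp (Continuous.prodMk continuous_const continuous_id)

/-- `B · v` as a continuous linear map. -/
noncomputable def Bl (hB : Continuous fun z : V × W => T.B z.1 z.2) (v : W) : V →L[ℝ] M where
  toFun := fun r => T.B r v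
  map_add' := fun r r' => T.add_l r r' v
  map_smul' := fun c r => T.smul_l c r v
  cont := hB.comp (Continuous.prodMk continuous_id continuous_const)

variable {f : M → ℝ} (hf : Differentiable ℝ f) (hB : Continuous fun z : V × W => T.B z.1 z.2)

include hf hB

theorem w1 (x y : ℝ) (r r' : V) (v v' h : W) : inner ℝ (gr1 (T.U f x y r r') v v') h =
    x * inner ℝ (gradient f (T.X x y r r' v v')) (T.B r h) := by
  have h1 := gr_lin hf (x • Br T hB r) (y • T.B r' v') v h
  rw [show inner ℝ (gr1 (T.U f x y r r') v v') h =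
    inner ℝ (gradient f ((x • Br T hB r) v + y • T.B r' v')) ((x • Br T hB r) h) from h1]
  rw [show (x • Br T hB r) h = x • T.B r h from rfl, real_inner_smul_right]
  rfl

theorem w2 (x y : ℝ) (r r' : V) (v v' h : W) : inner ℝ (gr2 (T.U f x y r r') v v') h =
    y * inner ℝ (gradient f (T.X x y r r' v v')) (T.B r' h) := by
  have h1 := gr_lin' hf (y • Br T hB r') (x • T.B r v) v' h
  rw [show inner ℝ (gr2 (T.U f x y r r') v v') h =
    inner ℝ (gradient f (x • T.B r v + (y • Br T hB r') v')) ((y • Br T hB r') h) from h1]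
  rw [show (y • Br T hB r') h = y • T.B r' h from rfl, real_inner_smul_right]
  rfl

theorem v1 (x y : ℝ) (r r' : V) (v v' : W) (h : V) :
    inner ℝ (gr1 (fun ρ ρ' => T.U f x y ρ ρ' v v') r r') h =
    x * inner ℝ (gradient f (T.X x y r r' v v')) (T.B h v) := by
  have h1 := gr_lin hf (x • Bl T hB v) (y • T.B r' v') r h
  rw [show inner ℝ (gr1 (fun ρ ρ' => T.U f x y ρ ρ' v v') r r') h =
    inner ℝ (gradient f ((x • Bl T hB v) r + y • T.B r' v')) ((x • Bl T hB v) h) from h1]
  rw [show (x • Bl T hB v) h = x • T.B h v from rfl, real_inner_smul_right]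
  rfl

theorem v2 (x y : ℝ) (r r' : V) (v v' : W) (h : V) :
    inner ℝ (gr2 (fun ρ ρ' => T.U f x y ρ ρ' v v') r r') h =
    y * inner ℝ (gradient f (T.X x y r r' v v')) (T.B h v') := by
  have h1 := gr_lin' hf (y • Bl T hB v') (x • T.B r v) r' h
  rw [show inner ℝ (gr2 (fun ρ ρ' => T.U f x y ρ ρ' v v') r r') h =
    inner ℝ (gradient f (x • T.B r v + (y • Bl T hB v') r')) ((y • Bl T hB v') h) from h1]
  rw [show (y • Bl T hB v') h = y • T.B h v' from rfl, real_inner_smul_right]
  rfl

end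

end JTPt

open JTPt in
theorem prfTPt (hP : clPair) (hB : clTB) : clTPt := by
  intro V W M _ _ _ _ _ _ _ _ _ m n e Φ Ψ T f hf
  obtain ⟨hB1, -, hB3, -, -⟩ := hB V W M m n e Φ Ψ T
  have hBc : Continuous fun z : V × W => T.B z.1 z.2 := hB1.continuous
  have hfd : Differentiable ℝ f := hf.differentiable (by norm_num)
  have hX : ∀ (x y : ℝ) (r r' : V) (v v' : W),
      T.X x y r r' v v' = T.B r (x • v) + T.B r' (y • v') := by
    intro x y r r' v v'
    rw [T.smul_r, T.smul_r]; rfl
  refine ⟨?_, ?_, ?_, ?_⟩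
  · intro x y x' y' r r' v v' hy hxy hxy' hrr hvv
    obtain ⟨p, p', hg⟩ := T.surj r r' hrr (gradient f (T.X x y r r' v v'))
    have hi : ∀ h : W, inner ℝ (gradient f (T.X x y r r' v v')) (T.B r h) = inner ℝ p h := by
      intro h
      have := T.iso r r' hrr p p' h 0
      rw [B_zero_r, add_zero, inner_zero_right, add_zero] at this
      rw [hg]; exact this
    have hi' : ∀ h : W, inner ℝ (gradient f (T.X x y r r' v v')) (T.B r' h) = inner ℝ p' h := by
      intro h
      have := T.iso r r' hrr p p' 0 h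
      rw [B_zero_r, zero_add, inner_zero_right, zero_add] at this
      rw [hg]; exact this
    have hn : ‖gradient f (T.X x y r r' v v')‖ ^ 2 = ‖p‖ ^ 2 + ‖p'‖ ^ 2 := by
      rw [← real_inner_self_eq_norm_sq, hg, T.iso r r' hrr, real_inner_self_eq_norm_sq,
        real_inner_self_eq_norm_sq]
    have hXi : ∀ a b : ℝ, inner ℝ (gradient f (T.X x y r r' v v')) (T.X a b r r' v v') =
        a * inner ℝ p v + b * inner ℝ p' v' := by
      intro a b
      show inner ℝ (gradient f (T.X x y r r' v v')) (a • T.B r v + b • T.B r' v') = _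
      rw [inner_add_right, real_inner_smul_right, real_inner_smul_right, hi, hi']
    have hg1 : gr1 (T.U f x y r r') v v' = x • p := by
      apply ext_inner_right ℝ
      intro h
      rw [w1 T hfd hBc, hi, real_inner_smul_left]
    have hg2 : gr2 (T.U f x y r r') v v' = y • p' := by
      apply ext_inner_right ℝ
      intro h
      rw [w2 T hfd hBc, hi', real_inner_smul_left]
    have hW : ∀ q, dW Ψ q (T.U f x y) r r' v v' =
        x * inner ℝ p (Ψ.J q v') - y * inner ℝ p' (Ψ.Js q v) := by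
      intro q
      show inner ℝ (gr1 (T.U f x y r r') v v') (Ψ.J q v') -
        inner ℝ (gr2 (T.U f x y r r') v v') (Ψ.Js q v) = _
      rw [hg1, hg2, real_inner_smul_left, real_inner_smul_left]
    have hR : ∀ q, dR Φ q (T.U f x y) r r' v v' =
        x * inner ℝ p' (Ψ.Js q v) - y * inner ℝ p (Ψ.J q v') := by
      intro q
      show inner ℝ (gr1 (fun ρ ρ' => T.U f x y ρ ρ' v v') r r') (Φ.J q r') -
        inner ℝ (gr2 (fun ρ ρ' => T.U f x y ρ ρ' v v') r r') (Φ.Js q r) = _
      rw [v1 T hfd hBc, v2 T hfd hBc, (hB3 q r' v).1, (hB3 q r v').2, hi, hi']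
    have hJs : ∀ q, inner ℝ p' (Ψ.Js q v) ^ 2 = inner ℝ p' (Ψ.J q v) ^ 2 := by
      intro q
      unfold Frm.Js
      split_ifs with h
      · rw [h, Ψ.J0]
      · rw [inner_neg_right, neg_sq]
    have hx0 : x ≠ 0 := by linarith
    have hy0 : y ≠ 0 := hy.ne'
    have hxm : x - y ≠ 0 := sub_ne_zero.2 hxy.ne'
    have hxp : x + y ≠ 0 := by linarith
    have hq : ∀ q, ((dR Φ q (T.U f x y) r r' v v' + dW Ψ q (T.U f x y) r r' v v') ^ 2 /
          (2 * (x - y) ^ 2) +
        (dR Φ q (T.U f x y) r r' v v' - dW Ψ q (T.U f x y) r r' v v') ^ 2 / (2 * (x + y) ^ 2)) =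
        inner ℝ p' (Ψ.J q v) ^ 2 + inner ℝ p (Ψ.J q v') ^ 2 := by
      intro q
      rw [hR, hW, ← hJs]
      field_simp
      ring
    have hn1 : Ψ.n1 (T.U f x y r r') v v' / x ^ 2 =
        ‖p‖ ^ 2 - inner ℝ p v ^ 2 - ∑ q, inner ℝ p (Ψ.J q v') ^ 2 := by
      unfold Frm.n1
      rw [hg1]
      simp only [real_inner_smul_left, norm_smul, mul_pow, ← Finset.mul_sum, Real.norm_eq_abs,
        sq_abs]
      field_simp
    have hn2 : Ψ.n2 (T.U f x y r r') v v' / y ^ 2 =
        ‖p'‖ ^ 2 - inner ℝ p' v' ^ 2 - ∑ q, inner ℝ p' (Ψ.J q v) ^ 2 := by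
      unfold Frm.n2
      rw [hg2]
      simp only [real_inner_smul_left, norm_smul, mul_pow, ← Finset.mul_sum, Real.norm_eq_abs,
        sq_abs]
      field_simp
    unfold Tns.gS Tns.gT eD
    rw [hn, hXi, hXi, hn1, hn2, Finset.sum_congr rfl (fun q _ => hq q), Finset.sum_add_distrib]
    have e1 : (x' * inner ℝ p v + y' * inner ℝ p' v') ^ 2 +
        (-y' * inner ℝ p v + x' * inner ℝ p' v') ^ 2 =
        (x' ^ 2 + y' ^ 2) * (inner ℝ p v ^ 2 + inner ℝ p' v' ^ 2) := by ring
    rw [hxy', one_mul] at e1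
    linarith
  · intro x y x' y' r r' v v' hxy' hrr hvv
    have h1 : ‖T.X (-y') x' r r' v v'‖ = 1 := by
      have h2 : ‖T.X (-y') x' r r' v v'‖ ^ 2 = 1 := by
        rw [← real_inner_self_eq_norm_sq, hX, T.iso r r' hrr, real_inner_self_eq_norm_sq,
          real_inner_self_eq_norm_sq, norm_smul, norm_smul, hvv.1, hvv.2.1, mul_one, mul_one,
          Real.norm_eq_abs, Real.norm_eq_abs, sq_abs, sq_abs]
        linarith
      have h3 := norm_nonneg (T.X (-y') x' r r' v v')
      nlinarith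
    unfold Tns.gS
    have h4 := abs_real_inner_le_norm (gradient f (T.X x y r r' v v')) (T.X (-y') x' r r' v v')
    rw [h1, mul_one] at h4
    have h5 : inner ℝ (gradient f (T.X x y r r' v v')) (T.X (-y') x' r r' v v') ^ 2 ≤
        ‖gradient f (T.X x y r r' v v')‖ ^ 2 := by
      rw [← sq_abs]
      exact pow_le_pow_left₀ (abs_nonneg _) h4 2
    linarith
  · intro x q r r' v v'
    have hW : dW Ψ q (T.U f x x) r r' v v' =
        x * inner ℝ (gradient f (T.X x x r r' v v')) (T.B r (Ψ.J q v')) -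
        x * inner ℝ (gradient f (T.X x x r r' v v')) (T.B r' (Ψ.Js q v)) := by
      show inner ℝ (gr1 (T.U f x x r r') v v') (Ψ.J q v') -
        inner ℝ (gr2 (T.U f x x r r') v v') (Ψ.Js q v) = _
      rw [w1 T hfd hBc, w2 T hfd hBc]
    have hR : dR Φ q (T.U f x x) r r' v v' =
        x * inner ℝ (gradient f (T.X x x r r' v v')) (T.B r' (Ψ.Js q v)) -
        x * inner ℝ (gradient f (T.X x x r r' v v')) (T.B r (Ψ.J q v')) := by
      show inner ℝ (gr1 (fun ρ ρ' => T.U f x x ρ ρ' v v') r r') (Φ.J q r') -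
        inner ℝ (gr2 (fun ρ ρ' => T.U f x x ρ ρ' v v') r r') (Φ.Js q r) = _
      rw [v1 T hfd hBc, v2 T hfd hBc, (hB3 q r' v).1, (hB3 q r v').2]
    rw [hW, hR]
    ring
  · intro x r r' v v'
    show f (x • T.B r v + (0 : ℝ) • T.B r' v') = f (x • T.B r v + (0 : ℝ) • T.B r' 0)
    rw [zero_smul, zero_smul]

end Pool.Agent.Work.MP_408f4b_gt.Q
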