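import Pool.Agent.Work.MP_408f4b_gt.Q.Stmts3

set_option autoImplicit false

/-!
# The theorem for abstract tensors: the inequality
-/

namespace Pool.Agent.Work.MP_408f4b_gt.Q

open MeasureTheory Set Filter Topology

theorem prfThm (hT : clTwo) (hO : clOne) (hV : clVol) : clThm := by
  intro V W M _ _ _ _ _ _ _ _ _ n e Φ Ψ T a b P ha hae hb f hf hbd
  subst hb
  have hn : 2 ≤ n - (e + 1) := by omega
  have ha' : a = n - (e + 1) - 1 := by omega
  subst ha'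
  obtain ⟨hw, hcrv, hchd, hw0, hwL, -, -⟩ := hV _ _ P ha (by omega)
  have hwfun : P.w = wq (n - (e + 1) - 1) (e + 1) P.x P.y := funext hw
  rw [hwfun] at hbd hwL hw0
  rw [hwfun]
  have key : 0 < P.x 0 → (P.y 0 = 0 ∨ P.y 0 = P.x 0) →
      Ev Φ Ψ (fun r r' v v' => T.U f (P.x P.L) (P.y P.L) r r' v v' ^ 2) *
        wq (n - (e + 1) - 1) (e + 1) P.x P.y P.L +
      Ev Φ Ψ (fun r r' v v' => T.U f (P.x 0) (P.y 0) r r' v v' ^ 2) *
        wq (n - (e + 1) - 1) (e + 1) P.x P.y 0 ≤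
      ∫ s in (0 : ℝ)..P.L, Ev Φ Ψ (T.gS f (P.x s) (P.y s) (deriv P.x s) (deriv P.y s)) *
        wq (n - (e + 1) - 1) (e + 1) P.x P.y s := by
    intro hx0 hy0
    have h0 := hw0 hy0
    rw [h0, mul_zero, add_zero] at hbd
    have hE : Ev Φ Ψ (T.U f (P.x P.L) (P.y P.L)) = 0 := by
      rcases mul_eq_zero.1 hbd with h | h
      · exact h
      · exact absurd h hwL.ne'
    rw [h0, mul_zero, add_zero]
    exact hO V W M n e Φ Ψ T f P.L P.x P.y hn hf P.L_pos P.x_C2 P.y_C2 hcrv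
      P.final.2.2.1 P.final.2.2.2.1 P.final.2.2.2.2 hx0 hy0 hE
  rcases P.initial with ⟨h1, h2, h3, h4, h5⟩ | ⟨h1, h2, h3⟩ | ⟨h1, h2, h3⟩
  · exact hT V W M n e Φ Ψ T f P.L P.x P.y hn hf (hchd h1 h2) hbd
  · exact key h1 (Or.inl h2)
  · exact key h1 (Or.inr h2)

end Pool.Agent.Work.MP_408f4b_gt.Q
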