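import Pool.Agent.Work.MP_408f4b_gt.Q.Stmts3

set_option autoImplicit false
set_option linter.unusedSectionVars false

namespace Pool.Agent.Work.MP_408f4b_gt.Q

open MeasureTheory Set Filter Topology

namespace JTns

variable {F : Type} [NormedRing F] [InnerProductSpace ℝ F] [StarRing F] [IsDA F] {k : ℕ}

lemma ten_apply (r : Vec F 2) (v : Vec F k) (ij : Fin 2 × Fin k) :
    ten r v ij = r ij.1 * star (v ij.2) := rfl

lemma ten_add_l (r r' : Vec F 2) (v : Vec F k) : ten (r + r') v = ten r v + ten r' v := by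
  ext ij
  change (r ij.1 + r' ij.1) * star (v ij.2) = r ij.1 * star (v ij.2) + r' ij.1 * star (v ij.2)
  rw [add_mul]

lemma ten_smul_l (c : ℝ) (r : Vec F 2) (v : Vec F k) : ten (c • r) v = c • ten r v := by
  ext ij
  change (c • r ij.1) * star (v ij.2) = c • (r ij.1 * star (v ij.2))
  rw [IsDA.smul_mul']

lemma ten_add_r (r : Vec F 2) (v v' : Vec F k) : ten r (v + v') = ten r v + ten r v' := by
  ext ij
  change r ij.1 * star (v ij.2 + v' ij.2) = r ij.1 * star (v ij.2) + r ij.1 * star (v' ij.2)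
  rw [star_add, mul_add]

lemma ten_smul_r (hst : ∀ (r : ℝ) (a : F), star (r • a) = r • star a) (c : ℝ) (r : Vec F 2)
    (v : Vec F k) : ten r (c • v) = c • ten r v := by
  ext ij
  change r ij.1 * star (c • v ij.2) = c • (r ij.1 * star (v ij.2))
  rw [hst, IsDA.mul_smul']

lemma ten_bal {u : F} (hu : u * star u = 1) (r : Vec F 2) (v : Vec F k) :
    ten (rmul u r) (rmul u v) = ten r v := by
  ext ij
  change (r ij.1 * u) * star (v ij.2 * u) = r ij.1 * star (v ij.2)
  rw [star_mul, mul_assoc, ← mul_assoc u, hu, one_mul]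

lemma inner_self_part (h1 : ∀ a b c : F, inner ℝ (a * b) (a * c) = ‖a‖ ^ 2 * inner ℝ b c)
    (h2 : ∀ a b : F, inner ℝ (star a) (star b) = inner ℝ a b) (r : Vec F 2) (hr : ‖r‖ = 1)
    (v v' : Vec F k) : inner ℝ (ten r v) (ten r v') = inner ℝ v v' := by
  rw [PiLp.inner_apply, PiLp.inner_apply, Fintype.sum_prod_type]
  have h3 : ∀ (i : Fin 2) (j : Fin k), inner ℝ (ten r v (i, j)) (ten r v' (i, j)) =
      ‖r i‖ ^ 2 * inner ℝ (v j) (v' j) := by
    intro i j
    rw [ten_apply, ten_apply, h1, h2]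
  simp_rw [h3]
  simp_rw [← Finset.mul_sum]
  rw [← Finset.sum_mul]
  have h4 : ∑ i, ‖r i‖ ^ 2 = 1 := by
    have h6 : ‖r‖ ^ 2 = ∑ i, ‖r i‖ ^ 2 := PiLp.norm_sq_eq_of_L2 _ r
    rw [← h6, hr]
    norm_num
  rw [h4, one_mul]

lemma inner_mixed (h1 : ∀ a b c : F, inner ℝ (a * b) c = inner ℝ b (star a * c)) (r r' : Vec F 2)
    (hz : ∑ i, star (r i) * r' i = 0) (v w : Vec F k) :
    inner ℝ (ten r v) (ten r' w) = (0 : ℝ) := by
  rw [PiLp.inner_apply, Fintype.sum_prod_type_right]
  refine Finset.sum_eq_zero fun j _ => ?_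
  have h3 : ∀ i : Fin 2, inner ℝ (ten r v (i, j)) (ten r' w (i, j)) =
      (inner ℝ (star (v j)) ((star (r i) * r' i) * star (w j)) : ℝ) := by
    intro i
    rw [ten_apply, ten_apply, h1, mul_assoc]
  simp_rw [h3]
  rw [← inner_sum, ← Finset.sum_mul, hz, zero_mul, inner_zero_right]

lemma finrank_Vec (m : ℕ) : Module.finrank ℝ (Vec F m) = m * Module.finrank ℝ F := by
  rw [(WithLp.linearEquiv 2 ℝ (Fin m → F)).finrank_eq, Module.finrank_pi_fintype]
  simp

lemma finrank_Mt (m : ℕ) : Module.finrank ℝ (Mt F m) = 2 * m * Module.finrank ℝ F := by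
  rw [(WithLp.linearEquiv 2 ℝ (Fin 2 × Fin m → F)).finrank_eq, Module.finrank_pi_fintype]
  simp

end JTns

open JTns in
theorem prfTns (hI : clIn) (_hA : clAct) : clTns := by
  intro F _ _ _ _ _ k e u hu0 Φ Ψ hΦ hΨ
  obtain ⟨h1, h2, h3, h4, h5, -, -⟩ := hI F
  have hun : ∀ q, u q * star (u q) = 1 := by
    intro q
    rw [(h5 (u q)).1, u.orthonormal.1 q]
    norm_num
  -- orthogonality of the entries
  have hz' : ∀ r r' : Vec F 2, Φ.Pair r r' → ∑ i, star (r' i) * r i = 0 := by
    intro r r' hp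
    have h6 : ∀ q, inner ℝ (u q) (∑ i, star (r' i) * r i) = (0 : ℝ) := by
      intro q
      have h7 := hp.2.2 q
      rw [hΦ, real_inner_comm, PiLp.inner_apply] at h7
      rw [inner_sum, ← h7]
      refine Finset.sum_congr rfl fun i _ => ?_
      rw [← (h1 (r' i) (u q) (r i)).2.2.1]
      rfl
    apply u.repr.injective
    rw [map_zero]
    ext q
    rw [u.repr_apply_apply]
    exact h6 q
  have hz : ∀ r r' : Vec F 2, Φ.Pair r r' → ∑ i, star (r i) * r' i = 0 := by
    intro r r' hp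
    have h6 := congrArg star (hz' r r' hp)
    rw [star_zero, star_sum] at h6
    rw [← h6]
    refine Finset.sum_congr rfl fun i _ => ?_
    rw [star_mul, star_star]
  have hiso : ∀ r r', Φ.Pair r r' → ∀ v w v' w' : Vec F k,
      inner ℝ (ten r v + ten r' w) (ten r v' + ten r' w') = (inner ℝ v v' + inner ℝ w w' : ℝ) := by
    intro r r' hp v w v' w'
    rw [inner_add_left, inner_add_right, inner_add_right,
      inner_self_part (fun a b c => (h1 a b c).1) h2 r hp.1,
      inner_self_part (fun a b c => (h1 a b c).1) h2 r' hp.2.1,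
      inner_mixed (fun a b c => (h1 a b c).2.2.1) r r' (hz r r' hp),
      inner_mixed (fun a b c => (h1 a b c).2.2.1) r' r (hz' r r' hp)]
    ring
  refine ⟨{
    B := ten
    add_l := ten_add_l
    smul_l := ten_smul_l
    add_r := ten_add_r
    smul_r := ten_smul_r h4
    bal := fun q r v => by
      rw [hΦ, hΨ]
      exact ten_bal (hun q) r v
    iso := hiso
    surj := ?_ }, fun _ _ => rfl⟩
  intro r r' hp X
  let Λ : Vec F k × Vec F k →ₗ[ℝ] Mt F k :=
    { toFun := fun z => ten r z.1 + ten r' z.2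
      map_add' := fun z z' => by
        rw [Prod.fst_add, Prod.snd_add, ten_add_r, ten_add_r]
        abel
      map_smul' := fun c z => by
        rw [Prod.smul_fst, Prod.smul_snd, ten_smul_r h4, ten_smul_r h4, RingHom.id_apply, smul_add] }
  have hinj : Function.Injective Λ := by
    rw [← LinearMap.ker_eq_bot, LinearMap.ker_eq_bot']
    rintro ⟨v, w⟩ hvw
    have h6 : ten r v + ten r' w = 0 := hvw
    have h7 := hiso r r' hp v w v w
    rw [h6, inner_zero_left, real_inner_self_eq_norm_sq, real_inner_self_eq_norm_sq] at h7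
    have h8 : ‖v‖ = 0 := by nlinarith [sq_nonneg ‖v‖, sq_nonneg ‖w‖]
    have h9 : ‖w‖ = 0 := by nlinarith [sq_nonneg ‖v‖, sq_nonneg ‖w‖]
    rw [norm_eq_zero.1 h8, norm_eq_zero.1 h9]
    rfl
  have hfr : Module.finrank ℝ (Vec F k × Vec F k) = Module.finrank ℝ (Mt F k) := by
    rw [Module.finrank_prod, finrank_Vec, finrank_Mt]
    ring
  have hsurj : Function.Surjective Λ :=
    (LinearMap.injective_iff_surjective_of_finrank_eq_finrank hfr).1 hinj
  obtain ⟨⟨v, w⟩, hvw⟩ := hsurj X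
  exact ⟨v, w, hvw.symm⟩

end Pool.Agent.Work.MP_408f4b_gt.Q
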