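import Pool.Agent.Work.MP_408f4b_gt.Q.Stmts3

set_option autoImplicit false

/-!
# Item Two: curves with two boundary components
-/

namespace Pool.Agent.Work.MP_408f4b_gt.Q

open MeasureTheory Set Filter Topology

theorem prfTwo (hM : clMain) (hB : clBt) (hI : clInv) (hIF : clInvF) (hF : clFub) (hTC : clTCl)
    (hEq : clEqn) : clTwo := by
  intro V W M _ _ _ _ _ _ _ _ _ n e Φ Ψ T f L x y hn hf hch hzero
  have ha : 1 ≤ n - (e + 1) - 1 := by omega
  have hb : 1 ≤ e + 1 := by omega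
  obtain ⟨hx2, hy2, hcrv⟩ := hch.curve
  have hL := hch.L_pos
  have hxd : Differentiable ℝ x := hx2.differentiable (by norm_num)
  have hyd : Differentiable ℝ y := hy2.differentiable (by norm_num)
  have hxc : Continuous (deriv x) := hx2.continuous_deriv (by norm_num)
  have hyc : Continuous (deriv y) := hy2.continuous_deriv (by norm_num)
  have hx0 : Continuous x := hx2.continuous
  have hy0 : Continuous y := hy2.continuous
  -- the main inequality
  have h1 := hM V W M n e Φ Ψ T f 0 L x y hn hf hL hch.curve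
  have cL := hcrv L ⟨hL.le, le_rfl⟩
  have c0 := hcrv 0 ⟨le_rfl, hL.le⟩
  have hBL := hB V W M (2 * (e + 1)) n e Φ Ψ T f 1 L x y hf cL.1 cL.2.1 hch.final.1
    (by rw [hch.final.2.1, one_mul]) (by rw [hch.final.2.2, one_mul])
  have hB0 := hB V W M (2 * (e + 1)) n e Φ Ψ T f (-1) 0 x y hf c0.1 c0.2.1 hch.initial.1
    (by rw [hch.initial.2.1]; ring) (by rw [hch.initial.2.2]; ring)
  -- the average
  obtain ⟨_, hTC2⟩ := hTC V W M (2 * (e + 1)) n e Φ Ψ T f hf
  obtain ⟨hder, hcU, hcG, _⟩ := hTC2 x (deriv x) y (deriv y) (fun s => (hxd s).hasDerivAt)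
    (fun s => (hyd s).hasDerivAt) hxc hyc
  obtain ⟨_, _, hF3⟩ := hF V W (2 * (e + 1)) n e Φ Ψ (fun s => T.U f (x s) (y s))
    (fun s => T.gT f (x s) (y s) (deriv x s) (deriv y s)) hcU hcG
  have hMd := hF3 hder
  obtain ⟨hMc, _, _⟩ := hF V W (2 * (e + 1)) n e Φ Ψ
    (fun s => T.gT f (x s) (y s) (deriv x s) (deriv y s))
    (fun s => T.gT f (x s) (y s) (deriv x s) (deriv y s)) hcG hcG
  have hwc : Continuous (wq (n - (e + 1) - 1) (e + 1) x y) := by
    unfold wq
    fun_prop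
  have hwp : ∀ s ∈ Icc 0 L, 0 < wq (n - (e + 1) - 1) (e + 1) x y s := fun s hs =>
    (hEq (n - (e + 1) - 1) (e + 1) 0 L x y ha hb hL hch.curve s hs).1
  have h2 := hIF L (wq (n - (e + 1) - 1) (e + 1) x y)
    (fun s => Ev Φ Ψ (T.U f (x s) (y s)))
    (fun s => Ev Φ Ψ (T.gT f (x s) (y s) (deriv x s) (deriv y s))) hL hwc.continuousOn hwp
    (hI (n - (e + 1) - 1) (e + 1) L x y ha hb hch) (fun s _ => hMd s) hMc.continuousOn
    (by simpa [add_comm] using hzero)
  rw [hBL, hB0] at h1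
  linarith

end Pool.Agent.Work.MP_408f4b_gt.Q
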