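import Pool.Agent.Work.MP_408f4b_gt.Q.Stmts3

set_option autoImplicit false

/-!
# Item VarR: Poincaré inequality for the average over the pairs of `W`
-/

namespace Pool.Agent.Work.MP_408f4b_gt.Q

open MeasureTheory Set Filter Topology

namespace JVarR

section one

variable {V : Type} [NormedAddCommGroup V] [InnerProductSpace ℝ V] [CompleteSpace V] {e : ℕ}

omit [CompleteSpace V] in
/-- The vectors `J q v`, `J q w` form an orthonormal basis. -/
theorem norm_sq_pair (Φ : Frm V (2 * (e + 1)) e) {v w : V} (h : Φ.Pair v w) (x : V) :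
    ‖x‖ ^ 2 = ∑ q, (inner ℝ x (Φ.J q v)) ^ 2 + ∑ q, (inner ℝ x (Φ.J q w)) ^ 2 := by
  classical
  let b : Fin (e + 1) ⊕ Fin (e + 1) → V := Sum.elim (fun q => Φ.J q v) (fun q => Φ.J q w)
  have hb : Orthonormal ℝ b := by
    constructor
    · rintro (q | q)
      · show ‖Φ.J q v‖ = 1
        rw [LinearIsometry.norm_map]
        exact h.1
      · show ‖Φ.J q w‖ = 1
        rw [LinearIsometry.norm_map]
        exact h.2.1
    · rintro (p | p) (q | q) hpq
      · exact Φ.Jorth v p q (fun hh => hpq (by rw [hh]))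
      · exact Φ.orthC v w h.2.2 p q
      · show inner ℝ (Φ.J p w) (Φ.J q v) = 0
        rw [real_inner_comm]
        exact Φ.orthC v w h.2.2 q p
      · exact Φ.Jorth w p q (fun hh => hpq (by rw [hh]))
  have hfin : FiniteDimensional ℝ V := Φ.L.toLinearEquiv.finiteDimensional
  have hrank : Module.finrank ℝ V = 2 * (e + 1) := by
    rw [← Φ.L.toLinearEquiv.finrank_eq, finrank_euclideanSpace_fin]
  have hcard : Fintype.card (Fin (e + 1) ⊕ Fin (e + 1)) = Module.finrank ℝ V := by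
    rw [hrank, Fintype.card_sum, Fintype.card_fin]
    ring
  have hB : ⇑(basisOfOrthonormalOfCardEqFinrank hb hcard) = b :=
    coe_basisOfOrthonormalOfCardEqFinrank hb hcard
  let OB := (basisOfOrthonormalOfCardEqFinrank hb hcard).toOrthonormalBasis (by
    rw [hB]; exact hb)
  have hOB : ⇑OB = b := by
    show ⇑((basisOfOrthonormalOfCardEqFinrank hb hcard).toOrthonormalBasis _) = b
    rw [Module.Basis.coe_toOrthonormalBasis, hB]
  have h1 := OB.sum_sq_norm_inner_right x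
  rw [← h1, hOB, Fintype.sum_sum_type]
  congr 1
  · refine Finset.sum_congr rfl fun q _ => ?_
    rw [Real.norm_eq_abs, sq_abs, real_inner_comm]
    rfl
  · refine Finset.sum_congr rfl fun q _ => ?_
    rw [Real.norm_eq_abs, sq_abs, real_inner_comm]
    rfl

theorem inner_gr (f : V → ℝ) (x y : V) : inner ℝ (gradient f x) y = fderiv ℝ f x y := by
  unfold gradient
  rw [InnerProductSpace.toDual_symm_apply]

/-- The gradient is orthogonal to the direction of a rotation which leaves `f` invariant. -/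
theorem gr_zero {f : V → ℝ} {x y : V} (hf : DifferentiableAt ℝ f x)
    (h : ∀ t : ℝ, f (Real.cos t • x + Real.sin t • y) = f x) : inner ℝ (gradient f x) y = 0 := by
  rw [inner_gr]
  have hc : HasDerivAt (fun t : ℝ => Real.cos t • x + Real.sin t • y) y 0 := by
    have h1 := (Real.hasDerivAt_cos 0).smul_const x
    have h2 := (Real.hasDerivAt_sin 0).smul_const y
    have h3 := h1.add h2
    simp only [Real.sin_zero, neg_zero, zero_smul, Real.cos_zero, one_smul, zero_add] at h3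
    exact h3
  have h0 : Real.cos 0 • x + Real.sin 0 • y = x := by simp
  have h4 : HasDerivAt (fun t : ℝ => f (Real.cos t • x + Real.sin t • y)) (fderiv ℝ f x y) 0 := by
    have h5 : HasFDerivAt f (fderiv ℝ f x) (Real.cos 0 • x + Real.sin 0 • y) := by
      rw [h0]
      exact hf.hasFDerivAt
    exact h5.comp_hasDerivAt (0 : ℝ) hc
  have h6 : (fun t : ℝ => f (Real.cos t • x + Real.sin t • y)) = fun _ => f x := funext h
  rw [h6] at h4
  exact h4.unique (hasDerivAt_const 0 (f x))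

theorem n_zero (Φ : Frm V (2 * (e + 1)) e) {g : V → V → ℝ}
    (hg : ContDiff ℝ 1 (fun z : V × V => g z.1 z.2))
    (h1 : ∀ q, q ≠ 0 → ∀ (t : ℝ) (r r' : V),
      g (Real.cos t • r + Real.sin t • Φ.J q r) r' = g r r')
    (h2 : ∀ q, q ≠ 0 → ∀ (t : ℝ) (r r' : V),
      g r (Real.cos t • r' + Real.sin t • Φ.J q r') = g r r')
    {v w : V} (h : Φ.Pair v w) : Φ.n1 g v w = 0 ∧ Φ.n2 g v w = 0 := by
  have hd : Differentiable ℝ (fun z : V × V => g z.1 z.2) := hg.differentiable one_ne_zero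
  have hd1 : DifferentiableAt ℝ (fun v' => g v' w) v := by
    have h3 : DifferentiableAt ℝ (fun v' : V => ((v', w) : V × V)) v := by fun_prop
    exact (hd (v, w)).comp v h3
  have hd2 : DifferentiableAt ℝ (fun w' => g v w') w := by
    have h3 : DifferentiableAt ℝ (fun w' : V => ((v, w') : V × V)) w := by fun_prop
    exact (hd (v, w)).comp w h3
  constructor
  · unfold Frm.n1
    rw [norm_sq_pair Φ h (gr1 g v w)]
    have h3 : ∑ q, (inner ℝ (gr1 g v w) (Φ.J q v)) ^ 2 = (inner ℝ (gr1 g v w) v) ^ 2 := by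
      rw [Finset.sum_eq_single 0]
      · rw [Φ.J0]
      · intro q _ hq
        have h4 : inner ℝ (gr1 g v w) (Φ.J q v) = 0 :=
          gr_zero hd1 (fun t => h1 q hq t v w)
        rw [h4]
        norm_num
      · intro hh
        exact absurd (Finset.mem_univ _) hh
    rw [h3]
    ring
  · unfold Frm.n2
    rw [norm_sq_pair Φ h (gr2 g v w)]
    have h3 : ∑ q, (inner ℝ (gr2 g v w) (Φ.J q w)) ^ 2 = (inner ℝ (gr2 g v w) w) ^ 2 := by
      rw [Finset.sum_eq_single 0]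
      · rw [Φ.J0]
      · intro q _ hq
        have h4 : inner ℝ (gr2 g v w) (Φ.J q w) = 0 :=
          gr_zero hd2 (fun t => h2 q hq t v w)
        rw [h4]
        norm_num
      · intro hh
        exact absurd (Finset.mem_univ _) hh
    rw [h3]
    ring

end one

end JVarR

theorem prfVarR (hE : clEv) (hP : clPair) (hD : clDer) (hC : clAvC1) (hG : clGee) : clVarR := by
  intro V W _ _ _ _ _ _ n e Φ Ψ U hU
  obtain ⟨hg, -, -, -, hev, hph⟩ := hC V W (2 * (e + 1)) n e Φ Ψ U hU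
  have hCo : Co U := hU.c1.continuous
  obtain ⟨_, _, _, hEv4, _, _, _, _, _, _, _, _, _, _, hEvφ, _⟩ :=
    hE V W (2 * (e + 1)) n e Φ Ψ U U hCo hCo
  have h1 := hG V (2 * (e + 1)) e Φ (fun r r' => Ψ.av (U r r')) hg
    (fun v w => (hev v w).1) (fun v w => (hev v w).2)
  have e1 : Ev Φ Ψ (fun r r' v v' => pA Ψ U r r' v v' ^ 2) =
      Φ.av (fun r r' => Ψ.av (U r r') ^ 2) := hEvφ (fun r r' => Ψ.av (U r r') ^ 2)
  have e2 : Ev Φ Ψ (fun r r' v v' => ∑ q, dR Φ q (pA Ψ U) r r' v v' ^ 2) =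
      Φ.av (fun r r' => ∑ q, Φ.om q (fun ρ ρ' => Ψ.av (U ρ ρ')) r r' ^ 2) :=
    hEvφ (fun r r' => ∑ q, Φ.om q (fun ρ ρ' => Ψ.av (U ρ ρ')) r r' ^ 2)
  have hpair : ∀ g : Φ.G, Φ.Pair (Φ.A g Φ.a) (Φ.A g Φ.b) := by
    intro g
    have h2 := (hP V (2 * (e + 1)) e Φ).2.2.1 Φ.a Φ.b ⟨Φ.ha, Φ.hb, Φ.hab⟩
    exact h2.2.2.2.2.1 g
  have hz := fun g : Φ.G => JVarR.n_zero Φ
    (g := fun r r' => Ψ.av (U r r')) hg (fun q hq t r r' => (hph q hq t r r').1)
    (fun q hq t r r' => (hph q hq t r r').2) (hpair g)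
  have e3 : Φ.av (Φ.n2 (fun r r' => Ψ.av (U r r'))) = 0 := by
    have h2 : (fun g : Φ.G => Φ.n2 (fun r r' => Ψ.av (U r r')) (Φ.A g Φ.a) (Φ.A g Φ.b)) =
        fun _ => 0 := funext fun g => (hz g).2
    have h3 : Φ.av (Φ.n2 (fun r r' => Ψ.av (U r r'))) =
        ∫ g, Φ.n2 (fun r r' => Ψ.av (U r r')) (Φ.A g Φ.a) (Φ.A g Φ.b) ∂Φ.μ := rfl
    rw [h3, h2]
    exact integral_zero _ _
  have e4 : Φ.av (fun v w => Φ.n1 (fun r r' => Ψ.av (U r r')) v w +
      ∑ q, Φ.om q (fun r r' => Ψ.av (U r r')) v w ^ 2) =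
      Φ.av (fun r r' => ∑ q, Φ.om q (fun ρ ρ' => Ψ.av (U ρ ρ')) r r' ^ 2) := by
    refine integral_congr_ae (Eventually.of_forall fun g => ?_)
    show Φ.n1 (fun r r' => Ψ.av (U r r')) (Φ.A g Φ.a) (Φ.A g Φ.b) + _ = _
    rw [(hz g).1, zero_add]
  rw [e3, e4, zero_div, zero_add] at h1
  rw [e1, e2, hEv4]
  have hc : (0 : ℝ) < 2 * ((2 * (e + 1) : ℕ) : ℝ) := by positivity
  have h2 := (le_div_iff₀ hc).1 h1
  push_cast at h2
  calc 4 * ((e : ℝ) + 1) * (Φ.av (fun r r' => Ψ.av (U r r') ^ 2) -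
        Φ.av (fun r r' => Ψ.av (U r r')) ^ 2)
      = (Φ.av (fun r r' => Ψ.av (U r r') ^ 2) - Φ.av (fun r r' => Ψ.av (U r r')) ^ 2) *
        (2 * (2 * ((e : ℝ) + 1))) := by ring
    _ ≤ _ := h2

end Pool.Agent.Work.MP_408f4b_gt.Q
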