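import Pool.Agent.Work.MP_408f4b_gt.Q.Stmts3

set_option autoImplicit false

/-!
# Item Wir: a Wirtinger inequality
-/

namespace Pool.Agent.Work.MP_408f4b_gt.Q

open MeasureTheory Set Filter Topology

namespace JWir

/-- Wirtinger inequality with a smaller frequency. -/
theorem wirt_lt {h h' : ℝ → ℝ} (hd : ∀ t, HasDerivAt h (h' t) t) (hc : Continuous h') (a : ℝ)
    (h0 : h a = 0) (h1 : h (a + Real.pi / 2) = 0) {w : ℝ} (hw0 : 0 < w) (hw : w < 2) :
    w ^ 2 * (∫ t in a..(a + Real.pi / 2), h t ^ 2) ≤ ∫ t in a..(a + Real.pi / 2), h' t ^ 2 := by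
  have hpi := Real.pi_pos
  have hle : a ≤ a + Real.pi / 2 := by linarith
  have hcont : Continuous h := continuous_iff_continuousAt.2 fun t => (hd t).continuousAt
  set c : ℝ := a + Real.pi / 4 with hcdef
  have hcos : ∀ t ∈ Set.uIcc a (a + Real.pi / 2), 0 < Real.cos (w * (t - c)) := by
    intro t ht
    rw [Set.uIcc_of_le hle] at ht
    obtain ⟨t1, t2⟩ := ht
    apply Real.cos_pos_of_mem_Ioo
    have b1 : -(Real.pi / 4) ≤ t - c := by rw [hcdef]; linarith
    have b2 : t - c ≤ Real.pi / 4 := by rw [hcdef]; linarith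
    constructor
    · nlinarith
    · nlinarith
  set D : ℝ → ℝ := fun t => w * (1 / Real.cos (w * (t - c)) ^ 2 * w) * h t ^ 2 +
    w * Real.tan (w * (t - c)) * (2 * h t * h' t) with hD
  have hder : ∀ t ∈ Set.uIcc a (a + Real.pi / 2),
      HasDerivAt (fun t => w * Real.tan (w * (t - c)) * h t ^ 2) (D t) t := by
    intro t ht
    have e1 : HasDerivAt (fun t : ℝ => w * (t - c)) w t := by
      have := ((hasDerivAt_id t).sub_const c).const_mul w
      simpa using this
    have e2 : HasDerivAt (fun t : ℝ => Real.tan (w * (t - c)))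
        (1 / Real.cos (w * (t - c)) ^ 2 * w) t := by
      have e0 : HasDerivAt Real.tan (1 / Real.cos (w * (t - c)) ^ 2) (w * (t - c)) :=
        Real.hasDerivAt_tan (hcos t ht).ne'
      exact HasDerivAt.comp (h₂ := Real.tan) (h := fun t : ℝ => w * (t - c)) t e0 e1
    have e3 : HasDerivAt (fun t : ℝ => h t ^ 2) (2 * h t * h' t) t := by
      have := (hd t).fun_pow 2
      simpa using this
    have e4 := (e2.const_mul w).mul e3
    refine e4.congr_deriv ?_
    rw [hD]
  have hDc : ContinuousOn D (Set.uIcc a (a + Real.pi / 2)) := by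
    have k1 : Continuous fun t : ℝ => w * (t - c) := by fun_prop
    have k2 : ContinuousOn (fun t : ℝ => 1 / Real.cos (w * (t - c)) ^ 2)
        (Set.uIcc a (a + Real.pi / 2)) := by
      refine ContinuousOn.div continuousOn_const ((Real.continuous_cos.comp k1).pow 2).continuousOn
        fun t ht => ?_
      exact pow_ne_zero 2 (hcos t ht).ne'
    have k3 : ContinuousOn (fun t : ℝ => Real.tan (w * (t - c)))
        (Set.uIcc a (a + Real.pi / 2)) := by
      intro t ht
      exact (ContinuousAt.comp (g := Real.tan) (f := fun t : ℝ => w * (t - c))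
        (Real.continuousAt_tan.2 (hcos t ht).ne') k1.continuousAt).continuousWithinAt
    rw [hD]
    refine ContinuousOn.add (((continuousOn_const.mul (k2.mul continuousOn_const)).mul
      (hcont.pow 2).continuousOn)) ((continuousOn_const.mul k3).mul ?_)
    exact ((continuous_const.mul hcont).mul hc).continuousOn
  have hI := intervalIntegral.integral_eq_sub_of_hasDerivAt hder hDc.intervalIntegrable
  rw [h0, h1] at hI
  have i1 : IntervalIntegrable (fun t => h' t ^ 2) volume a (a + Real.pi / 2) :=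
    (hc.pow 2).intervalIntegrable _ _
  have i2 : IntervalIntegrable (fun t => w ^ 2 * h t ^ 2) volume a (a + Real.pi / 2) :=
    (continuous_const.mul (hcont.pow 2)).intervalIntegrable _ _
  have hpos : 0 ≤ ∫ t in a..(a + Real.pi / 2), ((h' t ^ 2 - w ^ 2 * h t ^ 2) + D t) := by
    refine intervalIntegral.integral_nonneg hle fun t ht => ?_
    have hct := hcos t (by rw [Set.uIcc_of_le hle]; exact ht)
    have e5 : 1 / Real.cos (w * (t - c)) ^ 2 = 1 + Real.tan (w * (t - c)) ^ 2 := by
      rw [Real.tan_eq_sin_div_cos]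
      have := Real.sin_sq_add_cos_sq (w * (t - c))
      field_simp
      linarith
    have e6 : (h' t ^ 2 - w ^ 2 * h t ^ 2) + D t =
        (h' t + w * Real.tan (w * (t - c)) * h t) ^ 2 := by
      rw [hD]
      simp only [e5]
      ring
    rw [e6]
    positivity
  rw [intervalIntegral.integral_add (i1.sub i2) hDc.intervalIntegrable,
    intervalIntegral.integral_sub i1 i2, hI, intervalIntegral.integral_const_mul] at hpos
  linarith

/-- Wirtinger inequality. -/
theorem wirt {h h' : ℝ → ℝ} (hd : ∀ t, HasDerivAt h (h' t) t) (hc : Continuous h') (a : ℝ)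
    (h0 : h a = 0) (h1 : h (a + Real.pi / 2) = 0) :
    4 * (∫ t in a..(a + Real.pi / 2), h t ^ 2) ≤ ∫ t in a..(a + Real.pi / 2), h' t ^ 2 := by
  set A := ∫ t in a..(a + Real.pi / 2), h t ^ 2 with hA
  set B := ∫ t in a..(a + Real.pi / 2), h' t ^ 2 with hB
  have hlim : Tendsto (fun w : ℝ => w ^ 2 * A) (𝓝[<] 2) (𝓝 (2 ^ 2 * A)) := by
    have : Continuous fun w : ℝ => w ^ 2 * A := by fun_prop
    exact (this.tendsto 2).mono_left nhdsWithin_le_nhds
  have hev : ∀ᶠ w : ℝ in 𝓝[<] 2, w ^ 2 * A ≤ B := by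
    have h2 : ∀ᶠ w : ℝ in 𝓝[<] 2, w ∈ Set.Ioo (0 : ℝ) 2 := Ioo_mem_nhdsLT (by norm_num)
    filter_upwards [h2] with w hw
    exact wirt_lt hd hc a h0 h1 hw.1 hw.2
  have := le_of_tendsto hlim hev
  linarith

end JWir

open JWir in
theorem prfWir : clWir := by
  intro φ φ' hd hc hper
  have hpi := Real.pi_pos
  have hφ : Continuous φ := continuous_iff_continuousAt.2 fun t => (hd t).continuousAt
  have hper' : ∀ t, φ' (t + Real.pi) = φ' t := by
    intro t
    have e1 : HasDerivAt (fun s : ℝ => φ (s + Real.pi)) (φ' (t + Real.pi)) t :=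
      (hd (t + Real.pi)).comp_add_const t Real.pi
    have e2 : (fun s : ℝ => φ (s + Real.pi)) = φ := funext hper
    rw [e2] at e1
    exact e1.unique (hd t)
  set g : ℝ → ℝ := fun t => φ t - φ (t + Real.pi / 2) with hg
  set g' : ℝ → ℝ := fun t => φ' t - φ' (t + Real.pi / 2) with hg'
  have hgd : ∀ t, HasDerivAt g (g' t) t := fun t =>
    (hd t).sub ((hd (t + Real.pi / 2)).comp_add_const t (Real.pi / 2))
  have hgc : Continuous g := continuous_iff_continuousAt.2 fun t => (hgd t).continuousAt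
  have hg'c : Continuous g' := hc.sub (hc.comp (continuous_id.add continuous_const))
  have hanti : ∀ t, g (t + Real.pi / 2) = - g t := by
    intro t
    have : t + Real.pi / 2 + Real.pi / 2 = t + Real.pi := by ring
    rw [hg]
    simp only [this, hper]
    ring
  have hanti' : ∀ t, g' (t + Real.pi / 2) = - g' t := by
    intro t
    have : t + Real.pi / 2 + Real.pi / 2 = t + Real.pi := by ring
    rw [hg']
    simp only [this, hper']
    ring
  obtain ⟨t₀, ht₀⟩ : ∃ t₀, g t₀ = 0 := by
    have h1 := hanti 0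
    rw [zero_add] at h1
    have h2 : (0 : ℝ) ∈ Set.uIcc (g 0) (g (Real.pi / 2)) := by
      rw [h1, Set.mem_uIcc]
      rcases le_total 0 (g 0) with h | h
      · right; constructor <;> linarith
      · left; constructor <;> linarith
    obtain ⟨t, -, ht⟩ := intermediate_value_uIcc (hgc.continuousOn) h2
    exact ⟨t, ht⟩
  have hw := wirt hgd hg'c t₀ ht₀ (by rw [hanti, ht₀, neg_zero])
  have p1 : Function.Periodic (fun t => g t ^ 2) (Real.pi / 2) := by
    intro t
    simp only [hanti]
    ring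
  have p2 : Function.Periodic (fun t => g' t ^ 2) (Real.pi / 2) := by
    intro t
    simp only [hanti']
    ring
  have full : ∀ f : ℝ → ℝ, Continuous f → Function.Periodic f (Real.pi / 2) →
      ∫ t in (0 : ℝ)..Real.pi, f t = 2 * ∫ t in t₀..(t₀ + Real.pi / 2), f t := by
    intro f hf hp
    have e1 := hp.intervalIntegral_add_eq t₀ 0
    have e2 := hp.intervalIntegral_add_eq (Real.pi / 2) 0
    have e3 := intervalIntegral.integral_add_adjacent_intervals
      (hf.intervalIntegrable (μ := volume) 0 (Real.pi / 2))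
      (hf.intervalIntegrable (μ := volume) (Real.pi / 2) Real.pi)
    have e4 : Real.pi / 2 + Real.pi / 2 = Real.pi := by ring
    rw [e4] at e2
    rw [zero_add] at e1 e2
    rw [← e3, e2, e1]
    ring
  have f1 : ∫ t in (0 : ℝ)..Real.pi, g t ^ 2 = 2 * ∫ t in t₀..(t₀ + Real.pi / 2), g t ^ 2 :=
    full _ (hgc.pow 2) p1
  have f2 : ∫ t in (0 : ℝ)..Real.pi, g' t ^ 2 = 2 * ∫ t in t₀..(t₀ + Real.pi / 2), g' t ^ 2 :=
    full _ (hg'c.pow 2) p2
  have q1 : Function.Periodic (fun t => φ' t ^ 2) Real.pi := by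
    intro t
    simp only [hper']
  have s1 : ∫ t in (0 : ℝ)..Real.pi, φ' (t + Real.pi / 2) ^ 2 =
      ∫ t in (0 : ℝ)..Real.pi, φ' t ^ 2 := by
    have e1 : ∫ t in (0 : ℝ)..Real.pi, φ' (t + Real.pi / 2) ^ 2 =
        ∫ t in (0 + Real.pi / 2)..(Real.pi + Real.pi / 2), φ' t ^ 2 :=
      intervalIntegral.integral_comp_add_right (fun t => φ' t ^ 2) (Real.pi / 2)
    have e2 := q1.intervalIntegral_add_eq (0 + Real.pi / 2) 0
    rw [e1]
    have e3 : 0 + Real.pi / 2 + Real.pi = Real.pi + Real.pi / 2 := by ring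
    rw [e3, zero_add Real.pi] at e2
    exact e2
  have c1 : Continuous fun t => φ' t ^ 2 := hc.pow 2
  have c2 : Continuous fun t => φ' (t + Real.pi / 2) ^ 2 :=
    (hc.comp (continuous_id.add continuous_const)).pow 2
  have c3 : IntervalIntegrable (fun t => 2 * φ' t ^ 2) volume 0 Real.pi :=
    (continuous_const.mul c1).intervalIntegrable _ _
  have c4 : IntervalIntegrable (fun t => 2 * φ' (t + Real.pi / 2) ^ 2) volume 0 Real.pi :=
    (continuous_const.mul c2).intervalIntegrable _ _
  have s2 : ∫ t in (0 : ℝ)..Real.pi, g' t ^ 2 ≤ 4 * ∫ t in (0 : ℝ)..Real.pi, φ' t ^ 2 := by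
    calc ∫ t in (0 : ℝ)..Real.pi, g' t ^ 2
        ≤ ∫ t in (0 : ℝ)..Real.pi, (2 * φ' t ^ 2 + 2 * φ' (t + Real.pi / 2) ^ 2) := by
          refine intervalIntegral.integral_mono_on hpi.le ((hg'c.pow 2).intervalIntegrable _ _)
            (c3.add c4) fun t _ => ?_
          rw [hg']
          nlinarith [sq_nonneg (φ' t + φ' (t + Real.pi / 2))]
      _ = 4 * ∫ t in (0 : ℝ)..Real.pi, φ' t ^ 2 := by
          rw [intervalIntegral.integral_add c3 c4, intervalIntegral.integral_const_mul, intervalIntegral.integral_const_mul, s1]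
          ring
  show ∫ t in (0 : ℝ)..Real.pi, g t ^ 2 ≤ _
  rw [f1]
  rw [f2] at s2
  linarith

end Pool.Agent.Work.MP_408f4b_gt.Q
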