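import Pool.Agent.Work.MP_408f4b_gt.I.KK
import Pool.Agent.Work.MP_408f4b_gt.Q.Stmts3

set_option autoImplicit false

/-!
# The sign of `QQ` in terms of the angle
-/

namespace Pool.Agent.Work.MP_408f4b_gt.Q

open MeasureTheory Set Filter Topology

namespace JAng

/-- The doubled angle. -/
theorem two_arctan (x y : ℝ) (hy : 0 < y) (hxy : y < x) :
    2 * Real.arctan (y / x) = Real.arctan ((2 * (x * y)) / (x ^ 2 - y ^ 2)) := by
  have hx : 0 < x := hy.trans hxy
  have h1 : y / x < 1 := (div_lt_one hx).2 hxy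
  have h0 : -1 < y / x := by
    have : 0 < y / x := div_pos hy hx
    linarith
  rw [Real.two_mul_arctan h0 h1]
  congr 1
  have h2 : x ^ 2 - y ^ 2 ≠ 0 := by
    have : 0 < (x - y) * (x + y) := mul_pos (by linarith) (by linarith)
    nlinarith
  have h3 : 1 - (y / x) ^ 2 ≠ 0 := by
    rw [div_pow, one_sub_div (by positivity)]
    exact div_ne_zero h2 (by positivity)
  have h4 : 1 - (y / x) ^ 2 = (x ^ 2 - y ^ 2) / x ^ 2 := by
    field_simp
  rw [h4]
  field_simp

end JAng

open JAng in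
theorem prfAng : clAng := by
  intro a b x y s ha hb hy hxy
  have hx : 0 < x s := hy.trans hxy
  have hX : 0 < x s ^ 2 - y s ^ 2 := by
    have : 0 < (x s - y s) * (x s + y s) := mul_pos (by linarith) (by linarith)
    nlinarith
  have hY : 0 < 2 * (x s * y s) := by positivity
  have hK := (prfKK (b + 1) (a + 1) (by omega) (by omega)).2 (x s ^ 2 - y s ^ 2)
    (2 * (x s * y s)) hX hY
  have hQ : (((a + 1 : ℕ) : ℝ) - 1) * (x s ^ 2 - y s ^ 2) ^ 2 -
      (((b + 1 : ℕ) : ℝ) - 1) * (2 * (x s * y s)) ^ 2 = QQ a b x y s := by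
    unfold QQ
    push_cast
    ring
  rw [hQ] at hK
  rw [two_arctan (x s) (y s) hy hxy]
  refine ⟨hK.1.symm, hK.2.symm, ?_, Real.arctan_lt_pi_div_two _⟩
  rw [← Real.arctan_zero]
  exact Real.arctan_strictMono (div_pos hY hX)

end Pool.Agent.Work.MP_408f4b_gt.Q
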