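import Pool.Agent.Work.MP_408f4b_gt.Q.Stmts3

set_option autoImplicit false
set_option linter.unusedSectionVars false

/-!
# Wirtinger's inequality along the rotations of the two pairs
-/

namespace Pool.Agent.Work.MP_408f4b_gt.Q

open MeasureTheory Set Filter Topology

namespace JCirc

section one

variable {V : Type} [NormedAddCommGroup V] [InnerProductSpace ℝ V] [CompleteSpace V] {n e : ℕ}
  (Φ : Frm V n e)

lemma cont_Js (q : Fin (e + 1)) : Continuous (Φ.Js q) := by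
  unfold Frm.Js
  by_cases hq : q = 0
  · simp only [hq, if_true]
    exact continuous_id
  · simp only [hq, if_false]
    exact (Φ.J q).continuous.neg

lemma cont_rt1 (q : Fin (e + 1)) : Continuous (fun z : ℝ × V × V => Φ.rt1 q z.1 z.2.1 z.2.2) := by
  unfold Frm.rt1
  have hJ := (Φ.J q).continuous
  exact ((Real.continuous_cos.comp continuous_fst).smul (continuous_fst.comp continuous_snd)).add
    ((Real.continuous_sin.comp continuous_fst).smul
      (hJ.comp (continuous_snd.comp continuous_snd)))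

lemma cont_rt2 (q : Fin (e + 1)) : Continuous (fun z : ℝ × V × V => Φ.rt2 q z.1 z.2.1 z.2.2) := by
  unfold Frm.rt2
  have hJ := cont_Js Φ q
  exact ((Real.continuous_cos.comp continuous_fst).smul (continuous_snd.comp continuous_snd)).sub
    ((Real.continuous_sin.comp continuous_fst).smul
      (hJ.comp (continuous_fst.comp continuous_snd)))

lemma Js_add (q : Fin (e + 1)) (v w : V) : Φ.Js q (v + w) = Φ.Js q v + Φ.Js q w := by
  unfold Frm.Js
  split_ifs
  · rfl
  · rw [map_add]; abel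

lemma Js_smul (q : Fin (e + 1)) (c : ℝ) (v : V) : Φ.Js q (c • v) = c • Φ.Js q v := by
  unfold Frm.Js
  split_ifs
  · rfl
  · rw [map_smul, smul_neg]

lemma Js_neg (q : Fin (e + 1)) (v : V) : Φ.Js q (-v) = -Φ.Js q v := by
  have := Js_smul Φ q (-1) v
  simpa using this

lemma rt1_add (hP : clPair) (q : Fin (e + 1)) (t : ℝ) (v w : V) :
    Φ.rt1 q (t + Real.pi / 2) v w = Φ.J q (Φ.rt2 q t v w) := by
  unfold Frm.rt1 Frm.rt2
  rw [Real.cos_add_pi_div_two, Real.sin_add_pi_div_two, map_sub, map_smul, map_smul,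
    ((hP V n e Φ).2.1 q v).1, neg_smul]
  abel

lemma rt2_add (hP : clPair) (q : Fin (e + 1)) (t : ℝ) (v w : V) :
    Φ.rt2 q (t + Real.pi / 2) v w = -Φ.Js q (Φ.rt1 q t v w) := by
  unfold Frm.rt1 Frm.rt2
  rw [Real.cos_add_pi_div_two, Real.sin_add_pi_div_two, Js_add, Js_smul, Js_smul,
    ((hP V n e Φ).2.1 q w).2.1, neg_smul]
  abel

lemma rt1_sub (hP : clPair) (q : Fin (e + 1)) (t : ℝ) (v w : V) :
    Φ.rt1 q (t - Real.pi / 2) v w = -Φ.J q (Φ.rt2 q t v w) := by
  unfold Frm.rt1 Frm.rt2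
  rw [Real.cos_sub_pi_div_two, Real.sin_sub_pi_div_two, map_sub, map_smul, map_smul,
    ((hP V n e Φ).2.1 q v).1, neg_smul]
  abel

lemma rt2_sub (hP : clPair) (q : Fin (e + 1)) (t : ℝ) (v w : V) :
    Φ.rt2 q (t - Real.pi / 2) v w = Φ.Js q (Φ.rt1 q t v w) := by
  unfold Frm.rt1 Frm.rt2
  rw [Real.cos_sub_pi_div_two, Real.sin_sub_pi_div_two, Js_add, Js_smul, Js_smul,
    ((hP V n e Φ).2.1 q w).2.1, neg_smul]
  abel

lemma rt1_pi (q : Fin (e + 1)) (t : ℝ) (v w : V) :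
    Φ.rt1 q (t + Real.pi) v w = -Φ.rt1 q t v w := by
  unfold Frm.rt1
  rw [Real.cos_add_pi, Real.sin_add_pi, neg_smul, neg_smul]
  abel

lemma rt2_pi (q : Fin (e + 1)) (t : ℝ) (v w : V) :
    Φ.rt2 q (t + Real.pi) v w = -Φ.rt2 q t v w := by
  unfold Frm.rt2
  rw [Real.cos_add_pi, Real.sin_add_pi, neg_smul, neg_smul]
  abel

lemma rt1_pi' (q : Fin (e + 1)) (t : ℝ) (v w : V) :
    Φ.rt1 q (t - Real.pi) v w = -Φ.rt1 q t v w := by
  unfold Frm.rt1
  rw [Real.cos_sub_pi, Real.sin_sub_pi, neg_smul, neg_smul]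
  abel

lemma rt2_pi' (q : Fin (e + 1)) (t : ℝ) (v w : V) :
    Φ.rt2 q (t - Real.pi) v w = -Φ.rt2 q t v w := by
  unfold Frm.rt2
  rw [Real.cos_sub_pi, Real.sin_sub_pi, neg_smul, neg_smul]
  abel

end one

section two

variable {V W : Type} [NormedAddCommGroup V] [InnerProductSpace ℝ V] [CompleteSpace V]
  [NormedAddCommGroup W] [InnerProductSpace ℝ W] [CompleteSpace W] {m n e : ℕ}
  (Φ : Frm V m e) (Ψ : Frm W n e)

/-- The function along the rotations. -/
noncomputable def rot (q : Fin (e + 1)) (κ : ℝ) (U : V → V → W → W → ℝ) (t : ℝ) (r r' : V)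
    (v v' : W) : ℝ :=
  U (Φ.rt1 q t r r') (Φ.rt2 q t r r') (Ψ.rt1 q (κ * t) v v') (Ψ.rt2 q (κ * t) v v')

lemma cop_rot {U : V → V → W → W → ℝ} (hU : Co U) (q : Fin (e + 1)) (κ : ℝ) :
    Cop (rot Φ Ψ q κ U) := by
  have c1 : Continuous (fun z : ℝ × V × V × W × W => ((z.1, z.2.1, z.2.2.1) : ℝ × V × V)) := by
    fun_prop
  have c2 : Continuous (fun z : ℝ × V × V × W × W =>
      ((κ * z.1, z.2.2.2.1, z.2.2.2.2) : ℝ × W × W)) := by
    fun_prop
  exact hU.comp (((cont_rt1 Φ q).comp c1).prodMk (((cont_rt2 Φ q).comp c1).prodMk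
    (((cont_rt1 Ψ q).comp c2).prodMk ((cont_rt2 Ψ q).comp c2))))

lemma co_int {h : ℝ → V → V → W → W → ℝ} (hh : Cop h) (α β : ℝ) :
    Co (fun r r' v v' => ∫ s in α..β, h s r r' v v') := by
  unfold Co
  have : Continuous (Function.uncurry (fun (z : V × V × W × W) (s : ℝ) =>
      h s z.1 z.2.1 z.2.2.1 z.2.2.2)) := by
    have c : Continuous (fun y : (V × V × W × W) × ℝ =>
      ((y.2, y.1) : ℝ × V × V × W × W)) := by fun_prop
    exact Continuous.comp hh c
  exact intervalIntegral.continuous_parametric_intervalIntegral_of_continuous' this α β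

lemma cop_line {h : ℝ → V → V → W → W → ℝ} (hh : Cop h) (r r' : V) (v v' : W) :
    Continuous (fun t => h t r r' v v') := by
  have c2 : Continuous (fun t : ℝ => ((t, r, r', v, v') : ℝ × V × V × W × W)) := by fun_prop
  exact Continuous.comp hh c2

lemma int_rot (hE : clEv) (hF : clFub) {U : V → V → W → W → ℝ} (hU : Co U) (q : Fin (e + 1))
    (κ : ℝ) :
    Ev Φ Ψ (fun r r' v v' => ∫ t in (0 : ℝ)..Real.pi, rot Φ Ψ q κ U t r r' v v') =
      Real.pi * Ev Φ Ψ U := by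
  have h1 := (hF V W m n e Φ Ψ (rot Φ Ψ q κ U) (rot Φ Ψ q κ U) (cop_rot Φ Ψ hU q κ)
    (cop_rot Φ Ψ hU q κ)).2.1 0 Real.pi
  rw [← h1]
  have h2 : ∀ t, Ev Φ Ψ (rot Φ Ψ q κ U t) = Ev Φ Ψ U := fun t =>
    (hE V W m n e Φ Ψ U U hU hU).2.2.2.2.2.2.2.2.2.1 q t (κ * t)
  simp only [h2, intervalIntegral.integral_const, sub_zero, smul_eq_mul]

lemma core (hE : clEv) (hW : clWir) (hD : clDR) (hF : clFub) {U U' : V → V → W → W → ℝ}
    (hU : C1 U) (hU' : Co U') (q : Fin (e + 1)) (κ : ℝ)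
    (h1 : ∀ t r r' v v', rot Φ Ψ q κ U (t + Real.pi / 2) r r' v v' = rot Φ Ψ q κ U' t r r' v v')
    (h2 : ∀ t r r' v v', rot Φ Ψ q κ U (t + Real.pi) r r' v v' = rot Φ Ψ q κ U t r r' v v') :
    Ev Φ Ψ (fun r r' v v' => (U r r' v v' - U' r r' v v') ^ 2) ≤
      Ev Φ Ψ (fun r r' v v' => (dR Φ q U r r' v v' + κ * dW Ψ q U r r' v v') ^ 2) := by
  have hUc : Co U := hU.continuous
  obtain ⟨hd1, -, -, -, hd2, -⟩ := hD V W m n e Φ Ψ U U hU hU
  have hG : Co (fun r r' v v' => dR Φ q U r r' v v' + κ * dW Ψ q U r r' v v') := by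
    have a := (hd1 q).1
    have b := (hd1 q).2
    unfold Co at a b ⊢
    exact a.add (continuous_const.mul b)
  have hG2 : Co (fun r r' v v' => (dR Φ q U r r' v v' + κ * dW Ψ q U r r' v v') ^ 2) := by
    unfold Co at hG ⊢
    exact hG.pow 2
  have hg2 : Co (fun r r' v v' => (U r r' v v' - U' r r' v v') ^ 2) := by
    unfold Co at hUc hU' ⊢
    exact (hUc.sub hU').pow 2
  have key : ∀ r r' v v',
      ∫ t in (0 : ℝ)..Real.pi,
        rot Φ Ψ q κ (fun r r' v v' => (U r r' v v' - U' r r' v v') ^ 2) t r r' v v' ≤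
      ∫ t in (0 : ℝ)..Real.pi,
        rot Φ Ψ q κ (fun r r' v v' => (dR Φ q U r r' v v' + κ * dW Ψ q U r r' v v') ^ 2)
          t r r' v v' := by
    intro r r' v v'
    have hw := hW (fun t => rot Φ Ψ q κ U t r r' v v')
      (fun t => rot Φ Ψ q κ (fun r r' v v' => dR Φ q U r r' v v' + κ * dW Ψ q U r r' v v')
        t r r' v v') (fun t => hd2 q κ r r' v v' t) ?_ (fun t => h2 t r r' v v')
    · have e1 : ∀ t, rot Φ Ψ q κ (fun r r' v v' => (U r r' v v' - U' r r' v v') ^ 2) t r r' v v' =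
          (rot Φ Ψ q κ U t r r' v v' - rot Φ Ψ q κ U (t + Real.pi / 2) r r' v v') ^ 2 := by
        intro t
        rw [h1]
        rfl
      simp only [e1]
      exact hw
    · exact cop_line (cop_rot Φ Ψ hG q κ) r r' v v'
  have hI1 := co_int (cop_rot Φ Ψ hg2 q κ) 0 Real.pi
  have hI2 := co_int (cop_rot Φ Ψ hG2 q κ) 0 Real.pi
  have hE' := hE V W m n e Φ Ψ _ _ hI1 hI2
  obtain ⟨-, -, -, -, -, -, -, -, -, -, -, hE2, -⟩ := hE'
  have hmono := hE2 (fun r r' v v' _ _ => key r r' v v')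
  clear hE2
  rw [int_rot Φ Ψ hE hF hg2, int_rot Φ Ψ hE hF hG2] at hmono
  exact le_of_mul_le_mul_left hmono Real.pi_pos

end two

end JCirc

open JCirc in
theorem prfCirc (hE : clEv) (hP : clPair) (hW : clWir) (hD : clDR) (hF : clFub) : clCirc := by
  intro V W _ _ _ _ _ _ m n e Φ Ψ U hU q
  have hUc : Co U := hU.c1.continuous
  have ph1 : q ≠ 0 → ∀ r r' v v', U (Φ.J q r) r' (Ψ.J q v) v' = U r r' v v' := by
    intro hq r r' v v'
    have := hU.ph1 q hq (Real.pi / 2) r r' v v'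
    simpa using this
  have ph2 : q ≠ 0 → ∀ r r' v v', U r (Φ.J q r') v (Ψ.J q v') = U r r' v v' := by
    intro hq r r' v v'
    have := hU.ph2 q hq (Real.pi / 2) r r' v v'
    simpa using this
  have hJ0 : ∀ r, Φ.J 0 r = r := Φ.J0
  have hJ0' : ∀ v, Ψ.J 0 v = v := Ψ.J0
  constructor
  · have h := core Φ Ψ hE hW hD hF (U := U) (U' := fun r r' v v' => U r' r v' v) hU.c1 ?_ q 1 ?_ ?_
    · simpa only [one_mul] using h
    · have c : Continuous (fun z : V × V × W × W =>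
          ((z.2.1, z.1, z.2.2.2, z.2.2.1) : V × V × W × W)) := by fun_prop
      exact Continuous.comp hUc c
    · intro t r r' v v'
      simp only [rot, one_mul, rt1_add Φ hP, rt2_add Φ hP, rt1_add Ψ hP, rt2_add Ψ hP]
      by_cases hq : q = 0
      · subst hq
        simp only [hJ0, hJ0', Frm.Js, if_true, hU.neg2]
      · simp only [Frm.Js, hq, if_false, neg_neg]
        rw [ph1 hq, ph2 hq]
    · intro t r r' v v'
      simp only [rot, one_mul, rt1_pi, rt2_pi, hU.neg1, hU.neg2]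
  · have h := core Φ Ψ hE hW hD hF (U := U) (U' := fun r r' v v' => U r' r (-v') (-v)) hU.c1 ?_ q
      (-1) ?_ ?_
    · have e1 : ∀ a b : ℝ, a + -1 * b = a - b := fun a b => by ring
      simpa only [e1] using h
    · have c : Continuous (fun z : V × V × W × W =>
          ((z.2.1, z.1, -z.2.2.2, -z.2.2.1) : V × V × W × W)) := by fun_prop
      exact Continuous.comp hUc c
    · intro t r r' v v'
      have e1 : -1 * (t + Real.pi / 2) = -1 * t - Real.pi / 2 := by ring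
      simp only [rot, e1, rt1_add Φ hP, rt2_add Φ hP, rt1_sub Ψ hP, rt2_sub Ψ hP]
      by_cases hq : q = 0
      · subst hq
        simp only [hJ0, hJ0', Frm.Js, if_true]
        have := hU.neg2 (Φ.rt2 0 t r r') (Φ.rt1 0 t r r') (-Ψ.rt2 0 (-1 * t) v v')
          (-Ψ.rt1 0 (-1 * t) v v')
        rw [neg_neg] at this
        exact this
      · simp only [Frm.Js, hq, if_false, neg_neg]
        rw [← map_neg (Ψ.J q), ← map_neg (Ψ.J q), ph1 hq, ph2 hq]
    · intro t r r' v v'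
      have e1 : -1 * (t + Real.pi) = -1 * t - Real.pi := by ring
      simp only [rot, e1, rt1_pi, rt2_pi, rt1_pi', rt2_pi', hU.neg1, hU.neg2]

end Pool.Agent.Work.MP_408f4b_gt.Q
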