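import Pool.Agent.Work.MP_408f4b_gt.Q.Stmts3

set_option autoImplicit false

/-!
# Item Lin
-/

namespace Pool.Agent.Work.MP_408f4b_gt.Q

open MeasureTheory Set Filter Topology

namespace JLin

variable {V W M : Type} [NormedAddCommGroup V] [InnerProductSpace ℝ V] [CompleteSpace V]
  [NormedAddCommGroup W] [InnerProductSpace ℝ W] [CompleteSpace W]
  [NormedAddCommGroup M] [InnerProductSpace ℝ M] [CompleteSpace M] {m n e : ℕ}
  {Φ : Frm V m e} {Ψ : Frm W n e}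

lemma cont_B (T : Tns Φ Ψ M) : Continuous (fun z : V × W => T.B z.1 z.2) := by
  have h1 : FiniteDimensional ℝ V := Φ.L.toLinearEquiv.finiteDimensional
  have h2 : FiniteDimensional ℝ W := Ψ.L.toLinearEquiv.finiteDimensional
  let Bl : V →ₗ[ℝ] W →ₗ[ℝ] M := LinearMap.mk₂ ℝ T.B T.add_l T.smul_l T.add_r T.smul_r
  let Bc : V →ₗ[ℝ] (W →L[ℝ] M) :=
    (LinearMap.toContinuousLinearMap : (W →ₗ[ℝ] M) ≃ₗ[ℝ] (W →L[ℝ] M)).toLinearMap ∘ₗ Bl
  let Bcc : V →L[ℝ] W →L[ℝ] M := LinearMap.toContinuousLinearMap Bc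
  have h3 : Continuous (fun z : V × W => Bcc z.1 z.2) :=
    (Bcc.continuous.comp continuous_fst).clm_apply continuous_snd
  exact h3

lemma cont_X (T : Tns Φ Ψ M) (x y : ℝ) :
    Continuous (fun z : V × V × W × W => T.X x y z.1 z.2.1 z.2.2.1 z.2.2.2) := by
  unfold Tns.X
  have h := cont_B T
  have h1 : Continuous (fun z : V × V × W × W => T.B z.1 z.2.2.1) :=
    h.comp (continuous_fst.prodMk (continuous_fst.comp (continuous_snd.comp continuous_snd)))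
  have h2 : Continuous (fun z : V × V × W × W => T.B z.2.1 z.2.2.2) :=
    h.comp ((continuous_fst.comp continuous_snd).prodMk
      (continuous_snd.comp (continuous_snd.comp continuous_snd)))
  exact (h1.const_smul x).add (h2.const_smul y)

lemma grad_eq (X₀ X : M) : gradient (fun Y : M => (inner ℝ X₀ Y : ℝ)) X = X₀ := by
  apply HasGradientAt.gradient
  rw [hasGradientAt_iff_hasFDerivAt]
  exact (innerSL ℝ X₀).hasFDerivAt

end JLin

open JLin in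
theorem prfLin (hV : clVol) (hM : clMom) (hE : clEv) : clLin := by
  intro V W M _ _ _ _ _ _ _ _ _ m n e Φ Ψ T a b P ha hab hb X₀ hX f hf
  obtain rfl : f = fun Y => (inner ℝ X₀ Y : ℝ) := funext hf
  subst hb
  have hn : 0 < n := by omega
  have hnR : (0 : ℝ) < n := by exact_mod_cast hn
  have hX2 : 0 < ‖X₀‖ ^ 2 := pow_pos (norm_pos_iff.2 hX) 2
  obtain ⟨-, -, -, hw0, hwL, hw00, hint⟩ := hV a (e + 1) P ha (by omega)
  have hM1 : ∀ x y : ℝ, Ev Φ Ψ (T.U (fun Y => (inner ℝ X₀ Y : ℝ)) x y) = 0 := fun x y =>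
    (hM V W M m n e Φ Ψ T X₀ x y).1
  have hM2 : ∀ x y : ℝ,
      Ev Φ Ψ (fun r r' v v' => T.U (fun Y => (inner ℝ X₀ Y : ℝ)) x y r r' v v' ^ 2) =
        (x ^ 2 + y ^ 2) / (2 * n) * ‖X₀‖ ^ 2 := fun x y => (hM V W M m n e Φ Ψ T X₀ x y).2
  have hfin : P.x P.L ^ 2 + P.y P.L ^ 2 = 1 := P.final.2.2.1
  have hini : (P.x 0 ^ 2 + P.y 0 ^ 2) * P.w 0 = P.w 0 := by
    rcases P.initial with h | h | h
    · rw [h.2.2.1, one_mul]
    · rw [hw0 (Or.inl h.2.1), mul_zero]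
    · rw [hw0 (Or.inr h.2.1), mul_zero]
  refine ⟨?_, ?_, ?_⟩
  · rw [hM1, hM1, zero_mul, zero_mul, add_zero]
  · rw [hM2, hM2, hfin]
    have h1 : 0 < 1 / (2 * (n : ℝ)) * ‖X₀‖ ^ 2 * P.w P.L := by positivity
    have h2 : 0 ≤ (P.x 0 ^ 2 + P.y 0 ^ 2) / (2 * (n : ℝ)) * ‖X₀‖ ^ 2 * P.w 0 := by positivity
    linarith
  · have hgS : ∀ x y x' y' : ℝ, x' ^ 2 + y' ^ 2 = 1 →
        Ev Φ Ψ (T.gS (fun Y => (inner ℝ X₀ Y : ℝ)) x y x' y') =
          ‖X₀‖ ^ 2 * (1 - 1 / (2 * n)) := by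
      intro x y x' y' hxy
      have h1 : T.gS (fun Y => (inner ℝ X₀ Y : ℝ)) x y x' y' = fun r r' v v' =>
          1 * (fun (_ _ : V) (_ _ : W) => ‖X₀‖ ^ 2) r r' v v' +
            (-1) * (fun r r' v v' => (inner ℝ X₀ (T.X (-y') x' r r' v v')) ^ 2) r r' v v' := by
        funext r r' v v'
        unfold Tns.gS
        rw [grad_eq]
        ring
      have hc1 : Co (fun (_ _ : V) (_ _ : W) => ‖X₀‖ ^ 2) := continuous_const
      have hc2 : Co (fun r r' v v' => (inner ℝ X₀ (T.X (-y') x' r r' v v')) ^ 2) :=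
        (continuous_const.inner (cont_X T (-y') x')).pow 2
      rw [h1]
      obtain ⟨-, -, -, -, -, -, -, -, -, -, hlin, -, -, hcst, -, -⟩ :=
        hE V W m n e Φ Ψ _ _ hc1 hc2
      rw [hlin, hcst, (hM V W M m n e Φ Ψ T X₀ (-y') x').2]
      have h2 : (-y') ^ 2 + x' ^ 2 = 1 := by rw [← hxy]; ring
      rw [h2]
      ring
    have h1 : ∫ s in (0 : ℝ)..P.L, Ev Φ Ψ (T.gS (fun Y => (inner ℝ X₀ Y : ℝ)) (P.x s) (P.y s)
        (deriv P.x s) (deriv P.y s)) * P.w s =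
        ∫ s in (0 : ℝ)..P.L, ‖X₀‖ ^ 2 * (1 - 1 / (2 * n)) * P.w s := by
      apply intervalIntegral.integral_congr
      intro s hs
      rw [uIcc_of_le P.L_pos.le] at hs
      simp only
      rw [hgS _ _ _ _ (P.arclength s hs)]
    rw [h1, intervalIntegral.integral_const_mul, hM2, hM2, hfin]
    have hcast : 2 * (a : ℝ) + 2 * ((e + 1 : ℕ) : ℝ) + 1 = 2 * n - 1 := by
      have h3 : a + (e + 1) + 1 = n := by omega
      have h4 : (a : ℝ) + ((e + 1 : ℕ) : ℝ) + 1 = n := by exact_mod_cast h3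
      linarith
    rw [hcast] at hint
    have h5 : (1 : ℝ) - 1 / (2 * n) = (2 * n - 1) / (2 * n) := by field_simp
    rw [h5]
    calc ‖X₀‖ ^ 2 * ((2 * (n : ℝ) - 1) / (2 * n)) * ∫ s in (0 : ℝ)..P.L, P.w s
        = ‖X₀‖ ^ 2 / (2 * n) * ((2 * (n : ℝ) - 1) * ∫ s in (0 : ℝ)..P.L, P.w s) := by ring
      _ = ‖X₀‖ ^ 2 / (2 * n) * (P.w P.L + P.w 0) := by rw [hint]
      _ = ‖X₀‖ ^ 2 / (2 * n) * (P.w P.L + (P.x 0 ^ 2 + P.y 0 ^ 2) * P.w 0) := by rw [hini]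
      _ = _ := by ring

end Pool.Agent.Work.MP_408f4b_gt.Q
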