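import Pool.Agent.Work.MP_408f4b_gt.Q.Stmts3

set_option autoImplicit false

namespace Pool.Agent.Work.MP_408f4b_gt.Q

open MeasureTheory Set Filter Topology

namespace JTB

theorem frm_fin {V : Type} [NormedAddCommGroup V] [InnerProductSpace ℝ V] {n e : ℕ}
    (Φ : Frm V n e) : FiniteDimensional ℝ V :=
  Module.Finite.equiv Φ.L.toLinearEquiv

section

variable {V W M : Type} [NormedAddCommGroup V] [InnerProductSpace ℝ V]
  [NormedAddCommGroup W] [InnerProductSpace ℝ W]
  [NormedAddCommGroup M] [InnerProductSpace ℝ M] {m n e : ℕ}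
  {Φ : Frm V m e} {Ψ : Frm W n e} (T : Tns Φ Ψ M)

/-- the bilinear map -/
noncomputable def bil : V →ₗ[ℝ] W →ₗ[ℝ] M :=
  LinearMap.mk₂ ℝ T.B T.add_l T.smul_l T.add_r T.smul_r

theorem bil_apply (r : V) (v : W) : bil T r v = T.B r v := rfl

theorem contDiff_B : ContDiff ℝ 1 (fun z : V × W => T.B z.1 z.2) := by
  have := frm_fin Φ
  have := frm_fin Ψ
  set b := stdOrthonormalBasis ℝ V with hb
  set b' := stdOrthonormalBasis ℝ W with hb'
  have h : (fun z : V × W => T.B z.1 z.2) = fun z => ∑ i, ∑ j,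
      (inner ℝ (b i) z.1 * inner ℝ (b' j) z.2) • T.B (b i) (b' j) := by
    funext z
    conv_lhs => rw [← bil_apply, ← b.sum_repr' z.1, ← b'.sum_repr' z.2]
    rw [map_sum (bil T), LinearMap.sum_apply]
    refine Finset.sum_congr rfl fun i _ => ?_
    rw [map_sum]
    refine Finset.sum_congr rfl fun j _ => ?_
    rw [map_smul, map_smul, LinearMap.smul_apply, smul_smul, bil_apply, mul_comm]
  rw [h]
  refine ContDiff.sum fun i _ => ContDiff.sum fun j _ => ?_
  refine ContDiff.smul (ContDiff.mul ?_ ?_) contDiff_const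
  · exact contDiff_const.inner ℝ contDiff_fst
  · exact contDiff_const.inner ℝ contDiff_snd

include T in
theorem fin_M : FiniteDimensional ℝ M := by
  have := frm_fin Ψ
  let f : W × W →ₗ[ℝ] M := (bil T Φ.a).coprod (bil T Φ.b)
  refine Module.Finite.of_surjective f ?_
  intro X
  obtain ⟨v, w, h⟩ := T.surj Φ.a Φ.b ⟨Φ.ha, Φ.hb, Φ.hab⟩ X
  refine ⟨(v, w), ?_⟩
  rw [h]
  rfl

theorem B_neg (r : V) (v : W) : T.B r (-v) = -T.B r v := by
  rw [← neg_one_smul ℝ v, T.smul_r, neg_one_smul]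

end

end JTB

open JTB in
theorem prfTB (hP : clPair) : clTB := by
  intro V W M _ _ _ _ _ _ _ _ _ m n e Φ Ψ T
  have hB := contDiff_B T
  have h3 : ∀ (q : Fin (e + 1)) (r : V) (v : W), T.B (Φ.J q r) v = T.B r (Ψ.Js q v) ∧
      T.B (Φ.Js q r) v = T.B r (Ψ.J q v) := by
    intro q r v
    have hΨ := ((hP W n e Ψ).2.1 q v).1
    have hΦ := ((hP V m e Φ).2.1 q r).1
    constructor
    · conv_lhs => rw [← hΨ]
      exact T.bal q r _
    · rw [← T.bal q (Φ.Js q r) v, hΦ]
  refine ⟨hB, fin_M T, h3, ?_, ?_⟩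
  · intro q hq t r v
    have h4 : T.B (Φ.J q r) v = -T.B r (Ψ.J q v) := by
      rw [(h3 q r v).1]
      unfold Frm.Js
      rw [if_neg hq, B_neg]
    have h5 := T.bal q r v
    have h6 := Real.sin_sq_add_cos_sq t
    rw [T.add_l, T.add_r, T.add_r, T.smul_l, T.smul_l, T.smul_r, T.smul_r, T.smul_l, T.smul_l,
      T.smul_r, T.smul_r, h4, h5]
    have h7 : T.B r v = (Real.sin t ^ 2 + Real.cos t ^ 2) • T.B r v := by rw [h6, one_smul]
    conv_rhs => rw [h7]
    module
  · unfold Tns.X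
    refine ContDiff.add (ContDiff.smul ?_ ?_) (ContDiff.smul ?_ ?_)
    · exact contDiff_fst.comp contDiff_fst
    · exact hB.comp (((contDiff_fst.comp contDiff_snd)).prodMk
        (contDiff_fst.comp (contDiff_snd.comp (contDiff_snd.comp contDiff_snd))))
    · exact contDiff_snd.comp contDiff_fst
    · exact hB.comp ((contDiff_fst.comp (contDiff_snd.comp contDiff_snd)).prodMk
        (contDiff_snd.comp (contDiff_snd.comp (contDiff_snd.comp contDiff_snd))))

end Pool.Agent.Work.MP_408f4b_gt.Q
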